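import Mathlib

/-!
# Box principle in the space of functions spanned by a finite family

A linear combination with small integral coefficients is, for all additive maps to real vector
spaces at once, equal to a combination with tiny real coefficients.
-/

set_option autoImplicit false

namespace Pool.Agent.ZP.Box

open Finset

universe u v w

/-- Coefficients bounded by one, by a maximal minor. -/
theorem exists_small_coeffs {ι : Type u} [Fintype ι] {M : Type v} [AddCommGroup M] [Module ℚ M]
    (f : ι → M) {h : ℕ} (hh : Module.finrank ℚ (Submodule.span ℚ (Set.range f)) = h) :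
    ∃ (s : Fin h → ι) (r : ι → Fin h → ℚ), Function.Injective s ∧ (∀ i k, |r i k| ≤ 1) ∧
      ∀ i, f i = ∑ k, r i k • f (s k) := by
  classical
  set W := Submodule.span ℚ (Set.range f) with hW
  have : FiniteDimensional ℚ W := FiniteDimensional.span_of_finite ℚ (Set.finite_range f)
  let e : Module.Basis (Fin h) ℚ W := Module.finBasisOfFinrankEq ℚ W hh
  let v : ι → W := fun i => ⟨f i, Submodule.subset_span ⟨i, rfl⟩⟩
  have hspan : Submodule.span ℚ (Set.range v) = ⊤ := by
    apply Submodule.map_injective_of_injective W.injective_subtype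
    rw [Submodule.map_span, Submodule.map_top, Submodule.range_subtype, ← Set.range_comp]
    rfl
  -- a nonzero minor
  have hex : ∃ s : Fin h → ι, e.det (v ∘ s) ≠ 0 := by
    obtain ⟨b, hb1, hb2, hb3⟩ := exists_linearIndependent ℚ (Set.range v)
    rw [hspan] at hb2
    let B : Module.Basis b ℚ W := Module.Basis.mk hb3 (by rw [Subtype.range_coe, hb2])
    letI : Fintype b := FiniteDimensional.fintypeBasisIndex B
    have hc : Fintype.card b = h := by
      rw [← Module.finrank_eq_card_basis B, hh]
    let eq : Fin h ≃ b := (Fintype.equivFinOfCardEq hc).symm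
    have hpre : ∀ x : b, ∃ i, v i = x.1 := fun x => hb1 x.2
    choose p hp using hpre
    refine ⟨fun k => p (eq k), ?_⟩
    have h1 : (v ∘ fun k => p (eq k)) = B.reindex eq.symm := by
      funext k
      simp only [Function.comp, Module.Basis.reindex_apply, Equiv.symm_symm]
      rw [hp]
      simp [B]
    rw [h1]
    exact (e.isUnit_det (B.reindex eq.symm)).ne_zero
  obtain ⟨s0, hs0⟩ := hex
  have : Nonempty (Fin h → ι) := ⟨s0⟩
  obtain ⟨s, -, hs⟩ := exists_max_image (univ : Finset (Fin h → ι)) (fun s => |e.det (v ∘ s)|)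
    univ_nonempty
  have hs1 : e.det (v ∘ s) ≠ 0 := by
    intro h0
    have := hs s0 (mem_univ _)
    simp only [h0, abs_zero] at this
    exact hs0 (abs_eq_zero.1 (le_antisymm this (abs_nonneg _)))
  obtain ⟨hli, hsp⟩ := (Module.Basis.is_basis_iff_det e).2 (isUnit_iff_ne_zero.2 hs1)
  let B : Module.Basis (Fin h) ℚ W := Module.Basis.mk hli hsp.ge
  have hB : ∀ k, B k = v (s k) := fun k => by simp [B]
  refine ⟨s, fun i k => B.repr (v i) k, ?_, ?_, ?_⟩
  · intro k l hkl
    have : (v ∘ s) k = (v ∘ s) l := by simp [hkl]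
    exact hli.injective this
  · intro i k
    have h1 : e.det (v ∘ Function.update s k i) = B.repr (v i) k * e.det (v ∘ s) := by
      have h2 : v ∘ Function.update s k i = Function.update (v ∘ s) k (v i) := by
        funext l
        by_cases hl : l = k
        · subst hl
          simp
        · simp [Function.update_of_ne hl]
      rw [h2]
      conv_lhs => rw [← B.sum_repr (v i)]
      rw [AlternatingMap.map_update_sum]
      rw [sum_eq_single k]
      · rw [hB, AlternatingMap.map_update_smul, smul_eq_mul]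
        congr 1
        have : Function.update (v ∘ s) k (v (s k)) = v ∘ s := by
          have := Function.update_eq_self k (v ∘ s)
          exact this
        rw [this]
      · intro l _ hl
        rw [hB, AlternatingMap.map_update_smul]
        have : e.det (Function.update (v ∘ s) k ((v ∘ s) l)) = 0 :=
          AlternatingMap.map_update_self _ _ (Ne.symm hl)
        have h3 : e.det (Function.update (v ∘ s) k (v (s l))) = 0 := this
        rw [h3, smul_zero]
      · intro hk
        exact absurd (mem_univ k) hk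
    have h2 := hs (Function.update s k i) (mem_univ _)
    rw [h1, abs_mul] at h2
    have h3 : 0 < |e.det (v ∘ s)| := abs_pos.2 hs1
    by_contra hcon
    push Not at hcon
    nlinarith
  · intro i
    have h1 := B.sum_repr (v i)
    have h2 := congrArg (fun x : W => (x : M)) h1
    simp only [Submodule.coe_sum, Submodule.coe_smul, hB] at h2
    exact h2.symm

/-- Box principle. -/
theorem box {ι : Type u} [Fintype ι] {H ρ : ℕ} {δ : ℝ} {M : Type v} [AddCommGroup M]
    [Module ℚ M] (f : ι → M)
    (hH : Module.finrank ℚ (Submodule.span ℚ (Set.range f)) ≤ H) (hδ : 0 < δ)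
    (hcount : (2 * Fintype.card ι * ρ / δ + 1) ^ H < ((ρ : ℝ) + 1) ^ Fintype.card ι) :
    ∃ (g : ι → ℤ) (Ψ : ι → ℝ), g ≠ 0 ∧ (∀ i, |g i| ≤ ρ) ∧ (∀ i, |Ψ i| ≤ δ) ∧
      ∀ (N : Type w) [AddCommGroup N] [Module ℝ N] (φ : M →+ N),
        ∑ i, (g i : ℝ) • φ (f i) = ∑ i, Ψ i • φ (f i) := by
  classical
  obtain ⟨h, hh⟩ : ∃ h, Module.finrank ℚ (Submodule.span ℚ (Set.range f)) = h := ⟨_, rfl⟩
  obtain ⟨s, r, hs, hr, hf⟩ := exists_small_coeffs f hh
  set D := Fintype.card ι with hD
  have hhH : h ≤ H := hh ▸ hH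
  have hbase : 0 ≤ 2 * (D : ℝ) * ρ / δ := by positivity
  -- number of boxes
  set K : ℕ := ⌊2 * (D : ℝ) * ρ / δ⌋₊ + 1 with hK
  have hKle : (K : ℝ) ≤ 2 * D * ρ / δ + 1 := by
    rw [hK]
    push_cast
    linarith [Nat.floor_le hbase]
  have hcard : K ^ h < (ρ + 1) ^ D := by
    have h1 : (K : ℝ) ^ h < ((ρ : ℝ) + 1) ^ D :=
      calc (K : ℝ) ^ h ≤ (2 * D * ρ / δ + 1) ^ h := pow_le_pow_left₀ (by positivity) hKle _
        _ ≤ (2 * D * ρ / δ + 1) ^ H := pow_le_pow_right₀ (by linarith) hhH
        _ < _ := hcount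
    exact_mod_cast h1
  -- values
  let y : (ι → ℤ) → Fin h → ℝ := fun g k => ∑ i, (g i : ℝ) * (r i k : ℝ)
  have hrR : ∀ i k, |(r i k : ℝ)| ≤ 1 := by
    intro i k
    have := hr i k
    exact_mod_cast this
  have hy : ∀ (g : ι → Fin (ρ + 1)) (k : Fin h),
      |y (fun i => ((g i : ℕ) : ℤ)) k| ≤ D * ρ := by
    intro g k
    refine (abs_sum_le_sum_abs _ _).trans ?_
    calc ∑ i, |((((g i : ℕ) : ℤ) : ℝ)) * (r i k : ℝ)| ≤ ∑ _i : ι, (ρ : ℝ) := by
          apply sum_le_sum
          intro i _
          rw [abs_mul]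
          have h1 : |((((g i : ℕ) : ℤ) : ℝ))| ≤ ρ := by
            rw [Int.cast_natCast, abs_of_nonneg (by positivity)]
            have : (g i : ℕ) ≤ ρ := Nat.lt_succ_iff.1 (g i).2
            exact_mod_cast this
          calc _ ≤ (ρ : ℝ) * 1 := mul_le_mul h1 (hrR i k) (abs_nonneg _) (by positivity)
            _ = ρ := mul_one _
      _ = D * ρ := by
          rw [sum_const, card_univ, nsmul_eq_mul]
  let bx : (ι → Fin (ρ + 1)) → (Fin h → Fin K) := fun g k =>
    ⟨⌊(y (fun i => ((g i : ℕ) : ℤ)) k + D * ρ) / δ⌋₊, by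
      have h1 := abs_le.1 (hy g k)
      have h2 : (y (fun i => ((g i : ℕ) : ℤ)) k + D * ρ) / δ ≤ 2 * D * ρ / δ := by
        apply div_le_div_of_nonneg_right _ hδ.le
        linarith
      exact Nat.lt_succ_of_le (Nat.floor_le_floor h2)⟩
  obtain ⟨g₁, g₂, hne, heq⟩ := Fintype.exists_ne_map_eq_of_card_lt bx (by
    simp only [Fintype.card_pi, Fintype.card_fin, prod_const, card_univ]
    exact hcard)
  let g : ι → ℤ := fun i => ((g₁ i : ℕ) : ℤ) - ((g₂ i : ℕ) : ℤ)
  have hyg : ∀ k, y g k = y (fun i => ((g₁ i : ℕ) : ℤ)) k - y (fun i => ((g₂ i : ℕ) : ℤ)) k := by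
    intro k
    simp only [y, g]
    rw [← sum_sub_distrib]
    apply sum_congr rfl
    intro i _
    push_cast
    ring
  have hysmall : ∀ k, |y g k| ≤ δ := by
    intro k
    have h1 : ⌊(y (fun i => ((g₁ i : ℕ) : ℤ)) k + D * ρ) / δ⌋₊ =
        ⌊(y (fun i => ((g₂ i : ℕ) : ℤ)) k + D * ρ) / δ⌋₊ := by
      have := congrFun heq k
      exact Fin.val_eq_of_eq this
    have a1 : 0 ≤ (y (fun i => ((g₁ i : ℕ) : ℤ)) k + D * ρ) / δ := by
      apply div_nonneg _ hδ.le
      linarith [(abs_le.1 (hy g₁ k)).1]
    have a2 : 0 ≤ (y (fun i => ((g₂ i : ℕ) : ℤ)) k + D * ρ) / δ := by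
      apply div_nonneg _ hδ.le
      linarith [(abs_le.1 (hy g₂ k)).1]
    have b1 := Nat.floor_le a1
    have b2 := Nat.lt_floor_add_one ((y (fun i => ((g₁ i : ℕ) : ℤ)) k + D * ρ) / δ)
    have b3 := Nat.floor_le a2
    have b4 := Nat.lt_floor_add_one ((y (fun i => ((g₂ i : ℕ) : ℤ)) k + D * ρ) / δ)
    rw [h1] at b1 b2
    rw [div_lt_iff₀ hδ] at b2 b4
    rw [le_div_iff₀ hδ] at b1 b3
    rw [hyg, abs_le]
    constructor <;> nlinarith
  have hgne : g ≠ 0 := by
    intro h0
    apply hne
    funext i
    have := congrFun h0 i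
    simp only [g, Pi.zero_apply] at this
    apply Fin.ext
    omega
  refine ⟨g, fun i => ∑ k, if s k = i then y g k else 0, hgne, ?_, ?_, ?_⟩
  · intro i
    have h1 := (g₁ i).2
    have h2 := (g₂ i).2
    simp only [g]
    rw [abs_le]
    constructor <;> omega
  · intro i
    show |∑ k, if s k = i then y g k else 0| ≤ δ
    by_cases hi : ∃ k, s k = i
    · obtain ⟨k, hk⟩ := hi
      have : (∑ l, if s l = i then y g l else 0) = y g k := by
        rw [sum_eq_single k]
        · rw [if_pos hk]
        · intro l _ hl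
          rw [if_neg]
          intro h1
          exact hl (hs (h1.trans hk.symm))
        · intro h1
          exact absurd (mem_univ k) h1
      rw [this]
      exact hysmall k
    · push Not at hi
      have : (∑ l, if s l = i then y g l else 0) = 0 := by
        apply sum_eq_zero
        intro l _
        rw [if_neg (hi l)]
      rw [this, abs_zero]
      exact hδ.le
  · intro N _ _ φ
    have h1 : ∀ i, φ (f i) = ∑ k, (r i k : ℝ) • φ (f (s k)) := by
      intro i
      conv_lhs => rw [hf i]
      rw [map_sum]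
      apply sum_congr rfl
      intro k _
      have := map_ratCast_smul φ ℚ ℝ (r i k) (f (s k))
      simpa using this
    have h2 : ∑ i, (g i : ℝ) • φ (f i) = ∑ k, y g k • φ (f (s k)) := by
      calc ∑ i, (g i : ℝ) • φ (f i) = ∑ i, ∑ k, ((g i : ℝ) * (r i k : ℝ)) • φ (f (s k)) := by
            apply sum_congr rfl
            intro i _
            rw [h1 i, smul_sum]
            apply sum_congr rfl
            intro k _
            rw [smul_smul]
        _ = ∑ k, ∑ i, ((g i : ℝ) * (r i k : ℝ)) • φ (f (s k)) := sum_comm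
        _ = _ := by
            apply sum_congr rfl
            intro k _
            rw [← sum_smul]
    rw [h2]
    have h3 : ∀ i, (∑ k, if s k = i then y g k else 0) • φ (f i) =
        ∑ k, if s k = i then y g k • φ (f (s k)) else 0 := by
      intro i
      rw [sum_smul]
      apply sum_congr rfl
      intro k _
      by_cases hk : s k = i
      · rw [if_pos hk, if_pos hk, hk]
      · rw [if_neg hk, if_neg hk, zero_smul]
    rw [sum_congr rfl (fun i _ => h3 i), sum_comm]
    apply sum_congr rfl
    intro k _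
    rw [sum_ite_eq (univ : Finset ι) (s k) (fun _ => y g k • φ (f (s k))), if_pos (mem_univ _)]

end Pool.Agent.ZP.Box
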