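import Mathlib
import Pool.Agent.Lib.MP_c95b3b_ag_SD.Defs2
import Pool.Agent.Lib.MP_c95b3b_ag_AL.Defs

set_option autoImplicit false

/-! Project ZP (MP_c95b3b_ag): Zilber's conjecture for tori, for all varieties. Definitions.
Text: /team-store/ZP_full_h57.md. -/

namespace Pool.Agent.ZP

open MvPolynomial Filter Topology Module Pool.Agent.L3 Pool.Agent.SD Pool.Agent.AL

/-! ### Blocks of coordinates -/

/-- the part of a vector in the block `j` -/
def pj {α : Type} [Zero α] {n q : ℕ} (blk : Fin n → Fin (q + 1)) (j : Fin (q + 1))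
    (a : Fin n → α) : Fin n → α := fun i => if blk i = j then a i else 0

/-- integer vectors supported in the block `j` -/
def blL {n q : ℕ} (blk : Fin n → Fin (q + 1)) (j : Fin (q + 1)) : Submodule ℤ (Fin n → ℤ) where
  carrier := {a | ∀ i, blk i ≠ j → a i = 0}
  add_mem' := by
    intro a b ha hb i hi
    simp [ha i hi, hb i hi]
  zero_mem' := fun _ _ => rfl
  smul_mem' := by
    intro c a ha i hi
    simp [ha i hi]

/-- real vectors supported in the block `j` -/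
def blR {n q : ℕ} (blk : Fin n → Fin (q + 1)) (j : Fin (q + 1)) : Submodule ℝ (Fin n → ℝ) where
  carrier := {a | ∀ i, blk i ≠ j → a i = 0}
  add_mem' := by
    intro a b ha hb i hi
    simp [ha i hi, hb i hi]
  zero_mem' := fun _ _ => rfl
  smul_mem' := by
    intro c a ha i hi
    simp [ha i hi]

/-- integer vectors which vanish in the block `0` -/
def uL {n q : ℕ} (blk : Fin n → Fin (q + 1)) : Submodule ℤ (Fin n → ℤ) where
  carrier := {a | ∀ i, blk i = 0 → a i = 0}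
  add_mem' := by
    intro a b ha hb i hi
    simp [ha i hi, hb i hi]
  zero_mem' := fun _ _ => rfl
  smul_mem' := by
    intro c a ha i hi
    simp [ha i hi]

/-- real vectors which vanish in the block `0` -/
def uR {n q : ℕ} (blk : Fin n → Fin (q + 1)) : Submodule ℝ (Fin n → ℝ) where
  carrier := {a | ∀ i, blk i = 0 → a i = 0}
  add_mem' := by
    intro a b ha hb i hi
    simp [ha i hi, hb i hi]
  zero_mem' := fun _ _ => rfl
  smul_mem' := by
    intro c a ha i hi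
    simp [ha i hi]

/-- graded lattices -/
def Gr {n q : ℕ} (blk : Fin n → Fin (q + 1)) (Λ : Submodule ℤ (Fin n → ℤ)) : Prop :=
  ∀ a ∈ Λ, ∀ j, pj blk j a ∈ Λ

/-- the real span of a lattice -/
noncomputable def spR {n : ℕ} (Λ : Submodule ℤ (Fin n → ℤ)) : Submodule ℝ (Fin n → ℝ) :=
  Submodule.span ℝ (rv '' (Λ : Set (Fin n → ℤ)))

/-- the vector `b i / s (blk i)` -/
noncomputable def sc {n q : ℕ} (blk : Fin n → Fin (q + 1)) (s : Fin (q + 1) → ℝ)
    (b : Fin n → ℝ) : Fin n → ℝ := fun i => b i / s (blk i)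

/-- the sum over the blocks of the dimensions of the images under the characters in `Λ` which are
supported in the block -/
noncomputable def dd {L : Type} [Field L] [Algebra ℂ L] {n q : ℕ} (x : Fin n → L)
    (blk : Fin n → Fin (q + 1)) (Λ : Submodule ℤ (Fin n → ℤ)) : ℕ := ∑ j, rkZ x (Λ ⊓ blL blk j)

/-- `Ψ(Λ) ≥ k`, where `Ψ(Λ) = dim V - dim (V ∩ Λ_ℝ) - (dd ⊤ - dd Λ)` -/
def Psi {L : Type} [Field L] [Algebra ℂ L] {n q : ℕ} (x : Fin n → L)
    (blk : Fin n → Fin (q + 1)) (V : Submodule ℝ (Fin n → ℝ)) (Λ : Submodule ℤ (Fin n → ℤ))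
    (k : ℕ) : Prop :=
  dd x blk ⊤ + finrank ℝ (V ⊓ spR Λ : Submodule ℝ (Fin n → ℝ)) + k ≤ finrank ℝ V + dd x blk Λ

/-- The ring of units of the sequence is large: it contains the inverses of the values different
from `0` of the polynomials of bounded degree, the logarithms of whose coefficients are bounded by
a multiple of the heights. -/
def Sat {n : ℕ} (𝓤 : Ultrafilter ℕ) (S : Sq n) : Prop :=
  ∀ B : ℕ, ∀ᶠ ν in (𝓤 : Filter ℕ), ∀ F : MvPolynomial (Fin n) ℤ, (∀ i, F.degreeOf i ≤ B) →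
    Real.log (l1 F) ≤ B * (1 + ∑ i, S.ht (rv (Pi.single i 1)) ν) → aeval (S.p ν) F ≠ 0 →
    (aeval (S.p ν) F)⁻¹ ∈ S.R ν

/-- `Sat`, with the scales `s ν (blk i)` in place of the heights. -/
def SatS {n q : ℕ} (𝓤 : Ultrafilter ℕ) (S : Sq n) (blk : Fin n → Fin (q + 1))
    (s : ℕ → Fin (q + 1) → ℝ) : Prop :=
  ∀ B : ℕ, ∀ᶠ ν in (𝓤 : Filter ℕ), ∀ F : MvPolynomial (Fin n) ℤ, (∀ i, F.degreeOf i ≤ B) →
    Real.log (l1 F) ≤ B * (1 + ∑ i, s ν (blk i)) → aeval (S.p ν) F ≠ 0 →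
    (aeval (S.p ν) F)⁻¹ ∈ S.R ν

/-! ### Configurations -/

/-- Configurations. `x` is the generic point over `ℂ` of the closure of the sequence of points `S`
(images of one point under monomial maps, the characters of small height may occur again in the
blocks of larger height). The block `j` has height `s ν j`. `V` consists of neutral real
exponents (for the vectors `log |x i| / s (blk i)`), `Λ0` of the light characters. `bd` says that
there is a block of bounded height, this is the block `0`. -/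
structure Cfg (𝓤 : Ultrafilter ℕ) (n q : ℕ) where
  S : Sq n
  e : ∀ ν, S.K ν →+* ℂ
  L : Type
  [fL : Field L]
  [aL : Algebra ℂ L]
  x : Fin n → L
  blk : Fin n → Fin (q + 1)
  s : ℕ → Fin (q + 1) → ℝ
  V : Submodule ℝ (Fin n → ℝ)
  Λ0 : Submodule ℤ (Fin n → ℤ)
  bd : Prop
  hx : ∀ i, x i ≠ 0
  hG : Gn 𝓤 S x
  hAD : AD x
  hY : ∀ᶠ ν in (𝓤 : Filter ℕ), OnY x (fun i => e ν (S.p ν i))
  hSat : SatS 𝓤 S blk s
  s_one : ∀ ν, 1 ≤ s ν 0
  s_le : ∀ ν j, s ν 0 ≤ s ν j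
  s_sep : ∀ T : ℝ, ∀ᶠ ν in (𝓤 : Filter ℕ), ∀ i i', blk i < blk i' →
    T * s ν (blk i) ≤ s ν (blk i')
  hbd : ∃ C : ℝ, ∀ᶠ ν in (𝓤 : Filter ℕ), ∀ i, S.ht (rv (Pi.single i 1)) ν ≤ C * s ν (blk i)
  hV : ∀ b ∈ V, Tendsto (fun ν => S.ht (sc blk (s ν) b) ν) 𝓤 (𝓝 0)
  gr : Gr blk Λ0
  Λ0V : ∀ a ∈ Λ0, rv a ∈ V
  heavy : ∀ j, (bd → j ≠ 0) → ∀ a ∈ blL blk j, a ∉ Λ0 →
    ¬ Tendsto (fun ν => S.ht (rv a) ν / s ν j) 𝓤 (𝓝 0)
  unb : ¬ bd → Tendsto (fun ν => s ν 0) 𝓤 atTop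
  bdd : bd → (∀ ν, s ν 0 = 1) ∧ (∀ a ∈ Λ0, a ∈ uL blk) ∧
    (∀ a ∈ blL blk 0, a ≠ 0 → om x (rv a) ≠ 0) ∧ ∃ i, blk i = 0
  dim : Psi x blk V Λ0 1

attribute [instance] Cfg.fL Cfg.aL

/-- minimality of the configuration -/
def Cfg.Mn {𝓤 : Ultrafilter ℕ} {n q : ℕ} (c : Cfg 𝓤 n q) : Prop :=
  ∀ Λ : Submodule ℤ (Fin n → ℤ), Gr c.blk Λ → c.Λ0 ≤ Λ → finrank ℤ Λ < n →
    Psi c.x c.blk c.V Λ 1

/-! ### Laurent polynomials in power series -/

section
variable {K : Type} [Field K] {n : ℕ}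

/-- the Laurent monomial `∏ Ξ i ^ a i` in the power series `Ξ i` -/
noncomputable def psm (Ξ : Fin n → MvPowerSeries (Fin n) K) (a : Fin n → ℤ) :
    MvPowerSeries (Fin n) K := ∏ i, (Ξ i ^ (a i).toNat * (Ξ i)⁻¹ ^ (-a i).toNat)

/-- the Laurent polynomial `∑ q a * X^a` (`a` in `T`) at `Ξ` -/
noncomputable def lp (Ξ : Fin n → MvPowerSeries (Fin n) K) (T : Finset (Fin n → ℤ))
    (q : (Fin n → ℤ) → K) : MvPowerSeries (Fin n) K :=
  ∑ a ∈ T, MvPowerSeries.C (q a) * psm Ξ a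

/-- `f` is at the place `w` the value at `Ξ` of a Laurent polynomial whose exponents are bounded
by `D i`, and whose terms are bounded by `exp b` at the point `p` (together with the sum of the
coefficients in the archimedean case). -/
def RepW {R : Subring K} (W : Places K R) (p : Fin n → K) (Ξ : Fin n → MvPowerSeries (Fin n) K)
    (f : MvPowerSeries (Fin n) K) (D : Fin n → ℝ) (b : ℝ) : W.Pl → Prop
  | .inl σ => ∃ (T : Finset (Fin n → ℤ)) (r : (Fin n → ℤ) → ℂ),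
      MvPowerSeries.map (W.σ σ) f = lp (fun i => MvPowerSeries.map (W.σ σ) (Ξ i)) T r ∧
      (∀ a ∈ T, ∀ i, |(a i : ℝ)| ≤ D i) ∧
      ∀ a ∈ T, Real.log (∑ a' ∈ T, ‖r a'‖) + ∑ i, (a i : ℝ) * W.lg (.inl σ) (p i) ≤ b
  | .inr v => ∃ (T : Finset (Fin n → ℤ)) (r : (Fin n → ℤ) → ℤ),
      f = lp Ξ T (fun a => (r a : K)) ∧ (∀ a ∈ T, ∀ i, |(a i : ℝ)| ≤ D i) ∧
      ∀ a ∈ T, ∑ i, (a i : ℝ) * W.lg (.inr v) (p i) ≤ b

end

/-! ### Closures -/

/-- The closure of the points of a configuration with respect to relations of bounded degree and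
of size `O(s j / s 0)` (`j` the block), and its branch at the points. -/
structure Cl {𝓤 : Ultrafilter ℕ} {n q : ℕ} (c : Cfg 𝓤 n q) where
  I : Finset (Fin n)
  d : ℕ
  g : ℕ → Fin n → MvPolynomial (Fin n) ℤ
  Ξ : ∀ ν, Fin n → MvPowerSeries (Fin n) (c.S.K ν)
  no : ∀ B : ℝ, ∀ᶠ ν in (𝓤 : Filter ℕ), NoRel I c.blk (c.S.p ν) (c.s ν) B
  rel : ∀ᶠ ν in (𝓤 : Filter ℕ), IsRel I c.blk (c.S.p ν) (g ν) ∧ ∀ l, l ∉ I →
    (∀ i, (g ν l).degreeOf i ≤ d) ∧
    Real.log (l1 (g ν l)) ≤ d * (c.s ν (c.blk l) / c.s ν 0)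
  br : ∀ᶠ ν in (𝓤 : Filter ℕ), IsBranch I (c.S.p ν) (g ν) (Ξ ν)
  sup : ∀ᶠ ν in (𝓤 : Filter ℕ), ∀ l γ, (∃ j, c.blk j ≠ c.blk l ∧ γ j ≠ 0) →
    MvPowerSeries.coeff γ (Ξ ν l) = 0
  nrm : ∀ᶠ ν in (𝓤 : Filter ℕ), BranchNorm I c.blk (c.S.p ν) (g ν) (Ξ ν)
  int : ∀ᶠ ν in (𝓤 : Filter ℕ), BranchInt I (c.S.p ν) (g ν) (Ξ ν)

/-- the field of the complex branches -/
abbrev FC (n : ℕ) : Type := FractionRing (MvPowerSeries (Fin n) ℂ)

/-- the complex branch, as a point with coordinates in the field `FC n` -/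
noncomputable def Cl.xi {𝓤 : Ultrafilter ℕ} {n q : ℕ} {c : Cfg 𝓤 n q} (cl : Cl c) (ν : ℕ)
    (i : Fin n) : FC n :=
  algebraMap (MvPowerSeries (Fin n) ℂ) (FC n) (MvPowerSeries.map (c.e ν) (cl.Ξ ν i))

/-! ### Types (valuations of maximal rank) of the closures -/

/-- `A` is the type, `M` the order and `c` the leading coefficients of a valuation of maximal
rank: `c` is a character of the kernel of `A`, and the terms of smallest order of every linear
relation between monomials in `x` satisfy the corresponding relation (compare `GC.cones`). -/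
def LPr {L : Type} [Field L] [Algebra ℂ L] {n t : ℕ} (x : Fin n → L)
    (A : (Fin n → ℤ) →+ (Fin t → ℤ)) (M : Matrix (Fin t) (Fin t) ℤ) (c : (Fin n → ℤ) → ℂ) : Prop :=
  M.det ≠ 0 ∧ (∀ a, A a = 0 → c a ≠ 0) ∧
    (∀ a b, A a = 0 → A b = 0 → c (a + b) = c a * c b) ∧
    ∀ (S : Finset (Fin n → ℤ)) (m : (Fin n → ℤ) → ℂ) (a0 : Fin n → ℤ),
      ∑ a ∈ S, algebraMap ℂ L (m a) * mn x a = 0 →
      (∀ a ∈ S, toLex (M.mulVec (A a0)) ≤ toLex (M.mulVec (A a))) →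
      ∑ a ∈ S with A a = A a0, m a * c (a - a0) = 0

/-- a type of the closures of a configuration -/
structure Ty {𝓤 : Ultrafilter ℕ} {n q : ℕ} {c : Cfg 𝓤 n q} (cl : Cl c) where
  A : (Fin n → ℤ) →+ (Fin cl.I.card → ℤ)
  surj : Function.Surjective A
  M : ℕ → Matrix (Fin cl.I.card) (Fin cl.I.card) ℤ
  cc : ℕ → (Fin n → ℤ) → ℂ
  lpr : ∀ᶠ ν in (𝓤 : Filter ℕ), LPr (cl.xi ν) A (M ν) (cc ν)

/-- the real extension of `A` -/
noncomputable def AR {n t : ℕ} (A : (Fin n → ℤ) →+ (Fin t → ℤ)) (v : Fin n → ℝ) : Fin t → ℝ :=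
  fun i => ∑ l, v l * (A (Pi.single l 1) i : ℝ)

/-- the coordinates of the block `0` -/
abbrev B0 {n q : ℕ} (blk : Fin n → Fin (q + 1)) : Type := {i : Fin n // blk i = 0}

/-- The neutral exponents `b` which are trivial for the type in the blocks `≠ 0`. -/
noncomputable def Ty.W {𝓤 : Ultrafilter ℕ} {n q : ℕ} {c : Cfg 𝓤 n q} {cl : Cl c} (T : Ty cl) :
    Submodule ℝ (Fin n → ℝ) where
  carrier := {b | b ∈ c.V ∧ AR T.A (b - pj c.blk 0 b) = 0}
  add_mem' := by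
    rintro a b ⟨ha, ha'⟩ ⟨hb, hb'⟩
    refine ⟨c.V.add_mem ha hb, ?_⟩
    funext i
    have h1 := congrFun ha' i
    have h2 := congrFun hb' i
    simp only [AR, Pi.zero_apply] at h1 h2 ⊢
    rw [← add_zero (0 : ℝ)]
    nth_rw 1 [← h1]
    rw [← h2, ← Finset.sum_add_distrib]
    refine Finset.sum_congr rfl fun l _ => ?_
    simp only [pj, Pi.add_apply, Pi.sub_apply]
    split_ifs <;> ring
  zero_mem' := by
    refine ⟨c.V.zero_mem, ?_⟩
    funext i
    simp [AR, pj]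
  smul_mem' := by
    rintro r a ⟨ha, ha'⟩
    refine ⟨c.V.smul_mem r ha, ?_⟩
    funext i
    have h1 := congrFun ha' i
    simp only [AR, Pi.zero_apply] at h1 ⊢
    rw [← mul_zero r, ← h1, Finset.mul_sum]
    refine Finset.sum_congr rfl fun l _ => ?_
    simp only [pj, Pi.smul_apply, Pi.sub_apply, smul_eq_mul]
    split_ifs <;> ring

/-- the value `∑ b l * log |ψ l| + ζ` -/
noncomputable def pv {m : ℕ} (b : (Fin m → ℝ) × ℝ) (z : Fin m → ℂ) : ℝ :=
  ∑ l, b.1 l * Real.log ‖z l‖ + b.2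

end Pool.Agent.ZP
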