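import Pool.Agent.Lib.MP_c95b3b_ag_AL.ZA
import Pool.Agent.Lib.MP_c95b3b_ag_AL.BH
import Pool.Agent.Lib.MP_c95b3b_ag_ZP.Defs

set_option autoImplicit false

/-! Project ZP (MP_c95b3b_ag), block C, module CA: the closures and their branches. -/

namespace Pool.Agent.ZP

open Pool.Agent.L3 Pool.Agent.KP Pool.Agent.AL Pool.Agent.SD Module MvPolynomial

lemma CA.noRel_empty {ι K : Type} [Fintype ι] [Field K] [CharZero K] {q : ℕ}
    (blk : ι → Fin (q + 1)) (P : ι → K) (s : Fin (q + 1) → ℝ) (B : ℝ) :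
    NoRel ∅ blk P s B := by
  intro j R hR hv _ _
  have h1 : R.vars = ∅ := by
    rw [Finset.eq_empty_iff_forall_notMem]
    intro i hi
    exact absurd (hv i hi).1 (Finset.notMem_empty i)
  rw [vars_eq_empty_iff_eq_C] at h1
  rw [h1, aeval_C]
  intro h0
  have h2 : ((coeff 0 R : ℤ) : K) = 0 := by
    rw [← h0]
    simp
  have h3 : coeff 0 R = 0 := by exact_mod_cast h2
  rw [h3, C_0] at h1
  exact hR h1

/-- the descent by derivatives -/
lemma CA.descent {ι K : Type} [Fintype ι] [DecidableEq ι] [Field K] {q : ℕ} {I : Finset ι}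
    {blk : ι → Fin (q + 1)} {P : ι → K} {s : Fin (q + 1) → ℝ} {l : ι}
    {j : Fin (q + 1)} {b B' : ℝ} (hb : 0 ≤ b) (hB' : b + b * Real.log (b + 1) ≤ B')
    (hρ : 1 ≤ s j / s 0) (hno : NoRel I blk P s B') {R : MvPolynomial ι ℤ}
    (hv : ∀ i ∈ R.vars, i ∈ insert l I ∧ blk i = j) (hd : ∀ i, (R.degreeOf i : ℝ) ≤ b)
    (hl1 : Real.log (l1 R) ≤ b * (s j / s 0)) :
    ∀ (t : ℕ) (T : MvPolynomial ι ℤ), T.degreeOf l = t → T ≠ 0 → T.vars ⊆ R.vars →
      (∀ i, T.degreeOf i ≤ R.degreeOf i) →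
      Real.log (l1 T) ≤ Real.log (l1 R) +
        ((R.degreeOf l : ℝ) - T.degreeOf l) * Real.log (b + 1) → aeval P T = 0 →
      ∃ G : MvPolynomial ι ℤ, G.vars ⊆ R.vars ∧ l ∈ G.vars ∧ (∀ i, (G.degreeOf i : ℝ) ≤ b) ∧
        Real.log (l1 G) ≤ B' * (s j / s 0) ∧ aeval P G = 0 ∧ aeval P (pderiv l G) ≠ 0 := by
  have hlog : 0 ≤ Real.log (b + 1) := Real.log_nonneg (by linarith)
  have hbl : 0 ≤ b * Real.log (b + 1) := mul_nonneg hb hlog
  intro t
  induction t using Nat.strong_induction_on with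
  | _ t ih =>
    intro T hTt hT0 hTv hTd hTl hTa
    have hbound : Real.log (l1 T) ≤ B' * (s j / s 0) := by
      have h1 : ((R.degreeOf l : ℝ) - T.degreeOf l) * Real.log (b + 1) ≤
          b * Real.log (b + 1) := by
        refine mul_le_mul_of_nonneg_right ?_ hlog
        have := hd l
        have h2 : (0 : ℝ) ≤ T.degreeOf l := Nat.cast_nonneg _
        linarith
      have h3 : b * Real.log (b + 1) ≤ b * Real.log (b + 1) * (s j / s 0) :=
        le_mul_of_one_le_right hbl hρ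
      have h4 : (b + b * Real.log (b + 1)) * (s j / s 0) ≤ B' * (s j / s 0) :=
        mul_le_mul_of_nonneg_right hB' (by linarith)
      have h5 : (b + b * Real.log (b + 1)) * (s j / s 0) =
          b * (s j / s 0) + b * Real.log (b + 1) * (s j / s 0) := by ring
      linarith
    have hTdb : ∀ i, (T.degreeOf i : ℝ) ≤ b := fun i =>
      le_trans (by exact_mod_cast hTd i) (hd i)
    have hlT : l ∈ T.vars := by
      by_contra hlT
      refine hno j T hT0 (fun i hi => ?_) (fun i => (hTdb i).trans ?_) hbound hTa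
      · have h1 := hv i (hTv hi)
        refine ⟨(Finset.mem_insert.1 h1.1).resolve_left ?_, h1.2⟩
        rintro rfl
        exact hlT hi
      · linarith
    by_cases hda : aeval P (pderiv l T) = 0
    · obtain ⟨h1, h2⟩ := degreeOf_pderiv_self T l hlT
      refine ih _ (hTt ▸ h1) (pderiv l T) rfl h2 ((vars_pderiv T l).trans hTv)
        (fun i => (degreeOf_pderiv_le T l i).trans (hTd i)) ?_ hda
      have h3 : Real.log (l1 (pderiv l T)) ≤ Real.log (b + 1) + Real.log (l1 T) := by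
        have h4 : 1 ≤ l1 T := one_le_l1 hT0
        have h5 : 1 ≤ l1 (pderiv l T) := one_le_l1 h2
        rw [← Real.log_mul (by linarith) (by linarith)]
        refine Real.log_le_log (by linarith) ((l1_pderiv T l).trans ?_)
        exact mul_le_mul_of_nonneg_right (by linarith [hTdb l]) (by linarith)
      have h6 : ((pderiv l T).degreeOf l : ℝ) + 1 ≤ T.degreeOf l := by exact_mod_cast h1
      have h7 : ((R.degreeOf l : ℝ) - T.degreeOf l + 1) * Real.log (b + 1) ≤
          ((R.degreeOf l : ℝ) - (pderiv l T).degreeOf l) * Real.log (b + 1) :=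
        mul_le_mul_of_nonneg_right (by linarith) hlog
      linarith
    · exact ⟨T, hTv, hlT, hTdb, hbound, hTa, hda⟩

theorem exists_rel0 {ι : Type} [Fintype ι] [DecidableEq ι] {q : ℕ} (blk : ι → Fin (q + 1))
    (𝒰 : Ultrafilter ℕ) (K : ℕ → Type) [∀ n, Field (K n)] [∀ n, CharZero (K n)]
    (U : ∀ n, ι → K n) (s : ℕ → Fin (q + 1) → ℝ)
    (hs1 : ∀ n, 1 ≤ s n 0) (hs2 : ∀ n j, s n 0 ≤ s n j) :
    ∃ (I : Finset ι) (d : ℕ) (g : ∀ _ : ℕ, ι → MvPolynomial ι ℤ),
      (∀ B : ℝ, ∀ᶠ n in (𝒰 : Filter ℕ), NoRel I blk (U n) (s n) B) ∧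
      ∀ᶠ n in (𝒰 : Filter ℕ), IsRel I blk (U n) (g n) ∧ ∀ l, l ∉ I →
        (∀ i, (g n l).degreeOf i ≤ d) ∧ Real.log (l1 (g n l)) ≤ d * (s n (blk l) / s n 0) := by
  classical
  set Good : Finset ι → Prop := fun I =>
    ∀ B : ℝ, ∀ᶠ n in (𝒰 : Filter ℕ), NoRel I blk (U n) (s n) B with hGood
  have hne : ((Finset.univ : Finset (Finset ι)).filter Good).Nonempty :=
    ⟨∅, by
      rw [Finset.mem_filter]
      exact ⟨Finset.mem_univ _, fun B => Filter.Eventually.of_forall fun n =>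
        CA.noRel_empty blk (U n) (s n) B⟩⟩
  obtain ⟨I, hI, hmax⟩ := Finset.exists_max_image _ Finset.card hne
  have hIg : Good I := (Finset.mem_filter.1 hI).2
  have hbad : ∀ l, ∃ B : ℝ, l ∉ I →
      ∀ᶠ n in (𝒰 : Filter ℕ), ¬ NoRel (insert l I) blk (U n) (s n) B := by
    intro l
    by_cases hl : l ∈ I
    · exact ⟨0, fun h => absurd hl h⟩
    · have h1 : ¬ Good (insert l I) := by
        intro h2
        have h3 := hmax (insert l I) (by
          rw [Finset.mem_filter]
          exact ⟨Finset.mem_univ _, h2⟩)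
        rw [Finset.card_insert_of_notMem hl] at h3
        omega
      simp only [hGood, not_forall] at h1
      obtain ⟨B, hB⟩ := h1
      exact ⟨B, fun _ => Ultrafilter.eventually_not.2 hB⟩
  choose B0 hB0 using hbad
  set b : ι → ℝ := fun l => max (B0 l) 0 with hb
  have hb0 : ∀ l, 0 ≤ b l := fun l => le_max_right _ _
  set B' : ι → ℝ := fun l => b l + b l * Real.log (b l + 1) with hB'
  have hB'0 : ∀ l, 0 ≤ B' l := fun l =>
    add_nonneg (hb0 l) (mul_nonneg (hb0 l) (Real.log_nonneg (by linarith [hb0 l])))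
  have hbB' : ∀ l, b l ≤ B' l := fun l =>
    le_add_of_nonneg_right (mul_nonneg (hb0 l) (Real.log_nonneg (by linarith [hb0 l])))
  set d : ℕ := ⌈∑ l, B' l⌉₊ with hd
  have hdB : ∀ l, B' l ≤ d := fun l =>
    (Finset.single_le_sum (fun i _ => hB'0 i) (Finset.mem_univ l)).trans (Nat.le_ceil _)
  have hall : ∀ᶠ n in (𝒰 : Filter ℕ), ∀ l, l ∉ I →
      ¬ NoRel (insert l I) blk (U n) (s n) (B0 l) ∧ NoRel I blk (U n) (s n) (B' l) := by
    rw [Filter.eventually_all]
    intro l
    by_cases hl : l ∈ I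
    · exact Filter.Eventually.of_forall fun n h => absurd hl h
    · filter_upwards [hB0 l hl, hIg (B' l)] with n h1 h2 _
      exact ⟨h1, h2⟩
  have key : ∀ᶠ n in (𝒰 : Filter ℕ), ∃ g : ι → MvPolynomial ι ℤ,
      IsRel I blk (U n) g ∧ ∀ l, l ∉ I →
        (∀ i, (g l).degreeOf i ≤ d) ∧ Real.log (l1 (g l)) ≤ d * (s n (blk l) / s n 0) := by
    filter_upwards [hall] with n h1
    have hs0 : 0 < s n 0 := by linarith [hs1 n]
    have hρ : ∀ j, 1 ≤ s n j / s n 0 := by
      intro j
      rw [le_div_iff₀ hs0, one_mul]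
      exact hs2 n j
    have hex : ∀ l, ∃ G : MvPolynomial ι ℤ, l ∉ I →
        (∀ i ∈ G.vars, i = l ∨ (i ∈ I ∧ blk i = blk l)) ∧ aeval (U n) G = 0 ∧
        aeval (U n) (pderiv l G) ≠ 0 ∧ (∀ i, G.degreeOf i ≤ d) ∧
        Real.log (l1 G) ≤ d * (s n (blk l) / s n 0) := by
      intro l
      by_cases hl : l ∈ I
      · exact ⟨0, fun h => absurd hl h⟩
      · obtain ⟨h4, h5⟩ := h1 l hl
        unfold NoRel at h4
        push Not at h4
        obtain ⟨j, R, hR0, hRv, hRd, hRl, hRa⟩ := h4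
        have hle : B0 l ≤ b l := le_max_left _ _
        have hρ0 : 0 ≤ s n j / s n 0 := by linarith [hρ j]
        obtain ⟨G, hG1, hG2, hG3, hG4, hG5, hG6⟩ := CA.descent (hb0 l) (le_refl (B' l)) (hρ j) h5
          hRv (fun i => (hRd i).trans hle)
          (hRl.trans (mul_le_mul_of_nonneg_right hle hρ0)) _ R rfl hR0 (Finset.Subset.refl _)
          (fun i => le_rfl) (by rw [sub_self, zero_mul, add_zero]) hRa
        have hj : blk l = j := (hRv l (hG1 hG2)).2
        refine ⟨G, fun _ => ⟨fun i hi => ?_, hG5, hG6, fun i => ?_, ?_⟩⟩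
        · obtain ⟨h6, h7⟩ := hRv i (hG1 hi)
          rcases Finset.mem_insert.1 h6 with h8 | h8
          · exact Or.inl h8
          · exact Or.inr ⟨h8, h7.trans hj.symm⟩
        · have h9 : (G.degreeOf i : ℝ) ≤ d := (hG3 i).trans ((hbB' l).trans (hdB l))
          exact_mod_cast h9
        · rw [hj]
          exact hG4.trans (mul_le_mul_of_nonneg_right (hdB l) hρ0)
    choose G hG using hex
    exact ⟨G, ⟨fun l hl => (hG l hl).1, fun l hl => (hG l hl).2.1, fun l hl => (hG l hl).2.2.1⟩,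
      fun l hl => (hG l hl).2.2.2⟩
  refine ⟨I, d, fun n => if h : ∃ g : ι → MvPolynomial ι ℤ,
      IsRel I blk (U n) g ∧ ∀ l, l ∉ I →
        (∀ i, (g l).degreeOf i ≤ d) ∧ Real.log (l1 (g l)) ≤ d * (s n (blk l) / s n 0)
      then h.choose else 0, hIg, ?_⟩
  filter_upwards [key] with n hn
  simp only [dif_pos hn]
  exact hn.choose_spec


namespace CA

/-- the trivial norm -/
noncomputable def tnm (K : Type) [Field K] : Nm K 0 := by
  classical
  exact
  { N := fun a => if a = 0 then 0 else 1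
    zero := if_pos rfl
    one := by split_ifs <;> simp
    neg := fun a => by simp
    add := fun a b => by
      by_cases ha : a = 0 <;> by_cases hb : b = 0 <;> by_cases hab : a + b = 0 <;>
        simp_all [one_add_one_eq_two]
    mul := fun a b => by
      by_cases ha : a = 0 <;> by_cases hb : b = 0 <;> simp [ha, hb]
    ultra := fun _ a b => by
      by_cases ha : a = 0 <;> by_cases hb : b = 0 <;> by_cases hab : a + b = 0 <;> simp_all }

theorem tnm_apply {K : Type} [Field K] {a : K} (ha : a ≠ 0) : (tnm K).N a = 1 := if_neg ha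

theorem tnm_le {K : Type} [Field K] (a : K) : (tnm K).N a ≤ 1 := by
  classical
  change (if a = 0 then (0 : ENNReal) else 1) ≤ 1
  split_ifs <;> simp

theorem sup_of_norm {ι K : Type} [Fintype ι] [DecidableEq ι] [Field K] {q : ℕ} {I : Finset ι}
    {blk : ι → Fin (q + 1)} {P : ι → K} {g : ι → MvPolynomial ι ℤ}
    {Ξ : ι → MvPowerSeries ι K} (hb : IsBranch I P g Ξ) (hn : BranchNorm I blk P g Ξ) (l : ι)
    (γ : ι →₀ ℕ) (hγ : ∃ j, blk j ≠ blk l ∧ γ j ≠ 0) : MvPowerSeries.coeff γ (Ξ l) = 0 := by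
  classical
  obtain ⟨j, hj, hγj⟩ := hγ
  have hγ0 : γ ≠ 0 := by
    rintro rfl
    exact hγj rfl
  by_cases hl : l ∈ I
  · have hjl : γ ≠ Finsupp.single l 1 := by
      rintro rfl
      apply hγj
      rw [Finsupp.single_apply, if_neg]
      rintro rfl
      exact hj rfl
    rw [hb.free l hl, map_add, MvPowerSeries.coeff_C, if_neg hγ0, MvPowerSeries.coeff_X,
      if_neg hjl, add_zero]
  · by_contra hc
    set ρ : ι → ENNReal := fun i => if blk i = blk l then 1 else 2 with hρ
    have h1 := hn l hl 0 (tnm K) 1 1 1 ρ (by norm_num) (fun γ => tnm_le _)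
      (by rw [pow_zero]; simpa using tnm_le _) (by rw [pow_zero]; simpa using tnm_le _) le_rfl
      le_rfl (fun i _ hi => by simp [hρ, hi])
    have h2 := (coeff_le_psN (tnm K) ρ (Ξ l - MvPowerSeries.C (P l)) γ).trans h1
    have h3 : MvPowerSeries.coeff γ (Ξ l - MvPowerSeries.C (P l)) =
        MvPowerSeries.coeff γ (Ξ l) := by
      rw [map_sub, MvPowerSeries.coeff_C, if_neg hγ0, sub_zero]
    rw [h3, tnm_apply hc, one_mul] at h2
    have h4 : (2 : ENNReal) ≤ ∏ i, ρ i ^ γ i := by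
      have h5 : ∀ i, 1 ≤ ρ i ^ γ i := by
        intro i
        refine one_le_pow₀ ?_
        simp only [hρ]
        split_ifs
        · exact le_rfl
        · norm_num
      calc (2 : ENNReal) ≤ ρ j ^ γ j := by
            simp only [hρ, if_neg hj]
            exact le_self_pow₀ (by norm_num) hγj
        _ ≤ ∏ i, ρ i ^ γ i := Finset.single_le_prod' (fun i _ => h5 i) (Finset.mem_univ j)
    have h5 := h4.trans h2
    norm_num at h5

end CA

end Pool.Agent.ZP
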