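import Pool.Agent.Lib.MP_c95b3b_ag_ZP.CA

set_option autoImplicit false

/-! Project ZP (MP_c95b3b_ag), block C, module CB: the order of vanishing on the branch. -/

namespace Pool.Agent.ZP

open Pool.Agent.L3 Pool.Agent.KP Pool.Agent.AL Pool.Agent.SD Module MvPolynomial

theorem order_small0 {ι : Type} [Fintype ι] [DecidableEq ι] {q : ℕ} (blk : ι → Fin (q + 1))
    (𝒰 : Ultrafilter ℕ) (K : ℕ → Type) [∀ n, Field (K n)] [∀ n, CharZero (K n)]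
    (U : ∀ n, ι → K n) (s : ℕ → Fin (q + 1) → ℝ)
    (hs1 : ∀ n, 1 ≤ s n 0) (hs2 : ∀ n j, s n 0 ≤ s n j)
    (hs3 : ∀ T : ℝ, ∀ᶠ n in (𝒰 : Filter ℕ), ∀ i i', blk i < blk i' →
      T * s n (blk i) ≤ s n (blk i')) (I : Finset ι) (d : ℕ)
    (g : ∀ _ : ℕ, ι → MvPolynomial ι ℤ)
    (hno : ∀ B : ℝ, ∀ᶠ n in (𝒰 : Filter ℕ), NoRel I blk (U n) (s n) B)
    (hg : ∀ᶠ n in (𝒰 : Filter ℕ), IsRel I blk (U n) (g n) ∧ ∀ l, l ∉ I →
        (∀ i, (g n l).degreeOf i ≤ d) ∧ Real.log (l1 (g n l)) ≤ d * (s n (blk l) / s n 0))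
    (A0 θ : ℝ) (hA0 : 0 ≤ A0) (hθ : 0 < θ) :
    ∀ᶠ n in (𝒰 : Filter ℕ), ∀ (Ξ : ι → MvPowerSeries ι (K n)) (H : ι → ℕ) (M : ℝ)
      (V : MvPolynomial ι ℤ) (m : ℕ), IsBranch I (U n) (g n) Ξ →
      (∀ i, s n (blk i) ≤ H i ∧ (H i : ℝ) ≤ 2 * s n (blk i)) → (∀ j, s n j ≤ M) →
      (∀ i, (V.degreeOf i : ℝ) ≤ A0 * M / s n (blk i)) → Real.log (l1 V) ≤ A0 * M / s n 0 →
      aeval Ξ V ≠ 0 → (∀ γ, wt H γ < m → MvPowerSeries.coeff γ (aeval Ξ V) = 0) →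
      (m : ℝ) < θ * M := by
  classical
  obtain ⟨A1, hA1⟩ := zprime blk I d A0 θ hA0 hθ
  set A : ℝ := max A1 1 with hA
  have hAA1 : A1 ≤ A := le_max_left _ _
  have hA1' : 1 ≤ A := le_max_right _ _
  filter_upwards [hs3 (4 * A + 1), hno (2 * A), hg] with n hn2 hn3 hn4
  have hn1 := hs1 n
  intro Ξ H M V m hΞ hH hM hVd hVl hV0 hVc
  by_contra hcon
  push Not at hcon
  have hs0 : 0 < s n 0 := by linarith
  have hs0j : ∀ j, s n 0 ≤ s n j := hs2 n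
  have hH1 : ∀ i, 1 ≤ (H i : ℝ) := fun i => (hn1.trans (hs0j _)).trans (hH i).1
  obtain ⟨R, hR0, ⟨i0, hi0⟩, hRI, hRa, hRs⟩ := hA1 (K n) (U n) (g n) Ξ (s n) H M V m hn4.1 hΞ
    (fun l hl => (hn4.2 l hl).1) hn1 hs0j (fun l hl => (hn4.2 l hl).2) hH hM hVd hVl hV0 hVc hcon
  have hlogR : 0 ≤ Real.log (l1 R) := Real.log_nonneg (one_le_l1 hR0)
  have hsz1 : ∀ i, (H i : ℝ) * R.degreeOf i ≤ sz H (s n 0) R := by
    intro i
    have h1 : (H i : ℝ) * R.degreeOf i ≤ ∑ i, (H i : ℝ) * R.degreeOf i :=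
      Finset.single_le_sum (f := fun i => (H i : ℝ) * R.degreeOf i)
        (fun i _ => by positivity) (Finset.mem_univ i)
    have h2 : 0 ≤ s n 0 * Real.log (l1 R) := mul_nonneg hs0.le hlogR
    unfold sz
    linarith
  have hsz2 : s n 0 * Real.log (l1 R) ≤ sz H (s n 0) R := by
    have h1 : 0 ≤ ∑ i, (H i : ℝ) * R.degreeOf i := Finset.sum_nonneg fun i _ => by positivity
    unfold sz
    linarith
  have hszA : ∀ i ∈ R.vars, sz H (s n 0) R ≤ A * H i := fun i hi =>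
    (hRs i hi).trans (mul_le_mul_of_nonneg_right hAA1 (by linarith [hH1 i]))
  have hdeg1 : ∀ i ∈ R.vars, (1 : ℝ) ≤ R.degreeOf i := by
    intro i hi
    have h1 := mem_vars_iff_degreeOf_ne_zero.1 hi
    exact_mod_cast Nat.one_le_iff_ne_zero.2 h1
  have hcmp : ∀ i ∈ R.vars, ∀ i' ∈ R.vars, s n (blk i') ≤ 2 * A * s n (blk i) := by
    intro i hi i' hi'
    have h1 : (H i' : ℝ) ≤ H i' * R.degreeOf i' :=
      le_mul_of_one_le_right (by linarith [hH1 i']) (hdeg1 i' hi')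
    have h2 := (h1.trans (hsz1 i')).trans (hszA i hi)
    have h3 := (hH i').1
    have h4 : A * H i ≤ A * (2 * s n (blk i)) :=
      mul_le_mul_of_nonneg_left (hH i).2 (by linarith)
    linarith
  have hnlt : ∀ i ∈ R.vars, ∀ i' ∈ R.vars, ¬ blk i < blk i' := by
    intro i hi i' hi' hlt
    have h1 := hn2 _ _ hlt
    have h2 := hcmp i hi i' hi'
    have h3 : 0 < s n (blk i) := by linarith [hs0j (blk i)]
    nlinarith
  have hblk : ∀ i ∈ R.vars, blk i = blk i0 := by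
    intro i hi
    rcases lt_trichotomy (blk i) (blk i0) with h | h | h
    · exact absurd h (hnlt i hi i0 hi0)
    · exact h
    · exact absurd h (hnlt i0 hi0 i hi)
  refine hn3 (blk i0) R hR0 (fun i hi => ⟨hRI hi, hblk i hi⟩) (fun i => ?_) ?_ hRa
  · by_cases hi : i ∈ R.vars
    · have h1 := (hsz1 i).trans (hszA i hi)
      have h2 : (R.degreeOf i : ℝ) ≤ A := by
        have h3 : (0 : ℝ) < H i := by linarith [hH1 i]
        rw [mul_comm A] at h1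
        exact le_of_mul_le_mul_left h1 h3
      linarith
    · have h1 : R.degreeOf i = 0 := by
        by_contra h
        exact hi (mem_vars_iff_degreeOf_ne_zero.2 h)
      rw [h1]
      push_cast
      linarith
  · have h1 := hsz2.trans (hszA i0 hi0)
    have h2 : A * H i0 ≤ A * (2 * s n (blk i0)) :=
      mul_le_mul_of_nonneg_left (hH i0).2 (by linarith)
    have h3 : s n 0 * Real.log (l1 R) ≤ 2 * A * s n (blk i0) := by linarith
    have h4 : 2 * A * (s n (blk i0) / s n 0) = 2 * A * s n (blk i0) / s n 0 := by ring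
    rw [h4, le_div_iff₀ hs0]
    linarith


/-- **Lemma Z'**: a polynomial which does not vanish on the branch has small order -/
theorem Cl.order_small {𝓤 : Ultrafilter ℕ} {n q : ℕ} {c : Cfg 𝓤 n q} (cl : Cl c)
    (A0 θ : ℝ) (hA0 : 0 ≤ A0) (hθ : 0 < θ) :
    ∀ᶠ ν in (𝓤 : Filter ℕ), ∀ (H : Fin n → ℕ) (M : ℝ) (V : MvPolynomial (Fin n) ℤ) (m : ℕ),
      (∀ i, c.s ν (c.blk i) ≤ H i ∧ (H i : ℝ) ≤ 2 * c.s ν (c.blk i)) → (∀ j, c.s ν j ≤ M) →
      (∀ i, (V.degreeOf i : ℝ) ≤ A0 * M / c.s ν (c.blk i)) →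
      Real.log (l1 V) ≤ A0 * M / c.s ν 0 → aeval (cl.Ξ ν) V ≠ 0 →
      (∀ γ, wt H γ < m → MvPowerSeries.coeff γ (aeval (cl.Ξ ν) V) = 0) → (m : ℝ) < θ * M := by
  have : ∀ ν, CharZero (c.S.K ν) := fun ν =>
    (c.e ν).charZero
  filter_upwards [order_small0 c.blk 𝓤 c.S.K c.S.p c.s c.s_one c.s_le c.s_sep cl.I cl.d cl.g cl.no
    cl.rel A0 θ hA0 hθ, cl.br] with ν h1 h2 H M V m
  exact h1 (cl.Ξ ν) H M V m h2

end Pool.Agent.ZP
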