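import Mathlib
import Pool.Agent.Lib.MP_c95b3b_ag_ZP.CB

set_option autoImplicit false

/-! Project ZP (MP_c95b3b_ag), block CL, module CB2: Lemma Z' when `M` is only larger than the
scales of the coordinates. -/

namespace Pool.Agent.ZP

open Pool.Agent.L3 Pool.Agent.KP Pool.Agent.AL Pool.Agent.SD Module MvPolynomial

/-- the scales, `s 0` for the empty blocks -/
noncomputable def CB.s' {n q : ℕ} (blk : Fin n → Fin (q + 1)) (s : Fin (q + 1) → ℝ)
    (j : Fin (q + 1)) : ℝ := by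
  classical
  exact if ∃ i, blk i = j then s j else s 0

theorem CB.s'_blk {n q : ℕ} (blk : Fin n → Fin (q + 1)) (s : Fin (q + 1) → ℝ) (i : Fin n) :
    CB.s' blk s (blk i) = s (blk i) := if_pos ⟨i, rfl⟩

theorem CB.s'_zero {n q : ℕ} (blk : Fin n → Fin (q + 1)) (s : Fin (q + 1) → ℝ) :
    CB.s' blk s 0 = s 0 := by
  unfold CB.s'
  split_ifs <;> rfl

theorem CB.s'_cases {n q : ℕ} (blk : Fin n → Fin (q + 1)) (s : Fin (q + 1) → ℝ)
    (j : Fin (q + 1)) : CB.s' blk s j = s 0 ∨ ∃ i, blk i = j ∧ CB.s' blk s j = s (blk i) := by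
  by_cases h : ∃ i, blk i = j
  · obtain ⟨i, rfl⟩ := h
    exact Or.inr ⟨i, rfl, CB.s'_blk blk s i⟩
  · exact Or.inl (if_neg h)

/-- **Lemma Z'**: a polynomial which does not vanish on the branch has small order -/
theorem Cl.order_small' {𝓤 : Ultrafilter ℕ} {n q : ℕ} {c : Cfg 𝓤 n q} (cl : Cl c)
    (A0 θ : ℝ) (hA0 : 0 ≤ A0) (hθ : 0 < θ) :
    ∀ᶠ ν in (𝓤 : Filter ℕ), ∀ (H : Fin n → ℕ) (M : ℝ) (V : MvPolynomial (Fin n) ℤ) (m : ℕ),
      (∀ i, c.s ν (c.blk i) ≤ H i ∧ (H i : ℝ) ≤ 2 * c.s ν (c.blk i)) → c.s ν 0 ≤ M →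
      (∀ i, c.s ν (c.blk i) ≤ M) →
      (∀ i, (V.degreeOf i : ℝ) ≤ A0 * M / c.s ν (c.blk i)) →
      Real.log (l1 V) ≤ A0 * M / c.s ν 0 → aeval (cl.Ξ ν) V ≠ 0 →
      (∀ γ, wt H γ < m → MvPowerSeries.coeff γ (aeval (cl.Ξ ν) V) = 0) → (m : ℝ) < θ * M := by
  have : ∀ ν, CharZero (c.S.K ν) := fun ν => (c.e ν).charZero
  have hno : ∀ B : ℝ, ∀ᶠ ν in (𝓤 : Filter ℕ),
      NoRel cl.I c.blk (c.S.p ν) (CB.s' c.blk (c.s ν)) B := by
    intro B
    filter_upwards [cl.no B] with ν h1 j R hR hv hd hl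
    by_cases hj : ∃ i, c.blk i = j
    · obtain ⟨i, rfl⟩ := hj
      rw [CB.s'_blk, CB.s'_zero] at hl
      exact h1 _ R hR hv hd hl
    · have h2 : R.vars = ∅ := by
        rw [Finset.eq_empty_iff_forall_notMem]
        intro i hi
        exact hj ⟨i, (hv i hi).2⟩
      rw [vars_eq_empty_iff_eq_C] at h2
      rw [h2, aeval_C]
      intro h0
      have h3 : ((coeff 0 R : ℤ) : c.S.K ν) = 0 := by
        rw [← h0]
        simp
      have h4 : coeff 0 R = 0 := by exact_mod_cast h3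
      rw [h4, C_0] at h2
      exact hR h2
  have hrel : ∀ᶠ ν in (𝓤 : Filter ℕ), IsRel cl.I c.blk (c.S.p ν) (cl.g ν) ∧ ∀ l, l ∉ cl.I →
      (∀ i, (cl.g ν l).degreeOf i ≤ cl.d) ∧ Real.log (l1 (cl.g ν l)) ≤
        cl.d * (CB.s' c.blk (c.s ν) (c.blk l) / CB.s' c.blk (c.s ν) 0) := by
    filter_upwards [cl.rel] with ν h1
    refine ⟨h1.1, fun l hl => ?_⟩
    rw [CB.s'_blk, CB.s'_zero]
    exact h1.2 l hl
  filter_upwards [order_small0 c.blk 𝓤 c.S.K c.S.p (fun ν => CB.s' c.blk (c.s ν))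
    (fun ν => by
      rw [CB.s'_zero]
      exact c.s_one ν)
    (fun ν j => by
      rw [CB.s'_zero]
      rcases CB.s'_cases c.blk (c.s ν) j with h | ⟨i, -, h⟩
      · exact h.ge
      · rw [h]
        exact c.s_le ν _)
    (fun T => by
      filter_upwards [c.s_sep T] with ν h1 i i' hi
      rw [CB.s'_blk, CB.s'_blk]
      exact h1 i i' hi) cl.I cl.d cl.g hno hrel A0 θ hA0 hθ, cl.br] with ν h1 h2 H M V m hH hM0 hM
      hd hl hV hc
  refine h1 (cl.Ξ ν) H M V m h2 (fun i => ?_) (fun j => ?_) (fun i => ?_) ?_ hV hc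
  · rw [CB.s'_blk]
    exact hH i
  · rcases CB.s'_cases c.blk (c.s ν) j with h | ⟨i, -, h⟩
    · rw [h]
      exact hM0
    · rw [h]
      exact hM i
  · rw [CB.s'_blk]
    exact hd i
  · rw [CB.s'_zero]
    exact hl

end Pool.Agent.ZP
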