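import Mathlib
import Pool.Agent.Lib.MP_c95b3b_ag_AL.BB
import Pool.Agent.Lib.MP_c95b3b_ag_ZP.Defs

set_option autoImplicit false

/-! Project ZP (MP_c95b3b_ag), block CL, module CD: norms of Laurent monomials in power series. -/

namespace Pool.Agent.ZP

open Pool.Agent.L3 Pool.Agent.KP Pool.Agent.AL Pool.Agent.SD Module MvPolynomial

namespace CD

section
variable {σ F : Type} [Fintype σ] [Field F]

/-- the partial sums of the geometric series -/
noncomputable def gs (v : MvPowerSeries σ F) (N : ℕ) : MvPowerSeries σ F :=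
  ∑ k ∈ Finset.range N, (-v) ^ k

theorem gs_mul (v : MvPowerSeries σ F) (N : ℕ) : gs v N * (1 + v) = 1 - (-v) ^ N := by
  have h := geom_sum_mul (-v) N
  have h2 : gs v N * (1 + v) = -((∑ k ∈ Finset.range N, (-v) ^ k) * (-v - 1)) := by
    rw [gs]
    ring
  rw [h2, h]
  ring

theorem le_order_pow (v : MvPowerSeries σ F) (hv : MvPowerSeries.constantCoeff v = 0) (N : ℕ) :
    (N : ℕ∞) ≤ ((-v) ^ N).order := by
  have h1 : (1 : ℕ∞) ≤ (-v).order := by
    rw [MvPowerSeries.order_neg]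
    exact MvPowerSeries.one_le_order_iff_constCoeff_eq_zero.2 hv
  calc (N : ℕ∞) = N • (1 : ℕ∞) := by simp
    _ ≤ N • (-v).order := by gcongr
    _ ≤ _ := MvPowerSeries.le_order_pow N

theorem inv_sub_gs (v : MvPowerSeries σ F) (hv : MvPowerSeries.constantCoeff v = 0) (N : ℕ) :
    (1 + v)⁻¹ - gs v N = (1 + v)⁻¹ * (-v) ^ N := by
  have h0 : MvPowerSeries.constantCoeff (1 + v) ≠ 0 := by
    rw [map_add, map_one, hv, add_zero]
    exact one_ne_zero
  have h1 := MvPowerSeries.mul_inv_cancel (1 + v) h0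
  have h2 := gs_mul v N
  calc (1 + v)⁻¹ - gs v N = (1 + v)⁻¹ - gs v N * ((1 + v) * (1 + v)⁻¹) := by
        rw [h1, mul_one]
    _ = (1 + v)⁻¹ - (gs v N * (1 + v)) * (1 + v)⁻¹ := by ring
    _ = _ := by
        rw [h2]
        ring

theorem coeff_gs (v : MvPowerSeries σ F) (hv : MvPowerSeries.constantCoeff v = 0) (γ : σ →₀ ℕ)
    (N : ℕ) (hN : γ.degree < N) :
    MvPowerSeries.coeff γ (gs v N) = MvPowerSeries.coeff γ (1 + v)⁻¹ := by
  have h1 : MvPowerSeries.coeff γ ((1 + v)⁻¹ - gs v N) = 0 := by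
    rw [inv_sub_gs v hv N]
    refine MvPowerSeries.coeff_of_lt_order ?_
    calc ((γ.degree : ℕ) : ℕ∞) < (N : ℕ∞) := by exact_mod_cast hN
      _ ≤ ((-v) ^ N).order := le_order_pow v hv N
      _ ≤ _ := by
        refine le_trans ?_ MvPowerSeries.le_order_mul
        exact le_add_self
  rw [map_sub, sub_eq_zero] at h1
  exact h1.symm

/-- the unit part -/
theorem eq_mul (f : MvPowerSeries σ F) (u : F) (hu : u ≠ 0) :
    f = MvPowerSeries.C u * (1 + MvPowerSeries.C u⁻¹ * (f - MvPowerSeries.C u)) := by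
  have h : (MvPowerSeries.C u : MvPowerSeries σ F) * MvPowerSeries.C u⁻¹ = 1 := by
    rw [← map_mul, mul_inv_cancel₀ hu, map_one]
  calc f = MvPowerSeries.C u + 1 * (f - MvPowerSeries.C u) := by ring
    _ = MvPowerSeries.C u + (MvPowerSeries.C u * MvPowerSeries.C u⁻¹) *
        (f - MvPowerSeries.C u) := by rw [h]
    _ = _ := by ring

theorem inv_eq (f : MvPowerSeries σ F) (u : F) (hu : u ≠ 0)
    (hf : MvPowerSeries.constantCoeff f = u) :
    f⁻¹ = MvPowerSeries.C u⁻¹ * (1 + MvPowerSeries.C u⁻¹ * (f - MvPowerSeries.C u))⁻¹ := by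
  set v := MvPowerSeries.C u⁻¹ * (f - MvPowerSeries.C u) with hv
  have hv0 : MvPowerSeries.constantCoeff v = 0 := by
    rw [hv, map_mul, map_sub, hf, MvPowerSeries.constantCoeff_C, MvPowerSeries.constantCoeff_C,
      sub_self, mul_zero]
  have h0 : MvPowerSeries.constantCoeff (1 + v) ≠ 0 := by
    rw [map_add, map_one, hv0, add_zero]
    exact one_ne_zero
  have h1 := MvPowerSeries.mul_inv_cancel (1 + v) h0
  have h2 : f = MvPowerSeries.C u * (1 + v) := eq_mul f u hu
  have h3 : MvPowerSeries.constantCoeff f ≠ 0 := by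
    rw [hf]
    exact hu
  rw [MvPowerSeries.inv_eq_iff_mul_eq_one h3, h2]
  calc MvPowerSeries.C u⁻¹ * (1 + v)⁻¹ * (MvPowerSeries.C u * (1 + v))
      = (MvPowerSeries.C u⁻¹ * MvPowerSeries.C u) * ((1 + v) * (1 + v)⁻¹) := by ring
    _ = 1 := by rw [h1, ← map_mul, inv_mul_cancel₀ hu, map_one, mul_one]

theorem const_v (f : MvPowerSeries σ F) (u : F) (hf : MvPowerSeries.constantCoeff f = u) :
    MvPowerSeries.constantCoeff (MvPowerSeries.C u⁻¹ * (f - MvPowerSeries.C u) :
      MvPowerSeries σ F) = 0 := by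
  rw [map_mul, map_sub, hf, MvPowerSeries.constantCoeff_C, MvPowerSeries.constantCoeff_C,
      sub_self, mul_zero]

/-- the coefficients of the inverse lie in a subring -/
theorem inv_mem (S : Subring F) (f : MvPowerSeries σ F) (u : F) (hu : u ≠ 0)
    (hf : MvPowerSeries.constantCoeff f = u) (hS : ∀ γ, MvPowerSeries.coeff γ f ∈ S)
    (huS : u ∈ S) (hui : u⁻¹ ∈ S) (γ : σ →₀ ℕ) : MvPowerSeries.coeff γ f⁻¹ ∈ S := by
  have hv : (MvPowerSeries.C u⁻¹ * (f - MvPowerSeries.C u) : MvPowerSeries σ F) ∈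
      BB.coeffsIn (ι := σ) S :=
    (BB.coeffsIn S).mul_mem (BB.C_mem_coeffsIn S _ hui)
      ((BB.coeffsIn S).sub_mem hS (BB.C_mem_coeffsIn S _ huS))
  have hc := const_v f u hf
  have h1 : (1 + MvPowerSeries.C u⁻¹ * (f - MvPowerSeries.C u) : MvPowerSeries σ F)⁻¹ ∈
      BB.coeffsIn (ι := σ) S := by
    intro γ'
    rw [← coeff_gs _ hc γ' (γ'.degree + 1) (Nat.lt_succ_self _)]
    have : gs (MvPowerSeries.C u⁻¹ * (f - MvPowerSeries.C u)) (γ'.degree + 1) ∈
        BB.coeffsIn (ι := σ) S :=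
      (BB.coeffsIn S).sum_mem fun k _ => (BB.coeffsIn S).pow_mem ((BB.coeffsIn S).neg_mem hv) k
    exact this γ'
  have h2 : f⁻¹ ∈ BB.coeffsIn (ι := σ) S := by
    rw [inv_eq f u hu hf]
    exact (BB.coeffsIn S).mul_mem (BB.C_mem_coeffsIn S _ hui) h1
  exact h2 γ

end

section
variable {σ F : Type} [Fintype σ] [Field F] {κ : ℕ} (μ : Nm F κ) (ρ : σ → ENNReal)

/-- the norm of the inverse -/
theorem psN_inv (hκ : κ ≤ 1) (f : MvPowerSeries σ F) (u : F) (hu : u ≠ 0)
    (hf : MvPowerSeries.constantCoeff f = u) (e : ENNReal) (he : e ≤ 1 / 2)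
    (h : μ.N u⁻¹ * psN μ ρ (f - MvPowerSeries.C u) ≤ e ^ κ) :
    psN μ ρ f⁻¹ ≤ μ.N u⁻¹ * (1 + 2 * e) ^ κ := by
  obtain ⟨m, hm⟩ := exists_ps μ ρ
  set v : MvPowerSeries σ F := MvPowerSeries.C u⁻¹ * (f - MvPowerSeries.C u) with hv
  have hc : MvPowerSeries.constantCoeff v = 0 := const_v f u hf
  have hvN : m.N v ≤ e ^ κ := by
    refine (m.mul _ _).trans ?_
    rw [hm, psN_C]
    exact h
  have hgs : ∀ N, psN μ ρ (gs v N) ≤ (1 + 2 * e) ^ κ := by
    intro N
    rw [← hm]
    rcases Nat.eq_zero_or_pos κ with h0 | h0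
    · subst h0
      rw [pow_zero] at hvN ⊢
      have h2 := m.sum_le (by norm_num) (Finset.range N) (fun k => (-v) ^ k) 1 (fun k _ => by
        refine (m.pow_le _ k).trans ?_
        rw [m.neg]
        exact pow_le_one₀ zero_le hvN)
      rwa [pow_zero, one_mul] at h2
    · have hk1 : κ = 1 := le_antisymm hκ h0
      subst hk1
      rw [pow_one] at hvN ⊢
      have hfin : e ≠ ⊤ := ne_top_of_le_ne_top (by norm_num) he
      have h3 : ∀ N, m.N (gs v N) ≤ ∑ k ∈ Finset.range N, e ^ k := by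
        intro N
        refine (BA.sum_le' m (Finset.range N) (fun k => (-v) ^ k)).trans ?_
        refine Finset.sum_le_sum fun k _ => ?_
        refine (m.pow_le _ k).trans ?_
        rw [m.neg]
        exact pow_le_pow_left' hvN k
      have h4 : ∀ N, ∑ k ∈ Finset.range N, e ^ k ≤ 1 + 2 * e := by
        intro N
        induction N with
        | zero => simp
        | succ N ih =>
          rw [Finset.sum_range_succ', pow_zero]
          have h5 : ∑ k ∈ Finset.range N, e ^ (k + 1) = (∑ k ∈ Finset.range N, e ^ k) * e := by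
            rw [Finset.sum_mul]
            exact Finset.sum_congr rfl fun k _ => pow_succ e k
          rw [h5, add_comm]
          have h6 : (∑ k ∈ Finset.range N, e ^ k) * e ≤ (1 + 2 * e) * e := by gcongr
          refine add_le_add_right (h6.trans ?_) 1
          have h7 : 1 + 2 * e ≤ 2 := by
            calc 1 + 2 * e ≤ 1 + 2 * (1 / 2) := by gcongr
              _ = 2 := by
                rw [one_div, ENNReal.mul_inv_cancel (by norm_num) (by norm_num)]
                norm_num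
          calc (1 + 2 * e) * e ≤ 2 * e := by gcongr
            _ = 2 * e := rfl
      exact (h3 N).trans (h4 N)
  have h8 : psN μ ρ (1 + v)⁻¹ ≤ (1 + 2 * e) ^ κ :=
    psN_le_of_limit μ ρ _ (gs v) _ hgs fun γ => by
      filter_upwards [Filter.eventually_gt_atTop γ.degree] with N hN
      exact coeff_gs v hc γ N hN
  rw [inv_eq f u hu hf, ← hm]
  refine (m.mul _ _).trans ?_
  rw [hm, psN_C]
  gcongr

/-- the norm of the series -/
theorem psN_self (hκ : κ ≤ 1) (f : MvPowerSeries σ F) (u : F) (hu : u ≠ 0)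
    (e : ENNReal)
    (h : μ.N u⁻¹ * psN μ ρ (f - MvPowerSeries.C u) ≤ e ^ κ) :
    psN μ ρ f ≤ μ.N u * (1 + 2 * e) ^ κ := by
  obtain ⟨m, hm⟩ := exists_ps μ ρ
  set v : MvPowerSeries σ F := MvPowerSeries.C u⁻¹ * (f - MvPowerSeries.C u) with hv
  have hvN : m.N v ≤ e ^ κ := by
    refine (m.mul _ _).trans ?_
    rw [hm, psN_C]
    exact h
  have h1 : m.N (1 + v) ≤ (1 + 2 * e) ^ κ := by
    rcases Nat.eq_zero_or_pos κ with h0 | h0
    · subst h0
      rw [pow_zero] at hvN ⊢
      exact (m.ultra rfl _ _).trans (max_le m.one hvN)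
    · have hk1 : κ = 1 := le_antisymm hκ h0
      subst hk1
      rw [pow_one] at hvN ⊢
      refine (m.add _ _).trans (add_le_add m.one (hvN.trans ?_))
      rw [two_mul]
      exact le_self_add
  rw [← hm]
  conv_lhs => rw [eq_mul f u hu]
  refine (m.mul _ _).trans ?_
  rw [← hv, hm, psN_C, ← hm]
  gcongr

end

end CD

end Pool.Agent.ZP
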