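import Mathlib
import Pool.Agent.Lib.MP_c95b3b_ag_ZP.CD

set_option autoImplicit false

/-! Project ZP (MP_c95b3b_ag), block CL, module CE: bounds for the values of Laurent polynomials
with a representation at one place. -/

namespace Pool.Agent.ZP

open Pool.Agent.L3 Pool.Agent.KP Pool.Agent.AL Pool.Agent.SD Module MvPolynomial

namespace CE

theorem real_pow (x t : ℝ) (hx : 0 < x) (ht : 0 < t) (a : ℤ) :
    (x * t) ^ a.toNat * (x⁻¹ * t) ^ (-a).toNat = Real.exp (a * Real.log x + |(a : ℝ)| * Real.log t)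
    := by
  obtain ⟨k, rfl | rfl⟩ := a.eq_nat_or_neg
  · have h1 : (-(k : ℤ)).toNat = 0 := Int.toNat_of_nonpos (by omega)
    have h2 : |((k : ℤ) : ℝ)| = k := by
      rw [Int.cast_natCast]
      exact abs_of_nonneg (Nat.cast_nonneg k)
    rw [h1, pow_zero, mul_one, Int.toNat_natCast, h2, Int.cast_natCast, ← mul_add,
      ← Real.log_mul hx.ne' ht.ne', ← Real.log_pow, Real.exp_log (by positivity)]
  · have h1 : (-(k : ℤ)).toNat = 0 := Int.toNat_of_nonpos (by omega)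
    have h2 : |((-(k : ℤ) : ℤ) : ℝ)| = k := by
      rw [Int.cast_neg, Int.cast_natCast, abs_neg]
      exact abs_of_nonneg (Nat.cast_nonneg k)
    rw [h1, pow_zero, one_mul, neg_neg, Int.toNat_natCast, h2, Int.cast_neg, Int.cast_natCast]
    have h3 : -(k : ℝ) * Real.log x + k * Real.log t = k * (Real.log x⁻¹ + Real.log t) := by
      rw [Real.log_inv]
      ring
    rw [h3, ← Real.log_mul (inv_pos.2 hx).ne' ht.ne', ← Real.log_pow,
      Real.exp_log (by positivity)]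

section
variable {n : ℕ} {F : Type} [Field F] {κ : ℕ} (μ : Nm F κ) (ρ : Fin n → ENNReal)

theorem psN_psm (hκ : κ ≤ 1) (A : F → ℝ) (hA : ∀ x, μ.N x = ENNReal.ofReal (A x)) (ε : ℝ)
    (hε0 : 0 < ε) (hε : ε ≤ 1 / 2) (Ξ : Fin n → MvPowerSeries (Fin n) F) (u : Fin n → F)
    (hu : ∀ i, u i ≠ 0) (hAu : ∀ i, 0 < A (u i)) (hAi : ∀ i, A (u i)⁻¹ = (A (u i))⁻¹)
    (hc : ∀ i, MvPowerSeries.constantCoeff (Ξ i) = u i)
    (h : ∀ i, psN μ ρ (Ξ i - MvPowerSeries.C (u i)) ≤ ENNReal.ofReal (ε ^ κ * A (u i)))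
    (a : Fin n → ℤ) :
    psN μ ρ (psm Ξ a) ≤ ENNReal.ofReal (Real.exp (∑ i, (a i : ℝ) * Real.log (A (u i)) +
      κ * (2 * ε) * ∑ i, |(a i : ℝ)|)) := by
  obtain ⟨m, hm⟩ := exists_ps μ ρ
  set t : ℝ := (1 + 2 * ε) ^ κ with ht
  have ht0 : 0 < t := by positivity
  have hε' : ENNReal.ofReal ε ≤ 1 / 2 := by
    rw [← ENNReal.ofReal_one, ← ENNReal.ofReal_ofNat 2, ← ENNReal.ofReal_div_of_pos (by norm_num)]
    exact ENNReal.ofReal_le_ofReal hε
  have hte : (1 + 2 * ENNReal.ofReal ε) ^ κ = ENNReal.ofReal t := by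
    rw [ht, ENNReal.ofReal_pow (by positivity), ENNReal.ofReal_add (by norm_num) (by positivity),
      ENNReal.ofReal_mul (by norm_num), ENNReal.ofReal_one, ENNReal.ofReal_ofNat]
  have h' : ∀ i, μ.N (u i)⁻¹ * psN μ ρ (Ξ i - MvPowerSeries.C (u i)) ≤ ENNReal.ofReal ε ^ κ := by
    intro i
    rw [hA, hAi]
    calc ENNReal.ofReal (A (u i))⁻¹ * psN μ ρ (Ξ i - MvPowerSeries.C (u i))
        ≤ ENNReal.ofReal (A (u i))⁻¹ * ENNReal.ofReal (ε ^ κ * A (u i)) := by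
          gcongr
          exact h i
      _ = ENNReal.ofReal ((A (u i))⁻¹ * (ε ^ κ * A (u i))) :=
          (ENNReal.ofReal_mul (inv_nonneg.2 (hAu i).le)).symm
      _ = ENNReal.ofReal (ε ^ κ) := by
          congr 1
          have := (hAu i).ne'
          field_simp
      _ = _ := ENNReal.ofReal_pow hε0.le κ
  have h1 : ∀ i, psN μ ρ (Ξ i) ≤ ENNReal.ofReal (A (u i) * t) := by
    intro i
    refine (CD.psN_self μ ρ hκ (Ξ i) (u i) (hu i) _ (h' i)).trans (le_of_eq ?_)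
    rw [hA, hte, ENNReal.ofReal_mul (hAu i).le]
  have h2 : ∀ i, psN μ ρ (Ξ i)⁻¹ ≤ ENNReal.ofReal ((A (u i))⁻¹ * t) := by
    intro i
    refine (CD.psN_inv μ ρ hκ (Ξ i) (u i) (hu i) (hc i) _ hε' (h' i)).trans (le_of_eq ?_)
    rw [hA, hAi, hte, ENNReal.ofReal_mul (inv_nonneg.2 (hAu i).le)]
  have h3 : psN μ ρ (psm Ξ a) ≤ ∏ i, ENNReal.ofReal
      (Real.exp (a i * Real.log (A (u i)) + |(a i : ℝ)| * Real.log t)) := by
    rw [← hm, psm]
    refine (m.prod_le _ _).trans (Finset.prod_le_prod' fun i _ => ?_)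
    refine (m.mul _ _).trans ?_
    rw [← real_pow _ _ (hAu i) ht0, ENNReal.ofReal_mul (pow_nonneg (mul_pos (hAu i) ht0).le _),
      ENNReal.ofReal_pow (mul_pos (hAu i) ht0).le,
      ENNReal.ofReal_pow (mul_pos (inv_pos.2 (hAu i)) ht0).le]
    refine mul_le_mul' ((m.pow_le _ _).trans (pow_le_pow_left' ?_ _))
      ((m.pow_le _ _).trans (pow_le_pow_left' ?_ _))
    · rw [hm]
      exact h1 i
    · rw [hm]
      exact h2 i
  refine h3.trans ?_
  rw [← ENNReal.ofReal_prod_of_nonneg (fun i _ => (Real.exp_pos _).le), ← Real.exp_sum]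
  refine ENNReal.ofReal_le_ofReal (Real.exp_le_exp.2 ?_)
  rw [Finset.sum_add_distrib, ← Finset.sum_mul]
  refine add_le_add_right ?_ _
  have h4 : Real.log t ≤ κ * (2 * ε) := by
    rw [ht, Real.log_pow]
    refine mul_le_mul_of_nonneg_left ?_ (Nat.cast_nonneg _)
    have := Real.log_le_sub_one_of_pos (x := 1 + 2 * ε) (by positivity)
    linarith
  rw [mul_comm (κ * (2 * ε) : ℝ)]
  exact mul_le_mul_of_nonneg_left h4 (Finset.sum_nonneg fun i _ => abs_nonneg _)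

end

/-- the norm of `ℂ` -/
noncomputable def nmC : Nm ℂ 1 where
  N := fun z => ENNReal.ofReal ‖z‖
  zero := by simp
  one := by simp
  neg := fun a => by rw [norm_neg]
  add := fun a b => by
    rw [← ENNReal.ofReal_add (norm_nonneg a) (norm_nonneg b)]
    exact ENNReal.ofReal_le_ofReal (norm_add_le a b)
  mul := fun a b => by
    rw [norm_mul, ENNReal.ofReal_mul (norm_nonneg a)]
  ultra := fun h => absurd h (by norm_num)

theorem psN_map {n : ℕ} {K : Type} [Field K] (σ : K →+* ℂ) {κ : ℕ} (hκ : κ ≠ 0) (μ : Nm K κ)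
    (hμ : ∀ x, μ.N x = ENNReal.ofReal ‖σ x‖) (ρ : Fin n → ENNReal)
    (f : MvPowerSeries (Fin n) K) : psN nmC ρ (MvPowerSeries.map σ f) = psN μ ρ f := by
  rw [BA.psN_one nmC ρ (by norm_num), BA.psN_one μ ρ hκ]
  refine tsum_congr fun γ => ?_
  simp only [BA.tm, MvPowerSeries.coeff_map, hμ]
  rfl

/-- value bound at an archimedean place -/
theorem val_arch {n : ℕ} {K : Type} [Field K] (σ : K →+* ℂ) (p : Fin n → K) (hp : ∀ i, p i ≠ 0)
    (Ξ : Fin n → MvPowerSeries (Fin n) K)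
    (hc : ∀ i, MvPowerSeries.constantCoeff (Ξ i) = p i) (ρ : Fin n → ℝ) (hρ : ∀ i, 0 < ρ i)
    (ε : ℝ) (hε0 : 0 < ε) (hε : ε ≤ 1 / 2)
    (h : ∀ i, psN nmC (fun i => ENNReal.ofReal (ρ i)) (MvPowerSeries.map σ (Ξ i) -
      MvPowerSeries.C (σ (p i))) ≤ ENNReal.ofReal (ε * ‖σ (p i)‖))
    (f : MvPowerSeries (Fin n) K) (D : Fin n → ℝ) (b : ℝ) (T : Finset (Fin n → ℤ))
    (r : (Fin n → ℤ) → ℂ)
    (hf : MvPowerSeries.map σ f = lp (fun i => MvPowerSeries.map σ (Ξ i)) T r)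
    (hD : ∀ a ∈ T, ∀ i, |(a i : ℝ)| ≤ D i)
    (hb : ∀ a ∈ T, Real.log (∑ a' ∈ T, ‖r a'‖) + ∑ i, (a i : ℝ) * Real.log ‖σ (p i)‖ ≤ b)
    (γ : Fin n →₀ ℕ) (hγ : MvPowerSeries.coeff γ f ≠ 0) :
    Real.log ‖σ (MvPowerSeries.coeff γ f)‖ ≤
      b + ∑ i, (γ i : ℝ) * (-Real.log (ρ i)) + 2 * ε * ∑ i, D i := by
  obtain ⟨m, hm⟩ := exists_ps nmC (fun i => ENNReal.ofReal (ρ i))
  set L : ℝ := ∑ a' ∈ T, ‖r a'‖ with hL
  have hL0 : 0 ≤ L := Finset.sum_nonneg fun _ _ => norm_nonneg _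
  set E : ℝ := 2 * ε * ∑ i, D i with hE
  have hσp : ∀ i, σ (p i) ≠ 0 := fun i => (map_ne_zero σ).2 (hp i)
  have hpsm : ∀ a ∈ T, psN nmC (fun i => ENNReal.ofReal (ρ i))
      (psm (fun i => MvPowerSeries.map σ (Ξ i)) a) ≤
      ENNReal.ofReal (Real.exp (∑ i, (a i : ℝ) * Real.log ‖σ (p i)‖ + E)) := by
    intro a ha
    have h1 := psN_psm nmC (fun i => ENNReal.ofReal (ρ i)) le_rfl (fun z => ‖z‖) (fun x => rfl) ε
      hε0 hε (fun i => MvPowerSeries.map σ (Ξ i)) (fun i => σ (p i)) hσp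
      (fun i => norm_pos_iff.2 (hσp i)) (fun i => norm_inv _)
      (fun i => by rw [MvPowerSeries.constantCoeff_map, hc]) (fun i => by
        rw [pow_one]
        exact h i) a
    refine h1.trans (ENNReal.ofReal_le_ofReal (Real.exp_le_exp.2 (add_le_add_right ?_ _)))
    rw [Nat.cast_one, one_mul, hE]
    exact mul_le_mul_of_nonneg_left (Finset.sum_le_sum fun i _ => hD a ha i) (by positivity)
  have hsum : psN nmC (fun i => ENNReal.ofReal (ρ i)) (MvPowerSeries.map σ f) ≤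
      ENNReal.ofReal (∑ a ∈ T, ‖r a‖ * Real.exp (∑ i, (a i : ℝ) * Real.log ‖σ (p i)‖ + E)) := by
    rw [hf, lp, ← hm, ENNReal.ofReal_sum_of_nonneg
      (fun a _ => mul_nonneg (norm_nonneg _) (Real.exp_pos _).le)]
    refine (BA.sum_le' m T _).trans (Finset.sum_le_sum fun a ha => ?_)
    refine (m.mul _ _).trans ?_
    rw [hm, psN_C, ENNReal.ofReal_mul (norm_nonneg _)]
    exact mul_le_mul' le_rfl (hpsm a ha)
  have hco := (coeff_le_psN nmC (fun i => ENNReal.ofReal (ρ i)) (MvPowerSeries.map σ f) γ).trans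
    hsum
  set y := MvPowerSeries.coeff γ f with hy
  have hy0 : 0 < ‖σ y‖ := norm_pos_iff.2 ((map_ne_zero σ).2 hγ)
  have hP : 0 < ∏ i, ρ i ^ γ i := Finset.prod_pos fun i _ => pow_pos (hρ i) _
  have hreal : ‖σ y‖ * ∏ i, ρ i ^ γ i ≤
      ∑ a ∈ T, ‖r a‖ * Real.exp (∑ i, (a i : ℝ) * Real.log ‖σ (p i)‖ + E) := by
    have h1 : nmC.N (MvPowerSeries.coeff γ (MvPowerSeries.map σ f)) *
        ∏ i, ENNReal.ofReal (ρ i) ^ γ i = ENNReal.ofReal (‖σ y‖ * ∏ i, ρ i ^ γ i) := by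
      rw [MvPowerSeries.coeff_map, ENNReal.ofReal_mul hy0.le,
        ENNReal.ofReal_prod_of_nonneg (fun i _ => (pow_pos (hρ i) _).le)]
      congr 1
      exact Finset.prod_congr rfl fun i _ => (ENNReal.ofReal_pow (hρ i).le _).symm
    rw [h1] at hco
    exact (ENNReal.ofReal_le_ofReal_iff (Finset.sum_nonneg fun a _ =>
      mul_nonneg (norm_nonneg _) (Real.exp_pos _).le)).1 hco
  have hLpos : 0 < L := by
    rcases hL0.lt_or_eq with h1 | h1
    · exact h1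
    · exfalso
      have h2 : ∀ a ∈ T, ‖r a‖ = 0 := (Finset.sum_eq_zero_iff_of_nonneg
        (fun _ _ => norm_nonneg _)).1 h1.symm
      have h3 : ∑ a ∈ T, ‖r a‖ * Real.exp (∑ i, (a i : ℝ) * Real.log ‖σ (p i)‖ + E) = 0 :=
        Finset.sum_eq_zero fun a ha => by rw [h2 a ha, zero_mul]
      rw [h3] at hreal
      exact absurd hreal (not_le.2 (mul_pos hy0 hP))
  have hbd : ∑ a ∈ T, ‖r a‖ * Real.exp (∑ i, (a i : ℝ) * Real.log ‖σ (p i)‖ + E) ≤
      Real.exp (b + E) := by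
    calc ∑ a ∈ T, ‖r a‖ * Real.exp (∑ i, (a i : ℝ) * Real.log ‖σ (p i)‖ + E)
        ≤ ∑ a ∈ T, ‖r a‖ * Real.exp (b - Real.log L + E) := by
          refine Finset.sum_le_sum fun a ha => mul_le_mul_of_nonneg_left
            (Real.exp_le_exp.2 ?_) (norm_nonneg _)
          have := hb a ha
          linarith
      _ = L * Real.exp (b - Real.log L + E) := by rw [← Finset.sum_mul]
      _ = Real.exp (b + E) := by
          nth_rw 1 [← Real.exp_log hLpos]
          rw [← Real.exp_add]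
          congr 1
          ring
  have hfin := hreal.trans hbd
  have hlog := Real.log_le_log (mul_pos hy0 hP) hfin
  rw [Real.log_exp, Real.log_mul hy0.ne' hP.ne', Real.log_prod (fun i _ =>
    (pow_pos (hρ i) _).ne')] at hlog
  have h5 : ∑ i, Real.log (ρ i ^ γ i) = -∑ i, (γ i : ℝ) * (-Real.log (ρ i)) := by
    rw [← Finset.sum_neg_distrib]
    exact Finset.sum_congr rfl fun i _ => by
      rw [Real.log_pow]
      ring
  rw [h5] at hlog
  linarith

/-- value bound at a finite place -/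
theorem val_fin {n : ℕ} {K : Type} [Field K] {κ : ℕ} (hκ : κ = 0) (μ : Nm K κ)
    (A : AbsoluteValue K ℝ) (hA : ∀ x, μ.N x = ENNReal.ofReal (A x)) (hAZ : ∀ m : ℤ, A m ≤ 1)
    (p : Fin n → K) (hp : ∀ i, p i ≠ 0)
    (Ξ : Fin n → MvPowerSeries (Fin n) K)
    (hc : ∀ i, MvPowerSeries.constantCoeff (Ξ i) = p i) (ρ : Fin n → ℝ) (hρ : ∀ i, 0 < ρ i)
    (h : ∀ i, psN μ (fun i => ENNReal.ofReal (ρ i)) (Ξ i - MvPowerSeries.C (p i)) ≤
      ENNReal.ofReal (A (p i)))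
    (f : MvPowerSeries (Fin n) K) (b : ℝ) (T : Finset (Fin n → ℤ))
    (r : (Fin n → ℤ) → ℤ)
    (hf : f = lp Ξ T (fun a => (r a : K)))
    (hb : ∀ a ∈ T, ∑ i, (a i : ℝ) * Real.log (A (p i)) ≤ b)
    (γ : Fin n →₀ ℕ) (hγ : MvPowerSeries.coeff γ f ≠ 0) :
    Real.log (A (MvPowerSeries.coeff γ f)) ≤ b + ∑ i, (γ i : ℝ) * (-Real.log (ρ i)) := by
  subst hκ
  obtain ⟨m, hm⟩ := exists_ps μ (fun i => ENNReal.ofReal (ρ i))
  have hAp : ∀ i, 0 < A (p i) := fun i => A.pos (hp i)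
  have hpsm : ∀ a ∈ T, psN μ (fun i => ENNReal.ofReal (ρ i)) (psm Ξ a) ≤
      ENNReal.ofReal (Real.exp b) := by
    intro a ha
    have h1 := psN_psm μ (fun i => ENNReal.ofReal (ρ i)) (by norm_num) (fun z => A z) hA (1 / 2)
      (by norm_num) le_rfl Ξ p hp hAp (fun i => map_inv₀ A _) hc (fun i => by
        rw [pow_zero, one_mul]
        exact h i) a
    refine h1.trans (ENNReal.ofReal_le_ofReal (Real.exp_le_exp.2 ?_))
    rw [Nat.cast_zero, zero_mul, zero_mul, add_zero]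
    exact hb a ha
  have hsum : psN μ (fun i => ENNReal.ofReal (ρ i)) f ≤ ENNReal.ofReal (Real.exp b) := by
    rw [hf, lp, ← hm]
    have h1 := m.sum_le (by norm_num) T (fun a => MvPowerSeries.C ((r a : ℤ) : K) * psm Ξ a)
      (ENNReal.ofReal (Real.exp b)) (fun a ha => by
        refine (m.mul _ _).trans ?_
        rw [hm, psN_C, hA]
        calc ENNReal.ofReal (A (r a)) * psN μ (fun i => ENNReal.ofReal (ρ i)) (psm Ξ a)
            ≤ 1 * ENNReal.ofReal (Real.exp b) :=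
              mul_le_mul' (by
                rw [← ENNReal.ofReal_one]
                exact ENNReal.ofReal_le_ofReal (hAZ _)) (hpsm a ha)
          _ = _ := one_mul _)
    rwa [pow_zero, one_mul] at h1
  have hco := (coeff_le_psN μ (fun i => ENNReal.ofReal (ρ i)) f γ).trans hsum
  set y := MvPowerSeries.coeff γ f with hy
  have hy0 : 0 < A y := A.pos hγ
  have hP : 0 < ∏ i, ρ i ^ γ i := Finset.prod_pos fun i _ => pow_pos (hρ i) _
  have hreal : A y * ∏ i, ρ i ^ γ i ≤ Real.exp b := by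
    have h1 : μ.N y * ∏ i, ENNReal.ofReal (ρ i) ^ γ i =
        ENNReal.ofReal (A y * ∏ i, ρ i ^ γ i) := by
      rw [hA, ENNReal.ofReal_mul hy0.le,
        ENNReal.ofReal_prod_of_nonneg (fun i _ => (pow_pos (hρ i) _).le)]
      congr 1
      exact Finset.prod_congr rfl fun i _ => (ENNReal.ofReal_pow (hρ i).le _).symm
    rw [h1] at hco
    exact (ENNReal.ofReal_le_ofReal_iff (Real.exp_pos _).le).1 hco
  have hlog := Real.log_le_log (mul_pos hy0 hP) hreal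
  rw [Real.log_exp, Real.log_mul hy0.ne' hP.ne', Real.log_prod (fun i _ =>
    (pow_pos (hρ i) _).ne')] at hlog
  have h5 : ∑ i, Real.log (ρ i ^ γ i) = -∑ i, (γ i : ℝ) * (-Real.log (ρ i)) := by
    rw [← Finset.sum_neg_distrib]
    exact Finset.sum_congr rfl fun i _ => by
      rw [Real.log_pow]
      ring
  rw [h5] at hlog
  linarith

end CE

end Pool.Agent.ZP
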