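import Mathlib
import Pool.Agent.Lib.MP_c95b3b_ag_ZP.Defs
import Pool.Agent.Lib.MP_c95b3b_ag_SD.QMap
import Pool.Agent.Lib.MP_c95b3b_ag_SD.QMapA
import Pool.Agent.Lib.MP_c95b3b_ag_SD.RelMap
import Pool.Agent.Lib.MP_c95b3b_ag_AL.ZA

set_option autoImplicit false

/-! Project ZP (MP_c95b3b_ag), block CF: images under graded monomial maps. -/

namespace Pool.Agent.ZP

open MvPolynomial Filter Topology Module Pool.Agent.L3 Pool.Agent.SD Pool.Agent.AL

namespace CF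

/-! ### parts of vectors -/

section
variable {n q : ℕ} {blk : Fin n → Fin (q + 1)}

theorem pj_mem (j : Fin (q + 1)) (a : Fin n → ℤ) : pj blk j a ∈ blL blk j := by
  intro i hi
  simp [pj, hi]

theorem pj_of_mem {j : Fin (q + 1)} {a : Fin n → ℤ} (h : a ∈ blL blk j) : pj blk j a = a := by
  funext i
  by_cases hi : blk i = j
  · simp [pj, hi]
  · simp [pj, hi, h i hi]

theorem pj_of_mem_ne {j j' : Fin (q + 1)} (hj : j ≠ j') {a : Fin n → ℤ} (h : a ∈ blL blk j) :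
    pj blk j' a = 0 := by
  funext i
  by_cases hi : blk i = j'
  · simp [pj, hi, h i (by rw [hi]; exact hj.symm)]
  · simp [pj, hi]

theorem pj_add (j : Fin (q + 1)) (a b : Fin n → ℤ) :
    pj blk j (a + b) = pj blk j a + pj blk j b := by
  funext i
  simp only [pj, Pi.add_apply]
  split_ifs <;> simp

theorem sum_pj (a : Fin n → ℤ) : ∑ j, pj blk j a = a := by
  funext i
  rw [Finset.sum_apply]
  simp [pj]

theorem rv_pj (j : Fin (q + 1)) (a : Fin n → ℤ) : rv (pj blk j a) = pj blk j (rv a) := by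
  funext i
  simp only [rv, pj]
  split_ifs <;> simp

theorem gr_top : Gr blk ⊤ := fun _ _ _ => Submodule.mem_top

theorem gr_bot : Gr blk (⊥ : Submodule ℤ (Fin n → ℤ)) := by
  intro a ha j
  rw [Submodule.mem_bot] at ha ⊢
  subst ha
  funext i
  simp [pj]

theorem gr_blL (j : Fin (q + 1)) : Gr blk (blL blk j) := by
  intro a ha j' i hi
  simp only [pj]
  split_ifs
  · exact ha i hi
  · rfl

theorem gr_uL : Gr blk (uL blk) := by
  intro a ha j' i hi
  simp only [pj]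
  split_ifs
  · exact ha i hi
  · rfl

theorem Gr.sup {Λ Λ' : Submodule ℤ (Fin n → ℤ)} (h : Gr blk Λ) (h' : Gr blk Λ') :
    Gr blk (Λ ⊔ Λ') := by
  intro a ha j
  obtain ⟨b, hb, c, hc, rfl⟩ := Submodule.mem_sup.1 ha
  rw [pj_add]
  exact Submodule.add_mem_sup (h b hb j) (h' c hc j)

theorem Gr.inf {Λ Λ' : Submodule ℤ (Fin n → ℤ)} (h : Gr blk Λ) (h' : Gr blk Λ') :
    Gr blk (Λ ⊓ Λ') := fun a ha j => ⟨h a ha.1 j, h' a ha.2 j⟩

/-- a graded lattice is generated by its parts -/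
theorem Gr.mem_iff {Λ : Submodule ℤ (Fin n → ℤ)} (h : Gr blk Λ) (a : Fin n → ℤ) :
    a ∈ Λ ↔ ∀ j, pj blk j a ∈ Λ ⊓ blL blk j := by
  constructor
  · intro ha j
    exact ⟨h a ha j, pj_mem j a⟩
  · intro ha
    rw [← sum_pj (blk := blk) a]
    exact Submodule.sum_mem _ fun j _ => (ha j).1

end

/-! ### adapted bases -/

/-- graded lattices have adapted bases -/
theorem exists_adapted {n q : ℕ} {blk : Fin n → Fin (q + 1)} {Λ : Submodule ℤ (Fin n → ℤ)}
    (h : Gr blk Λ) : ∃ (m : ℕ) (β : Fin m → Fin n → ℤ) (blk' : Fin m → Fin (q + 1)),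
      m = finrank ℤ Λ ∧ LinearIndependent ℤ β ∧ (∀ a, a ∈ Λ ↔ ∃ c, a = cmb β c) ∧
      ∀ l, β l ∈ blL blk (blk' l) := by
  classical
  choose b hb1 hb2 _ using fun j => exists_basis (Λ ⊓ blL blk j)
  have hbm : ∀ j k, b j k ∈ Λ ⊓ blL blk j := by
    intro j k
    rw [hb2]
    exact ⟨Pi.single k 1, (RelMap.cmb_single _ _).symm⟩
  let I : Type := Σ j : Fin (q + 1), Fin (finrank ℤ (Λ ⊓ blL blk j : Submodule ℤ (Fin n → ℤ)))
  let e : I ≃ Fin (Fintype.card I) := Fintype.equivFin I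
  let B : I → Fin n → ℤ := fun s => b s.1 s.2
  have hB : LinearIndependent ℤ B := by
    rw [Fintype.linearIndependent_iff]
    intro g hg
    have h1 : ∀ j, ∑ k, g ⟨j, k⟩ • b j k = 0 := by
      intro j
      funext i
      by_cases hi : blk i = j
      · have h2 := congrFun hg i
        rw [Finset.sum_apply, Fintype.sum_sigma, Finset.sum_eq_single j] at h2
        · rw [Finset.sum_apply]
          exact h2
        · intro j' _ hj'
          refine Finset.sum_eq_zero fun k _ => ?_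
          have h3 : b j' k i = 0 := (hbm j' k).2 i (by rw [hi]; exact hj'.symm)
          show g ⟨j', k⟩ • b j' k i = 0
          rw [h3, smul_zero]
        · intro h3
          exact absurd (Finset.mem_univ j) h3
      · rw [Finset.sum_apply]
        refine Finset.sum_eq_zero fun k _ => ?_
        have h3 : b j k i = 0 := (hbm j k).2 i hi
        show g ⟨j, k⟩ • b j k i = 0
        rw [h3, smul_zero]
    rintro ⟨j, k⟩
    exact (Fintype.linearIndependent_iff.1 (hb1 j)) (fun k => g ⟨j, k⟩) (h1 j) k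
  have hli : LinearIndependent ℤ (fun l => B (e.symm l)) :=
    hB.comp _ e.symm.injective
  have hmem : ∀ a, a ∈ Λ ↔ ∃ c, a = cmb (fun l => B (e.symm l)) c := by
    intro a
    constructor
    · intro ha
      have h1 := (Gr.mem_iff h a).1 ha
      choose c hc using fun j => (hb2 j _).1 (h1 j)
      refine ⟨fun l => c (e.symm l).1 (e.symm l).2, ?_⟩
      rw [Map.cmb_eq]
      have h2 : ∑ l, c (e.symm l).1 (e.symm l).2 • B (e.symm l) =
          ∑ s : I, c s.1 s.2 • B s :=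
        Equiv.sum_comp e.symm (fun s : I => c s.1 s.2 • B s)
      rw [h2, Fintype.sum_sigma, ← sum_pj (blk := blk) a]
      refine Finset.sum_congr rfl fun j _ => ?_
      rw [hc j, Map.cmb_eq]
    · rintro ⟨c, rfl⟩
      rw [Map.cmb_eq]
      exact Submodule.sum_mem _ fun l _ => Submodule.smul_mem _ _ (hbm _ _).1
  refine ⟨Fintype.card I, fun l => B (e.symm l), fun l => (e.symm l).1, ?_, hli, hmem,
    fun l => (hbm _ _).2⟩
  have h1 : Submodule.span ℤ (Set.range fun l => B (e.symm l)) = Λ := by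
    refine le_antisymm (Submodule.span_le.2 ?_) ?_
    · rintro _ ⟨l, rfl⟩
      exact (hbm _ _).1
    · intro a ha
      obtain ⟨c, rfl⟩ := (hmem a).1 ha
      rw [Map.cmb_eq]
      exact Submodule.sum_mem _ fun l _ => Submodule.smul_mem _ _
        (Submodule.subset_span ⟨l, rfl⟩)
  have h2 := finrank_span_eq_card hli
  rw [h1, Fintype.card_fin] at h2
  exact h2.symm

/-! ### graded monomial maps -/

section
variable {n m q : ℕ} {blk : Fin n → Fin (q + 1)} {blk' : Fin m → Fin (q + 1)}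
  {β : Fin m → Fin n → ℤ}

theorem cmb_pj (hb : ∀ l, β l ∈ blL blk (blk' l)) (j : Fin (q + 1)) (c : Fin m → ℤ) :
    cmb β (pj blk' j c) = pj blk j (cmb β c) := by
  funext i
  by_cases hi : blk i = j
  · simp only [cmb, pj, if_pos hi]
    refine Finset.sum_congr rfl fun l _ => ?_
    by_cases hl : blk' l = j
    · rw [if_pos hl]
    · rw [if_neg hl, zero_mul, hb l i (by rw [hi]; exact fun h => hl h.symm), mul_zero]
  · simp only [cmb, pj, if_neg hi]
    refine Finset.sum_eq_zero fun l _ => ?_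
    by_cases hl : blk' l = j
    · rw [hb l i (by rw [hl]; exact hi), mul_zero]
    · rw [if_neg hl, zero_mul]

theorem cmb_mem (hb : ∀ l, β l ∈ blL blk (blk' l)) {j : Fin (q + 1)} {c : Fin m → ℤ}
    (hc : c ∈ blL blk' j) : cmb β c ∈ blL blk j := by
  rw [← pj_of_mem hc, cmb_pj hb]
  exact pj_mem _ _

theorem mem_of_cmb (hβ : LinearIndependent ℤ β) (hb : ∀ l, β l ∈ blL blk (blk' l))
    {j : Fin (q + 1)} {c : Fin m → ℤ} (hc : cmb β c ∈ blL blk j) : c ∈ blL blk' j := by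
  have h1 : pj blk' j c = c := by
    apply cmb_injective hβ
    rw [cmb_pj hb, pj_of_mem hc]
  rw [← h1]
  exact pj_mem _ _

theorem cmb_sc (hb : ∀ l, β l ∈ blL blk (blk' l)) (s : Fin (q + 1) → ℝ) (b : Fin m → ℝ) :
    cmbR β (sc blk' s b) = sc blk s (cmbR β b) := by
  funext i
  simp only [cmbR, sc]
  rw [Finset.sum_div]
  refine Finset.sum_congr rfl fun l _ => ?_
  by_cases hl : blk i = blk' l
  · rw [hl]
    ring
  · rw [hb l i hl, Int.cast_zero, mul_zero, mul_zero, zero_div]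

theorem gr_map (hb : ∀ l, β l ∈ blL blk (blk' l)) {P : Submodule ℤ (Fin m → ℤ)}
    (h : Gr blk' P) : Gr blk (P.map (QMap.cmbZ β)) := by
  intro a ha j
  obtain ⟨c, hc, rfl⟩ := (QMap.mem_map a).1 ha
  rw [← cmb_pj hb]
  exact (QMap.mem_map _).2 ⟨_, h c hc j, rfl⟩

theorem gr_comap (hb : ∀ l, β l ∈ blL blk (blk' l)) {Λ : Submodule ℤ (Fin n → ℤ)}
    (h : Gr blk Λ) : Gr blk' (Λ.comap (QMap.cmbZ β)) := by
  intro a ha j
  rw [Submodule.mem_comap, QMap.cmbZ_apply] at ha ⊢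
  rw [cmb_pj hb]
  exact h _ ha j

theorem finrank_mapZ (hβ : LinearIndependent ℤ β) (P : Submodule ℤ (Fin m → ℤ)) :
    finrank ℤ (P.map (QMap.cmbZ β)) = finrank ℤ P :=
  (Submodule.equivMapOfInjective (QMap.cmbZ β) (QMap.cmbZ_injective hβ) P).finrank_eq.symm

theorem spR_map (P : Submodule ℤ (Fin m → ℤ)) :
    (spR P).map (cmbL β) = spR (P.map (QMap.cmbZ β)) := by
  unfold spR
  rw [Submodule.map_span]
  congr 1
  ext v
  constructor
  · rintro ⟨_, ⟨a, ha, rfl⟩, rfl⟩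
    exact ⟨cmb β a, (QMap.mem_map _).2 ⟨a, ha, rfl⟩, rv_cmb β a⟩
  · rintro ⟨a, ha, rfl⟩
    obtain ⟨c, hc, rfl⟩ := (QMap.mem_map a).1 ha
    exact ⟨rv c, ⟨c, hc, rfl⟩, (rv_cmb β c).symm⟩

theorem spR_top : spR (⊤ : Submodule ℤ (Fin n → ℤ)) = ⊤ := by
  rw [eq_top_iff]
  intro b _
  rw [Map.eq_sum_single b]
  exact Submodule.sum_mem _ fun i _ => Submodule.smul_mem _ _
    (Submodule.subset_span ⟨_, Submodule.mem_top, rfl⟩)

theorem spR_mono {Λ Λ' : Submodule ℤ (Fin n → ℤ)} (h : Λ ≤ Λ') : spR Λ ≤ spR Λ' :=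
  Submodule.span_mono (Set.image_mono h)

theorem finrank_spR (Λ : Submodule ℤ (Fin n → ℤ)) : finrank ℝ (spR Λ) = finrank ℤ Λ :=
  QMapA.finrank_U Λ

theorem spR_sup (Λ Λ' : Submodule ℤ (Fin n → ℤ)) : spR (Λ ⊔ Λ') = spR Λ ⊔ spR Λ' := by
  refine le_antisymm ?_ (sup_le (spR_mono le_sup_left) (spR_mono le_sup_right))
  refine Submodule.span_le.2 ?_
  rintro _ ⟨a, ha, rfl⟩
  obtain ⟨y, hy, z, hz, rfl⟩ := Submodule.mem_sup.1 ha
  rw [rv_add]
  exact Submodule.add_mem_sup (Submodule.subset_span ⟨y, hy, rfl⟩)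
    (Submodule.subset_span ⟨z, hz, rfl⟩)

theorem finrank_comap_inf (hβ : LinearIndependent ℤ β) (V : Submodule ℝ (Fin n → ℝ))
    (P : Submodule ℤ (Fin m → ℤ)) :
    finrank ℝ (V.comap (cmbL β) ⊓ spR P : Submodule ℝ (Fin m → ℝ)) =
      finrank ℝ (V ⊓ spR (P.map (QMap.cmbZ β)) : Submodule ℝ (Fin n → ℝ)) := by
  have hinj := cmbL_injective hβ
  have h1 : (V.comap (cmbL β) ⊓ spR P).map (cmbL β) = V ⊓ spR (P.map (QMap.cmbZ β)) := by
    rw [← spR_map]
    ext v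
    constructor
    · rintro ⟨u, ⟨hu1, hu2⟩, rfl⟩
      exact ⟨hu1, ⟨u, hu2, rfl⟩⟩
    · rintro ⟨hv1, ⟨u, hu2, rfl⟩⟩
      exact ⟨u, ⟨hv1, hu2⟩, rfl⟩
  rw [← h1]
  exact (Submodule.equivMapOfInjective (cmbL β) hinj _).finrank_eq

theorem finrank_comap_eq (hβ : LinearIndependent ℤ β) (V : Submodule ℝ (Fin n → ℝ)) :
    finrank ℝ (V.comap (cmbL β)) =
      finrank ℝ (V ⊓ spR ((⊤ : Submodule ℤ (Fin m → ℤ)).map (QMap.cmbZ β)) :
        Submodule ℝ (Fin n → ℝ)) := by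
  rw [← finrank_comap_inf hβ, spR_top, inf_top_eq]

variable {L : Type} [Field L] [Algebra ℂ L] {x : Fin n → L}

theorem dd_map (hx : ∀ i, x i ≠ 0) (hβ : LinearIndependent ℤ β)
    (hb : ∀ l, β l ∈ blL blk (blk' l)) (P : Submodule ℤ (Fin m → ℤ)) :
    dd (mm β x) blk' P = dd x blk (P.map (QMap.cmbZ β)) := by
  unfold dd
  refine Finset.sum_congr rfl fun j _ => ?_
  refine rkZ_mm hx β _ _ fun a => ?_
  constructor
  · rintro ⟨h1, h2⟩
    obtain ⟨c, hc, rfl⟩ := (QMap.mem_map a).1 h1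
    exact ⟨c, ⟨hc, mem_of_cmb hβ hb h2⟩, rfl⟩
  · rintro ⟨c, ⟨h1, h2⟩, rfl⟩
    exact ⟨(QMap.mem_map _).2 ⟨c, h1, rfl⟩, cmb_mem hb h2⟩

/-- the function `Ψ` for images -/
theorem Psi_map_iff (hx : ∀ i, x i ≠ 0) (hβ : LinearIndependent ℤ β)
    (hb : ∀ l, β l ∈ blL blk (blk' l)) (V : Submodule ℝ (Fin n → ℝ))
    (P : Submodule ℤ (Fin m → ℤ)) (k : ℕ) :
    Psi (mm β x) blk' (V.comap (cmbL β)) P k ↔
      dd x blk ((⊤ : Submodule ℤ (Fin m → ℤ)).map (QMap.cmbZ β)) +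
        finrank ℝ (V ⊓ spR (P.map (QMap.cmbZ β)) : Submodule ℝ (Fin n → ℝ)) + k ≤
      finrank ℝ (V ⊓ spR ((⊤ : Submodule ℤ (Fin m → ℤ)).map (QMap.cmbZ β)) :
        Submodule ℝ (Fin n → ℝ)) + dd x blk (P.map (QMap.cmbZ β)) := by
  unfold Psi
  rw [dd_map hx hβ hb, dd_map hx hβ hb, finrank_comap_inf hβ, finrank_comap_eq hβ]

end

end CF

end Pool.Agent.ZP
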