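import Mathlib
import Pool.Agent.Lib.MP_c95b3b_ag_ZP.Defs
import Pool.Agent.Lib.MP_c95b3b_ag_SD.RelMap
import Pool.Agent.Lib.MP_c95b3b_ag_AL.ZA

set_option autoImplicit false

/-! Project ZP (MP_c95b3b_ag), block CF: the rings of units of images under monomial maps. -/

namespace Pool.Agent.ZP

open MvPolynomial Filter Topology Module Pool.Agent.L3 Pool.Agent.SD Pool.Agent.AL

namespace CF

theorem l1_monomial {ι : Type} (m : ι →₀ ℕ) (a : ℤ) :
    l1 (monomial m a : MvPolynomial ι ℤ) = |(a : ℝ)| := by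
  classical
  unfold l1
  by_cases ha : a = 0
  · subst ha
    simp
  · rw [support_monomial, if_neg ha, Finset.sum_singleton, coeff_monomial, if_pos rfl]

/-- polynomials in monomials become polynomials after multiplication with a monomial; degree and
norm -/
theorem exists_poly_bd {m n : ℕ} (β : Fin m → Fin n → ℤ) (F : MvPolynomial (Fin m) ℤ) (B : ℕ)
    (hF : ∀ l, F.degreeOf l ≤ B) :
    ∃ F' : MvPolynomial (Fin n) ℤ, l1 F' ≤ l1 F ∧
      (∀ i, F'.degreeOf i ≤ 2 * (B * ∑ l, ∑ i, (β l i).natAbs)) ∧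
      ∀ (G : Type) [Field G] (y : Fin n → G), (∀ i, y i ≠ 0) →
        aeval y F' = (∏ i, y i) ^ (B * ∑ l, ∑ i, (β l i).natAbs) * aeval (mm β y) F := by
  classical
  set N : ℕ := B * ∑ l, ∑ i, (β l i).natAbs with hN
  have hbd : ∀ e ∈ F.support, ∀ i, |∑ l, (e l : ℤ) * β l i| ≤ (N : ℤ) := by
    intro e he i
    have h1 : ∀ l, |(e l : ℤ) * β l i| ≤ (B : ℤ) * (∑ i, (β l i).natAbs : ℕ) := by
      intro l
      rw [abs_mul, Int.abs_eq_natAbs (β l i), Nat.abs_cast]
      have h2 : e l ≤ B := (monomial_le_degreeOf l he).trans (hF l)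
      have h3 : (β l i).natAbs ≤ ∑ i, (β l i).natAbs :=
        Finset.single_le_sum (f := fun i => (β l i).natAbs) (fun _ _ => Nat.zero_le _)
          (Finset.mem_univ i)
      exact_mod_cast Nat.mul_le_mul h2 h3
    refine (Finset.abs_sum_le_sum_abs _ _).trans ((Finset.sum_le_sum fun l _ => h1 l).trans ?_)
    rw [hN, ← Finset.mul_sum]
    push_cast
    exact le_rfl
  let ex : (Fin m →₀ ℕ) → Fin n →₀ ℕ := fun e =>
    Finsupp.equivFunOnFinite.symm fun i => ((N : ℤ) + ∑ l, (e l : ℤ) * β l i).toNat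
  have hex : ∀ e i, ex e i = ((N : ℤ) + ∑ l, (e l : ℤ) * β l i).toNat := fun e i => rfl
  refine ⟨∑ e ∈ F.support, monomial (ex e) (coeff e F), ?_, ?_, ?_⟩
  · refine (l1_sum _ _).trans ?_
    rw [l1]
    exact Finset.sum_le_sum fun e _ => (l1_monomial _ _).le
  · intro i
    refine (degreeOf_sum_le _ _ _).trans (Finset.sup_le fun e he => ?_)
    have h1 : (monomial (ex e) (coeff e F)).degreeOf i ≤ ex e i := by
      rw [degreeOf_monomial_eq _ _ (mem_support_iff.1 he)]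
    refine h1.trans ?_
    rw [hex]
    have h2 := abs_le.1 (hbd e he i)
    omega
  · intro G _ y hy
    rw [map_sum]
    conv_rhs => rw [F.as_sum, map_sum]
    rw [Finset.mul_sum]
    refine Finset.sum_congr rfl fun e he => ?_
    rw [aeval_monomial, aeval_monomial]
    have h3 : (ex e).prod (fun i k => y i ^ k) =
        (∏ i, y i) ^ N * e.prod (fun l k => mm β y l ^ k) := by
      rw [Finsupp.prod_fintype _ _ (fun i => pow_zero _),
        Finsupp.prod_fintype _ _ (fun l => pow_zero _)]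
      have h4 : ∀ l, mm β y l ^ e l = ∏ i, y i ^ ((e l : ℤ) * β l i) := by
        intro l
        rw [mm, mn, ← Finset.prod_pow]
        refine Finset.prod_congr rfl fun i _ => ?_
        rw [← zpow_natCast, ← zpow_mul, mul_comm]
      simp_rw [h4]
      rw [Finset.prod_comm, ← Finset.prod_pow, ← Finset.prod_mul_distrib]
      refine Finset.prod_congr rfl fun i _ => ?_
      rw [hex, ← zpow_natCast, Int.toNat_of_nonneg, zpow_add₀ (hy i), zpow_natCast]
      · congr 1
        generalize (Finset.univ : Finset (Fin m)) = s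
        induction s using Finset.induction_on with
        | empty => simp
        | insert a s ha ih =>
          rw [Finset.sum_insert ha, Finset.prod_insert ha, zpow_add₀ (hy i), ih]
      · have h2 := abs_le.1 (hbd e he i)
        omega
    rw [h3]
    ring

theorem ht_map_single {n m : ℕ} (S : Sq n) (β : Fin m → Fin n → ℤ) (l : Fin m) (ν : ℕ) :
    (S.map β).ht (rv (Pi.single l 1)) ν = S.ht (rv (β l)) ν := by
  rw [map_ht, ← rv_cmb, RelMap.cmb_single]

theorem SatS.map {n m q : ℕ} {𝓤 : Ultrafilter ℕ} {S : Sq n} {blk : Fin n → Fin (q + 1)}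
    {s : ℕ → Fin (q + 1) → ℝ} (h : SatS 𝓤 S blk s) (β : Fin m → Fin n → ℤ)
    {blk' : Fin m → Fin (q + 1)} {s' : ℕ → Fin (q + 1) → ℝ} (hs0 : ∀ ν j, 0 ≤ s ν j)
    (hblk : ∀ l, ∃ i, blk i = blk' l)
    (hs : ∀ᶠ ν in (𝓤 : Filter ℕ), ∀ l, s' ν (blk' l) = s ν (blk' l)) :
    SatS 𝓤 (S.map β) blk' s' := by
  intro B
  set A : ℕ := ∑ l, ∑ i, (β l i).natAbs with hA
  filter_upwards [h (2 * (B * A) + B + B * m), hs] with ν hν hsν F hF1 hF2 hF3
  have hsum : ∑ l, s' ν (blk' l) ≤ m * ∑ i, s ν (blk i) := by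
    have h1 : ∀ l, s' ν (blk' l) ≤ ∑ i, s ν (blk i) := by
      intro l
      obtain ⟨i, hi⟩ := hblk l
      rw [hsν l, ← hi]
      exact Finset.single_le_sum (f := fun i => s ν (blk i)) (fun _ _ => hs0 _ _)
        (Finset.mem_univ i)
    refine (Finset.sum_le_sum fun l _ => h1 l).trans ?_
    rw [Finset.sum_const, Finset.card_univ, Fintype.card_fin, nsmul_eq_mul]
  obtain ⟨F', h1, h2, h3⟩ := exists_poly_bd β F B hF1
  have h4 := h3 (S.K ν) (S.p ν) (S.ne ν)
  rw [← hA] at h2 h4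
  have hP : (∏ i, S.p ν i) ^ (B * A) ≠ 0 :=
    pow_ne_zero _ (Finset.prod_ne_zero_iff.mpr fun i _ => S.ne ν i)
  have h5 : aeval (S.p ν) F' ≠ 0 := by
    rw [h4]
    exact mul_ne_zero hP hF3
  have hF'0 : F' ≠ 0 := by
    rintro rfl
    rw [map_zero] at h5
    exact h5 rfl
  have h6 : (aeval (S.p ν) F')⁻¹ ∈ S.R ν := by
    refine hν F' (fun i => (h2 i).trans (by omega)) ?_ h5
    have h7 : Real.log (l1 F') ≤ Real.log (l1 F) :=
      Real.log_le_log (lt_of_lt_of_le one_pos (one_le_l1 hF'0)) h1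
    refine h7.trans (hF2.trans ?_)
    have h8 : (0 : ℝ) ≤ ∑ i, s ν (blk i) := Finset.sum_nonneg fun i _ => hs0 _ _
    have h10 : (B : ℝ) * (1 + ∑ l, s' ν (blk' l)) ≤ B * (1 + m * ∑ i, s ν (blk i)) :=
      mul_le_mul_of_nonneg_left (by linarith) (Nat.cast_nonneg _)
    refine h10.trans ?_
    push_cast
    have hB0 : (0 : ℝ) ≤ B := Nat.cast_nonneg _
    have hA0 : (0 : ℝ) ≤ A := Nat.cast_nonneg _
    have hm0 : (0 : ℝ) ≤ m := Nat.cast_nonneg _
    have hBA : (0 : ℝ) ≤ B * A := mul_nonneg hB0 hA0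
    have hBm : (0 : ℝ) ≤ B * m := mul_nonneg hB0 hm0
    nlinarith [mul_nonneg hBA h8, mul_nonneg hB0 h8]
  have h11 : (aeval ((S.map β).p ν) F)⁻¹ = (∏ i, S.p ν i) ^ (B * A) * (aeval (S.p ν) F')⁻¹ := by
    have h12 : aeval (mm β (S.p ν)) F ≠ 0 := hF3
    show (aeval (mm β (S.p ν)) F)⁻¹ = _
    rw [h4]
    field_simp
  rw [h11]
  exact (S.R ν).mul_mem ((S.R ν).pow_mem ((S.R ν).prod_mem fun i _ => S.mem ν i) _) h6

end CF

end Pool.Agent.ZP
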