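import Mathlib
import Pool.Agent.Lib.MP_c95b3b_ag_ZP.CFMap
import Pool.Agent.Lib.MP_c95b3b_ag_ZP.CFSat

set_option autoImplicit false

/-! Project ZP (MP_c95b3b_ag), block CF: restriction of configurations to graded lattices,
minimal configurations. -/

namespace Pool.Agent.ZP

open MvPolynomial Filter Topology Module Pool.Agent.L3 Pool.Agent.SD Pool.Agent.AL

namespace CF

section
variable {𝓤 : Ultrafilter ℕ} {n q : ℕ}

/-- The restriction of a configuration to a graded lattice with basis `β`. The scales may be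
changed outside the blocks which occur. -/
noncomputable def restr (c : Cfg 𝓤 n q) {m : ℕ} (β : Fin m → Fin n → ℤ)
    (blk' : Fin m → Fin (q + 1)) (hβ : LinearIndependent ℤ β)
    (hb : ∀ l, β l ∈ blL c.blk (blk' l)) (s' : ℕ → Fin (q + 1) → ℝ) (bd' : Prop)
    (hs1 : ∀ ν, 1 ≤ s' ν 0) (hs2 : ∀ ν j, s' ν 0 ≤ s' ν j)
    (hs3 : ∀ᶠ ν in (𝓤 : Filter ℕ), ∀ l, s' ν (blk' l) = c.s ν (blk' l))
    (hbd1 : bd' → c.bd ∧ (∀ ν, s' ν 0 = 1) ∧ ∃ l, blk' l = 0)
    (hbd2 : ¬ bd' → Tendsto (fun ν => s' ν 0) 𝓤 atTop)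
    (hbd3 : ¬ bd' → c.bd → ∀ l, blk' l ≠ 0)
    (hdim : Psi (mm β c.x) blk' (c.V.comap (cmbL β)) (c.Λ0.comap (QMap.cmbZ β)) 1) :
    Cfg 𝓤 m q where
  S := c.S.map β
  e := c.e
  L := c.L
  x := mm β c.x
  blk := blk'
  s := s'
  V := c.V.comap (cmbL β)
  Λ0 := c.Λ0.comap (QMap.cmbZ β)
  bd := bd'
  hx := mm_ne_zero c.hx β
  hG := c.hG.map c.hx β
  hAD := c.hAD.map c.hx β
  hY := by
    filter_upwards [c.hY] with ν hν
    have h1 := hν.map c.hx β
    have h2 : (fun l => c.e ν (mn (c.S.p ν) (β l))) = mm β (fun i => c.e ν (c.S.p ν i)) := by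
      funext l
      exact map_mn (c.e ν) (β l)
    have h3 : OnY (mm β c.x) (fun l => c.e ν (mn (c.S.p ν) (β l))) := by
      rw [h2]
      exact h1
    exact h3
  hSat := SatS.map c.hSat β (fun ν j => (zero_le_one.trans (c.s_one ν)).trans (c.s_le ν j))
    (fun l => by
      by_contra h4
      push Not at h4
      have h5 : β l = 0 := by
        funext i
        exact hb l i (h4 i)
      exact hβ.ne_zero l h5) hs3
  s_one := hs1
  s_le := hs2
  s_sep := by
    intro T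
    filter_upwards [hs3, c.s_sep T] with ν h1 h2 l l' hl
    rw [h1 l, h1 l']
    have h3 : ∀ l, ∃ i, c.blk i = blk' l := by
      intro l
      by_contra h4
      push Not at h4
      have h5 : β l = 0 := by
        funext i
        exact hb l i (h4 i)
      exact hβ.ne_zero l h5
    obtain ⟨i, hi⟩ := h3 l
    obtain ⟨i', hi'⟩ := h3 l'
    rw [← hi, ← hi'] at hl ⊢
    exact h2 i i' hl
  hbd := by
    obtain ⟨C, hC⟩ := c.hbd
    refine ⟨∑ l, ∑ i, |rv (β l) i| * |C|, ?_⟩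
    filter_upwards [hs3, hC] with ν h1 h2 l
    rw [ht_map_single, h1 l]
    have h0 : 0 ≤ c.s ν (blk' l) := le_trans (le_trans zero_le_one (c.s_one ν)) (c.s_le ν _)
    refine (ht_le c.S _ ν).trans ?_
    have h3 : ∀ i, |rv (β l) i| * c.S.ht (rv (Pi.single i 1)) ν ≤
        |rv (β l) i| * |C| * c.s ν (blk' l) := by
      intro i
      by_cases hi : c.blk i = blk' l
      · rw [mul_assoc]
        refine mul_le_mul_of_nonneg_left ?_ (abs_nonneg _)
        refine (h2 i).trans ?_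
        rw [hi]
        exact mul_le_mul_of_nonneg_right (le_abs_self _) h0
      · have h4 : rv (β l) i = 0 := by
          rw [rv, hb l i hi, Int.cast_zero]
        rw [h4, abs_zero, zero_mul, zero_mul, zero_mul]
    refine (Finset.sum_le_sum fun i _ => h3 i).trans ?_
    rw [← Finset.sum_mul]
    refine mul_le_mul_of_nonneg_right ?_ h0
    exact Finset.single_le_sum (f := fun l => ∑ i, |rv (β l) i| * |C|)
      (fun l _ => Finset.sum_nonneg fun i _ => mul_nonneg (abs_nonneg _) (abs_nonneg _))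
      (Finset.mem_univ l)
  hV := by
    intro b hb'
    have h1 := c.hV _ hb'
    refine h1.congr' ?_
    filter_upwards [hs3] with ν h2
    rw [map_ht]
    have h3 : sc blk' (s' ν) b = sc blk' (c.s ν) b := by
      funext l
      rw [sc, sc, h2 l]
    rw [h3, cmb_sc hb]
    rfl
  gr := gr_comap hb c.gr
  Λ0V := by
    intro a ha
    have h1 := c.Λ0V _ ha
    rw [QMap.cmbZ_apply, rv_cmb] at h1
    exact h1
  heavy := by
    intro j hj a ha ha' hlim
    have ha0 : a ≠ 0 := by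
      rintro rfl
      exact ha' (Submodule.zero_mem _)
    obtain ⟨l, hl⟩ : ∃ l, a l ≠ 0 := by
      by_contra h
      push Not at h
      exact ha0 (funext h)
    have hlj : blk' l = j := by
      by_contra h
      exact hl (ha l h)
    refine c.heavy j ?_ (cmb β a) (cmb_mem hb ha) ha' ?_
    · intro h1
      by_cases hbd' : bd'
      · exact hj hbd'
      · rw [← hlj]
        exact hbd3 hbd' h1 l
    · refine hlim.congr' ?_
      filter_upwards [hs3] with ν h2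
      rw [map_ht, ← rv_cmb, ← hlj, h2 l]
  unb := hbd2
  bdd := by
    intro h
    obtain ⟨h1, h2, h3⟩ := hbd1 h
    obtain ⟨-, h4, h5, -⟩ := c.bdd h1
    refine ⟨h2, ?_, ?_, h3⟩
    · intro a ha l hl
      have h6 : cmb β a ∈ uL c.blk := h4 _ ha
      have h7 : pj blk' 0 a = 0 := by
        apply cmb_injective hβ
        rw [cmb_pj hb, RelMap.cmb_zero]
        funext i
        simp only [pj]
        split_ifs with hi
        · exact h6 i hi
        · rfl
      have h8 := congrFun h7 l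
      simpa [pj, hl] using h8
    · intro a ha ha0
      rw [om_mm c.hx, ← rv_cmb]
      refine h5 _ (cmb_mem hb ha) ?_
      intro h6
      apply ha0
      apply cmb_injective hβ
      rw [h6, RelMap.cmb_zero]
  dim := hdim

end

/-- restriction of a configuration to a graded lattice -/
theorem exists_restr {𝓤 : Ultrafilter ℕ} {n q : ℕ} (c : Cfg 𝓤 n q)
    {Λ : Submodule ℤ (Fin n → ℤ)} (hΛ : Gr c.blk Λ) (h0 : c.Λ0 ≤ Λ)
    (hF : dd c.x c.blk Λ + finrank ℝ (c.V ⊓ spR c.Λ0 : Submodule ℝ (Fin n → ℝ)) + 1 ≤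
      finrank ℝ (c.V ⊓ spR Λ : Submodule ℝ (Fin n → ℝ)) + dd c.x c.blk c.Λ0) :
    ∃ (c' : Cfg 𝓤 (finrank ℤ Λ) q) (β : Fin (finrank ℤ Λ) → Fin n → ℤ),
      c'.S = c.S.map β ∧
      LinearIndependent ℤ β ∧ (∀ a, a ∈ Λ ↔ ∃ v, a = cmb β v) ∧
      (∀ l, β l ∈ blL c.blk (c'.blk l)) ∧
      c'.Λ0 = c.Λ0.comap (QMap.cmbZ β) ∧ c'.V = c.V.comap (cmbL β) ∧
      (∀ P : Submodule ℤ (Fin (finrank ℤ Λ) → ℤ),
        dd c'.x c'.blk P = dd c.x c.blk (P.map (QMap.cmbZ β))) := by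
  classical
  obtain ⟨m, β, blk', hm, hβ, hmem, hb⟩ := exists_adapted hΛ
  subst hm
  have htop : (⊤ : Submodule ℤ (Fin (finrank ℤ Λ) → ℤ)).map (QMap.cmbZ β) = Λ := by
    ext a
    rw [QMap.mem_map, hmem]
    exact ⟨fun ⟨v, _, h⟩ => ⟨v, h⟩, fun ⟨v, h⟩ => ⟨v, Submodule.mem_top, h⟩⟩
  have hmc : (c.Λ0.comap (QMap.cmbZ β)).map (QMap.cmbZ β) = c.Λ0 := by
    ext a
    rw [QMap.mem_map]
    constructor
    · rintro ⟨v, hv, rfl⟩
      exact hv
    · intro ha
      obtain ⟨v, rfl⟩ := (hmem a).1 (h0 ha)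
      exact ⟨v, ha, rfl⟩
  have hdim : Psi (mm β c.x) blk' (c.V.comap (cmbL β)) (c.Λ0.comap (QMap.cmbZ β)) 1 := by
    rw [Psi_map_iff c.hx hβ hb, htop, hmc]
    exact hF
  by_cases hcase : c.bd ∧ ∀ l, blk' l ≠ 0
  · obtain ⟨hbd, hne⟩ := hcase
    -- the bounded block disappears
    have hpos : 0 < finrank ℤ Λ := by
      by_contra h
      have h1 : finrank ℤ Λ = 0 := by omega
      have h2 : finrank ℝ (c.V ⊓ spR Λ : Submodule ℝ (Fin n → ℝ)) ≤ 0 := by
        rw [← h1, ← finrank_spR]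
        exact Submodule.finrank_mono inf_le_right
      have h3 : dd c.x c.blk c.Λ0 ≤ dd c.x c.blk Λ :=
        Finset.sum_le_sum fun j _ => rkZ_mono _ (inf_le_inf_right _ h0)
      omega
    -- the smallest block
    obtain ⟨l0, -, hl0⟩ := Finset.exists_min_image Finset.univ (fun l => blk' l)
      (Finset.univ_nonempty_iff.2 ⟨⟨0, hpos⟩⟩ :
        (Finset.univ : Finset (Fin (finrank ℤ Λ))).Nonempty)
    obtain ⟨hs0, -, -, i0, hi0⟩ := c.bdd hbd
    have hex : ∀ l, ∃ i, c.blk i = blk' l := by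
      intro l
      by_contra h4
      push Not at h4
      have h5 : β l = 0 := by
        funext i
        exact hb l i (h4 i)
      exact hβ.ne_zero l h5
    let s' : ℕ → Fin (q + 1) → ℝ := fun ν j => max (c.s ν j) (c.s ν (blk' l0))
    have hs'1 : ∀ ν, 1 ≤ s' ν 0 := fun ν => (c.s_one ν).trans (le_max_left _ _)
    have hs'2 : ∀ ν j, s' ν 0 ≤ s' ν j := fun ν j =>
      max_le_max (c.s_le ν j) le_rfl
    have hs'3 : ∀ᶠ ν in (𝓤 : Filter ℕ), ∀ l, s' ν (blk' l) = c.s ν (blk' l) := by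
      filter_upwards [c.s_sep 1] with ν h1 l
      refine max_eq_left ?_
      rcases (hl0 l (Finset.mem_univ l)).eq_or_lt with h2 | h2
      · have h2' : blk' l0 = blk' l := h2
        rw [h2']
      · have h2' : blk' l0 < blk' l := h2
        obtain ⟨i, hi⟩ := hex l0
        obtain ⟨i', hi'⟩ := hex l
        rw [← hi, ← hi'] at h2' ⊢
        have h3 := h1 i i' h2'
        rwa [one_mul] at h3
    have hs'4 : Tendsto (fun ν => s' ν 0) 𝓤 atTop := by
      rw [tendsto_atTop]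
      intro T
      filter_upwards [c.s_sep T] with ν h1
      obtain ⟨i, hi⟩ := hex l0
      have h2 : c.blk i0 < c.blk i := by
        rw [hi0, hi]
        exact Fin.pos_iff_ne_zero.2 (hne l0)
      have h3 := h1 i0 i h2
      rw [hi0, hs0, mul_one, hi] at h3
      exact h3.trans (le_max_right _ _)
    refine ⟨restr c β blk' hβ hb s' False hs'1 hs'2 hs'3 (fun h => h.elim) (fun _ => hs'4)
      (fun _ _ => hne) hdim, β, rfl, hβ, hmem, hb, rfl, rfl, fun P => dd_map c.hx hβ hb P⟩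
  · have hcase' : c.bd → ∃ l, blk' l = 0 := by
      intro h
      by_contra h1
      push Not at h1
      exact hcase ⟨h, h1⟩
    refine ⟨restr c β blk' hβ hb c.s c.bd c.s_one c.s_le (Eventually.of_forall fun _ _ => rfl)
      (fun h => ⟨h, (c.bdd h).1, hcase' h⟩) c.unb (fun h h' => absurd h' h) hdim, β, rfl, hβ,
      hmem, hb, rfl, rfl, fun P => dd_map c.hx hβ hb P⟩

/-- **(1.2)** there are minimal configurations -/
theorem exists_min {𝓤 : Ultrafilter ℕ} {n q : ℕ} (c : Cfg 𝓤 n q) :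
    ∃ (m : ℕ) (c' : Cfg 𝓤 m q), c'.Mn := by
  classical
  -- graded lattices which satisfy the inequality
  let Q : ℕ → Prop := fun r => ∃ Λ : Submodule ℤ (Fin n → ℤ), Gr c.blk Λ ∧ c.Λ0 ≤ Λ ∧
    finrank ℤ Λ = r ∧
    dd c.x c.blk Λ + finrank ℝ (c.V ⊓ spR c.Λ0 : Submodule ℝ (Fin n → ℝ)) + 1 ≤
      finrank ℝ (c.V ⊓ spR Λ : Submodule ℝ (Fin n → ℝ)) + dd c.x c.blk c.Λ0
  have hQ : ∃ r, Q r := by
    refine ⟨_, ⊤, gr_top, le_top, rfl, ?_⟩
    rw [spR_top, inf_top_eq]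
    exact c.dim
  obtain ⟨Λ, hΛ, h0, hr, hF⟩ := Nat.find_spec hQ
  obtain ⟨c', β, -, hβ, hmem, hb, hΛ0, hV, hdd⟩ := exists_restr c hΛ h0 hF
  refine ⟨_, c', ?_⟩
  have htop : (⊤ : Submodule ℤ (Fin (finrank ℤ Λ) → ℤ)).map (QMap.cmbZ β) = Λ := by
    ext a
    rw [QMap.mem_map, hmem]
    exact ⟨fun ⟨v, _, h⟩ => ⟨v, h⟩, fun ⟨v, h⟩ => ⟨v, Submodule.mem_top, h⟩⟩
  intro P hP hP0 hPr
  have h1 : Gr c.blk (P.map (QMap.cmbZ β)) := gr_map hb hP
  have h2 : c.Λ0 ≤ P.map (QMap.cmbZ β) := by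
    intro a ha
    obtain ⟨v, rfl⟩ := (hmem a).1 (h0 ha)
    refine (QMap.mem_map _).2 ⟨v, hP0 ?_, rfl⟩
    rw [hΛ0]
    exact ha
  have h3 : ¬ Q (finrank ℤ P) := by
    refine Nat.find_min hQ ?_
    rw [← hr]
    exact hPr
  have h4 : ¬ (dd c.x c.blk (P.map (QMap.cmbZ β)) +
      finrank ℝ (c.V ⊓ spR c.Λ0 : Submodule ℝ (Fin n → ℝ)) + 1 ≤
      finrank ℝ (c.V ⊓ spR (P.map (QMap.cmbZ β)) : Submodule ℝ (Fin n → ℝ)) +
        dd c.x c.blk c.Λ0) := by
    intro h5
    exact h3 ⟨_, h1, h2, finrank_mapZ hβ P, h5⟩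
  unfold Psi
  rw [hdd, hdd, htop, hV, finrank_comap_inf hβ, finrank_comap_eq hβ, htop]
  omega

end CF

end Pool.Agent.ZP
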