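import Mathlib
import Pool.Agent.Lib.MP_c95b3b_ag_ZP.CFRestr

set_option autoImplicit false

/-! Project ZP, block CF: quotients of configurations (ZP_full 1.2). -/

namespace Pool.Agent.ZP

open Module Filter Topology Pool.Agent.SD

variable {𝓤 : Ultrafilter ℕ} {n q : ℕ}

/-- a configuration which is not minimal has a smaller quotient -/
theorem Cfg.reduce (c : Cfg 𝓤 n q) (h : ¬ c.Mn) : ∃ n', n' < n ∧ Nonempty (Cfg 𝓤 n' q) := by
  classical
  unfold Cfg.Mn at h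
  push Not at h
  obtain ⟨Λ, hΛ, h0, hr, hP⟩ := h
  have hF : dd c.x c.blk Λ + finrank ℝ (c.V ⊓ spR c.Λ0 : Submodule ℝ (Fin n → ℝ)) + 1 ≤
      finrank ℝ (c.V ⊓ spR Λ : Submodule ℝ (Fin n → ℝ)) + dd c.x c.blk c.Λ0 := by
    have h1 := c.dim
    unfold Psi at h1 hP
    omega
  obtain ⟨c', -⟩ := CF.exists_restr c hΛ h0 hF
  exact ⟨_, hr, ⟨c'⟩⟩

end Pool.Agent.ZP
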