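import Mathlib
import Pool.Agent.Lib.MP_c95b3b_ag_ZP.CFMap

set_option autoImplicit false

/-! Project ZP (MP_c95b3b_ag), block CF: the function `Ψ` of a minimal configuration. -/

namespace Pool.Agent.ZP

open MvPolynomial Filter Topology Module Pool.Agent.L3 Pool.Agent.SD Pool.Agent.AL

namespace CF

section
variable {n q : ℕ} {blk : Fin n → Fin (q + 1)}

theorem pj_sum {ι : Type} (s : Finset ι) (j : Fin (q + 1)) (f : ι → Fin n → ℤ) :
    pj blk j (∑ k ∈ s, f k) = ∑ k ∈ s, pj blk j (f k) := by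
  funext i
  rw [Finset.sum_apply]
  simp only [pj]
  split_ifs with hi
  · rw [Finset.sum_apply]
  · rw [Finset.sum_const_zero]

/-- the rank of a graded lattice is the sum of the ranks of its parts -/
theorem finrank_gr {Λ : Submodule ℤ (Fin n → ℤ)} (h : Gr blk Λ) :
    finrank ℤ Λ = ∑ j, finrank ℤ (Λ ⊓ blL blk j : Submodule ℤ (Fin n → ℤ)) := by
  classical
  let e : Λ ≃ₗ[ℤ] ((j : Fin (q + 1)) → (Λ ⊓ blL blk j : Submodule ℤ (Fin n → ℤ))) :=
    { toFun := fun a j => ⟨pj blk j a.1, h a.1 a.2 j, pj_mem j _⟩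
      map_add' := by
        intro a b
        funext j
        exact Subtype.ext (pj_add j a.1 b.1)
      map_smul' := by
        intro k a
        funext j
        refine Subtype.ext ?_
        funext i
        show pj blk j (k • a.1) i = k • pj blk j a.1 i
        simp only [pj, Pi.smul_apply]
        split_ifs <;> simp
      invFun := fun f => ⟨∑ j, (f j).1, Submodule.sum_mem _ fun j _ => (f j).2.1⟩
      left_inv := by
        intro a
        exact Subtype.ext (sum_pj (blk := blk) a.1)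
      right_inv := by
        intro f
        funext j
        refine Subtype.ext ?_
        show pj blk j (∑ j', (f j').1) = (f j).1
        rw [pj_sum, Finset.sum_eq_single j]
        · exact pj_of_mem (f j).2.2
        · intro j' _ hj'
          exact pj_of_mem_ne hj' (f j').2.2
        · intro h'
          exact absurd (Finset.mem_univ j) h' }
  rw [e.finrank_eq, Module.finrank_pi_fintype]

theorem spR_blL_le (j : Fin (q + 1)) : spR (blL blk j) ≤ blR blk j := by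
  refine Submodule.span_le.2 ?_
  rintro _ ⟨a, ha, rfl⟩ i hi
  rw [rv, ha i hi, Int.cast_zero]

theorem spR_uL : spR (uL blk) = uR blk := by
  refine le_antisymm (Submodule.span_le.2 ?_) ?_
  · rintro _ ⟨a, ha, rfl⟩ i hi
    rw [rv, ha i hi, Int.cast_zero]
  · intro b hb
    rw [Map.eq_sum_single b]
    refine Submodule.sum_mem _ fun i _ => ?_
    by_cases hi : blk i = 0
    · rw [hb i hi, zero_smul]
      exact Submodule.zero_mem _
    · refine Submodule.smul_mem _ _ (Submodule.subset_span ⟨_, ?_, rfl⟩)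
      intro i' hi'
      rw [Pi.single_eq_of_ne]
      rintro rfl
      exact hi hi'

variable {L : Type} [Field L] [Algebra ℂ L] {x : Fin n → L}

theorem rkZ_lip (x : Fin n → L) {Λ Λ' : Submodule ℤ (Fin n → ℤ)} (h : Λ ≤ Λ') :
    rkZ x Λ' + finrank ℤ Λ ≤ rkZ x Λ + finrank ℤ Λ' := by
  have h1 := cd_mono x h
  have h2 := cd_add_rkZ x Λ
  have h3 := cd_add_rkZ x Λ'
  omega

theorem dd_mono (x : Fin n → L) {Λ Λ' : Submodule ℤ (Fin n → ℤ)} (h : Λ ≤ Λ') :
    dd x blk Λ ≤ dd x blk Λ' :=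
  Finset.sum_le_sum fun _ _ => rkZ_mono x (inf_le_inf_right _ h)

theorem dd_lip (x : Fin n → L) {Λ Λ' : Submodule ℤ (Fin n → ℤ)} (hΛ : Gr blk Λ)
    (hΛ' : Gr blk Λ') (h : Λ ≤ Λ') :
    dd x blk Λ' + finrank ℤ Λ ≤ dd x blk Λ + finrank ℤ Λ' := by
  rw [finrank_gr hΛ, finrank_gr hΛ', dd, dd, ← Finset.sum_add_distrib, ← Finset.sum_add_distrib]
  exact Finset.sum_le_sum fun j _ => rkZ_lip x (inf_le_inf_right _ h)

theorem dd_le_finrank (x : Fin n → L) {Λ : Submodule ℤ (Fin n → ℤ)} (hΛ : Gr blk Λ) :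
    dd x blk Λ ≤ finrank ℤ Λ := by
  rw [finrank_gr hΛ, dd]
  exact Finset.sum_le_sum fun j _ => rkZ_le_finrank x _

/-- dimension of the intersection with the sum of a lattice and of a lattice in `V` -/
theorem finrank_inf_sup {V : Submodule ℝ (Fin n → ℝ)} {Λ Λ0 : Submodule ℤ (Fin n → ℤ)}
    (h0 : spR Λ0 ≤ V) :
    finrank ℝ (V ⊓ spR (Λ ⊔ Λ0) : Submodule ℝ (Fin n → ℝ)) + finrank ℤ Λ =
      finrank ℝ (V ⊓ spR Λ : Submodule ℝ (Fin n → ℝ)) +
        finrank ℤ (Λ ⊔ Λ0 : Submodule ℤ (Fin n → ℤ)) := by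
  rw [← finrank_spR Λ, ← finrank_spR (Λ ⊔ Λ0), spR_sup]
  have h1 : V ⊓ (spR Λ ⊔ spR Λ0) = (V ⊓ spR Λ) ⊔ spR Λ0 := by
    rw [inf_sup_assoc_of_le _ h0]
  have h2 := Submodule.finrank_sup_add_finrank_inf_eq (V ⊓ spR Λ) (spR Λ0)
  have h3 := Submodule.finrank_sup_add_finrank_inf_eq (spR Λ) (spR Λ0)
  have h4 : V ⊓ spR Λ ⊓ spR Λ0 = spR Λ ⊓ spR Λ0 := by
    rw [inf_assoc]
    exact inf_eq_right.2 (inf_le_right.trans h0)
  rw [h4] at h2
  rw [h1]
  omega

/-- `Ψ(Λ) ≥ Ψ(Λ + Λ0)` -/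
theorem Psi_of_sup {V : Submodule ℝ (Fin n → ℝ)} {Λ Λ0 : Submodule ℤ (Fin n → ℤ)}
    (hΛ : Gr blk Λ) (hΛ0 : Gr blk Λ0) (h0 : spR Λ0 ≤ V) {k : ℕ}
    (h : Psi x blk V (Λ ⊔ Λ0) k) : Psi x blk V Λ k := by
  unfold Psi at h ⊢
  have h1 := dd_lip x hΛ (Gr.sup hΛ hΛ0) le_sup_left
  have h2 := finrank_inf_sup (Λ := Λ) h0
  omega

/-- `Ψ(Λ) ≥ 0` for lattices of the rank `n` -/
theorem Psi_full {V : Submodule ℝ (Fin n → ℝ)} {Λ : Submodule ℤ (Fin n → ℤ)} (hΛ : Gr blk Λ)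
    (h : finrank ℤ Λ = n) : Psi x blk V Λ 0 := by
  unfold Psi
  have h1 := dd_lip x hΛ gr_top le_top
  have h2 : finrank ℤ (⊤ : Submodule ℤ (Fin n → ℤ)) = n := by
    rw [finrank_top, Module.finrank_fin_fun]
  have h3 : finrank ℝ (V ⊓ spR Λ : Submodule ℝ (Fin n → ℝ)) ≤ finrank ℝ V :=
    Submodule.finrank_mono inf_le_left
  omega

theorem Psi.mono {V : Submodule ℝ (Fin n → ℝ)} {Λ : Submodule ℤ (Fin n → ℤ)} {k k' : ℕ}
    (h : Psi x blk V Λ k) (hk : k' ≤ k) : Psi x blk V Λ k' := by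
  unfold Psi at h ⊢
  omega

/-- smaller spaces -/
theorem Psi.of_le {V V' : Submodule ℝ (Fin n → ℝ)} {Λ : Submodule ℤ (Fin n → ℤ)} {k k' : ℕ}
    (h : Psi x blk V Λ k) (hV : V' ≤ V) (hk : finrank ℝ V + k' ≤ finrank ℝ V' + k) :
    Psi x blk V' Λ k' := by
  unfold Psi at h ⊢
  have h1 : finrank ℝ (V' ⊓ spR Λ : Submodule ℝ (Fin n → ℝ)) ≤
      finrank ℝ (V ⊓ spR Λ : Submodule ℝ (Fin n → ℝ)) :=
    Submodule.finrank_mono (inf_le_inf_right _ hV)
  omega

theorem finrank_uL_lt (h : ∃ i, blk i = 0) : finrank ℤ (uL blk) < n := by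
  obtain ⟨i0, hi0⟩ := h
  have h1 : spR (uL blk) < ⊤ := by
    rw [lt_top_iff_ne_top]
    intro h2
    have h3 : (Pi.single i0 (1 : ℝ) : Fin n → ℝ) ∈ spR (uL blk) := by
      rw [h2]
      exact Submodule.mem_top
    rw [spR_uL] at h3
    have h4 := h3 i0 hi0
    rw [Pi.single_eq_same] at h4
    exact one_ne_zero h4
  have h5 := Submodule.finrank_lt_finrank_of_lt h1
  rwa [finrank_top, Module.finrank_fin_fun, finrank_spR] at h5

/-- the parts outside the block `0` -/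
theorem dd_uL (x : Fin n → L) : dd x blk ⊤ ≤ rkZ x (blL blk 0) + dd x blk (uL blk) ∧
    rkZ x (blL blk 0) + dd x blk (uL blk) ≤ dd x blk ⊤ := by
  have h1 : ∀ j, rkZ x (⊤ ⊓ blL blk j) =
      (if j = 0 then rkZ x (blL blk 0) else 0) + rkZ x (uL blk ⊓ blL blk j) := by
    intro j
    rw [top_inf_eq]
    by_cases hj : j = 0
    · subst hj
      rw [if_pos rfl]
      have h2 : uL blk ⊓ blL blk 0 = ⊥ := by
        rw [eq_bot_iff]
        intro a ha
        rw [Submodule.mem_bot]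
        funext i
        by_cases hi : blk i = 0
        · exact ha.1 i hi
        · exact ha.2 i hi
      have h3 : rkZ x (uL blk ⊓ blL blk 0) = 0 := by
        have h4 := rkZ_le_finrank x (uL blk ⊓ blL blk 0)
        rw [h2, finrank_bot] at h4
        rw [h2]
        exact Nat.le_zero.1 h4
      rw [h3, add_zero]
    · rw [if_neg hj, zero_add]
      congr 1
      refine le_antisymm (le_inf ?_ le_rfl) inf_le_right
      intro a ha i hi
      exact ha i (by rw [hi]; exact fun h => hj h.symm)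
  have h5 : dd x blk ⊤ = rkZ x (blL blk 0) + dd x blk (uL blk) := by
    unfold dd
    rw [Finset.sum_congr rfl fun j _ => h1 j, Finset.sum_add_distrib, Finset.sum_ite_eq',
      if_pos (Finset.mem_univ _)]
  exact ⟨h5.le, h5.ge⟩

end

/-! ### minimal configurations -/

section
variable {𝓤 : Ultrafilter ℕ} {n q : ℕ} {c : Cfg 𝓤 n q}

theorem spR_le (c : Cfg 𝓤 n q) : spR c.Λ0 ≤ c.V := by
  refine Submodule.span_le.2 ?_
  rintro _ ⟨a, ha, rfl⟩
  exact c.Λ0V a ha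

/-- **(1.3)** `Ψ ≥ 1` for the lattices which together with `Λ0` do not have the full rank -/
theorem Mn.psi_one (h : c.Mn) {Λ : Submodule ℤ (Fin n → ℤ)} (hΛ : Gr c.blk Λ)
    (hr : finrank ℤ (Λ ⊔ c.Λ0 : Submodule ℤ (Fin n → ℤ)) < n) : Psi c.x c.blk c.V Λ 1 :=
  Psi_of_sup hΛ c.gr (spR_le c) (h _ (Gr.sup hΛ c.gr) le_sup_right hr)

theorem finrank_le_n (Λ : Submodule ℤ (Fin n → ℤ)) : finrank ℤ Λ ≤ n := by
  have h1 := Submodule.finrank_le (spR Λ)
  rwa [Module.finrank_fin_fun, finrank_spR] at h1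

/-- **(1.3)** `Ψ ≥ 0` for all spaces of codimension at most one which contain the light
characters -/
theorem Mn.psi_zero_of_le (h : c.Mn) {V' : Submodule ℝ (Fin n → ℝ)} (hV : V' ≤ c.V)
    (h0 : spR c.Λ0 ≤ V') (hcod : finrank ℝ c.V ≤ finrank ℝ V' + 1)
    {Λ : Submodule ℤ (Fin n → ℤ)} (hΛ : Gr c.blk Λ) : Psi c.x c.blk V' Λ 0 := by
  rcases (finrank_le_n (Λ ⊔ c.Λ0)).lt_or_eq with hr | hr
  · exact Psi.of_le (Mn.psi_one h hΛ hr) hV (by omega)
  · exact Psi_of_sup hΛ c.gr h0 (Psi_full (Gr.sup hΛ c.gr) hr)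

/-- **(1.3)** `Ψ ≥ 0` -/
theorem Mn.psi_zero (h : c.Mn) {Λ : Submodule ℤ (Fin n → ℤ)} (hΛ : Gr c.blk Λ) :
    Psi c.x c.blk c.V Λ 0 :=
  Mn.psi_zero_of_le h le_rfl (spR_le c) (Nat.le_succ _) hΛ

/-- **(1.3)** `Ψ ≥ 1` for the lattices outside the bounded block -/
theorem Mn.psi_uL (h : c.Mn) (hbd : c.bd) {Λ : Submodule ℤ (Fin n → ℤ)} (hΛ : Gr c.blk Λ)
    (hu : Λ ≤ uL c.blk) : Psi c.x c.blk c.V Λ 1 := by
  refine Mn.psi_one h hΛ (lt_of_le_of_lt ?_ (finrank_uL_lt (c.bdd hbd).2.2.2))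
  have h1 : Λ ⊔ c.Λ0 ≤ uL c.blk := sup_le hu (c.bdd hbd).2.1
  rw [← finrank_spR, ← finrank_spR]
  exact Submodule.finrank_mono (spR_mono h1)

/-- the dimension of the image of `V` in the bounded block -/
theorem Mn.block_zero (h : c.Mn) (hbd : c.bd) :
    rkZ c.x (blL c.blk 0) + finrank ℝ (c.V ⊓ uR c.blk : Submodule ℝ (Fin n → ℝ)) + 1 ≤
      finrank ℝ c.V := by
  have h1 := Mn.psi_uL h hbd gr_uL le_rfl
  unfold Psi at h1
  rw [spR_uL] at h1
  have h2 := (dd_uL (blk := c.blk) c.x).2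
  omega

end

end CF

end Pool.Agent.ZP
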