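import Mathlib
import Pool.Agent.Lib.MP_c95b3b_ag_ZP.CFPsi

set_option autoImplicit false

/-! Project ZP, block CF: inequalities in minimal configurations (ZP_full 1.3). -/

namespace Pool.Agent.ZP

open Module Filter Topology Pool.Agent.SD

variable {𝓤 : Ultrafilter ℕ} {n q : ℕ}

theorem Cfg.psi_zero (c : Cfg 𝓤 n q) (hM : c.Mn) (Λ : Submodule ℤ (Fin n → ℤ))
    (hΛ : Gr c.blk Λ) : Psi c.x c.blk c.V Λ 0 :=
  CF.Mn.psi_zero hM hΛ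

theorem Cfg.psi_one (c : Cfg 𝓤 n q) (hM : c.Mn) (hb : c.bd) (Λ : Submodule ℤ (Fin n → ℤ))
    (hΛ : Gr c.blk Λ) (h0 : Λ ≤ uL c.blk) : Psi c.x c.blk c.V Λ 1 :=
  CF.Mn.psi_uL hM hb hΛ h0

end Pool.Agent.ZP
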