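import Mathlib
import Pool.Agent.Lib.MP_c95b3b_ag_SD.Map
import Pool.Agent.Lib.MP_c95b3b_ag_ZP.Defs

set_option autoImplicit false
set_option linter.unusedSectionVars false

/-! Project ZP (MP_c95b3b_ag), block E: transcendence degrees of sets of monomials. -/

namespace Pool.Agent.ZP

open Pool.Agent.SD Module

/-- the transcendence degree over `R` of the monomials with exponents in `S` -/
noncomputable def tr (R : Type) {F : Type} [CommRing R] [Field F] [Algebra R F] {n : ℕ}
    (x : Fin n → F) (S : Set (Fin n → ℤ)) : ℕ :=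
  sSup {r | ∃ a : Fin r → Fin n → ℤ, (∀ i, a i ∈ S) ∧
    AlgebraicIndependent R (fun i => mn x (a i))}

namespace E

section

variable {R F : Type} [CommRing R] [Nontrivial R] [Field F] [Algebra R F] [FaithfulSMul R F] {n : ℕ}

theorem mem_closure {s : Set F} {a : F} (h : IsAlgebraic (Algebra.adjoin R s) a) :
    a ∈ (AlgebraicIndependent.matroid R F).closure s := by
  rw [AlgebraicIndependent.matroid_closure_eq]
  exact h

theorem closure_mul {s : Set F} {a b : F} (ha : a ∈ (AlgebraicIndependent.matroid R F).closure s)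
    (hb : b ∈ (AlgebraicIndependent.matroid R F).closure s) :
    a * b ∈ (AlgebraicIndependent.matroid R F).closure s := by
  rw [AlgebraicIndependent.matroid_closure_eq] at *
  exact mul_mem ha hb

theorem closure_one {s : Set F} : (1 : F) ∈ (AlgebraicIndependent.matroid R F).closure s := by
  rw [AlgebraicIndependent.matroid_closure_eq] at *
  exact one_mem _

theorem closure_inv {s : Set F} {a : F} (ha : a ∈ (AlgebraicIndependent.matroid R F).closure s) :
    a⁻¹ ∈ (AlgebraicIndependent.matroid R F).closure s := by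
  rw [AlgebraicIndependent.matroid_closure_eq] at *
  exact IsAlgebraic.inv ha

theorem closure_zpow {s : Set F} {a : F} (ha : a ∈ (AlgebraicIndependent.matroid R F).closure s)
    (k : ℤ) : a ^ k ∈ (AlgebraicIndependent.matroid R F).closure s := by
  have h : ∀ m : ℕ, a ^ m ∈ (AlgebraicIndependent.matroid R F).closure s := by
    intro m
    induction m with
    | zero => rw [pow_zero]; exact closure_one
    | succ m ih => rw [pow_succ]; exact closure_mul ih ha
  rcases k with k | k
  · rw [Int.ofNat_eq_natCast, zpow_natCast]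
    exact h k
  · rw [zpow_negSucc]
    exact closure_inv (h _)

theorem closure_prod {s : Set F} {ι : Type} (t : Finset ι) (f : ι → F)
    (h : ∀ i ∈ t, f i ∈ (AlgebraicIndependent.matroid R F).closure s) :
    ∏ i ∈ t, f i ∈ (AlgebraicIndependent.matroid R F).closure s := by
  classical
  induction t using Finset.induction_on with
  | empty => rw [Finset.prod_empty]; exact closure_one
  | insert i t hi ih =>
    rw [Finset.prod_insert hi]
    exact closure_mul (h i (Finset.mem_insert_self i t))
      (ih fun j hj => h j (Finset.mem_insert_of_mem hj))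

theorem mn_mem_closure (x : Fin n → F) {s : Set F}
    (h : ∀ i, x i ∈ (AlgebraicIndependent.matroid R F).closure s) (a : Fin n → ℤ) :
    mn x a ∈ (AlgebraicIndependent.matroid R F).closure s :=
  closure_prod _ _ fun i _ => closure_zpow (h i) _

theorem eRk_le (x : Fin n → F) (S : Set (Fin n → ℤ)) :
    (AlgebraicIndependent.matroid R F).eRk (mn x '' S) ≤ n := by
  have h1 : mn x '' S ⊆ (AlgebraicIndependent.matroid R F).closure (Set.range x) := by
    rintro _ ⟨a, -, rfl⟩
    refine mn_mem_closure x (fun i => ?_) a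
    exact (AlgebraicIndependent.matroid R F).subset_closure (Set.range x)
      (Set.subset_univ _) (Set.mem_range_self i)
  refine ((AlgebraicIndependent.matroid R F).eRk_mono h1).trans ?_
  rw [Matroid.eRk_closure_eq]
  refine ((AlgebraicIndependent.matroid R F).eRk_le_encard _).trans ?_
  rw [← Set.image_univ]
  refine (Set.encard_image_le _ _).trans ?_
  rw [Set.encard_univ, ENat.card_eq_coe_fintype_card, Fintype.card_fin]

theorem tr_isGreatest (x : Fin n → F) (S : Set (Fin n → ℤ)) :
    IsGreatest {r | ∃ a : Fin r → Fin n → ℤ, (∀ i, a i ∈ S) ∧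
      AlgebraicIndependent R (fun i => mn x (a i))}
      ((AlgebraicIndependent.matroid R F).eRk (mn x '' S)).toNat := by
  obtain ⟨I, hI⟩ := (AlgebraicIndependent.matroid R F).exists_isBasis (mn x '' S)
    (Set.subset_univ _)
  have h1 : I.encard = (AlgebraicIndependent.matroid R F).eRk (mn x '' S) := hI.encard_eq_eRk
  have h2 : I.encard ≤ n := by
    rw [h1]
    exact eRk_le x S
  have hfin : I.Finite := Set.finite_of_encard_le_coe h2
  have hind : AlgebraicIndepOn R id I := hI.indep
  constructor
  · rw [← h1]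
    have h3 : I.encard.toNat = I.ncard := rfl
    rw [h3]
    have : Finite I := hfin
    let e : Fin I.ncard ≃ I := (Finite.equivFinOfCardEq rfl).symm
    have h4 : ∀ i : I, ∃ a ∈ S, mn x a = i := fun i => hI.subset i.2
    choose a ha ha' using h4
    refine ⟨fun i => a (e i), fun i => ha _, ?_⟩
    have h5 : (fun i => mn x (a (e i))) = (fun i : I => (i : F)) ∘ e := by
      funext i
      exact ha' _
    rw [h5]
    exact hind.comp e e.injective
  · rintro r ⟨a, ha, hai⟩
    have h3 : (AlgebraicIndependent.matroid R F).Indep (Set.range fun i => mn x (a i)) := by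
      rw [AlgebraicIndependent.matroid_indep_iff]
      exact (algebraicIndependent_subtype_range hai.injective).mpr hai
    have h4 : (Set.range fun i => mn x (a i)) ⊆ mn x '' S := by
      rintro _ ⟨i, rfl⟩
      exact ⟨a i, ha i, rfl⟩
    have h5 : (Set.range fun i => mn x (a i)).encard = r := by
      rw [← Set.image_univ, hai.injective.encard_image, Set.encard_univ,
        ENat.card_eq_coe_fintype_card, Fintype.card_fin]
    have h6 := h3.encard_le_eRk_of_subset h4
    rw [h5] at h6
    have h7 : (AlgebraicIndependent.matroid R F).eRk (mn x '' S) ≠ ⊤ := by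
      intro h
      have h8 := eRk_le (R := R) x S
      rw [h] at h8
      exact absurd h8 (by simp)
    rw [← ENat.natCast_toNat h7] at h6
    exact_mod_cast h6

theorem tr_eq (x : Fin n → F) (S : Set (Fin n → ℤ)) :
    (tr R x S : ℕ∞) = (AlgebraicIndependent.matroid R F).eRk (mn x '' S) := by
  have h7 : (AlgebraicIndependent.matroid R F).eRk (mn x '' S) ≠ ⊤ := by
    intro h
    have h8 := eRk_le (R := R) x S
    rw [h] at h8
    exact absurd h8 (by simp)
  rw [tr, (tr_isGreatest x S).csSup_eq, ENat.natCast_toNat h7]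

/-- monomials which form a transcendence basis -/
theorem exists_tr (x : Fin n → F) (S : Set (Fin n → ℤ)) :
    ∃ a : Fin (tr R x S) → Fin n → ℤ, (∀ i, a i ∈ S) ∧
      AlgebraicIndependent R (fun i => mn x (a i)) := by
  have h := (tr_isGreatest (R := R) x S)
  have h1 := h.1
  rw [← h.csSup_eq] at h1
  exact h1

theorem le_tr {x : Fin n → F} {S : Set (Fin n → ℤ)} {r : ℕ} (a : Fin r → Fin n → ℤ)
    (ha : ∀ i, a i ∈ S) (h : AlgebraicIndependent R (fun i => mn x (a i))) : r ≤ tr R x S := by
  have h1 := (tr_isGreatest (R := R) x S)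
  rw [tr, h1.csSup_eq]
  exact h1.2 ⟨a, ha, h⟩

theorem tr_mono (x : Fin n → F) {S T : Set (Fin n → ℤ)} (h : S ⊆ T) : tr R x S ≤ tr R x T := by
  have h1 := (AlgebraicIndependent.matroid R F).eRk_mono (Set.image_mono (f := mn x) h)
  rw [← tr_eq, ← tr_eq] at h1
  exact_mod_cast h1

end

/-- the closure over the larger ring is larger -/
theorem closure_tower {R k F : Type} [CommRing R] [CommRing k] [Field F] [Algebra R k]
    [Algebra R F] [Algebra k F] [IsScalarTower R k F] [FaithfulSMul R F] [FaithfulSMul k F]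
    (s : Set F) : (AlgebraicIndependent.matroid R F).closure s ⊆
      (AlgebraicIndependent.matroid k F).closure s := by
  intro a ha
  rw [AlgebraicIndependent.matroid_closure_eq] at *
  have h1 : IsAlgebraic (Algebra.adjoin R s) a := ha
  have h2 : Algebra.adjoin R s ≤ (Algebra.adjoin k s).restrictScalars R := by
    rw [Algebra.adjoin_le_iff]
    exact Algebra.subset_adjoin
  change IsAlgebraic (Algebra.adjoin k s) a
  obtain ⟨p, hp0, hp⟩ := h1
  let φ : Algebra.adjoin R s →+* Algebra.adjoin k s := (Subalgebra.inclusion h2).toRingHom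
  have hφ : Function.Injective φ := Subalgebra.inclusion_injective h2
  refine ⟨p.map φ, (Polynomial.map_ne_zero_iff hφ).mpr hp0, ?_⟩
  rw [Polynomial.aeval_def, Polynomial.eval₂_map]
  exact hp

/-- if `Y` is contained in the closure of `X` and `X` extended by the finite set `T` -/
theorem eRk_le_add {α : Type} (M : Matroid α) {X Y T : Set α} (h : Y ⊆ M.closure (X ∪ T)) :
    M.eRk Y ≤ M.eRk X + T.encard := by
  refine (M.eRk_mono h).trans ?_
  rw [Matroid.eRk_closure_eq]
  exact M.eRk_union_le_eRk_add_encard X T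

/-- extension of a basis -/
theorem exists_ext {α : Type} (M : Matroid α) {X Y : Set α} (hXY : X ⊆ Y) (hY : Y ⊆ M.E) :
    ∃ T : Set α, Y ⊆ M.closure (X ∪ T) ∧ M.eRk X + T.encard ≤ M.eRk Y := by
  obtain ⟨I, hI⟩ := M.exists_isBasis X (hXY.trans hY)
  obtain ⟨K, hK, hIK⟩ := hI.indep.subset_isBasis_of_subset (hI.subset.trans hXY) hY
  refine ⟨K \ I, ?_, ?_⟩
  · refine (M.subset_closure Y hY).trans ?_
    rw [← hK.closure_eq_closure]
    refine M.closure_subset_closure ?_
    intro z hz
    by_cases h : z ∈ I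
    · exact Or.inl (hI.subset h)
    · exact Or.inr ⟨hz, h⟩
  · rw [← hI.encard_eq_eRk, ← hK.encard_eq_eRk, add_comm,
      Set.encard_sdiff_add_encard_of_subset hIK]

theorem sum_pj {n q : ℕ} (blk : Fin n → Fin (q + 1)) (a : Fin n → ℤ) :
    ∑ j, pj blk j a = a := by
  funext i
  rw [Finset.sum_apply]
  simp only [pj]
  rw [Finset.sum_ite_eq Finset.univ (blk i) fun _ => a i]
  simp

theorem pj_mem_blL {n q : ℕ} (blk : Fin n → Fin (q + 1)) (j : Fin (q + 1)) (a : Fin n → ℤ) :
    pj blk j a ∈ blL blk j := by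
  intro i hi
  simp [pj, hi]

/-- the part of a lattice in the block `j` -/
abbrev lb {n q : ℕ} (Λ : Submodule ℤ (Fin n → ℤ)) (blk : Fin n → Fin (q + 1))
    (j : Fin (q + 1)) : Submodule ℤ (Fin n → ℤ) := Λ ⊓ blL blk j

/-- the transcendence degree over the larger field drops at most as much as the sum of the
transcendence degrees of the blocks over the integers -/
theorem tr_graded {k F : Type} [Field k] [CharZero k] [Field F] [Algebra k F] {n : ℕ}
    {x : Fin n → F} (hx : ∀ i, x i ≠ 0) {q : ℕ} (blk : Fin n → Fin (q + 1))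
    (Λ Γ : Submodule ℤ (Fin n → ℤ)) (hΓ : Gr blk Γ) (hle : Λ ≤ Γ) :
    tr k x Γ + ∑ j, tr ℤ x (lb Λ blk j) ≤
      tr k x Λ + ∑ j, tr ℤ x (lb Γ blk j) := by
  classical
  have hF : CharZero F := charZero_of_injective_algebraMap (algebraMap k F).injective
  have hf : FaithfulSMul ℤ F := inferInstance
  set MZ := AlgebraicIndependent.matroid ℤ F with hMZ
  set Mk := AlgebraicIndependent.matroid k F with hMk
  have h1 : ∀ j, ∃ T : Set F, mn x '' (lb Γ blk j) ⊆
      MZ.closure (mn x '' (lb Λ blk j) ∪ T) ∧
      MZ.eRk (mn x '' (lb Λ blk j)) + T.encard ≤ MZ.eRk (mn x '' (lb Γ blk j)) :=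
    fun j => exists_ext MZ (Set.image_mono (Set.inter_subset_inter_left _ hle))
      (Set.subset_univ _)
  choose T hT1 hT2 using h1
  have h2 : mn x '' (Γ : Set (Fin n → ℤ)) ⊆
      Mk.closure (mn x '' (Λ : Set (Fin n → ℤ)) ∪ ⋃ j, T j) := by
    rintro _ ⟨a, ha, rfl⟩
    have h3 : mn x a = ∏ j, mn x (pj blk j a) := by
      rw [← mn_sum hx, sum_pj]
    rw [h3]
    refine closure_prod (R := k) _ _ fun j _ => ?_
    have h4 : mn x (pj blk j a) ∈ MZ.closure (mn x '' (lb Λ blk j) ∪ T j) :=
      hT1 j ⟨_, ⟨hΓ a ha j, pj_mem_blL blk j a⟩, rfl⟩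
    refine closure_tower (R := ℤ) (k := k) _ ?_
    refine MZ.closure_subset_closure ?_ h4
    exact Set.union_subset_union (Set.image_mono Set.inter_subset_left)
      (Set.subset_iUnion T j)
  have h3 := eRk_le_add Mk h2
  rw [← tr_eq, ← tr_eq] at h3
  have h4 : (⋃ j, T j).encard ≤ ∑ j, (T j).encard := by
    have h5 : ∀ s : Finset (Fin (q + 1)), (⋃ j ∈ s, T j).encard ≤ ∑ j ∈ s, (T j).encard := by
      intro s
      induction s using Finset.induction_on with
      | empty => simp
      | insert j s hj ih =>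
        rw [Finset.set_biUnion_insert, Finset.sum_insert hj]
        exact (Set.encard_union_le _ _).trans (add_le_add_right ih _)
    have h6 := h5 Finset.univ
    simpa using h6
  have h5 : ∑ j, ((tr ℤ x (lb Λ blk j) : ℕ∞) + (T j).encard) ≤
      ∑ j, (tr ℤ x (lb Γ blk j) : ℕ∞) := by
    refine Finset.sum_le_sum fun j _ => ?_
    rw [tr_eq, tr_eq]
    exact hT2 j
  rw [Finset.sum_add_distrib] at h5
  have h6 : (tr k x Γ : ℕ∞) + ∑ j, (tr ℤ x (lb Λ blk j) : ℕ∞) ≤
      tr k x Λ + ∑ j, (tr ℤ x (lb Γ blk j) : ℕ∞) := by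
    calc (tr k x Γ : ℕ∞) + ∑ j, (tr ℤ x (lb Λ blk j) : ℕ∞)
        ≤ (tr k x Λ + ∑ j, (T j).encard) + ∑ j, (tr ℤ x (lb Λ blk j) : ℕ∞) := by
          gcongr
          exact h3.trans (add_le_add_right h4 _)
      _ = tr k x Λ + (∑ j, (tr ℤ x (lb Λ blk j) : ℕ∞) + ∑ j, (T j).encard) := by
          rw [add_assoc, add_comm (∑ j, (T j).encard)]
      _ ≤ _ := by gcongr
  exact_mod_cast h6

end E

end Pool.Agent.ZP
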