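import Mathlib
import Pool.Agent.Lib.MP_c95b3b_ag_SD.LinAx

set_option autoImplicit false

/-! Project ZP (MP_c95b3b_ag), module GAx: the linear Ax theorem over an arbitrary field of
constants, and its graded form. -/

namespace Pool.Agent.ZP.GAx

open MvPolynomial Module Pool.Agent.SD

section

variable {k K : Type} [Field k] [Field K] [Algebra k K] {n : ℕ}

/-- the form `∑ b_i dlog x_i` -/
noncomputable def omk (r : ℝ →+* k) (x : Fin n → K) (b : Fin n → ℝ) :
    Derivation k K K →ₗ[K] K where
  toFun D := ∑ i, algebraMap k K (r (b i)) * (D (x i) / x i)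
  map_add' D D' := by
    rw [← Finset.sum_add_distrib]
    exact Finset.sum_congr rfl fun i _ => by
      rw [Derivation.add_apply]
      ring
  map_smul' c D := by
    rw [RingHom.id_apply, smul_eq_mul, Finset.mul_sum]
    exact Finset.sum_congr rfl fun i _ => by
      rw [Derivation.smul_apply, smul_eq_mul]
      ring

/-- the number of independent forms -/
noncomputable def rkk (r : ℝ →+* k) (x : Fin n → K) (A : Set (Fin n → ℝ)) : ℕ :=
  finrank K (Submodule.span K (omk r x '' A))

/-- the number of independent forms of a lattice -/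
noncomputable def rkZk (r : ℝ →+* k) (x : Fin n → K) (Λ : Submodule ℤ (Fin n → ℤ)) : ℕ :=
  rkk r x (rv '' (Λ : Set (Fin n → ℤ)))

/-- `Λ` contains the vectors with forms in the span of the forms of `Λ` -/
def Fullk (r : ℝ →+* k) (x : Fin n → K) (Λ : Submodule ℤ (Fin n → ℤ)) : Prop :=
  ∀ a : Fin n → ℤ, omk r x (rv a) ∈
    Submodule.span K (omk r x '' (rv '' (Λ : Set (Fin n → ℤ)))) → a ∈ Λ

variable (r : ℝ →+* k) {x : Fin n → K}

theorem omk_apply (x : Fin n → K) (b : Fin n → ℝ) (D : Derivation k K K) :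
    omk r x b D = ∑ i, algebraMap k K (r (b i)) * (D (x i) / x i) := rfl

theorem omk_zero (x : Fin n → K) : omk r x 0 = 0 := by
  ext D
  rw [omk_apply]
  simp

theorem omk_add (x : Fin n → K) (b c : Fin n → ℝ) : omk r x (b + c) = omk r x b + omk r x c := by
  ext D
  rw [LinearMap.add_apply, omk_apply, omk_apply, omk_apply, ← Finset.sum_add_distrib]
  refine Finset.sum_congr rfl fun i _ => ?_
  rw [Pi.add_apply, map_add, map_add, add_mul]

theorem omk_smul (x : Fin n → K) (s : ℝ) (b : Fin n → ℝ) :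
    omk r x (s • b) = algebraMap k K (r s) • omk r x b := by
  ext D
  rw [LinearMap.smul_apply, omk_apply, omk_apply, smul_eq_mul, Finset.mul_sum]
  refine Finset.sum_congr rfl fun i _ => ?_
  rw [Pi.smul_apply, smul_eq_mul, map_mul, map_mul, mul_assoc]

theorem omk_sum (x : Fin n → K) {ι : Type} (s : Finset ι) (b : ι → Fin n → ℝ) :
    omk r x (∑ j ∈ s, b j) = ∑ j ∈ s, omk r x (b j) := by
  classical
  induction s using Finset.induction_on with
  | empty => rw [Finset.sum_empty, Finset.sum_empty, omk_zero]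
  | insert j s hj ih => rw [Finset.sum_insert hj, Finset.sum_insert hj, omk_add, ih]

theorem omk_rv (hx : ∀ i, x i ≠ 0) (a : Fin n → ℤ) (D : Derivation k K K) :
    omk r x (rv a) D = D (mn x a) / mn x a := by
  rw [omk_apply, mn, CITR.SpanAux.ld_prod D Finset.univ x hx a]
  refine Finset.sum_congr rfl fun i _ => ?_
  rw [rv, map_intCast, map_intCast]

theorem eq_sum_single (b : Fin n → ℝ) : b = ∑ i, b i • rv (Pi.single i 1) := by
  funext j
  rw [Finset.sum_apply, Finset.sum_eq_single j]
  · rw [Pi.smul_apply, rv, Pi.single_eq_same, smul_eq_mul, Int.cast_one, mul_one]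
  · intro i _ hij
    rw [Pi.smul_apply, rv, Pi.single_eq_of_ne (Ne.symm hij), smul_eq_mul, Int.cast_zero, mul_zero]
  · intro h
    exact absurd (Finset.mem_univ _) h

theorem omk_mem_span (x : Fin n → K) (b : Fin n → ℝ) :
    omk r x b ∈ Submodule.span K (Set.range fun i => omk r x (rv (Pi.single i 1))) := by
  rw [eq_sum_single b, omk_sum]
  refine Submodule.sum_mem _ fun i _ => ?_
  rw [omk_smul]
  exact Submodule.smul_mem _ _ (Submodule.subset_span ⟨i, rfl⟩)

theorem finite_span_omk (x : Fin n → K) (A : Set (Fin n → ℝ)) :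
    FiniteDimensional K (Submodule.span K (omk r x '' A)) := by
  have h : FiniteDimensional K
      (Submodule.span K (Set.range fun i => omk r x (rv (Pi.single i 1)))) :=
    FiniteDimensional.span_of_finite K (Set.finite_range _)
  refine Submodule.finiteDimensional_of_le (Submodule.span_le.2 ?_)
    (S₂ := Submodule.span K (Set.range fun i => omk r x (rv (Pi.single i 1))))
  rintro _ ⟨b, _, rfl⟩
  exact omk_mem_span r x b

/-- the derivations which are killed by the forms of `V` -/
def Dl (x : Fin n → K) (V : Submodule ℝ (Fin n → ℝ)) : Set (Derivation k K K) :=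
  {D | ∀ b ∈ V, omk r x b D = 0}

/-- the constants of these derivations -/
def G (x : Fin n → K) (V : Submodule ℝ (Fin n → ℝ)) : IntermediateField k K where
  carrier := {f | ∀ D ∈ Dl r x V, D f = 0}
  mul_mem' := by
    intro a b ha hb D hD
    rw [Derivation.leibniz, ha D hD, hb D hD, smul_zero, smul_zero, add_zero]
  one_mem' := fun D _ => D.map_one_eq_zero
  add_mem' := by
    intro a b ha hb D hD
    rw [map_add, ha D hD, hb D hD, add_zero]
  zero_mem' := fun D _ => map_zero D
  algebraMap_mem' := fun c D _ => D.map_algebraMap c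
  inv_mem' := by
    intro a ha D hD
    rw [Derivation.leibniz_inv, ha D hD, smul_zero]

theorem mem_G {x : Fin n → K} {V : Submodule ℝ (Fin n → ℝ)} {f : K} :
    f ∈ G r x V ↔ ∀ D ∈ Dl r x V, D f = 0 := Iff.rfl

/-- the derivations of `Dl` are linear over the constants -/
noncomputable def ov (x : Fin n → K) (V : Submodule ℝ (Fin n → ℝ)) (D : Derivation k K K)
    (hD : D ∈ Dl r x V) : Derivation (G r x V) K K :=
  Derivation.mk'
    { toFun := D
      map_add' := map_add D
      map_smul' := by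
        intro c y
        rw [IntermediateField.smul_def, smul_eq_mul, Derivation.leibniz, c.2 D hD, smul_zero,
          add_zero, smul_eq_mul]
        rfl } (fun a b => D.leibniz a b)

theorem ov_apply (x : Fin n → K) (V : Submodule ℝ (Fin n → ℝ)) (D : Derivation k K K)
    (hD : D ∈ Dl r x V) (z : K) : ov r x V D hD z = D z := rfl

/-- the lattice of the monomials in the constants -/
def Lm (x : Fin n → K) (V : Submodule ℝ (Fin n → ℝ)) : Submodule ℤ (Fin n → ℤ) where
  carrier := {a | ∀ D ∈ Dl r x V, omk r x (rv a) D = 0}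
  add_mem' := by
    intro a b ha hb D hD
    rw [rv_add, omk_add, LinearMap.add_apply, ha D hD, hb D hD, add_zero]
  zero_mem' := by
    intro D _
    rw [rv_zero, omk_zero, LinearMap.zero_apply]
  smul_mem' := by
    intro c a ha D hD
    rw [rv_zsmul, omk_smul, LinearMap.smul_apply, ha D hD, smul_zero]

theorem mem_Lm {x : Fin n → K} {V : Submodule ℝ (Fin n → ℝ)} {a : Fin n → ℤ} :
    a ∈ Lm r x V ↔ ∀ D ∈ Dl r x V, omk r x (rv a) D = 0 := Iff.rfl

theorem mn_mem_G (hx : ∀ i, x i ≠ 0) {V : Submodule ℝ (Fin n → ℝ)}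
    {a : Fin n → ℤ} : mn x a ∈ G r x V ↔ a ∈ Lm r x V := by
  rw [mem_G, mem_Lm]
  refine forall₂_congr fun D _ => ?_
  rw [omk_rv r hx, div_eq_zero_iff, or_iff_left (mn_ne_zero hx a)]

/-- a derivation which is killed by the forms of a set is killed by their combinations -/
theorem span_zero {x : Fin n → K} {A : Set (Fin n → ℝ)} {D : Derivation k K K}
    (h : ∀ b ∈ A, omk r x b D = 0) {f : Derivation k K K →ₗ[K] K}
    (hf : f ∈ Submodule.span K (omk r x '' A)) : f D = 0 := by
  induction hf using Submodule.span_induction with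
  | mem f hf =>
    obtain ⟨b, hb, rfl⟩ := hf
    exact h b hb
  | zero => rfl
  | add f g _ _ hf hg => rw [LinearMap.add_apply, hf, hg, add_zero]
  | smul c f _ hf => rw [LinearMap.smul_apply, hf, smul_zero]

theorem full_Lm (x : Fin n → K) (V : Submodule ℝ (Fin n → ℝ)) : Fullk r x (Lm r x V) := by
  intro a ha D hD
  refine span_zero r ?_ ha
  rintro _ ⟨b, hb, rfl⟩
  exact hb D hD

theorem mem_span_V (x : Fin n → K) (V : Submodule ℝ (Fin n → ℝ)) {f : Derivation k K K →ₗ[K] K}
    (hf : ∀ D ∈ Dl r x V, f D = 0) :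
    f ∈ Submodule.span K (omk r x '' (V : Set (Fin n → ℝ))) := by
  let b := Module.finBasis ℝ V
  have h1 : ⨅ i, LinearMap.ker (omk r x (b i : Fin n → ℝ)) ≤ LinearMap.ker f := by
    intro D hD
    rw [Submodule.mem_iInf] at hD
    rw [LinearMap.mem_ker]
    refine hf D fun v hv => ?_
    have h2 := congrArg (fun z : V => (z : Fin n → ℝ)) (b.sum_repr ⟨v, hv⟩)
    simp only [Submodule.coe_sum, Submodule.coe_smul] at h2
    rw [← h2, omk_sum, LinearMap.sum_apply]
    refine Finset.sum_eq_zero fun i _ => ?_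
    rw [omk_smul, LinearMap.smul_apply, LinearMap.mem_ker.1 (hD i), smul_zero]
  have h3 := mem_span_of_iInf_ker_le_ker h1
  refine Submodule.span_mono ?_ h3
  rintro _ ⟨i, rfl⟩
  exact ⟨_, (b i).2, rfl⟩

theorem charZero_of (r : ℝ →+* k) : CharZero k := charZero_of_injective_ringHom r.injective

/-- the constants are relatively algebraically closed -/
theorem alg_mem {V : Submodule ℝ (Fin n → ℝ)} {z : K}
    (hz : IsAlgebraic (G r x V) z) : z ∈ G r x V := by
  intro D hD
  have hk : CharZero k := charZero_of r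
  have hL : CharZero K := charZero_of_injective_algebraMap (algebraMap k K).injective
  have : CharZero (G r x V) := charZero_of_injective_algebraMap (R := k)
    (algebraMap k (G r x V)).injective
  have hi : IsIntegral (G r x V) z := hz.isIntegral
  have h0 : Polynomial.aeval z (minpoly (G r x V) z) = 0 := minpoly.aeval _ z
  have h1 : Polynomial.aeval z (Polynomial.derivative (minpoly (G r x V) z)) ≠ 0 :=
    (minpoly.irreducible hi).separable.aeval_derivative_ne_zero h0
  have h2 := (ov r x V D hD).map_aeval (minpoly (G r x V) z) z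
  rw [h0, map_zero, smul_eq_mul, ov_apply] at h2
  exact (mul_eq_zero.mp h2.symm).resolve_left h1

/-- the real numbers in the field of the constants -/
noncomputable def rG (x : Fin n → K) (V : Submodule ℝ (Fin n → ℝ)) : ℝ →+* G r x V :=
  (algebraMap k (G r x V)).comp r

theorem rG_apply (x : Fin n → K) (V : Submodule ℝ (Fin n → ℝ)) (s : ℝ) :
    algebraMap (G r x V) K (rG r x V s) = algebraMap k K (r s) := rfl

/-- a functional with real coefficients which kills the lattice kills its span over the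
constants -/
theorem funct_zero (hx : ∀ i, x i ≠ 0) {V : Submodule ℝ (Fin n → ℝ)}
    {t : Fin n → ℝ} (ht : ∀ m ∈ Lm r x V, ∑ j, t j * rv m j = 0) {v : Fin n → G r x V}
    (hv : v ∈ Submodule.span (G r x V) (CITR.Gam (G r x V) x)) :
    ∑ j, rG r x V (t j) * v j = 0 := by
  induction hv using Submodule.span_induction with
  | mem v hv =>
    obtain ⟨m, hm, hm'⟩ := hv
    have h1 : m ∈ Lm r x V := by
      rw [← mn_mem_G r hx]
      obtain ⟨y, hy⟩ := hm'
      have h2 : mn x m = (y : K) := hy.symm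
      rw [h2]
      exact y.2
    have h3 := congrArg (rG r x V) (ht m h1)
    rw [map_sum, map_zero] at h3
    rw [← h3]
    refine Finset.sum_congr rfl fun j _ => ?_
    rw [hm, map_mul, rv, map_intCast]
  | zero => simp
  | add v w _ _ hv hw =>
    simp only [Pi.add_apply, mul_add, Finset.sum_add_distrib]
    rw [hv, hw, add_zero]
  | smul c v _ hv =>
    have h1 : ∀ j, rG r x V (t j) * (c • v) j = c * (rG r x V (t j) * v j) := by
      intro j
      rw [Pi.smul_apply, smul_eq_mul]
      ring
    rw [Finset.sum_congr rfl fun j _ => h1 j, ← Finset.mul_sum, hv, mul_zero]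

/-- the forms of vectors of `V` which are independent modulo the lattice are independent modulo
the forms of the lattice -/
theorem indep (hx : ∀ i, x i ≠ 0) {V : Submodule ℝ (Fin n → ℝ)} {p : ℕ}
    (a : Fin p → Fin n → ℝ) (haV : ∀ l, a l ∈ V) (ha : LinearIndependent ℝ a)
    (hdis : ∀ v ∈ Submodule.span ℝ (Set.range a),
      v ∈ Submodule.span ℝ (rv '' (Lm r x V : Set (Fin n → ℤ))) → v = 0)
    (g : Fin p → K)
    (hg : ∑ l, g l • omk r x (a l) ∈
      Submodule.span K (omk r x '' (rv '' (Lm r x V : Set (Fin n → ℤ))))) : g = 0 := by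
  classical
  by_contra hg0
  have hk : CharZero k := charZero_of r
  have hL : CharZero K := charZero_of_injective_algebraMap (algebraMap k K).injective
  have hch : CharZero (G r x V) := charZero_of_injective_algebraMap (R := k)
    (algebraMap k (G r x V)).injective
  have hom : ∀ (b : Fin n → ℝ) (D : Derivation (G r x V) K K),
      omk r x b (D.restrictScalars k) =
        ∑ j, algebraMap (G r x V) K (rG r x V (b j)) * (D (x j) / x j) :=
    fun b D => rfl
  -- the relation over the derivations of the constants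
  have hrel : ∀ D : Derivation (G r x V) K K,
      ∑ l, g l * ∑ j, algebraMap (G r x V) K (rG r x V (a l j)) * (D (x j) / x j) = 0 := by
    intro D
    have h1 : ∀ b ∈ rv '' (Lm r x V : Set (Fin n → ℤ)),
        omk r x b (D.restrictScalars k) = 0 := by
      rintro _ ⟨m, hm, rfl⟩
      rw [omk_rv r hx]
      have h2 : mn x m ∈ G r x V := (mn_mem_G r hx).2 hm
      have h3 : (D.restrictScalars k) (mn x m) = 0 := D.map_algebraMap (⟨mn x m, h2⟩ : G r x V)
      rw [h3, zero_div]
    have h2 := span_zero r h1 hg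
    rw [LinearMap.sum_apply] at h2
    rw [← h2]
    refine Finset.sum_congr rfl fun l _ => ?_
    rw [LinearMap.smul_apply, smul_eq_mul, hom]
  obtain ⟨c, hc, hcD⟩ := CITR.dlog_rel_const (k := G r x V) (K := K)
    {δ : Derivation (G r x V) K K | ∀ b ∈ V, omk r x b (δ.restrictScalars k) = 0}
    (by
      intro z hz
      have h1 : z ∈ G r x V := fun D hD => hz (ov r x V D hD) hD
      exact ⟨⟨z, h1⟩, rfl⟩)
    x hx (fun l j => rG r x V (a l j)) (fun δ hδ l => hδ (a l) (haV l)) g hg0 hrel
  have hspan := CITR.mem_span_of_dlog (k := G r x V) (K := K)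
    (fun z hz => ⟨⟨z, alg_mem r hz⟩, rfl⟩) x hx (fun j => ∑ l, c l * rG r x V (a l j)) (by
      intro D
      rw [← hcD D]
      simp only [map_sum, map_mul, Finset.sum_mul, Finset.mul_sum]
      rw [Finset.sum_comm]
      refine Finset.sum_congr rfl fun l _ => Finset.sum_congr rfl fun j _ => ?_
      ring)
  obtain ⟨l₀, hl₀⟩ : ∃ l, c l ≠ 0 := by
    by_contra hcon
    push Not at hcon
    exact hc (funext hcon)
  -- a functional
  set S := Submodule.span ℝ (rv '' (Lm r x V : Set (Fin n → ℤ))) with hS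
  set T := Submodule.span ℝ (a '' {l₀}ᶜ) with hT
  have hnot : a l₀ ∉ S ⊔ T := by
    intro hmem
    obtain ⟨s, hs, t, ht, hst⟩ := Submodule.mem_sup.1 hmem
    have h1 : s ∈ Submodule.span ℝ (Set.range a) := by
      have h2 : s = a l₀ - t := by rw [← hst]; abel
      rw [h2]
      exact Submodule.sub_mem _ (Submodule.subset_span ⟨l₀, rfl⟩)
        (Submodule.span_mono (Set.image_subset_range _ _) ht)
    have h3 := hdis s h1 hs
    rw [h3, zero_add] at hst
    rw [hst] at ht
    exact ha.notMem_span_image (s := {l₀}ᶜ) (x := l₀) (by simp) ht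
  obtain ⟨φ, hφ, hφ0⟩ := Submodule.exists_le_ker_of_notMem hnot
  let t : Fin n → ℝ := fun j => φ (Pi.single j 1)
  have hφt : ∀ v : Fin n → ℝ, φ v = ∑ j, t j * v j := by
    intro v
    conv_lhs => rw [pi_eq_sum_univ' v]
    rw [map_sum]
    refine Finset.sum_congr rfl fun l _ => ?_
    rw [map_smul, smul_eq_mul, mul_comm]
  have h1 := funct_zero r hx (V := V) (t := t) (fun m hm => by
    rw [← hφt]
    exact hφ0 (Submodule.mem_sup_left (Submodule.subset_span ⟨m, hm, rfl⟩))) hspan
  have h2 : ∑ j, rG r x V (t j) * ∑ l, c l * rG r x V (a l j) =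
      ∑ l, c l * rG r x V (φ (a l)) := by
    simp only [hφt, map_sum, map_mul, Finset.mul_sum]
    rw [Finset.sum_comm]
    refine Finset.sum_congr rfl fun l _ => Finset.sum_congr rfl fun j _ => ?_
    ring
  rw [h2, Finset.sum_eq_single l₀] at h1
  · rcases mul_eq_zero.1 h1 with h3 | h3
    · exact hl₀ h3
    · exact hφ ((map_eq_zero (rG r x V)).1 h3)
  · intro l _ hl
    have h3 : φ (a l) = 0 := hφ0 (Submodule.mem_sup_right (Submodule.subset_span ⟨l, hl, rfl⟩))
    rw [h3, map_zero, mul_zero]
  · intro h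
    exact absurd (Finset.mem_univ _) h

/-- the dimensions of the spaces of forms -/
theorem fin_ineq (hx : ∀ i, x i ≠ 0)
    {V : Submodule ℝ (Fin n → ℝ)} {p : ℕ}
    (a : Fin p → Fin n → ℝ) (haV : ∀ l, a l ∈ V) (ha : LinearIndependent ℝ a)
    (hdis : ∀ v ∈ Submodule.span ℝ (Set.range a),
      v ∈ Submodule.span ℝ (rv '' (Lm r x V : Set (Fin n → ℤ))) → v = 0) {q : ℕ} :
    q + p + rkZk r x (Lm r x V) ≤ rkk r x (V : Set (Fin n → ℝ)) + q := by
  have hind := indep r hx a haV ha hdis
  have hfN : FiniteDimensional K (Submodule.span K (omk r x '' (V : Set (Fin n → ℝ)))) :=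
    finite_span_omk r x _
  have hfNΛ : FiniteDimensional K
      (Submodule.span K (omk r x '' (rv '' (Lm r x V : Set (Fin n → ℤ))))) :=
    finite_span_omk r x _
  have hfN' : FiniteDimensional K (Submodule.span K (Set.range fun l => omk r x (a l))) :=
    FiniteDimensional.span_of_finite K (Set.finite_range _)
  have hli : LinearIndependent K (fun l => omk r x (a l)) := by
    rw [Fintype.linearIndependent_iff]
    intro g hg l
    have h1 := hind g (by rw [hg]; exact Submodule.zero_mem _)
    rw [h1]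
    rfl
  have hcard : finrank K (Submodule.span K (Set.range fun l => omk r x (a l))) = p := by
    rw [finrank_span_eq_card hli, Fintype.card_fin]
  have hinf : Submodule.span K (omk r x '' (rv '' (Lm r x V : Set (Fin n → ℤ)))) ⊓
      Submodule.span K (Set.range fun l => omk r x (a l)) = ⊥ := by
    rw [eq_bot_iff]
    rintro f ⟨hf, hf'⟩
    obtain ⟨g, hg⟩ := (Submodule.mem_span_range_iff_exists_fun K).1 hf'
    have h1 := hind g (by rw [hg]; exact hf)
    rw [Submodule.mem_bot, ← hg, h1]
    exact Finset.sum_eq_zero fun l _ => by rw [Pi.zero_apply, zero_smul]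
  have hle : Submodule.span K (omk r x '' (rv '' (Lm r x V : Set (Fin n → ℤ)))) ⊔
      Submodule.span K (Set.range fun l => omk r x (a l)) ≤
        Submodule.span K (omk r x '' (V : Set (Fin n → ℝ))) := by
    refine sup_le (Submodule.span_le.2 ?_) (Submodule.span_le.2 ?_)
    · rintro _ ⟨_, ⟨m, hm, rfl⟩, rfl⟩
      exact mem_span_V r x V hm
    · rintro _ ⟨l, rfl⟩
      exact Submodule.subset_span ⟨_, haV l, rfl⟩
  have h1 := Submodule.finrank_mono hle
  have h2 := Submodule.finrank_sup_add_finrank_inf_eq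
    (Submodule.span K (omk r x '' (rv '' (Lm r x V : Set (Fin n → ℤ)))))
    (Submodule.span K (Set.range fun l => omk r x (a l)))
  rw [hinf, finrank_bot, add_zero, hcard] at h2
  rw [h2] at h1
  have h3 : rkZk r x (Lm r x V) =
    finrank K (Submodule.span K (omk r x '' (rv '' (Lm r x V : Set (Fin n → ℤ))))) := rfl
  have h4 : rkk r x (V : Set (Fin n → ℝ)) =
    finrank K (Submodule.span K (omk r x '' (V : Set (Fin n → ℝ)))) := rfl
  rw [← h3, ← h4] at h1
  omega

/-- the linear Ax theorem over an arbitrary field of constants, with the canonical lattice -/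
theorem lin_ax_Lm (hx : ∀ i, x i ≠ 0) (V : Submodule ℝ (Fin n → ℝ)) :
    finrank ℝ V + rkZk r x (Lm r x V) ≤ rkk r x (V : Set (Fin n → ℝ)) +
      finrank ℝ (V ⊓ Submodule.span ℝ (rv '' (Lm r x V : Set (Fin n → ℤ))) :
        Submodule ℝ (Fin n → ℝ)) := by
  obtain ⟨p, a, haV, ha, hdis, hdim⟩ :=
    LinAx.compl V (Submodule.span ℝ (rv '' (Lm r x V : Set (Fin n → ℤ))))
  rw [hdim]
  exact fin_ineq r hx a haV ha hdis

/-! ### Block scalings -/

variable {q : ℕ} (blk : Fin n → Fin q)

/-- the block scaling -/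
def scl (c : Fin q → ℝ) : (Fin n → ℝ) →ₗ[ℝ] (Fin n → ℝ) where
  toFun b := fun i => c (blk i) * b i
  map_add' b b' := by
    funext i
    simp only [Pi.add_apply]
    ring
  map_smul' s b := by
    funext i
    simp only [Pi.smul_apply, smul_eq_mul, RingHom.id_apply]
    ring

theorem scl_apply (c : Fin q → ℝ) (b : Fin n → ℝ) (i : Fin n) :
    scl blk c b i = c (blk i) * b i := rfl

/-- the part of an integer vector in a block -/
def prt (j : Fin q) (a : Fin n → ℤ) : Fin n → ℤ := fun i => if blk i = j then a i else 0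

/-- graded lattices -/
def Grd (Λ : Submodule ℤ (Fin n → ℤ)) : Prop := ∀ a ∈ Λ, ∀ j, prt blk j a ∈ Λ

/-- the derivations act on the blocks separately -/
def Sep (k : Type) {K : Type} [Field k] [Field K] [Algebra k K] (x : Fin n → K) : Prop :=
  ∀ (D : Derivation k K K) (j : Fin q), ∃ D' : Derivation k K K,
    ∀ i, D' (x i) = if blk i = j then D (x i) else 0

variable {blk}

theorem scl_scl (c c' : Fin q → ℝ) (h : ∀ j, c j * c' j = 1) (b : Fin n → ℝ) :
    scl blk c (scl blk c' b) = b := by
  funext i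
  rw [scl_apply, scl_apply, ← mul_assoc, h, one_mul]

/-- scaled derivations -/
theorem exists_scl (hs : Sep blk k x) (c : Fin q → k) (D : Derivation k K K) :
    ∃ D' : Derivation k K K, ∀ i, D' (x i) = algebraMap k K (c (blk i)) * D (x i) := by
  choose D' hD' using fun j => hs D j
  refine ⟨∑ j, algebraMap k K (c j) • D' j, fun i => ?_⟩
  have h1 : (∑ j, algebraMap k K (c j) • D' j : Derivation k K K) (x i) =
      ∑ j, (algebraMap k K (c j) • D' j : Derivation k K K) (x i) := by
    have h2 := map_sum (Derivation.coeFnAddMonoidHom : Derivation k K K →+ K → K)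
      (fun j => algebraMap k K (c j) • D' j) Finset.univ
    have h3 := congrFun h2 (x i)
    rw [Finset.sum_apply] at h3
    exact h3
  rw [h1, Finset.sum_eq_single (blk i)]
  · rw [Derivation.smul_apply, hD', if_pos rfl, smul_eq_mul]
  · intro j _ hj
    rw [Derivation.smul_apply, hD', if_neg (Ne.symm hj), smul_zero]
  · intro h
    exact absurd (Finset.mem_univ _) h

theorem omk_scl (c : Fin q → ℝ) {D D' : Derivation k K K}
    (h : ∀ i, D' (x i) = algebraMap k K (r (c (blk i))) * D (x i)) (b : Fin n → ℝ) :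
    omk r x b D' = omk r x (scl blk c b) D := by
  rw [omk_apply, omk_apply]
  refine Finset.sum_congr rfl fun i _ => ?_
  rw [h, scl_apply, map_mul, map_mul]
  ring

/-- relations between forms are stable under block scalings -/
theorem rel_scl (hs : Sep blk k x) (c : Fin q → ℝ) {ι : Type} (s : Finset ι) (g : ι → K)
    (b : ι → Fin n → ℝ) (h : ∑ l ∈ s, g l • omk r x (b l) = 0) :
    ∑ l ∈ s, g l • omk r x (scl blk c (b l)) = 0 := by
  ext D
  obtain ⟨D', hD'⟩ := exists_scl hs (fun j => r (c j)) D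
  have h1 := LinearMap.congr_fun h D'
  rw [LinearMap.sum_apply, LinearMap.zero_apply] at h1
  rw [LinearMap.sum_apply, LinearMap.zero_apply, ← h1]
  refine Finset.sum_congr rfl fun l _ => ?_
  rw [LinearMap.smul_apply, LinearMap.smul_apply, omk_scl r c hD']

/-- the scaled space -/
def Vc (V : Submodule ℝ (Fin n → ℝ)) (c : Fin q → ℝ) : Submodule ℝ (Fin n → ℝ) :=
  V.comap (scl blk c)

theorem mem_Vc {V : Submodule ℝ (Fin n → ℝ)} {c : Fin q → ℝ} {b : Fin n → ℝ} :
    b ∈ Vc (blk := blk) V c ↔ scl blk c b ∈ V := Iff.rfl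

theorem mem_Lm_scl (hs : Sep blk k x) {V : Submodule ℝ (Fin n → ℝ)} {c : Fin q → ℝ}
    (hc : ∀ j, c j ≠ 0) {a : Fin n → ℤ} :
    a ∈ Lm r x (Vc (blk := blk) V c) ↔ ∀ D ∈ Dl r x V, omk r x (scl blk c (rv a)) D = 0 := by
  constructor
  · intro h D hD
    obtain ⟨D', hD'⟩ := exists_scl hs (fun j => r (c j)) D
    rw [← omk_scl r c hD']
    refine h D' fun b hb => ?_
    rw [omk_scl r c hD']
    exact hD _ hb
  · intro h D' hD'
    obtain ⟨D, hD⟩ := exists_scl hs (fun j => r ((c j)⁻¹)) D'
    have h1 : D ∈ Dl r x V := by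
      intro b hb
      rw [omk_scl r (fun j => (c j)⁻¹) hD]
      refine hD' _ ?_
      rw [mem_Vc, scl_scl _ _ fun j => mul_inv_cancel₀ (hc j)]
      exact hb
    have h2 := h D h1
    rw [omk_scl r (fun j => (c j)⁻¹) hD, scl_scl _ _ fun j => inv_mul_cancel₀ (hc j)] at h2
    exact h2

/-- the scalings which send the vector to the annihilator -/
def Wa (r : ℝ →+* k) (x : Fin n → K) (blk : Fin n → Fin q) (V : Submodule ℝ (Fin n → ℝ))
    (b : Fin n → ℝ) : Submodule ℝ (Fin q → ℝ) where
  carrier := {c | ∀ D ∈ Dl r x V, omk r x (scl blk c b) D = 0}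
  add_mem' := by
    intro c c' hc hc' D hD
    have h1 : scl blk (c + c') b = scl blk c b + scl blk c' b := by
      funext i
      rw [Pi.add_apply, scl_apply, scl_apply, scl_apply, Pi.add_apply]
      ring
    rw [h1, omk_add, LinearMap.add_apply, hc D hD, hc' D hD, add_zero]
  zero_mem' := by
    intro D _
    have h1 : scl blk (0 : Fin q → ℝ) b = 0 := by
      funext i
      rw [scl_apply, Pi.zero_apply, Pi.zero_apply, zero_mul]
    rw [h1, omk_zero, LinearMap.zero_apply]
  smul_mem' := by
    intro s c hc D hD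
    have h1 : scl blk (s • c) b = s • scl blk c b := by
      funext i
      rw [Pi.smul_apply, scl_apply, scl_apply, Pi.smul_apply, smul_eq_mul, smul_eq_mul]
      ring
    rw [h1, omk_smul, LinearMap.smul_apply, hc D hD, smul_zero]

theorem mem_Wa {V : Submodule ℝ (Fin n → ℝ)} {b : Fin n → ℝ} {c : Fin q → ℝ} :
    c ∈ Wa r x blk V b ↔ ∀ D ∈ Dl r x V, omk r x (scl blk c b) D = 0 := Iff.rfl

theorem rv_prt (j : Fin q) (a : Fin n → ℤ) : rv (prt blk j a) = scl blk (Pi.single j 1) (rv a) := by
  funext i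
  rw [scl_apply, rv, rv, prt]
  by_cases h : blk i = j
  · rw [if_pos h, h, Pi.single_eq_same, one_mul]
  · rw [if_neg h, Pi.single_eq_of_ne h, Int.cast_zero, zero_mul]

/-- the canonical graded lattice -/
def Lgr (r : ℝ →+* k) (x : Fin n → K) (blk : Fin n → Fin q) (V : Submodule ℝ (Fin n → ℝ)) :
    Submodule ℤ (Fin n → ℤ) where
  carrier := {a | ∀ j, prt blk j a ∈ Lm r x V}
  add_mem' := by
    intro a b ha hb j
    have h1 : prt blk j (a + b) = prt blk j a + prt blk j b := by
      funext i
      rw [Pi.add_apply, prt, prt, prt, Pi.add_apply]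
      split_ifs
      · rfl
      · rw [add_zero]
    rw [h1]
    exact Submodule.add_mem _ (ha j) (hb j)
  zero_mem' := by
    intro j
    have h1 : prt blk j (0 : Fin n → ℤ) = 0 := by
      funext i
      rw [prt, Pi.zero_apply, ite_self]
    rw [h1]
    exact Submodule.zero_mem _
  smul_mem' := by
    intro c a ha j
    have h1 : prt blk j (c • a) = c • prt blk j a := by
      funext i
      rw [Pi.smul_apply, prt, prt, Pi.smul_apply]
      split_ifs
      · rfl
      · rw [smul_zero]
    rw [h1]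
    exact Submodule.smul_mem _ _ (ha j)

theorem mem_Lgr {V : Submodule ℝ (Fin n → ℝ)} {a : Fin n → ℤ} :
    a ∈ Lgr r x blk V ↔ ∀ j, prt blk j a ∈ Lm r x V := Iff.rfl

theorem prt_prt (j j' : Fin q) (a : Fin n → ℤ) :
    prt blk j (prt blk j' a) = if j = j' then prt blk j a else 0 := by
  funext i
  rw [prt, prt]
  by_cases h : blk i = j
  · rw [if_pos h]
    by_cases h' : j = j'
    · rw [if_pos h', if_pos (h.trans h'), prt, if_pos h]
    · rw [if_neg h', if_neg (fun h'' => h' (h.symm.trans h''))]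
      rfl
  · rw [if_neg h]
    by_cases h' : j = j'
    · rw [if_pos h', prt, if_neg h]
    · rw [if_neg h']
      rfl

theorem grd_Lgr (V : Submodule ℝ (Fin n → ℝ)) : Grd blk (Lgr r x blk V) := by
  intro a ha j j'
  rw [prt_prt]
  split_ifs
  · exact ha j'
  · exact Submodule.zero_mem _

theorem sum_prt (a : Fin n → ℤ) : ∑ j, prt blk j a = a := by
  funext i
  rw [Finset.sum_apply, Finset.sum_eq_single (blk i)]
  · rw [prt, if_pos rfl]
  · intro j _ hj
    rw [prt, if_neg (Ne.symm hj)]
  · intro h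
    exact absurd (Finset.mem_univ _) h

theorem Lgr_le (V : Submodule ℝ (Fin n → ℝ)) : Lgr r x blk V ≤ Lm r x V := by
  intro a ha
  rw [← sum_prt (blk := blk) a]
  exact Submodule.sum_mem _ fun j _ => ha j

theorem mem_Lgr_iff {V : Submodule ℝ (Fin n → ℝ)} {a : Fin n → ℤ} :
    a ∈ Lgr r x blk V ↔ Wa r x blk V (rv a) = ⊤ := by
  constructor
  · intro h
    rw [eq_top_iff]
    intro c _
    rw [mem_Wa]
    intro D hD
    have h1 : scl blk c (rv a) = ∑ j, c j • rv (prt blk j a) := by
      funext i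
      rw [Finset.sum_apply, Finset.sum_eq_single (blk i)]
      · rw [scl_apply, Pi.smul_apply, smul_eq_mul, rv, rv, prt, if_pos rfl]
      · intro j _ hj
        rw [Pi.smul_apply, rv, prt, if_neg (Ne.symm hj), Int.cast_zero, smul_zero]
      · intro h
        exact absurd (Finset.mem_univ _) h
    rw [h1, omk_sum, LinearMap.sum_apply]
    refine Finset.sum_eq_zero fun j _ => ?_
    rw [omk_smul, LinearMap.smul_apply, h j D hD, smul_zero]
  · intro h j D hD
    rw [rv_prt]
    have h1 : (Pi.single j 1 : Fin q → ℝ) ∈ Wa r x blk V (rv a) := by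
      rw [h]
      exact Submodule.mem_top
    exact h1 D hD

/-- there is a scaling whose lattice is the canonical graded lattice -/
theorem exists_c (hs : Sep blk k x) (V : Submodule ℝ (Fin n → ℝ)) :
    ∃ c : Fin q → ℝ, (∀ j, c j ≠ 0) ∧ Lm r x (Vc (blk := blk) V c) = Lgr r x blk V := by
  classical
  have key : ∃ c : Fin q → ℝ, (∀ j, c j ≠ 0) ∧
      ∀ a : Fin n → ℤ, Wa r x blk V (rv a) ≠ ⊤ → c ∉ Wa r x blk V (rv a) := by
    by_contra hcon
    push Not at hcon
    let H : Fin q → Submodule ℝ (Fin q → ℝ) := fun j => LinearMap.ker (LinearMap.proj j)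
    have hH : ∀ j, H j ≠ ⊤ := by
      intro j h
      have h1 : (Pi.single j 1 : Fin q → ℝ) ∈ H j := by
        rw [h]
        exact Submodule.mem_top
      rw [LinearMap.mem_ker, LinearMap.proj_apply, Pi.single_eq_same] at h1
      exact one_ne_zero h1
    have hcov : (Set.univ : Set (Fin q → ℝ)) ⊆ (⋃ j, (H j : Set (Fin q → ℝ))) ∪
        ⋃ a : {a : Fin n → ℤ // Wa r x blk V (rv a) ≠ ⊤},
          (Wa r x blk V (rv (a : Fin n → ℤ)) : Set (Fin q → ℝ)) := by
      intro c _
      by_cases hc : ∀ j, c j ≠ 0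
      · obtain ⟨a, ha, hca⟩ := hcon c hc
        exact Or.inr (Set.mem_iUnion.2 ⟨⟨a, ha⟩, hca⟩)
      · push Not at hc
        obtain ⟨j, hj⟩ := hc
        exact Or.inl (Set.mem_iUnion.2 ⟨j, hj⟩)
    have h1 : MeasureTheory.volume (Set.univ : Set (Fin q → ℝ)) = 0 := by
      refine MeasureTheory.measure_mono_null hcov ?_
      rw [MeasureTheory.measure_union_null_iff]
      refine ⟨?_, ?_⟩
      · rw [MeasureTheory.measure_iUnion_null_iff]
        intro j
        exact MeasureTheory.Measure.addHaar_submodule _ _ (hH j)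
      · rw [MeasureTheory.measure_iUnion_null_iff]
        intro a
        exact MeasureTheory.Measure.addHaar_submodule _ _ a.2
    rw [MeasureTheory.Measure.measure_univ_eq_zero] at h1
    exact NeZero.ne (MeasureTheory.volume : MeasureTheory.Measure (Fin q → ℝ)) h1
  obtain ⟨c, hc, hca⟩ := key
  refine ⟨c, hc, ?_⟩
  ext a
  rw [mem_Lm_scl r hs hc, mem_Lgr_iff, ← mem_Wa]
  constructor
  · intro h
    by_contra hcon
    exact hca a hcon h
  · intro h
    rw [h]
    exact Submodule.mem_top

/-- graded lattices span graded spaces -/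
theorem scl_span {Λ : Submodule ℤ (Fin n → ℤ)} (hΛ : Grd blk Λ) (c : Fin q → ℝ) {b : Fin n → ℝ}
    (hb : b ∈ Submodule.span ℝ (rv '' (Λ : Set (Fin n → ℤ)))) :
    scl blk c b ∈ Submodule.span ℝ (rv '' (Λ : Set (Fin n → ℤ))) := by
  induction hb using Submodule.span_induction with
  | mem b hb =>
    obtain ⟨a, ha, rfl⟩ := hb
    have h1 : scl blk c (rv a) = ∑ j, c j • rv (prt blk j a) := by
      funext i
      rw [Finset.sum_apply, Finset.sum_eq_single (blk i)]
      · rw [scl_apply, Pi.smul_apply, smul_eq_mul, rv, rv, prt, if_pos rfl]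
      · intro j _ hj
        rw [Pi.smul_apply, rv, prt, if_neg (Ne.symm hj), Int.cast_zero, smul_zero]
      · intro h
        exact absurd (Finset.mem_univ _) h
    rw [h1]
    exact Submodule.sum_mem _ fun j _ => Submodule.smul_mem _ _
      (Submodule.subset_span ⟨_, hΛ a ha j, rfl⟩)
  | zero =>
    rw [map_zero]
    exact Submodule.zero_mem _
  | add b b' _ _ hb hb' =>
    rw [map_add]
    exact Submodule.add_mem _ hb hb'
  | smul s b _ hb =>
    rw [map_smul]
    exact Submodule.smul_mem _ _ hb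

/-- the block scaling as an equivalence -/
noncomputable def sclE (c : Fin q → ℝ) (hc : ∀ j, c j ≠ 0) : (Fin n → ℝ) ≃ₗ[ℝ] (Fin n → ℝ) :=
  LinearEquiv.ofLinearMap (scl blk c) (scl blk fun j => (c j)⁻¹)
    (LinearMap.ext fun b => scl_scl _ _ (fun j => mul_inv_cancel₀ (hc j)) b)
    (LinearMap.ext fun b => scl_scl _ _ (fun j => inv_mul_cancel₀ (hc j)) b)

theorem finrank_Vc (V : Submodule ℝ (Fin n → ℝ)) {c : Fin q → ℝ} (hc : ∀ j, c j ≠ 0) :
    finrank ℝ (Vc (blk := blk) V c) = finrank ℝ V := by
  have h1 : (Vc (blk := blk) V c).map (sclE (blk := blk) c hc : (Fin n → ℝ) →ₗ[ℝ] (Fin n → ℝ)) =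
      V := by
    exact Submodule.map_comap_eq_of_surjective (sclE (blk := blk) c hc).surjective V
  have h2 := LinearEquiv.finrank_map_eq (sclE (blk := blk) c hc) (Vc (blk := blk) V c)
  rw [h1] at h2
  exact h2.symm

theorem finrank_Vc_inf (V : Submodule ℝ (Fin n → ℝ)) {Λ : Submodule ℤ (Fin n → ℤ)}
    (hΛ : Grd blk Λ) {c : Fin q → ℝ} (hc : ∀ j, c j ≠ 0) :
    finrank ℝ (Vc (blk := blk) V c ⊓ Submodule.span ℝ (rv '' (Λ : Set (Fin n → ℤ))) :
      Submodule ℝ (Fin n → ℝ)) =
    finrank ℝ (V ⊓ Submodule.span ℝ (rv '' (Λ : Set (Fin n → ℤ))) :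
      Submodule ℝ (Fin n → ℝ)) := by
  have h1 : Vc (blk := blk) V c ⊓ Submodule.span ℝ (rv '' (Λ : Set (Fin n → ℤ))) =
      Vc (blk := blk) (V ⊓ Submodule.span ℝ (rv '' (Λ : Set (Fin n → ℤ)))) c := by
    ext b
    constructor
    · rintro ⟨hb, hb'⟩
      exact ⟨hb, scl_span hΛ c hb'⟩
    · rintro ⟨hb, hb'⟩
      refine ⟨hb, ?_⟩
      have h2 := scl_span hΛ (fun j => (c j)⁻¹) hb'
      rw [scl_scl _ _ fun j => inv_mul_cancel₀ (hc j)] at h2
      exact h2
  rw [h1, finrank_Vc _ hc]

/-- the number of independent forms does not change under block scalings -/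
theorem rkk_Vc (hs : Sep blk k x) (V : Submodule ℝ (Fin n → ℝ)) {c : Fin q → ℝ}
    (hc : ∀ j, c j ≠ 0) :
    rkk r x (Vc (blk := blk) V c : Set (Fin n → ℝ)) = rkk r x (V : Set (Fin n → ℝ)) := by
  classical
  let L1 : ((Vc (blk := blk) V c) →₀ K) →ₗ[K] (Derivation k K K →ₗ[K] K) :=
    Finsupp.linearCombination K fun b => omk r x (b : Fin n → ℝ)
  let L2 : ((Vc (blk := blk) V c) →₀ K) →ₗ[K] (Derivation k K K →ₗ[K] K) :=
    Finsupp.linearCombination K fun b => omk r x (scl blk c (b : Fin n → ℝ))
  have h1 : LinearMap.range L1 = Submodule.span K (omk r x '' (Vc (blk := blk) V c)) := by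
    rw [Finsupp.range_linearCombination]
    congr 1
    ext f
    constructor
    · rintro ⟨b, rfl⟩
      exact ⟨b, b.2, rfl⟩
    · rintro ⟨b, hb, rfl⟩
      exact ⟨⟨b, hb⟩, rfl⟩
  have h2 : LinearMap.range L2 = Submodule.span K (omk r x '' (V : Set (Fin n → ℝ))) := by
    rw [Finsupp.range_linearCombination]
    congr 1
    ext f
    constructor
    · rintro ⟨b, rfl⟩
      exact ⟨_, b.2, rfl⟩
    · rintro ⟨b, hb, rfl⟩
      refine ⟨⟨scl blk (fun j => (c j)⁻¹) b, ?_⟩, ?_⟩
      · rw [mem_Vc, scl_scl _ _ fun j => mul_inv_cancel₀ (hc j)]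
        exact hb
      · show omk r x (scl blk c (scl blk (fun j => (c j)⁻¹) b)) = omk r x b
        rw [scl_scl _ _ fun j => mul_inv_cancel₀ (hc j)]
  have h3 : LinearMap.ker L1 = LinearMap.ker L2 := by
    ext g
    rw [LinearMap.mem_ker, LinearMap.mem_ker]
    constructor
    · intro h
      rw [Finsupp.linearCombination_apply, Finsupp.sum] at h
      rw [Finsupp.linearCombination_apply, Finsupp.sum]
      exact rel_scl r hs c _ _ _ h
    · intro h
      rw [Finsupp.linearCombination_apply, Finsupp.sum] at h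
      rw [Finsupp.linearCombination_apply, Finsupp.sum]
      have h4 := rel_scl r hs (fun j => (c j)⁻¹) _ _ _ h
      simp only [scl_scl _ _ fun j => inv_mul_cancel₀ (hc j)] at h4
      exact h4
  have h5 := L1.quotKerEquivRange.finrank_eq
  have h6 := L2.quotKerEquivRange.finrank_eq
  rw [h3] at h5
  rw [rkk, rkk, ← h1, ← h2, ← h5, ← h6]

/-- **the graded linear Ax theorem** -/
theorem graded_lin_ax (hx : ∀ i, x i ≠ 0) (hs : Sep blk k x) (V : Submodule ℝ (Fin n → ℝ)) :
    finrank ℝ V + rkZk r x (Lgr r x blk V) ≤ rkk r x (V : Set (Fin n → ℝ)) +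
      finrank ℝ (V ⊓ Submodule.span ℝ (rv '' (Lgr r x blk V : Set (Fin n → ℤ))) :
        Submodule ℝ (Fin n → ℝ)) := by
  obtain ⟨c, hc, hL⟩ := exists_c r hs V
  have h1 := lin_ax_Lm r hx (Vc (blk := blk) V c)
  rw [hL, finrank_Vc V hc, rkk_Vc r hs V hc, finrank_Vc_inf V (grd_Lgr r V) hc] at h1
  exact h1

/-- the canonical graded lattice is full -/
theorem full_Lgr (hs : Sep blk k x) (V : Submodule ℝ (Fin n → ℝ)) :
    Fullk r x (Lgr r x blk V) := by
  obtain ⟨c, hc, hL⟩ := exists_c r hs V
  rw [← hL]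
  exact full_Lm r x _

/-- the forms of the canonical graded lattice are in the span of the forms of `V` -/
theorem omk_Lgr {V : Submodule ℝ (Fin n → ℝ)} {a : Fin n → ℤ} (ha : a ∈ Lgr r x blk V) :
    omk r x (rv a) ∈ Submodule.span K (omk r x '' (V : Set (Fin n → ℝ))) :=
  mem_span_V r x V fun D hD => Lgr_le r V ha D hD

end

end Pool.Agent.ZP.GAx
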