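import Mathlib
import Pool.Agent.Lib.MP_c95b3b_ag_ZP.ETr
import Pool.Agent.Lib.MP_c95b3b_ag_ZP.GAx
import Pool.Agent.Lib.MP_c95b3b_ag_AX.Basic

set_option autoImplicit false
set_option linter.unusedSectionVars false

/-! Project ZP (MP_c95b3b_ag), block E: transcendence degrees of sets of monomials and ranks of
sets of forms. -/

namespace Pool.Agent.ZP

open MvPolynomial Pool.Agent.SD Module

namespace E

/-! ### The rank of the forms over an arbitrary field of constants -/

section
variable {k K : Type} [Field k] [Field K] [Algebra k K] {n : ℕ} {x : Fin n → K}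

theorem der_aeval {ι : Type} [Fintype ι] (g : ι → K) (D : Derivation k K K)
    (F : MvPolynomial ι k) : D (aeval g F) = ∑ j, aeval g (pderiv j F) * D (g j) := by
  classical
  induction F using MvPolynomial.induction_on with
  | C a =>
    rw [aeval_C, Derivation.map_algebraMap]
    refine (Finset.sum_eq_zero fun j _ => ?_).symm
    rw [pderiv_C, map_zero, zero_mul]
  | add p q hp hq => simp only [map_add, hp, hq, add_mul, Finset.sum_add_distrib]
  | mul_X p i hp =>
    rw [map_mul, aeval_X, Derivation.leibniz, hp, smul_eq_mul, smul_eq_mul]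
    have h1 : ∀ j, aeval g (pderiv j (p * X i)) * D (g j) =
        g i * (aeval g (pderiv j p) * D (g j)) + (if j = i then aeval g p * D (g j) else 0) := by
      intro j
      rw [pderiv_mul, map_add, map_mul, map_mul, aeval_X, pderiv_X, Pi.single_apply]
      by_cases hj : j = i
      · subst hj
        simp only [if_true, map_one, mul_one]
        ring
      · rw [if_neg hj, if_neg fun h => hj h.symm, map_zero, mul_zero]
        ring
    rw [Finset.sum_congr rfl fun j _ => h1 j, Finset.sum_add_distrib, ← Finset.mul_sum,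
      Finset.sum_ite_eq' Finset.univ i, if_pos (Finset.mem_univ i)]
    ring

theorem eq_C {ι : Type} (F : MvPolynomial ι k) (h : ∀ m, m ≠ 0 → coeff m F = 0) :
    F = C (coeff 0 F) := by
  classical
  ext m
  rw [coeff_C]
  by_cases hm : 0 = m
  · rw [if_pos hm, ← hm]
  · rw [if_neg hm, h m fun h' => hm h'.symm]

theorem algInd (r : ℝ →+* k) (hx : ∀ i, x i ≠ 0) {ι : Type} [Fintype ι] {α : ι → Fin n → ℤ}
    (h : LinearIndependent K (fun j => GAx.omk r x (rv (α j)))) :
    AlgebraicIndependent k (fun j => mn x (α j)) := by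
  classical
  have hk : CharZero k := charZero_of_injective_ringHom r.injective
  set g : ι → K := fun j => mn x (α j) with hg
  have hgne : ∀ j, g j ≠ 0 := fun j => mn_ne_zero hx (α j)
  have hinj : Function.Injective (algebraMap k K) := (algebraMap k K).injective
  have key : ∀ (d : ℕ) (F : MvPolynomial ι k), (∀ m, coeff m F ≠ 0 → m.degree ≤ d) →
      aeval g F = 0 → F = 0 := by
    intro d
    induction d with
    | zero =>
      intro F hF h0
      have h1 : F = C (coeff 0 F) := eq_C F fun m hm => by
        by_contra hc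
        have := hF m hc
        exact hm ((Finsupp.degree_eq_zero_iff m).mp (Nat.le_zero.mp this))
      rw [h1, aeval_C, map_eq_zero_iff _ hinj] at h0
      rw [h1, h0, C_0]
    | succ d ih =>
      intro F hF h0
      have h2 : ∀ j, pderiv j F = 0 := by
        have h3 : ∀ j, aeval g (pderiv j F) * g j = 0 := by
          refine Fintype.linearIndependent_iff.mp h _ (LinearMap.ext fun D => ?_)
          have h4 := der_aeval g D F
          rw [h0, map_zero] at h4
          rw [LinearMap.sum_apply, LinearMap.zero_apply, h4]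
          refine Finset.sum_congr rfl fun j _ => ?_
          rw [LinearMap.smul_apply, smul_eq_mul, GAx.omk_rv r hx]
          change aeval g (pderiv j F) * g j * (D (g j) / g j) = aeval g (pderiv j F) * D (g j)
          have h5 := hgne j
          field_simp
        intro j
        refine ih _ (fun m hm => ?_) ((mul_eq_zero.mp (h3 j)).resolve_right (hgne j))
        rw [coeff_pderiv] at hm
        have h5 := hF _ (left_ne_zero_of_mul hm)
        rw [map_add, Finsupp.degree_single] at h5
        omega
      have h1 : F = C (coeff 0 F) := eq_C F fun m hm => by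
        obtain ⟨j, hj⟩ : ∃ j, m j ≠ 0 := by
          by_contra hc
          push Not at hc
          exact hm (Finsupp.ext hc)
        have h6 : Finsupp.single j 1 ≤ m := by
          rw [Finsupp.single_le_iff]
          omega
        have h7 := coeff_pderiv (i := j) F (m - Finsupp.single j 1)
        rw [h2 j, coeff_zero, tsub_add_cancel_of_le h6] at h7
        refine (mul_eq_zero.mp h7.symm).resolve_right ?_
        generalize (m - Finsupp.single j (1 : ℕ) : ι →₀ ℕ) j = a
        exact_mod_cast Nat.succ_ne_zero a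
      rw [h1, aeval_C, map_eq_zero_iff _ hinj] at h0
      rw [h1, h0, C_0]
  rw [algebraicIndependent_iff]
  intro F hF
  exact key (F.support.sup fun m => m.degree) F (fun m hm =>
    Finset.le_sup (f := fun m : ι →₀ ℕ => m.degree) (mem_support_iff.mpr hm)) hF

theorem omInd (r : ℝ →+* k) (hx : ∀ i, x i ≠ 0) {ι : Type} [Fintype ι] {α : ι → Fin n → ℤ}
    (h : AlgebraicIndependent k (fun j => mn x (α j))) :
    LinearIndependent K (fun j => GAx.omk r x (rv (α j))) := by
  classical
  have hk : CharZero k := charZero_of_injective_ringHom r.injective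
  obtain ⟨δ, hδ⟩ := LinAx.exists_der' _ h
  rw [Fintype.linearIndependent_iff]
  intro c hc i
  have h1 := congrArg (fun φ : Derivation k K K →ₗ[K] K => φ (δ i)) hc
  simp only [LinearMap.sum_apply, LinearMap.zero_apply, LinearMap.smul_apply, smul_eq_mul] at h1
  have h2 : ∀ j, c j * GAx.omk r x (rv (α j)) (δ i) =
      if i = j then c j * (1 / mn x (α j)) else 0 := by
    intro j
    rw [GAx.omk_rv r hx, hδ i j]
    by_cases hij : i = j
    · rw [if_pos hij, if_pos hij]
    · rw [if_neg hij, if_neg hij, zero_div, mul_zero]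
  rw [Finset.sum_congr rfl fun j _ => h2 j, Finset.sum_ite_eq Finset.univ i,
    if_pos (Finset.mem_univ i)] at h1
  exact (mul_eq_zero.mp h1).resolve_right (one_div_ne_zero (mn_ne_zero hx _))

/-- **(a)** the transcendence degree of the monomials is the rank of their forms -/
theorem tr_rkk (r : ℝ →+* k) (hx : ∀ i, x i ≠ 0) (S : Set (Fin n → ℤ)) :
    tr k x S = GAx.rkk r x (rv '' S) := by
  have hfin := GAx.finite_span_omk r x (rv '' S)
  apply le_antisymm
  · obtain ⟨a, ha, hai⟩ := exists_tr (R := k) x S
    have h1 := omInd r hx hai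
    have h2 : (Submodule.span K (Set.range fun i => GAx.omk r x (rv (a i)))) ≤
        Submodule.span K (GAx.omk r x '' (rv '' S)) := by
      refine Submodule.span_mono ?_
      rintro _ ⟨i, rfl⟩
      exact ⟨_, ⟨_, ha i, rfl⟩, rfl⟩
    have h3 := Submodule.finrank_mono h2
    rw [finrank_span_eq_card h1, Fintype.card_fin] at h3
    exact h3
  · obtain ⟨f, hf1, hf2, hf3⟩ := Submodule.exists_fun_fin_finrank_span_eq K
      (GAx.omk r x '' (rv '' S))
    have h1 : ∀ i, ∃ a ∈ S, GAx.omk r x (rv a) = f i := by
      intro i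
      obtain ⟨_, ⟨a, ha, rfl⟩, h⟩ := hf1 i
      exact ⟨a, ha, h⟩
    choose a ha hf using h1
    have h2 : (fun i => GAx.omk r x (rv (a i))) = f := funext hf
    have h3 := algInd r hx (α := a) (by rw [h2]; exact hf3)
    exact le_tr a ha h3

/-- **(a)** for lattices -/
theorem tr_rkZk (r : ℝ →+* k) (hx : ∀ i, x i ≠ 0) (Λ : Submodule ℤ (Fin n → ℤ)) :
    tr k x Λ = GAx.rkZk r x Λ := tr_rkk r hx Λ

end

/-! ### Varieties over the algebraic numbers -/

section
variable {L : Type} [Field L] [Algebra ℂ L] {n : ℕ} {x : Fin n → L}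

theorem tr_rkZ (hx : ∀ i, x i ≠ 0) (Λ : Submodule ℤ (Fin n → ℤ)) :
    tr ℂ x Λ = rkZ x Λ := tr_rkZk Complex.ofRealHom hx Λ

/-- families which are independent over the integers are independent over the complex numbers -/
theorem ind_AD (hx : ∀ i, x i ≠ 0) (hAD : AD x) {ι : Type} [Fintype ι] {β : ι → Fin n → ℤ}
    (h : AlgebraicIndependent ℤ (fun j => mn x (β j))) :
    AlgebraicIndependent ℂ (fun j => mn x (β j)) := by
  classical
  have hL : CharZero L := charZero_of_injective_algebraMap (algebraMap ℂ L).injective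
  rw [algebraicIndependent_iff]
  intro G hG
  by_contra hG0
  -- the monomials of `G`
  set m := G.support.card with hm
  let e : Fin m ≃ G.support := G.support.equivFin.symm
  obtain ⟨N, F', hF'⟩ := Map.exists_polys (A := ℤ) β
    (fun l : Fin m => (monomial (e l : ι →₀ ℕ) (1 : ℤ) : MvPolynomial ι ℤ))
  have hprod : (∏ i, x i) ^ N ≠ 0 := pow_ne_zero _ (Finset.prod_ne_zero_iff.mpr fun i _ => hx i)
  have hval : ∀ (c : Fin m → ℂ), ∑ l, algebraMap ℂ L (c l) * aeval x (F' l) =
      (∏ i, x i) ^ N * aeval (fun j => mn x (β j))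
        (∑ l, monomial (e l : ι →₀ ℕ) (c l) : MvPolynomial ι ℂ) := by
    intro c
    rw [map_sum, Finset.mul_sum]
    refine Finset.sum_congr rfl fun l _ => ?_
    rw [hF' L x hx l, aeval_monomial, aeval_monomial, map_one, one_mul]
    ring
  have hGs : (∑ l, monomial (e l : ι →₀ ℕ) (coeff (e l : ι →₀ ℕ) G) : MvPolynomial ι ℂ) = G := by
    rw [Equiv.sum_comp e (fun s : G.support => monomial (s : ι →₀ ℕ) (coeff (s : ι →₀ ℕ) G)),
      Finset.sum_coe_sort G.support fun s => monomial s (coeff s G)]
    exact G.support_sum_monomial_coeff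
  obtain ⟨c', hc', halg, hrel⟩ := hAD m F' (fun l => coeff (e l : ι →₀ ℕ) G) (by
      intro h0
      obtain ⟨s, hs⟩ := MvPolynomial.support_nonempty.mpr hG0
      have h1 := congrFun h0 (e.symm ⟨s, hs⟩)
      rw [Equiv.apply_symm_apply] at h1
      exact (mem_support_iff.mp hs) h1)
    (by rw [hval, hGs, hG, mul_zero])
  rw [hval, mul_eq_zero, or_iff_right hprod] at hrel
  -- the relation over the algebraic numbers
  let E := algebraicClosure ℚ ℂ
  let c'' : Fin m → E := fun l => ⟨c' l, mem_algebraicClosure_iff.mpr (halg l)⟩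
  let G' : MvPolynomial ι E := ∑ l, monomial (e l : ι →₀ ℕ) (c'' l)
  have hE : AlgebraicIndependent E (fun j => mn x (β j)) := by
    have i1 : Algebra.IsAlgebraic ℤ ℚ := IsLocalization.isAlgebraic ℚ (nonZeroDivisors ℤ)
    have i2 : Algebra.IsAlgebraic ℚ E := algebraicClosure.isAlgebraic ℚ ℂ
    have h1 : AlgebraicIndependent ℚ (fun j => mn x (β j)) := h.extendScalars ℚ
    exact h1.extendScalars E
  have hG' : aeval (fun j => mn x (β j)) G' = 0 := by
    rw [← hrel, map_sum, map_sum]
    refine Finset.sum_congr rfl fun l _ => ?_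
    rw [aeval_monomial, aeval_monomial]
    rfl
  have h1 := (algebraicIndependent_iff.mp hE) G' hG'
  apply hc'
  funext l
  have h2 : coeff (e l : ι →₀ ℕ) G' = c'' l := by
    rw [coeff_sum, Finset.sum_eq_single l]
    · rw [coeff_monomial, if_pos rfl]
    · intro l' _ hl'
      rw [coeff_monomial, if_neg]
      intro h3
      exact hl' (e.injective (Subtype.ext h3))
    · intro h3
      exact absurd (Finset.mem_univ _) h3
  rw [h1, coeff_zero] at h2
  have h3 := congrArg (fun z : E => (z : ℂ)) h2
  exact h3.symm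

/-- **(b)** the transcendence degree over the integers -/
theorem tr_int (hx : ∀ i, x i ≠ 0) (hAD : AD x) (Λ : Submodule ℤ (Fin n → ℤ)) :
    tr ℤ x Λ = rkZ x Λ := by
  have hL : CharZero L := charZero_of_injective_algebraMap (algebraMap ℂ L).injective
  rw [← tr_rkZ hx]
  apply le_antisymm
  · obtain ⟨a, ha, hai⟩ := exists_tr (R := ℤ) x (Λ : Set (Fin n → ℤ))
    exact le_tr a ha (ind_AD hx hAD hai)
  · obtain ⟨a, ha, hai⟩ := exists_tr (R := ℂ) x (Λ : Set (Fin n → ℤ))
    refine le_tr a ha ?_
    refine hai.restrictScalars (R := ℤ) (K := ℂ) ?_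
    exact (algebraMap ℤ ℂ).injective_int

end

/-! ### Points with the same relations in a block -/

section
variable {F F' : Type} [Field F] [Field F'] {n q : ℕ} {x : Fin n → F} {y : Fin n → F'}
  {blk : Fin n → Fin (q + 1)} {j : Fin (q + 1)}

theorem mn_one_out (x : Fin n → F) {a : Fin n → ℤ} (ha : a ∈ blL blk j) :
    mn (fun i => if blk i = j then x i else 1) a = mn x a := by
  rw [mn, mn]
  refine Finset.prod_congr rfl fun i _ => ?_
  by_cases h : blk i = j
  · rw [if_pos h]
  · rw [if_neg h, ha i h, zpow_zero, zpow_zero]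

theorem aeval_one_out (x : Fin n → F) (G : MvPolynomial (Fin n) ℤ) :
    ∃ G' : MvPolynomial (Fin n) ℤ, (∀ i ∈ G'.vars, blk i = j) ∧
      ∀ (F : Type) [Field F] (x : Fin n → F),
        aeval (fun i => if blk i = j then x i else 1) G = aeval x G' := by
  classical
  have _ := x
  refine ⟨bind₁ (fun i => if blk i = j then X i else 1) G, ?_, ?_⟩
  · intro i hi
    have h1 := vars_bind₁ (fun i => if blk i = j then (X i : MvPolynomial (Fin n) ℤ) else 1) G hi
    rw [Finset.mem_biUnion] at h1
    obtain ⟨i', -, hi'⟩ := h1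
    by_cases h : blk i' = j
    · rw [if_pos h, vars_X, Finset.mem_singleton] at hi'
      rw [hi']
      exact h
    · rw [if_neg h, vars_one] at hi'
      exact absurd hi' (Finset.notMem_empty _)
  · intro F _ x
    rw [aeval_bind₁]
    congr 2
    funext i
    split_ifs
    · rw [aeval_X]
    · rw [map_one]

/-- **(c)** the transcendence degree in a block depends only on the relations in the block -/
theorem tr_block (hx : ∀ i, x i ≠ 0) (hy : ∀ i, y i ≠ 0)
    (h : ∀ G : MvPolynomial (Fin n) ℤ, (∀ i ∈ G.vars, blk i = j) →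
      (aeval x G = 0 ↔ aeval y G = 0)) {S : Set (Fin n → ℤ)}
    (hS : ∀ a ∈ S, a ∈ blL blk j) : tr ℤ x S = tr ℤ y S := by
  have h1 : ∀ G : MvPolynomial (Fin n) ℤ,
      aeval (fun i => if blk i = j then x i else 1) G = 0 ↔
        aeval (fun i => if blk i = j then y i else 1) G = 0 := by
    intro G
    obtain ⟨G', hG', hG''⟩ := aeval_one_out (blk := blk) (j := j) x G
    rw [hG'' F x, hG'' F' y]
    exact h G' hG'
  have hx' : ∀ i, (if blk i = j then x i else 1) ≠ 0 := by
    intro i
    split_ifs
    · exact hx i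
    · exact one_ne_zero
  have hy' : ∀ i, (if blk i = j then y i else 1) ≠ 0 := by
    intro i
    split_ifs
    · exact hy i
    · exact one_ne_zero
  have h2 : ∀ (r : ℕ) (a : Fin r → Fin n → ℤ), (∀ i, a i ∈ S) →
      (AlgebraicIndependent ℤ (fun i => mn x (a i)) ↔
        AlgebraicIndependent ℤ (fun i => mn y (a i))) := by
    intro r a ha
    have e1 : (fun i => mn x (a i)) =
        fun i => mn (fun i => if blk i = j then x i else 1) (a i) :=
      funext fun i => (mn_one_out x (hS _ (ha i))).symm
    have e2 : (fun i => mn y (a i)) =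
        fun i => mn (fun i => if blk i = j then y i else 1) (a i) :=
      funext fun i => (mn_one_out y (hS _ (ha i))).symm
    rw [e1, e2, algebraicIndependent_iff, algebraicIndependent_iff]
    refine forall_congr' fun G => ?_
    rw [gen_mn hy' hx' h1 a G]
  rw [tr, tr]
  congr 1
  ext r
  constructor
  · rintro ⟨a, ha, hai⟩
    exact ⟨a, ha, (h2 r a ha).1 hai⟩
  · rintro ⟨a, ha, hai⟩
    exact ⟨a, ha, (h2 r a ha).2 hai⟩

end

end E

end Pool.Agent.ZP
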