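import Mathlib
import Pool.Agent.Lib.MP_c95b3b_ag_AX.Basic
import Pool.Agent.Lib.MP_c95b3b_ag_ZP.Defs
import Pool.Agent.Lib.MP_c95b3b_ag_ZP.GAx
import Pool.Agent.Lib.MP_c95b3b_ag_ZP.ERk

set_option autoImplicit false
set_option linter.unusedSectionVars false

/-! Project ZP (MP_c95b3b_ag), block CF: families which are determined differentially by
independent coordinates. -/

namespace Pool.Agent.ZP.E

open MvPolynomial Module Pool.Agent.SD Pool.Agent.ZP.GAx

section

variable {k K : Type} [Field k] [Field K] [Algebra k K] {n : ℕ}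

/-- relations which determine the coordinates outside `I` differentially -/
structure Rl (k : Type) {K : Type} [Field k] [Field K] [Algebra k K] {n q : ℕ} (x : Fin n → K)
    (I : Finset (Fin n)) (blk : Fin n → Fin (q + 1)) (f : Fin n → MvPolynomial (Fin n) k) :
    Prop where
  root : ∀ l, l ∉ I → aeval x (f l) = 0
  der : ∀ l, l ∉ I → aeval x (pderiv l (f l)) ≠ 0
  vars : ∀ l, l ∉ I → ∀ i ∈ (f l).vars, i = l ∨ (i ∈ I ∧ blk i = blk l)

/-- the coefficients of the differentials of the coordinates -/
noncomputable def cf (x : Fin n → K) (I : Finset (Fin n)) (f : Fin n → MvPolynomial (Fin n) k)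
    (l m : Fin n) : K :=
  if l ∈ I then (if l = m then 1 else 0) else
    -aeval x (pderiv m (f l)) / aeval x (pderiv l (f l))

variable {q : ℕ} {x : Fin n → K} {I : Finset (Fin n)} {blk : Fin n → Fin (q + 1)}
  {f : Fin n → MvPolynomial (Fin n) k}

theorem Rl.pd (h : Rl k x I blk f) {l m : Fin n} (hl : l ∉ I) (hm : m ≠ l)
    (hm' : m ∈ I → blk m ≠ blk l) : pderiv m (f l) = 0 := by
  refine pderiv_eq_zero_of_notMem_vars fun hv => ?_
  rcases h.vars l hl m hv with h1 | ⟨h1, h2⟩
  · exact hm h1
  · exact hm' h1 h2

theorem Rl.det (h : Rl k x I blk f) (D : Derivation k K K) (l : Fin n) :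
    D (x l) = ∑ m ∈ I, cf x I f l m * D (x m) := by
  classical
  by_cases hl : l ∈ I
  · simp only [cf, if_pos hl]
    rw [Finset.sum_eq_single l]
    · rw [if_pos rfl, one_mul]
    · intro m _ hm
      rw [if_neg (Ne.symm hm), zero_mul]
    · intro h
      exact absurd hl h
  · have h1 := der_aeval x D (f l)
    rw [h.root l hl, map_zero] at h1
    have h2 : ∑ j, aeval x (pderiv j (f l)) * D (x j) =
        aeval x (pderiv l (f l)) * D (x l) + ∑ m ∈ I, aeval x (pderiv m (f l)) * D (x m) := by
      rw [← Finset.add_sum_erase Finset.univ _ (Finset.mem_univ l)]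
      congr 1
      symm
      refine Finset.sum_subset ?_ ?_
      · intro m hm
        refine Finset.mem_erase.mpr ⟨?_, Finset.mem_univ _⟩
        rintro rfl
        exact hl hm
      · intro m hm hm'
        rw [h.pd hl (Finset.ne_of_mem_erase hm) fun h => absurd h hm', map_zero, zero_mul]
    rw [h2] at h1
    have h3 := h.der l hl
    have h4 : D (x l) = -(∑ m ∈ I, aeval x (pderiv m (f l)) * D (x m)) /
        aeval x (pderiv l (f l)) := by
      rw [eq_div_iff h3]
      linear_combination -h1
    rw [h4, ← Finset.sum_neg_distrib, Finset.sum_div]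
    refine Finset.sum_congr rfl fun m _ => ?_
    rw [cf, if_neg hl]
    ring

theorem Rl.cf_eq_zero (h : Rl k x I blk f) {l m : Fin n} (hm : m ∈ I) (hb : blk m ≠ blk l) :
    cf x I f l m = 0 := by
  by_cases hl : l ∈ I
  · rw [cf, if_pos hl, if_neg]
    rintro rfl
    exact hb rfl
  · rw [cf, if_neg hl, h.pd hl, map_zero, neg_zero, zero_div]
    · rintro rfl
      exact hl hm
    · exact fun _ => hb

/-- dual derivations -/
theorem exists_dual [CharZero k] (hI : AlgebraicIndependent k fun i : I => x i) :
    ∃ δ : Fin n → Derivation k K K, ∀ m ∈ I, ∀ i ∈ I, δ m (x i) = if m = i then 1 else 0 := by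
  classical
  obtain ⟨δ, hδ⟩ := LinAx.exists_der' _ hI
  refine ⟨fun m => if hm : m ∈ I then δ ⟨m, hm⟩ else 0, ?_⟩
  intro m hm i hi
  simp only [dif_pos hm]
  have := hδ ⟨m, hm⟩ ⟨i, hi⟩
  rw [this]
  by_cases h : m = i
  · subst h
    simp
  · rw [if_neg h, if_neg]
    intro h'
    exact h (congrArg Subtype.val h')

theorem sum_der_apply (s : Finset (Fin n)) (a : Fin n → K) (δ : Fin n → Derivation k K K)
    (y : K) : (∑ m ∈ s, a m • δ m) y = ∑ m ∈ s, a m * δ m y := by
  classical
  induction s using Finset.induction_on with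
  | empty => rw [Finset.sum_empty, Finset.sum_empty]; rfl
  | insert m s hm ih =>
    rw [Finset.sum_insert hm, Finset.sum_insert hm, Derivation.add_apply, ih]
    rfl

/-- the blocks are independent -/
theorem Rl.sep [CharZero k] (h : Rl k x I blk f) (hI : AlgebraicIndependent k fun i : I => x i) :
    Sep blk k x := by
  classical
  obtain ⟨δ, hδ⟩ := exists_dual hI
  intro D j
  set s := I.filter fun m => blk m = j with hs
  refine ⟨∑ m ∈ s, D (x m) • δ m, fun i => ?_⟩
  have hI' : ∀ m ∈ I, (∑ m' ∈ s, D (x m') • δ m') (x m) = if blk m = j then D (x m) else 0 := by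
    intro m hm
    rw [sum_der_apply]
    by_cases hb : blk m = j
    · rw [if_pos hb, Finset.sum_eq_single m]
      · rw [hδ m hm m hm, if_pos rfl, mul_one]
      · intro m' hm' hne
        rw [hδ m' (Finset.mem_filter.mp hm').1 m hm, if_neg hne, mul_zero]
      · intro hn
        exact absurd (Finset.mem_filter.mpr ⟨hm, hb⟩) hn
    · rw [if_neg hb]
      refine Finset.sum_eq_zero fun m' hm' => ?_
      obtain ⟨h1, h2⟩ := Finset.mem_filter.mp hm'
      rw [hδ m' h1 m hm, if_neg, mul_zero]
      rintro rfl
      exact hb h2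
  rw [h.det _ i]
  by_cases hi : blk i = j
  · rw [if_pos hi, h.det D i]
    refine Finset.sum_congr rfl fun m hm => ?_
    rw [hI' m hm]
    by_cases hb : blk m = j
    · rw [if_pos hb]
    · rw [if_neg hb, h.cf_eq_zero hm (by rw [hi]; exact hb), zero_mul, zero_mul]
  · rw [if_neg hi]
    refine Finset.sum_eq_zero fun m hm => ?_
    rw [hI' m hm]
    by_cases hb : blk m = j
    · rw [h.cf_eq_zero hm, zero_mul]
      rw [hb]
      exact Ne.symm hi
    · rw [if_neg hb, mul_zero]

/-- the vector of the coefficients of a form with respect to the differentials of the coordinates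
in `I` -/
noncomputable def row (r : ℝ →+* k) (x : Fin n → K) (I : Finset (Fin n))
    (f : Fin n → MvPolynomial (Fin n) k) (b : Fin n → ℝ) : I → K :=
  fun m => ∑ l, algebraMap k K (r (b l)) * (cf x I f l m / x l)

/-- the form with given coefficients -/
noncomputable def frm (k : Type) {K : Type} [Field k] [Field K] [Algebra k K] {n : ℕ}
    (x : Fin n → K) (I : Finset (Fin n)) : (I → K) →ₗ[K] (Derivation k K K →ₗ[K] K) where
  toFun R :=
    { toFun := fun D => ∑ m : I, R m * D (x m)
      map_add' := by
        intro D D'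
        rw [← Finset.sum_add_distrib]
        refine Finset.sum_congr rfl fun m _ => ?_
        rw [Derivation.add_apply, mul_add]
      map_smul' := by
        intro c D
        rw [RingHom.id_apply, smul_eq_mul, Finset.mul_sum]
        refine Finset.sum_congr rfl fun m _ => ?_
        rw [Derivation.smul_apply, smul_eq_mul]
        ring }
  map_add' := by
    intro R R'
    ext D
    simp only [LinearMap.coe_mk, AddHom.coe_mk, LinearMap.add_apply, Pi.add_apply, add_mul,
      Finset.sum_add_distrib]
  map_smul' := by
    intro c R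
    ext D
    simp only [LinearMap.coe_mk, AddHom.coe_mk, LinearMap.smul_apply, Pi.smul_apply, smul_eq_mul,
      RingHom.id_apply, Finset.mul_sum, mul_assoc]

theorem frm_apply (R : I → K) (D : Derivation k K K) :
    frm k x I R D = ∑ m : I, R m * D (x m) := rfl

theorem frm_inj [CharZero k] (hI : AlgebraicIndependent k fun i : I => x i) :
    Function.Injective (frm k x I) := by
  classical
  obtain ⟨δ, hδ⟩ := exists_dual hI
  rw [← LinearMap.ker_eq_bot, LinearMap.ker_eq_bot']
  intro R hR
  funext m
  have h1 := congrArg (fun φ : Derivation k K K →ₗ[K] K => φ (δ m)) hR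
  simp only [frm_apply, LinearMap.zero_apply] at h1
  rw [Finset.sum_eq_single m] at h1
  · rw [hδ m m.2 m m.2, if_pos rfl, mul_one] at h1
    exact h1
  · intro m' _ hne
    rw [hδ m m.2 m' m'.2, if_neg, mul_zero]
    intro h
    exact hne (Subtype.ext h).symm
  · intro h
    exact absurd (Finset.mem_univ _) h

theorem Rl.omk_eq (h : Rl k x I blk f) (r : ℝ →+* k) (b : Fin n → ℝ) :
    omk r x b = frm k x I (row r x I f b) := by
  ext D
  rw [omk_apply, frm_apply]
  have h1 : ∀ m : I, row r x I f b m * D (x m) =
      ∑ l, algebraMap k K (r (b l)) * (cf x I f l m * D (x m) / x l) := by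
    intro m
    rw [row, Finset.sum_mul]
    refine Finset.sum_congr rfl fun l _ => ?_
    ring
  rw [Finset.sum_congr rfl fun m _ => h1 m, Finset.sum_comm]
  refine Finset.sum_congr rfl fun l _ => ?_
  rw [h.det D l, ← Finset.mul_sum, ← Finset.sum_div]
  congr 2
  rw [← Finset.sum_coe_sort I fun m => cf x I f l m * D (x m)]

theorem Rl.linInd_iff [CharZero k] (h : Rl k x I blk f)
    (hI : AlgebraicIndependent k fun i : I => x i) (r : ℝ →+* k) {t : ℕ}
    (α : Fin t → Fin n → ℝ) : LinearIndependent K (fun i => omk r x (α i)) ↔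
      LinearIndependent K (fun i => row r x I f (α i)) := by
  have h1 : (fun i => omk r x (α i)) = frm k x I ∘ fun i => row r x I f (α i) := by
    funext i
    exact h.omk_eq r (α i)
  rw [h1, LinearMap.linearIndependent_iff _ (LinearMap.ker_eq_bot.mpr (frm_inj hI))]

end

/-- independent vectors in a flag -/
theorem exists_flag {K W A : Type} [Field K] [AddCommGroup W] [Module K W] (φ : A → W)
    (S1 S2 : Set A) (h12 : S1 ⊆ S2) (r1 r2 : ℕ) (hr : r1 ≤ r2)
    (h1 : r1 ≤ finrank K (Submodule.span K (φ '' S1)))
    (h2 : r2 ≤ finrank K (Submodule.span K (φ '' S2))) :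
    ∃ α : Fin r2 → A, (∀ i, α i ∈ S2) ∧ (∀ i : Fin r2, (i : ℕ) < r1 → α i ∈ S1) ∧
      LinearIndependent K (fun i => φ (α i)) := by
  classical
  have key : ∀ m : ℕ, m ≤ r2 → ∃ α : Fin m → A, (∀ i, α i ∈ S2) ∧
      (∀ i : Fin m, (i : ℕ) < r1 → α i ∈ S1) ∧ LinearIndependent K (fun i => φ (α i)) := by
    intro m
    induction m with
    | zero =>
      intro _
      exact ⟨Fin.elim0, fun i => i.elim0, fun i => i.elim0, linearIndependent_empty_type⟩
    | succ m ih =>
      intro hm
      obtain ⟨α, ha, hb, hc⟩ := ih (by omega)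
      have hS : ∃ s : A, s ∈ S2 ∧ (m < r1 → s ∈ S1) ∧
          φ s ∉ Submodule.span K (Set.range fun i => φ (α i)) := by
        by_contra hcon
        push Not at hcon
        set S : Set A := if m < r1 then S1 else S2 with hS
        have hle : m + 1 ≤ finrank K (Submodule.span K (φ '' S)) := by
          by_cases h : m < r1
          · rw [hS, if_pos h]
            omega
          · rw [hS, if_neg h]
            omega
        have h3 : Submodule.span K (φ '' S) ≤ Submodule.span K (Set.range fun i => φ (α i)) := by
          rw [Submodule.span_le]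
          rintro _ ⟨s, hs, rfl⟩
          rw [hS] at hs
          split_ifs at hs with h
          · exact hcon s (h12 hs) fun _ => hs
          · exact hcon s hs fun h' => absurd h' h
        have h4 : FiniteDimensional K (Submodule.span K (Set.range fun i => φ (α i))) :=
          FiniteDimensional.span_of_finite K (Set.finite_range _)
        have h5 := Submodule.finrank_mono h3
        have h6 := finrank_span_eq_card hc
        rw [Fintype.card_fin] at h6
        omega
      obtain ⟨s, hs1, hs2, hs3⟩ := hS
      refine ⟨Fin.snoc α s, ?_, ?_, ?_⟩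
      · intro i
        refine Fin.lastCases ?_ (fun i => ?_) i
        · rw [Fin.snoc_last]
          exact hs1
        · rw [Fin.snoc_castSucc]
          exact ha i
      · intro i
        refine Fin.lastCases ?_ (fun i => ?_) i
        · rw [Fin.snoc_last]
          exact hs2
        · rw [Fin.snoc_castSucc]
          exact hb i
      · have h7 : (fun i => φ ((Fin.snoc α s : Fin (m + 1) → A) i)) =
            (Fin.snoc (fun i => φ (α i)) (φ s) : Fin (m + 1) → W) := by
          funext i
          refine Fin.lastCases ?_ (fun i => ?_) i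
          · rw [Fin.snoc_last, Fin.snoc_last]
          · rw [Fin.snoc_castSucc, Fin.snoc_castSucc]
        rw [h7, linearIndependent_finSnoc]
        exact ⟨hc, hs3⟩
  exact key r2 le_rfl

end Pool.Agent.ZP.E
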