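import Mathlib

set_option autoImplicit false
set_option linter.unusedSectionVars false

/-! Project ZP (MP_c95b3b_ag), block E: ultrapowers of fields, transfer of algebraic and linear
independence. -/

namespace Pool.Agent.ZP.E

open MvPolynomial Filter Module

/-- the ultrapower -/
abbrev UP (𝓤 : Ultrafilter ℕ) (L : Type) : Type := Germ (𝓤 : Filter ℕ) L

/-- the class of a sequence -/
def cls (𝓤 : Ultrafilter ℕ) {L : Type} (f : ℕ → L) : UP 𝓤 L := (f : Germ (𝓤 : Filter ℕ) L)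

section

variable {𝓤 : Ultrafilter ℕ} {L : Type} [Field L]

/-- the class of a sequence, as a ring homomorphism -/
noncomputable def clsH (𝓤 : Ultrafilter ℕ) (L : Type) [Field L] : (ℕ → L) →+* UP 𝓤 L :=
  Germ.coeRingHom (𝓤 : Filter ℕ)

theorem clsH_apply (f : ℕ → L) : clsH 𝓤 L f = cls 𝓤 f := rfl

theorem cls_eq {f g : ℕ → L} : cls 𝓤 f = cls 𝓤 g ↔ ∀ᶠ ν in (𝓤 : Filter ℕ), f ν = g ν :=
  Germ.coe_eq

theorem cls_eq_zero {f : ℕ → L} : cls 𝓤 f = 0 ↔ ∀ᶠ ν in (𝓤 : Filter ℕ), f ν = 0 := by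
  rw [← map_zero (clsH 𝓤 L), clsH_apply, cls_eq]
  rfl

theorem cls_ne_zero {f : ℕ → L} : cls 𝓤 f ≠ 0 ↔ ∀ᶠ ν in (𝓤 : Filter ℕ), f ν ≠ 0 := by
  rw [Ne, cls_eq_zero, ← Ultrafilter.eventually_not]

theorem cls_surj (z : UP 𝓤 L) : ∃ f : ℕ → L, z = cls 𝓤 f := by
  induction z using Germ.inductionOn with
  | _ f => exact ⟨f, rfl⟩

theorem cls_mul (f g : ℕ → L) : cls 𝓤 (fun ν => f ν * g ν) = cls 𝓤 f * cls 𝓤 g := rfl

theorem cls_add (f g : ℕ → L) : cls 𝓤 (fun ν => f ν + g ν) = cls 𝓤 f + cls 𝓤 g := rfl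

theorem cls_pow (f : ℕ → L) (m : ℕ) : cls 𝓤 (fun ν => f ν ^ m) = cls 𝓤 f ^ m := rfl

theorem cls_sum {ι : Type} (s : Finset ι) (f : ι → ℕ → L) :
    cls 𝓤 (fun ν => ∑ i ∈ s, f i ν) = ∑ i ∈ s, cls 𝓤 (f i) := by
  have h : (fun ν => ∑ i ∈ s, f i ν) = ∑ i ∈ s, f i := by
    funext ν
    rw [Finset.sum_apply]
  rw [h, ← clsH_apply, map_sum]
  rfl

theorem cls_prod {ι : Type} (s : Finset ι) (f : ι → ℕ → L) :
    cls 𝓤 (fun ν => ∏ i ∈ s, f i ν) = ∏ i ∈ s, cls 𝓤 (f i) := by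
  have h : (fun ν => ∏ i ∈ s, f i ν) = ∏ i ∈ s, f i := by
    funext ν
    rw [Finset.prod_apply]
  rw [h, ← clsH_apply, map_prod]
  rfl

theorem cls_inv (f : ℕ → L) : cls 𝓤 (fun ν => (f ν)⁻¹) = (cls 𝓤 f)⁻¹ := rfl

theorem cls_div (f g : ℕ → L) : cls 𝓤 (fun ν => f ν / g ν) = cls 𝓤 f / cls 𝓤 g := rfl

theorem cls_zpow (f : ℕ → L) (m : ℤ) : cls 𝓤 (fun ν => f ν ^ m) = cls 𝓤 f ^ m := by
  rcases m with m | m
  · rw [Int.ofNat_eq_natCast]
    simp only [zpow_natCast]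
    exact cls_pow f m
  · simp only [zpow_negSucc]
    rw [cls_inv, cls_pow]

theorem cls_neg (f : ℕ → L) : cls 𝓤 (fun ν => - f ν) = - cls 𝓤 f := rfl

theorem cls_one : cls 𝓤 (fun _ => (1 : L)) = 1 := rfl

/-- the constants -/
noncomputable def mapH (𝓤 : Ultrafilter ℕ) (L : Type) [Field L] [Algebra ℂ L] :
    UP 𝓤 ℂ →+* UP 𝓤 L where
  toFun := Germ.map (algebraMap ℂ L)
  map_one' := by
    change Germ.map (algebraMap ℂ L) (cls 𝓤 fun _ => (1 : ℂ)) = cls 𝓤 fun _ => (1 : L)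
    change cls 𝓤 (fun _ => algebraMap ℂ L 1) = _
    rw [cls_eq]
    exact Eventually.of_forall fun _ => map_one _
  map_zero' := by
    change cls 𝓤 (fun _ => algebraMap ℂ L 0) = cls 𝓤 fun _ => (0 : L)
    rw [cls_eq]
    exact Eventually.of_forall fun _ => map_zero _
  map_add' := by
    intro a b
    obtain ⟨f, rfl⟩ := cls_surj a
    obtain ⟨g, rfl⟩ := cls_surj b
    change cls 𝓤 (fun ν => algebraMap ℂ L (f ν + g ν)) =
      cls 𝓤 fun ν => algebraMap ℂ L (f ν) + algebraMap ℂ L (g ν)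
    rw [cls_eq]
    exact Eventually.of_forall fun _ => map_add _ _ _
  map_mul' := by
    intro a b
    obtain ⟨f, rfl⟩ := cls_surj a
    obtain ⟨g, rfl⟩ := cls_surj b
    change cls 𝓤 (fun ν => algebraMap ℂ L (f ν * g ν)) =
      cls 𝓤 fun ν => algebraMap ℂ L (f ν) * algebraMap ℂ L (g ν)
    rw [cls_eq]
    exact Eventually.of_forall fun _ => map_mul _ _ _

theorem mapH_cls [Algebra ℂ L] (f : ℕ → ℂ) :
    mapH 𝓤 L (cls 𝓤 f) = cls 𝓤 fun ν => algebraMap ℂ L (f ν) := rfl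

/-- the ultrapower is an algebra over the ultrapower of the complex numbers -/
noncomputable abbrev algUP (𝓤 : Ultrafilter ℕ) (L : Type) [Field L] [Algebra ℂ L] :
    Algebra (UP 𝓤 ℂ) (UP 𝓤 L) := (mapH 𝓤 L).toAlgebra

/-- real numbers as constants -/
noncomputable def rH (𝓤 : Ultrafilter ℕ) : ℝ →+* UP 𝓤 ℂ :=
  (clsH 𝓤 ℂ).comp ((Pi.constRingHom ℕ ℂ).comp Complex.ofRealHom)

theorem rH_apply (b : ℝ) : rH 𝓤 b = cls 𝓤 fun _ => (b : ℂ) := rfl

attribute [local instance] algUP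

theorem algebraMap_cls [Algebra ℂ L] (f : ℕ → ℂ) :
    algebraMap (UP 𝓤 ℂ) (UP 𝓤 L) (cls 𝓤 f) = cls 𝓤 fun ν => algebraMap ℂ L (f ν) := rfl

/-! ### Polynomials -/

/-- the polynomial with the coefficients of the polynomials `F ν` in `T` -/
noncomputable def glue (𝓤 : Ultrafilter ℕ) {σ : Type} (T : Finset (σ →₀ ℕ))
    (F : ℕ → MvPolynomial σ ℂ) : MvPolynomial σ (UP 𝓤 ℂ) :=
  ∑ m ∈ T, monomial m (cls 𝓤 fun ν => coeff m (F ν))

theorem eq_sum_of_support {σ : Type} {T : Finset (σ →₀ ℕ)} {F : MvPolynomial σ ℂ}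
    (h : F.support ⊆ T) : F = ∑ m ∈ T, monomial m (coeff m F) := by
  classical
  conv_lhs => rw [F.as_sum]
  refine Finset.sum_subset h fun m _ hm => ?_
  rw [MvPolynomial.notMem_support_iff.mp hm, monomial_zero]

theorem aeval_glue [Algebra ℂ L] {σ : Type} [Fintype σ] (T : Finset (σ →₀ ℕ))
    (F : ℕ → MvPolynomial σ ℂ) (h : ∀ᶠ ν in (𝓤 : Filter ℕ), (F ν).support ⊆ T) (x : ℕ → σ → L) :
    aeval (fun i => cls 𝓤 fun ν => x ν i) (glue 𝓤 T F) = cls 𝓤 fun ν => aeval (x ν) (F ν) := by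
  classical
  rw [glue, map_sum]
  have h1 : (cls 𝓤 fun ν => aeval (x ν) (F ν)) =
      cls 𝓤 fun ν => ∑ m ∈ T, algebraMap ℂ L (coeff m (F ν)) * ∏ i, x ν i ^ m i := by
    rw [cls_eq]
    filter_upwards [h] with ν hν
    conv_lhs => rw [eq_sum_of_support hν]
    rw [map_sum]
    refine Finset.sum_congr rfl fun m _ => ?_
    rw [aeval_monomial, Finsupp.prod_fintype _ _ fun i => pow_zero _]
  rw [h1, cls_sum]
  refine Finset.sum_congr rfl fun m _ => ?_
  rw [aeval_monomial, Finsupp.prod_fintype _ _ fun i => pow_zero _, algebraMap_cls, cls_mul,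
    cls_prod]
  rfl

theorem aeval_pderiv_glue [Algebra ℂ L] {σ : Type} [Fintype σ] [DecidableEq σ]
    (T : Finset (σ →₀ ℕ)) (F : ℕ → MvPolynomial σ ℂ)
    (h : ∀ᶠ ν in (𝓤 : Filter ℕ), (F ν).support ⊆ T) (x : ℕ → σ → L) (l : σ) :
    aeval (fun i => cls 𝓤 fun ν => x ν i) (pderiv l (glue 𝓤 T F)) =
      cls 𝓤 fun ν => aeval (x ν) (pderiv l (F ν)) := by
  rw [glue, map_sum, map_sum]
  have h1 : (cls 𝓤 fun ν => aeval (x ν) (pderiv l (F ν))) =
      cls 𝓤 fun ν => ∑ m ∈ T, algebraMap ℂ L (coeff m (F ν) * (m l : ℂ)) *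
        ∏ i, x ν i ^ (m - Finsupp.single l 1 : σ →₀ ℕ) i := by
    rw [cls_eq]
    filter_upwards [h] with ν hν
    conv_lhs => rw [eq_sum_of_support hν]
    rw [map_sum, map_sum]
    refine Finset.sum_congr rfl fun m _ => ?_
    rw [pderiv_monomial, aeval_monomial, Finsupp.prod_fintype _ _ fun i => pow_zero _]
  rw [h1, cls_sum]
  refine Finset.sum_congr rfl fun m _ => ?_
  have h2 : (cls 𝓤 fun ν => coeff m (F ν)) * ((m l : ℕ) : UP 𝓤 ℂ) =
      cls 𝓤 fun ν => coeff m (F ν) * (m l : ℂ) := rfl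
  rw [pderiv_monomial, aeval_monomial, Finsupp.prod_fintype _ _ fun i => pow_zero _, h2,
    algebraMap_cls, cls_mul, cls_prod]
  rfl

/-- algebraic independence of almost all members of a sequence implies algebraic independence in
the ultrapower -/
theorem algInd_cls [Algebra ℂ L] {σ : Type} [Fintype σ] (x : ℕ → σ → L)
    (h : ∀ᶠ ν in (𝓤 : Filter ℕ), AlgebraicIndependent ℂ (x ν)) :
    AlgebraicIndependent (UP 𝓤 ℂ) (fun i => cls 𝓤 fun ν => x ν i) := by
  classical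
  rw [algebraicIndependent_iff]
  intro F hF
  choose c hc using fun m : σ →₀ ℕ => cls_surj (coeff m F)
  set G : ℕ → MvPolynomial σ ℂ := fun ν => ∑ m ∈ F.support, monomial m (c m ν) with hG
  have hcoeff : ∀ ν, ∀ m, coeff m (G ν) = if m ∈ F.support then c m ν else 0 := by
    intro ν m
    rw [hG]
    simp only [coeff_sum, coeff_monomial]
    by_cases hm : m ∈ F.support
    · rw [if_pos hm, Finset.sum_eq_single m]
      · rw [if_pos rfl]
      · intro b _ hb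
        rw [if_neg hb]
      · intro h
        exact absurd hm h
    · rw [if_neg hm]
      refine Finset.sum_eq_zero fun b hb => ?_
      rw [if_neg]
      rintro rfl
      exact hm hb
  have hsup : ∀ᶠ ν in (𝓤 : Filter ℕ), (G ν).support ⊆ F.support := by
    refine Eventually.of_forall fun ν m hm => ?_
    by_contra hm'
    rw [MvPolynomial.mem_support_iff, hcoeff, if_neg hm'] at hm
    exact hm rfl
  have hFG : F = glue 𝓤 F.support G := by
    rw [glue]
    conv_lhs => rw [F.as_sum]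
    refine Finset.sum_congr rfl fun m hm => ?_
    rw [hc m]
    congr 2
    funext ν
    rw [hcoeff, if_pos hm]
  rw [hFG, aeval_glue _ _ hsup x, cls_eq_zero] at hF
  have h0 : ∀ᶠ ν in (𝓤 : Filter ℕ), G ν = 0 := by
    filter_upwards [hF, h] with ν h1 h2
    exact (algebraicIndependent_iff.mp h2) _ h1
  ext m
  rw [coeff_zero, hc m, cls_eq_zero]
  by_cases hm : m ∈ F.support
  · filter_upwards [h0] with ν hν
    have := hcoeff ν m
    rw [hν, coeff_zero, if_pos hm] at this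
    exact this.symm
  · rw [MvPolynomial.notMem_support_iff, hc m, cls_eq_zero] at hm
    exact hm

/-- linear independence in the ultrapower implies linear independence of almost all members of the
sequence -/
theorem linInd_of_cls {t : ℕ} {κ : Type} [Fintype κ] (R : ℕ → Fin t → κ → L)
    (h : LinearIndependent (UP 𝓤 L) (fun i => fun m => cls 𝓤 fun ν => R ν i m)) :
    ∀ᶠ ν in (𝓤 : Filter ℕ), LinearIndependent L (R ν) := by
  classical
  by_contra hcon
  rw [← Ultrafilter.eventually_not] at hcon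
  have h1 : ∀ ν, ∃ g : Fin t → L, ¬ LinearIndependent L (R ν) →
      (∑ i, g i • R ν i = 0 ∧ ∃ i, g i ≠ 0) := by
    intro ν
    by_cases hν : LinearIndependent L (R ν)
    · exact ⟨0, fun h => absurd hν h⟩
    · rw [Fintype.linearIndependent_iff] at hν
      push Not at hν
      obtain ⟨g, hg, i, hi⟩ := hν
      exact ⟨g, fun _ => ⟨hg, i, hi⟩⟩
  choose g hg using h1
  have h2 : ∃ i0 : Fin t, ∀ᶠ ν in (𝓤 : Filter ℕ), g ν i0 ≠ 0 := by
    by_contra hno
    rw [not_exists] at hno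
    have h3 : ∀ i, ∀ᶠ ν in (𝓤 : Filter ℕ), g ν i = 0 := by
      intro i
      have := hno i
      rwa [← Ultrafilter.eventually_not, eventually_congr (Eventually.of_forall fun ν => not_not)]
        at this
    have h4 := (eventually_all.mpr h3).and hcon
    obtain ⟨ν, h5, h6⟩ := h4.exists
    obtain ⟨-, i, hi⟩ := hg ν h6
    exact hi (h5 i)
  obtain ⟨i0, hi0⟩ := h2
  rw [Fintype.linearIndependent_iff] at h
  have h3 := h (fun i => cls 𝓤 fun ν => g ν i) (by
    funext m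
    rw [Finset.sum_apply]
    simp only [Pi.smul_apply, smul_eq_mul, Pi.zero_apply]
    have h5 : ∑ i, (cls 𝓤 fun ν => g ν i) * (cls 𝓤 fun ν => R ν i m) =
        cls 𝓤 fun ν => ∑ i, g ν i * R ν i m := by
      rw [cls_sum]
      rfl
    rw [h5, cls_eq_zero]
    filter_upwards [hcon] with ν hν
    have h6 := congrFun (hg ν hν).1 m
    rw [Finset.sum_apply] at h6
    exact h6) i0
  rw [cls_eq_zero] at h3
  obtain ⟨ν, h4, h5⟩ := (hi0.and h3).exists
  exact h4 h5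

end

end Pool.Agent.ZP.E
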