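import Mathlib
import Pool.Agent.Lib.MP_c95b3b_ag_ZP.ELos
import Pool.Agent.Lib.MP_c95b3b_ag_ZP.CF3A

set_option autoImplicit false
set_option linter.unusedSectionVars false

/-! Project ZP (MP_c95b3b_ag), block CF: the relations of the branches in the ultrapower. -/

namespace Pool.Agent.ZP.E

open MvPolynomial Module Filter Pool.Agent.SD Pool.Agent.ZP.GAx

section

variable {𝓤 : Ultrafilter ℕ} {L : Type} [Field L] [Algebra ℂ L] {n q : ℕ}
  {x : ℕ → Fin n → L} {I : Finset (Fin n)} {blk : Fin n → Fin (q + 1)}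
  {F : ℕ → Fin n → MvPolynomial (Fin n) ℂ} {T : Finset (Fin n →₀ ℕ)}

attribute [local instance] algUP

theorem coeff_glue (T : Finset (Fin n →₀ ℕ)) (G : ℕ → MvPolynomial (Fin n) ℂ) (m : Fin n →₀ ℕ) :
    coeff m (glue 𝓤 T G) = if m ∈ T then cls 𝓤 fun ν => coeff m (G ν) else 0 := by
  classical
  rw [glue]
  simp only [coeff_sum, coeff_monomial]
  by_cases hm : m ∈ T
  · rw [if_pos hm, Finset.sum_eq_single m]
    · rw [if_pos rfl]
    · intro b _ hb
      rw [if_neg hb]
    · intro h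
      exact absurd hm h
  · rw [if_neg hm]
    refine Finset.sum_eq_zero fun b hb => ?_
    rw [if_neg]
    rintro rfl
    exact hm hb

/-- the relations hold in the ultrapower -/
theorem rl_glue (hT : ∀ᶠ ν in (𝓤 : Filter ℕ), ∀ l, l ∉ I → (F ν l).support ⊆ T)
    (h : ∀ᶠ ν in (𝓤 : Filter ℕ), Rl ℂ (x ν) I blk (F ν)) :
    Rl (UP 𝓤 ℂ) (fun i => cls 𝓤 fun ν => x ν i) I blk
      (fun l => glue 𝓤 T fun ν => F ν l) := by
  classical
  constructor
  · intro l hl
    rw [aeval_glue _ _ (hT.mono fun ν h => h l hl) x, cls_eq_zero]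
    filter_upwards [h] with ν hν
    exact hν.root l hl
  · intro l hl
    rw [aeval_pderiv_glue _ _ (hT.mono fun ν h => h l hl) x, cls_ne_zero]
    filter_upwards [h] with ν hν
    exact hν.der l hl
  · intro l hl i hi
    rw [mem_vars_iff_mem_support] at hi
    obtain ⟨m, hm, hmi⟩ := hi
    rw [MvPolynomial.mem_support_iff, coeff_glue] at hm
    split_ifs at hm with hmT
    · rw [cls_ne_zero] at hm
      obtain ⟨ν, h1, h2⟩ := (hm.and h).exists
      refine h2.vars l hl i ?_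
      rw [mem_vars_iff_mem_support]
      exact ⟨m, MvPolynomial.mem_support_iff.mpr h1, hmi⟩
    · exact absurd rfl hm

theorem cf_glue (hT : ∀ᶠ ν in (𝓤 : Filter ℕ), ∀ l, l ∉ I → (F ν l).support ⊆ T) (l m : Fin n) :
    cf (fun i => cls 𝓤 fun ν => x ν i) I (fun l => glue 𝓤 T fun ν => F ν l) l m =
      cls 𝓤 fun ν => cf (x ν) I (F ν) l m := by
  classical
  unfold cf
  by_cases hl : l ∈ I
  · simp only [if_pos hl]
    by_cases hm : l = m
    · simp only [if_pos hm]
      rfl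
    · simp only [if_neg hm]
      rfl
  · simp only [if_neg hl]
    rw [aeval_pderiv_glue _ _ (hT.mono fun ν h => h l hl) x,
      aeval_pderiv_glue _ _ (hT.mono fun ν h => h l hl) x, cls_div, cls_neg]

theorem row_glue (hT : ∀ᶠ ν in (𝓤 : Filter ℕ), ∀ l, l ∉ I → (F ν l).support ⊆ T)
    (b : Fin n → ℝ) (m : I) :
    row (rH 𝓤) (fun i => cls 𝓤 fun ν => x ν i) I (fun l => glue 𝓤 T fun ν => F ν l) b m =
      cls 𝓤 fun ν => row Complex.ofRealHom (x ν) I (F ν) b m := by
  unfold row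
  rw [cls_sum]
  refine Finset.sum_congr rfl fun l _ => ?_
  rw [cf_glue hT, rH_apply, algebraMap_cls, cls_mul, cls_div]
  rfl

theorem charZero_UP (𝓤 : Ultrafilter ℕ) : CharZero (UP 𝓤 ℂ) :=
  charZero_of_injective_ringHom (rH 𝓤).injective

theorem om_eq_omk (y : Fin n → L) (b : Fin n → ℝ) : om y b = omk Complex.ofRealHom y b := rfl

/-- forms which are independent in the ultrapower are independent at almost all members of the
sequence -/
theorem om_indep (hT : ∀ᶠ ν in (𝓤 : Filter ℕ), ∀ l, l ∉ I → (F ν l).support ⊆ T)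
    (h : ∀ᶠ ν in (𝓤 : Filter ℕ), Rl ℂ (x ν) I blk (F ν))
    (hI : ∀ᶠ ν in (𝓤 : Filter ℕ), AlgebraicIndependent ℂ fun i : I => x ν i) {t : ℕ}
    (α : Fin t → Fin n → ℝ)
    (hα : LinearIndependent (UP 𝓤 L)
      (fun i => omk (rH 𝓤) (fun i => cls 𝓤 fun ν => x ν i) (α i))) :
    ∀ᶠ ν in (𝓤 : Filter ℕ), LinearIndependent L (fun i => om (x ν) (α i)) := by
  have hch := charZero_UP 𝓤
  have hI' : AlgebraicIndependent (UP 𝓤 ℂ) fun i : I => cls 𝓤 fun ν => x ν i :=
    algInd_cls (fun ν (i : I) => x ν i) hI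
  rw [(rl_glue hT h).linInd_iff hI' (rH 𝓤) α] at hα
  have h1 : (fun i => row (rH 𝓤) (fun i => cls 𝓤 fun ν => x ν i) I
      (fun l => glue 𝓤 T fun ν => F ν l) (α i)) = fun i => fun m => cls 𝓤 fun ν =>
        row Complex.ofRealHom (x ν) I (F ν) (α i) m := by
    funext i m
    exact row_glue hT (α i) m
  rw [h1] at hα
  have h2 := linInd_of_cls (fun ν i => row Complex.ofRealHom (x ν) I (F ν) (α i)) hα
  filter_upwards [h2, h, hI] with ν h3 h4 h5
  have h6 := (h4.linInd_iff h5 Complex.ofRealHom α).mpr h3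
  exact h6

/-- integral relations in the ultrapower -/
theorem aeval_int (G : MvPolynomial (Fin n) ℤ) :
    aeval (fun i => cls 𝓤 fun ν => x ν i) G = cls 𝓤 fun ν => aeval (x ν) G := by
  have h1 : ∀ (R : Type) [CommRing R] (y : Fin n → R), aeval y G =
      ∑ m ∈ G.support, ((coeff m G : ℤ) : R) * ∏ i, y i ^ m i := by
    intro R _ y
    conv_lhs => rw [G.as_sum]
    rw [map_sum]
    refine Finset.sum_congr rfl fun m _ => ?_
    rw [aeval_monomial, Finsupp.prod_fintype _ _ fun i => pow_zero _]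
    rfl
  rw [h1]
  have h2 : (cls 𝓤 fun ν => aeval (x ν) G) =
      cls 𝓤 fun ν => ∑ m ∈ G.support, ((coeff m G : ℤ) : L) * ∏ i, x ν i ^ m i := by
    rw [cls_eq]
    exact Eventually.of_forall fun ν => h1 L (x ν)
  rw [h2, cls_sum]
  refine Finset.sum_congr rfl fun m _ => ?_
  have h3 : ((coeff m G : ℤ) : UP 𝓤 L) = cls 𝓤 fun _ => ((coeff m G : ℤ) : L) := by
    rw [← clsH_apply]
    have : (fun _ : ℕ => ((coeff m G : ℤ) : L)) = ((coeff m G : ℤ) : ℕ → L) := rfl
    rw [this, map_intCast]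
  rw [h3, cls_mul, cls_prod]
  rfl

end

end Pool.Agent.ZP.E
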