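import Mathlib
import Pool.Agent.Lib.MP_c95b3b_ag_ZP.CF3B

set_option autoImplicit false

/-! Project ZP (MP_c95b3b_ag), block CF: the complex branches satisfy the relations of the
closures, and their coordinates in `I` are algebraically independent. -/

namespace Pool.Agent.ZP.E

open MvPolynomial Module Filter Topology Pool.Agent.SD Pool.Agent.AL

/-- the series `c i + X i` are algebraically independent -/
theorem ind_ps {n : ℕ} (c : Fin n → ℂ) :
    AlgebraicIndependent ℂ (fun i => algebraMap (MvPowerSeries (Fin n) ℂ) (FC n)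
      (MvPowerSeries.C (c i) + MvPowerSeries.X i)) := by
  have h1 : AlgebraicIndependent ℂ (fun i => (C (c i) + X i : MvPolynomial (Fin n) ℂ)) := by
    rw [algebraicIndependent_iff]
    intro F hF
    have h2 : aeval (fun i => (X i - C (c i) : MvPolynomial (Fin n) ℂ))
        (aeval (fun i => (C (c i) + X i : MvPolynomial (Fin n) ℂ)) F) = F := by
      rw [← AlgHom.comp_apply]
      have h3 : (aeval (fun i => (X i - C (c i) : MvPolynomial (Fin n) ℂ))).comp
          (aeval (fun i => (C (c i) + X i : MvPolynomial (Fin n) ℂ))) =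
          AlgHom.id ℂ (MvPolynomial (Fin n) ℂ) := by
        ext i
        simp [algHom_C]
      rw [h3]
      rfl
    rw [← h2, hF, map_zero]
  let φ : MvPolynomial (Fin n) ℂ →ₐ[ℂ] FC n :=
    ((IsScalarTower.toAlgHom ℂ (MvPowerSeries (Fin n) ℂ) (FC n)).comp
      (coeToMvPowerSeries.algHom (σ := Fin n) (R := ℂ) ℂ))
  have hφ : Function.Injective φ := by
    intro a b hab
    have h4 := IsFractionRing.injective (MvPowerSeries (Fin n) ℂ) (FC n) hab
    simpa using h4
  have h5 := h1.map' (f := φ) hφ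
  have h6 : (φ ∘ fun i => (C (c i) + X i : MvPolynomial (Fin n) ℂ)) =
      fun i => algebraMap (MvPowerSeries (Fin n) ℂ) (FC n)
        (MvPowerSeries.C (c i) + MvPowerSeries.X i) := by
    funext i
    simp [φ]
  rw [h6] at h5
  exact h5

section

variable {𝓤 : Ultrafilter ℕ} {n q : ℕ} {c : Cfg 𝓤 n q} (cl : Cl c)

theorem xi_ind : ∀ᶠ ν in (𝓤 : Filter ℕ), AlgebraicIndependent ℂ fun i : cl.I => cl.xi ν i := by
  filter_upwards [cl.br] with ν hν
  have h1 := (ind_ps fun i => c.e ν (c.S.p ν i)).comp (fun i : cl.I => (i : Fin n))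
    Subtype.val_injective
  have h2 : (fun i : cl.I => cl.xi ν i) = (fun i => algebraMap (MvPowerSeries (Fin n) ℂ) (FC n)
      (MvPowerSeries.C (c.e ν (c.S.p ν i)) + MvPowerSeries.X i)) ∘
        (fun i : cl.I => (i : Fin n)) := by
    funext i
    rw [Function.comp_apply, Cl.xi, hν.free i i.2, map_add, MvPowerSeries.map_C,
      MvPowerSeries.map_X]
  rw [h2]
  exact h1

/-- values of integral polynomials -/
theorem aeval_hom {R F : Type} [CommRing R] [Algebra ℤ R] [Field F] (φ : R →+* F) (y : Fin n → R)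
    (G : MvPolynomial (Fin n) ℤ) : aeval (fun i => φ (y i)) G = φ (aeval y G) := by
  have h2 : (aeval (fun i => φ (y i)) : MvPolynomial (Fin n) ℤ →ₐ[ℤ] F).toRingHom =
      φ.comp (aeval y : MvPolynomial (Fin n) ℤ →ₐ[ℤ] _).toRingHom := by
    refine MvPolynomial.ringHom_ext ?_ ?_
    · intro r
      simp
    · intro i
      simp
  exact congrArg (fun ψ : MvPolynomial (Fin n) ℤ →+* F => ψ G) h2

/-- the embedding of the power series over `K ν` in the field of the complex branches -/
noncomputable def toFC (c : Cfg 𝓤 n q) (ν : ℕ) : MvPowerSeries (Fin n) (c.S.K ν) →+* FC n :=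
  (algebraMap (MvPowerSeries (Fin n) ℂ) (FC n)).comp (MvPowerSeries.map (c.e ν))

theorem toFC_eq_zero (ν : ℕ) (f : MvPowerSeries (Fin n) (c.S.K ν)) :
    toFC c ν f = 0 ↔ f = 0 := by
  constructor
  · intro h
    have h1 := (map_eq_zero_iff _ (IsFractionRing.injective (MvPowerSeries (Fin n) ℂ)
      (FC n))).mp h
    ext γ
    have h1' : MvPowerSeries.map (c.e ν) f = 0 := h1
    have h2 := congrArg (MvPowerSeries.coeff γ) h1'
    rw [MvPowerSeries.coeff_map, map_zero] at h2
    rw [map_zero]
    exact (map_eq_zero_iff _ (c.e ν).injective).mp h2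
  · intro h
    rw [h, map_zero]

theorem xi_eq (ν : ℕ) : cl.xi ν = fun i => toFC c ν (cl.Ξ ν i) := rfl

theorem const_aeval {ν : ℕ} {K : Type} [Field K] {P : Fin n → K}
    {Ξ : Fin n → MvPowerSeries (Fin n) K}
    (h : ∀ i, MvPowerSeries.constantCoeff (Ξ i) = P i) (G : MvPolynomial (Fin n) ℤ) :
    MvPowerSeries.constantCoeff (aeval Ξ G) = aeval P G := by
  have _ := ν
  have h2 : ((MvPowerSeries.constantCoeff (σ := Fin n) (R := K)).comp
      (aeval Ξ : MvPolynomial (Fin n) ℤ →ₐ[ℤ] _).toRingHom) =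
      (aeval P : MvPolynomial (Fin n) ℤ →ₐ[ℤ] K).toRingHom := by
    refine MvPolynomial.ringHom_ext ?_ ?_
    · intro r
      simp
    · intro i
      simp [h]
  exact congrArg (fun ψ : MvPolynomial (Fin n) ℤ →+* K => ψ G) h2

theorem aeval_map_int {F : Type} [Field F] [Algebra ℂ F] (y : Fin n → F)
    (G : MvPolynomial (Fin n) ℤ) :
    aeval y (MvPolynomial.map (Int.castRingHom ℂ) G) = aeval y G := by
  rw [aeval_def, eval₂_map, aeval_def]
  congr 1
  exact RingHom.ext_int _ _

/-- the relations of the closure hold for the complex branches -/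
theorem xi_rl : ∀ᶠ ν in (𝓤 : Filter ℕ), Rl ℂ (cl.xi ν) cl.I c.blk
    (fun l => MvPolynomial.map (Int.castRingHom ℂ) (cl.g ν l)) := by
  filter_upwards [cl.br, cl.rel] with ν h1 h2
  constructor
  · intro l hl
    rw [aeval_map_int, xi_eq, aeval_hom, toFC_eq_zero]
    exact h1.rel l hl
  · intro l hl
    rw [pderiv_map, aeval_map_int, Ne, xi_eq, aeval_hom, toFC_eq_zero]
    intro h3
    have h4 := const_aeval (ν := ν) h1.const (pderiv l (cl.g ν l))
    rw [h3, map_zero] at h4
    exact h2.1.der l hl h4.symm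
  · intro l hl i hi
    exact h2.1.vars l hl i (vars_map _ _ hi)

/-- a finite set which contains the supports of the relations -/
theorem xi_sup : ∀ᶠ ν in (𝓤 : Filter ℕ), ∀ l, l ∉ cl.I →
    (MvPolynomial.map (Int.castRingHom ℂ) (cl.g ν l)).support ⊆
      Finset.Icc (0 : Fin n →₀ ℕ) (Finsupp.equivFunOnFinite.symm fun _ => cl.d) := by
  filter_upwards [cl.rel] with ν h2 l hl m hm
  rw [Finset.mem_Icc]
  refine ⟨fun i => Nat.zero_le _, fun i => ?_⟩
  have h3 : m ∈ (cl.g ν l).support := support_map_subset _ _ hm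
  exact (monomial_le_degreeOf i h3).trans ((h2.2 l hl).1 i)

end

end Pool.Agent.ZP.E
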