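import Mathlib
import Pool.Agent.Lib.MP_c95b3b_ag_ZP.CB

set_option autoImplicit false

/-! Project ZP, block CL, module Hold: small relations between the coordinates of one block at the
points hold on the branches. -/

namespace Pool.Agent.ZP

open Pool.Agent.L3 Pool.Agent.KP Pool.Agent.AL Pool.Agent.SD Module MvPolynomial

namespace Hold

/-- power series whose exponents are supported in the block `j` -/
def blS {K : Type} [Field K] {n q : ℕ} (blk : Fin n → Fin (q + 1)) (j : Fin (q + 1)) :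
    Subring (MvPowerSeries (Fin n) K) where
  carrier := {f | ∀ γ : Fin n →₀ ℕ, (∃ i, blk i ≠ j ∧ γ i ≠ 0) → MvPowerSeries.coeff γ f = 0}
  mul_mem' := by
    classical
    rintro f g hf hg γ ⟨i, hi, hγ⟩
    rw [MvPowerSeries.coeff_mul]
    refine Finset.sum_eq_zero fun p hp => ?_
    have h1 : p.1 i + p.2 i = γ i := by
      rw [← Finset.HasAntidiagonal.mem_antidiagonal.1 hp]
      rfl
    by_cases h2 : p.1 i = 0
    · have h3 : p.2 i ≠ 0 := by
        intro h
        exact hγ (by rw [← h1, h2, h])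
      rw [hg p.2 ⟨i, hi, h3⟩, mul_zero]
    · rw [hf p.1 ⟨i, hi, h2⟩, zero_mul]
  one_mem' := by
    classical
    rintro γ ⟨i, hi, hγ⟩
    rw [MvPowerSeries.coeff_one, if_neg]
    rintro rfl
    exact hγ rfl
  add_mem' := by
    rintro f g hf hg γ h
    rw [map_add, hf γ h, hg γ h, add_zero]
  zero_mem' := by
    rintro γ _
    exact map_zero _
  neg_mem' := by
    rintro f hf γ h
    rw [map_neg, hf γ h, neg_zero]

theorem aeval_mem {K : Type} [Field K] {n q : ℕ} (blk : Fin n → Fin (q + 1)) (j : Fin (q + 1))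
    (Ξ : Fin n → MvPowerSeries (Fin n) K)
    (hΞ : ∀ l γ, (∃ i, blk i ≠ blk l ∧ γ i ≠ 0) → MvPowerSeries.coeff γ (Ξ l) = 0)
    (R : MvPolynomial (Fin n) ℤ) (hR : ∀ i ∈ R.vars, blk i = j) : aeval Ξ R ∈ blS blk j := by
  classical
  rw [aeval_def, eval₂_eq']
  refine Subring.sum_mem _ fun m hm => Subring.mul_mem _ ?_ (Subring.prod_mem _ fun i _ => ?_)
  · have h1 : algebraMap ℤ (MvPowerSeries (Fin n) K) = Int.castRingHom _ := RingHom.ext_int _ _
    rw [h1, eq_intCast]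
    exact intCast_mem _ _
  · by_cases h : m i = 0
    · rw [h, pow_zero]
      exact Subring.one_mem _
    · have hi : i ∈ R.vars := by
        rw [mem_vars_iff_mem_support]
        exact ⟨m, hm, Finsupp.mem_support_iff.2 h⟩
      refine Subring.pow_mem _ ?_ _
      rintro γ ⟨i', h1, h2⟩
      exact hΞ i γ ⟨i', by rwa [hR i hi], h2⟩

theorem coeff_mul_wt {K : Type} [Field K] {n : ℕ} (H : Fin n → ℕ) {a b : ℕ}
    {f g : MvPowerSeries (Fin n) K} (hf : ∀ γ, wt H γ < a → MvPowerSeries.coeff γ f = 0)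
    (hg : ∀ γ, wt H γ < b → MvPowerSeries.coeff γ g = 0) (γ : Fin n →₀ ℕ) (h : wt H γ < a + b) :
    MvPowerSeries.coeff γ (f * g) = 0 := by
  classical
  rw [MvPowerSeries.coeff_mul]
  refine Finset.sum_eq_zero fun p hp => ?_
  have h1 : wt H p.1 + wt H p.2 = wt H γ := by
    rw [← Finset.HasAntidiagonal.mem_antidiagonal.1 hp]
    simp only [wt, Finsupp.add_apply, add_mul]
    rw [Finset.sum_add_distrib]
  by_cases h2 : wt H p.1 < a
  · rw [hf _ h2, zero_mul]
  · rw [hg _ (by omega), mul_zero]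

theorem coeff_pow_wt {K : Type} [Field K] {n : ℕ} (H : Fin n → ℕ) {a : ℕ}
    {f : MvPowerSeries (Fin n) K} (hf : ∀ γ, wt H γ < a → MvPowerSeries.coeff γ f = 0) (k : ℕ) :
    ∀ γ : Fin n →₀ ℕ, wt H γ < k * a → MvPowerSeries.coeff γ (f ^ k) = 0 := by
  induction k with
  | zero => intro γ h; omega
  | succ k ih =>
    intro γ h
    rw [pow_succ]
    exact coeff_mul_wt H ih hf γ (by rwa [Nat.succ_mul] at h)

end Hold

/-- `Cl.order_small` for `V = R ^ k`, `M = ∑ j, s ν j`, `k = ⌈M / s ν j⌉`, `θ = 1 / 2`: the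
coefficients of `aeval Ξ R` vanish unless the exponent is supported in the block `j` (`Cl.sup`)
and different from `0`, so its weight (`H i = ⌈s ν (blk i)⌉`) is at least `⌈s ν j⌉`. -/
theorem Cl.hold {𝓤 : Ultrafilter ℕ} {n q : ℕ} {c : Cfg 𝓤 n q} (cl : Cl c) (B : ℝ) :
    ∀ᶠ ν in (𝓤 : Filter ℕ), ∀ (j : Fin (q + 1)) (R : MvPolynomial (Fin n) ℤ),
      (∀ i ∈ R.vars, c.blk i = j) → (∀ i, (R.degreeOf i : ℝ) ≤ B) →
      Real.log (l1 R) ≤ B * (c.s ν j / c.s ν 0) → aeval (c.S.p ν) R = 0 →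
      aeval (cl.Ξ ν) R = 0 := by
  classical
  filter_upwards [cl.order_small (2 * |B|) (1 / 2) (by positivity) (by norm_num), cl.br, cl.sup]
    with ν h1 h2 h3 j R hRv hRd hRl hRa
  by_contra hcon
  have hs0 : 1 ≤ c.s ν 0 := c.s_one ν
  have hs1 : ∀ j, 1 ≤ c.s ν j := fun j => hs0.trans (c.s_le ν j)
  have hs0' : 0 < c.s ν 0 := by linarith
  set M : ℝ := ∑ j, c.s ν j with hM
  have hsM : ∀ j, c.s ν j ≤ M := fun j =>
    Finset.single_le_sum (f := fun j => c.s ν j) (fun j _ => by linarith [hs1 j])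
      (Finset.mem_univ j)
  have hM0 : 0 < M := by linarith [hsM j, hs1 j]
  have hsj : 0 < c.s ν j := by linarith [hs1 j]
  set k : ℕ := ⌈M / c.s ν j⌉₊ with hk
  have hMs : 1 ≤ M / c.s ν j := by
    rw [le_div_iff₀ hsj]
    linarith [hsM j]
  have hk1 : M / c.s ν j ≤ k := Nat.le_ceil _
  have hk2 : (k : ℝ) ≤ 2 * (M / c.s ν j) := by
    have := (Nat.ceil_lt_add_one (by positivity : 0 ≤ M / c.s ν j)).le
    linarith
  have hB : B ≤ |B| := le_abs_self B
  have hR0 : R ≠ 0 := by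
    rintro rfl
    exact hcon (map_zero _)
  have hl1 : 0 ≤ Real.log (l1 R) := Real.log_nonneg (one_le_l1 hR0)
  -- the order of `R` on the branch
  have hmem := Hold.aeval_mem c.blk j (cl.Ξ ν) h3 R hRv
  have hord : ∀ γ, wt (fun i => ⌈c.s ν (c.blk i)⌉₊) γ < ⌈c.s ν j⌉₊ →
      MvPowerSeries.coeff γ (aeval (cl.Ξ ν) R) = 0 := by
    intro γ hγ
    by_cases hγ1 : ∃ i, c.blk i ≠ j ∧ γ i ≠ 0
    · exact hmem γ hγ1
    push Not at hγ1
    have hγ0 : γ = 0 := by
      ext i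
      by_contra h
      have h4 : c.blk i = j := by
        by_contra h5
        exact h (hγ1 i h5)
      have h5 : γ i * ⌈c.s ν (c.blk i)⌉₊ ≤ wt (fun i => ⌈c.s ν (c.blk i)⌉₊) γ :=
        Finset.single_le_sum (f := fun i => γ i * ⌈c.s ν (c.blk i)⌉₊) (fun i _ => Nat.zero_le _)
          (Finset.mem_univ i)
      rw [h4] at h5
      have h6 : 1 ≤ γ i := Nat.one_le_iff_ne_zero.2 h
      have h7 : ⌈c.s ν j⌉₊ ≤ γ i * ⌈c.s ν j⌉₊ := Nat.le_mul_of_pos_left _ h6
      omega
    rw [hγ0, MvPowerSeries.coeff_zero_eq_constantCoeff_apply]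
    have h8 : MvPowerSeries.constantCoeff (aeval (cl.Ξ ν) R) = aeval (c.S.p ν) R := by
      have h9 : (MvPowerSeries.constantCoeff (σ := Fin n) (R := c.S.K ν)) (aeval (cl.Ξ ν) R) =
          aeval (fun i => MvPowerSeries.constantCoeff (cl.Ξ ν i)) R := by
        rw [aeval_def, aeval_def, hom_eval₂]
        congr 1
      rw [h9]
      congr 2
      funext i
      exact h2.const i
    rw [h8, hRa]
  have hpow := Hold.coeff_pow_wt (fun i => ⌈c.s ν (c.blk i)⌉₊) hord k
  have hdeg : ∀ i, ((R ^ k).degreeOf i : ℝ) ≤ k * R.degreeOf i := by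
    intro i
    exact_mod_cast degreeOf_pow_le i R k
  have hm := h1 (fun i => ⌈c.s ν (c.blk i)⌉₊) M (R ^ k) (k * ⌈c.s ν j⌉₊)
    (fun i => ⟨Nat.le_ceil _, by
      have := (Nat.ceil_lt_add_one (by linarith [hs1 (c.blk i)] : 0 ≤ c.s ν (c.blk i))).le
      linarith [hs1 (c.blk i)]⟩) hsM ?_ ?_ ?_ ?_
  · push_cast at hm
    have h4 : M ≤ k * ⌈c.s ν j⌉₊ := by
      have h5 : c.s ν j ≤ (⌈c.s ν j⌉₊ : ℝ) := Nat.le_ceil _
      have h6 : M / c.s ν j * c.s ν j ≤ k * ⌈c.s ν j⌉₊ :=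
        mul_le_mul hk1 h5 hsj.le (Nat.cast_nonneg _)
      rwa [div_mul_cancel₀ _ hsj.ne'] at h6
    linarith
  · intro i
    refine (hdeg i).trans ?_
    by_cases hi : i ∈ R.vars
    · rw [hRv i hi]
      have h4 : (k : ℝ) * R.degreeOf i ≤ 2 * (M / c.s ν j) * |B| :=
        mul_le_mul hk2 ((hRd i).trans hB) (Nat.cast_nonneg _) (by positivity)
      refine h4.trans (le_of_eq ?_)
      ring
    · have h4 : R.degreeOf i = 0 := by
        by_contra h
        exact hi (mem_vars_iff_degreeOf_ne_zero.2 h)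
      rw [h4]
      push_cast
      have := hs1 (c.blk i)
      rw [mul_zero]
      positivity
  · have h4 : Real.log (l1 (R ^ k)) ≤ k * Real.log (l1 R) := by
      rw [← Real.log_pow]
      refine Real.log_le_log ?_ (l1_pow R k)
      have := one_le_l1 (pow_ne_zero k hR0)
      linarith
    refine h4.trans ?_
    have h5 : Real.log (l1 R) ≤ |B| * (c.s ν j / c.s ν 0) :=
      hRl.trans (mul_le_mul_of_nonneg_right hB (by positivity))
    have h6 : (k : ℝ) * Real.log (l1 R) ≤ 2 * (M / c.s ν j) * (|B| * (c.s ν j / c.s ν 0)) :=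
      mul_le_mul hk2 h5 hl1 (by positivity)
    refine h6.trans (le_of_eq ?_)
    field_simp
  · rw [map_pow]
    exact pow_ne_zero k hcon
  · intro γ hγ
    rw [map_pow]
    exact hpow γ hγ

end Pool.Agent.ZP
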