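import Mathlib
import Pool.Agent.Lib.MP_c95b3b_ag_ZP.Defs
import Pool.Agent.Lib.MP_c95b3b_ag_ZP.Hold

set_option autoImplicit false

/-! Project ZP, block CL: relations of the sequence hold on the branches. -/

namespace Pool.Agent.ZP

open MvPolynomial Module Filter Topology Pool.Agent.L3 Pool.Agent.SD Pool.Agent.AL

variable {𝓤 : Ultrafilter ℕ} {n q : ℕ}

/-- relations of the sequence in one block hold on the branches -/
theorem van {c : Cfg 𝓤 n q} (cl : Cl c) (j : Fin (q + 1)) (F : MvPolynomial (Fin n) ℤ)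
    (hF : ∀ i ∈ F.vars, c.blk i = j) (h : aeval c.x F = 0) :
    ∀ᶠ ν in (𝓤 : Filter ℕ), aeval (cl.Ξ ν) F = 0 := by
  classical
  set B : ℝ := (∑ i, (F.degreeOf i : ℝ)) + |Real.log (l1 F)| with hB
  have hB1 : ∀ i, (F.degreeOf i : ℝ) ≤ B := by
    intro i
    have h1 : (F.degreeOf i : ℝ) ≤ ∑ i, (F.degreeOf i : ℝ) :=
      Finset.single_le_sum (f := fun i => (F.degreeOf i : ℝ))
        (fun i _ => Nat.cast_nonneg _) (Finset.mem_univ i)
    have h2 := abs_nonneg (Real.log (l1 F))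
    linarith
  have hB2 : Real.log (l1 F) ≤ B := by
    have h1 : (0 : ℝ) ≤ ∑ i, (F.degreeOf i : ℝ) := Finset.sum_nonneg fun i _ => Nat.cast_nonneg _
    have h2 := le_abs_self (Real.log (l1 F))
    linarith
  have hB0 : 0 ≤ B := by
    have h1 : (0 : ℝ) ≤ ∑ i, (F.degreeOf i : ℝ) := Finset.sum_nonneg fun i _ => Nat.cast_nonneg _
    have h2 := abs_nonneg (Real.log (l1 F))
    linarith
  filter_upwards [cl.hold B, (c.hG F).2 h] with ν h1 h2
  refine h1 j F hF hB1 ?_ h2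
  have h3 : 1 ≤ c.s ν j / c.s ν 0 := by
    rw [one_le_div (by linarith [c.s_one ν])]
    exact c.s_le ν j
  calc Real.log (l1 F) ≤ B * 1 := by rw [mul_one]; exact hB2
    _ ≤ B * (c.s ν j / c.s ν 0) := mul_le_mul_of_nonneg_left h3 hB0

end Pool.Agent.ZP
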