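import Mathlib

set_option autoImplicit false

/-! Project ZP (MP_c95b3b_ag), block CL: a formal branch at a point of a variety, given by
relations with invertible Jacobian which hold on the variety, lies on the variety (algebraic
form: every relation of the branch is a relation of the variety, and conversely when the
parameters are independent on the variety). -/

namespace Pool.Agent.ZP.Br

open MvPolynomial

section
variable {R S : Type} [CommRing R] [CommRing S] [Algebra R S] {n : ℕ}

/-- a polynomial as a polynomial in the variable `l` -/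
noncomputable def one (l : Fin n) (y : Fin n → S) : MvPolynomial (Fin n) R →ₐ[R] Polynomial S :=
  aeval fun i => if i = l then Polynomial.X else Polynomial.C (y i)

theorem derivative_one (l : Fin n) (y : Fin n → S) (G : MvPolynomial (Fin n) R) :
    Polynomial.derivative (one l y G) = one l y (pderiv l G) := by
  classical
  induction G using MvPolynomial.induction_on with
  | C a =>
    rw [pderiv_C, map_zero, one, aeval_C]
    exact Polynomial.derivative_C
  | add p q hp hq => rw [map_add, map_add, map_add, map_add, hp, hq]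
  | mul_X p i hp =>
    rw [map_mul, Polynomial.derivative_mul, hp, pderiv_mul, map_add, map_mul, map_mul]
    congr 1
    by_cases h : i = l
    · subst h
      rw [pderiv_X_self, map_one]
      have h1 : one i y (X i : MvPolynomial (Fin n) R) = Polynomial.X := by
        rw [one, aeval_X, if_pos rfl]
      rw [h1, Polynomial.derivative_X]
    · rw [pderiv_X_of_ne h, map_zero]
      have h1 : one l y (X i : MvPolynomial (Fin n) R) = Polynomial.C (y i) := by
        rw [one, aeval_X, if_neg h]
      rw [h1, Polynomial.derivative_C]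

theorem eval_one (l : Fin n) (y : Fin n → S) (t : S) (G : MvPolynomial (Fin n) R) :
    Polynomial.eval t (one l y G) = aeval (fun i => if i = l then t else y i) G := by
  have h1 : ((Polynomial.aeval t : Polynomial S →ₐ[S] S).restrictScalars R).comp
      (one (R := R) l y) = aeval (fun i => if i = l then t else y i) := by
    refine MvPolynomial.algHom_ext fun i => ?_
    rw [AlgHom.comp_apply, one, aeval_X, aeval_X]
    by_cases h : i = l
    · rw [if_pos h, if_pos h]
      exact Polynomial.aeval_X _
    · rw [if_neg h, if_neg h]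
      exact Polynomial.aeval_C _ _
  have h2 := DFunLike.congr_fun h1 G
  rw [← h2, AlgHom.comp_apply]
  exact (congrFun (Polynomial.coe_aeval_eq_eval t) _).symm

/-- values depend only on the variables -/
theorem aeval_congr {y y' : Fin n → S} (G : MvPolynomial (Fin n) R)
    (h : ∀ i ∈ G.vars, y i = y' i) : aeval y G = aeval y' G := by
  rw [aeval_def, aeval_def]
  refine eval₂Hom_congr' rfl (fun i hi _ => h i hi) rfl

end

section
variable {n : ℕ}

/-- a branch and a point with values in a nilpotent thickening of a point, with the same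
relations -/
theorem core_abs {S : Type} [CommRing S] [Algebra ℂ S] (ev : S →ₐ[ℂ] ℂ)
    (hnil : ∀ s, ev s = 0 → IsNilpotent s) (y : Fin n → S) (z : Fin n → ℂ)
    (hyz : ∀ i, ev (y i) = z i) (I : Finset (Fin n)) (ξ : Fin n → MvPowerSeries (Fin n) ℂ)
    (hfree : ∀ i ∈ I, ξ i = MvPowerSeries.C (z i) + MvPowerSeries.X i)
    (hconst : ∀ i, MvPowerSeries.constantCoeff (ξ i) = z i)
    (hrel : ∀ l, l ∉ I → ∃ G : MvPolynomial (Fin n) ℂ, (∀ i ∈ G.vars, i = l ∨ i ∈ I) ∧
      aeval ξ G = 0 ∧ aeval y G = 0 ∧ aeval z (pderiv l G) ≠ 0)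
    (F : MvPolynomial (Fin n) ℂ) (hF : aeval ξ F = 0) : aeval y F = 0 := by
  classical
  have hunit : ∀ s : S, ev s ≠ 0 → IsUnit s := by
    intro s hs
    have h1 : IsNilpotent (s - algebraMap ℂ S (ev s)) := by
      apply hnil
      rw [map_sub, AlgHom.commutes, Algebra.algebraMap_self, RingHom.id_apply, sub_self]
    have h2 : IsUnit (algebraMap ℂ S (ev s)) := (IsUnit.mk0 _ hs).map _
    have h3 := IsNilpotent.isUnit_add_left_of_commute h1 h2 (Commute.all _ _)
    rwa [add_sub_cancel] at h3
  let a : Fin n → MvPowerSeries (Fin 0) S := fun i =>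
    MvPowerSeries.C (if i ∈ I then y i - algebraMap ℂ S (z i) else 0)
  have ha : MvPowerSeries.HasSubst a := by
    refine MvPowerSeries.hasSubst_of_constantCoeff_nilpotent fun i => ?_
    rw [MvPowerSeries.constantCoeff_C]
    split_ifs
    · apply hnil
      rw [map_sub, AlgHom.commutes, hyz, Algebra.algebraMap_self, RingHom.id_apply, sub_self]
    · exact IsNilpotent.zero
  let ψ : MvPowerSeries (Fin n) ℂ →ₐ[ℂ] S :=
    { (MvPowerSeries.constantCoeff (σ := Fin 0) (R := S)).comp
        (MvPowerSeries.substAlgHom (R := ℂ) ha : MvPowerSeries (Fin n) ℂ →+*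
          MvPowerSeries (Fin 0) S) with
      commutes' := by
        intro r
        show MvPowerSeries.constantCoeff (MvPowerSeries.substAlgHom (R := ℂ) ha
          (algebraMap ℂ (MvPowerSeries (Fin n) ℂ) r)) = algebraMap ℂ S r
        rw [AlgHom.commutes]
        rfl }
  have hψX : ∀ i ∈ I, ψ (MvPowerSeries.X i) = y i - algebraMap ℂ S (z i) := by
    intro i hi
    show MvPowerSeries.constantCoeff (MvPowerSeries.substAlgHom (R := ℂ) ha
          (MvPowerSeries.X i)) = _
    rw [MvPowerSeries.substAlgHom_X]
    show MvPowerSeries.constantCoeff (MvPowerSeries.C (if i ∈ I then y i - algebraMap ℂ S (z i)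
      else 0)) = _
    rw [MvPowerSeries.constantCoeff_C, if_pos hi]
  -- homomorphisms to the complex numbers
  have hχ : ∀ f : MvPowerSeries (Fin n) ℂ, ev (ψ f) = MvPowerSeries.constantCoeff f := by
    intro f
    by_contra hne
    have h1 : IsUnit (f - MvPowerSeries.C (ev (ψ f))) := by
      rw [MvPowerSeries.isUnit_iff_constantCoeff, map_sub, MvPowerSeries.constantCoeff_C]
      exact IsUnit.mk0 _ (sub_ne_zero.2 fun h => hne h.symm)
    have h2 := (h1.map ψ).map ev
    have h3 : ψ (MvPowerSeries.C (ev (ψ f))) = algebraMap ℂ S (ev (ψ f)) := ψ.commutes _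
    rw [map_sub, map_sub, h3, AlgHom.commutes, Algebra.algebraMap_self, RingHom.id_apply,
      sub_self] at h2
    exact not_isUnit_zero h2
  have hevy : ∀ G : MvPolynomial (Fin n) ℂ, ev (aeval y G) = aeval z G := by
    intro G
    rw [comp_aeval_apply]
    exact aeval_congr G fun i _ => hyz i
  -- the coordinates are the images of the branch
  have hI : ∀ i ∈ I, ψ (ξ i) = y i := by
    intro i hi
    have h3 : ψ (MvPowerSeries.C (z i)) = algebraMap ℂ S (z i) := ψ.commutes _
    rw [hfree i hi, map_add, hψX i hi, h3]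
    ring
  have hψξ : ∀ l, ψ (ξ l) = y l := by
    intro l
    by_cases hl : l ∈ I
    · exact hI l hl
    obtain ⟨G, hGv, hGξ, hGx, hGd⟩ := hrel l hl
    have e0 : ∀ G' : MvPolynomial (Fin n) ℂ,
        aeval (fun i => if i = l then y l else y i) G' = aeval y G' := by
      intro G'
      refine aeval_congr _ fun i _ => ?_
      split_ifs with h
      · rw [h]
      · rfl
    have e1 : Polynomial.aeval (y l) (one l y G) = 0 := by
      rw [Polynomial.coe_aeval_eq_eval, eval_one, e0, hGx]
    have e2 : IsUnit (Polynomial.aeval (y l) (Polynomial.derivative (one l y G))) := by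
      apply hunit
      rw [derivative_one, Polynomial.coe_aeval_eq_eval, eval_one, e0, hevy]
      exact hGd
    obtain ⟨t, -, ht⟩ := Polynomial.existsUnique_nilpotent_sub_and_aeval_eq_zero
      (x := y l) (P := one l y G) (by rw [e1]; exact IsNilpotent.zero) e2
    have h1 := ht (y l) ⟨by rw [sub_self]; exact IsNilpotent.zero, e1⟩
    have h2 := ht (ψ (ξ l)) ⟨hnil _ (by rw [map_sub, hyz, hχ, hconst, sub_self]), by
      rw [Polynomial.coe_aeval_eq_eval, eval_one]
      have h3 : aeval (fun i => if i = l then ψ (ξ l) else y i) G = ψ (aeval ξ G) := by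
        rw [comp_aeval_apply]
        refine aeval_congr G fun i hi => ?_
        split_ifs with h
        · rw [h]
        · rcases hGv i hi with h4 | h4
          · exact absurd h4 h
          · exact (hI i h4).symm
      rw [h3, hGξ, map_zero]⟩
    rw [h2, h1]
  have h6 : aeval y F = ψ (aeval ξ F) := by
    rw [comp_aeval_apply]
    exact aeval_congr F fun i _ => (hψξ i).symm
  rw [h6, hF, map_zero]

variable {L : Type} [Field L] [Algebra ℂ L]

/-- relations of the branch are relations of the variety -/
theorem core (x : Fin n → L) (z : Fin n → ℂ)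
    (hz : ∀ F : MvPolynomial (Fin n) ℂ, aeval x F = 0 → aeval z F = 0) (I : Finset (Fin n))
    (ξ : Fin n → MvPowerSeries (Fin n) ℂ)
    (hfree : ∀ i ∈ I, ξ i = MvPowerSeries.C (z i) + MvPowerSeries.X i)
    (hconst : ∀ i, MvPowerSeries.constantCoeff (ξ i) = z i)
    (hrel : ∀ l, l ∉ I → ∃ G : MvPolynomial (Fin n) ℂ, (∀ i ∈ G.vars, i = l ∨ i ∈ I) ∧
      aeval ξ G = 0 ∧ aeval x G = 0 ∧ aeval z (pderiv l G) ≠ 0)
    (F : MvPolynomial (Fin n) ℂ) (hF : aeval ξ F = 0) : aeval x F = 0 := by
  classical
  let A : Subalgebra ℂ L := (aeval x : MvPolynomial (Fin n) ℂ →ₐ[ℂ] L).range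
  let xA : Fin n → A := fun i => ⟨x i, X i, aeval_X x i⟩
  have hxA : ∀ G : MvPolynomial (Fin n) ℂ, ((aeval xA G : A) : L) = aeval x G := by
    intro G
    have h1 := comp_aeval_apply (σ := Fin n) (R := ℂ) xA A.val G
    exact h1
  have hsurj : Function.Surjective (aeval xA : MvPolynomial (Fin n) ℂ →ₐ[ℂ] A) := by
    rintro ⟨_, G, rfl⟩
    exact ⟨G, Subtype.ext (hxA G)⟩
  have hN : IsNoetherianRing A :=
    isNoetherianRing_of_surjective _ _ (aeval xA : MvPolynomial (Fin n) ℂ →ₐ[ℂ] A).toRingHom hsurj
  -- the evaluation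
  have hker : ∀ G G' : MvPolynomial (Fin n) ℂ, aeval xA G = aeval xA G' →
      aeval z G = aeval z G' := by
    intro G G' h
    rw [← sub_eq_zero, ← map_sub]
    apply hz
    rw [← hxA, map_sub, h, sub_self]
    rfl
  obtain ⟨evA, hevA⟩ : ∃ evA : A →ₐ[ℂ] ℂ, ∀ G : MvPolynomial (Fin n) ℂ,
      evA (aeval xA G) = aeval z G := by
    have hsurj' : ∀ a : A, ∃ G : MvPolynomial (Fin n) ℂ, aeval xA G = a := hsurj
    choose s hs using hsurj'
    refine ⟨{ toFun := fun a => aeval z (s a)
              map_one' := ?_
              map_mul' := ?_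
              map_zero' := ?_
              map_add' := ?_
              commutes' := ?_ }, ?_⟩
    · have h1 := hker (s 1) 1 (by rw [hs, map_one])
      rw [h1, map_one]
    · intro a b
      have h1 := hker (s (a * b)) (s a * s b) (by rw [hs, map_mul, hs, hs])
      rw [h1, map_mul]
    · have h1 := hker (s 0) 0 (by rw [hs, map_zero])
      show aeval z (s 0) = 0
      rw [h1, map_zero]
    · intro a b
      have h1 := hker (s (a + b)) (s a + s b) (by rw [hs, map_add, hs, hs])
      show aeval z (s (a + b)) = aeval z (s a) + aeval z (s b)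
      rw [h1, map_add]
    · intro r
      have h1 := hker (s (algebraMap ℂ A r)) (C r) (by rw [hs, aeval_C])
      show aeval z (s (algebraMap ℂ A r)) = algebraMap ℂ ℂ r
      rw [h1, aeval_C]
    · intro G
      exact hker _ _ (hs _)
  let m : Ideal A := RingHom.ker evA
  have hm : m ≠ ⊤ := RingHom.ker_ne_top _
  suffices h : ∀ k : ℕ, aeval xA F ∈ m ^ (k + 1) by
    have h1 : aeval xA F ∈ ⨅ k : ℕ, m ^ k := by
      rw [Ideal.mem_iInf]
      intro k
      exact Ideal.pow_le_pow_right (Nat.le_succ k) (h k)
    rw [Ideal.iInf_pow_eq_bot_of_isDomain m hm, Ideal.mem_bot] at h1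
    rw [← hxA, h1]
    rfl
  intro k
  let π : A →ₐ[ℂ] A ⧸ (m ^ (k + 1)) := Ideal.Quotient.mkₐ ℂ (m ^ (k + 1))
  let evS : A ⧸ (m ^ (k + 1)) →ₐ[ℂ] ℂ := Ideal.Quotient.liftₐ (m ^ (k + 1)) evA (fun a ha =>
    (Ideal.pow_le_self (Nat.succ_ne_zero k) ha : a ∈ m))
  have hevS : ∀ a, evS (π a) = evA a := fun a => rfl
  have hnil : ∀ s, evS s = 0 → IsNilpotent s := by
    intro s hs
    obtain ⟨a, rfl⟩ := Ideal.Quotient.mk_surjective s
    refine ⟨k + 1, ?_⟩
    rw [← map_pow, Ideal.Quotient.eq_zero_iff_mem]
    exact Ideal.pow_mem_pow (show a ∈ m from hs) _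
  have hy : ∀ G : MvPolynomial (Fin n) ℂ, aeval (fun i => π (xA i)) G = π (aeval xA G) := by
    intro G
    exact (comp_aeval_apply xA π G).symm
  have h5 := core_abs evS hnil (fun i => π (xA i)) z (fun i => by
    have h1 := hevA (X i)
    rw [aeval_X, aeval_X] at h1
    rw [hevS, h1]) I ξ hfree hconst (fun l hl => by
    obtain ⟨G, hG1, hG2, hG3, hG4⟩ := hrel l hl
    refine ⟨G, hG1, hG2, ?_, hG4⟩
    rw [hy]
    have h1 : aeval xA G = 0 := Subtype.ext (by rw [hxA, hG3]; rfl)
    rw [h1, map_zero]) F hF
  rw [hy] at h5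
  exact Ideal.Quotient.eq_zero_iff_mem.1 h5

end

/-! ### Algebraicity and the converse -/

section
variable {R S T : Type} [CommRing R] [CommRing S] [Algebra R S] [CommRing T] [Algebra R T]
  [Algebra S T] [IsScalarTower R S T] {n : ℕ}

theorem aeval_one (l : Fin n) (y : Fin n → S) (t : T) (G : MvPolynomial (Fin n) R) :
    Polynomial.aeval t (one l y G) =
      aeval (fun i => if i = l then t else algebraMap S T (y i)) G := by
  have h1 : ((Polynomial.aeval t : Polynomial S →ₐ[S] T).restrictScalars R).comp
      (one (R := R) l y) = aeval (fun i => if i = l then t else algebraMap S T (y i)) := by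
    refine MvPolynomial.algHom_ext fun i => ?_
    rw [AlgHom.comp_apply, one, aeval_X, aeval_X]
    by_cases h : i = l
    · rw [if_pos h, if_pos h]
      exact Polynomial.aeval_X _
    · rw [if_neg h, if_neg h]
      exact Polynomial.aeval_C _ _
  exact DFunLike.congr_fun h1 G

theorem vars_pderiv {l : Fin n} {G : MvPolynomial (Fin n) R} {i : Fin n}
    (hi : i ∈ (pderiv l G).vars) : i ∈ G.vars := by
  classical
  rw [mem_vars_iff_mem_support] at hi ⊢
  obtain ⟨d, hd, hid⟩ := hi
  rw [mem_support_iff, coeff_pderiv] at hd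
  refine ⟨d + Finsupp.single l 1, mem_support_iff.2 (left_ne_zero_of_mul hd), ?_⟩
  rw [Finsupp.mem_support_iff] at hid ⊢
  rw [Finsupp.add_apply]
  omega

end

section
variable {R F : Type} [CommRing R] [Field F] [Algebra R F] {n : ℕ}

/-- a root of a relation with derivative different from `0` is algebraic -/
theorem alg_of_rel (x : Fin n → F) (J : Finset (Fin n)) (l : Fin n) (G : MvPolynomial (Fin n) R)
    (hv : ∀ i ∈ G.vars, i = l ∨ i ∈ J) (h0 : aeval x G = 0) (h1 : aeval x (pderiv l G) ≠ 0) :
    IsAlgebraic (Algebra.adjoin R (Set.range fun i : J => x i)) (x l) := by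
  classical
  let A : Subalgebra R F := Algebra.adjoin R (Set.range fun i : J => x i)
  let y : Fin n → A := fun i => if h : i ∈ J then
    ⟨x i, Algebra.subset_adjoin ⟨⟨i, h⟩, rfl⟩⟩ else 0
  have hy : ∀ G' : MvPolynomial (Fin n) R, (∀ i ∈ G'.vars, i = l ∨ i ∈ J) →
      aeval (fun i => if i = l then x l else algebraMap A F (y i)) G' = aeval x G' := by
    intro G' hG'
    refine aeval_congr G' fun i hi => ?_
    split_ifs with h
    · rw [h]
    · rcases hG' i hi with h2 | h2
      · exact absurd h2 h
      · show algebraMap A F (y i) = x i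
        have h3 : y i = ⟨x i, Algebra.subset_adjoin ⟨⟨i, h2⟩, rfl⟩⟩ := dif_pos h2
        rw [h3]
        rfl
  refine ⟨one l y G, ?_, ?_⟩
  · intro h
    have h2 := derivative_one l y G
    rw [h, Polynomial.derivative_zero] at h2
    apply h1
    rw [← hy (pderiv l G) fun i hi => hv i (vars_pderiv hi), ← aeval_one, ← h2, map_zero]
  · rw [aeval_one, hy G hv, h0]

end

section
variable {k L F : Type} [Field k] [Field L] [Algebra k L] [Field F] [Algebra k F] {n : ℕ}

/-- if every relation of `ξ` is a relation of `x` and the parameters are independent at `x`, then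
every relation of `x` is a relation of `ξ` -/
theorem conv (x : Fin n → L) (ξ : Fin n → F) (I : Finset (Fin n))
    (hdir : ∀ G : MvPolynomial (Fin n) k, aeval ξ G = 0 → aeval x G = 0)
    (hind : ∀ G : MvPolynomial (Fin n) k, (∀ i ∈ G.vars, i ∈ I) → aeval x G = 0 → G = 0)
    (halg : ∀ l, IsAlgebraic (Algebra.adjoin k (Set.range fun i : I => ξ i)) (ξ l))
    (G : MvPolynomial (Fin n) k) (h : aeval x G = 0) : aeval ξ G = 0 := by
  classical
  by_contra hne
  let A : Subalgebra k F := Algebra.adjoin k (Set.range fun i : I => ξ i)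
  have h1 : IsAlgebraic A (aeval ξ G) := by
    have h2 : (aeval ξ G : F) ∈ (Subalgebra.algebraicClosure A F).restrictScalars k := by
      have h3 : (aeval ξ : MvPolynomial (Fin n) k →ₐ[k] F).range ≤
          (Subalgebra.algebraicClosure A F).restrictScalars k := by
        rw [← Algebra.adjoin_range_eq_range_aeval, Algebra.adjoin_le_iff]
        rintro _ ⟨l, rfl⟩
        exact halg l
      exact h3 ⟨G, rfl⟩
    exact h2
  obtain ⟨p, hp0, hp⟩ := h1.exists_nonzero_coeff_and_aeval_eq_zero (mem_nonZeroDivisors_of_ne_zero hne)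
  have h2 : ∀ j, ∃ b : MvPolynomial (Fin n) k, (∀ i ∈ b.vars, i ∈ I) ∧
      aeval ξ b = (p.coeff j : F) := by
    intro j
    have h3 : (p.coeff j : F) ∈ (aeval (fun i : I => ξ i) : MvPolynomial I k →ₐ[k] F).range := by
      rw [← Algebra.adjoin_range_eq_range_aeval]
      exact (p.coeff j).2
    obtain ⟨b', hb'⟩ := h3
    refine ⟨rename (fun i : I => (i : Fin n)) b', ?_, ?_⟩
    · intro i hi
      have h4 := vars_rename (fun i : I => (i : Fin n)) b' hi
      rw [Finset.mem_image] at h4
      obtain ⟨i', -, rfl⟩ := h4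
      exact i'.2
    · rw [aeval_rename]
      exact hb'
  choose b hbv hb using h2
  have h3 : aeval ξ (∑ j ∈ Finset.range (p.natDegree + 1), b j * G ^ j) = 0 := by
    rw [map_sum]
    rw [Polynomial.aeval_eq_sum_range] at hp
    rw [← hp]
    refine Finset.sum_congr rfl fun j _ => ?_
    rw [map_mul, map_pow, hb]
    rfl
  have h4 := hdir _ h3
  rw [map_sum, Finset.sum_eq_single 0] at h4
  · rw [pow_zero, mul_one] at h4
    have h5 := hind _ (hbv 0) h4
    apply hp0
    have h6 := hb 0
    rw [h5, map_zero] at h6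
    exact Subtype.ext h6.symm
  · intro j _ hj
    rw [map_mul, map_pow, h, zero_pow hj, mul_zero]
  · intro h5
    exact absurd (Finset.mem_range.2 (Nat.succ_pos _)) h5

end

end Pool.Agent.ZP.Br
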