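import Mathlib
import Pool.Agent.Lib.MP_c95b3b_ag_ZP.Defs
import Pool.Agent.Lib.MP_c95b3b_ag_ZP.CL5B
import Pool.Agent.Lib.MP_c95b3b_ag_ZP.CL5D
import Pool.Agent.Lib.MP_c95b3b_ag_ZP.ERk

set_option autoImplicit false

/-! Project ZP, block CL: the bounded block. -/

namespace Pool.Agent.ZP

open MvPolynomial Module Filter Topology Pool.Agent.L3 Pool.Agent.SD Pool.Agent.AL

variable {𝓤 : Ultrafilter ℕ} {n q : ℕ}

namespace BZ

/-- values of integral polynomials under homomorphisms -/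
theorem map_aevalZ {A B : Type} [CommRing A] [CommRing B] [Algebra ℤ A] [Algebra ℤ B]
    (φ : A →+* B) (y : Fin n → A) (F : MvPolynomial (Fin n) ℤ) :
    φ (aeval y F) = aeval (fun i => φ (y i)) F := by
  induction F using MvPolynomial.induction_on with
  | C a => rw [aeval_C, aeval_C, eq_intCast, eq_intCast, map_intCast]
  | add p q hp hq => rw [map_add, map_add, map_add, hp, hq]
  | mul_X p i hp => rw [map_mul, map_mul, map_mul, hp, aeval_X, aeval_X]

/-- there are finitely many polynomials with bounded degrees and coefficients -/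
theorem finite_bdd (n B : ℕ) :
    {F : MvPolynomial (Fin n) ℤ | (∀ i, F.degreeOf i ≤ B) ∧ l1 F ≤ B}.Finite := by
  classical
  let box : Finset (Fin n →₀ ℕ) :=
    (Fintype.piFinset fun _ : Fin n => Finset.range (B + 1)).map
      Finsupp.equivFunOnFinite.symm.toEmbedding
  have hbox : ∀ m : Fin n →₀ ℕ, (∀ i, m i ≤ B) → m ∈ box := by
    intro m hm
    rw [Finset.mem_map]
    refine ⟨fun i => m i, ?_, ?_⟩
    · rw [Fintype.mem_piFinset]
      intro i
      rw [Finset.mem_range]
      have := hm i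
      omega
    · exact Finsupp.equivFunOnFinite.symm_apply_apply m
  let Φ : MvPolynomial (Fin n) ℤ → (box → ℤ) := fun F m => coeff (m : Fin n →₀ ℕ) F
  refine Set.Finite.of_finite_image (f := Φ) ?_ ?_
  · refine (Set.finite_Icc (fun _ : box => -(B : ℤ)) (fun _ => (B : ℤ))).subset ?_
    rintro _ ⟨F, ⟨-, hF⟩, rfl⟩
    have h1 : ∀ m : box, |coeff (m : Fin n →₀ ℕ) F| ≤ (B : ℤ) := by
      intro m
      have h2 := (abs_coeff_le_l1 F (m : Fin n →₀ ℕ)).trans hF
      exact_mod_cast h2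
    exact ⟨fun m => (abs_le.1 (h1 m)).1, fun m => (abs_le.1 (h1 m)).2⟩
  · rintro F ⟨hF, -⟩ G ⟨hG, -⟩ h
    ext m
    by_cases hm : m ∈ box
    · exact congrFun h ⟨m, hm⟩
    · have h1 : ∀ H : MvPolynomial (Fin n) ℤ, (∀ i, H.degreeOf i ≤ B) → coeff m H = 0 := by
        intro H hH
        by_contra hc
        apply hm
        apply hbox
        intro i
        refine le_trans ?_ (hH i)
        rw [degreeOf_eq_sup]
        exact Finset.le_sup (f := fun m : Fin n →₀ ℕ => m i) (mem_support_iff.2 hc)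
      rw [h1 F hF, h1 G hG]

/-- relations of bounded degree and size at the points are relations of the variety -/
theorem small_zero (c : Cfg 𝓤 n q) (B : ℕ) : ∀ᶠ ν in (𝓤 : Filter ℕ),
    ∀ F : MvPolynomial (Fin n) ℤ, (∀ i, F.degreeOf i ≤ B) → l1 F ≤ B →
      (aeval (c.S.p ν) F = 0 ↔ aeval c.x F = 0) := by
  have h1 : ∀ᶠ ν in (𝓤 : Filter ℕ), ∀ F ∈ {F : MvPolynomial (Fin n) ℤ |
      (∀ i, F.degreeOf i ≤ B) ∧ l1 F ≤ B}, (aeval (c.S.p ν) F = 0 ↔ aeval c.x F = 0) := by
    rw [eventually_all_finite (finite_bdd n B)]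
    intro F _
    by_cases h : aeval c.x F = 0
    · filter_upwards [(c.hG F).2 h] with ν hν
      exact ⟨fun _ => h, fun _ => hν⟩
    · have h2 : ¬ ∀ᶠ ν in (𝓤 : Filter ℕ), aeval (c.S.p ν) F = 0 := fun h3 => h ((c.hG F).1 h3)
      rw [← Ultrafilter.eventually_not] at h2
      filter_upwards [h2] with ν hν
      exact ⟨fun h3 => absurd h3 hν, fun h3 => absurd h3 h⟩
  filter_upwards [h1] with ν hν F hF hF'
  exact hν F ⟨hF, hF'⟩

/-- the parameters of a block are independent at the generic point -/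
theorem no_x {c : Cfg 𝓤 n q} (cl : Cl c) (j : Fin (q + 1)) (F : MvPolynomial (Fin n) ℤ)
    (hF : ∀ i ∈ F.vars, i ∈ cl.I.filter fun i => c.blk i = j) (h : aeval c.x F = 0) : F = 0 := by
  by_contra hF0
  set B : ℝ := (∑ i, (F.degreeOf i : ℝ)) + |Real.log (l1 F)| with hB
  have hB1 : ∀ i, (F.degreeOf i : ℝ) ≤ B := by
    intro i
    have h1 : (F.degreeOf i : ℝ) ≤ ∑ i, (F.degreeOf i : ℝ) :=
      Finset.single_le_sum (f := fun i => (F.degreeOf i : ℝ))
        (fun i _ => Nat.cast_nonneg _) (Finset.mem_univ i)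
    have h2 := abs_nonneg (Real.log (l1 F))
    linarith
  have hB2 : Real.log (l1 F) ≤ B := by
    have h1 : (0 : ℝ) ≤ ∑ i, (F.degreeOf i : ℝ) := Finset.sum_nonneg fun i _ => Nat.cast_nonneg _
    have h2 := le_abs_self (Real.log (l1 F))
    linarith
  have hB0 : 0 ≤ B := by
    have h1 : (0 : ℝ) ≤ ∑ i, (F.degreeOf i : ℝ) := Finset.sum_nonneg fun i _ => Nat.cast_nonneg _
    have h2 := abs_nonneg (Real.log (l1 F))
    linarith
  obtain ⟨ν, h1, h2⟩ := ((cl.no B).and ((c.hG F).2 h)).exists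
  refine h1 j F hF0 (fun i hi => ?_) hB1 ?_ h2
  · exact Finset.mem_filter.1 (hF i hi)
  · have h3 : 1 ≤ c.s ν j / c.s ν 0 := by
      rw [one_le_div (by linarith [c.s_one ν])]
      exact c.s_le ν j
    calc Real.log (l1 F) ≤ B * 1 := by rw [mul_one]; exact hB2
      _ ≤ B * (c.s ν j / c.s ν 0) := mul_le_mul_of_nonneg_left h3 hB0

theorem ind_Z {c : Cfg 𝓤 n q} (cl : Cl c) (j : Fin (q + 1)) :
    AlgebraicIndependent ℤ (fun i : cl.I.filter (fun i => c.blk i = j) => c.x i) := by
  classical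
  rw [algebraicIndependent_iff]
  intro F hF
  have h1 := no_x cl j (rename (fun i : cl.I.filter (fun i => c.blk i = j) => (i : Fin n)) F)
    (fun i hi => by
      have h4 := vars_rename _ F hi
      rw [Finset.mem_image] at h4
      obtain ⟨i', -, rfl⟩ := h4
      exact i'.2)
    (by rw [aeval_rename]; exact hF)
  exact rename_injective _ Subtype.val_injective (by rw [h1, map_zero])

theorem ind_C {c : Cfg 𝓤 n q} (cl : Cl c) (j : Fin (q + 1)) :
    AlgebraicIndependent ℂ (fun i : cl.I.filter (fun i => c.blk i = j) => c.x i) := by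
  have h1 := ind_Z cl j
  have e1 : (fun i : cl.I.filter (fun i => c.blk i = j) => c.x i) =
      fun i : cl.I.filter (fun i => c.blk i = j) => mn c.x (Pi.single (i : Fin n) 1) := by
    funext i
    rw [mn_single]
  rw [e1] at h1 ⊢
  exact E.ind_AD c.hx c.hAD h1

theorem no_xC {c : Cfg 𝓤 n q} (cl : Cl c) (j : Fin (q + 1)) (F : MvPolynomial (Fin n) ℂ)
    (hF : ∀ i ∈ F.vars, i ∈ cl.I.filter fun i => c.blk i = j) (h : aeval c.x F = 0) : F = 0 := by
  obtain ⟨F', hF'⟩ := exists_rename_eq_of_vars_subset_range F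
    (fun i : cl.I.filter (fun i => c.blk i = j) => (i : Fin n)) Subtype.val_injective (by
      intro i hi
      exact ⟨⟨i, hF i hi⟩, rfl⟩)
  rw [← hF', aeval_rename] at h
  have h1 := (algebraicIndependent_iff.1 (ind_C cl j)) F' h
  rw [← hF', h1, map_zero]

/-- the relations for the coordinates of the bounded block outside `I` -/
theorem rels0 {c : Cfg 𝓤 n q} (cl : Cl c) (hb : c.bd) : ∀ᶠ ν in (𝓤 : Filter ℕ), ∀ l, l ∉ cl.I →
    c.blk l = 0 → (∀ i ∈ (cl.g ν l).vars, i = l ∨ i ∈ cl.I.filter fun i => c.blk i = 0) ∧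
      aeval c.x (cl.g ν l) = 0 ∧ aeval c.x (pderiv l (cl.g ν l)) ≠ 0 ∧
      aeval (cl.Ξ ν) (cl.g ν l) = 0 ∧ aeval (c.S.p ν) (pderiv l (cl.g ν l)) ≠ 0 := by
  classical
  set B : ℕ := cl.d + (cl.d + 1) * (⌈Real.exp cl.d⌉₊ + 1) with hB
  filter_upwards [cl.rel, cl.br, small_zero c B] with ν h1 h2 h3 l hl hl0
  obtain ⟨h4, h5⟩ := h1.2 l hl
  have h6 : c.s ν 0 = 1 := (c.bdd hb).1 ν
  rw [hl0, h6, div_one, mul_one] at h5
  have h7 : l1 (cl.g ν l) ≤ ⌈Real.exp cl.d⌉₊ := by
    by_cases h8 : cl.g ν l = 0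
    · rw [h8, l1_zero]
      exact Nat.cast_nonneg _
    · have h9 := one_le_l1 h8
      have h10 : l1 (cl.g ν l) ≤ Real.exp cl.d := by
        rw [← Real.log_le_iff_le_exp (by linarith)]
        exact h5
      exact h10.trans (Nat.le_ceil _)
  have hB1 : (cl.g ν l).degreeOf l ≤ cl.d := h4 l
  have hB2 : ((cl.d + 1) * (⌈Real.exp cl.d⌉₊ + 1) : ℝ) ≤ (B : ℝ) := by
    rw [hB]
    push_cast
    have : (0 : ℝ) ≤ cl.d := Nat.cast_nonneg _
    linarith
  have hc0 : (0 : ℝ) ≤ ⌈Real.exp cl.d⌉₊ := Nat.cast_nonneg _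
  have hd0 : (0 : ℝ) ≤ cl.d := Nat.cast_nonneg _
  refine ⟨?_, ?_, ?_, h2.rel l hl, h1.1.der l hl⟩
  · intro i hi
    rcases h1.1.vars l hl i hi with h8 | ⟨h8, h9⟩
    · exact Or.inl h8
    · exact Or.inr (Finset.mem_filter.2 ⟨h8, by rw [h9, hl0]⟩)
  · refine (h3 (cl.g ν l) (fun i => (h4 i).trans (by rw [hB]; omega)) ?_).1 (h1.1.root l hl)
    refine le_trans ?_ hB2
    nlinarith
  · intro h8
    refine h1.1.der l hl ((h3 (pderiv l (cl.g ν l)) (fun i => ?_) ?_).2 h8)
    · exact (degreeOf_pderiv_le _ l i).trans ((h4 i).trans (by rw [hB]; omega))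
    · refine (l1_pderiv _ l).trans (le_trans ?_ hB2)
      have h9 : ((cl.g ν l).degreeOf l : ℝ) ≤ cl.d := by exact_mod_cast hB1
      have h10 : 0 ≤ l1 (cl.g ν l) := l1_nonneg _
      calc ((cl.g ν l).degreeOf l : ℝ) * l1 (cl.g ν l) ≤ cl.d * ⌈Real.exp cl.d⌉₊ :=
            mul_le_mul h9 h7 h10 hd0
        _ ≤ _ := by nlinarith

end BZ

/-- the number of the parameters of the bounded block -/
theorem block_zero_card {c : Cfg 𝓤 n q} (cl : Cl c) (hb : c.bd) :
    (cl.I.filter fun i => c.blk i = 0).card = rkZ c.x (blL c.blk 0) := by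
  classical
  have hL : CharZero c.L := charZero_of_injective_algebraMap (algebraMap ℂ c.L).injective
  rw [← E.tr_int c.hx c.hAD]
  set J := cl.I.filter fun i => c.blk i = 0 with hJ
  apply le_antisymm
  · let e : Fin J.card ≃ J := J.equivFin.symm
    refine E.le_tr (fun i => Pi.single (e i : Fin n) 1) (fun i => ?_) ?_
    · intro i' hi'
      have h1 := (Finset.mem_filter.1 (e i).2).2
      rw [Pi.single_eq_of_ne]
      intro h2
      rw [h2] at hi'
      exact hi' h1
    · have h1 := (BZ.ind_Z cl 0).comp e e.injective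
      have e1 : (fun i => mn c.x (Pi.single (e i : Fin n) 1)) =
          (fun i : J => c.x i) ∘ e := by
        funext i
        rw [mn_single]
        rfl
      rw [e1]
      exact h1
  · obtain ⟨ν, hν⟩ := (BZ.rels0 cl hb).exists
    set M := AlgebraicIndependent.matroid ℤ c.L with hM
    have h1 : ∀ l, c.blk l = 0 → c.x l ∈ M.closure (Set.range fun i : J => c.x i) := by
      intro l hl
      by_cases hlI : l ∈ cl.I
      · refine M.subset_closure _ (Set.subset_univ _) ?_
        exact ⟨⟨l, Finset.mem_filter.2 ⟨hlI, hl⟩⟩, rfl⟩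
      · obtain ⟨h2, h3, h4, -, -⟩ := hν l hlI hl
        exact E.mem_closure (Br.alg_of_rel c.x J l (cl.g ν l) h2 h3 h4)
    have h2 : mn c.x '' (blL c.blk 0 : Set (Fin n → ℤ)) ⊆
        M.closure (Set.range fun i : J => c.x i) := by
      rintro _ ⟨a, ha, rfl⟩
      refine E.closure_prod (R := ℤ) _ _ fun i _ => ?_
      by_cases hi : c.blk i = 0
      · exact E.closure_zpow (h1 i hi) _
      · rw [ha i hi, zpow_zero]
        exact E.closure_one
    have h3 := M.eRk_mono h2
    rw [Matroid.eRk_closure_eq, hM, ← E.tr_eq] at h3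
    have h4 := h3.trans (Matroid.eRk_le_encard _ _)
    rw [← Set.image_univ] at h4
    have h5 := h4.trans (Set.encard_image_le _ _)
    rw [Set.encard_univ, ENat.card_eq_coe_fintype_card, Fintype.card_coe] at h5
    exact_mod_cast h5

/-- the relations (with complex coefficients) of the branch in the bounded block are the
relations of the variety -/
theorem block_zero_rel {c : Cfg 𝓤 n q} (cl : Cl c) (hb : c.bd) : ∀ᶠ ν in (𝓤 : Filter ℕ),
    ∀ (T : Finset (Fin n → ℤ)) (r : (Fin n → ℤ) → ℂ), (∀ a ∈ T, a ∈ blL c.blk 0) →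
      (∑ a ∈ T, algebraMap ℂ (FC n) (r a) * mn (cl.xi ν) a = 0 ↔
      ∑ a ∈ T, algebraMap ℂ c.L (r a) * mn c.x a = 0) := by
  classical
  filter_upwards [BZ.rels0 cl hb, cl.br, c.hY] with ν h1 h2 h3 T r hT
  set J := cl.I.filter fun i => c.blk i = 0 with hJ
  set e := c.e ν with he
  let z : Fin n → ℂ := fun i => if c.blk i = 0 then e (c.S.p ν i) else 1
  let x : Fin n → c.L := fun i => if c.blk i = 0 then c.x i else 1
  let ξ : Fin n → MvPowerSeries (Fin n) ℂ := fun i =>
    if c.blk i = 0 then MvPowerSeries.map e (cl.Ξ ν i) else 1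
  have hx : ∀ i, x i ≠ 0 := by
    intro i
    show (if c.blk i = 0 then c.x i else 1) ≠ 0
    split_ifs
    · exact c.hx i
    · exact one_ne_zero
  have hz0 : ∀ i, z i ≠ 0 := by
    intro i
    show (if c.blk i = 0 then e (c.S.p ν i) else 1) ≠ 0
    split_ifs
    · exact h3.1 i
    · exact one_ne_zero
  -- the variety
  have hY : ∀ F : MvPolynomial (Fin n) ℂ, aeval x F = 0 → aeval z F = 0 := by
    intro F hF
    have e1 : aeval c.x (bind₁ (fun i => if c.blk i = 0 then X i else 1) F) = aeval x F := by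
      rw [aeval_bind₁]
      refine Br.aeval_congr F fun i _ => ?_
      show _ = if c.blk i = 0 then c.x i else 1
      split_ifs
      · rw [aeval_X]
      · rw [map_one]
    have e2 : aeval (fun i => e (c.S.p ν i))
        (bind₁ (fun i => if c.blk i = 0 then X i else 1) F) = aeval z F := by
      rw [aeval_bind₁]
      refine Br.aeval_congr F fun i _ => ?_
      show _ = if c.blk i = 0 then e (c.S.p ν i) else 1
      split_ifs
      · rw [aeval_X]
      · rw [map_one]
    rw [← e2]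
    have h4 := h3.2 _ (e1.trans hF)
    rw [← h4]
    exact RingHom.congr_fun (coe_aeval_eq_eval (fun i => e (c.S.p ν i))) _
  have hconst : ∀ i, MvPowerSeries.constantCoeff (ξ i) = z i := by
    intro i
    show MvPowerSeries.constantCoeff (if c.blk i = 0 then MvPowerSeries.map e (cl.Ξ ν i) else 1) =
      if c.blk i = 0 then e (c.S.p ν i) else 1
    split_ifs
    · rw [MvPowerSeries.constantCoeff_map, h2.const]
    · rw [map_one]
  have hfree : ∀ i ∈ J, ξ i = MvPowerSeries.C (z i) + MvPowerSeries.X i := by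
    intro i hi
    obtain ⟨hi1, hi2⟩ := Finset.mem_filter.1 hi
    show (if c.blk i = 0 then MvPowerSeries.map e (cl.Ξ ν i) else 1) =
      MvPowerSeries.C (if c.blk i = 0 then e (c.S.p ν i) else 1) + MvPowerSeries.X i
    rw [if_pos hi2, if_pos hi2, h2.free i hi1, map_add, MvPowerSeries.map_C, MvPowerSeries.map_X]
  -- integral relations
  have hvars : ∀ l, l ∉ cl.I → c.blk l = 0 → ∀ i ∈ (cl.g ν l).vars, c.blk i = 0 := by
    intro l hl hl0 i hi
    rcases (h1 l hl hl0).1 i hi with h4 | h4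
    · rw [h4, hl0]
    · exact (Finset.mem_filter.1 h4).2
  have hxg : ∀ l, l ∉ cl.I → c.blk l = 0 → aeval x (cl.g ν l) = 0 := by
    intro l hl hl0
    rw [← (h1 l hl hl0).2.1]
    refine Br.aeval_congr _ fun i hi => ?_
    exact if_pos (hvars l hl hl0 i hi)
  have hξg : ∀ l, l ∉ cl.I → c.blk l = 0 → aeval ξ (cl.g ν l) = 0 := by
    intro l hl hl0
    have h4 : aeval ξ (cl.g ν l) = MvPowerSeries.map e (aeval (cl.Ξ ν) (cl.g ν l)) := by
      rw [BZ.map_aevalZ]
      refine Br.aeval_congr _ fun i hi => ?_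
      exact if_pos (hvars l hl hl0 i hi)
    rw [h4, (h1 l hl hl0).2.2.2.1, map_zero]
  have hzg : ∀ l, l ∉ cl.I → c.blk l = 0 → aeval z (pderiv l (cl.g ν l)) ≠ 0 := by
    intro l hl hl0
    have h4 : aeval z (pderiv l (cl.g ν l)) = e (aeval (c.S.p ν) (pderiv l (cl.g ν l))) := by
      rw [BZ.map_aevalZ]
      refine Br.aeval_congr _ fun i hi => ?_
      exact if_pos (hvars l hl hl0 i (Br.vars_pderiv hi))
    rw [h4, Ne, map_eq_zero]
    exact (h1 l hl hl0).2.2.2.2
  have hrel : ∀ l, l ∉ J → ∃ G : MvPolynomial (Fin n) ℂ, (∀ i ∈ G.vars, i = l ∨ i ∈ J) ∧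
      aeval ξ G = 0 ∧ aeval x G = 0 ∧ aeval z (pderiv l G) ≠ 0 := by
    intro l hl
    by_cases hl0 : c.blk l = 0
    · have hlI : l ∉ cl.I := fun h => hl (Finset.mem_filter.2 ⟨h, hl0⟩)
      refine ⟨MvPolynomial.map (algebraMap ℤ ℂ) (cl.g ν l), ?_, ?_, ?_, ?_⟩
      · intro i hi
        exact (h1 l hlI hl0).1 i (vars_map _ _ hi)
      · rw [aeval_map_algebraMap]
        exact hξg l hlI hl0
      · rw [aeval_map_algebraMap]
        exact hxg l hlI hl0
      · rw [pderiv_map, aeval_map_algebraMap]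
        exact hzg l hlI hl0
    · refine ⟨X l - 1, ?_, ?_, ?_, ?_⟩
      · intro i hi
        have h4 : i ∈ (X l : MvPolynomial (Fin n) ℂ).vars ∪ (1 : MvPolynomial (Fin n) ℂ).vars :=
          vars_sub_subset _ hi
        rw [vars_X, vars_one, Finset.union_empty, Finset.mem_singleton] at h4
        exact Or.inl h4
      · rw [map_sub, aeval_X, map_one]
        show (if c.blk l = 0 then MvPowerSeries.map e (cl.Ξ ν l) else 1) - 1 = 0
        rw [if_neg hl0, sub_self]
      · rw [map_sub, aeval_X, map_one]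
        show (if c.blk l = 0 then c.x l else 1) - 1 = 0
        rw [if_neg hl0, sub_self]
      · rw [map_sub, pderiv_X_self, pderiv_one, sub_zero, map_one]
        exact one_ne_zero
  have hdir := Br.core x z hY J ξ hfree hconst hrel
  -- the field of fractions
  let ξ' : Fin n → FC n := fun i => algebraMap (MvPowerSeries (Fin n) ℂ) (FC n) (ξ i)
  have hinj : Function.Injective (algebraMap (MvPowerSeries (Fin n) ℂ) (FC n)) :=
    IsFractionRing.injective _ _
  have hξ' : ∀ F : MvPolynomial (Fin n) ℂ, aeval ξ' F =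
      algebraMap (MvPowerSeries (Fin n) ℂ) (FC n) (aeval ξ F) := by
    intro F
    exact (comp_aeval_apply ξ (IsScalarTower.toAlgHom ℂ (MvPowerSeries (Fin n) ℂ) (FC n)) F).symm
  have hξ0 : ∀ i, ξ' i ≠ 0 := by
    intro i h4
    have h5 : ξ i = 0 := hinj (by rw [map_zero]; exact h4)
    have h6 := hconst i
    rw [h5, map_zero] at h6
    exact hz0 i h6.symm
  have hdir' : ∀ G : MvPolynomial (Fin n) ℂ, aeval ξ' G = 0 → aeval x G = 0 := by
    intro G hG
    rw [hξ'] at hG
    exact hdir G (hinj (by rw [map_zero]; exact hG))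
  have hind : ∀ G : MvPolynomial (Fin n) ℂ, (∀ i ∈ G.vars, i ∈ J) → aeval x G = 0 → G = 0 := by
    intro G hG h4
    refine BZ.no_xC cl 0 G hG ?_
    rw [← h4]
    refine Br.aeval_congr G fun i hi => ?_
    exact (if_pos (Finset.mem_filter.1 (hG i hi)).2).symm
  have halg : ∀ l, IsAlgebraic (Algebra.adjoin ℂ (Set.range fun i : J => ξ' i)) (ξ' l) := by
    intro l
    by_cases hl : l ∈ J
    · exact isAlgebraic_algebraMap (⟨ξ' l, Algebra.subset_adjoin ⟨⟨l, hl⟩, rfl⟩⟩ :
        Algebra.adjoin ℂ (Set.range fun i : J => ξ' i))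
    · obtain ⟨G, hG1, hG2, hG3, hG4⟩ := hrel l hl
      refine Br.alg_of_rel ξ' J l G hG1 (by rw [hξ', hG2, map_zero]) ?_
      rw [hξ']
      intro h4
      have h5 : aeval ξ (pderiv l G) = 0 := hinj (by rw [map_zero]; exact h4)
      have h6 : (MvPowerSeries.constantCoeff (R := ℂ) (σ := Fin n)) (aeval ξ (pderiv l G)) =
          aeval z (pderiv l G) := by
        have h7 : ∀ F : MvPolynomial (Fin n) ℂ,
            (MvPowerSeries.constantCoeff (R := ℂ) (σ := Fin n)) (aeval ξ F) = aeval z F := by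
          intro F
          induction F using MvPolynomial.induction_on with
          | C a =>
            rw [aeval_C, aeval_C]
            exact MvPowerSeries.constantCoeff_C a
          | add p q hp hq => rw [map_add, map_add, map_add, hp, hq]
          | mul_X p i hp => rw [map_mul, map_mul, map_mul, hp, aeval_X, aeval_X, hconst]
        exact h7 _
      rw [h5, map_zero] at h6
      exact hG4 h6.symm
  have hiff : ∀ G : MvPolynomial (Fin n) ℂ, aeval ξ' G = 0 ↔ aeval x G = 0 := fun G =>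
    ⟨hdir' G, Br.conv x ξ' J hdir' hind halg G⟩
  -- Laurent polynomials
  obtain ⟨F', hF'⟩ := Map.exists_poly1 (A := ℂ) (ι := T) (fun a : T => (a : Fin n → ℤ))
    (∑ a : T, C (r a) * X a)
  have hsum : ∀ (G : Type) [Field G] [Algebra ℂ G] (y : Fin n → G),
      aeval (fun a : T => mn y (a : Fin n → ℤ)) (∑ a : T, C (r a) * X a : MvPolynomial T ℂ) =
        ∑ a ∈ T, algebraMap ℂ G (r a) * mn y a := by
    intro G _ _ y
    rw [map_sum, ← Finset.sum_coe_sort T fun a => algebraMap ℂ G (r a) * mn y a]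
    refine Finset.sum_congr rfl fun a _ => ?_
    rw [map_mul, aeval_C, aeval_X]
  have hA := hF' (FC n) ξ' hξ0
  have hB := hF' c.L x hx
  rw [hsum] at hA hB
  have hξ'' : ξ' = fun i => if c.blk i = 0 then cl.xi ν i else 1 := by
    funext i
    show algebraMap (MvPowerSeries (Fin n) ℂ) (FC n)
      (if c.blk i = 0 then MvPowerSeries.map e (cl.Ξ ν i) else 1) = _
    split_ifs
    · rfl
    · exact map_one _
  have e1 : ∑ a ∈ T, algebraMap ℂ (FC n) (r a) * mn ξ' a =
      ∑ a ∈ T, algebraMap ℂ (FC n) (r a) * mn (cl.xi ν) a := by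
    refine Finset.sum_congr rfl fun a ha => ?_
    rw [hξ'', E.mn_one_out (cl.xi ν) (hT a ha)]
  have e2 : ∑ a ∈ T, algebraMap ℂ c.L (r a) * mn x a =
      ∑ a ∈ T, algebraMap ℂ c.L (r a) * mn c.x a := by
    refine Finset.sum_congr rfl fun a ha => ?_
    show algebraMap ℂ c.L (r a) * mn (fun i => if c.blk i = 0 then c.x i else 1) a = _
    rw [E.mn_one_out c.x (hT a ha)]
  rw [e1] at hA
  rw [e2] at hB
  rw [← hA, ← hB]
  exact hiff F'

end Pool.Agent.ZP
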