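import Pool.Agent.Lib.MP_c95b3b_ag_ZP.CL5A
import Pool.Agent.Lib.MP_c95b3b_ag_ZP.CL5B
import Pool.Agent.Lib.MP_c95b3b_ag_ZP.CL5C

/-! Project ZP, block CL: `exists_rels`, `van`, `block_zero_card`, `block_zero_rel`. -/
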