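import Mathlib
import Pool.Agent.Lib.MP_c95b3b_ag_ZP.CF3C
import Pool.Agent.Lib.MP_c95b3b_ag_ZP.CL5

set_option autoImplicit false

/-! Project ZP, block CF: the rank of spaces of exponents on the closures (graded linear Ax
theorem over the ultrapower, ZP_full 2.3). -/

namespace Pool.Agent.ZP

open Module Filter Topology Pool.Agent.SD MvPolynomial

variable {𝓤 : Ultrafilter ℕ} {n q : ℕ}

namespace E

attribute [local instance] algUP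

/-- lower bound for the rank of the forms of a real space in the ultrapower -/
theorem rank_ge {L L0 : Type} [Field L] [Algebra ℂ L] [Field L0] [Algebra ℂ L0]
    {x : ℕ → Fin n → L} {I : Finset (Fin n)} {blk : Fin n → Fin (q + 1)}
    {F : ℕ → Fin n → MvPolynomial (Fin n) ℂ} {T : Finset (Fin n →₀ ℕ)} {x0 : Fin n → L0}
    (hx0 : ∀ i, x0 i ≠ 0) (hAD : AD x0)
    (hx : ∀ᶠ ν in (𝓤 : Filter ℕ), ∀ i, x ν i ≠ 0)
    (hT : ∀ᶠ ν in (𝓤 : Filter ℕ), ∀ l, l ∉ I → (F ν l).support ⊆ T)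
    (h : ∀ᶠ ν in (𝓤 : Filter ℕ), Rl ℂ (x ν) I blk (F ν))
    (hI : ∀ᶠ ν in (𝓤 : Filter ℕ), AlgebraicIndependent ℂ fun i : I => x ν i)
    (hint : ∀ (j : Fin (q + 1)) (G : MvPolynomial (Fin n) ℤ), (∀ i ∈ G.vars, blk i = j) →
      ((∀ᶠ ν in (𝓤 : Filter ℕ), aeval (x ν) G = 0) ↔ aeval x0 G = 0))
    (V : Submodule ℝ (Fin n → ℝ)) (r : ℕ)
    (hr : ∀ Λ : Submodule ℤ (Fin n → ℤ), Gr blk Λ →
      dd x0 blk ⊤ + finrank ℝ (V ⊓ spR Λ : Submodule ℝ (Fin n → ℝ)) + r ≤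
        finrank ℝ V + dd x0 blk Λ + I.card) :
    r ≤ GAx.rkk (rH 𝓤) (fun i => cls 𝓤 fun ν => x ν i) (V : Set (Fin n → ℝ)) := by
  classical
  have hch := charZero_UP 𝓤
  set y : Fin n → UP 𝓤 L := fun i => cls 𝓤 fun ν => x ν i with hy
  have hy0 : ∀ i, y i ≠ 0 := by
    intro i
    rw [hy]
    simp only [ne_eq]
    rw [← ne_eq, cls_ne_zero]
    exact hx.mono fun ν hν => hν i
  have hI' : AlgebraicIndependent (UP 𝓤 ℂ) fun i : I => y i :=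
    algInd_cls (fun ν (i : I) => x ν i) hI
  have hRl := rl_glue (blk := blk) hT h
  set Λ := GAx.Lgr (rH 𝓤) y blk V with hΛ
  have hgr : Gr blk Λ := fun a ha j => GAx.grd_Lgr (rH 𝓤) V a ha j
  have h1 := GAx.graded_lin_ax (rH 𝓤) hy0 (hRl.sep hI') V
  rw [← hΛ, ← tr_rkZk (rH 𝓤) hy0] at h1
  have h2 := tr_graded (k := UP 𝓤 ℂ) hy0 blk Λ ⊤ (fun a _ j => Submodule.mem_top) le_top
  have h3 : I.card ≤ tr (UP 𝓤 ℂ) y ((⊤ : Submodule ℤ (Fin n → ℤ)) : Set (Fin n → ℤ)) := by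
    let e : Fin I.card ≃ I := I.equivFin.symm
    refine le_tr (fun i => Pi.single (e i : Fin n) 1) (fun i => Submodule.mem_top) ?_
    have h4 : (fun i => mn y (Pi.single (e i : Fin n) 1)) = (fun i : I => y i) ∘ e := by
      funext i
      rw [mn_single]
      rfl
    rw [h4]
    exact hI'.comp e e.injective
  have h4 : ∀ (Γ : Submodule ℤ (Fin n → ℤ)) (j : Fin (q + 1)),
      tr ℤ y (lb Γ blk j : Submodule ℤ (Fin n → ℤ)) = rkZ x0 (Γ ⊓ blL blk j) := by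
    intro Γ j
    rw [← tr_int hx0 hAD]
    refine tr_block hy0 hx0 (blk := blk) (j := j) ?_ fun a ha => ha.2
    intro G hG
    rw [← hint j G hG, hy, aeval_int, cls_eq_zero]
  have h5 : ∀ Γ : Submodule ℤ (Fin n → ℤ),
      ∑ j, tr ℤ y (lb Γ blk j : Submodule ℤ (Fin n → ℤ)) = dd x0 blk Γ := by
    intro Γ
    rw [dd]
    exact Finset.sum_congr rfl fun j _ => h4 Γ j
  rw [h5, h5] at h2
  have h6 := hr Λ hgr
  have h7 : finrank ℝ (V ⊓ spR Λ : Submodule ℝ (Fin n → ℝ)) =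
      finrank ℝ (V ⊓ Submodule.span ℝ (rv '' (Λ : Set (Fin n → ℤ))) :
        Submodule ℝ (Fin n → ℝ)) := rfl
  omega

theorem flag {L L0 : Type} [Field L] [Algebra ℂ L] [Field L0] [Algebra ℂ L0]
    {x : ℕ → Fin n → L} {I : Finset (Fin n)} {blk : Fin n → Fin (q + 1)}
    {F : ℕ → Fin n → MvPolynomial (Fin n) ℂ} {T : Finset (Fin n →₀ ℕ)} {x0 : Fin n → L0}
    (hx0 : ∀ i, x0 i ≠ 0) (hAD : AD x0)
    (hx : ∀ᶠ ν in (𝓤 : Filter ℕ), ∀ i, x ν i ≠ 0)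
    (hT : ∀ᶠ ν in (𝓤 : Filter ℕ), ∀ l, l ∉ I → (F ν l).support ⊆ T)
    (h : ∀ᶠ ν in (𝓤 : Filter ℕ), Rl ℂ (x ν) I blk (F ν))
    (hI : ∀ᶠ ν in (𝓤 : Filter ℕ), AlgebraicIndependent ℂ fun i : I => x ν i)
    (hint : ∀ (j : Fin (q + 1)) (G : MvPolynomial (Fin n) ℤ), (∀ i ∈ G.vars, blk i = j) →
      ((∀ᶠ ν in (𝓤 : Filter ℕ), aeval (x ν) G = 0) ↔ aeval x0 G = 0))
    (V1 V2 : Submodule ℝ (Fin n → ℝ)) (h12 : V1 ≤ V2) (r1 r2 : ℕ) (hr : r1 ≤ r2)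
    (h1 : ∀ Λ : Submodule ℤ (Fin n → ℤ), Gr blk Λ →
      dd x0 blk ⊤ + finrank ℝ (V1 ⊓ spR Λ : Submodule ℝ (Fin n → ℝ)) + r1 ≤
        finrank ℝ V1 + dd x0 blk Λ + I.card)
    (h2 : ∀ Λ : Submodule ℤ (Fin n → ℤ), Gr blk Λ →
      dd x0 blk ⊤ + finrank ℝ (V2 ⊓ spR Λ : Submodule ℝ (Fin n → ℝ)) + r2 ≤
        finrank ℝ V2 + dd x0 blk Λ + I.card) :
    ∃ α : Fin r2 → Fin n → ℝ, (∀ i, α i ∈ V2) ∧ (∀ i : Fin r2, (i : ℕ) < r1 → α i ∈ V1) ∧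
      ∀ᶠ ν in (𝓤 : Filter ℕ), LinearIndependent L (fun i => om (x ν) (α i)) := by
  obtain ⟨α, ha, hb, hc⟩ := exists_flag
    (GAx.omk (rH 𝓤) (fun i => cls 𝓤 fun ν => x ν i)) (V1 : Set (Fin n → ℝ))
    (V2 : Set (Fin n → ℝ)) h12 r1 r2 hr (rank_ge hx0 hAD hx hT h hI hint V1 r1 h1)
    (rank_ge hx0 hAD hx hT h hI hint V2 r2 h2)
  exact ⟨α, ha, hb, om_indep hT h hI α hc⟩

/-- integral relations in one block -/
theorem hint {c : Cfg 𝓤 n q} (cl : Cl c) {F : Type} [Field F]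
    (φ : ∀ ν, MvPowerSeries (Fin n) (c.S.K ν) →+* F) (hφ : ∀ ν f, φ ν f = 0 ↔ f = 0)
    (j : Fin (q + 1)) (G : MvPolynomial (Fin n) ℤ) (hG : ∀ i ∈ G.vars, c.blk i = j) :
    (∀ᶠ ν in (𝓤 : Filter ℕ), aeval (fun i => φ ν (cl.Ξ ν i)) G = 0) ↔ aeval c.x G = 0 := by
  constructor
  · intro h
    refine (c.hG G).mp ?_
    filter_upwards [h, cl.br] with ν h3 h4
    rw [aeval_hom, hφ] at h3
    have h5 := const_aeval (ν := ν) h4.const G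
    rw [h3, map_zero] at h5
    exact h5.symm
  · intro h
    filter_upwards [van cl j G hG h] with ν h3
    rw [aeval_hom, hφ]
    exact h3

end E

/-- Let `V1 ≤ V2` be real spaces of exponents and `r1 ≤ r2`, such that
`r + (dim (V ∩ Λ) + dd ⊤ - dd Λ) ≤ dim V + dim of the closure` for all graded `Λ`. Then there are
`r2` exponents in `V2`, the first `r1` in `V1`, whose logarithmic forms are independent on almost
all closures. -/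
theorem rank_flag {c : Cfg 𝓤 n q} (cl : Cl c) (V1 V2 : Submodule ℝ (Fin n → ℝ)) (h12 : V1 ≤ V2)
    (r1 r2 : ℕ) (hr : r1 ≤ r2)
    (h1 : ∀ Λ : Submodule ℤ (Fin n → ℤ), Gr c.blk Λ →
      dd c.x c.blk ⊤ + finrank ℝ (V1 ⊓ spR Λ : Submodule ℝ (Fin n → ℝ)) + r1 ≤
        finrank ℝ V1 + dd c.x c.blk Λ + cl.I.card)
    (h2 : ∀ Λ : Submodule ℤ (Fin n → ℤ), Gr c.blk Λ →
      dd c.x c.blk ⊤ + finrank ℝ (V2 ⊓ spR Λ : Submodule ℝ (Fin n → ℝ)) + r2 ≤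
        finrank ℝ V2 + dd c.x c.blk Λ + cl.I.card) :
    ∃ α : Fin r2 → Fin n → ℝ, (∀ i, α i ∈ V2) ∧ (∀ i : Fin r2, (i : ℕ) < r1 → α i ∈ V1) ∧
      ∀ᶠ ν in (𝓤 : Filter ℕ), LinearIndependent (FC n) (fun i => om (cl.xi ν) (α i)) := by
  have hx : ∀ᶠ ν in (𝓤 : Filter ℕ), ∀ i, cl.xi ν i ≠ 0 := by
    filter_upwards [cl.br] with ν hν i
    rw [E.xi_eq, Ne, E.toFC_eq_zero]
    intro h0
    have h3 := hν.const i
    rw [h0, map_zero] at h3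
    exact c.S.ne ν i h3.symm
  exact E.flag c.hx c.hAD hx (E.xi_sup cl) (E.xi_rl cl) (E.xi_ind cl)
    (E.hint cl (E.toFC c) E.toFC_eq_zero) V1 V2 h12 r1 r2 hr h1 h2

end Pool.Agent.ZP
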