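import Mathlib
import Pool.Agent.Lib.MP_c95b3b_ag_ZP.Defs
import Pool.Agent.Lib.MP_c95b3b_ag_SD.RkAlg
import Pool.Agent.Lib.MP_c95b3b_ag_AL.BC

set_option autoImplicit false

/-! Project ZP, block TY: the dimension of the closures. -/

namespace Pool.Agent.ZP

open MvPolynomial Module Filter Topology Pool.Agent.L3 Pool.Agent.SD Pool.Agent.AL

namespace TYD

/-- translations of the variables are injective -/
theorem transl_injective {ι : Type} (P : ι → ℂ) :
    Function.Injective (aeval (R := ℂ) fun i => (C (P i) + X i : MvPolynomial ι ℂ)) := by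
  have h : (aeval (R := ℂ) fun i => (X i - C (P i) : MvPolynomial ι ℂ)).comp
      (aeval (R := ℂ) fun i => (C (P i) + X i : MvPolynomial ι ℂ)) =
      AlgHom.id ℂ (MvPolynomial ι ℂ) := by
    ext i
    simp
  intro f g hfg
  have h1 := congrArg (aeval (R := ℂ) fun i => (X i - C (P i) : MvPolynomial ι ℂ)) hfg
  rw [← AlgHom.comp_apply, ← AlgHom.comp_apply, h] at h1
  exact h1

/-- the free coordinates of a branch are independent -/
theorem algInd_free {n : ℕ} (I : Finset (Fin n)) (P : Fin n → ℂ)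
    (y : Fin n → MvPowerSeries (Fin n) ℂ)
    (hy : ∀ i ∈ I, y i = MvPowerSeries.C (P i) + MvPowerSeries.X i) :
    AlgebraicIndependent ℂ (fun i : I => algebraMap (MvPowerSeries (Fin n) ℂ) (FC n) (y i)) := by
  have h0 : AlgebraicIndependent ℂ (fun i : I => (C (P i) + X i.1 : MvPolynomial (Fin n) ℂ)) := by
    have h1 : AlgebraicIndependent ℂ (fun i : I => (X i.1 : MvPolynomial (Fin n) ℂ)) :=
      (MvPolynomial.algebraicIndependent_X (Fin n) ℂ).comp _ Subtype.val_injective
    have h2 := h1.map' (f := aeval (R := ℂ) fun i => (C (P i) + X i : MvPolynomial (Fin n) ℂ))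
      (transl_injective P)
    have h3 : (⇑(aeval (R := ℂ) fun i => (C (P i) + X i : MvPolynomial (Fin n) ℂ)) ∘
        fun i : I => (X i.1 : MvPolynomial (Fin n) ℂ)) =
        fun i : I => (C (P i) + X i.1 : MvPolynomial (Fin n) ℂ) := by
      funext i
      simp
    rw [h3] at h2
    exact h2
  let j : MvPolynomial (Fin n) ℂ →ₐ[ℂ] FC n :=
    (IsScalarTower.toAlgHom ℂ (MvPowerSeries (Fin n) ℂ) (FC n)).comp
      (MvPolynomial.coeToMvPowerSeries.algHom ℂ)
  have hjf : ∀ f : MvPolynomial (Fin n) ℂ, j f = algebraMap (MvPowerSeries (Fin n) ℂ) (FC n)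
      (f : MvPowerSeries (Fin n) ℂ) := by
    intro f
    show algebraMap (MvPowerSeries (Fin n) ℂ) (FC n)
      (MvPolynomial.coeToMvPowerSeries.algHom ℂ f) = _
    rw [MvPolynomial.coeToMvPowerSeries.algHom_apply, Algebra.algebraMap_self,
      MvPowerSeries.map_id]
    rfl
  have hj : Function.Injective j := by
    intro f g hfg
    rw [hjf, hjf] at hfg
    have h1 := IsFractionRing.injective (MvPowerSeries (Fin n) ℂ) (FC n) hfg
    exact MvPolynomial.coe_injective (Fin n) ℂ h1
  have h4 := h0.map' hj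
  have h5 : (⇑j ∘ fun i : I => (C (P i) + X i.1 : MvPolynomial (Fin n) ℂ)) =
      fun i : I => algebraMap (MvPowerSeries (Fin n) ℂ) (FC n) (y i) := by
    funext i
    rw [hy i.1 i.2, Function.comp_apply, hjf]
    congr 1
    simp
  rw [h5] at h4
  exact h4

section
variable {F : Type} [Field F] [Algebra ℂ F] {n : ℕ}

/-- a coordinate which satisfies a relation with non-zero derivative is algebraic -/
theorem isAlg (I : Finset (Fin n)) (z : Fin n → F) (l : Fin n)
    (g : MvPolynomial (Fin n) ℤ) (hv : ∀ i ∈ g.vars, i = l ∨ i ∈ I)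
    (h0 : eval₂ (Int.castRingHom F) z g = 0)
    (h1 : eval₂ (Int.castRingHom F) z (pderiv l g) ≠ 0) :
    IsAlgebraic (Algebra.adjoin ℂ (Set.range fun i : I => z i)) (z l) := by
  classical
  let B := Algebra.adjoin ℂ (Set.range fun i : I => z i)
  let u : Fin n → B := fun i => if h : i ∈ I then ⟨z i, Algebra.subset_adjoin ⟨⟨i, h⟩, rfl⟩⟩ else 0
  have hu : ∀ i ∈ I, ((u i : B) : F) = z i := by
    intro i hi
    show ((if h : i ∈ I then (⟨z i, _⟩ : B) else 0 : B) : F) = z i
    rw [dif_pos hi]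
  -- the polynomial in one variable
  let v : Fin n → Polynomial B := fun i => if i = l then Polynomial.X else Polynomial.C (u i)
  have hvl : v l = Polynomial.X := if_pos rfl
  have hvi : ∀ i, i ≠ l → v i = Polynomial.C (u i) := fun i h => if_neg h
  let φ : MvPolynomial (Fin n) ℤ →+* Polynomial B := eval₂Hom (Int.castRingHom (Polynomial B)) v
  have hφX : ∀ i, φ (X i) = v i := fun i => eval₂Hom_X' _ _ _
  have hφC : ∀ a : ℤ, φ (C a) = Polynomial.C (a : B) := by
    intro a
    show eval₂Hom (Int.castRingHom (Polynomial B)) v (C a) = _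
    rw [eval₂Hom_C]
    simp
  let ev : Polynomial B →+* F := Polynomial.eval₂RingHom (algebraMap B F) (z l)
  have hev : ∀ p : Polynomial B, ev p = Polynomial.aeval (z l) p := fun p => rfl
  have hφ : ∀ f : MvPolynomial (Fin n) ℤ,
      ev (φ f) = eval₂ (Int.castRingHom F) (fun i => if i = l then z l else (u i : F)) f := by
    intro f
    induction f using MvPolynomial.induction_on with
    | C a =>
      rw [hφC, hev, Polynomial.aeval_C, eval₂_C]
      simp
    | add p q hp hq => rw [RingHom.map_add, RingHom.map_add, hp, hq, eval₂_add]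
    | mul_X p i hp =>
      rw [RingHom.map_mul, RingHom.map_mul, hp, eval₂_mul, eval₂_X, hφX]
      congr 1
      by_cases h : i = l
      · subst h
        rw [hvl, if_pos rfl, hev, Polynomial.aeval_X]
      · rw [hvi i h, if_neg h, hev, Polynomial.aeval_C]
        rfl
  have hφ' : ∀ f : MvPolynomial (Fin n) ℤ, (∀ i ∈ f.vars, i = l ∨ i ∈ I) →
      ev (φ f) = eval₂ (Int.castRingHom F) z f := by
    intro f hf
    rw [hφ f]
    refine eval₂Hom_congr' rfl (fun i hi _ => ?_) rfl
    by_cases h : i = l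
    · rw [if_pos h, h]
    · rw [if_neg h]
      exact hu i ((hf i hi).resolve_left h)
  have hder : ∀ f : MvPolynomial (Fin n) ℤ, Polynomial.derivative (φ f) = φ (pderiv l f) := by
    intro f
    induction f using MvPolynomial.induction_on with
    | C a => rw [hφC, Polynomial.derivative_C, pderiv_C, RingHom.map_zero]
    | add p q hp hq =>
      rw [RingHom.map_add, Polynomial.derivative_add, hp, hq, map_add (pderiv l),
        RingHom.map_add]
    | mul_X p i hp =>
      rw [RingHom.map_mul, Polynomial.derivative_mul, hp, Derivation.leibniz, pderiv_X,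
        RingHom.map_add, smul_eq_mul, smul_eq_mul, RingHom.map_mul, RingHom.map_mul, hφX]
      by_cases h : i = l
      · subst h
        rw [Pi.single_eq_same, RingHom.map_one, hvl, Polynomial.derivative_X]
        ring
      · rw [Pi.single_eq_of_ne h, RingHom.map_zero, hvi i h, Polynomial.derivative_C]
        ring
  have hev0 : ev (φ g) = 0 := (hφ' g hv).trans h0
  have hpd : ∀ i ∈ (pderiv l g).vars, i ∈ g.vars := by
    intro i hi
    by_contra h
    have h2 : ∀ m ∈ g.support, m i = 0 := by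
      intro m hm
      by_contra h3
      exact h ((mem_vars_iff_mem_support i).2 ⟨m, hm, Finsupp.mem_support_iff.2 h3⟩)
    obtain ⟨m, hm, hmi⟩ := (mem_vars_iff_mem_support i).1 hi
    have h3 : coeff m (pderiv l g) ≠ 0 := mem_support_iff.1 hm
    rw [g.as_sum, map_sum, coeff_sum] at h3
    refine h3 (Finset.sum_eq_zero fun m' hm' => ?_)
    rw [pderiv_monomial, coeff_monomial, if_neg]
    intro h4
    have h5 := congrArg (fun f : Fin n →₀ ℕ => f i) h4
    simp only [Finsupp.coe_tsub, Pi.sub_apply] at h5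
    rw [h2 m' hm', Nat.zero_sub] at h5
    exact (Finsupp.mem_support_iff.1 hmi) h5.symm
  refine ⟨φ g, fun h2 => h1 ?_, hev0⟩
  have h3 := hder g
  rw [h2, Polynomial.derivative_zero] at h3
  rw [← hφ' (pderiv l g) (fun i hi => hv i (hpd i hi)), ← h3, RingHom.map_zero]

theorem dm_abs (z : Fin n → F) (hz : ∀ i, z i ≠ 0) (I : Finset (Fin n))
    (hi : AlgebraicIndependent ℂ (fun i : I => z i)) (g : Fin n → MvPolynomial (Fin n) ℤ)
    (hv : ∀ l, l ∉ I → ∀ i ∈ (g l).vars, i = l ∨ i ∈ I)
    (h0 : ∀ l, l ∉ I → eval₂ (Int.castRingHom F) z (g l) = 0)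
    (h1 : ∀ l, l ∉ I → eval₂ (Int.castRingHom F) z (pderiv l (g l)) ≠ 0) : dm z = I.card := by
  let e : Fin I.card ≃ I := I.equivFin.symm
  have hr : (Set.range fun j => z (e j)) = Set.range fun i : I => z i :=
    e.surjective.range_comp fun i : I => z i
  refine dm_eq hz (κ := fun j => (e j : Fin n)) (hi.comp e e.injective) fun l => ?_
  rw [hr]
  by_cases hl : l ∈ I
  · exact isAlgebraic_algebraMap (⟨z l, Algebra.subset_adjoin ⟨⟨l, hl⟩, rfl⟩⟩ :
      Algebra.adjoin ℂ (Set.range fun i : I => z i))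
  · exact isAlg I z l (g l) (hv l hl) (h0 l hl) (h1 l hl)

end

end TYD

section
variable {𝓤 : Ultrafilter ℕ} {n q : ℕ}

theorem Cl.xi_ne {c : Cfg 𝓤 n q} (cl : Cl c) :
    ∀ᶠ ν in (𝓤 : Filter ℕ), ∀ i, cl.xi ν i ≠ 0 := by
  filter_upwards [cl.br] with ν h i h0
  have h1 : MvPowerSeries.map (c.e ν) (cl.Ξ ν i) = 0 :=
    (IsFractionRing.injective (MvPowerSeries (Fin n) ℂ) (FC n)) (h0.trans (map_zero _).symm)
  have h2 := congrArg MvPowerSeries.constantCoeff h1
  rw [MvPowerSeries.constantCoeff_map, h.const i, map_zero] at h2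
  exact c.S.ne ν i ((c.e ν).injective (h2.trans (map_zero _).symm))

theorem Cl.eval₂_xi {c : Cfg 𝓤 n q} (cl : Cl c) (ν : ℕ) (f : MvPolynomial (Fin n) ℤ) :
    eval₂ (Int.castRingHom (FC n)) (cl.xi ν) f = algebraMap (MvPowerSeries (Fin n) ℂ) (FC n)
      (MvPowerSeries.map (c.e ν) (aeval (cl.Ξ ν) f)) := by
  induction f using MvPolynomial.induction_on with
  | C a =>
    rw [eval₂_C, MvPolynomial.algHom_C]
    simp
  | add p q hp hq => rw [eval₂_add, hp, hq, map_add, map_add, map_add]
  | mul_X p i hp =>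
    rw [eval₂_mul, eval₂_X, hp, map_mul, map_mul, map_mul, aeval_X]
    rfl

theorem Cl.algInd {c : Cfg 𝓤 n q} (cl : Cl c) :
    ∀ᶠ ν in (𝓤 : Filter ℕ), AlgebraicIndependent ℂ (fun i : cl.I => cl.xi ν i) := by
  filter_upwards [cl.br] with ν h
  have h1 := TYD.algInd_free cl.I (fun i => c.e ν (c.S.p ν i))
    (fun i => MvPowerSeries.map (c.e ν) (cl.Ξ ν i)) fun i hi => by
      rw [h.free i hi, map_add, MvPowerSeries.map_C, MvPowerSeries.map_X]
  exact h1

theorem Cl.dm_xi {c : Cfg 𝓤 n q} (cl : Cl c) :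
    ∀ᶠ ν in (𝓤 : Filter ℕ), dm (cl.xi ν) = cl.I.card := by
  filter_upwards [cl.xi_ne, cl.algInd, cl.br, cl.rel] with ν hx hi h hr
  refine TYD.dm_abs (cl.xi ν) hx cl.I hi (cl.g ν)
    (fun l hl i hi => (hr.1.vars l hl i hi).imp id And.left) (fun l hl => ?_) fun l hl => ?_
  · rw [cl.eval₂_xi, h.rel l hl, map_zero, map_zero]
  · rw [cl.eval₂_xi]
    intro h0
    have h1 := (IsFractionRing.injective (MvPowerSeries (Fin n) ℂ) (FC n))
      (h0.trans (map_zero _).symm)
    have h2 := congrArg MvPowerSeries.constantCoeff h1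
    rw [MvPowerSeries.constantCoeff_map, BC.const_aeval (c.S.p ν) _ h.const, map_zero] at h2
    exact hr.1.der l hl ((c.e ν).injective (h2.trans (map_zero _).symm))

end

end Pool.Agent.ZP
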