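import Mathlib
import Pool.Agent.Lib.MP_c95b3b_ag_ZP.Defs
import Pool.Agent.Lib.MP_c95b3b_ag_ZP.CL5
import Pool.Agent.Lib.MP_c95b3b_ag_ZP.TYD
import Pool.Agent.Lib.MP_c95b3b_ag_GC.Seq
import Pool.Agent.Lib.MP_c95b3b_ag_AL.ZA

set_option autoImplicit false

/-! Project ZP, block TY: types of the closures (from `GC.cones`, ZP_full 3). -/

namespace Pool.Agent.ZP

open Module Filter Topology Pool.Agent.L3 Pool.Agent.SD

variable {𝓤 : Ultrafilter ℕ} {n q : ℕ}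

namespace TY

open MvPolynomial Pool.Agent.AL

/-- relations of bounded degree and size in the blocks -/
theorem relZ_of {F : Type} [Field F] {β : Type} (z : Fin n → F) (blk : Fin n → β) (T : β → ℕ)
    (δ : ℕ) (σ : β → ℝ)
    (h : ∀ (j : β) (J : Finset (Fin n)), (∀ i ∈ J, blk i = j) → T j < J.card →
      ∃ f : MvPolynomial (Fin n) ℤ, f ≠ 0 ∧ f.vars ⊆ J ∧ (∀ i, f.degreeOf i ≤ δ) ∧
        Real.log (l1 f) ≤ σ j ∧ eval₂ (Int.castRingHom F) z f = 0) :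
    GC.RelZ z blk T (n * δ) σ := by
  classical
  intro j J hJ hJb
  obtain ⟨f, hf, hfv, hfd, hfl, hf0⟩ := h j (Finset.univ.image J) (by
    intro i hi
    obtain ⟨i', -, rfl⟩ := Finset.mem_image.1 hi
    exact hJb i') (by
    rw [Finset.card_image_of_injective _ hJ, Finset.card_univ, Fintype.card_fin]
    exact Nat.lt_succ_self _)
  obtain ⟨g, rfl⟩ := exists_rename_eq_of_vars_subset_range f J hJ (by
    intro i hi
    obtain ⟨i', -, h1⟩ := Finset.mem_image.1 (hfv (Finset.mem_coe.1 hi))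
    exact ⟨i', h1⟩)
  have hg : g ≠ 0 := by
    rintro rfl
    exact hf (map_zero _)
  refine ⟨g, hg, ?_, ?_, ?_⟩
  · refine Finset.sup_le fun m hm => ?_
    rw [Finsupp.sum_fintype _ _ fun _ => rfl]
    have h1 : ∀ i, m i ≤ δ := by
      intro i
      have h2 := hfd (J i)
      rw [degreeOf_rename_of_injective hJ] at h2
      exact (degreeOf_le_iff.1 h2) m hm
    calc ∑ i, m i ≤ ∑ _i : Fin (T j + 1), δ := Finset.sum_le_sum fun i _ => h1 i
      _ = (T j + 1) * δ := by rw [Finset.sum_const, Finset.card_univ, Fintype.card_fin, smul_eq_mul]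
      _ ≤ n * δ := by
        refine Nat.mul_le_mul_right _ ?_
        have := Fintype.card_le_of_injective J hJ
        rwa [Fintype.card_fin, Fintype.card_fin] at this
  · intro m
    have h1 : 0 < l1 (rename J g) := lt_of_lt_of_le zero_lt_one (one_le_l1 hf)
    have h2 : l1 (rename J g) ≤ Real.exp (σ j) := (Real.log_le_iff_le_exp h1).1 hfl
    have h3 := abs_coeff_le_l1 (rename J g) (m.mapDomain J)
    rw [coeff_rename_mapDomain J hJ] at h3
    exact h3.trans h2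
  · rw [eval₂_rename] at hf0
    rw [aeval_def, ← hf0]
    congr 1

theorem Cl.relZ {c : Cfg 𝓤 n q} (cl : Cl c) : ∃ δ : ℕ, ∀ᶠ ν in (𝓤 : Filter ℕ),
    GC.RelZ (cl.xi ν) c.blk (fun j => (cl.I.filter fun i => c.blk i = j).card) (n * δ)
      (fun j => δ * (c.s ν j / c.s ν 0)) := by
  obtain ⟨δ, h⟩ := exists_rels cl
  refine ⟨δ, h.mono fun ν hν => relZ_of _ _ _ _ _ fun j J hJ hc => ?_⟩
  obtain ⟨f, h1, h2, h3, h4, h5⟩ := hν j J hJ hc
  refine ⟨f, h1, h2, h3, h4, ?_⟩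
  rw [cl.eval₂_xi, h5, map_zero, map_zero]

theorem card_sum (I : Finset (Fin n)) (blk : Fin n → Fin (q + 1)) :
    ∑ j, (I.filter fun i => blk i = j).card = I.card :=
  (Finset.card_eq_sum_card_fiberwise (f := blk) (s := I) (t := Finset.univ)
    fun _ _ => Finset.mem_coe.2 (Finset.mem_univ _)).symm

theorem sig_nonneg (c : Cfg 𝓤 n q) (δ ν : ℕ) (j : Fin (q + 1)) :
    0 ≤ (δ : ℝ) * (c.s ν j / c.s ν 0) := by
  have h1 := c.s_one ν
  have h2 := c.s_le ν j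
  have h3 : 0 ≤ c.s ν j := by linarith
  have h4 : 0 ≤ c.s ν 0 := by linarith
  positivity

theorem toG {L : Type} [Field L] [Algebra ℂ L] {t : ℕ} {x : Fin n → L}
    {A : (Fin n → ℤ) →+ (Fin t → ℤ)} {M : Matrix (Fin t) (Fin t) ℤ} {c : (Fin n → ℤ) → ℂ}
    (h : LPr x A M c) : GC.LPr x A M c := ⟨h.1, h.2.1, h.2.2.1, h.2.2.2⟩

/-- everything about a type at almost all indices -/
theorem all {c : Cfg 𝓤 n q} {cl : Cl c} (T : Ty cl) : ∃ δ : ℕ, ∀ᶠ ν in (𝓤 : Filter ℕ),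
    (∀ i, cl.xi ν i ≠ 0) ∧ GC.LPr (cl.xi ν) T.A (T.M ν) (T.cc ν) ∧
    GC.RelZ (cl.xi ν) c.blk (fun j => (cl.I.filter fun i => c.blk i = j).card) (n * δ)
      (fun j => δ * (c.s ν j / c.s ν 0)) := by
  obtain ⟨δ, h⟩ := Cl.relZ cl
  refine ⟨δ, ?_⟩
  filter_upwards [h, cl.xi_ne, T.lpr] with ν h1 h2 h3
  exact ⟨h2, toG h3, h1⟩

theorem map_inv' {K : Type} [Field K] (e : K →+* ℂ) (f : MvPowerSeries (Fin n) K)
    (hf : MvPowerSeries.constantCoeff f ≠ 0) :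
    algebraMap (MvPowerSeries (Fin n) ℂ) (FC n) (MvPowerSeries.map e f⁻¹) =
      (algebraMap (MvPowerSeries (Fin n) ℂ) (FC n) (MvPowerSeries.map e f))⁻¹ := by
  refine eq_inv_of_mul_eq_one_left ?_
  rw [← map_mul, ← map_mul, MvPowerSeries.inv_mul_cancel f hf, map_one, map_one]

theorem psm_xi {c : Cfg 𝓤 n q} (cl : Cl c) (ν : ℕ)
    (h : ∀ i, MvPowerSeries.constantCoeff (cl.Ξ ν i) = c.S.p ν i) (a : Fin n → ℤ) :
    algebraMap (MvPowerSeries (Fin n) ℂ) (FC n) (MvPowerSeries.map (c.e ν) (psm (cl.Ξ ν) a)) =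
      mn (cl.xi ν) a := by
  rw [psm, map_prod, map_prod, mn]
  refine Finset.prod_congr rfl fun i _ => ?_
  have h1 : MvPowerSeries.constantCoeff (cl.Ξ ν i) ≠ 0 := by
    rw [h i]
    exact c.S.ne ν i
  rw [map_mul, map_mul, map_pow, map_pow, map_pow, map_pow, map_inv' _ _ h1]
  show (cl.xi ν i) ^ (a i).toNat * (cl.xi ν i)⁻¹ ^ (-a i).toNat = cl.xi ν i ^ a i
  rcases le_total 0 (a i) with h2 | h2
  · rw [Int.toNat_of_nonpos (neg_nonpos.2 h2), pow_zero, mul_one, ← zpow_natCast,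
      Int.toNat_of_nonneg h2]
  · rw [Int.toNat_of_nonpos h2, pow_zero, one_mul, ← zpow_natCast,
      Int.toNat_of_nonneg (neg_nonneg.2 h2), inv_zpow, zpow_neg, inv_inv]

end TY

open TY

/-- existence of types -/
theorem exists_type {c : Cfg 𝓤 n q} (cl : Cl c) (r : ℕ) (α : Fin r → Fin n → ℝ)
    (hα : ∀ᶠ ν in (𝓤 : Filter ℕ), LinearIndependent (FC n) (fun i => om (cl.xi ν) (α i))) :
    ∃ T : Ty cl, LinearIndependent ℝ (fun i => AR T.A (α i)) := by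
  classical
  obtain ⟨δ, hδ⟩ := TY.Cl.relZ cl
  obtain ⟨A, hs, -, hli, hev⟩ := GC.type_seq (𝓤 := 𝓤) (fun _ => FC n) (fun ν => cl.xi ν) c.blk
    (fun j => (cl.I.filter fun i => c.blk i = j).card) (card_sum cl.I c.blk)
    (fun ν j => δ * (c.s ν j / c.s ν 0)) cl.xi_ne cl.dm_xi
    (Eventually.of_forall fun ν j => sig_nonneg c δ ν j) hδ α hα
  let P : ℕ → Matrix (Fin cl.I.card) (Fin cl.I.card) ℤ → ((Fin n → ℤ) → ℂ) → Prop :=
    fun ν M cc => LPr (cl.xi ν) A M cc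
  have hP : ∀ᶠ ν in (𝓤 : Filter ℕ), ∃ M cc, P ν M cc := by
    filter_upwards [hev] with ν hν
    obtain ⟨M, cc, lam, h1, -⟩ := hν
    exact ⟨M, cc, h1.det, h1.ne, h1.add, h1.lp⟩
  let M : ℕ → Matrix (Fin cl.I.card) (Fin cl.I.card) ℤ :=
    fun ν => if h : ∃ M cc, P ν M cc then h.choose else 0
  let cc : ℕ → (Fin n → ℤ) → ℂ :=
    fun ν => if h : ∃ M cc, P ν M cc then h.choose_spec.choose else 0
  refine ⟨⟨A, hs, M, cc, ?_⟩, hli⟩
  filter_upwards [hP] with ν hν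
  have h1 : M ν = hν.choose := dif_pos hν
  have h2 : cc ν = hν.choose_spec.choose := dif_pos hν
  rw [h1, h2]
  exact hν.choose_spec.choose_spec

/-- the kernel of a type is graded -/
theorem Ty.graded {c : Cfg 𝓤 n q} {cl : Cl c} (T : Ty cl) (a : Fin n → ℤ) (ha : T.A a = 0)
    (j : Fin (q + 1)) : T.A (pj c.blk j a) = 0 := by
  classical
  obtain ⟨δ, hδ⟩ := TY.all T
  obtain ⟨ν, h1, h2, h3⟩ := hδ.exists
  have h4 := (h2.graded h1 T.surj (sig_nonneg c δ ν) h3 (card_sum cl.I c.blk)).1 a ha j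
  convert h4 using 2
  funext i
  simp only [pj, GC.res]

/-- coordinates on which the type is injective, as many as parameters in every block -/
theorem Ty.coords {c : Cfg 𝓤 n q} {cl : Cl c} (T : Ty cl) : ∃ J : Finset (Fin n),
    (∀ j, (J.filter fun i => c.blk i = j).card = (cl.I.filter fun i => c.blk i = j).card) ∧
    ∀ a : Fin n → ℤ, (∀ i, i ∉ J → a i = 0) → T.A a = 0 → a = 0 := by
  classical
  obtain ⟨δ, hδ⟩ := TY.all T
  obtain ⟨ν, h1, h2, h3⟩ := hδ.exists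
  obtain ⟨B, hB, hli, hc⟩ := GC.Blocks.exists_basis h1 h2 T.surj h3 (card_sum cl.I c.blk)
  refine ⟨Finset.univ.image B, fun j => ?_, fun a ha hA => ?_⟩
  · rw [← hc j, Finset.filter_image, Finset.card_image_of_injective _ hB]
  · refine GC.Blocks.eq_zero_of_supp hB hli a hA fun l hl => ?_
    by_contra h0
    exact hl (ha l fun h => h0 (by
      obtain ⟨i, -, h4⟩ := Finset.mem_image.1 h
      exact ⟨i, h4⟩))

/-- monomials with different classes are independent on the branches -/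
theorem Ty.li {c : Cfg 𝓤 n q} {cl : Cl c} (T : Ty cl) : ∀ᶠ ν in (𝓤 : Filter ℕ),
    ∀ (Q : Finset (Fin n → ℤ)) (r : (Fin n → ℤ) → ℤ),
      Set.InjOn T.A (Q : Set (Fin n → ℤ)) → (∃ a ∈ Q, r a ≠ 0) →
      lp (cl.Ξ ν) Q (fun a => (r a : c.S.K ν)) ≠ 0 := by
  classical
  filter_upwards [T.lpr, cl.br] with ν h hb Q r hQ hr h0
  obtain ⟨a0, ha0, hra⟩ := hr
  have h1 := GC.li_of_lp (cl.xi ν) T.A (T.M ν) (T.cc ν) h.1 h.2.1 h.2.2.2 Q hQ
  have h2 : ∑ a : Q, (r a : ℂ) • mn (cl.xi ν) a.1 = 0 := by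
    have h3 := congrArg (fun f => algebraMap (MvPowerSeries (Fin n) ℂ) (FC n)
      (MvPowerSeries.map (c.e ν) f)) h0
    simp only [lp, map_sum, map_zero] at h3
    rw [Finset.sum_coe_sort Q (fun a => (r a : ℂ) • mn (cl.xi ν) a), ← h3]
    refine Finset.sum_congr rfl fun a _ => ?_
    rw [map_mul, map_mul, psm_xi cl ν hb.const, MvPowerSeries.map_C, Algebra.smul_def, map_intCast,
      map_intCast]
    simp
  have h3 := Fintype.linearIndependent_iff.1 h1 _ h2 ⟨a0, ha0⟩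
  exact hra (by exact_mod_cast h3)

/-- the size of the leading coefficients in the presence of a bounded block -/
theorem Ty.bound {c : Cfg 𝓤 n q} {cl : Cl c} (T : Ty cl) (_hb : c.bd) : ∃ C : ℝ,
    ∀ᶠ ν in (𝓤 : Filter ℕ), ∀ a : Fin n → ℤ, T.A a = 0 →
      |Real.log ‖T.cc ν a‖| ≤ C * ∑ i, |(a i : ℝ)| * c.s ν (c.blk i) := by
  classical
  obtain ⟨δ, hδ⟩ := TY.all T
  refine ⟨δ + n * Real.log (((n * δ : ℕ) : ℝ) + 1), ?_⟩
  filter_upwards [hδ] with ν hν a ha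
  obtain ⟨h1, h2, h3⟩ := hν
  obtain ⟨-, lam, h4, h5⟩ := h2.graded h1 T.surj (sig_nonneg c δ ν) h3 (card_sum cl.I c.blk)
  rw [h5 a ha, Finset.mul_sum]
  refine (Finset.abs_sum_le_sum_abs _ _).trans (Finset.sum_le_sum fun i _ => ?_)
  rw [abs_mul]
  have hs0 := c.s_one ν
  have hs := c.s_le ν (c.blk i)
  have h6 : c.s ν (c.blk i) / c.s ν 0 ≤ c.s ν (c.blk i) := by
    refine div_le_self (by linarith) hs0
  have h7 : 0 ≤ (n : ℝ) * Real.log (((n * δ : ℕ) : ℝ) + 1) := by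
    have : 0 ≤ Real.log (((n * δ : ℕ) : ℝ) + 1) := Real.log_nonneg (by
      have : (0 : ℝ) ≤ ((n * δ : ℕ) : ℝ) := Nat.cast_nonneg _
      linarith)
    positivity
  have h8 : |lam i| ≤ (δ + n * Real.log (((n * δ : ℕ) : ℝ) + 1)) * c.s ν (c.blk i) := by
    refine (h4 i).trans ?_
    have h9 : (δ : ℝ) * (c.s ν (c.blk i) / c.s ν 0) ≤ δ * c.s ν (c.blk i) :=
      mul_le_mul_of_nonneg_left h6 (Nat.cast_nonneg _)
    nlinarith [hs0.trans hs]
  calc |(a i : ℝ)| * |lam i| ≤ |(a i : ℝ)| *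
      ((δ + n * Real.log (((n * δ : ℕ) : ℝ) + 1)) * c.s ν (c.blk i)) :=
        mul_le_mul_of_nonneg_left h8 (abs_nonneg _)
    _ = _ := by ring

end Pool.Agent.ZP
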