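import Mathlib
import Pool.Agent.Lib.MP_c95b3b_ag_ZP.Defs

set_option autoImplicit false

/-! Project ZP (MP_c95b3b_ag), block (5.1), dual form: the dimension of the projection to the block
`0` of the space `W` of the neutral exponents which are trivial for the type in the blocks `≠ 0`. -/

namespace Pool.Agent.ZP

open Module

variable {n q t : ℕ}

/-- `AR` as a linear map -/
noncomputable def ARm (A : (Fin n → ℤ) →+ (Fin t → ℤ)) : (Fin n → ℝ) →ₗ[ℝ] (Fin t → ℝ) where
  toFun := AR A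
  map_add' := by
    intro v w
    funext i
    simp only [AR, Pi.add_apply, add_mul, Finset.sum_add_distrib]
  map_smul' := by
    intro c v
    funext i
    simp only [AR, Pi.smul_apply, smul_eq_mul, RingHom.id_apply, Finset.mul_sum, mul_assoc]

theorem ARm_apply (A : (Fin n → ℤ) →+ (Fin t → ℤ)) (v : Fin n → ℝ) : ARm A v = AR A v := rfl

/-- the projection to the block `j`, as a linear map -/
noncomputable def pjm (blk : Fin n → Fin (q + 1)) (j : Fin (q + 1)) :
    (Fin n → ℝ) →ₗ[ℝ] (Fin n → ℝ) where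
  toFun := pj blk j
  map_add' := by
    intro a b
    funext i
    simp only [pj, Pi.add_apply]
    split_ifs <;> simp
  map_smul' := by
    intro c a
    funext i
    simp only [pj, Pi.smul_apply, RingHom.id_apply]
    split_ifs <;> simp

/-- the restriction to the block `0` -/
noncomputable def res0 (blk : Fin n → Fin (q + 1)) : (Fin n → ℝ) →ₗ[ℝ] (B0 blk → ℝ) where
  toFun b l := b l.1
  map_add' _ _ := rfl
  map_smul' _ _ := rfl

theorem sub_pj_mem (blk : Fin n → Fin (q + 1)) (b : Fin n → ℝ) : b - pj blk 0 b ∈ uR blk := by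
  intro i hi
  simp [pj, hi]

theorem pj_of_mem_uR {blk : Fin n → Fin (q + 1)} {b : Fin n → ℝ} (hb : b ∈ uR blk) :
    pj blk 0 b = 0 := by
  funext i
  simp only [pj, Pi.zero_apply]
  split_ifs with h
  · exact hb i h
  · rfl

/-- the neutral exponents which are trivial for `A` in the blocks `≠ 0` -/
noncomputable def WW (blk : Fin n → Fin (q + 1)) (V : Submodule ℝ (Fin n → ℝ))
    (A : (Fin n → ℤ) →+ (Fin t → ℤ)) : Submodule ℝ (Fin n → ℝ) :=
  V ⊓ LinearMap.ker (ARm A ∘ₗ (LinearMap.id - pjm blk 0))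

theorem mem_WW {blk : Fin n → Fin (q + 1)} {V : Submodule ℝ (Fin n → ℝ)}
    {A : (Fin n → ℤ) →+ (Fin t → ℤ)} {b : Fin n → ℝ} :
    b ∈ WW blk V A ↔ b ∈ V ∧ AR A (b - pj blk 0 b) = 0 := Iff.rfl

theorem Ty.W_eq {𝓤 : Ultrafilter ℕ} {c : Cfg 𝓤 n q} {cl : Cl c} (T : Ty cl) :
    T.W = WW c.blk c.V T.A := rfl

/-- rank-nullity on a subspace -/
theorem finrank_map_add {M N : Type} [AddCommGroup M] [Module ℝ M] [AddCommGroup N] [Module ℝ N]
    [FiniteDimensional ℝ M] (f : M →ₗ[ℝ] N) (V : Submodule ℝ M) :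
    finrank ℝ (V.map f) + finrank ℝ (V ⊓ LinearMap.ker f : Submodule ℝ M) = finrank ℝ V := by
  have h := LinearMap.finrank_range_add_finrank_ker (f.domRestrict V)
  have h1 : LinearMap.range (f.domRestrict V) = V.map f := by
    ext y
    constructor
    · rintro ⟨x, rfl⟩
      exact ⟨x.1, x.2, rfl⟩
    · rintro ⟨x, hx, rfl⟩
      exact ⟨⟨x, hx⟩, rfl⟩
  have h2 : finrank ℝ (LinearMap.ker (f.domRestrict V)) =
      finrank ℝ (V ⊓ LinearMap.ker f : Submodule ℝ M) := by
    have h3 : (LinearMap.ker (f.domRestrict V)).map V.subtype = V ⊓ LinearMap.ker f := by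
      ext y
      constructor
      · rintro ⟨x, hx, rfl⟩
        exact ⟨x.2, hx⟩
      · rintro ⟨hy, hy'⟩
        exact ⟨⟨y, hy⟩, hy', rfl⟩
    rw [← h3]
    exact (LinearEquiv.finrank_eq (Submodule.equivMapOfInjective _ V.injective_subtype _))
  rw [h1, h2] at h
  exact h

/-- (5.1): the space `W` has a projection of dimension at least `d0 + 1` to the block `0`. -/
theorem finrank_res0_WW (blk : Fin n → Fin (q + 1)) (V : Submodule ℝ (Fin n → ℝ))
    (A : (Fin n → ℤ) →+ (Fin t → ℤ)) {t1 d0 : ℕ} (ht : t1 < t)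
    (hA1 : finrank ℝ ((uR blk).map (ARm A)) ≤ t1) (α : Fin t → Fin n → ℝ)
    (hαV : ∀ i, α i ∈ V)
    (hα : ∀ i : Fin t, (i : ℕ) + finrank ℝ V < t1 + d0 + 1 +
      finrank ℝ (V ⊓ uR blk : Submodule ℝ (Fin n → ℝ)) → α i ∈ uR blk)
    (hli : LinearIndependent ℝ (fun i => AR A (α i))) :
    d0 + 1 ≤ finrank ℝ ((WW blk V A).map (res0 blk)) := by
  classical
  set ρ : ℕ := t1 + d0 + 1 + finrank ℝ (V ⊓ uR blk : Submodule ℝ (Fin n → ℝ)) -
    finrank ℝ V with hρ
  -- the dimension of `W`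
  have h1 := finrank_map_add (ARm A ∘ₗ (LinearMap.id - pjm blk 0)) V
  have h1' : finrank ℝ (V.map (ARm A ∘ₗ (LinearMap.id - pjm blk 0))) ≤ t1 := by
    refine le_trans (Submodule.finrank_mono ?_) hA1
    rintro _ ⟨b, _, rfl⟩
    exact ⟨b - pj blk 0 b, sub_pj_mem blk b, rfl⟩
  -- the kernel of the projection
  have h2 := finrank_map_add (res0 blk) (WW blk V A)
  have h3 : finrank ℝ (WW blk V A ⊓ LinearMap.ker (res0 blk) : Submodule ℝ (Fin n → ℝ)) ≤
      finrank ℝ ((V ⊓ uR blk) ⊓ LinearMap.ker (ARm A) : Submodule ℝ (Fin n → ℝ)) := by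
    refine Submodule.finrank_mono ?_
    rintro b ⟨⟨hbV, hb⟩, hb0⟩
    have hbu : b ∈ uR blk := by
      intro i hi
      exact congrFun (LinearMap.mem_ker.1 hb0) ⟨i, hi⟩
    refine ⟨⟨hbV, hbu⟩, ?_⟩
    have h4 : AR A (b - pj blk 0 b) = 0 := hb
    rw [pj_of_mem_uR hbu, sub_zero] at h4
    exact h4
  have h5 := finrank_map_add (ARm A) (V ⊓ uR blk)
  -- the number of the `α i` in the blocks `≠ 0`
  have key : ∀ m : ℕ, m ≤ ρ → m ≤ t →
      m ≤ finrank ℝ ((V ⊓ uR blk).map (ARm A)) := by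
    intro m hm hmt
    have h6 : LinearIndependent ℝ (fun i : Fin m => AR A (α (Fin.castLE hmt i))) :=
      hli.comp _ (Fin.castLE_injective hmt)
    have h7 : ∀ i : Fin m, AR A (α (Fin.castLE hmt i)) ∈ (V ⊓ uR blk).map (ARm A) := by
      intro i
      refine ⟨α (Fin.castLE hmt i), ⟨hαV _, hα _ ?_⟩, rfl⟩
      have := i.2
      simp only [Fin.val_castLE]
      omega
    have h8 : LinearIndependent ℝ (fun i : Fin m =>
        (⟨_, h7 i⟩ : (V ⊓ uR blk).map (ARm A))) := by
      apply LinearIndependent.of_comp ((V ⊓ uR blk).map (ARm A)).subtype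
      exact h6
    simpa using h8.fintype_card_le_finrank
  have h9 : finrank ℝ ((V ⊓ uR blk).map (ARm A)) ≤ t1 :=
    le_trans (Submodule.finrank_mono (Submodule.map_mono inf_le_right)) hA1
  have h10 : ρ ≤ t := by
    by_contra hcon
    have := key t (by omega) le_rfl
    omega
  have h11 := key ρ le_rfl h10
  have h12 : finrank ℝ (V ⊓ LinearMap.ker (ARm A ∘ₗ (LinearMap.id - pjm blk 0)) :
      Submodule ℝ (Fin n → ℝ)) = finrank ℝ (WW blk V A) := rfl
  omega

end Pool.Agent.ZP
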