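import Mathlib
import Pool.Agent.Lib.MP_c95b3b_ag_ZP.WRank
import Pool.Agent.Lib.MP_c95b3b_ag_ZP.TY

set_option autoImplicit false

/-! Project ZP, block CF, module CF4A: the real extension of a type with graded kernel. -/

namespace Pool.Agent.ZP

open Module Filter Topology Pool.Agent.SD

variable {n q t : ℕ}

theorem hom_eq {m t : ℕ} (A : (Fin m → ℤ) →+ (Fin t → ℤ)) (a : Fin m → ℤ) :
    A a = ∑ l, a l • A (Pi.single l 1) := by
  have h : a = ∑ l, a l • (Pi.single l 1 : Fin m → ℤ) := by
    funext j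
    rw [Finset.sum_apply, Finset.sum_eq_single j]
    · rw [Pi.smul_apply, Pi.single_eq_same, smul_eq_mul, mul_one]
    · intro l _ hl
      rw [Pi.smul_apply, Pi.single_eq_of_ne hl.symm, smul_zero]
    · intro hj
      exact absurd (Finset.mem_univ j) hj
  conv_lhs => rw [h]
  rw [map_sum]
  exact Finset.sum_congr rfl fun l _ => map_zsmul A _ _

theorem AR_rv (A : (Fin n → ℤ) →+ (Fin t → ℤ)) (a : Fin n → ℤ) : AR A (rv a) = rv (A a) := by
  funext i
  rw [hom_eq A a]
  simp only [AR, rv, Finset.sum_apply, Pi.smul_apply, smul_eq_mul, Int.cast_sum, Int.cast_mul]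

theorem pj_add (blk : Fin n → Fin (q + 1)) (j : Fin (q + 1)) (a b : Fin n → ℤ) :
    pj blk j (a + b) = pj blk j a + pj blk j b := by
  funext i
  simp only [pj, Pi.add_apply]
  split_ifs <;> simp

theorem pj_neg (blk : Fin n → Fin (q + 1)) (j : Fin (q + 1)) (a : Fin n → ℤ) :
    pj blk j (-a) = -pj blk j a := by
  funext i
  simp only [pj, Pi.neg_apply]
  split_ifs <;> simp

theorem pj_single (blk : Fin n → Fin (q + 1)) (j : Fin (q + 1)) (l : Fin n) :
    pj blk j (Pi.single l (1 : ℤ)) = if blk l = j then Pi.single l 1 else 0 := by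
  funext i
  simp only [pj]
  by_cases h : i = l
  · subst h
    split_ifs <;> simp
  · split_ifs <;> simp [h]

/-- the projections to the blocks descend to the values of `A` if the kernel of `A` is graded -/
theorem exists_pr {A : (Fin n → ℤ) →+ (Fin t → ℤ)} (hs : Function.Surjective A)
    {blk : Fin n → Fin (q + 1)} (hg : ∀ a, A a = 0 → ∀ j, A (pj blk j a) = 0) (j : Fin (q + 1)) :
    ∃ P : (Fin t → ℤ) →+ (Fin t → ℤ), ∀ a, P (A a) = A (pj blk j a) := by
  have key : ∀ a b, A a = A b → A (pj blk j a) = A (pj blk j b) := by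
    intro a b h
    have h1 : A (a + -b) = 0 := by rw [map_add, map_neg, h, add_neg_cancel]
    have h2 := hg _ h1 j
    rw [pj_add, pj_neg, map_add, map_neg, add_neg_eq_zero] at h2
    exact h2
  refine ⟨AddMonoidHom.mk' (fun y => A (pj blk j (Function.surjInv hs y))) ?_, ?_⟩
  · intro y z
    rw [← map_add, ← pj_add]
    apply key
    rw [map_add, Function.surjInv_eq hs, Function.surjInv_eq hs, Function.surjInv_eq hs]
  · intro a
    exact key _ _ (Function.surjInv_eq hs _)

theorem AR_pj {A : (Fin n → ℤ) →+ (Fin t → ℤ)} {blk : Fin n → Fin (q + 1)} {j : Fin (q + 1)}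
    {P : (Fin t → ℤ) →+ (Fin t → ℤ)} (hP : ∀ a, P (A a) = A (pj blk j a)) (v : Fin n → ℝ) :
    AR P (AR A v) = AR A (pj blk j v) := by
  funext i
  have h1 : ∀ l : Fin n, (∑ m, (A (Pi.single l 1) m : ℝ) * (P (Pi.single m 1) i : ℝ)) =
      (A (pj blk j (Pi.single l 1)) i : ℝ) := by
    intro l
    rw [← hP, hom_eq P (A (Pi.single l 1))]
    simp only [Finset.sum_apply, Pi.smul_apply, smul_eq_mul, Int.cast_sum, Int.cast_mul]
  simp only [AR, Finset.sum_mul]
  rw [Finset.sum_comm]
  refine Finset.sum_congr rfl fun l _ => ?_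
  simp only [mul_assoc]
  rw [← Finset.mul_sum, h1, pj_single]
  simp only [pj]
  split_ifs <;> simp

/-- the image of the block `0` is complementary to the image of the other blocks -/
theorem finrank_uR_add {A : (Fin n → ℤ) →+ (Fin t → ℤ)} (hs : Function.Surjective A)
    {blk : Fin n → Fin (q + 1)} (hg : ∀ a, A a = 0 → ∀ j, A (pj blk j a) = 0) :
    finrank ℝ ((uR blk).map (ARm A)) + finrank ℝ ((blR blk 0).map (ARm A)) ≤ t := by
  obtain ⟨P, hP⟩ := exists_pr hs hg 0
  have h1 : (uR blk).map (ARm A) ⊓ (blR blk 0).map (ARm A) = ⊥ := by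
    rw [eq_bot_iff]
    rintro y ⟨⟨u, hu, hy⟩, ⟨v, hv, hy'⟩⟩
    have h2 : AR P y = 0 := by
      rw [← hy, ARm_apply, AR_pj hP, pj_of_mem_uR hu]
      exact map_zero (ARm A)
    have h3 : AR P y = y := by
      rw [← hy', ARm_apply, AR_pj hP]
      congr 1
      funext i
      simp only [pj]
      split_ifs with h
      · rfl
      · exact (hv i h).symm
    rw [Submodule.mem_bot, ← h3, h2]
  have h2 := Submodule.finrank_sup_add_finrank_inf_eq ((uR blk).map (ARm A))
    ((blR blk 0).map (ARm A))
  rw [h1, finrank_bot, add_zero] at h2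
  rw [← h2]
  refine le_trans (Submodule.finrank_le _) ?_
  simp

/-- if `A` is injective on `J` then the image of a block has large dimension -/
theorem card_le_finrank {A : (Fin n → ℤ) →+ (Fin t → ℤ)} {blk : Fin n → Fin (q + 1)}
    (j : Fin (q + 1)) (J : Finset (Fin n))
    (hJ : ∀ a : Fin n → ℤ, (∀ i, i ∉ J → a i = 0) → A a = 0 → a = 0) :
    (J.filter fun i => blk i = j).card ≤ finrank ℝ ((blR blk j).map (ARm A)) := by
  classical
  set J' := J.filter fun i => blk i = j with hJ'
  let e : Fin J'.card ≃ J' := J'.equivFin.symm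
  have h1 : LinearIndependent ℤ (fun k : Fin J'.card => A (Pi.single (e k).1 1)) := by
    rw [Fintype.linearIndependent_iff]
    intro g hg k
    have h2 := hJ (∑ k, g k • Pi.single (e k).1 1) (by
      intro i hi
      rw [Finset.sum_apply]
      refine Finset.sum_eq_zero fun k _ => ?_
      have h3 : (e k).1 ∈ J := (Finset.mem_filter.1 (e k).2).1
      rw [Pi.smul_apply, Pi.single_eq_of_ne (by rintro rfl; exact hi h3), smul_zero]) (by
      rw [map_sum, ← hg]
      exact Finset.sum_congr rfl fun k _ => map_zsmul A _ _)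
    have h4 := congrFun h2 (e k).1
    rw [Finset.sum_apply, Finset.sum_eq_single k] at h4
    · simpa using h4
    · intro k' _ hk'
      have h5 : (e k).1 ≠ (e k').1 := fun h => hk' (e.injective (Subtype.ext h)).symm
      rw [Pi.smul_apply, Pi.single_eq_of_ne h5, smul_zero]
    · intro h
      exact absurd (Finset.mem_univ k) h
  have h2 := rv_linearIndependent h1
  have h3 : ∀ k, rv (A (Pi.single (e k).1 1)) ∈ (blR blk j).map (ARm A) := by
    intro k
    refine ⟨rv (Pi.single (e k).1 1), ?_, by rw [ARm_apply, AR_rv]⟩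
    intro i hi
    have h5 : i ≠ (e k).1 := by
      rintro rfl
      exact hi (Finset.mem_filter.1 (e k).2).2
    simp [rv, Pi.single_eq_of_ne h5]
  have h4 : LinearIndependent ℝ (fun k : Fin J'.card =>
      (⟨_, h3 k⟩ : (blR blk j).map (ARm A))) := by
    apply LinearIndependent.of_comp ((blR blk j).map (ARm A)).subtype
    exact h2
  simpa using h4.fintype_card_le_finrank

end Pool.Agent.ZP
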