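import Mathlib
import Pool.Agent.Lib.MP_c95b3b_ag_ZP.Defs
import Pool.Agent.Lib.MP_c95b3b_ag_ZP.CF4A
import Pool.Agent.Lib.MP_c95b3b_ag_ZP.CL5
import Pool.Agent.Lib.MP_c95b3b_ag_ZP.OT.Rank

set_option autoImplicit false

/-! Project ZP, block CF: the neutral exponents which are trivial for the type in the unbounded
blocks have maximal rank on the bounded block (ZP_full 5.1, 5.2). -/

namespace Pool.Agent.ZP

open Module Filter Topology Pool.Agent.SD

variable {𝓤 : Ultrafilter ℕ} {n q : ℕ}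

theorem span_pj (blk : Fin n → Fin (q + 1)) (j : Fin (q + 1)) (V : Submodule ℝ (Fin n → ℝ)) :
    Submodule.span ℝ (pj blk j '' (V : Set (Fin n → ℝ))) = V.map (pjm blk j) := by
  have h : pj blk j '' (V : Set (Fin n → ℝ)) = ((V.map (pjm blk j) : Submodule ℝ _) : Set _) := rfl
  rw [h, Submodule.span_eq]

theorem ker_pjm (blk : Fin n → Fin (q + 1)) : LinearMap.ker (pjm blk 0) = uR blk := by
  ext b
  constructor
  · intro hb i hi
    have h := congrFun (LinearMap.mem_ker.1 hb) i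
    have h2 : pj blk 0 b i = 0 := h
    simpa [pj, hi] using h2
  · intro hb
    exact LinearMap.mem_ker.2 (pj_of_mem_uR hb)

/-- the block `0` is mapped to a space of dimension `d0` at least, the other blocks are mapped to
a space of dimension `t - d0` at most -/
theorem Ty.finrank_blocks {c : Cfg 𝓤 n q} {cl : Cl c} (hb : c.bd) (T : Ty cl) :
    finrank ℝ ((uR c.blk).map (ARm T.A)) + finrank ℝ ((blR c.blk 0).map (ARm T.A)) ≤
      cl.I.card ∧ rkZ c.x (blL c.blk 0) ≤ finrank ℝ ((blR c.blk 0).map (ARm T.A)) := by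
  refine ⟨finrank_uR_add T.surj T.graded, ?_⟩
  obtain ⟨J, hJ1, hJ2⟩ := T.coords
  rw [← block_zero_card cl hb, ← hJ1 0]
  exact card_le_finrank 0 J hJ2

/-- the projections of the elements of `W` are mapped onto the image of the block `0` -/
theorem Ty.map_W {c : Cfg 𝓤 n q} {cl : Cl c} (T : Ty cl)
    (hV : ∀ y : Fin cl.I.card → ℝ, ∃ b ∈ c.V, AR T.A b = y) :
    (blR c.blk 0).map (ARm T.A) ≤ (T.W.map (pjm c.blk 0)).map (ARm T.A) := by
  rintro _ ⟨v, hv, rfl⟩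
  obtain ⟨P, hP⟩ := exists_pr T.surj T.graded (0 : Fin (q + 1))
  have hv0 : pj c.blk 0 v = v := by
    funext i
    simp only [pj]
    split_ifs with h
    · rfl
    · exact (hv i h).symm
  obtain ⟨b, hb, hby⟩ := hV (AR T.A v)
  have h1 : AR T.A (pj c.blk 0 b) = AR T.A v := by
    rw [← AR_pj hP, hby, AR_pj hP, hv0]
  have h2 : AR T.A (b - pj c.blk 0 b) = 0 := by
    have h3 : AR T.A (b - pj c.blk 0 b) = AR T.A b - AR T.A (pj c.blk 0 b) :=
      map_sub (ARm T.A) _ _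
    rw [h3, hby, h1, sub_self]
  exact ⟨pj c.blk 0 b, ⟨b, ⟨hb, h2⟩, rfl⟩, h1⟩

/-- the dimension of the projection to the bounded block: it is `> d0` -/
theorem Ty.dim_W {c : Cfg 𝓤 n q} {cl : Cl c} (hb : c.bd) (T : Ty cl)
    (hV : ∀ y : Fin cl.I.card → ℝ, ∃ b ∈ c.V, AR T.A b = y) (r1 : ℕ)
    (α : Fin r1 → Fin n → ℝ) (hα : ∀ i, α i ∈ c.V ⊓ uR c.blk)
    (hAα : LinearIndependent ℝ (fun i => AR T.A (α i)))
    (hr : cl.I.card + 1 ≤ r1 + finrank ℝ (Submodule.span ℝ (pj c.blk 0 '' (c.V : Set (Fin n → ℝ))))) :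
    rkZ c.x (blL c.blk 0) + 1 ≤
      finrank ℝ (Submodule.span ℝ (pj c.blk 0 '' (T.W : Set (Fin n → ℝ)))) := by
  rw [span_pj] at hr ⊢
  obtain ⟨hb1, hb2⟩ := T.finrank_blocks hb
  have h1 := finrank_map_add (ARm T.A ∘ₗ (LinearMap.id - pjm c.blk 0)) c.V
  have h1' : finrank ℝ (c.V.map (ARm T.A ∘ₗ (LinearMap.id - pjm c.blk 0))) ≤
      finrank ℝ ((uR c.blk).map (ARm T.A)) := by
    refine Submodule.finrank_mono ?_
    rintro _ ⟨b, _, rfl⟩
    exact ⟨b - pj c.blk 0 b, sub_pj_mem c.blk b, rfl⟩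
  have h2 := finrank_map_add (pjm c.blk 0) T.W
  have h3 : finrank ℝ (T.W ⊓ LinearMap.ker (pjm c.blk 0) : Submodule ℝ (Fin n → ℝ)) ≤
      finrank ℝ ((c.V ⊓ uR c.blk) ⊓ LinearMap.ker (ARm T.A) : Submodule ℝ (Fin n → ℝ)) := by
    refine Submodule.finrank_mono ?_
    rw [ker_pjm]
    rintro b ⟨⟨hbV, hb⟩, hbu⟩
    refine ⟨⟨hbV, hbu⟩, ?_⟩
    rw [pj_of_mem_uR hbu, sub_zero] at hb
    exact hb
  have h5 := finrank_map_add (ARm T.A) (c.V ⊓ uR c.blk)
  have h6 : r1 ≤ finrank ℝ ((c.V ⊓ uR c.blk).map (ARm T.A)) := by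
    have h7 : ∀ i, AR T.A (α i) ∈ (c.V ⊓ uR c.blk).map (ARm T.A) := fun i => ⟨α i, hα i, rfl⟩
    have h8 : LinearIndependent ℝ (fun i => (⟨_, h7 i⟩ : (c.V ⊓ uR c.blk).map (ARm T.A))) := by
      apply LinearIndependent.of_comp ((c.V ⊓ uR c.blk).map (ARm T.A)).subtype
      exact hAα
    simpa using h8.fintype_card_le_finrank
  have h7 := finrank_map_add (pjm c.blk 0) c.V
  rw [ker_pjm] at h7
  have h8 : finrank ℝ (c.V ⊓ LinearMap.ker (ARm T.A ∘ₗ (LinearMap.id - pjm c.blk 0)) :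
      Submodule ℝ (Fin n → ℝ)) = finrank ℝ T.W := rfl
  omega

/-- the coordinates of the block `0`, the others replaced by `1` -/
noncomputable def x0 (c : Cfg 𝓤 n q) (i : Fin n) : c.L := if c.blk i = 0 then c.x i else 1

theorem x0_ne (c : Cfg 𝓤 n q) (i : Fin n) : x0 c i ≠ 0 := by
  unfold x0
  split_ifs
  · exact c.hx i
  · exact one_ne_zero

theorem mn_x0 (c : Cfg 𝓤 n q) (a : Fin n → ℤ) : mn (x0 c) a = mn c.x (pj c.blk 0 a) := by
  refine Finset.prod_congr rfl fun i _ => ?_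
  simp only [x0, pj]
  split_ifs <;> simp

theorem om_x0 (c : Cfg 𝓤 n q) (b : Fin n → ℝ) : om (x0 c) b = om c.x (pj c.blk 0 b) := by
  ext D
  rw [om_apply, om_apply]
  refine Finset.sum_congr rfl fun i _ => ?_
  simp only [x0, pj]
  split_ifs <;> simp

/-- the type of the block `0` -/
def A0 (blk : Fin n → Fin (q + 1)) {t : ℕ} (A : (Fin n → ℤ) →+ (Fin t → ℤ)) :
    (Fin n → ℤ) →+ (Fin t → ℤ) :=
  AddMonoidHom.mk' (fun a => A (pj blk 0 a)) fun a b => by rw [pj_add, map_add]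

theorem AR_A0 (blk : Fin n → Fin (q + 1)) {t : ℕ} (A : (Fin n → ℤ) →+ (Fin t → ℤ))
    (v : Fin n → ℝ) : AR (A0 blk A) v = AR A (pj blk 0 v) := by
  funext i
  refine Finset.sum_congr rfl fun l _ => ?_
  have h : A0 blk A (Pi.single l 1) = A (pj blk 0 (Pi.single l 1)) := rfl
  rw [h, pj_single]
  simp only [pj]
  split_ifs <;> simp

theorem sep_x0 {c : Cfg 𝓤 n q} {cl : Cl c} (hb : c.bd) (T : Ty cl) :
    OT.Sep (x0 c) (A0 c.blk T.A) := by
  classical
  intro S hS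
  obtain ⟨ν, h1, h2⟩ := ((block_zero_rel cl hb).and T.lpr).exists
  rw [Fintype.linearIndependent_iff]
  intro g hg i
  -- the coefficients as a function on the vectors of the block `0`
  have hinj : Set.InjOn (pj c.blk 0) (S : Set (Fin n → ℤ)) := by
    intro a ha b hb h
    exact hS ha hb (congrArg T.A h)
  let r : (Fin n → ℤ) → ℂ := fun a => if h : ∃ b : S, pj c.blk 0 b.1 = a then g h.choose else 0
  have hr : ∀ b : S, r (pj c.blk 0 b.1) = g b := by
    intro b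
    have h : ∃ b' : S, pj c.blk 0 b'.1 = pj c.blk 0 b.1 := ⟨b, rfl⟩
    have h3 : h.choose = b := Subtype.ext (hinj h.choose.2 b.2 h.choose_spec)
    simp only [r, dif_pos h, h3]
  have hsum : ∑ a ∈ S.image (pj c.blk 0), algebraMap ℂ c.L (r a) * mn c.x a = 0 := by
    rw [Finset.sum_image hinj, ← hg, ← Finset.sum_coe_sort S]
    refine Finset.sum_congr rfl fun b _ => ?_
    rw [hr, mn_x0, Algebra.smul_def]
  have h3 := (h1 (S.image (pj c.blk 0)) r (by
    intro a ha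
    obtain ⟨b, _, rfl⟩ := Finset.mem_image.1 ha
    intro i hi
    simp [pj, hi])).2 hsum
  have h4 : Set.InjOn T.A ((S.image (pj c.blk 0) : Finset (Fin n → ℤ)) : Set (Fin n → ℤ)) := by
    intro a ha b hb h
    obtain ⟨a', ha', rfl⟩ := Finset.mem_image.1 (Finset.mem_coe.1 ha)
    obtain ⟨b', hb', rfl⟩ := Finset.mem_image.1 (Finset.mem_coe.1 hb)
    rw [hS ha' hb' h]
  have h5 := GC.li_of_lp (cl.xi ν) T.A (T.M ν) (T.cc ν) h2.1 h2.2.1 h2.2.2.2 _ h4
  rw [Fintype.linearIndependent_iff] at h5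
  have h6 := h5 (fun a => r a.1) (by
    rw [Finset.sum_coe_sort (S.image (pj c.blk 0)) (fun a => r a • mn (cl.xi ν) a), ← h3]
    exact Finset.sum_congr rfl fun a _ => Algebra.smul_def _ _)
    ⟨pj c.blk 0 i.1, Finset.mem_image_of_mem _ i.2⟩
  rw [← hr]
  exact h6

/-- the rank on the variety of the bounded block -/
theorem Ty.rank_W {c : Cfg 𝓤 n q} {cl : Cl c} (hb : c.bd) (T : Ty cl)
    (hV : ∀ y : Fin cl.I.card → ℝ, ∃ b ∈ c.V, AR T.A b = y) :
    rk c.x (pj c.blk 0 '' (T.W : Set (Fin n → ℝ))) = rkZ c.x (blL c.blk 0) := by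
  classical
  apply le_antisymm
  · have := finite_span_om c.x (rv '' (blL c.blk 0 : Set (Fin n → ℤ)))
    refine Submodule.finrank_mono (Submodule.span_le.2 ?_)
    rintro _ ⟨_, ⟨b, _, rfl⟩, rfl⟩
    have h1 : pj c.blk 0 b = ∑ i, pj c.blk 0 b i • rv (Pi.single i (1 : ℤ)) :=
      Map.eq_sum_single _
    rw [SetLike.mem_coe, h1, Map.om_sum]
    refine Submodule.sum_mem _ fun i _ => ?_
    rw [om_smul]
    by_cases hi : c.blk i = 0
    · refine Submodule.smul_mem _ _ (Submodule.subset_span ⟨_, ⟨Pi.single i 1, ?_, rfl⟩, rfl⟩)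
      intro l hl
      have h2 : l ≠ i := by
        rintro rfl
        exact hl hi
      exact Pi.single_eq_of_ne h2 _
    · have h2 : pj c.blk 0 b i = 0 := by simp [pj, hi]
      rw [h2]
      simp
  · have h1 := OT.rk_ge (x0_ne c) (sep_x0 hb T) T.W
    have h2 : rk (x0 c) (T.W : Set (Fin n → ℝ)) =
        rk c.x (pj c.blk 0 '' (T.W : Set (Fin n → ℝ))) := by
      have h3 : om (x0 c) '' (T.W : Set (Fin n → ℝ)) =
          om c.x '' (pj c.blk 0 '' (T.W : Set (Fin n → ℝ))) := by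
        rw [Set.image_image]
        exact Set.image_congr fun b _ => om_x0 c b
      rw [rk, rk, h3]
    rw [← h2]
    refine le_trans (T.finrank_blocks hb).2 (le_trans ?_ h1)
    refine Submodule.finrank_mono (le_trans (T.map_W hV) ?_)
    rintro _ ⟨_, ⟨b, hbW, rfl⟩, rfl⟩
    exact ⟨b, hbW, AR_A0 c.blk T.A b⟩

end Pool.Agent.ZP
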