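import Mathlib
import Pool.Agent.Lib.MP_c95b3b_ag_ZP.CA

set_option autoImplicit false

/-! Project ZP, block CL: existence of the closures and branches (ZP_full 2; AL: BB, BC, BI). -/

namespace Pool.Agent.ZP

open Pool.Agent.L3 Pool.Agent.KP Pool.Agent.AL Pool.Agent.SD Module MvPolynomial

/-- the closures exist -/
theorem exists_cl {𝓤 : Ultrafilter ℕ} {n q : ℕ} (c : Cfg 𝓤 n q) : Nonempty (Cl c) := by
  classical
  have : ∀ ν, CharZero (c.S.K ν) := fun ν =>
    (c.e ν).charZero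
  obtain ⟨I, d, g, hno, hrel⟩ := exists_rel0 c.blk 𝓤 c.S.K c.S.p c.s c.s_one c.s_le
  have hex : ∀ ν, ∃ Ξ : Fin n → MvPowerSeries (Fin n) (c.S.K ν), IsRel I c.blk (c.S.p ν) (g ν) →
      IsBranch I (c.S.p ν) (g ν) Ξ ∧ BranchInt I (c.S.p ν) (g ν) Ξ ∧
      BranchNorm I c.blk (c.S.p ν) (g ν) Ξ := by
    intro ν
    by_cases h : IsRel I c.blk (c.S.p ν) (g ν)
    · obtain ⟨Ξ, hΞ⟩ := exists_branch I c.blk (c.S.p ν) (g ν) h
      exact ⟨Ξ, fun _ => hΞ⟩
    · exact ⟨0, fun h' => absurd h' h⟩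
  choose Ξ hΞ using hex
  exact ⟨{
    I := I
    d := d
    g := g
    Ξ := Ξ
    no := hno
    rel := hrel
    br := by
      filter_upwards [hrel] with ν hν
      exact (hΞ ν hν.1).1
    sup := by
      filter_upwards [hrel] with ν hν l γ hγ
      exact CA.sup_of_norm (hΞ ν hν.1).1 (hΞ ν hν.1).2.2 l γ hγ
    nrm := by
      filter_upwards [hrel] with ν hν
      exact (hΞ ν hν.1).2.2
    int := by
      filter_upwards [hrel] with ν hν
      exact (hΞ ν hν.1).2.1 }⟩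

end Pool.Agent.ZP
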