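import Pool.Agent.Lib.MP_c95b3b_ag_ZP.HNe

/-! Project ZP (MP_c95b3b_ag), block HN (normal forms): the Hilbert function (over the rational
numbers) of the closures of a configuration, and the Siegel lemma. -/

namespace Pool.Agent.ZP

open Pool.Agent.AL Pool.Agent.SD MvPolynomial Module Filter

variable {𝓤 : Ultrafilter ℕ} {n q : ℕ} {c : Cfg 𝓤 n q}

theorem Cfg.charZero (c : Cfg 𝓤 n q) (ν : ℕ) : CharZero (c.S.K ν) := (c.e ν).charZero

theorem Cfg.s_pos (c : Cfg 𝓤 n q) (ν : ℕ) (j : Fin (q + 1)) : 0 < c.s ν j := by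
  have h1 := c.s_one ν
  have h2 := c.s_le ν j
  linarith

instance isDomain_ps {σ K : Type} [Field K] : IsDomain (MvPowerSeries σ K) :=
  NoZeroDivisors.to_isDomain _

namespace HN

/-- the degrees -/
noncomputable def EE (c : Cfg 𝓤 n q) (ν : ℕ) (A M : ℝ) (i : Fin n) : ℕ :=
  ⌊A * M / c.s ν (c.blk i)⌋₊

theorem abs_le_EE {ν : ℕ} {A M : ℝ} {a : Fin n → ℤ}
    (ha : ∀ i, |(a i : ℝ)| ≤ A * M / c.s ν (c.blk i)) (i : Fin n) :
    |a i| ≤ EE c ν A M i := by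
  have h1 := ha i
  have h2 : ((a i).natAbs : ℝ) ≤ A * M / c.s ν (c.blk i) := by
    rw [Nat.cast_natAbs]
    exact_mod_cast h1
  have h3 : (a i).natAbs ≤ EE c ν A M i := Nat.le_floor h2
  rw [Int.abs_eq_natAbs]
  exact_mod_cast h3

theorem EE_le {ν : ℕ} {A M : ℝ} (hA : 0 ≤ A) (hM : 0 ≤ M) (i : Fin n) :
    ((2 * EE c ν A M i : ℕ) : ℝ) ≤ (2 * A) * M / c.s ν (c.blk i) := by
  push_cast
  have h1 : 0 ≤ A * M / c.s ν (c.blk i) := by
    have := c.s_pos ν (c.blk i)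
    positivity
  have h2 := Nat.floor_le h1
  rw [EE]
  calc 2 * (⌊A * M / c.s ν (c.blk i)⌋₊ : ℝ) ≤ 2 * (A * M / c.s ν (c.blk i)) := by linarith
    _ = _ := by ring

/-- everything that is needed at the level `ν` -/
structure Lev (cl : Cl c) (ν : ℕ) : Prop where
  rel : IsRel cl.I c.blk (c.S.p ν) (cl.g ν)
  deg : ∀ l, l ∉ cl.I → ∀ i, (cl.g ν l).degreeOf i ≤ cl.d
  log : ∀ l, l ∉ cl.I → Real.log (l1 (cl.g ν l)) ≤ cl.d * (c.s ν (c.blk l) / c.s ν 0)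
  br : IsBranch cl.I (c.S.p ν) (cl.g ν) (cl.Ξ ν)

theorem lev (cl : Cl c) : ∀ᶠ ν in (𝓤 : Filter ℕ), Lev cl ν := by
  filter_upwards [cl.rel, cl.br] with ν h1 h2
  exact ⟨h1.1, fun l hl => (h1.2 l hl).1, fun l hl => (h1.2 l hl).2, h2⟩

theorem Lev.const {cl : Cl c} {ν : ℕ} (h : Lev cl ν) (i : Fin n) :
    MvPowerSeries.constantCoeff (cl.Ξ ν i) ≠ 0 := by
  rw [h.br.const i]
  exact c.S.ne ν i

theorem Lev.u_ne {cl : Cl c} {ν : ℕ} (h : Lev cl ν) (E : Fin n → ℕ) :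
    ∏ i, cl.Ξ ν i ^ E i ≠ 0 := by
  rw [Finset.prod_ne_zero_iff]
  intro i _
  refine pow_ne_zero _ fun h0 => h.const i ?_
  rw [h0, map_zero]

theorem Lev.blk {cl : Cl c} {ν : ℕ} (h : Lev cl ν) (l : Fin n) (hl : l ∉ cl.I) (i : Fin n)
    (hi : i ∈ (cl.g ν l).vars) : c.s ν (c.blk i) = c.s ν (c.blk l) := by
  rcases h.rel.vars l hl i hi with h1 | h1
  · rw [h1]
  · rw [h1.2]

theorem Lev.card {cl : Cl c} {ν : ℕ} (h : Lev cl ν) {A M : ℝ} (hA : 0 ≤ A) (hM0 : 0 ≤ M)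
    (hM : ∀ i, c.s ν (c.blk i) ≤ M) :
    ((NF cl.I (cl.g ν) (fun i => 2 * EE c ν A M i)).card : ℝ) ≤
      ((cl.d : ℝ) + 1) ^ n * (2 * A + n * (2 * A * cl.d) + 1) ^ n *
        ∏ i ∈ cl.I, (M / c.s ν (c.blk i)) := by
  have h1 := card_NF_le (I := cl.I) (g := cl.g ν) (D := fun i => 2 * EE c ν A M i)
    (s := fun i => c.s ν (c.blk i)) (M := M) (A := 2 * A) (d := cl.d)
    (fun i => c.s_pos ν _) hM (by linarith) (fun i => EE_le hA hM0 i)
    (fun l hl i hi => h.blk l hl i hi) h.deg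
  rw [Fintype.card_fin] at h1
  exact h1

theorem Lev.logb {cl : Cl c} {ν : ℕ} (h : Lev cl ν) {A M : ℝ} (hA : 0 ≤ A) (hM0 : 0 ≤ M) :
    Real.log (bnd cl.I (cl.g ν) (fun i => 2 * EE c ν A M i)) ≤
      n * (2 * A * cl.d) * (M / c.s ν 0) := by
  have h1 := log_bnd_le (I := cl.I) (g := cl.g ν) (D := fun i => 2 * EE c ν A M i)
    (sys_of_isRel h.rel) (s := fun i => c.s ν (c.blk i)) (M := M) (A := 2 * A) (d := cl.d)
    (s0 := c.s ν 0) (fun i => c.s_pos ν _) (c.s_pos ν 0) hM0 (by linarith)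
    (fun i => EE_le hA hM0 i) h.log
  rw [Fintype.card_fin] at h1
  exact h1

theorem Lev.root {cl : Cl c} {ν : ℕ} (h : Lev cl ν) (l : Fin n) (hl : l ∉ cl.I) :
    @aeval ℤ _ _ _ _ (Ring.toIntAlgebra _) (cl.Ξ ν) (cl.g ν l) = 0 := by
  rw [← h.br.rel l hl]
  exact BB.aeval_inst _ _ _ _

theorem Lev.dn {cl : Cl c} {ν : ℕ} (h : Lev cl ν) (D : Fin n → ℕ) :
    @aeval ℤ _ _ _ _ (Ring.toIntAlgebra _) (cl.Ξ ν) (dn cl.I (cl.g ν) D) ≠ 0 := by
  have := c.charZero ν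
  have h1 := aeval_dn_ne (sys_of_isRel h.rel) h.br D
  intro h2
  apply h1
  rw [← h2]
  exact BB.aeval_inst _ _ _ _

end HN

/-- **The Hilbert function of the closure over `ℚ`.** -/
theorem Cl.hilb (cl : Cl c) {A : ℝ} (hA : 0 ≤ A) : ∃ C : ℝ, 0 < C ∧ ∀ᶠ ν in (𝓤 : Filter ℕ),
    ∀ M : ℝ, (∀ i, c.s ν (c.blk i) ≤ M) → 0 ≤ M →
    ∀ [Algebra ℚ (MvPowerSeries (Fin n) (c.S.K ν))] (Ω : Type)
      (φ : Ω → MvPowerSeries (Fin n) (c.S.K ν)),
      (∀ o, ∃ (T : Finset (Fin n → ℤ)) (r : (Fin n → ℤ) → ℤ),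
        φ o = lp (cl.Ξ ν) T (fun a => (r a : c.S.K ν)) ∧
        ∀ a ∈ T, ∀ i, |(a i : ℝ)| ≤ A * M / c.s ν (c.blk i)) →
      (finrank ℚ (Submodule.span ℚ (Set.range φ)) : ℝ) ≤
        C * ∏ i ∈ cl.I, (M / c.s ν (c.blk i)) := by
  refine ⟨((cl.d : ℝ) + 1) ^ n * (2 * A + n * (2 * A * cl.d) + 1) ^ n, by positivity, ?_⟩
  filter_upwards [HN.lev cl] with ν h M hM hM0 _ Ω φ hφ
  choose T r h1 h2 using hφ
  have h3 := HN.finrank_le (I := cl.I) (g := cl.g ν) (D := fun i => 2 * HN.EE c ν A M i)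
    (HN.sys_of_isRel h.rel) (cl.Ξ ν) h.root (h.dn _) φ (∏ i, cl.Ξ ν i ^ HN.EE c ν A M i)
    (h.u_ne _) (fun o => HN.shp (HN.EE c ν A M) (T o) (r o))
    (fun o i => HN.degreeOf_shp (fun a ha => HN.abs_le_EE (h2 o a ha)) i)
    (fun o => by
      rw [h1 o, HN.shift_lp h.const (fun a ha => HN.abs_le_EE (h2 o a ha))]
      exact BB.aeval_inst _ _ _ _)
  refine le_trans ?_ (h.card hA hM0 hM)
  exact_mod_cast h3

/-- **Siegel's lemma for Laurent monomials on the closure.** -/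
theorem Cl.siegel (cl : Cl c) {A : ℝ} (hA : 0 ≤ A) : ∃ C : ℝ, 0 < C ∧
    ∀ᶠ ν in (𝓤 : Filter ℕ), ∀ M : ℝ, (∀ i, c.s ν (c.blk i) ≤ M) → 0 ≤ M →
    ∀ (Ω : Type) [Fintype Ω] (a : Ω → Fin n → ℤ),
      (∀ o i, |(a o i : ℝ)| ≤ A * M / c.s ν (c.blk i)) →
      2 * C * ∏ i ∈ cl.I, (M / c.s ν (c.blk i)) ≤ Fintype.card Ω →
      ∃ u : Ω → ℤ, u ≠ 0 ∧
        ∑ o, MvPowerSeries.C ((u o : ℤ) : c.S.K ν) * psm (cl.Ξ ν) (a o) = 0 ∧
        ∀ o, Real.log (|u o| : ℝ) ≤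
          Real.log (Fintype.card Ω) + C * (M / c.s ν 0) := by
  classical
  set C1 : ℝ := ((cl.d : ℝ) + 1) ^ n * (2 * A + n * (2 * A * cl.d) + 1) ^ n with hC1
  set C2 : ℝ := n * (2 * A * cl.d) with hC2
  have hC1p : 0 < C1 := by positivity
  have hC2p : 0 ≤ C2 := by positivity
  refine ⟨C1 + C2, by linarith, ?_⟩
  filter_upwards [HN.lev cl] with ν h M hM hM0 Ω _ a ha hcard
  have hP : 0 ≤ ∏ i ∈ cl.I, (M / c.s ν (c.blk i)) :=
    Finset.prod_nonneg fun i _ => div_nonneg hM0 (c.s_pos ν _).le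
  have h4 : 2 * (HN.NF cl.I (cl.g ν) (fun i => 2 * HN.EE c ν A M i)).card ≤
      Fintype.card Ω := by
    have h5 := h.card hA hM0 hM
    have h6 : (2 * (HN.NF cl.I (cl.g ν) (fun i => 2 * HN.EE c ν A M i)).card : ℝ) ≤
        Fintype.card Ω := by
      refine le_trans ?_ hcard
      nlinarith [mul_nonneg hC2p hP]
    exact_mod_cast h6
  obtain ⟨u, hu0, hu1, hu2⟩ := HN.siegel (I := cl.I) (g := cl.g ν)
    (D := fun i => 2 * HN.EE c ν A M i)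
    (HN.sys_of_isRel h.rel) (cl.Ξ ν) h.root (h.dn _)
    (fun o => lp (cl.Ξ ν) {a o} (fun _ => ((1 : ℤ) : c.S.K ν)))
    (∏ i, cl.Ξ ν i ^ HN.EE c ν A M i)
    (h.u_ne _) (fun o => HN.shp (HN.EE c ν A M) {a o} (fun _ => 1))
    (fun o i => HN.degreeOf_shp (fun b hb => by
      rw [Finset.mem_singleton] at hb
      rw [hb]
      exact HN.abs_le_EE (ha o)) i)
    (fun o => by
      rw [HN.shift_lp h.const (fun b hb => by
        rw [Finset.mem_singleton] at hb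
        rw [hb]
        exact HN.abs_le_EE (ha o))]
      exact BB.aeval_inst _ _ _ _) (Λ := 1) le_rfl
    (fun o => by
      refine (HN.l1_shp _ _ _).trans ?_
      simp) h4
  refine ⟨u, hu0, ?_, ?_⟩
  · rw [← hu1]
    refine Finset.sum_congr rfl fun o _ => ?_
    rw [lp, Finset.sum_singleton, map_intCast, Int.cast_one, map_one, one_mul]
  · intro o
    have hb : 1 ≤ HN.bnd cl.I (cl.g ν) (fun i => 2 * HN.EE c ν A M i) :=
      HN.one_le_bnd (HN.sys_of_isRel h.rel)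
    have h7 := hu2 o
    rw [one_mul] at h7
    have hM' : 0 ≤ M / c.s ν 0 := div_nonneg hM0 (c.s_pos ν 0).le
    have hlogb := h.logb hA hM0
    have hle : Real.log (HN.bnd cl.I (cl.g ν) (fun i => 2 * HN.EE c ν A M i)) ≤
        (C1 + C2) * (M / c.s ν 0) := by
      refine hlogb.trans ?_
      nlinarith [mul_nonneg hC1p.le hM']
    have hcard1 : 1 ≤ Fintype.card Ω := by
      rw [Nat.one_le_iff_ne_zero, ← Nat.pos_iff_ne_zero, Fintype.card_pos_iff]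
      exact ⟨o⟩
    have hcard2 : (1 : ℝ) ≤ Fintype.card Ω := by exact_mod_cast hcard1
    rcases eq_or_ne (u o) 0 with h0 | h0
    · rw [h0]
      simp only [Int.cast_zero, abs_zero, Real.log_zero]
      have : 0 ≤ Real.log (Fintype.card Ω) := Real.log_nonneg hcard2
      have : 0 ≤ (C1 + C2) * (M / c.s ν 0) := mul_nonneg (by linarith) hM'
      linarith
    · have h8 : (0 : ℝ) < |(u o : ℝ)| := abs_pos.mpr (by exact_mod_cast h0)
      calc Real.log |(u o : ℝ)| ≤ Real.log (Fintype.card Ω *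
            HN.bnd cl.I (cl.g ν) (fun i => 2 * HN.EE c ν A M i)) := Real.log_le_log h8 h7
        _ = Real.log (Fintype.card Ω) +
            Real.log (HN.bnd cl.I (cl.g ν) (fun i => 2 * HN.EE c ν A M i)) :=
          Real.log_mul (by linarith) (by linarith)
        _ ≤ _ := by linarith

end Pool.Agent.ZP
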