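import Mathlib
import Pool.Agent.Lib.MP_c95b3b_ag_AL.BF
import Pool.Agent.Lib.MP_c95b3b_ag_ZP.CB2
import Pool.Agent.Lib.MP_c95b3b_ag_ZP.CE
import Pool.Agent.Lib.MP_c95b3b_ag_ZP.Radius
import Pool.Agent.Lib.MP_c95b3b_ag_ZP.Hilbert

set_option autoImplicit false

/-! Project ZP, block CL: the product formula on the closures (STAR', ZP_full 2.1). -/

namespace Pool.Agent.ZP

open Module Filter Topology Pool.Agent.L3 Pool.Agent.SD
open MvPolynomial Pool.Agent.AL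

variable {𝓤 : Ultrafilter ℕ} {n q : ℕ}

namespace CL2

/-- the coefficients of the Laurent monomials lie in the ring -/
theorem psm_mem {K : Type} [Field K] (S : Subring K) (Ξ : Fin n → MvPowerSeries (Fin n) K)
    (p : Fin n → K) (hp : ∀ i, p i ≠ 0) (hpS : ∀ i, p i ∈ S) (hpi : ∀ i, (p i)⁻¹ ∈ S)
    (hc : ∀ i, MvPowerSeries.constantCoeff (Ξ i) = p i)
    (hS : ∀ i γ, MvPowerSeries.coeff γ (Ξ i) ∈ S) (a : Fin n → ℤ) :
    psm Ξ a ∈ BB.coeffsIn (ι := Fin n) S := by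
  refine (BB.coeffsIn S).prod_mem fun i _ => (BB.coeffsIn S).mul_mem
    ((BB.coeffsIn S).pow_mem (hS i) _) ((BB.coeffsIn S).pow_mem ?_ _)
  exact fun γ => CD.inv_mem S (Ξ i) (p i) (hp i) (hc i) (hS i) (hpS i) (hpi i) γ

theorem lp_mem {K : Type} [Field K] (S : Subring K) (Ξ : Fin n → MvPowerSeries (Fin n) K)
    (p : Fin n → K) (hp : ∀ i, p i ≠ 0) (hpS : ∀ i, p i ∈ S) (hpi : ∀ i, (p i)⁻¹ ∈ S)
    (hc : ∀ i, MvPowerSeries.constantCoeff (Ξ i) = p i)
    (hS : ∀ i γ, MvPowerSeries.coeff γ (Ξ i) ∈ S) (T : Finset (Fin n → ℤ))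
    (r : (Fin n → ℤ) → ℤ) (γ : Fin n →₀ ℕ) :
    MvPowerSeries.coeff γ (lp Ξ T fun a => (r a : K)) ∈ S := by
  have h : (lp Ξ T fun a => (r a : K)) ∈ BB.coeffsIn (ι := Fin n) S := by
    refine (BB.coeffsIn S).sum_mem fun a _ => (BB.coeffsIn S).mul_mem
      (BB.C_mem_coeffsIn S _ ?_) (psm_mem S Ξ p hp hpS hpi hc hS a)
    exact intCast_mem S _
  exact h γ

/-- a coefficient of minimal weight -/
theorem exists_min {K : Type} [Field K] (H : Fin n → ℕ) (f : MvPowerSeries (Fin n) K)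
    (hf : f ≠ 0) : ∃ γ : Fin n →₀ ℕ, MvPowerSeries.coeff γ f ≠ 0 ∧
      ∀ γ' : Fin n →₀ ℕ, wt H γ' < wt H γ → MvPowerSeries.coeff γ' f = 0 := by
  classical
  have h0 : ∃ m, ∃ γ : Fin n →₀ ℕ, MvPowerSeries.coeff γ f ≠ 0 ∧ wt H γ = m := by
    by_contra h
    push Not at h
    apply hf
    ext γ
    rw [map_zero]
    by_contra hγ
    exact h _ γ hγ rfl
  obtain ⟨γ, hγ, hw⟩ := Nat.find_spec h0
  refine ⟨γ, hγ, fun γ' h' => ?_⟩
  by_contra hγ'
  rw [hw] at h'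
  exact Nat.find_min h0 h' ⟨γ', hγ', rfl⟩

theorem coeff_mul_zero {K : Type} [Field K] (H : Fin n → ℕ) (u f : MvPowerSeries (Fin n) K)
    (m : ℕ) (hf : ∀ γ : Fin n →₀ ℕ, wt H γ < m → MvPowerSeries.coeff γ f = 0)
    (γ : Fin n →₀ ℕ) (hγ : wt H γ < m) : MvPowerSeries.coeff γ (u * f) = 0 := by
  classical
  rw [MvPowerSeries.coeff_mul]
  refine Finset.sum_eq_zero fun x hx => ?_
  rw [Finset.HasAntidiagonal.mem_antidiagonal] at hx
  rw [hf x.2, mul_zero]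
  refine lt_of_le_of_lt ?_ hγ
  rw [← hx]
  refine Finset.sum_le_sum fun i _ => Nat.mul_le_mul_right _ ?_
  rw [Finsupp.add_apply]
  omega

theorem ht_single (S : Sq n) (ν : ℕ) (i : Fin n) :
    S.ht (rv (Pi.single i 1)) ν = (S.W ν).avg (fun w => |(S.W ν).lg w (S.p ν i)|) := by
  unfold Sq.ht
  congr 1
  funext w
  congr 1
  have h1 : rv (Pi.single i (1 : ℤ)) = Pi.single i (1 : ℝ) := by
    funext l
    simp only [rv, Pi.single_apply]
    split_ifs <;> simp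
  rw [h1, single_dotProduct, one_mul]
  rfl

/-- the value bound under `RepW` at all places -/
theorem val {K : Type} [Field K] {R : Subring K} (W : Places K R) (p : Fin n → K)
    (hp : ∀ i, p i ≠ 0) (Ξ : Fin n → MvPowerSeries (Fin n) K)
    (hc : ∀ i, MvPowerSeries.constantCoeff (Ξ i) = p i) (ρ : W.Pl → Fin n → ℝ)
    (hρ : ∀ w i, 0 < ρ w i) (ε : ℝ) (hε0 : 0 < ε) (hε : ε ≤ 1 / 2)
    (h : ∀ (w : W.Pl) (μ : Nm K (kap w)), (∀ x, μ.N x = ENNReal.ofReal (absP w x)) → ∀ i,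
      psN μ (fun i => ENNReal.ofReal (ρ w i)) (Ξ i - MvPowerSeries.C (p i)) ≤
        ENNReal.ofReal (ε ^ kap w * absP w (p i)))
    (f : MvPowerSeries (Fin n) K) (D : Fin n → ℝ) (b : W.Pl → ℝ)
    (hrep : ∀ w, RepW W p Ξ f D (b w) w) (γ : Fin n →₀ ℕ)
    (hγ : MvPowerSeries.coeff γ f ≠ 0) (w : W.Pl) :
    W.lg w (MvPowerSeries.coeff γ f) ≤ b w + ∑ i, (γ i : ℝ) * (-Real.log (ρ w i)) +
      2 * ε * (∑ i, D i) * W.arch w := by
  obtain ⟨μ, hμ⟩ := exists_nmP W w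
  have hw := hrep w
  have hh := h w μ hμ
  rcases w with σ | v
  · obtain ⟨T, r, hf, hD, hb⟩ := hw
    have h1 := CE.val_arch (W.σ σ) p hp Ξ hc (ρ (.inl σ)) (hρ _) ε hε0 hε (fun i => by
      have h2 := hh i
      rw [← CE.psN_map (W.σ σ) (by exact one_ne_zero) μ hμ, map_sub, MvPowerSeries.map_C] at h2
      refine h2.trans (le_of_eq ?_)
      change ENNReal.ofReal (ε ^ 1 * ‖W.σ σ (p i)‖) = _
      rw [pow_one]) f D (b (.inl σ)) T r hf hD hb γ hγ
    rw [W.arch_inl, mul_one]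
    exact h1
  · obtain ⟨T, r, hf, -, hb⟩ := hw
    have h1 := CE.val_fin rfl μ (W.v v) hμ (fun m => W.v_int v m) p hp Ξ hc (ρ (.inr v)) (hρ _)
      (fun i => by
        refine (hh i).trans (le_of_eq ?_)
        change ENNReal.ofReal (ε ^ 0 * W.v v (p i)) = _
        rw [pow_zero, one_mul]) f (b (.inr v)) T r hf hb γ hγ
    rw [W.arch_inr, mul_zero, add_zero]
    exact h1

end CL2

/-- Product formula with error `θ * M` for Laurent polynomials which do not vanish on the closure;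
at every place another representation may be used. -/
theorem star {c : Cfg 𝓤 n q} (cl : Cl c) (A θ : ℝ) (hA : 0 ≤ A) (hθ : 0 < θ) :
    ∀ᶠ ν in (𝓤 : Filter ℕ), ∀ (M : ℝ) (T : Finset (Fin n → ℤ)) (r : (Fin n → ℤ) → ℤ)
      (b : (c.S.W ν).Pl → ℝ), c.s ν 0 ≤ M → (∀ i, c.s ν (c.blk i) ≤ M) →
      (∀ a ∈ T, ∀ i, |(a i : ℝ)| ≤ A * M / c.s ν (c.blk i)) →
      Real.log (∑ a ∈ T, |(r a : ℝ)|) ≤ A * M / c.s ν 0 →
      lp (cl.Ξ ν) T (fun a => (r a : c.S.K ν)) ≠ 0 →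
      (∀ w, RepW (c.S.W ν) (c.S.p ν) (cl.Ξ ν) (lp (cl.Ξ ν) T fun a => (r a : c.S.K ν))
        (fun i => A * M / c.s ν (c.blk i)) (b w) w) →
      -(θ * M) ≤ (c.S.W ν).avg b := by
  classical
  obtain ⟨Cb, hCb⟩ := c.hbd
  set ε0 : ℝ := min (1 / 2) (θ / (4 * (n * A + 1))) with hε0
  have hnA : 0 ≤ (n : ℝ) * A := mul_nonneg (Nat.cast_nonneg n) hA
  have hεpos : 0 < ε0 := lt_min (by norm_num) (by positivity)
  have hεle : ε0 ≤ 1 / 2 := min_le_left _ _
  have hε1 : ε0 ≤ 1 := hεle.trans (by norm_num)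
  have hεθ : 2 * ε0 * (n * A) ≤ θ / 2 := by
    have h1 : ε0 ≤ θ / (4 * (n * A + 1)) := min_le_right _ _
    have h2 : ε0 * (4 * (n * A + 1)) ≤ θ := (le_div_iff₀ (by positivity)).1 h1
    nlinarith
  obtain ⟨A1, hA1, hrad⟩ := radius c.blk cl.I cl.d (max Cb 0) ε0 (le_max_right _ _) hεpos hε1
  set θ1 : ℝ := θ / (2 * (A1 + 1)) with hθ1
  have hθ1pos : 0 < θ1 := by positivity
  have hAθ : A1 * θ1 ≤ θ / 2 := by
    rw [hθ1, ← mul_div_assoc, div_le_div_iff₀ (by positivity) (by norm_num)]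
    nlinarith
  filter_upwards [cl.order_small' (2 * A) θ1 (by linarith) hθ1pos, HN.lev cl, cl.nrm, cl.int, hCb,
    c.hSat cl.d] with ν h1 h2 h4 h5 h6 h7
  intro M T r b hM0 hM hT hr hne hrep
  have : CharZero (c.S.K ν) := c.charZero ν
  have hs1 := c.s_one ν
  have hM1 : 1 ≤ M := hs1.trans hM0
  have hM00 : 0 ≤ M := by linarith
  have hspos : ∀ i, 1 ≤ c.s ν (c.blk i) := fun i => hs1.trans (c.s_le ν _)
  -- the ring contains the coefficients
  have hcoef : ∀ i γ, MvPowerSeries.coeff γ (cl.Ξ ν i) ∈ c.S.R ν := by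
    refine h5 (c.S.R ν) (c.S.mem ν) (fun l hl => ?_)
    have hder : aeval (c.S.p ν) (pderiv l (cl.g ν l)) ≠ 0 := h2.rel.der l hl
    have hg0 : cl.g ν l ≠ 0 := by
      intro h0
      apply hder
      rw [h0, map_zero, map_zero]
    have hd0 : pderiv l (cl.g ν l) ≠ 0 := by
      intro h0
      apply hder
      rw [h0, map_zero]
    refine h7 _ (fun i => (degreeOf_pderiv_le _ l i).trans (h2.deg l hl i)) ?_ hder
    have e1 := l1_pderiv (cl.g ν l) l
    have e2 : 1 ≤ l1 (cl.g ν l) := one_le_l1 hg0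
    have e3 : 1 ≤ l1 (pderiv l (cl.g ν l)) := one_le_l1 hd0
    have e4 : (((cl.g ν l).degreeOf l : ℕ) : ℝ) ≤ cl.d := by exact_mod_cast h2.deg l hl l
    have e5 : l1 (pderiv l (cl.g ν l)) ≤ cl.d * l1 (cl.g ν l) :=
      e1.trans (mul_le_mul_of_nonneg_right e4 (by linarith))
    have e6 : (0 : ℝ) < cl.d := by
      by_contra h0
      have : (cl.d : ℝ) = 0 := le_antisymm (not_lt.1 h0) (Nat.cast_nonneg _)
      rw [this, zero_mul] at e5
      linarith
    have e7 : Real.log (l1 (pderiv l (cl.g ν l))) ≤ Real.log cl.d + Real.log (l1 (cl.g ν l)) := by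
      rw [← Real.log_mul e6.ne' (by linarith)]
      exact Real.log_le_log (by linarith) e5
    have e8 : Real.log (cl.d : ℝ) ≤ cl.d := (Real.log_le_sub_one_of_pos e6).trans (by linarith)
    have e9 := h2.log l hl
    have e10 : c.s ν (c.blk l) / c.s ν 0 ≤ ∑ i, c.s ν (c.blk i) :=
      (div_le_self (by linarith [hspos l]) hs1).trans (Finset.single_le_sum
        (f := fun i => c.s ν (c.blk i)) (fun i _ => by linarith [hspos i]) (Finset.mem_univ l))
    have e11 : (cl.d : ℝ) * (c.s ν (c.blk l) / c.s ν 0) ≤ cl.d * ∑ i, c.s ν (c.blk i) :=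
      mul_le_mul_of_nonneg_left e10 e6.le
    rw [mul_add, mul_one]
    linarith
  -- the radii
  obtain ⟨R, hR0, hRavg, hR⟩ := hrad (c.S.K ν) (c.S.R ν) (c.S.W ν) (c.S.p ν) (cl.g ν) (cl.Ξ ν)
    (c.s ν) (c.S.ne ν) (c.S.mem ν) h2.rel h2.br h4 h2.deg (fun j => hs1.trans (c.s_le ν j))
    (fun l hl => by
      refine (h2.log l hl).trans (mul_le_mul_of_nonneg_left ?_ (Nat.cast_nonneg _))
      exact div_le_self (by linarith [hspos l]) hs1)
    (fun i => by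
      rw [← CL2.ht_single]
      refine (h6 i).trans (mul_le_mul_of_nonneg_right (le_max_left _ _) ?_)
      linarith [hspos i])
  -- the coefficient of minimal weight
  set f := lp (cl.Ξ ν) T (fun a => (r a : c.S.K ν)) with hf
  set H : Fin n → ℕ := fun i => ⌈c.s ν (c.blk i)⌉₊ with hH
  have hH1 : ∀ i, c.s ν (c.blk i) ≤ H i := fun i => Nat.le_ceil _
  have hH2 : ∀ i, (H i : ℝ) ≤ 2 * c.s ν (c.blk i) := fun i => by
    have e1 := Nat.ceil_lt_add_one (a := c.s ν (c.blk i)) (by linarith [hspos i])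
    have e2 := hspos i
    simp only [hH]
    linarith
  obtain ⟨γ, hγ, hmin⟩ := CL2.exists_min H f hne
  have hE := fun a (ha : a ∈ T) => HN.abs_le_EE (c := c) (ν := ν) (A := A) (M := M) (a := a)
    (hT a ha)
  have hord : ((wt H γ : ℕ) : ℝ) < θ1 * M := by
    refine h1 H M (HN.shp (HN.EE c ν A M) T r) (wt H γ) (fun i => ⟨hH1 i, hH2 i⟩) hM0 hM
      (fun i => ?_) ?_ ?_ ?_
    · refine le_trans ?_ (HN.EE_le hA hM00 i)
      exact_mod_cast HN.degreeOf_shp hE i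
    · by_cases h0 : l1 (HN.shp (HN.EE c ν A M) T r) ≤ 0
      · have e1 : l1 (HN.shp (HN.EE c ν A M) T r) = 0 := le_antisymm h0 (l1_nonneg _)
        rw [e1, Real.log_zero]
        have := c.s_pos ν 0
        positivity
      · push Not at h0
        refine (Real.log_le_log h0 (HN.l1_shp T r _)).trans (hr.trans ?_)
        have e1 := c.s_pos ν 0
        rw [div_le_div_iff_of_pos_right e1]
        nlinarith [mul_nonneg hA hM00]
    · rw [← HN.shift_lp (fun i => h2.const i) hE]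
      exact mul_ne_zero (h2.u_ne _) hne
    · intro γ' hγ'
      rw [← HN.shift_lp (fun i => h2.const i) hE]
      exact CL2.coeff_mul_zero H _ _ (wt H γ) hmin γ' hγ'
  -- the product formula
  set y := MvPowerSeries.coeff γ f with hy
  have hyR : y ∈ c.S.R ν := CL2.lp_mem (c.S.R ν) (cl.Ξ ν) (c.S.p ν) (c.S.ne ν) (c.S.mem ν)
    (c.S.inv ν) h2.br.const hcoef T r γ
  have hpf : 0 ≤ (c.S.W ν).avg (fun w => (c.S.W ν).lg w y) := (c.S.W ν).avg_lg_nonneg hyR hγ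
  have hval := CL2.val (c.S.W ν) (c.S.p ν) (c.S.ne ν) (cl.Ξ ν) h2.br.const
    (fun w i => R w (c.blk i)) (fun w i => hR0 w _) ε0 hεpos hεle hR f
    (fun i => A * M / c.s ν (c.blk i)) b hrep γ hγ
  have h8 : (c.S.W ν).avg (fun w => (c.S.W ν).lg w y) ≤ (c.S.W ν).avg b +
      ∑ i, (γ i : ℝ) * (c.S.W ν).avg (fun w => -Real.log (R w (c.blk i))) +
      2 * ε0 * (∑ i, A * M / c.s ν (c.blk i)) := by
    rw [← (c.S.W ν).avg_const_arch (2 * ε0 * (∑ i, A * M / c.s ν (c.blk i)))]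
    have e1 : ∑ i, (γ i : ℝ) * (c.S.W ν).avg (fun w => -Real.log (R w (c.blk i))) =
        (c.S.W ν).avg (fun w => ∑ i, (γ i : ℝ) * (-Real.log (R w (c.blk i)))) := by
      rw [(c.S.W ν).avg_sum]
      exact Finset.sum_congr rfl fun i _ => ((c.S.W ν).avg_mul _ _).symm
    rw [e1, ← (c.S.W ν).avg_add, ← (c.S.W ν).avg_add]
    exact (c.S.W ν).avg_mono hval
  have h9 : ∑ i, (γ i : ℝ) * (c.S.W ν).avg (fun w => -Real.log (R w (c.blk i))) ≤
      A1 * (wt H γ : ℕ) := by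
    rw [wt]
    push_cast
    rw [Finset.mul_sum]
    refine Finset.sum_le_sum fun i _ => ?_
    have e1 := hRavg (c.blk i)
    have e2 := hH1 i
    have e3 : (0 : ℝ) ≤ γ i := Nat.cast_nonneg _
    calc (γ i : ℝ) * (c.S.W ν).avg (fun w => -Real.log (R w (c.blk i)))
        ≤ γ i * (A1 * H i) :=
          mul_le_mul_of_nonneg_left (e1.trans (mul_le_mul_of_nonneg_left e2 hA1)) e3
      _ = _ := by ring
  have h10 : ∑ i, A * M / c.s ν (c.blk i) ≤ n * A * M := by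
    calc ∑ i, A * M / c.s ν (c.blk i) ≤ ∑ _i : Fin n, A * M :=
          Finset.sum_le_sum fun i _ => div_le_self (mul_nonneg hA hM00) (hspos i)
      _ = _ := by
          rw [Finset.sum_const, Finset.card_univ, Fintype.card_fin, nsmul_eq_mul]
          ring
  have h11 : 2 * ε0 * (∑ i, A * M / c.s ν (c.blk i)) ≤ θ / 2 * M := by
    calc 2 * ε0 * (∑ i, A * M / c.s ν (c.blk i)) ≤ 2 * ε0 * (n * A * M) :=
          mul_le_mul_of_nonneg_left h10 (by positivity)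
      _ = (2 * ε0 * (n * A)) * M := by ring
      _ ≤ _ := mul_le_mul_of_nonneg_right hεθ hM00
  have h12 : A1 * ((wt H γ : ℕ) : ℝ) ≤ θ / 2 * M := by
    calc A1 * ((wt H γ : ℕ) : ℝ) ≤ A1 * (θ1 * M) := mul_le_mul_of_nonneg_left hord.le hA1
      _ = (A1 * θ1) * M := by ring
      _ ≤ _ := mul_le_mul_of_nonneg_right hAθ hM00
  linarith

end Pool.Agent.ZP
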