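import Mathlib
import Pool.Agent.Lib.MP_c95b3b_ag_ZP.Hilbert

set_option autoImplicit false

/-! Project ZP, block CL: upper bound for the dimension (over the rational numbers) of the space
of the Laurent polynomials of bounded degree on the closures, Siegel's lemma (ZP_full 2.2). -/

namespace Pool.Agent.ZP

open Module Filter Topology Pool.Agent.L3 Pool.Agent.SD

variable {𝓤 : Ultrafilter ℕ} {n q : ℕ}

namespace CL3

open MvPolynomial Pool.Agent.AL HN

/-- bound for the number of the normal exponents -/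
theorem card_le {c : Cfg 𝓤 n q} {cl : Cl c} {ν : ℕ} (h : Lev cl ν) (E : Fin (q + 1) → ℕ)
    (hE : ∀ j, 1 ≤ E j) :
    (NF cl.I (cl.g ν) (fun i => 2 * E (c.blk i))).card ≤
      ((cl.d + 1) ^ n * (2 + n * (2 * cl.d) + 1) ^ n) * ∏ i ∈ cl.I, E (c.blk i) := by
  have hE' : ∀ j, (1 : ℝ) ≤ E j := fun j => by exact_mod_cast hE j
  have hE0 : ∀ j, (0 : ℝ) < E j := fun j => by linarith [hE' j]
  have h1 := card_NF_le (I := cl.I) (g := cl.g ν) (D := fun i => 2 * E (c.blk i))
    (s := fun i => ((E (c.blk i) : ℝ))⁻¹) (M := 1) (A := 2) (d := cl.d)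
    (fun i => inv_pos.mpr (hE0 _)) (fun i => inv_le_one_of_one_le₀ (hE' _)) (by norm_num)
    (fun i => by
      push_cast
      rw [div_inv_eq_mul]
      linarith)
    (fun l hl i hi => by
      rcases h.rel.vars l hl i hi with h2 | h2
      · rw [h2]
      · rw [h2.2]) h.deg
  rw [Fintype.card_fin] at h1
  have h2 : ∏ i ∈ cl.I, (1 / ((E (c.blk i) : ℝ))⁻¹) = ∏ i ∈ cl.I, (E (c.blk i) : ℝ) :=
    Finset.prod_congr rfl fun i _ => by rw [one_div, inv_inv]
  rw [h2] at h1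
  have h3 : (((NF cl.I (cl.g ν) (fun i => 2 * E (c.blk i))).card : ℕ) : ℝ) ≤
      ((((cl.d + 1) ^ n * (2 + n * (2 * cl.d) + 1) ^ n) * ∏ i ∈ cl.I, E (c.blk i) : ℕ) : ℝ) := by
    push_cast
    exact h1
  exact_mod_cast h3

/-- bound for the coefficients -/
theorem log_le {c : Cfg 𝓤 n q} {cl : Cl c} {ν : ℕ} (h : Lev cl ν) (E : Fin (q + 1) → ℕ) :
    Real.log (bnd cl.I (cl.g ν) (fun i => 2 * E (c.blk i))) ≤
      2 * cl.d * ∑ i, E (c.blk i) * c.s ν (c.blk i) / c.s ν 0 := by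
  classical
  have hS := sys_of_isRel h.rel
  rw [bnd, Real.log_prod]
  · have h0 : ∀ i, 0 ≤ (E (c.blk i) : ℝ) * c.s ν (c.blk i) / c.s ν 0 := fun i => by
      have h1 := c.s_pos ν (c.blk i)
      have h2 := c.s_pos ν 0
      positivity
    have h1 : ∀ l ∈ cl.Iᶜ, Real.log (l1 (cl.g ν l) ^ (2 * E (c.blk l))) ≤
        2 * cl.d * (E (c.blk l) * c.s ν (c.blk l) / c.s ν 0) := by
      intro l hl'
      rw [Finset.mem_compl] at hl'
      rw [Real.log_pow]
      push_cast
      calc 2 * (E (c.blk l) : ℝ) * Real.log (l1 (cl.g ν l))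
          ≤ 2 * (E (c.blk l) : ℝ) * (cl.d * (c.s ν (c.blk l) / c.s ν 0)) :=
            mul_le_mul_of_nonneg_left (h.log l hl') (by positivity)
        _ = _ := by ring
    refine (Finset.sum_le_sum h1).trans ?_
    rw [← Finset.mul_sum]
    exact mul_le_mul_of_nonneg_left
      (Finset.sum_le_univ_sum_of_nonneg h0) (by positivity)
  · intro l hl'
    rw [Finset.mem_compl] at hl'
    have := one_le_l1_g hS hl'
    exact pow_ne_zero _ (by linarith)

/-- functions in the span of Laurent monomials are quotients of values of polynomials -/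
theorem exists_poly {c : Cfg 𝓤 n q} {cl : Cl c} {ν : ℕ} (h : Lev cl ν) (E : Fin n → ℕ)
    {f : MvPowerSeries (Fin n) (c.S.K ν)}
    (hf : f ∈ Submodule.span ℤ
        {h | ∃ a : Fin n → ℤ, (∀ i, |a i| ≤ (E i : ℤ)) ∧ h = psm (cl.Ξ ν) a}) :
    ∃ p : MvPolynomial (Fin n) ℤ, (∀ i, p.degreeOf i ≤ 2 * E i) ∧
      (∏ i, cl.Ξ ν i ^ E i) * f = @aeval ℤ _ _ _ _ (Ring.toIntAlgebra _) (cl.Ξ ν) p := by
  induction hf using Submodule.span_induction with
  | mem f hf =>
    obtain ⟨a, ha, rfl⟩ := hf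
    refine ⟨shp E {a} (fun _ => 1), fun i => degreeOf_shp (fun b hb => ?_) i, ?_⟩
    · rw [Finset.mem_singleton] at hb
      rw [hb]
      exact ha
    · have h1 := shift_lp (r := fun _ => 1) h.const (T := {a}) (E := E) (fun b hb => by
        rw [Finset.mem_singleton] at hb
        rw [hb]
        exact ha)
      rw [lp, Finset.sum_singleton, Int.cast_one, map_one, one_mul] at h1
      rw [h1]
      exact BB.aeval_inst _ _ _ _
  | zero => exact ⟨0, fun i => by simp, by simp⟩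
  | add f g _ _ hf hg =>
    obtain ⟨p, hp, hp'⟩ := hf
    obtain ⟨r, hr, hr'⟩ := hg
    refine ⟨p + r, fun i => (degreeOf_add_le i p r).trans (max_le (hp i) (hr i)), ?_⟩
    rw [mul_add, hp', hr', map_add]
  | smul z f _ hf =>
    obtain ⟨p, hp, hp'⟩ := hf
    refine ⟨C z * p, fun i => (degreeOf_C_mul_le p i z).trans (hp i), ?_⟩
    rw [mul_smul_comm, hp', map_mul, zsmul_eq_mul]
    congr 1
    simp

end CL3

/-- many relations with integer coefficients -/
theorem hilb {c : Cfg 𝓤 n q} (cl : Cl c) : ∃ C : ℕ, ∀ᶠ ν in (𝓤 : Filter ℕ),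
    ∀ E : Fin (q + 1) → ℕ, (∀ j, 1 ≤ E j) → ∀ (κ : Type) [Fintype κ]
      (f : κ → MvPowerSeries (Fin n) (c.S.K ν)),
      (∀ k, f k ∈ Submodule.span ℤ
        {h | ∃ a : Fin n → ℤ, (∀ i, |a i| ≤ (E (c.blk i) : ℤ)) ∧ h = psm (cl.Ξ ν) a}) →
      Fintype.card κ ≤ finrank ℤ (LinearMap.ker (Fintype.linearCombination ℤ f)) +
        C * ∏ i ∈ cl.I, E (c.blk i) := by
  classical
  refine ⟨(cl.d + 1) ^ n * (2 + n * (2 * cl.d) + 1) ^ n, ?_⟩
  filter_upwards [HN.lev cl] with ν h E hE κ _ f hf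
  have hcard := CL3.card_le h E hE
  have h1 := fun k => CL3.exists_poly h (fun i => E (c.blk i)) (hf k)
  choose p hp hp' using h1
  set D : Fin n → ℕ := fun i => 2 * E (c.blk i) with hD
  have hS := HN.sys_of_isRel h.rel
  let T : (κ → ℤ) →ₗ[ℤ] (HN.NF cl.I (cl.g ν) D → ℤ) :=
    { toFun := fun F m => ∑ k, F k *
        MvPolynomial.coeff (Finsupp.equivFunOnFinite.symm m.1) (HN.nf cl.I (cl.g ν) D (p k))
      map_add' := by
        intro F G
        funext m
        simp only [Pi.add_apply, add_mul, Finset.sum_add_distrib]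
      map_smul' := by
        intro z F
        funext m
        simp only [Pi.smul_apply, smul_eq_mul, RingHom.id_apply, Finset.mul_sum, mul_assoc] }
  have hT : LinearMap.ker T ≤ LinearMap.ker (Fintype.linearCombination ℤ f) := by
    intro F hF
    rw [LinearMap.mem_ker] at hF ⊢
    rw [Fintype.linearCombination_apply]
    have hc0 : @MvPolynomial.aeval ℤ _ _ _ _ (Ring.toIntAlgebra _) (cl.Ξ ν)
        (HN.dn cl.I (cl.g ν) D) * ∏ i, cl.Ξ ν i ^ E (c.blk i) ≠ 0 :=
      mul_ne_zero (h.dn D) (h.u_ne _)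
    apply mul_left_cancel₀ hc0
    rw [mul_zero, Finset.mul_sum]
    have h2 : ∀ k ∈ Finset.univ, @MvPolynomial.aeval ℤ _ _ _ _ (Ring.toIntAlgebra _) (cl.Ξ ν)
        (HN.dn cl.I (cl.g ν) D) * (∏ i, cl.Ξ ν i ^ E (c.blk i)) * (F k • f k) =
        ∑ m : HN.NF cl.I (cl.g ν) D, ((F k * MvPolynomial.coeff
          (Finsupp.equivFunOnFinite.symm m.1) (HN.nf cl.I (cl.g ν) D (p k)) : ℤ) :
            MvPowerSeries (Fin n) (c.S.K ν)) * ∏ i, cl.Ξ ν i ^ (m : Fin n → ℕ) i := by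
      intro k _
      have h3 := HN.aeval_nf hS (cl.Ξ ν) h.root (hp k)
      rw [mul_smul_comm, mul_assoc, hp' k, ← h3,
        HN.aeval_eq_box (cl.Ξ ν) _ (HN.NF cl.I (cl.g ν) D) fun m hm => HN.mem_NF hS (hp k) hm,
        zsmul_eq_mul, Finset.mul_sum, ← Finset.sum_coe_sort (HN.NF cl.I (cl.g ν) D)]
      refine Finset.sum_congr rfl fun m _ => ?_
      push_cast
      ring
    rw [Finset.sum_congr rfl h2, Finset.sum_comm]
    refine Finset.sum_eq_zero fun m _ => ?_
    rw [← Finset.sum_mul, ← Int.cast_sum]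
    have h4 : ∑ k, F k * MvPolynomial.coeff
        (Finsupp.equivFunOnFinite.symm m.1) (HN.nf cl.I (cl.g ν) D (p k)) = 0 := congrFun hF m
    rw [h4, Int.cast_zero, zero_mul]
  have h5 := Submodule.finrank_quotient_add_finrank (LinearMap.ker T)
  rw [finrank_fintype_fun_eq_card, (LinearMap.quotKerEquivRange T).finrank_eq] at h5
  have h6 : finrank ℤ (LinearMap.range T) ≤ (HN.NF cl.I (cl.g ν) D).card := by
    refine (Submodule.finrank_le _).trans ?_
    rw [finrank_fintype_fun_eq_card, Fintype.card_coe]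
  have h7 : finrank ℤ (LinearMap.ker T) ≤
      finrank ℤ (LinearMap.ker (Fintype.linearCombination ℤ f)) := Submodule.finrank_mono hT
  omega

/-- small relations with integer coefficients between many monomials -/
theorem siegel {c : Cfg 𝓤 n q} (cl : Cl c) : ∃ C : ℕ, ∀ᶠ ν in (𝓤 : Filter ℕ),
    ∀ E : Fin (q + 1) → ℕ, (∀ j, 1 ≤ E j) → ∀ (κ : Type) [Fintype κ] (a : κ → Fin n → ℤ),
      (∀ k i, |a k i| ≤ (E (c.blk i) : ℤ)) → C * ∏ i ∈ cl.I, E (c.blk i) ≤ Fintype.card κ →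
      0 < Fintype.card κ →
      ∃ F : κ → ℤ, F ≠ 0 ∧ ∑ k, F k • psm (cl.Ξ ν) (a k) = 0 ∧ ∀ k, |(F k : ℝ)| ≤
        Real.exp (C * (∑ i, E (c.blk i) * c.s ν (c.blk i) / c.s ν 0 +
          Real.log (Fintype.card κ) + 1)) := by
  classical
  set C1 : ℕ := (cl.d + 1) ^ n * (2 + n * (2 * cl.d) + 1) ^ n with hC1
  refine ⟨2 * C1 + 2 * cl.d + 1, ?_⟩
  filter_upwards [HN.lev cl] with ν h E hE κ _ a ha hcard hκ
  have hc1 := CL3.card_le h E hE
  have hS := HN.sys_of_isRel h.rel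
  set D : Fin n → ℕ := fun i => 2 * E (c.blk i) with hD
  have hP : 1 ≤ ∏ i ∈ cl.I, E (c.blk i) := Nat.one_le_iff_ne_zero.mpr
    (Finset.prod_ne_zero_iff.mpr fun i _ => by have := hE (c.blk i); omega)
  have h4 : 2 * (HN.NF cl.I (cl.g ν) D).card ≤ Fintype.card κ := by
    refine le_trans ?_ hcard
    nlinarith
  obtain ⟨u, hu0, hu1, hu2⟩ := HN.siegel (I := cl.I) (g := cl.g ν) (D := D)
    hS (cl.Ξ ν) h.root (h.dn _)
    (fun o => psm (cl.Ξ ν) (a o)) (∏ i, cl.Ξ ν i ^ E (c.blk i))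
    (h.u_ne _) (fun o => HN.shp (fun i => E (c.blk i)) {a o} (fun _ => 1))
    (fun o i => HN.degreeOf_shp (fun b hb => by
      rw [Finset.mem_singleton] at hb
      rw [hb]
      exact ha o) i)
    (fun o => by
      have h1 := HN.shift_lp (r := fun _ => 1) h.const (T := {a o}) (E := fun i => E (c.blk i))
        (fun b hb => by
          rw [Finset.mem_singleton] at hb
          rw [hb]
          exact ha o)
      rw [lp, Finset.sum_singleton, Int.cast_one, map_one, one_mul] at h1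
      rw [h1]
      exact Pool.Agent.AL.BB.aeval_inst _ _ _ _) (Λ := 1) le_rfl
    (fun o => by
      refine (HN.l1_shp _ _ _).trans ?_
      simp) h4
  refine ⟨u, hu0, ?_, ?_⟩
  · rw [← hu1]
    exact Finset.sum_congr rfl fun k _ => zsmul_eq_mul _ _
  · intro k
    have hb : 1 ≤ HN.bnd cl.I (cl.g ν) D := HN.one_le_bnd hS
    have h7 := hu2 k
    rw [one_mul] at h7
    have hlogb := CL3.log_le h E
    have hκ1 : (1 : ℝ) ≤ Fintype.card κ := by exact_mod_cast hκ
    have hlogκ : 0 ≤ Real.log (Fintype.card κ) := Real.log_nonneg hκ1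
    have hSu : 0 ≤ ∑ i, (E (c.blk i) : ℝ) * c.s ν (c.blk i) / c.s ν 0 :=
      Finset.sum_nonneg fun i _ => by
        have h1 := c.s_pos ν (c.blk i)
        have h2 := c.s_pos ν 0
        positivity
    refine h7.trans ?_
    have h8 : (Fintype.card κ : ℝ) * HN.bnd cl.I (cl.g ν) D =
        Real.exp (Real.log (Fintype.card κ) + Real.log (HN.bnd cl.I (cl.g ν) D)) := by
      rw [Real.exp_add, Real.exp_log (by linarith), Real.exp_log (by linarith)]
    rw [h8]
    apply Real.exp_le_exp.mpr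
    push_cast
    have hC1' : (0 : ℝ) ≤ C1 := Nat.cast_nonneg _
    have hd' : (0 : ℝ) ≤ cl.d := Nat.cast_nonneg _
    set Su : ℝ := ∑ i, (E (c.blk i) : ℝ) * c.s ν (c.blk i) / c.s ν 0 with hSu'
    set Lκ : ℝ := Real.log (Fintype.card κ) with hLκ
    nlinarith [mul_nonneg hC1' hSu, mul_nonneg hC1' hlogκ, mul_nonneg hd' hlogκ]

end Pool.Agent.ZP
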