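import Mathlib
import Pool.Agent.Lib.MP_c95b3b_ag_ZP.Hilbert

set_option autoImplicit false

/-! Project ZP, block CL: small relations between all families of more coordinates than the
dimension. -/

namespace Pool.Agent.ZP

open MvPolynomial Module Filter Topology Pool.Agent.L3 Pool.Agent.SD Pool.Agent.AL

variable {𝓤 : Ultrafilter ℕ} {n q : ℕ}

namespace CL5A

open HN

/-- the degrees `E` in the block `j`, `0` in the other blocks -/
def dgj (blk : Fin n → Fin (q + 1)) (j : Fin (q + 1)) (E : ℕ) (i : Fin n) : ℕ :=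
  if blk i = j then E else 0

variable {c : Cfg 𝓤 n q} {cl : Cl c} {ν : ℕ}

theorem deg_eq_zero (h : Lev cl ν) {l i : Fin n} (hl : l ∉ cl.I) (hil : c.blk i ≠ c.blk l) :
    (cl.g ν l).degreeOf i = 0 := by
  rw [← not_ne_iff, ← mem_vars_iff_degreeOf_ne_zero]
  intro h1
  rcases h.rel.vars l hl i h1 with h2 | h2
  · exact hil (by rw [h2])
  · exact hil h2.2

theorem card_le (h : Lev cl ν) (j : Fin (q + 1)) (E : ℕ) :
    (NF cl.I (cl.g ν) (dgj c.blk j E)).card ≤
      ((cl.d + 1) ^ n * (n * cl.d + 1) ^ n) * (E + 1) ^ (cl.I.filter fun i => c.blk i = j).card := by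
  classical
  rw [card_NF, ← Finset.prod_mul_prod_compl cl.I]
  have h1 : ∏ i ∈ cl.Iᶜ, wd cl.I (cl.g ν) (dgj c.blk j E) i ≤ (cl.d + 1) ^ n := by
    refine (Finset.prod_le_prod' (g := fun _ => cl.d + 1) fun i hi => ?_).trans ?_
    · rw [Finset.mem_compl] at hi
      rw [wd, if_neg hi]
      exact (h.deg i hi i).trans (Nat.le_succ _)
    · rw [Finset.prod_const]
      refine Nat.pow_le_pow_right (Nat.succ_pos _) ?_
      exact (Finset.card_le_univ _).trans (by rw [Fintype.card_fin])
  have h2 : ∏ i ∈ cl.I, wd cl.I (cl.g ν) (dgj c.blk j E) i ≤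
      (n * cl.d + 1) ^ n * (E + 1) ^ (cl.I.filter fun i => c.blk i = j).card := by
    have h3 : ∀ i ∈ cl.I, wd cl.I (cl.g ν) (dgj c.blk j E) i ≤
        (n * cl.d + 1) * (if c.blk i = j then E + 1 else 1) := by
      intro i hi
      rw [wd, if_pos hi]
      by_cases hij : c.blk i = j
      · have h4 : ∑ l ∈ cl.Iᶜ, dgj c.blk j E l * (cl.g ν l).degreeOf i ≤ n * (E * cl.d) := by
          calc ∑ l ∈ cl.Iᶜ, dgj c.blk j E l * (cl.g ν l).degreeOf i
              ≤ ∑ _l ∈ cl.Iᶜ, E * cl.d := by
                refine Finset.sum_le_sum fun l hl => ?_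
                rw [Finset.mem_compl] at hl
                refine Nat.mul_le_mul ?_ (h.deg l hl i)
                rw [dgj]
                split_ifs
                · exact le_rfl
                · exact Nat.zero_le _
            _ = cl.Iᶜ.card * (E * cl.d) := by rw [Finset.sum_const, smul_eq_mul]
            _ ≤ n * (E * cl.d) := Nat.mul_le_mul_right _
                ((Finset.card_le_univ _).trans (by rw [Fintype.card_fin]))
        rw [if_pos hij]
        have h5 : dgj c.blk j E i = E := by rw [dgj, if_pos hij]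
        rw [h5]
        nlinarith
      · have h4 : ∑ l ∈ cl.Iᶜ, dgj c.blk j E l * (cl.g ν l).degreeOf i = 0 := by
          refine Finset.sum_eq_zero fun l hl => ?_
          rw [Finset.mem_compl] at hl
          by_cases hlj : c.blk l = j
          · rw [deg_eq_zero h hl (by rw [hlj]; exact hij), mul_zero]
          · rw [dgj, if_neg hlj, zero_mul]
        rw [h4, if_neg hij, dgj, if_neg hij]
        nlinarith
    refine (Finset.prod_le_prod' h3).trans ?_
    rw [Finset.prod_mul_distrib, Finset.prod_const, Finset.prod_ite, Finset.prod_const,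
      Finset.prod_const_one, mul_one]
    refine Nat.mul_le_mul_right _ ?_
    refine Nat.pow_le_pow_right (Nat.succ_pos _) ?_
    exact (Finset.card_le_univ _).trans (by rw [Fintype.card_fin])
  calc _ ≤ ((n * cl.d + 1) ^ n * (E + 1) ^ (cl.I.filter fun i => c.blk i = j).card) *
        (cl.d + 1) ^ n := Nat.mul_le_mul h2 h1
    _ = _ := by ring

theorem log_le (h : Lev cl ν) (j : Fin (q + 1)) (E : ℕ) :
    Real.log (bnd cl.I (cl.g ν) (dgj c.blk j E)) ≤ n * (E * cl.d) * (c.s ν j / c.s ν 0) := by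
  classical
  have hS := sys_of_isRel h.rel
  have h0 : 0 ≤ c.s ν j / c.s ν 0 := by
    have h1 := c.s_pos ν j
    have h2 := c.s_pos ν 0
    positivity
  rw [bnd, Real.log_prod]
  · have h1 : ∀ l ∈ cl.Iᶜ, Real.log (l1 (cl.g ν l) ^ (dgj c.blk j E l)) ≤
        (E * cl.d) * (c.s ν j / c.s ν 0) := by
      intro l hl'
      rw [Finset.mem_compl] at hl'
      rw [Real.log_pow]
      by_cases hlj : c.blk l = j
      · rw [dgj, if_pos hlj]
        have h2 := h.log l hl'
        rw [hlj] at h2
        calc (E : ℝ) * Real.log (l1 (cl.g ν l)) ≤ E * (cl.d * (c.s ν j / c.s ν 0)) :=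
              mul_le_mul_of_nonneg_left h2 (Nat.cast_nonneg _)
          _ = _ := by ring
      · rw [dgj, if_neg hlj, Nat.cast_zero, zero_mul]
        positivity
    refine (Finset.sum_le_sum h1).trans ?_
    rw [Finset.sum_const, nsmul_eq_mul]
    have h2 : ((cl.Iᶜ.card : ℕ) : ℝ) ≤ n := by
      have : cl.Iᶜ.card ≤ n := (Finset.card_le_univ _).trans (by rw [Fintype.card_fin])
      exact_mod_cast this
    calc ((cl.Iᶜ.card : ℕ) : ℝ) * ((E * cl.d) * (c.s ν j / c.s ν 0))
        ≤ n * ((E * cl.d) * (c.s ν j / c.s ν 0)) :=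
          mul_le_mul_of_nonneg_right h2 (by positivity)
      _ = _ := by ring
  · intro l hl'
    rw [Finset.mem_compl] at hl'
    have := one_le_l1_g hS hl'
    exact pow_ne_zero _ (by linarith)

/-- the exponents -/
noncomputable def mo {E : ℕ} (J : Finset (Fin n)) (o : J → Fin (E + 1)) : Fin n →₀ ℕ :=
  Finsupp.equivFunOnFinite.symm fun i => if hi : i ∈ J then (o ⟨i, hi⟩ : ℕ) else 0

theorem mo_apply {E : ℕ} (J : Finset (Fin n)) (o : J → Fin (E + 1)) (i : Fin n) :
    mo J o i = if hi : i ∈ J then (o ⟨i, hi⟩ : ℕ) else 0 := rfl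

theorem mo_inj {E : ℕ} (J : Finset (Fin n)) : Function.Injective (mo (E := E) J) := by
  intro o o' h
  funext i
  have h1 := DFunLike.congr_fun h i.1
  rw [mo_apply, mo_apply, dif_pos i.2, dif_pos i.2] at h1
  exact Fin.ext h1

theorem mo_le {E : ℕ} (J : Finset (Fin n)) (o : J → Fin (E + 1)) (i : Fin n) :
    mo J o i ≤ if i ∈ J then E else 0 := by
  rw [mo_apply]
  by_cases hi : i ∈ J
  · rw [dif_pos hi, if_pos hi]
    have := (o ⟨i, hi⟩).2
    omega
  · rw [dif_neg hi, if_neg hi]

end CL5A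

theorem exists_rels {c : Cfg 𝓤 n q} (cl : Cl c) : ∃ δ : ℕ, ∀ᶠ ν in (𝓤 : Filter ℕ),
    ∀ (j : Fin (q + 1)) (J : Finset (Fin n)), (∀ i ∈ J, c.blk i = j) →
      (cl.I.filter fun i => c.blk i = j).card < J.card →
      ∃ f : MvPolynomial (Fin n) ℤ, f ≠ 0 ∧ f.vars ⊆ J ∧ (∀ i, f.degreeOf i ≤ δ) ∧
        Real.log (l1 f) ≤ δ * (c.s ν j / c.s ν 0) ∧ aeval (cl.Ξ ν) f = 0 := by
  classical
  set C1 : ℕ := (cl.d + 1) ^ n * (n * cl.d + 1) ^ n with hC1
  have hC1p : 0 < C1 := by positivity
  set E : ℕ := 2 * C1 with hE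
  refine ⟨2 * (n * (E + 1)) + n * (E * cl.d) + E, ?_⟩
  filter_upwards [HN.lev cl] with ν h j J hJ hcard
  have hS := HN.sys_of_isRel h.rel
  set D : Fin n → ℕ := CL5A.dgj c.blk j E with hD
  have hmoD : ∀ (o : J → Fin (E + 1)) (i : Fin n), CL5A.mo J o i ≤ D i := by
    intro o i
    refine (CL5A.mo_le J o i).trans ?_
    split_ifs with hi
    · rw [hD, CL5A.dgj, if_pos (hJ i hi)]
    · exact Nat.zero_le _
  have hmodeg : ∀ (o : J → Fin (E + 1)) (z : ℤ) (i : Fin n),
      (monomial (CL5A.mo J o) z).degreeOf i ≤ CL5A.mo J o i := by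
    intro o z i
    by_cases hz : z = 0
    · rw [hz, monomial_zero, degreeOf_zero]
      exact Nat.zero_le _
    · rw [degreeOf_monomial_eq _ _ hz]
  have hcardΩ : Fintype.card (J → Fin (E + 1)) = (E + 1) ^ J.card := by
    rw [Fintype.card_fun, Fintype.card_fin, Fintype.card_coe]
  have h4 : 2 * (HN.NF cl.I (cl.g ν) D).card ≤ Fintype.card (J → Fin (E + 1)) := by
    rw [hcardΩ]
    have h5 := CL5A.card_le h j E
    calc 2 * (HN.NF cl.I (cl.g ν) D).card
        ≤ 2 * (C1 * (E + 1) ^ (cl.I.filter fun i => c.blk i = j).card) :=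
          Nat.mul_le_mul_left _ h5
      _ ≤ (E + 1) * (E + 1) ^ (cl.I.filter fun i => c.blk i = j).card := by
          rw [← mul_assoc]
          exact Nat.mul_le_mul_right _ (by omega)
      _ = (E + 1) ^ ((cl.I.filter fun i => c.blk i = j).card + 1) := by ring
      _ ≤ (E + 1) ^ J.card := Nat.pow_le_pow_right (Nat.succ_pos _) hcard
  obtain ⟨u, hu0, hu1, hu2⟩ := HN.siegel (I := cl.I) (g := cl.g ν) (D := D)
    hS (cl.Ξ ν) h.root (h.dn _)
    (fun o : J → Fin (E + 1) => @aeval ℤ _ _ _ _ (Ring.toIntAlgebra _) (cl.Ξ ν)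
      (monomial (CL5A.mo J o) (1 : ℤ))) 1 one_ne_zero
    (fun o => monomial (CL5A.mo J o) (1 : ℤ))
    (fun o i => (hmodeg o 1 i).trans (hmoD o i))
    (fun o => one_mul _) (Λ := 1) le_rfl
    (fun o => by
      rw [l1]
      refine (Finset.sum_le_sum_of_subset_of_nonneg support_monomial_subset
        fun _ _ _ => abs_nonneg _).trans ?_
      rw [Finset.sum_singleton, coeff_monomial, if_pos rfl]
      simp) h4
  set f : MvPolynomial (Fin n) ℤ := ∑ o, monomial (CL5A.mo J o) (u o) with hf
  have hcoef : ∀ o, coeff (CL5A.mo J o) f = u o := by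
    intro o
    rw [hf, coeff_sum, Finset.sum_eq_single o]
    · rw [coeff_monomial, if_pos rfl]
    · intro o' _ ho'
      rw [coeff_monomial, if_neg fun h => ho' (CL5A.mo_inj J h)]
    · intro h
      exact (h (Finset.mem_univ _)).elim
  have hmem : ∀ m ∈ f.support, ∃ o : J → Fin (E + 1), CL5A.mo J o = m := by
    intro m hm
    rw [MvPolynomial.mem_support_iff] at hm
    by_contra hc
    push Not at hc
    apply hm
    rw [hf, coeff_sum]
    refine Finset.sum_eq_zero fun o _ => ?_
    rw [coeff_monomial, if_neg (hc o)]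
  have hs0 : 1 ≤ c.s ν j / c.s ν 0 := (one_le_div (c.s_pos ν 0)).mpr (c.s_le ν j)
  refine ⟨f, ?_, ?_, ?_, ?_, ?_⟩
  · obtain ⟨o, ho⟩ := Function.ne_iff.mp hu0
    intro h0
    apply ho
    rw [← hcoef o, h0, coeff_zero]
    rfl
  · intro i hi
    rw [mem_vars_iff_degreeOf_ne_zero, degreeOf_eq_sup] at hi
    by_contra hiJ
    apply hi
    rw [← Nat.bot_eq_zero, eq_bot_iff, Finset.sup_le_iff]
    intro m hm
    obtain ⟨o, rfl⟩ := hmem m hm
    have := CL5A.mo_le J o i
    rw [if_neg hiJ] at this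
    exact this
  · intro i
    have h5 : f.degreeOf i ≤ E := by
      rw [degreeOf_eq_sup, Finset.sup_le_iff]
      intro m hm
      obtain ⟨o, rfl⟩ := hmem m hm
      refine (CL5A.mo_le J o i).trans ?_
      split_ifs
      · exact le_rfl
      · exact Nat.zero_le _
    omega
  · have hb : 1 ≤ HN.bnd cl.I (cl.g ν) D := HN.one_le_bnd hS
    have hcard1 : (1 : ℝ) ≤ Fintype.card (J → Fin (E + 1)) := by
      rw [hcardΩ]
      exact_mod_cast Nat.one_le_pow _ _ (Nat.succ_pos _)
    have h5 : l1 f ≤ Fintype.card (J → Fin (E + 1)) *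
        (Fintype.card (J → Fin (E + 1)) * HN.bnd cl.I (cl.g ν) D) := by
      rw [hf]
      refine (l1_sum _ _).trans ?_
      have h6 : ∀ o ∈ (Finset.univ : Finset (J → Fin (E + 1))),
          l1 (monomial (CL5A.mo J o) (u o)) ≤
            Fintype.card (J → Fin (E + 1)) * HN.bnd cl.I (cl.g ν) D := by
        intro o _
        rw [l1]
        refine (Finset.sum_le_sum_of_subset_of_nonneg support_monomial_subset
          fun _ _ _ => abs_nonneg _).trans ?_
        rw [Finset.sum_singleton, coeff_monomial, if_pos rfl]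
        have := hu2 o
        rw [one_mul] at this
        exact this
      refine (Finset.sum_le_sum h6).trans ?_
      rw [Finset.sum_const, Finset.card_univ, nsmul_eq_mul]
    have hl0 : 0 < l1 f := by
      obtain ⟨o, ho⟩ := Function.ne_iff.mp hu0
      have h6 := abs_coeff_le_l1 f (CL5A.mo J o)
      rw [hcoef o] at h6
      have h7 : (0 : ℝ) < |((u o : ℤ) : ℝ)| := abs_pos.mpr (by exact_mod_cast ho)
      linarith
    have hlogc : Real.log (Fintype.card (J → Fin (E + 1))) ≤ n * (E + 1) := by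
      rw [hcardΩ, Nat.cast_pow, Real.log_pow]
      have h6 : (J.card : ℝ) ≤ n := by
        have : J.card ≤ n := (Finset.card_le_univ _).trans (by rw [Fintype.card_fin])
        exact_mod_cast this
      have h7 : Real.log ((E + 1 : ℕ) : ℝ) ≤ E + 1 := by
        have h8 : (0 : ℝ) < ((E + 1 : ℕ) : ℝ) := by positivity
        have := Real.log_le_sub_one_of_pos h8
        push_cast at this ⊢
        linarith
      have h8 : 0 ≤ Real.log ((E + 1 : ℕ) : ℝ) := Real.log_natCast_nonneg _
      calc (J.card : ℝ) * Real.log ((E + 1 : ℕ) : ℝ) ≤ n * Real.log ((E + 1 : ℕ) : ℝ) :=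
            mul_le_mul_of_nonneg_right h6 h8
        _ ≤ n * (E + 1) := mul_le_mul_of_nonneg_left h7 (Nat.cast_nonneg _)
    have hlogb := CL5A.log_le h j E
    calc Real.log (l1 f) ≤ Real.log (Fintype.card (J → Fin (E + 1)) *
          (Fintype.card (J → Fin (E + 1)) * HN.bnd cl.I (cl.g ν) D)) := Real.log_le_log hl0 h5
      _ = 2 * Real.log (Fintype.card (J → Fin (E + 1))) +
          Real.log (HN.bnd cl.I (cl.g ν) D) := by
          rw [Real.log_mul (by linarith) (by nlinarith), Real.log_mul (by linarith) (by linarith)]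
          ring
      _ ≤ 2 * (n * (E + 1)) + n * (E * cl.d) * (c.s ν j / c.s ν 0) := by linarith
      _ ≤ _ := by
          push_cast
          have h9 : (0 : ℝ) ≤ 2 * (n * (E + 1)) := by positivity
          have h10 : (0 : ℝ) ≤ E := Nat.cast_nonneg _
          nlinarith
  · have h5 : @aeval ℤ _ _ _ _ (Ring.toIntAlgebra _) (cl.Ξ ν) f = 0 := by
      rw [hf, map_sum, ← hu1]
      refine Finset.sum_congr rfl fun o _ => ?_
      have h6 : (monomial (CL5A.mo J o) (u o) : MvPolynomial (Fin n) ℤ) =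
          C (u o) * monomial (CL5A.mo J o) 1 := by
        rw [C_mul_monomial, mul_one]
      rw [h6, map_mul]
      congr 1
      simp
    rw [← h5]
    exact BB.aeval_inst _ _ _ _

end Pool.Agent.ZP
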