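import Mathlib
import Pool.Agent.Lib.MP_c95b3b_ag_F.Red
import Pool.Agent.Lib.MP_c95b3b_ag_FR.FromQbar
import Pool.Agent.Lib.MP_c95b3b_ag_SD.GenC
import Pool.Agent.Lib.MP_c95b3b_ag_ZP.Defs

set_option autoImplicit false

/-! Project ZP, block PT, part a: from a counterexample over the algebraic numbers to a sequence of
points with many multiplicative relations, no character of which has a constant value infinitely
often (ZP_full 0, R1 and R2: subgroups are replaced by cosets by taking tuples of points). -/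

namespace Pool.Agent.ZP

open Module Filter Topology MvPolynomial Pool.Agent.SD Pool.Agent.CITF Pool.Agent.CITR

namespace PTa

/-- the exponents of the monomials which are constant along the sequence -/
def CL {m : ℕ} (P : ℕ → Fin m → ℂ) (hP : ∀ ν i, P ν i ≠ 0) : Submodule ℤ (Fin m → ℤ) where
  carrier := {a | ∀ ν, mn (P ν) a = mn (P 0) a}
  add_mem' := by
    intro a b ha hb ν
    rw [mn_add (hP ν), mn_add (hP 0), ha ν, hb ν]
  zero_mem' := fun ν => by rw [mn_zero, mn_zero]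
  smul_mem' := by
    intro k a ha ν
    rw [mn_zsmul (hP ν), mn_zsmul (hP 0), ha ν]

theorem alg_mn {m : ℕ} {z : Fin m → ℂ} (hz : ∀ i, IsAlgebraic ℚ (z i)) (a : Fin m → ℤ) :
    IsAlgebraic ℚ (mn z a) := by
  rw [← mem_algebraicClosure_iff]
  exact prod_mem fun l _ => zpow_mem (mem_algebraicClosure_iff.2 (hz l)) _

theorem ev_ne {m : ℕ} {P : ℕ → Fin m → ℂ} (hP : ∀ ν i, P ν i ≠ 0)
    (hgen : ∀ f : MvPolynomial (Fin m) ℂ,
      (∀ ν, eval (P ν) f = 0) ∨ ∀ᶠ ν in atTop, eval (P ν) f ≠ 0)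
    {a : Fin m → ℤ} (ha : a ∉ CL P hP) (c : ℂ) : ∀ᶠ ν in atTop, mn (P ν) a ≠ c := by
  set G : MvPolynomial (Fin m) ℂ := ∏ l, X l ^ (a l).toNat - C c * ∏ l, X l ^ (-a l).toNat with hG
  have hev : ∀ ν, eval (P ν) G = 0 ↔ mn (P ν) a = c := by
    intro ν
    have h1 : mn (P ν) a = (∏ l, P ν l ^ (a l).toNat) / ∏ l, P ν l ^ (-a l).toNat := by
      rw [mn, ← Finset.prod_div_distrib]
      refine Finset.prod_congr rfl fun l _ => ?_
      rw [← zpow_natCast, ← zpow_natCast, ← zpow_sub₀ (hP ν l)]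
      congr 1
      omega
    have h2 : ∏ l, P ν l ^ (-a l).toNat ≠ 0 :=
      Finset.prod_ne_zero_iff.mpr fun l _ => pow_ne_zero _ (hP ν l)
    rw [h1, div_eq_iff h2, hG, map_sub, map_mul, map_prod, map_prod, sub_eq_zero]
    simp only [map_pow, eval_X, eval_C]
  rcases hgen G with h | h
  · exfalso
    apply ha
    intro ν
    rw [(hev ν).1 (h ν), (hev 0).1 (h 0)]
  · filter_upwards [h] with ν hν h1
    exact hν ((hev ν).2 h1)

theorem sat_CL {m : ℕ} {P : ℕ → Fin m → ℂ} (hP : ∀ ν i, P ν i ≠ 0)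
    (hgen : ∀ f : MvPolynomial (Fin m) ℂ,
      (∀ ν, eval (P ν) f = 0) ∨ ∀ᶠ ν in atTop, eval (P ν) f ≠ 0)
    (k : ℤ) (a : Fin m → ℤ) (hk : k ≠ 0) (ha : k • a ∈ CL P hP) : a ∈ CL P hP := by
  classical
  by_contra hcon
  have hk' : (k.natAbs : ℤ) • a ∈ CL P hP := by
    rcases Int.natAbs_eq k with h | h
    · rw [← h]
      exact ha
    · have h2 : (k.natAbs : ℤ) = -k := by omega
      rw [h2, neg_smul]
      exact neg_mem ha
  have hn : 0 < k.natAbs := Int.natAbs_pos.2 hk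
  generalize k.natAbs = n at hk' hn
  have h1 : ∀ ν, mn (P ν) a ^ n = mn (P 0) ((n : ℤ) • a) := by
    intro ν
    rw [← hk' ν, mn_zsmul (hP ν), zpow_natCast]
  have h2 : ∀ᶠ ν in atTop,
      ∀ c ∈ (Polynomial.nthRoots n (mn (P 0) ((n : ℤ) • a))).toFinset, mn (P ν) a ≠ c := by
    rw [Filter.eventually_all_finset]
    intro c _
    exact ev_ne hP hgen hcon c
  obtain ⟨ν, hν⟩ := h2.exists
  exact hν _ (Multiset.mem_toFinset.2 ((Polynomial.mem_nthRoots hn).2 (h1 ν))) rfl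

theorem exists_section {m : ℕ} (L : Submodule ℤ (Fin m → ℤ))
    (hL : ∀ (k : ℤ) (a : Fin m → ℤ), k ≠ 0 → k • a ∈ L → a ∈ L) :
    ∃ (r : ℕ) (q : (Fin m → ℤ) →ₗ[ℤ] (Fin r → ℤ)) (s : (Fin r → ℤ) →ₗ[ℤ] (Fin m → ℤ)),
      (∀ b, q (s b) = b) ∧ ∀ a, q a = 0 ↔ a ∈ L := by
  have htf : Module.IsTorsionFree ℤ ((Fin m → ℤ) ⧸ L) := by
    rw [Module.isTorsionFree_iff_smul_eq_zero]
    intro k y h
    obtain ⟨a, rfl⟩ := Submodule.Quotient.mk_surjective L y
    rw [← Submodule.Quotient.mk_smul, Submodule.Quotient.mk_eq_zero] at h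
    by_cases hk : k = 0
    · exact Or.inl hk
    · exact Or.inr ((Submodule.Quotient.mk_eq_zero L).2 (hL k a hk h))
  have hfree : Module.Free ℤ ((Fin m → ℤ) ⧸ L) := Module.free_of_finite_type_torsion_free'
  let bas := Module.finBasis ℤ ((Fin m → ℤ) ⧸ L)
  let q := bas.equivFun.toLinearMap ∘ₗ L.mkQ
  have hq : Function.Surjective q := bas.equivFun.surjective.comp L.mkQ_surjective
  obtain ⟨s, hs⟩ := Module.projective_lifting_property q LinearMap.id hq
  refine ⟨_, q, s, fun b => LinearMap.congr_fun hs b, fun a => ?_⟩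
  change bas.equivFun (L.mkQ a) = 0 ↔ _
  rw [LinearEquiv.map_eq_zero_iff, Submodule.mkQ_apply, Submodule.Quotient.mk_eq_zero]

theorem exists_tuple {r : ℕ} {P : ℕ → Fin r → ℂ} (hP : ∀ ν i, P ν i ≠ 0)
    (h3 : ∀ b : Fin r → ℤ, b ≠ 0 → ∀ c : ℂ, ∀ᶠ ν in atTop, mn (P ν) b ≠ c) (κ : ℕ) :
    ∀ T : Finset ((Fin κ → Fin r → ℤ) × ℂ), (∀ p ∈ T, p.1 ≠ 0) →
      ∃ ν : Fin κ → ℕ, ∀ p ∈ T, ∏ i, mn (P (ν i)) (p.1 i) ≠ p.2 := by
  classical
  induction κ with
  | zero =>
    intro T hT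
    exact ⟨fun i => i.elim0, fun p hp => absurd (Subsingleton.elim _ _) (hT p hp)⟩
  | succ κ ih =>
    intro T hT
    obtain ⟨ν', hν'⟩ := ih ((T.filter fun p => p.1 0 = 0).image
      fun p => (fun i => p.1 i.succ, p.2)) (by
        intro p hp
        rw [Finset.mem_image] at hp
        obtain ⟨p', hp', rfl⟩ := hp
        rw [Finset.mem_filter] at hp'
        intro h0
        apply hT p' hp'.1
        funext i
        refine Fin.cases ?_ (fun j => ?_) i
        · exact hp'.2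
        · exact congrFun h0 j)
    have h1 : ∀ᶠ ν in atTop, ∀ p ∈ T.filter (fun p => p.1 0 ≠ 0),
        mn (P ν) (p.1 0) ≠ p.2 / ∏ i : Fin κ, mn (P (ν' i)) (p.1 i.succ) := by
      rw [Filter.eventually_all_finset]
      intro p hp
      exact h3 _ (Finset.mem_filter.1 hp).2 _
    obtain ⟨ν0, hν0⟩ := h1.exists
    refine ⟨Fin.cons ν0 ν', fun p hp => ?_⟩
    rw [Fin.prod_univ_succ]
    simp only [Fin.cons_zero, Fin.cons_succ]
    by_cases h0 : p.1 0 = 0
    · rw [h0, mn_zero, one_mul]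
      exact hν' _ (Finset.mem_image.2 ⟨p, Finset.mem_filter.2 ⟨hp, h0⟩, rfl⟩)
    · intro h
      apply hν0 p (Finset.mem_filter.2 ⟨hp, h0⟩)
      rw [eq_div_iff (Finset.prod_ne_zero_iff.2 fun i _ => mn_ne_zero (hP _) _)]
      exact h

theorem exists_tuples {r : ℕ} {P : ℕ → Fin r → ℂ} (hP : ∀ ν i, P ν i ≠ 0)
    (h3 : ∀ b : Fin r → ℤ, b ≠ 0 → ∀ c : ℂ, ∀ᶠ ν in atTop, mn (P ν) b ≠ c) (κ : ℕ) :
    ∃ ν : ℕ → Fin κ → ℕ, ∀ A : Fin κ → Fin r → ℤ, A ≠ 0 → ∀ c : ℂ, IsAlgebraic ℚ c →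
      ∀ᶠ N in atTop, ∏ i, mn (P (ν N i)) (A i) ≠ c := by
  classical
  have hc : {p : (Fin κ → Fin r → ℤ) × ℂ | p.1 ≠ 0 ∧ IsAlgebraic ℚ p.2}.Countable := by
    have h1 := (Set.countable_univ (α := Fin κ → Fin r → ℤ)).prod (Algebraic.countable ℚ ℂ)
    refine h1.mono ?_
    intro p hp
    exact ⟨Set.mem_univ _, hp.2⟩
  obtain ⟨f, hf⟩ := Set.countable_iff_exists_injOn.1 hc
  have hfin : ∀ N : ℕ, {p : (Fin κ → Fin r → ℤ) × ℂ |
      (p.1 ≠ 0 ∧ IsAlgebraic ℚ p.2) ∧ f p ≤ N}.Finite := by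
    intro N
    refine Set.Finite.of_finite_image (f := f) ((Set.finite_Iic N).subset ?_)
      (hf.mono fun p hp => hp.1)
    rintro _ ⟨p, hp, rfl⟩
    exact hp.2
  choose ν hν using fun N => exists_tuple hP h3 κ (hfin N).toFinset (by
    intro p hp
    exact ((hfin N).mem_toFinset.1 hp).1.1)
  refine ⟨ν, fun A hA c hc => ?_⟩
  filter_upwards [eventually_ge_atTop (f (A, c))] with N hN
  exact hν N (A, c) ((hfin N).mem_toFinset.2 ⟨⟨hA, hc⟩, hN⟩)

theorem rank_lemma {m r κ d : ℕ} (L : Submodule ℤ (Fin m → ℤ))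
    (q : (Fin m → ℤ) →ₗ[ℤ] (Fin r → ℤ)) (s : (Fin r → ℤ) →ₗ[ℤ] (Fin m → ℤ))
    (hqs : ∀ b, q (s b) = b) (hqL : ∀ a, q a = 0 ↔ a ∈ L) (Λ : Fin κ → Submodule ℤ (Fin m → ℤ))
    (hΛ : ∀ i, d + 1 ≤ finrank ℤ (Λ i)) (hinj : ∀ i, ∀ a ∈ Λ i, a ∈ L → a = 0)
    (hκ : finrank ℤ L + 1 = κ) :
    ∃ M : Submodule ℤ (Fin κ → Fin r → ℤ), κ * d + 1 ≤ finrank ℤ M ∧
      ∀ A ∈ M, ∃ a : Fin κ → Fin m → ℤ, (∀ i, a i ∈ Λ i) ∧ (∀ i, q (a i) = A i) ∧
        ∑ i, (a i - s (q (a i))) = 0 := by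
  classical
  let φ0 : ((i : Fin κ) → Λ i) →ₗ[ℤ] (Fin m → ℤ) :=
    ∑ i, (LinearMap.id - s ∘ₗ q) ∘ₗ (Λ i).subtype ∘ₗ LinearMap.proj i
  have hφ0 : ∀ x, φ0 x = ∑ i, ((x i : Fin m → ℤ) - s (q (x i))) := by
    intro x
    simp [φ0]
  have hmem : ∀ x, φ0 x ∈ L := by
    intro x
    rw [hφ0]
    refine Submodule.sum_mem _ fun i _ => ?_
    rw [← hqL, map_sub, hqs, sub_self]
  let φ : ((i : Fin κ) → Λ i) →ₗ[ℤ] L := φ0.codRestrict L hmem
  let ψ : ((i : Fin κ) → Λ i) →ₗ[ℤ] (Fin κ → Fin r → ℤ) :=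
    LinearMap.pi fun i => q ∘ₗ (Λ i).subtype ∘ₗ LinearMap.proj i
  have hψ : Function.Injective ψ := by
    rw [← LinearMap.ker_eq_bot, LinearMap.ker_eq_bot']
    intro x hx
    funext i
    have h1 : q (x i) = 0 := congrFun hx i
    exact Subtype.ext (hinj i _ (x i).2 ((hqL _).1 h1))
  refine ⟨(LinearMap.ker φ).map ψ, ?_, ?_⟩
  · have h1 : finrank ℤ ((LinearMap.ker φ).map ψ) = finrank ℤ (LinearMap.ker φ) :=
      (LinearEquiv.finrank_eq (Submodule.equivMapOfInjective ψ hψ (LinearMap.ker φ))).symm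
    have h2 := Submodule.finrank_quotient_add_finrank (LinearMap.ker φ)
    rw [LinearEquiv.finrank_eq φ.quotKerEquivRange] at h2
    have h3 : finrank ℤ (LinearMap.range φ) ≤ finrank ℤ L := Submodule.finrank_le _
    have h4 : finrank ℤ ((i : Fin κ) → Λ i) = ∑ i, finrank ℤ (Λ i) := Module.finrank_pi_fintype ℤ
    have h5 : ∑ _i : Fin κ, (d + 1) ≤ ∑ i, finrank ℤ (Λ i) := Finset.sum_le_sum fun i _ => hΛ i
    rw [Finset.sum_const, Finset.card_univ, Fintype.card_fin, smul_eq_mul, mul_add, mul_one] at h5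
    omega
  · rintro _ ⟨x, hx, rfl⟩
    refine ⟨fun i => x i, fun i => (x i).2, fun i => rfl, ?_⟩
    have h1 : φ x = 0 := hx
    have h2 : φ0 x = 0 := congrArg Subtype.val h1
    rw [← hφ0, h2]

end PTa

open PTa in
/-- A counterexample over the algebraic numbers gives a sequence of algebraic points which satisfy
at least `d + 1` independent multiplicative relations, where `d` is at least the dimension of their
closure, and the characters of which are not constant. -/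
theorem exists_pts (h : ¬ QbarConj) : ∃ (n d : ℕ) (P : ℕ → Fin n → ℂ),
    (∀ ν i, P ν i ≠ 0) ∧ (∀ ν i, IsAlgebraic ℚ (P ν i)) ∧
    (∀ a : Fin n → ℤ, a ≠ 0 → ∀ c : ℂ, ∀ᶠ ν in atTop, mn (P ν) a ≠ c) ∧
    (∀ ν, ∃ Λ : Submodule ℤ (Fin n → ℤ), d + 1 ≤ finrank ℤ Λ ∧ ∀ a ∈ Λ, mn (P ν) a = 1) ∧
    ∀ J : Finset (Fin n), J.card = d + 1 → ∃ F : MvPolynomial (Fin n) ℂ, F ≠ 0 ∧
      F.vars ⊆ J ∧ ∀ ν, MvPolynomial.eval (P ν) F = 0 := by
  classical
  unfold QbarConj at h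
  push Not at h
  obtain ⟨m, Q, hQ, hX, -, hU, -, hd2, -, hsub⟩ := h
  obtain ⟨P, hP1, hPa, hP3⟩ := exists_seq m Q hQ hX hU
  have hP0 : ∀ ν i, P ν i ≠ 0 := fun ν => (hP1 ν).1.1
  obtain ⟨L, _, _, _, x, hx⟩ := exists_gen Q hQ
  have hx0 := hx.ne_zero hX
  have hdim := hx.dim hX
  set d := dm x with hd
  have hgen : ∀ f : MvPolynomial (Fin m) ℂ,
      (∀ ν, eval (P ν) f = 0) ∨ ∀ᶠ ν in atTop, eval (P ν) f ≠ 0 := by
    intro f
    by_cases hf : f ∈ Q
    · exact Or.inl fun ν => (hP1 ν).1.2 f hf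
    · exact Or.inr (hP3 f hf)
  -- relations
  have hrel : ∀ ν, ∃ Λ : Submodule ℤ (Fin m → ℤ), d + 1 ≤ finrank ℤ Λ ∧
      ∀ a ∈ Λ, mn (P ν) a = 1 := by
    intro ν
    obtain ⟨Λ, hΛ, hΛ'⟩ := (hP1 ν).2
    refine ⟨Λ, ?_, hΛ'⟩
    rw [hdim] at hΛ
    have h1 : d + (m - finrank ℤ Λ) + 1 ≤ m := by exact_mod_cast hΛ
    omega
  choose Λ hΛ1 hΛ2 using hrel
  -- no constant monomial with the value one
  have hone : ∀ a ∈ CL P hP0, mn (P 0) a = 1 → a = 0 := by
    intro a ha h1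
    by_contra ha0
    apply hsub
    refine ⟨a, ha0, fun y hy => ?_⟩
    have hconst : ∀ ν, mn (P ν) a = 1 := fun ν => (ha ν).trans h1
    set G : MvPolynomial (Fin m) ℂ := ∏ l, X l ^ (a l).toNat - ∏ l, X l ^ (-a l).toNat with hG
    have hev : ∀ y : Fin m → ℂ, (∀ l, y l ≠ 0) → (eval y G = 0 ↔ ∏ l, y l ^ a l = 1) := by
      intro y hy
      have h1 : ∏ l, y l ^ a l = (∏ l, y l ^ (a l).toNat) / ∏ l, y l ^ (-a l).toNat := by
        rw [← Finset.prod_div_distrib]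
        refine Finset.prod_congr rfl fun l _ => ?_
        rw [← zpow_natCast, ← zpow_natCast, ← zpow_sub₀ (hy l)]
        congr 1
        omega
      have h2 : ∏ l, y l ^ (-a l).toNat ≠ 0 :=
        Finset.prod_ne_zero_iff.mpr fun l _ => pow_ne_zero _ (hy l)
      rw [h1, div_eq_one_iff_eq h2, hG, map_sub, map_prod, map_prod, sub_eq_zero]
      simp only [map_pow, eval_X]
    have hGQ : G ∈ Q := by
      by_contra hcon
      obtain ⟨ν, h2⟩ := (hP3 G hcon).exists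
      exact h2 ((hev (P ν) (hP0 ν)).2 (hconst ν))
    exact (hev y hy.1).1 (hy.2 G hGQ)
  obtain ⟨r, q, s, hqs, hqL⟩ := exists_section (CL P hP0) (sat_CL hP0 hgen)
  -- the image points
  let β : Fin r → Fin m → ℤ := fun j => s (Pi.single j 1)
  let P' : ℕ → Fin r → ℂ := fun ν => mm β (P ν)
  have hP'0 : ∀ ν i, P' ν i ≠ 0 := fun ν i => mm_ne_zero (hP0 ν) β i
  have hcmb : ∀ b : Fin r → ℤ, cmb β b = s b := by
    intro b
    have h1 : b = ∑ l, b l • (Pi.single l 1 : Fin r → ℤ) := by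
      funext i
      simp [Finset.sum_apply, Pi.single_apply]
    conv_rhs => rw [h1, map_sum]
    funext i
    rw [Finset.sum_apply]
    refine Finset.sum_congr rfl fun l _ => ?_
    rw [map_smul]
    rfl
  have hmn' : ∀ ν b, mn (P' ν) b = mn (P ν) (s b) := by
    intro ν b
    rw [← hcmb]
    exact mn_mm (hP0 ν) β b
  have h3' : ∀ b : Fin r → ℤ, b ≠ 0 → ∀ c : ℂ, ∀ᶠ ν in atTop, mn (P' ν) b ≠ c := by
    intro b hb c
    simp only [hmn']
    refine ev_ne hP0 hgen (fun h => hb ?_) c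
    rw [← hqs b]
    exact (hqL _).2 h
  set κ := finrank ℤ (CL P hP0) + 1 with hκ
  obtain ⟨ν, hν⟩ := exists_tuples hP'0 h3' κ
  let e : Fin κ × Fin r ≃ Fin (κ * r) := finProdFinEquiv
  let Pt : ℕ → Fin (κ * r) → ℂ := fun N l => P' (ν N (e.symm l).1) (e.symm l).2
  have hPt : ∀ N a, mn (Pt N) a = ∏ i, mn (P' (ν N i)) (fun j => a (e (i, j))) := by
    intro N a
    rw [mn, ← Equiv.prod_comp e, Fintype.prod_prod_type]
    refine Finset.prod_congr rfl fun i _ => ?_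
    rw [mn]
    refine Finset.prod_congr rfl fun j _ => ?_
    simp only [Pt, Equiv.symm_apply_apply]
  have halg' : ∀ ν i, IsAlgebraic ℚ (P' ν i) := fun ν i => alg_mn (hPa ν) _
  refine ⟨κ * r, κ * d, Pt, fun N l => hP'0 _ _, fun N l => halg' _ _, ?_, ?_, ?_⟩
  · intro a ha c
    by_cases hc : IsAlgebraic ℚ c
    · have h1 := hν (fun i j => a (e (i, j))) (by
        intro h
        apply ha
        funext l
        have h2 := congrFun (congrFun h (e.symm l).1) (e.symm l).2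
        simpa using h2) c hc
      filter_upwards [h1] with N hN
      rw [hPt]
      exact hN
    · refine Filter.Eventually.of_forall fun N h => hc ?_
      rw [← h]
      exact alg_mn (fun l => halg' _ _) _
  · intro N
    obtain ⟨M, hM1, hM2⟩ := rank_lemma (κ := κ) (d := d) (CL P hP0) q s hqs hqL
      (fun i => Λ (ν N i)) (fun i => hΛ1 _) (by
        intro i a ha haL
        refine hone a haL ?_
        rw [← haL (ν N i)]
        exact hΛ2 _ a ha) rfl
    let fl : (Fin κ → Fin r → ℤ) →ₗ[ℤ] (Fin (κ * r) → ℤ) :=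
      LinearMap.pi fun l => LinearMap.proj (e.symm l).2 ∘ₗ LinearMap.proj (e.symm l).1
    have hfl : ∀ A i j, fl A (e (i, j)) = A i j := by
      intro A i j
      change A (e.symm (e (i, j))).1 (e.symm (e (i, j))).2 = _
      rw [Equiv.symm_apply_apply]
    have hinj : Function.Injective fl := by
      intro A B hAB
      funext i j
      rw [← hfl A, ← hfl B, hAB]
    refine ⟨M.map fl, ?_, ?_⟩
    · rw [← LinearEquiv.finrank_eq (Submodule.equivMapOfInjective fl hinj M)]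
      exact hM1
    · rintro _ ⟨A, hA, rfl⟩
      obtain ⟨a, ha1, ha2, ha3⟩ := hM2 A hA
      rw [hPt]
      have h1 : ∀ i, mn (P' (ν N i)) (fun j => fl A (e (i, j))) =
          (mn (P 0) (a i - s (q (a i))))⁻¹ := by
        intro i
        have h2 : (fun j => fl A (e (i, j))) = q (a i) := by
          rw [ha2]
          funext j
          exact hfl A i j
        have h3 : a i - s (q (a i)) ∈ CL P hP0 := by
          rw [← hqL, map_sub, hqs, sub_self]
        rw [h2, hmn', ← h3 (ν N i), mn_sub (hP0 _), hΛ2 _ _ (ha1 i), one_div, inv_inv]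
      rw [Finset.prod_congr rfl fun i _ => h1 i, Finset.prod_inv_distrib, ← mn_sum (hP0 0), ha3,
        mn_zero, inv_one]
  · intro J hJ
    obtain ⟨i, -, hi⟩ := Finset.exists_lt_card_fiber_of_mul_lt_card_of_maps_to
      (s := J) (t := (Finset.univ : Finset (Fin κ))) (f := fun l => (e.symm l).1) (n := d)
      (fun _ _ => Finset.mem_univ _) (by
        rw [Finset.card_univ, Fintype.card_fin, hJ]
        omega)
    obtain ⟨J', hJ'1, hJ'2⟩ := Finset.exists_subset_card_eq (Nat.succ_le_of_lt hi)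
    let f : Fin (d + 1) ↪o Fin (κ * r) := J'.orderEmbOfFin hJ'2
    have hf : ∀ t, f t ∈ J ∧ (e.symm (f t)).1 = i := by
      intro t
      have h1 := hJ'1 (J'.orderEmbOfFin_mem hJ'2 t)
      rw [Finset.mem_filter] at h1
      exact h1
    let α : Fin (d + 1) → Fin m → ℤ := fun t => β (e.symm (f t)).2
    have hnot : ¬ AlgebraicIndependent ℂ (mm α x) := by
      intro hind
      have h1 := om_of_algInd hx0 hind
      have h2 := finite_span_om x Set.univ
      have h3 := finrank_span_eq_card h1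
      rw [Fintype.card_fin] at h3
      have h4 : finrank L (Submodule.span L (Set.range fun j => om x (rv (α j)))) ≤ d := by
        refine Submodule.finrank_mono (Submodule.span_mono ?_)
        rintro _ ⟨j, rfl⟩
        exact ⟨_, Set.mem_univ _, rfl⟩
      omega
    rw [algebraicIndependent_iff] at hnot
    push Not at hnot
    obtain ⟨F, hF, hF0⟩ := hnot
    refine ⟨rename f F, ?_, ?_, ?_⟩
    · intro h0
      apply hF0
      exact rename_injective f f.injective (by rw [h0, map_zero])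
    · refine (vars_rename f F).trans ?_
      intro l hl
      rw [Finset.mem_image] at hl
      obtain ⟨t, -, rfl⟩ := hl
      exact (hf t).1
    · intro N
      have h1 := (hx.mn_iff hX α F).1 hF (P (ν N i)) (hP1 _).1
      rw [eval_rename]
      have h2 : Pt N ∘ f = fun l => ∏ i', P (ν N i) i' ^ α l i' := by
        funext t
        change P' (ν N (e.symm (f t)).1) (e.symm (f t)).2 = _
        rw [(hf t).2]
        rfl
      rw [h2]
      exact h1

end Pool.Agent.ZP
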