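import Mathlib
import Pool.Agent.Lib.MP_c95b3b_ag_SD.PlExt
import Pool.Agent.Lib.MP_c95b3b_ag_AL.ZA
import Pool.Agent.Lib.MP_c95b3b_ag_ZP.Defs

set_option autoImplicit false

/-! Project ZP, block PT, part b: number fields and places for a sequence of algebraic points, with
large rings of units. -/

namespace Pool.Agent.ZP

open Module Filter Topology Pool.Agent.L3 Pool.Agent.SD Pool.Agent.AL

namespace PTb

open MvPolynomial

/-- there are finitely many integral polynomials of bounded degree and size -/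
theorem finite_bd (n B : ℕ) (H : ℝ) :
    {F : MvPolynomial (Fin n) ℤ | (∀ i, F.degreeOf i ≤ B) ∧ Real.log (l1 F) ≤ H}.Finite := by
  classical
  let b : Fin n →₀ ℕ := Finsupp.equivFunOnFinite.symm fun _ => B
  let E : Finset (Fin n →₀ ℕ) := Finset.Icc 0 b
  let Φ : MvPolynomial (Fin n) ℤ → (E → ℤ) := fun F m => coeff m.1 F
  have hE : ∀ F : MvPolynomial (Fin n) ℤ, (∀ i, F.degreeOf i ≤ B) → ∀ m, m ∉ E →
      coeff m F = 0 := by
    intro F hF m hm
    by_contra hne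
    apply hm
    refine Finset.mem_Icc.2 ⟨zero_le, fun i => ?_⟩
    exact (monomial_le_degreeOf i (mem_support_iff.2 hne)).trans (hF i)
  refine Set.Finite.of_finite_image (f := Φ) ?_ ?_
  · refine Set.Finite.subset (Set.Finite.pi' fun _ : E =>
      Set.finite_Icc (-(⌈Real.exp H⌉ : ℤ)) ⌈Real.exp H⌉) ?_
    rintro _ ⟨F, ⟨-, hF2⟩, rfl⟩ m
    have h1 : |((coeff m.1 F : ℤ) : ℝ)| ≤ Real.exp H := by
      by_cases h0 : F = 0
      · rw [h0, coeff_zero, Int.cast_zero, abs_zero]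
        exact (Real.exp_pos H).le
      · refine (abs_coeff_le_l1 F m.1).trans ?_
        have h2 : 0 < l1 F := lt_of_lt_of_le one_pos (one_le_l1 h0)
        exact (Real.log_le_iff_le_exp h2).1 hF2
    have h2 : |((coeff m.1 F : ℤ) : ℝ)| ≤ (⌈Real.exp H⌉ : ℤ) := h1.trans (Int.le_ceil _)
    have h3 : |coeff m.1 F| ≤ ⌈Real.exp H⌉ := by exact_mod_cast h2
    exact abs_le.1 h3
  · intro F hF G hG hFG
    ext m
    by_cases hm : m ∈ E
    · exact congrFun hFG ⟨m, hm⟩
    · rw [hE F hF.1 m hm, hE G hG.1 m hm]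

/-- one point -/
theorem exists_one {n : ℕ} (y : Fin n → ℂ) (hne : ∀ i, y i ≠ 0) (ha : ∀ i, IsAlgebraic ℚ (y i))
    (B : ℕ) : ∃ (K : Type) (_ : Field K) (R : Subring K) (W : Places K R) (φ : K →+* ℂ)
      (p : Fin n → K), (∀ i, φ (p i) = y i) ∧ (∀ i, p i ≠ 0) ∧ (∀ i, p i ∈ R) ∧
      (∀ i, (p i)⁻¹ ∈ R) ∧
      ∀ F : MvPolynomial (Fin n) ℤ, (∀ i, F.degreeOf i ≤ B) →
        Real.log (l1 F) ≤ B * (1 + ∑ i, W.avg (fun w => |W.lg w (p i)|)) → aeval p F ≠ 0 →
        (aeval p F)⁻¹ ∈ R := by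
  classical
  let S : Set ℂ := Set.range y
  have hSint : ∀ x ∈ S, IsIntegral ℚ x := by
    rintro x ⟨l, rfl⟩
    exact (ha l).isIntegral
  have hSfin : Finite S := Set.toFinite _
  let K : IntermediateField ℚ ℂ := IntermediateField.adjoin ℚ S
  have hfd : FiniteDimensional ℚ K := IntermediateField.finiteDimensional_adjoin hSint
  have hnf : NumberField K := { to_charZero := inferInstance, to_finiteDimensional := hfd }
  have hSK : S ⊆ K := IntermediateField.subset_adjoin ℚ S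
  let p : Fin n → K := fun l => ⟨y l, hSK (Set.mem_range_self l)⟩
  have hp0 : ∀ l, p l ≠ 0 := fun l h => hne l (congrArg Subtype.val h)
  let H : ℝ := B * (1 + ∑ i, 2 * (Height.logHeight₁ (p i) / finrank ℚ K))
  let 𝓕 : Finset (MvPolynomial (Fin n) ℤ) := (finite_bd n B H).toFinset
  let X : Finset K := Finset.univ.image p ∪ (𝓕.image fun F => aeval p F).filter (· ≠ 0)
  have hX : ∀ x ∈ X, x ≠ 0 := by
    intro x hx
    rcases Finset.mem_union.1 hx with hx | hx
    · obtain ⟨l, -, rfl⟩ := Finset.mem_image.1 hx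
      exact hp0 l
    · exact (Finset.mem_filter.1 hx).2
  have hpX : ∀ l, p l ∈ X := fun l =>
    Finset.mem_union_left _ (Finset.mem_image_of_mem _ (Finset.mem_univ l))
  obtain ⟨P, -, -, -, hle, -⟩ := exists_places_ext ℚ (algebraMap ℚ ℂ) K X hX
  have hmem : ∀ l, p l ∈ Subring.closure ((X : Set K) ∪ {y | ∃ x ∈ X, y = x⁻¹}) := fun l =>
    Subring.subset_closure (Or.inl (hpX l))
  have hinv : ∀ l, (p l)⁻¹ ∈ Subring.closure ((X : Set K) ∪ {y | ∃ x ∈ X, y = x⁻¹}) := fun l =>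
    Subring.subset_closure (Or.inr ⟨p l, hpX l, rfl⟩)
  have havg : ∀ l, P.avg (fun w => |P.lg w (p l)|) ≤
      2 * (Height.logHeight₁ (p l) / finrank ℚ K) := by
    intro l
    have h0 : P.avg (fun w => P.lg w (p l)) = 0 :=
      Places.avg_lg_unit _ (hp0 l) (hmem l) (hinv l)
    have h1 : P.avg (fun w => |P.lg w (p l)|) =
        P.avg (fun w => 2 * max 0 (P.lg w (p l)) - P.lg w (p l)) := by
      congr 1
      funext w
      rcases le_total 0 (P.lg w (p l)) with h | h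
      · rw [max_eq_right h, abs_of_nonneg h]
        ring
      · rw [max_eq_left h, abs_of_nonpos h]
        ring
    rw [h1, Places.avg_sub, Places.avg_mul, h0, sub_zero]
    exact mul_le_mul_of_nonneg_left (hle (p l)) zero_le_two
  refine ⟨K, inferInstance, _, P, algebraMap K ℂ, p, fun _ => rfl, hp0, hmem, hinv, ?_⟩
  intro F hF1 hF2 hF3
  refine Subring.subset_closure (Or.inr ⟨aeval p F, ?_, rfl⟩)
  refine Finset.mem_union_right _ (Finset.mem_filter.2 ⟨Finset.mem_image_of_mem _ ?_, hF3⟩)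
  rw [Set.Finite.mem_toFinset]
  refine ⟨hF1, hF2.trans ?_⟩
  refine mul_le_mul_of_nonneg_left ?_ (Nat.cast_nonneg B)
  have h1 := Finset.sum_le_sum fun (i : Fin n) (_ : i ∈ Finset.univ) => havg i
  linarith

end PTb

/-- a sequence of algebraic points, with number fields, places and large rings of units -/
theorem exists_sq {n : ℕ} (P : ℕ → Fin n → ℂ) (hne : ∀ ν i, P ν i ≠ 0)
    (ha : ∀ ν i, IsAlgebraic ℚ (P ν i)) :
    ∃ (S : Sq n) (e : ∀ ν, S.K ν →+* ℂ), (∀ ν i, e ν (S.p ν i) = P ν i) ∧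
      ∀ 𝓤 : Ultrafilter ℕ, (𝓤 : Filter ℕ) ≤ atTop → Sat 𝓤 S := by
  choose K fK R W φ p h1 h2 h3 h4 h5 using fun ν => PTb.exists_one (P ν) (hne ν) (ha ν) ν
  let S : Sq n := @Sq.mk n K fK R W p h2 h3 h4
  refine ⟨S, φ, h1, fun 𝓤 h𝓤 B => ?_⟩
  filter_upwards [h𝓤 (eventually_ge_atTop B)] with ν hν F hF1 hF2 hF3
  refine h5 ν F (fun i => (hF1 i).trans hν) ?_ hF3
  have hht : ∀ i, S.ht (rv (Pi.single i 1)) ν = (W ν).avg (fun w => |(W ν).lg w (p ν i)|) := by
    intro i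
    show (S.W ν).avg (fun w => |rv (Pi.single i 1) ⬝ᵥ S.lam ν w|) = _
    congr 1
    funext w
    rw [dot_lam, mn_single]
  have h6 : (0 : ℝ) ≤ ∑ i, S.ht (rv (Pi.single i 1)) ν :=
    Finset.sum_nonneg fun i _ => ht_nonneg S _ ν
  have h7 : (B : ℝ) * (1 + ∑ i, S.ht (rv (Pi.single i 1)) ν) ≤
      ν * (1 + ∑ i, S.ht (rv (Pi.single i 1)) ν) :=
    mul_le_mul_of_nonneg_right (by exact_mod_cast hν) (by linarith)
  refine (hF2.trans h7).trans (le_of_eq ?_)
  simp only [hht]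

end Pool.Agent.ZP
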