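import Mathlib
import Pool.Agent.Lib.MP_c95b3b_ag_ZP.Defs
import Pool.Agent.Lib.MP_c95b3b_ag_ZP.CFMap

set_option autoImplicit false

/-! Project ZP, block PT, part c: the scales of a sequence of points. -/

namespace Pool.Agent.ZP

open Module Filter Topology Pool.Agent.L3 Pool.Agent.SD Pool.Agent.AL

namespace PTc
variable {n : ℕ} (𝓤 : Ultrafilter ℕ) (S : Sq n)

/-- the height of a character, at least one -/
noncomputable def sg (a : Fin n → ℤ) (ν : ℕ) : ℝ := max 1 (S.ht (rv a) ν)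

theorem one_le_sg (a : Fin n → ℤ) (ν : ℕ) : 1 ≤ sg S a ν := le_max_left _ _

theorem ht_le_sg (a : Fin n → ℤ) (ν : ℕ) : S.ht (rv a) ν ≤ sg S a ν := le_max_right _ _

theorem sg_zero (ν : ℕ) : sg S 0 ν = 1 := by
  unfold sg
  rw [rv_zero, ht_zero]
  norm_num

/-- the characters of height `O(sg a)` -/
noncomputable def Lw (a : Fin n → ℤ) : Submodule ℤ (Fin n → ℤ) := LO 𝓤 S (sg S a)

variable {𝓤 S}

theorem self_mem (a : Fin n → ℤ) : a ∈ Lw 𝓤 S a :=
  mem_LO.2 ⟨1, Eventually.of_forall fun ν => by rw [one_mul]; exact ht_le_sg S a ν⟩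

/-- bounds for the heights give bounds for `sg` -/
theorem sg_le {a b : Fin n → ℤ} (h : a ∈ Lw 𝓤 S b) : ∃ C : ℝ, 0 < C ∧
    ∀ᶠ ν in (𝓤 : Filter ℕ), sg S a ν ≤ C * sg S b ν := by
  obtain ⟨C, hC⟩ := mem_LO.1 h
  refine ⟨max 1 C, lt_of_lt_of_le one_pos (le_max_left _ _), hC.mono fun ν h1 => ?_⟩
  have h2 := one_le_sg S b ν
  refine max_le ?_ ?_
  · calc (1 : ℝ) = 1 * 1 := by norm_num
      _ ≤ max 1 C * sg S b ν := mul_le_mul (le_max_left _ _) h2 zero_le_one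
          (le_trans zero_le_one (le_max_left _ _))
  · exact h1.trans (mul_le_mul_of_nonneg_right (le_max_right _ _) (by linarith))

theorem le_of_mem {a b : Fin n → ℤ} (h : a ∈ Lw 𝓤 S b) : Lw 𝓤 S a ≤ Lw 𝓤 S b := by
  intro c hc
  obtain ⟨C, hC0, hC⟩ := sg_le h
  obtain ⟨D, hD⟩ := mem_LO.1 hc
  refine mem_LO.2 ⟨|D| * C, ?_⟩
  filter_upwards [hC, hD] with ν h1 h2
  have h3 := one_le_sg S a ν
  calc S.ht (rv c) ν ≤ D * sg S a ν := h2
    _ ≤ |D| * sg S a ν := mul_le_mul_of_nonneg_right (le_abs_self D) (by linarith)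
    _ ≤ |D| * (C * sg S b ν) := mul_le_mul_of_nonneg_left h1 (abs_nonneg D)
    _ = |D| * C * sg S b ν := by ring

theorem total (a b : Fin n → ℤ) : a ∈ Lw 𝓤 S b ∨ b ∈ Lw 𝓤 S a := by
  have h : ∀ᶠ ν in (𝓤 : Filter ℕ), S.ht (rv a) ν ≤ S.ht (rv b) ν ∨
      S.ht (rv b) ν ≤ S.ht (rv a) ν := Eventually.of_forall fun ν => le_total _ _
  rcases Ultrafilter.eventually_or.1 h with h | h
  · left
    exact mem_LO.2 ⟨1, h.mono fun ν h1 => by
      rw [one_mul]
      exact h1.trans (ht_le_sg S b ν)⟩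
  · right
    exact mem_LO.2 ⟨1, h.mono fun ν h1 => by
      rw [one_mul]
      exact h1.trans (ht_le_sg S a ν)⟩

theorem large_of_notMem {a b : Fin n → ℤ} (h : b ∉ Lw 𝓤 S a) (C : ℝ) :
    ∀ᶠ ν in (𝓤 : Filter ℕ), C * sg S a ν < S.ht (rv b) ν := by
  have h1 : ¬ ∀ᶠ ν in (𝓤 : Filter ℕ), S.ht (rv b) ν ≤ C * sg S a ν := fun h2 =>
    h (mem_LO.2 ⟨C, h2⟩)
  exact (Ultrafilter.eventually_not.2 h1).mono fun ν h2 => not_le.1 h2

/-- `Lw` contains the integral points of its real span -/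
theorem mem_of_span {a b : Fin n → ℤ} (h : rv b ∈ spR (Lw 𝓤 S a)) : b ∈ Lw 𝓤 S a := by
  have key : ∀ v ∈ spR (Lw 𝓤 S a), ∃ C : ℝ, ∀ᶠ ν in (𝓤 : Filter ℕ), S.ht v ν ≤ C * sg S a ν := by
    intro v hv
    unfold spR at hv
    induction hv using Submodule.span_induction with
    | mem v hv =>
      obtain ⟨c, hc, rfl⟩ := hv
      exact mem_LO.1 hc
    | zero =>
      refine ⟨0, Eventually.of_forall fun ν => ?_⟩
      rw [ht_zero, zero_mul]
    | add v w _ _ hv hw =>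
      obtain ⟨C, hC⟩ := hv
      obtain ⟨D, hD⟩ := hw
      refine ⟨C + D, ?_⟩
      filter_upwards [hC, hD] with ν h1 h2
      rw [add_mul]
      exact (ht_add_le S v w ν).trans (add_le_add h1 h2)
    | smul r v _ hv =>
      obtain ⟨C, hC⟩ := hv
      refine ⟨|r| * C, hC.mono fun ν h1 => ?_⟩
      rw [ht_smul, mul_assoc]
      exact mul_le_mul_of_nonneg_left h1 (abs_nonneg r)
  exact mem_LO.2 (key _ h)

theorem le_of_finrank {a b : Fin n → ℤ} (h : finrank ℤ (Lw 𝓤 S a) ≤ finrank ℤ (Lw 𝓤 S b)) :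
    Lw 𝓤 S a ≤ Lw 𝓤 S b := by
  rcases total (𝓤 := 𝓤) (S := S) a b with h1 | h1
  · exact le_of_mem h1
  · have h2 := le_of_mem h1
    have h3 : spR (Lw 𝓤 S b) = spR (Lw 𝓤 S a) := by
      refine Submodule.eq_of_le_of_finrank_le (CF.spR_mono h2) ?_
      rw [CF.finrank_spR, CF.finrank_spR]
      exact h
    intro c hc
    apply mem_of_span
    rw [h3]
    exact Submodule.subset_span ⟨c, hc, rfl⟩

theorem lt_finrank {a b : Fin n → ℤ} (h : b ∉ Lw 𝓤 S a) :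
    finrank ℤ (Lw 𝓤 S a) < finrank ℤ (Lw 𝓤 S b) := by
  by_contra hcon
  exact h (le_of_finrank (not_lt.1 hcon) (self_mem b))

end PTc

open PTc in
/-- The chain of the growth rates of the heights of the characters of a sequence: the characters
in `X j` have height `O(s j)`, the others have height at least `c * s (j + 1)`. -/
theorem exists_chain {n : ℕ} (hn : 0 < n) (𝓤 : Ultrafilter ℕ) (S : Sq n) :
    ∃ (q : ℕ) (X : Fin (q + 1) → Submodule ℤ (Fin n → ℤ)) (s : ℕ → Fin (q + 1) → ℝ) (bd : Prop),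
      (∀ ν, 1 ≤ s ν 0) ∧ (∀ ν j, s ν 0 ≤ s ν j) ∧ StrictMono X ∧ X 0 ≠ ⊥ ∧
      X (Fin.last q) = ⊤ ∧
      (∀ T : ℝ, ∀ᶠ ν in (𝓤 : Filter ℕ), ∀ j j', j < j' → T * s ν j ≤ s ν j') ∧
      (∀ j, ∀ a ∈ X j, ∃ C : ℝ, ∀ᶠ ν in (𝓤 : Filter ℕ), S.ht (rv a) ν ≤ C * s ν j) ∧
      (∀ j : Fin q, ∀ a : Fin n → ℤ, a ∉ X j.castSucc → ∃ c : ℝ, 0 < c ∧
        ∀ᶠ ν in (𝓤 : Filter ℕ), c * s ν j.succ ≤ S.ht (rv a) ν) ∧
      (bd → ∀ ν, s ν 0 = 1) ∧
      (¬ bd → Tendsto (fun ν => s ν 0) 𝓤 atTop ∧ ∀ a : Fin n → ℤ, a ≠ 0 → ∃ c : ℝ, 0 < c ∧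
        ∀ᶠ ν in (𝓤 : Filter ℕ), c * s ν 0 ≤ S.ht (rv a) ν) := by
  classical
  let r : (Fin n → ℤ) → ℕ := fun a => finrank ℤ (Lw 𝓤 S a)
  have hrn : ∀ a, r a ≤ n := fun a => by
    have := Submodule.finrank_le (Lw 𝓤 S a)
    rwa [finrank_fin_fun] at this
  have hr0 : ∀ a, a ≠ 0 → 0 < r a := by
    intro a ha
    rw [Nat.pos_iff_ne_zero]
    intro h
    have h1 : Lw 𝓤 S a = ⊥ := Submodule.finrank_eq_zero.1 h
    have h2 := self_mem (𝓤 := 𝓤) (S := S) a
    rw [h1] at h2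
    exact ha h2
  let R : Finset ℕ := (Finset.range (n + 1)).filter (fun ρ => 0 < ρ ∧ ∃ a, r a = ρ)
  have hmem : ∀ a, 0 < r a → r a ∈ R := fun a ha =>
    Finset.mem_filter.2 ⟨Finset.mem_range.2 (by have := hrn a; omega), ha, a, rfl⟩
  obtain ⟨b0, hb0⟩ : ∃ b : Fin n → ℤ, b ≠ 0 := by
    refine ⟨Pi.single ⟨0, hn⟩ 1, fun h => ?_⟩
    have := congrFun h ⟨0, hn⟩
    rw [Pi.single_eq_same] at this
    exact one_ne_zero this
  have hRne : R.Nonempty := ⟨r b0, hmem b0 (hr0 b0 hb0)⟩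
  obtain ⟨q, hq⟩ : ∃ q, R.card = q + 1 :=
    ⟨R.card - 1, by have := Finset.card_pos.2 hRne; omega⟩
  let E := R.orderEmbOfFin hq
  have hE : ∀ j, E j ∈ R := fun j => Finset.orderEmbOfFin_mem R hq j
  have hEs : ∀ ρ ∈ R, ∃ j, E j = ρ := by
    intro ρ hρ
    have h1 : ρ ∈ Set.range (R.orderEmbOfFin hq) := by
      rw [Finset.range_orderEmbOfFin]
      exact hρ
    exact h1
  -- representatives
  have hpick : ∀ j, ∃ a, r a = E j ∧ (r 0 = E j → a = 0) := by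
    intro j
    by_cases h : r 0 = E j
    · exact ⟨0, h, fun _ => rfl⟩
    · obtain ⟨-, -, a, ha⟩ := Finset.mem_filter.1 (hE j)
      exact ⟨a, ha, fun h' => absurd h' h⟩
  choose a ha ha0 using hpick
  have hE0 : ∀ ρ ∈ R, E 0 ≤ ρ := by
    intro ρ hρ
    obtain ⟨j, rfl⟩ := hEs ρ hρ
    exact E.monotone (Fin.zero_le j)
  have hz : ∀ b : Fin n → ℤ, (0 : Fin n → ℤ) ∈ Lw 𝓤 S b := fun b => Submodule.zero_mem _
  have ha0mem : ∀ j, a 0 ∈ Lw 𝓤 S (a j) := by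
    intro j
    have h1 : r (a 0) ≤ r (a j) := by
      rw [ha, ha]
      exact E.monotone (Fin.zero_le j)
    exact le_of_finrank h1 (self_mem _)
  -- the bound for the scales
  have hsb : ∀ (b : Fin n → ℤ) (j : Fin (q + 1)), a 0 ∈ Lw 𝓤 S b → a j ∈ Lw 𝓤 S b →
      ∃ C : ℝ, 0 < C ∧ ∀ᶠ ν in (𝓤 : Filter ℕ),
        max (sg S (a 0) ν) (sg S (a j) ν) ≤ C * sg S b ν := by
    intro b j h1 h2
    obtain ⟨C, hC0, hC⟩ := sg_le h1
    obtain ⟨D, hD0, hD⟩ := sg_le h2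
    refine ⟨max C D, lt_of_lt_of_le hC0 (le_max_left _ _), ?_⟩
    filter_upwards [hC, hD] with ν h3 h4
    have h5 := one_le_sg S b ν
    exact max_le (h3.trans (mul_le_mul_of_nonneg_right (le_max_left _ _) (by linarith)))
      (h4.trans (mul_le_mul_of_nonneg_right (le_max_right _ _) (by linarith)))
  -- lower bounds for heights
  have hlow : ∀ (b b' : Fin n → ℤ) (j : Fin (q + 1)), b ∉ Lw 𝓤 S b' → a j ∈ Lw 𝓤 S b →
      ∃ c : ℝ, 0 < c ∧ ∀ᶠ ν in (𝓤 : Filter ℕ),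
        c * max (sg S (a 0) ν) (sg S (a j) ν) ≤ S.ht (rv b) ν := by
    intro b b' j h1 h2
    obtain ⟨C, hC0, hC⟩ := hsb b j (le_of_mem h2 (ha0mem j)) h2
    refine ⟨C⁻¹, inv_pos.2 hC0, ?_⟩
    filter_upwards [hC, large_of_notMem h1 1] with ν h3 h4
    have h5 := one_le_sg S b' ν
    have h6 : sg S b ν = S.ht (rv b) ν := max_eq_right (by linarith)
    rw [inv_mul_le_iff₀ hC0, ← h6]
    exact h3
  refine ⟨q, fun j => Lw 𝓤 S (a j), fun ν j => max (sg S (a 0) ν) (sg S (a j) ν),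
    Lw 𝓤 S 0 ≠ ⊥, ?_, ?_, ?_, ?_, ?_, ?_, ?_, ?_, ?_, ?_⟩
  · intro ν
    exact (one_le_sg S _ ν).trans (le_max_left _ _)
  · intro ν j
    show max (sg S (a 0) ν) (sg S (a 0) ν) ≤ _
    rw [max_self]
    exact le_max_left _ _
  · intro j j' hj
    have h1 : r (a j) < r (a j') := by
      rw [ha, ha]
      exact E.strictMono hj
    refine lt_of_le_of_ne (le_of_finrank h1.le) fun h2 => ?_
    have h2' : Lw 𝓤 S (a j) = Lw 𝓤 S (a j') := h2
    exact h1.ne (by show finrank ℤ (Lw 𝓤 S (a j)) = finrank ℤ (Lw 𝓤 S (a j')); rw [h2'])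
  · intro h
    have h' : Lw 𝓤 S (a 0) = ⊥ := h
    have h1 : r (a 0) = 0 := by
      show finrank ℤ (Lw 𝓤 S (a 0)) = 0
      rw [h', finrank_bot]
    have h2 := (Finset.mem_filter.1 (hE 0)).2.1
    rw [← ha 0, h1] at h2
    exact lt_irrefl _ h2
  · show Lw 𝓤 S (a (Fin.last q)) = ⊤
    rw [eq_top_iff]
    intro b _
    by_contra hb
    have h1 := lt_finrank hb
    have h2 : r b ∈ R := hmem b (lt_of_le_of_lt (Nat.zero_le _) h1)
    obtain ⟨j, hj⟩ := hEs _ h2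
    have h3 : E j ≤ E (Fin.last q) := E.monotone (Fin.le_last j)
    rw [hj, ← ha (Fin.last q)] at h3
    exact absurd h1 (not_lt.2 h3)
  · intro T
    have h0 : ∀ j j', j < j' → ∀ᶠ ν in (𝓤 : Filter ℕ),
        T * max (sg S (a 0) ν) (sg S (a j) ν) ≤ max (sg S (a 0) ν) (sg S (a j') ν) := by
      intro j j' hj
      have h1 : r (a j) < r (a j') := by
        rw [ha, ha]
        exact E.strictMono hj
      have h2 : a j' ∉ Lw 𝓤 S (a j) := by
        intro h2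
        have h3 : r (a j') ≤ r (a j) := by
          show finrank ℤ (Lw 𝓤 S (a j')) ≤ finrank ℤ (Lw 𝓤 S (a j))
          rw [← CF.finrank_spR, ← CF.finrank_spR]
          exact Submodule.finrank_mono (CF.spR_mono (le_of_mem h2))
        omega
      obtain ⟨C, hC0, hC⟩ := hsb (a j) j (ha0mem j) (self_mem _)
      filter_upwards [hC, large_of_notMem h2 (|T| * C)] with ν h3 h4
      have h5 : 0 ≤ max (sg S (a 0) ν) (sg S (a j) ν) :=
        le_trans (le_trans zero_le_one (one_le_sg S (a 0) ν)) (le_max_left _ _)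
      calc T * max (sg S (a 0) ν) (sg S (a j) ν)
          ≤ |T| * max (sg S (a 0) ν) (sg S (a j) ν) :=
            mul_le_mul_of_nonneg_right (le_abs_self T) h5
        _ ≤ |T| * (C * sg S (a j) ν) := mul_le_mul_of_nonneg_left h3 (abs_nonneg T)
        _ = |T| * C * sg S (a j) ν := by ring
        _ ≤ S.ht (rv (a j')) ν := h4.le
        _ ≤ sg S (a j') ν := ht_le_sg S _ ν
        _ ≤ max (sg S (a 0) ν) (sg S (a j') ν) := le_max_right _ _
    have h1 : ∀ j j', ∀ᶠ ν in (𝓤 : Filter ℕ), j < j' →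
        T * max (sg S (a 0) ν) (sg S (a j) ν) ≤ max (sg S (a 0) ν) (sg S (a j') ν) := by
      intro j j'
      by_cases hj : j < j'
      · exact (h0 j j' hj).mono fun ν h _ => h
      · exact Eventually.of_forall fun ν h => absurd h hj
    exact eventually_all.2 fun j => eventually_all.2 fun j' => h1 j j'
  · intro j b hb
    obtain ⟨C, hC⟩ := mem_LO.1 (show b ∈ LO 𝓤 S (sg S (a j)) from hb)
    refine ⟨|C|, hC.mono fun ν h1 => h1.trans ?_⟩
    have h2 := one_le_sg S (a j) ν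
    exact mul_le_mul (le_abs_self C) (le_max_right _ _) (by linarith) (abs_nonneg C)
  · intro j b hb
    have hb' : b ∉ Lw 𝓤 S (a j.castSucc) := hb
    have h1 := lt_finrank hb'
    have h2 : r b ∈ R := hmem b (lt_of_le_of_lt (Nat.zero_le _) h1)
    obtain ⟨i, hi⟩ := hEs _ h2
    have h3 : j.castSucc < i := by
      rw [← E.lt_iff_lt, hi, ← ha j.castSucc]
      exact h1
    have h4 : j.succ ≤ i := by
      rw [Fin.le_def, Fin.val_succ]
      rw [Fin.lt_def, Fin.val_castSucc] at h3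
      omega
    have h5 : r (a j.succ) ≤ r b := by
      rw [ha, ← hi]
      exact E.monotone h4
    exact hlow b _ j.succ hb' (le_of_finrank h5 (self_mem _))
  · intro hbd ν
    have h1 : 0 < r 0 := by
      rw [Nat.pos_iff_ne_zero]
      intro h
      exact hbd (Submodule.finrank_eq_zero.1 h)
    have h2 : r 0 = E 0 := by
      refine le_antisymm ?_ (hE0 _ (hmem 0 h1))
      rw [← ha 0]
      show finrank ℤ (Lw 𝓤 S 0) ≤ finrank ℤ (Lw 𝓤 S (a 0))
      rw [← CF.finrank_spR, ← CF.finrank_spR]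
      exact Submodule.finrank_mono (CF.spR_mono (le_of_mem (hz _)))
    show max (sg S (a 0) ν) (sg S (a 0) ν) = 1
    rw [max_self, ha0 0 h2, sg_zero]
  · intro hbd
    have hbot : Lw 𝓤 S 0 = ⊥ := not_not.1 hbd
    have h1 : a 0 ∉ Lw 𝓤 S 0 := by
      intro h
      have h2 := le_of_mem h
      rw [hbot, le_bot_iff] at h2
      have h3 : r (a 0) = 0 := by
        show finrank ℤ (Lw 𝓤 S (a 0)) = 0
        rw [h2, finrank_bot]
      have h4 := (Finset.mem_filter.1 (hE 0)).2.1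
      rw [← ha 0, h3] at h4
      exact lt_irrefl _ h4
    refine ⟨?_, fun b hb => ?_⟩
    · rw [tendsto_atTop]
      intro C
      filter_upwards [large_of_notMem h1 C] with ν h2
      rw [sg_zero, mul_one] at h2
      exact h2.le.trans ((ht_le_sg S _ ν).trans (le_max_left _ _))
    · have h2 : b ∉ Lw 𝓤 S 0 := by
        rw [hbot]
        exact hb
      have h3 : r (a 0) ≤ r b := by
        rw [ha 0]
        exact hE0 _ (hmem b (hr0 b hb))
      exact hlow b 0 0 h2 (le_of_finrank h3 (self_mem _))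

end Pool.Agent.ZP
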