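import Mathlib
import Pool.Agent.Lib.MP_c95b3b_ag_ZP.Defs
import Pool.Agent.Lib.MP_c95b3b_ag_SD.RelMap

set_option autoImplicit false

/-! Project ZP, block PT, module PTdV: limits of relation vectors after rescaling of the blocks. -/

namespace Pool.Agent.ZP

open Module Filter Topology Pool.Agent.SD Pool.Agent.L3

namespace PTd

/-- `sc` as a linear map -/
noncomputable def scL {n q : ℕ} (blk : Fin n → Fin (q + 1)) (s : Fin (q + 1) → ℝ) :
    (Fin n → ℝ) →ₗ[ℝ] (Fin n → ℝ) where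
  toFun b := sc blk s b
  map_add' a b := by
    funext i
    simp [sc, add_div]
  map_smul' r b := by
    funext i
    simp [sc, mul_div_assoc]

theorem sc_add {n q : ℕ} (blk : Fin n → Fin (q + 1)) (s : Fin (q + 1) → ℝ) (a b : Fin n → ℝ) :
    sc blk s (a + b) = sc blk s a + sc blk s b := (scL blk s).map_add a b

theorem sc_sub {n q : ℕ} (blk : Fin n → Fin (q + 1)) (s : Fin (q + 1) → ℝ) (a b : Fin n → ℝ) :
    sc blk s (a - b) = sc blk s a - sc blk s b := (scL blk s).map_sub a b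

theorem sc_smul {n q : ℕ} (blk : Fin n → Fin (q + 1)) (s : Fin (q + 1) → ℝ) (r : ℝ)
    (b : Fin n → ℝ) : sc blk s (r • b) = r • sc blk s b := (scL blk s).map_smul r b

theorem sc_zero {n q : ℕ} (blk : Fin n → Fin (q + 1)) (s : Fin (q + 1) → ℝ) :
    sc blk s 0 = 0 := (scL blk s).map_zero

/-- `sc` as a linear equivalence -/
noncomputable def scE {n q : ℕ} (blk : Fin n → Fin (q + 1)) (s : Fin (q + 1) → ℝ)
    (hs : ∀ j, s j ≠ 0) : (Fin n → ℝ) ≃ₗ[ℝ] (Fin n → ℝ) :=
  { scL blk s with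
    invFun := fun b i => b i * s (blk i)
    left_inv := by
      intro b
      funext i
      show b i / s (blk i) * s (blk i) = b i
      rw [div_mul_cancel₀ _ (hs _)]
    right_inv := by
      intro b
      funext i
      show b i * s (blk i) / s (blk i) = b i
      rw [mul_div_cancel_right₀ _ (hs _)] }

theorem finrank_comap_scL {n q : ℕ} (blk : Fin n → Fin (q + 1)) (s : Fin (q + 1) → ℝ)
    (hs : ∀ j, s j ≠ 0) (Z : Submodule ℝ (Fin n → ℝ)) :
    finrank ℝ (Z.comap (scL blk s)) = finrank ℝ Z := by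
  have h1 : Z.comap (scL blk s) = Z.map ((scE blk s hs).symm : (Fin n → ℝ) →ₗ[ℝ] (Fin n → ℝ)) := by
    rw [← Submodule.comap_equiv_eq_map_symm]
    rfl
  rw [h1]
  exact LinearEquiv.finrank_map_eq (scE blk s hs).symm Z

end PTd

open PTd

/-- The neutral exponents: the real vectors `b` such that the height of `b / s` tends to `0`. -/
noncomputable def VN (𝓤 : Ultrafilter ℕ) {n q : ℕ} (S : Sq n) (blk : Fin n → Fin (q + 1))
    (s : ℕ → Fin (q + 1) → ℝ) : Submodule ℝ (Fin n → ℝ) where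
  carrier := {b | Tendsto (fun ν => S.ht (sc blk (s ν) b) ν) 𝓤 (𝓝 0)}
  add_mem' := by
    intro b c hb hc
    have hb' : Tendsto (fun ν => S.ht (sc blk (s ν) b) ν) 𝓤 (𝓝 0) := hb
    have hc' : Tendsto (fun ν => S.ht (sc blk (s ν) c) ν) 𝓤 (𝓝 0) := hc
    have h1 := hb'.add hc'
    rw [add_zero] at h1
    refine squeeze_zero (fun ν => ht_nonneg S _ ν) (fun ν => ?_) h1
    rw [sc_add]
    exact ht_add_le S _ _ ν
  zero_mem' := by
    show Tendsto (fun ν => S.ht (sc blk (s ν) 0) ν) 𝓤 (𝓝 0)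
    simp only [sc_zero, ht_zero]
    exact tendsto_const_nhds
  smul_mem' := by
    intro c b hb
    have hb' : Tendsto (fun ν => S.ht (sc blk (s ν) b) ν) 𝓤 (𝓝 0) := hb
    show Tendsto (fun ν => S.ht (sc blk (s ν) (c • b)) ν) 𝓤 (𝓝 0)
    simp only [sc_smul, ht_smul]
    simpa using hb'.const_mul |c|

theorem mem_VN {𝓤 : Ultrafilter ℕ} {n q : ℕ} {S : Sq n} {blk : Fin n → Fin (q + 1)}
    {s : ℕ → Fin (q + 1) → ℝ} {b : Fin n → ℝ} :
    b ∈ VN 𝓤 S blk s ↔ Tendsto (fun ν => S.ht (sc blk (s ν) b) ν) 𝓤 (𝓝 0) := Iff.rfl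

/-- The space of the neutral exponents contains the limits of the rescaled relation vectors, so
its dimension is at least the number of the independent relations. -/
theorem finrank_VN {𝓤 : Ultrafilter ℕ} {n q : ℕ} {S : Sq n} {blk : Fin n → Fin (q + 1)}
    {s : ℕ → Fin (q + 1) → ℝ} (hs : ∀ᶠ ν in (𝓤 : Filter ℕ), ∀ j, 0 < s ν j) (C : ℝ)
    (hC : ∀ᶠ ν in (𝓤 : Filter ℕ), ∀ i, S.ht (rv (Pi.single i 1)) ν ≤ C * s ν (blk i)) (r : ℕ)
    (hr : ∀ᶠ ν in (𝓤 : Filter ℕ), r ≤ finrank ℝ (Rel S ν)) :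
    r ≤ finrank ℝ (VN 𝓤 S blk s) := by
  have hZ : ∀ᶠ ν in (𝓤 : Filter ℕ), r ≤ finrank ℝ ((Rel S ν).comap (scL blk (s ν))) := by
    filter_upwards [hs, hr] with ν h1 h2
    rwa [finrank_comap_scL blk (s ν) (fun j => (h1 j).ne') (Rel S ν)]
  obtain ⟨u, hli, -, u', hmem, hconv, -⟩ := lim_frame 𝓤 r
    (fun ν => (Rel S ν).comap (scL blk (s ν))) hZ ⊤ fun _ => le_top
  have hV : ∀ i, u i ∈ VN 𝓤 S blk s := by
    intro i
    show Tendsto (fun ν => S.ht (sc blk (s ν) (u i)) ν) 𝓤 (𝓝 0)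
    have hlim : Tendsto (fun ν => ∑ l, |u i l - u' ν i l| * C) 𝓤 (𝓝 0) := by
      have h1 : Tendsto (fun ν => ∑ l, |u i l - u' ν i l| * C) 𝓤
          (𝓝 (∑ l : Fin n, |u i l - u i l| * C)) := by
        refine tendsto_finsetSum _ fun l _ => ?_
        exact ((tendsto_const_nhds.sub (hconv i l)).abs).mul_const C
      simpa using h1
    refine squeeze_zero' ?_ ?_ hlim
    · exact Eventually.of_forall fun ν => ht_nonneg S _ ν
    · filter_upwards [hs, hmem, hC] with ν h1 h2 h3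
      have h4 : S.ht (sc blk (s ν) (u i)) ν = S.ht (sc blk (s ν) (u i - u' ν i)) ν := by
        show (S.W ν).avg (fun w => |sc blk (s ν) (u i) ⬝ᵥ S.lam ν w|) =
          (S.W ν).avg (fun w => |sc blk (s ν) (u i - u' ν i) ⬝ᵥ S.lam ν w|)
        congr 1
        funext w
        have h5 : sc blk (s ν) (u' ν i) ⬝ᵥ S.lam ν w = 0 := h2 i w
        rw [sc_sub, sub_dotProduct, h5, sub_zero]
      rw [h4]
      refine (ht_le S _ ν).trans (Finset.sum_le_sum fun l _ => ?_)
      have h6 : 0 < s ν (blk l) := h1 _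
      show |(u i l - u' ν i l) / s ν (blk l)| * S.ht (rv (Pi.single l 1)) ν ≤ _
      rw [abs_div, abs_of_pos h6, div_mul_eq_mul_div, div_le_iff₀ h6, mul_assoc]
      exact mul_le_mul_of_nonneg_left (h3 l) (abs_nonneg _)
  have h7 : LinearIndependent ℝ (fun i => (⟨u i, hV i⟩ : VN 𝓤 S blk s)) :=
    LinearIndependent.of_comp (VN 𝓤 S blk s).subtype hli
  have h8 := h7.fintype_card_le_finrank
  rwa [Fintype.card_fin] at h8

/-- the same for the images of a sequence of points under a monomial map with the exponents `β` -/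
theorem finrank_VN_map {𝓤 : Ultrafilter ℕ} {n m q : ℕ} {S : Sq n} (β : Fin m → Fin n → ℤ)
    {blk : Fin m → Fin (q + 1)} {s : ℕ → Fin (q + 1) → ℝ}
    (hs : ∀ᶠ ν in (𝓤 : Filter ℕ), ∀ j, 0 < s ν j) (C : ℝ)
    (hC : ∀ᶠ ν in (𝓤 : Filter ℕ), ∀ i, S.ht (rv (β i)) ν ≤ C * s ν (blk i)) (r : ℕ)
    (hr : ∀ᶠ ν in (𝓤 : Filter ℕ), r ≤ finrank ℝ (Rel S ν)) :
    r + m ≤ finrank ℝ (VN 𝓤 (S.map β) blk s) + n := by
  have h1 : ∀ᶠ ν in (𝓤 : Filter ℕ), r + m - n ≤ finrank ℝ (Rel (S.map β) ν) := by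
    filter_upwards [hr] with ν h2
    rw [Rel_map]
    have h3 := Submodule.finrank_sup_add_finrank_inf_eq (LinearMap.range (cmbL β)) (Rel S ν)
    have h4 : finrank ℝ (LinearMap.range (cmbL β) ⊔ Rel S ν : Submodule ℝ (Fin n → ℝ)) ≤ n := by
      have h6 := Submodule.finrank_le (LinearMap.range (cmbL β) ⊔ Rel S ν)
      rwa [Module.finrank_fin_fun] at h6
    have h5 : finrank ℝ (LinearMap.range (cmbL β)) + finrank ℝ (LinearMap.ker (cmbL β)) = m := by
      have := LinearMap.finrank_range_add_finrank_ker (cmbL β)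
      rwa [Module.finrank_fin_fun] at this
    have h6 : finrank ℝ ((Rel S ν).comap (cmbL β)) =
        finrank ℝ (LinearMap.range (cmbL β) ⊓ Rel S ν : Submodule ℝ (Fin n → ℝ)) +
          finrank ℝ (LinearMap.ker (cmbL β)) := by
      have h7 := LinearMap.finrank_range_add_finrank_ker
        ((cmbL β).domRestrict ((Rel S ν).comap (cmbL β)))
      have h8 : LinearMap.range ((cmbL β).domRestrict ((Rel S ν).comap (cmbL β))) =
          LinearMap.range (cmbL β) ⊓ Rel S ν := by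
        rw [LinearMap.range_domRestrict, Submodule.map_comap_eq]
      have h9 : finrank ℝ (LinearMap.ker ((cmbL β).domRestrict ((Rel S ν).comap (cmbL β)))) =
          finrank ℝ (LinearMap.ker (cmbL β)) := by
        rw [LinearMap.ker_domRestrict]
        have h10 : LinearMap.ker (cmbL β) ≤ (Rel S ν).comap (cmbL β) := by
          intro v hv
          rw [Submodule.mem_comap, LinearMap.mem_ker.1 hv]
          exact Submodule.zero_mem _
        exact (Submodule.comapSubtypeEquivOfLe h10).finrank_eq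
      rw [h8, h9] at h7
      exact h7.symm
    omega
  have h2 : ∀ᶠ ν in (𝓤 : Filter ℕ), ∀ i, (S.map β).ht (rv (Pi.single i 1)) ν ≤
      C * s ν (blk i) := by
    filter_upwards [hC] with ν h3 i
    rw [map_ht, ← rv_cmb, RelMap.cmb_single]
    exact h3 i
  have h3 := finrank_VN hs C h2 (r + m - n) h1
  omega

end Pool.Agent.ZP
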