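import Mathlib
import Pool.Agent.Lib.MP_c95b3b_ag_ZP.PTdV

set_option autoImplicit false

/-! Project ZP, block PT, part d: the dimension of the space of the neutral exponents. -/

namespace Pool.Agent.ZP

open Module Filter Topology Pool.Agent.L3 Pool.Agent.SD Pool.Agent.AL

/-- The dimension of the space `V` of the neutral exponents of the image of a sequence with `r`
independent relations: the preimages of the relations under the maps `b ↦ ∑ b i / s (blk i) β i`
have dimension `n' - n + r`, and the limits of their elements lie in `V`. -/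
theorem finrank_V {n n' q : ℕ} (𝓤 : Ultrafilter ℕ) (S : Sq n) (β : Fin n' → Fin n → ℤ)
    (blk : Fin n' → Fin (q + 1)) (s : ℕ → Fin (q + 1) → ℝ) (hs : ∀ ν j, 1 ≤ s ν j)
    (hbd : ∃ C : ℝ, ∀ᶠ ν in (𝓤 : Filter ℕ), ∀ i, S.ht (rv (β i)) ν ≤ C * s ν (blk i))
    (_hβ : Submodule.span ℝ (Set.range fun i => rv (β i)) = ⊤) (r : ℕ)
    (hr : ∀ᶠ ν in (𝓤 : Filter ℕ), r ≤ finrank ℝ (Rel S ν))
    (V : Submodule ℝ (Fin n' → ℝ))
    (hV : ∀ b, Tendsto (fun ν => (S.map β).ht (sc blk (s ν) b) ν) 𝓤 (𝓝 0) → b ∈ V) :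
    n' + r ≤ finrank ℝ V + n := by
  obtain ⟨C, hC⟩ := hbd
  have h1 := finrank_VN_map β (s := s)
    (Eventually.of_forall fun ν j => lt_of_lt_of_le one_pos (hs ν j)) C hC r hr
  have h2 : finrank ℝ (VN 𝓤 (S.map β) blk s) ≤ finrank ℝ V := Submodule.finrank_mono hV
  omega

end Pool.Agent.ZP
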