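import Mathlib
import Pool.Agent.Lib.MP_c95b3b_ag_SD.AdRel
import Pool.Agent.Lib.MP_c95b3b_ag_ZP.Defs

set_option autoImplicit false

/-! Project ZP, block PT, part e: the generic point of the closure of a sequence. -/

namespace Pool.Agent.ZP

open Module Filter Topology Pool.Agent.L3 Pool.Agent.SD Pool.Agent.AL

namespace PTe

/-- the ideal of the polynomials which vanish at almost all points -/
def idl {n : ℕ} (𝓤 : Ultrafilter ℕ) (P : ℕ → Fin n → ℂ) : Ideal (MvPolynomial (Fin n) ℂ) where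
  carrier := {F | ∀ᶠ ν in (𝓤 : Filter ℕ), MvPolynomial.eval (P ν) F = 0}
  add_mem' := by
    intro a b ha hb
    filter_upwards [ha, hb] with ν h1 h2
    rw [map_add, h1, h2, add_zero]
  zero_mem' := Eventually.of_forall fun ν => map_zero _
  smul_mem' := by
    intro c a ha
    filter_upwards [ha] with ν h1
    rw [smul_eq_mul, map_mul, h1, mul_zero]

theorem mem_idl {n : ℕ} {𝓤 : Ultrafilter ℕ} {P : ℕ → Fin n → ℂ} {F : MvPolynomial (Fin n) ℂ} :
    F ∈ idl 𝓤 P ↔ ∀ᶠ ν in (𝓤 : Filter ℕ), MvPolynomial.eval (P ν) F = 0 := Iff.rfl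

theorem idl_prime {n : ℕ} (𝓤 : Ultrafilter ℕ) (P : ℕ → Fin n → ℂ) : (idl 𝓤 P).IsPrime := by
  refine ⟨fun h => ?_, fun {a b} hab => ?_⟩
  · have h1 : (1 : MvPolynomial (Fin n) ℂ) ∈ idl 𝓤 P := by
      rw [h]
      trivial
    rw [mem_idl] at h1
    obtain ⟨ν, hν⟩ := h1.exists
    rw [map_one] at hν
    exact one_ne_zero hν
  · rw [mem_idl] at hab
    rw [mem_idl, mem_idl, ← Ultrafilter.eventually_or]
    filter_upwards [hab] with ν h1
    rw [map_mul] at h1
    exact mul_eq_zero.1 h1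

/-- algebraic coefficients of relations between algebraic numbers -/
theorem exists_alg {m : ℕ} (c : Fin m → ℂ) (hc : c ≠ 0) : ∃ c' : Fin m → ℂ, c' ≠ 0 ∧
    (∀ i, IsAlgebraic ℚ (c' i)) ∧ ∀ a : Fin m → ℂ, (∀ i, IsAlgebraic ℚ (a i)) →
      ∑ i, c i * a i = 0 → ∑ i, c' i * a i = 0 := by
  classical
  let K := algebraicClosure ℚ ℂ
  let B := Basis.ofVectorSpace K ℂ
  obtain ⟨i0, hi0⟩ : ∃ i0, c i0 ≠ 0 := by
    by_contra h
    push Not at h
    exact hc (funext h)
  obtain ⟨k, hk⟩ : ∃ k, B.repr (c i0) k ≠ 0 := by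
    by_contra h
    push Not at h
    apply hi0
    have h1 : B.repr (c i0) = 0 := Finsupp.ext h
    exact (LinearEquiv.map_eq_zero_iff B.repr).1 h1
  refine ⟨fun i => ((B.repr (c i) k : K) : ℂ), ?_, fun i => ?_, fun a ha h => ?_⟩
  · intro h
    apply hk
    have h1 := congrFun h i0
    exact Subtype.ext h1
  · exact mem_algebraicClosure_iff.1 (B.repr (c i) k).2
  · have ha' : ∀ i, a i ∈ K := fun i => mem_algebraicClosure_iff.2 (ha i)
    have h1 : ∑ i, (⟨a i, ha' i⟩ : K) • c i = 0 := by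
      rw [← h]
      refine Finset.sum_congr rfl fun i _ => ?_
      rw [mul_comm]
      rfl
    have h2 := congrArg (fun y => B.repr y k) h1
    simp only [map_sum, map_smul, map_zero, Finsupp.coe_zero, Pi.zero_apply,
      Finsupp.finsetSum_apply, Finsupp.smul_apply, smul_eq_mul] at h2
    have h3 := congrArg (fun y : K => (y : ℂ)) h2
    simp only [AddSubmonoidClass.coe_finsetSum, MulMemClass.coe_mul, ZeroMemClass.coe_zero] at h3
    rw [← h3]
    exact Finset.sum_congr rfl fun i _ => mul_comm _ _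

/-- relations with algebraic coefficients -/
theorem ad_of {n : ℕ} {L : Type} [Field L] [Algebra ℂ L] (𝓤 : Ultrafilter ℕ) (P : ℕ → Fin n → ℂ)
    (ha : ∀ ν i, IsAlgebraic ℚ (P ν i)) (x : Fin n → L)
    (hzero : ∀ F : MvPolynomial (Fin n) ℂ, MvPolynomial.aeval x F = 0 ↔
      ∀ᶠ ν in (𝓤 : Filter ℕ), MvPolynomial.eval (P ν) F = 0) : AD x := by
  intro m F c hc h
  obtain ⟨c', hc', halg, hrel⟩ := exists_alg c hc
  refine ⟨c', hc', halg, ?_⟩
  have key : ∀ e : Fin m → ℂ, ∑ i, algebraMap ℂ L (e i) *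
      MvPolynomial.aeval x (F i) = 0 ↔ ∀ᶠ ν in (𝓤 : Filter ℕ),
      ∑ i, e i * MvPolynomial.aeval (P ν) (F i) = 0 := by
    intro e
    have h1 := hzero (∑ i, MvPolynomial.C (e i) *
      MvPolynomial.map (algebraMap ℤ ℂ) (F i))
    have h2 : MvPolynomial.aeval x (∑ i, MvPolynomial.C (e i) *
        MvPolynomial.map (algebraMap ℤ ℂ) (F i)) =
        ∑ i, algebraMap ℂ L (e i) * MvPolynomial.aeval x (F i) := by
      rw [map_sum]
      refine Finset.sum_congr rfl fun i _ => ?_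
      rw [map_mul, MvPolynomial.aeval_C, MvPolynomial.aeval_map_algebraMap]
    have h3 : ∀ ν, MvPolynomial.eval (P ν) (∑ i, MvPolynomial.C (e i) *
        MvPolynomial.map (algebraMap ℤ ℂ) (F i)) =
        ∑ i, e i * MvPolynomial.aeval (P ν) (F i) := by
      intro ν
      rw [map_sum]
      refine Finset.sum_congr rfl fun i _ => ?_
      rw [map_mul, MvPolynomial.eval_C, MvPolynomial.eval_map, MvPolynomial.aeval_def]
    rw [← h2, h1]
    simp only [h3]
  rw [key] at h ⊢
  filter_upwards [h] with ν hν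
  refine hrel _ (fun i => ?_) hν
  have h2 : MvPolynomial.aeval (P ν) (F i) ∈ algebraicClosure ℚ ℂ := by
    rw [MvPolynomial.aeval_def, MvPolynomial.eval₂_eq]
    refine sum_mem fun d _ => mul_mem ?_ (prod_mem fun j _ => pow_mem ?_ _)
    · exact intCast_mem (algebraicClosure ℚ ℂ) _
    · exact mem_algebraicClosure_iff.2 (ha ν j)
  exact mem_algebraicClosure_iff.1 h2

end PTe

/-- the generic point (over `ℂ`) of the closure of a sequence of algebraic points along an
ultrafilter -/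
theorem exists_generic {n : ℕ} (𝓤 : Ultrafilter ℕ) (P : ℕ → Fin n → ℂ)
    (hne : ∀ ν i, P ν i ≠ 0) (ha : ∀ ν i, IsAlgebraic ℚ (P ν i)) :
    ∃ (L : Type) (_ : Field L) (_ : Algebra ℂ L) (x : Fin n → L), (∀ i, x i ≠ 0) ∧ AD x ∧
      (∀ F : MvPolynomial (Fin n) ℂ, MvPolynomial.aeval x F = 0 ↔
        ∀ᶠ ν in (𝓤 : Filter ℕ), MvPolynomial.eval (P ν) F = 0) ∧
      ∀ᶠ ν in (𝓤 : Filter ℕ), OnY x (P ν) := by
  classical
  have hprime := PTe.idl_prime 𝓤 P
  let A := MvPolynomial (Fin n) ℂ ⧸ PTe.idl 𝓤 P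
  let x : Fin n → FractionRing A := fun i =>
    algebraMap A (FractionRing A) (Ideal.Quotient.mk (PTe.idl 𝓤 P) (MvPolynomial.X i))
  have hev : ∀ F : MvPolynomial (Fin n) ℂ, MvPolynomial.aeval x F =
      algebraMap A (FractionRing A) (Ideal.Quotient.mk (PTe.idl 𝓤 P) F) := by
    intro F
    have h1 : (MvPolynomial.aeval x : MvPolynomial (Fin n) ℂ →ₐ[ℂ] FractionRing A) =
        (IsScalarTower.toAlgHom ℂ A (FractionRing A)).comp
          (Ideal.Quotient.mkₐ ℂ (PTe.idl 𝓤 P)) := by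
      apply MvPolynomial.algHom_ext
      intro i
      rw [MvPolynomial.aeval_X]
      rfl
    rw [h1]
    rfl
  have hzero : ∀ F : MvPolynomial (Fin n) ℂ, MvPolynomial.aeval x F = 0 ↔
      ∀ᶠ ν in (𝓤 : Filter ℕ), MvPolynomial.eval (P ν) F = 0 := by
    intro F
    rw [hev, map_eq_zero_iff _ (IsFractionRing.injective A (FractionRing A)),
      Ideal.Quotient.eq_zero_iff_mem, PTe.mem_idl]
  refine ⟨FractionRing A, inferInstance, inferInstance, x, fun i h => ?_, ?_, hzero, ?_⟩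
  · have h1 : MvPolynomial.aeval x (MvPolynomial.X i : MvPolynomial (Fin n) ℂ) = 0 := by
      rw [MvPolynomial.aeval_X]
      exact h
    rw [hzero] at h1
    obtain ⟨ν, hν⟩ := h1.exists
    rw [MvPolynomial.eval_X] at hν
    exact hne ν i hν
  · exact PTe.ad_of 𝓤 P ha x hzero
  · obtain ⟨s, hs⟩ := (inferInstance : IsNoetherianRing (MvPolynomial (Fin n) ℂ)).noetherian
      (PTe.idl 𝓤 P)
    have h1 : ∀ᶠ ν in (𝓤 : Filter ℕ), ∀ g ∈ s, MvPolynomial.eval (P ν) g = 0 := by
      rw [Filter.eventually_all_finset]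
      intro g hg
      have h2 : g ∈ PTe.idl 𝓤 P := by
        rw [← hs]
        exact Submodule.subset_span hg
      exact h2
    filter_upwards [h1] with ν hν
    refine ⟨hne ν, fun F hF => ?_⟩
    rw [hzero, ← PTe.mem_idl, ← hs] at hF
    refine Submodule.span_induction (p := fun F _ => MvPolynomial.eval (P ν) F = 0)
      (fun g hg => hν g hg) (map_zero _) (fun a b _ _ h3 h4 => ?_) (fun a b _ h3 => ?_) hF
    · rw [map_add, h3, h4, add_zero]
    · rw [smul_eq_mul, map_mul, h3, mul_zero]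

/-- the dimension, from relations between every `d + 1` coordinates -/
theorem dm_le_of_rel {L : Type} [Field L] [Algebra ℂ L] {n d : ℕ} {x : Fin n → L}
    (hx : ∀ i, x i ≠ 0)
    (h : ∀ J : Finset (Fin n), J.card = d + 1 → ∃ F : MvPolynomial (Fin n) ℂ, F ≠ 0 ∧
      F.vars ⊆ J ∧ MvPolynomial.aeval x F = 0) : dm x ≤ d := by
  classical
  by_contra hcon
  push Not at hcon
  obtain ⟨κ, -, hκ, -⟩ := exists_kappa hx
  have hinj : Function.Injective κ := by
    intro i j hij
    have h1 := hκ.injective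
    exact h1 (by simp only [hij])
  obtain ⟨J, hJ, hJc⟩ : ∃ J ⊆ (Finset.univ.image κ), J.card = d + 1 := by
    refine Finset.exists_subset_card_eq ?_
    rw [Finset.card_image_of_injective _ hinj, Finset.card_univ, Fintype.card_fin]
    exact hcon
  obtain ⟨F, hF, hv, h0⟩ := h J hJc
  obtain ⟨G, hG⟩ := MvPolynomial.exists_rename_eq_of_vars_subset_range F κ hinj (by
    intro i hi
    have h1 := hJ (hv hi)
    rw [Finset.mem_image] at h1
    obtain ⟨j, _, hj⟩ := h1
    exact ⟨j, hj⟩)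
  rw [← hG, MvPolynomial.aeval_rename] at h0
  have h2 : G = 0 := by
    have h3 := (algebraicIndependent_iff.1 hκ) G
    exact h3 h0
  rw [← hG, h2, map_zero] at hF
  exact hF rfl

/-- the form of a character which is not constant -/
theorem om_ne_zero_of {L : Type} [Field L] [Algebra ℂ L] {n : ℕ} {x : Fin n → L}
    (hx : ∀ i, x i ≠ 0) (a : Fin n → ℤ) (h : ∀ c : ℂ, mn x a ≠ algebraMap ℂ L c) :
    om x (rv a) ≠ 0 := by
  intro h0
  have h1 : ¬ AlgebraicIndependent ℂ (mm (fun _ : Fin 1 => a) x) := by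
    intro h2
    have h3 := om_of_algInd hx h2
    exact h3.ne_zero 0 h0
  have h2 : IsAlgebraic ℂ (mn x a) := by
    by_contra htr
    apply h1
    have h3 : AlgebraicIndependent ℂ (fun _ : Fin 1 => mn x a) := by
      rw [algebraicIndependent_unique_type_iff]
      exact htr
    exact h3
  have h3 : IsIntegral ℂ (mn x a) := h2.isIntegral
  have h4 := IsAlgClosed.degree_eq_one_of_irreducible ℂ (minpoly.irreducible h3)
  obtain ⟨c, hc⟩ := minpoly.mem_range_of_degree_eq_one ℂ (mn x a) h4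
  exact h c hc.symm

end Pool.Agent.ZP
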