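import Mathlib
import Pool.Agent.Lib.MP_c95b3b_ag_ZP.CFSat
import Pool.Agent.Lib.MP_c95b3b_ag_ZP.CFPsi

set_option autoImplicit false

/-! Project ZP, block PT, part f: the coordinates and the light characters of the configuration of
a sequence. -/

namespace Pool.Agent.ZP

open MvPolynomial Module Filter Topology Pool.Agent.L3 Pool.Agent.SD Pool.Agent.AL

namespace PT

/-- the light characters of the blocks -/
def low {n q : ℕ} (X : Fin (q + 1) → Submodule ℤ (Fin n → ℤ)) :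
    Fin (q + 1) → Submodule ℤ (Fin n → ℤ) :=
  Fin.cases ⊥ (fun j => X j.castSucc)

theorem low_zero {n q : ℕ} (X : Fin (q + 1) → Submodule ℤ (Fin n → ℤ)) : low X 0 = ⊥ := rfl

theorem low_succ {n q : ℕ} (X : Fin (q + 1) → Submodule ℤ (Fin n → ℤ)) (j : Fin q) :
    low X j.succ = X j.castSucc := rfl

theorem low_le {n q : ℕ} {X : Fin (q + 1) → Submodule ℤ (Fin n → ℤ)} (hX : StrictMono X)
    (j : Fin (q + 1)) : low X j ≤ X j := by
  induction j using Fin.cases with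
  | zero =>
    rw [low_zero]
    exact bot_le
  | succ j =>
    rw [low_succ]
    exact hX.monotone (Fin.castSucc_lt_succ).le

section
variable {n m q : ℕ} (X : Fin (q + 1) → Submodule ℤ (Fin n → ℤ)) (β : Fin m → Fin n → ℤ)
  (blk : Fin m → Fin (q + 1))

/-- the light characters -/
def Lam : Submodule ℤ (Fin m → ℤ) where
  carrier := {c | ∀ j, cmb β (pj blk j c) ∈ low X j}
  add_mem' := by
    intro a b ha hb j
    have h : cmb β (pj blk j (a + b)) = cmb β (pj blk j a) + cmb β (pj blk j b) := by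
      rw [CF.pj_add]
      exact (QMap.cmbZ β).map_add _ _
    rw [h]
    exact (low X j).add_mem (ha j) (hb j)
  zero_mem' := by
    intro j
    have h : pj blk j (0 : Fin m → ℤ) = 0 := by
      funext i
      simp [pj]
    rw [h]
    have h' : cmb β 0 = 0 := (QMap.cmbZ β).map_zero
    rw [h']
    exact (low X j).zero_mem
  smul_mem' := by
    intro r a ha j
    have h : pj blk j (r • a) = r • pj blk j a := by
      funext i
      simp only [pj, Pi.smul_apply]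
      split_ifs <;> simp
    rw [h]
    have h' : cmb β (r • pj blk j a) = r • cmb β (pj blk j a) := (QMap.cmbZ β).map_smul _ _
    rw [h']
    exact (low X j).smul_mem r (ha j)

end

variable {n m q : ℕ} {X : Fin (q + 1) → Submodule ℤ (Fin n → ℤ)} {β : Fin m → Fin n → ℤ}
  {blk : Fin m → Fin (q + 1)}

theorem cmb_zero' (β : Fin m → Fin n → ℤ) : cmb β 0 = 0 := (QMap.cmbZ β).map_zero

theorem mem_Lam {c : Fin m → ℤ} : c ∈ Lam X β blk ↔ ∀ j, cmb β (pj blk j c) ∈ low X j := Iff.rfl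

theorem gr_Lam : Gr blk (Lam X β blk) := by
  intro a ha j j'
  by_cases h : j = j'
  · subst h
    rw [CF.pj_of_mem (CF.pj_mem j a)]
    exact ha j
  · rw [CF.pj_of_mem_ne h (CF.pj_mem j a), cmb_zero']
    exact (low X j').zero_mem

/-- the light characters of the block `j` -/
theorem mem_Lam_bl {j : Fin (q + 1)} {c : Fin m → ℤ} (hc : c ∈ blL blk j) :
    c ∈ Lam X β blk ↔ cmb β c ∈ low X j := by
  constructor
  · intro h
    have := h j
    rwa [CF.pj_of_mem hc] at this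
  · intro h j'
    by_cases hj : j = j'
    · subst hj
      rwa [CF.pj_of_mem hc]
    · rw [CF.pj_of_mem_ne hj hc, cmb_zero']
      exact (low X j').zero_mem

/-- coordinates for the blocks -/
theorem exists_coords {n q : ℕ} (X : Fin (q + 1) → Submodule ℤ (Fin n → ℤ)) :
    ∃ (m : ℕ) (β : Fin m → Fin n → ℤ) (blk : Fin m → Fin (q + 1)),
      m = ∑ j, finrank ℤ (X j) ∧ (∀ j, ∀ c ∈ blL blk j, cmb β c ∈ X j) ∧
      (∀ j, ∀ a ∈ X j, ∃ c ∈ blL blk j, a = cmb β c) ∧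
      ∀ j, ∀ c ∈ blL blk j, cmb β c = 0 → c = 0 := by
  classical
  choose b hb1 hb2 _ using fun j => exists_basis (X j)
  let e : (Σ j : Fin (q + 1), Fin (finrank ℤ (X j))) ≃ Fin (∑ j, finrank ℤ (X j)) :=
    finSigmaFinEquiv
  let β : Fin (∑ j, finrank ℤ (X j)) → Fin n → ℤ := fun i => b (e.symm i).1 (e.symm i).2
  let blk : Fin (∑ j, finrank ℤ (X j)) → Fin (q + 1) := fun i => (e.symm i).1
  have key : ∀ j, ∀ c ∈ blL blk j, cmb β c = cmb (b j) (fun k => c (e ⟨j, k⟩)) := by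
    intro j c hc
    funext i
    simp only [cmb]
    rw [← e.sum_comp (fun l => c l * β l i), Fintype.sum_sigma, Finset.sum_eq_single j]
    · refine Finset.sum_congr rfl fun k _ => ?_
      show c (e ⟨j, k⟩) * b (e.symm (e ⟨j, k⟩)).1 (e.symm (e ⟨j, k⟩)).2 i = _
      rw [e.symm_apply_apply]
    · intro j' _ hj'
      refine Finset.sum_eq_zero fun k _ => ?_
      have h : c (e ⟨j', k⟩) = 0 := by
        apply hc
        show (e.symm (e ⟨j', k⟩)).1 ≠ j
        rw [e.symm_apply_apply]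
        exact hj'
      rw [h, zero_mul]
    · intro h
      exact absurd (Finset.mem_univ j) h
  refine ⟨_, β, blk, rfl, fun j c hc => ?_, fun j a ha => ?_, fun j c hc h0 => ?_⟩
  · rw [key j c hc]
    exact (hb2 j _).2 ⟨_, rfl⟩
  · obtain ⟨c, hc⟩ := (hb2 j a).1 ha
    let c' : Fin (∑ j, finrank ℤ (X j)) → ℤ := fun i =>
      if h : (e.symm i).1 = j then c (h ▸ (e.symm i).2) else 0
    have hc' : c' ∈ blL blk j := by
      intro i hi
      show (if h : (e.symm i).1 = j then c (h ▸ (e.symm i).2) else 0) = 0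
      rw [dif_neg hi]
    refine ⟨c', hc', ?_⟩
    rw [key j c' hc', hc]
    congr 1
    funext k
    show c k = (if h : (e.symm (e ⟨j, k⟩)).1 = j then c (h ▸ (e.symm (e ⟨j, k⟩)).2) else 0)
    have h1 : (e.symm (e ⟨j, k⟩)) = ⟨j, k⟩ := e.symm_apply_apply _
    have h2 : ∀ (z : Σ j : Fin (q + 1), Fin (finrank ℤ (X j))), z = ⟨j, k⟩ →
        c k = (if h : z.1 = j then c (h ▸ z.2) else 0) := by
      rintro z rfl
      simp
    exact h2 _ h1
  · rw [key j c hc] at h0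
    have h1 := cmb_injective (hb1 j) (h0.trans (cmb_zero' (b j)).symm)
    funext i
    by_cases hi : blk i = j
    · obtain ⟨z, rfl⟩ := e.surjective i
      have hz : z.1 = j := by
        have : (e.symm (e z)).1 = j := hi
        rwa [e.symm_apply_apply] at this
      obtain ⟨j', k⟩ := z
      simp only at hz
      subst hz
      exact congrFun h1 k
    · exact hc i hi

section
variable (h1 : ∀ j, ∀ c ∈ blL blk j, cmb β c ∈ X j)
  (h2 : ∀ j, ∀ a ∈ X j, ∃ c ∈ blL blk j, a = cmb β c)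
  (h3 : ∀ j, ∀ c ∈ blL blk j, cmb β c = 0 → c = 0)

include h3 in
theorem finrank_Lam (h2' : ∀ j, ∀ a ∈ low X j, ∃ c ∈ blL blk j, a = cmb β c) :
    finrank ℤ (Lam X β blk) = ∑ j, finrank ℤ (low X j) := by
  rw [CF.finrank_gr gr_Lam]
  refine Finset.sum_congr rfl fun j _ => ?_
  let f := (QMap.cmbZ β).domRestrict (Lam X β blk ⊓ blL blk j)
  have hf : Function.Injective f := by
    rw [injective_iff_map_eq_zero]
    rintro ⟨c, hc⟩ h
    have h' : cmb β c = 0 := h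
    exact Subtype.ext (h3 j c hc.2 h')
  have hr : LinearMap.range f = low X j := by
    ext a
    constructor
    · rintro ⟨⟨c, hc⟩, rfl⟩
      exact (mem_Lam_bl hc.2).1 hc.1
    · intro ha
      obtain ⟨c, hc, rfl⟩ := h2' j a ha
      exact ⟨⟨c, (mem_Lam_bl hc).2 ha, hc⟩, rfl⟩
  rw [← hr]
  exact (LinearMap.finrank_range_of_inj hf).symm

variable {L : Type} [Field L] [Algebra ℂ L] {x : Fin n → L}

include h1 h2 in
theorem dd_top (hx : ∀ i, x i ≠ 0) : dd (mm β x) blk ⊤ = ∑ j, rkZ x (X j) := by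
  unfold dd
  refine Finset.sum_congr rfl fun j _ => ?_
  refine rkZ_mm hx β _ _ fun a => ⟨fun ha => ?_, ?_⟩
  · obtain ⟨c, hc, rfl⟩ := h2 j a ha
    exact ⟨c, ⟨Submodule.mem_top, hc⟩, rfl⟩
  · rintro ⟨c, hc, rfl⟩
    exact h1 j c hc.2

theorem dd_Lam (hx : ∀ i, x i ≠ 0) (h2' : ∀ j, ∀ a ∈ low X j, ∃ c ∈ blL blk j, a = cmb β c) :
    dd (mm β x) blk (Lam X β blk) = ∑ j, rkZ x (low X j) := by
  unfold dd
  refine Finset.sum_congr rfl fun j _ => ?_
  refine rkZ_mm hx β _ _ fun a => ⟨fun ha => ?_, ?_⟩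
  · obtain ⟨c, hc, rfl⟩ := h2' j a ha
    exact ⟨c, ⟨(mem_Lam_bl hc).2 ha, hc⟩, rfl⟩
  · rintro ⟨c, hc, rfl⟩
    exact (mem_Lam_bl hc.2).1 hc.1

theorem rkZ_bot (x : Fin n → L) : rkZ x ⊥ = 0 := by
  have h := rkZ_le_finrank x (⊥ : Submodule ℤ (Fin n → ℤ))
  rw [finrank_bot] at h
  omega

include h1 h2 in
theorem dd_sum (hx : ∀ i, x i ≠ 0) (hX : X (Fin.last q) = ⊤)
    (h2' : ∀ j, ∀ a ∈ low X j, ∃ c ∈ blL blk j, a = cmb β c) :
    dd (mm β x) blk ⊤ = dd (mm β x) blk (Lam X β blk) + dm x := by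
  rw [dd_top h1 h2 hx, dd_Lam hx h2', Fin.sum_univ_castSucc, Fin.sum_univ_succ, low_zero, rkZ_bot,
    hX, rkZ_top, zero_add]
  rfl

include h3 in
theorem finrank_sum (hX : X (Fin.last q) = ⊤) (hm : m = ∑ j, finrank ℤ (X j))
    (h2' : ∀ j, ∀ a ∈ low X j, ∃ c ∈ blL blk j, a = cmb β c) :
    m = finrank ℤ (Lam X β blk) + n := by
  have h0 : finrank ℤ (⊤ : Submodule ℤ (Fin n → ℤ)) = n := by
    rw [finrank_top, finrank_fin_fun]
  rw [finrank_Lam h3 h2', hm, Fin.sum_univ_castSucc, Fin.sum_univ_succ, low_zero, finrank_bot,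
    hX, h0, zero_add]
  rfl

include h3 in
/-- the dimensions of the configuration -/
theorem psi_Lam (hx : ∀ i, x i ≠ 0) (hX : X (Fin.last q) = ⊤) (hm : m = ∑ j, finrank ℤ (X j))
    (h1 : ∀ j, ∀ c ∈ blL blk j, cmb β c ∈ X j)
    (h2 : ∀ j, ∀ a ∈ X j, ∃ c ∈ blL blk j, a = cmb β c)
    (h2' : ∀ j, ∀ a ∈ low X j, ∃ c ∈ blL blk j, a = cmb β c)
    {V : Submodule ℝ (Fin m → ℝ)} {d : ℕ} (hd : dm x ≤ d)
    (hV : m + (d + 1) ≤ finrank ℝ V + n) : Psi (mm β x) blk V (Lam X β blk) 1 := by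
  unfold Psi
  have e1 := dd_sum h1 h2 hx hX h2'
  have e2 := finrank_sum h3 hX hm h2'
  have e3 : finrank ℝ (V ⊓ spR (Lam X β blk) : Submodule ℝ (Fin m → ℝ)) ≤
      finrank ℤ (Lam X β blk) := by
    rw [← CF.finrank_spR]
    exact Submodule.finrank_mono inf_le_right
  omega

end

end PT

/-- `Sat` and monomial maps, scales -/
theorem Sat.map {n m q : ℕ} {𝓤 : Ultrafilter ℕ} {S : Sq n} (h : Sat 𝓤 S) (β : Fin m → Fin n → ℤ)
    {blk : Fin m → Fin (q + 1)} {s : ℕ → Fin (q + 1) → ℝ} (C : ℝ)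
    (hs : ∀ᶠ ν in (𝓤 : Filter ℕ), ∑ l, s ν (blk l) ≤
      C * (1 + ∑ i, S.ht (rv (Pi.single i 1)) ν)) : SatS 𝓤 (S.map β) blk s := by
  intro B
  set A : ℕ := ∑ l, ∑ i, (β l i).natAbs with hA
  obtain ⟨N, hN⟩ := exists_nat_ge C
  filter_upwards [h (2 * (B * A) + B * (1 + N)), hs] with ν hν hsν F hF1 hF2 hF3
  obtain ⟨F', h1, h2, h3⟩ := CF.exists_poly_bd β F B hF1
  have h4 := h3 (S.K ν) (S.p ν) (S.ne ν)
  rw [← hA] at h2 h4
  have hP : (∏ i, S.p ν i) ^ (B * A) ≠ 0 :=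
    pow_ne_zero _ (Finset.prod_ne_zero_iff.mpr fun i _ => S.ne ν i)
  have h5 : aeval (S.p ν) F' ≠ 0 := by
    rw [h4]
    exact mul_ne_zero hP hF3
  have hF'0 : F' ≠ 0 := by
    rintro rfl
    rw [map_zero] at h5
    exact h5 rfl
  have h6 : (aeval (S.p ν) F')⁻¹ ∈ S.R ν := by
    refine hν F' (fun i => (h2 i).trans (Nat.le_add_right _ _)) ?_ h5
    have h7 : Real.log (l1 F') ≤ Real.log (l1 F) :=
      Real.log_le_log (lt_of_lt_of_le one_pos (one_le_l1 hF'0)) h1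
    refine h7.trans (hF2.trans ?_)
    have h8 : (0 : ℝ) ≤ ∑ i, S.ht (rv (Pi.single i 1)) ν :=
      Finset.sum_nonneg fun i _ => ht_nonneg S _ ν
    have h9 : ∑ l, s ν (blk l) ≤ N * (1 + ∑ i, S.ht (rv (Pi.single i 1)) ν) :=
      hsν.trans (mul_le_mul_of_nonneg_right hN (by linarith))
    have h10 : (B : ℝ) * (1 + ∑ l, s ν (blk l)) ≤
        B * (1 + N * (1 + ∑ i, S.ht (rv (Pi.single i 1)) ν)) :=
      mul_le_mul_of_nonneg_left (by linarith) (Nat.cast_nonneg _)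
    refine h10.trans ?_
    push_cast
    have hB0 : (0 : ℝ) ≤ B := Nat.cast_nonneg _
    have hA0 : (0 : ℝ) ≤ A := Nat.cast_nonneg _
    have hN0 : (0 : ℝ) ≤ N := Nat.cast_nonneg _
    have hBA : (0 : ℝ) ≤ B * A := mul_nonneg hB0 hA0
    have hBN : (0 : ℝ) ≤ B * N := mul_nonneg hB0 hN0
    nlinarith [mul_nonneg hBA h8, mul_nonneg hB0 h8]
  have h11 : (aeval ((S.map β).p ν) F)⁻¹ = (∏ i, S.p ν i) ^ (B * A) * (aeval (S.p ν) F')⁻¹ := by
    have h12 : aeval (mm β (S.p ν)) F ≠ 0 := hF3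
    show (aeval (mm β (S.p ν)) F)⁻¹ = _
    rw [h4]
    field_simp
  rw [h11]
  exact (S.R ν).mul_mem ((S.R ν).pow_mem ((S.R ν).prod_mem fun i _ => S.mem ν i) _) h6

end Pool.Agent.ZP
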