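import Mathlib
import Pool.Agent.Lib.MP_c95b3b_ag_F.Red
import Pool.Agent.Lib.MP_c95b3b_ag_SD.SeqS
import Pool.Agent.Lib.MP_c95b3b_ag_ZP.Defs
import Pool.Agent.Lib.MP_c95b3b_ag_ZP.PTa
import Pool.Agent.Lib.MP_c95b3b_ag_ZP.PTb
import Pool.Agent.Lib.MP_c95b3b_ag_ZP.PTc
import Pool.Agent.Lib.MP_c95b3b_ag_ZP.PTd
import Pool.Agent.Lib.MP_c95b3b_ag_ZP.PTe
import Pool.Agent.Lib.MP_c95b3b_ag_ZP.PTf

set_option autoImplicit false

/-! Project ZP, block PT: construction of a configuration from a counterexample over the algebraic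
numbers (ZP_full 0, 1.1). -/

namespace Pool.Agent.ZP

open Module Filter Topology Pool.Agent.L3 Pool.Agent.SD Pool.Agent.CITF

namespace PT

theorem map_ht_rv {n m : ℕ} (S : Sq n) (β : Fin m → Fin n → ℤ) (c : Fin m → ℤ) (ν : ℕ) :
    (S.map β).ht (rv c) ν = S.ht (rv (cmb β c)) ν := by
  rw [map_ht, ← rv_cmb]

/-- the neutral exponents -/
noncomputable def VV {n q : ℕ} (𝓤 : Ultrafilter ℕ) (S : Sq n) (blk : Fin n → Fin (q + 1))
    (s : ℕ → Fin (q + 1) → ℝ) : Submodule ℝ (Fin n → ℝ) where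
  carrier := {b | Tendsto (fun ν => S.ht (sc blk (s ν) b) ν) 𝓤 (𝓝 0)}
  add_mem' := by
    intro a b ha hb
    have ha' : Tendsto (fun ν => S.ht (sc blk (s ν) a) ν) 𝓤 (𝓝 0) := ha
    have hb' : Tendsto (fun ν => S.ht (sc blk (s ν) b) ν) 𝓤 (𝓝 0) := hb
    have h1 := ha'.add hb'
    rw [add_zero] at h1
    refine squeeze_zero (fun ν => ht_nonneg S _ ν) (fun ν => ?_) h1
    have h2 : sc blk (s ν) (a + b) = sc blk (s ν) a + sc blk (s ν) b := by
      funext i
      simp only [sc, Pi.add_apply]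
      ring
    rw [h2]
    exact ht_add_le S _ _ ν
  zero_mem' := by
    have h : ∀ ν, S.ht (sc blk (s ν) (0 : Fin n → ℝ)) ν = 0 := by
      intro ν
      have h2 : sc blk (s ν) (0 : Fin n → ℝ) = 0 := by
        funext i
        simp [sc]
      rw [h2, ht_zero]
    show Tendsto (fun ν => S.ht (sc blk (s ν) (0 : Fin n → ℝ)) ν) 𝓤 (𝓝 0)
    simp only [h]
    exact tendsto_const_nhds
  smul_mem' := by
    intro r a ha
    have ha' : Tendsto (fun ν => S.ht (sc blk (s ν) a) ν) 𝓤 (𝓝 0) := ha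
    have h1 := ha'.const_mul |r|
    rw [mul_zero] at h1
    refine h1.congr fun ν => ?_
    have h2 : sc blk (s ν) (r • a) = r • sc blk (s ν) a := by
      funext i
      simp only [sc, Pi.smul_apply, smul_eq_mul]
      ring
    rw [h2, ht_smul]

theorem sc_rv {n q : ℕ} (blk : Fin n → Fin (q + 1)) (s : Fin (q + 1) → ℝ) (a : Fin n → ℤ) :
    sc blk s (rv a) = ∑ j, (s j)⁻¹ • rv (pj blk j a) := by
  funext i
  rw [Finset.sum_apply, Finset.sum_eq_single (blk i)]
  · simp only [sc, Pi.smul_apply, smul_eq_mul, rv, pj, if_true]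
    rw [div_eq_inv_mul]
  · intro j _ hj
    simp only [Pi.smul_apply, smul_eq_mul, rv, pj, if_neg (Ne.symm hj), Int.cast_zero, mul_zero]
  · intro h
    exact absurd (Finset.mem_univ _) h

/-- light characters are neutral -/
theorem light {n q : ℕ} {𝓤 : Ultrafilter ℕ} {S : Sq n} {X : Fin (q + 1) → Submodule ℤ (Fin n → ℤ)}
    {s : ℕ → Fin (q + 1) → ℝ} (s1 : ∀ ν j, 1 ≤ s ν j)
    (hsep : ∀ T : ℝ, ∀ᶠ ν in (𝓤 : Filter ℕ), ∀ j j', j < j' → T * s ν j ≤ s ν j')
    (hup : ∀ j, ∀ a ∈ X j, ∃ C : ℝ, ∀ᶠ ν in (𝓤 : Filter ℕ), S.ht (rv a) ν ≤ C * s ν j)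
    (j : Fin (q + 1)) (a : Fin n → ℤ) (ha : a ∈ low X j) :
    Tendsto (fun ν => (s ν j)⁻¹ * S.ht (rv a) ν) 𝓤 (𝓝 0) := by
  induction j using Fin.cases with
  | zero =>
    have ha0 : a = 0 := ha
    subst ha0
    simp only [rv_zero, ht_zero, mul_zero]
    exact tendsto_const_nhds
  | succ j =>
    obtain ⟨C, hC⟩ := hup j.castSucc a ha
    rw [Metric.tendsto_nhds]
    intro ε hε
    filter_upwards [hC, hsep ((|C| + 1) / ε)] with ν h1 h2
    have h3 := h2 j.castSucc j.succ Fin.castSucc_lt_succ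
    have h4 := s1 ν j.succ
    have h5 := s1 ν j.castSucc
    have h6 := ht_nonneg S (rv a) ν
    rw [Real.dist_eq, sub_zero, abs_of_nonneg (mul_nonneg (inv_nonneg.2 (by linarith)) h6),
      inv_mul_lt_iff₀ (by linarith)]
    have h7 : (|C| + 1) * s ν j.castSucc ≤ ε * s ν j.succ := by
      rw [div_mul_eq_mul_div, div_le_iff₀ hε] at h3
      linarith
    have h8 : C * s ν j.castSucc ≤ |C| * s ν j.castSucc :=
      mul_le_mul_of_nonneg_right (le_abs_self C) (by linarith)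
    have h9 : (|C| + 1) * s ν j.castSucc = |C| * s ν j.castSucc + s ν j.castSucc := by ring
    nlinarith

theorem rank_rel {n r : ℕ} {S : Sq n} {ν : ℕ} {Λ : Submodule ℤ (Fin n → ℤ)}
    (hr : r ≤ finrank ℤ Λ) (h : ∀ a ∈ Λ, mn (S.p ν) a = 1) : r ≤ finrank ℝ (Rel S ν) := by
  rw [← CF.finrank_spR] at hr
  refine hr.trans (Submodule.finrank_mono (Submodule.span_le.2 ?_))
  rintro _ ⟨a, ha, rfl⟩ w
  rw [dot_lam, h a ha, Places.lg_one]

end PT

/-- a counterexample over the algebraic numbers gives a configuration -/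
theorem exists_cfg (h : ¬ QbarConj) : ∃ (𝓤 : Ultrafilter ℕ) (n q : ℕ), Nonempty (Cfg 𝓤 n q) := by
  obtain ⟨n, d, P, hne, halg, hch, hrel, hdim⟩ := exists_pts h
  let 𝓤 : Ultrafilter ℕ := hyperfilter ℕ
  have h𝓤 : (𝓤 : Filter ℕ) ≤ atTop := Nat.hyperfilter_le_atTop
  obtain ⟨S, e, he, hSat⟩ := exists_sq P hne halg
  have hsat := hSat 𝓤 h𝓤
  obtain ⟨L, fL, aL, x, hx, hAD, hI, hOn⟩ := exists_generic 𝓤 P hne halg
  have hn : 0 < n := by
    obtain ⟨Λ, hΛ, _⟩ := hrel 0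
    have h1 : finrank ℤ Λ ≤ n := by
      have := Submodule.finrank_le Λ
      rwa [finrank_fin_fun] at this
    omega
  obtain ⟨q, X, s, bd, s1, s2, hX1, hX2, hX3, hsep, hup, hlow, hbd, hub⟩ := exists_chain hn 𝓤 S
  obtain ⟨m, β, blk, hm, c1, c2, c3⟩ := PT.exists_coords X
  have s3 : ∀ ν j, 1 ≤ s ν j := fun ν j => (s1 ν).trans (s2 ν j)
  have s4 : ∀ ν j, 0 < s ν j := fun ν j => lt_of_lt_of_le one_pos (s3 ν j)
  have c2' : ∀ j, ∀ a ∈ PT.low X j, ∃ c ∈ blL blk j, a = cmb β c :=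
    fun j a ha => c2 j a (PT.low_le hX1 j ha)
  have hP : ∀ ν, (fun i => e ν (S.p ν i)) = P ν := fun ν => funext (he ν)
  -- genericity
  have hGn : Gn 𝓤 S x := by
    intro F
    rw [← SeqS.aeval_int_L x F, hI]
    refine ⟨fun h1 => h1.mono fun ν h2 => ?_, fun h1 => h1.mono fun ν h2 => ?_⟩
    · rw [← hP ν, ← SeqS.aeval_int (e ν) (S.p ν) F, h2, map_zero]
    · rw [← hP ν, ← SeqS.aeval_int (e ν) (S.p ν) F] at h2
      exact (map_eq_zero (e ν)).1 h2
  have hdm : dm x ≤ d := by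
    refine dm_le_of_rel hx fun J hJ => ?_
    obtain ⟨F, h1, h2, h3⟩ := hdim J hJ
    exact ⟨F, h1, h2, (hI F).2 (Eventually.of_forall h3)⟩
  have hcos : ∀ a : Fin n → ℤ, a ≠ 0 → om x (rv a) ≠ 0 := by
    intro a ha
    refine om_ne_zero_of hx a fun c hc => ?_
    have h1 : ∀ᶠ ν in (𝓤 : Filter ℕ), mn (P ν) a ≠ c := (hch a ha c).filter_mono h𝓤
    obtain ⟨ν, h2, h3⟩ := (h1.and hOn).exists
    apply h2
    have h4 := OnY.rel_mn hx h3 (fun _ : Unit => a)
      (MvPolynomial.X () - MvPolynomial.C c) (by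
        rw [map_sub, MvPolynomial.aeval_X, MvPolynomial.aeval_C, hc, sub_self])
    rw [map_sub, MvPolynomial.aeval_X, MvPolynomial.aeval_C] at h4
    exact sub_eq_zero.1 h4
  have hr : ∀ᶠ ν in (𝓤 : Filter ℕ), d + 1 ≤ finrank ℝ (Rel S ν) := by
    refine Eventually.of_forall fun ν => ?_
    obtain ⟨Λ, h1, h2⟩ := hrel ν
    refine PT.rank_rel h1 fun a ha => (e ν).injective ?_
    rw [map_mn, map_one, hP ν]
    exact h2 a ha
  -- the heights of the coordinates
  have hβX : ∀ i, β i ∈ X (blk i) := by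
    intro i
    have h1 : (Pi.single i 1 : Fin m → ℤ) ∈ blL blk (blk i) := by
      intro i' hi'
      rw [Pi.single_eq_of_ne]
      rintro rfl
      exact hi' rfl
    have h2 := c1 _ _ h1
    rwa [RelMap.cmb_single] at h2
  have hht : ∃ C : ℝ, ∀ᶠ ν in (𝓤 : Filter ℕ), ∀ i, S.ht (rv (β i)) ν ≤ C * s ν (blk i) := by
    choose C hC using fun i => hup (blk i) (β i) (hβX i)
    refine ⟨∑ i, |C i|, ?_⟩
    filter_upwards [eventually_all.2 hC] with ν h1 i
    refine (h1 i).trans (mul_le_mul_of_nonneg_right ?_ (s4 ν _).le)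
    exact (le_abs_self _).trans
      (Finset.single_le_sum (f := fun i => |C i|) (fun _ _ => abs_nonneg _) (Finset.mem_univ i))
  have hβR : Submodule.span ℝ (Set.range fun i => rv (β i)) = ⊤ := by
    rw [eq_top_iff, ← CF.spR_top]
    refine Submodule.span_le.2 ?_
    rintro _ ⟨a, -, rfl⟩
    obtain ⟨c, -, rfl⟩ := c2 (Fin.last q) a (by rw [hX3]; exact Submodule.mem_top)
    show rv (cmb β c) ∈ Submodule.span ℝ (Set.range fun i => rv (β i))
    rw [rv_cmb, Map.cmbR_eq]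
    exact Submodule.sum_mem _ fun l _ => Submodule.smul_mem _ _ (Submodule.subset_span ⟨l, rfl⟩)
  have hV := finrank_V 𝓤 S β blk s s3 hht hβR (d + 1) hr (PT.VV 𝓤 (S.map β) blk s)
    fun b hb => hb
  -- the sum of the scales
  have hsum : ∃ C : ℝ, ∀ᶠ ν in (𝓤 : Filter ℕ), ∑ l, s ν (blk l) ≤
      C * (1 + ∑ i, S.ht (rv (Pi.single i 1)) ν) := by
    have h1 : ∀ j, ∃ C : ℝ, 0 ≤ C ∧ ∀ᶠ ν in (𝓤 : Filter ℕ), s ν j ≤
        C * (1 + ∑ i, S.ht (rv (Pi.single i 1)) ν) := by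
      have h2 : ∀ j, ∀ a : Fin n → ℤ, (∃ c : ℝ, 0 < c ∧ ∀ᶠ ν in (𝓤 : Filter ℕ),
          c * s ν j ≤ S.ht (rv a) ν) → ∃ C : ℝ, 0 ≤ C ∧ ∀ᶠ ν in (𝓤 : Filter ℕ), s ν j ≤
          C * (1 + ∑ i, S.ht (rv (Pi.single i 1)) ν) := by
        rintro j a ⟨c, hc, h3⟩
        refine ⟨(∑ i, |(a i : ℝ)|) / c, by positivity, h3.mono fun ν h4 => ?_⟩
        have h5 : S.ht (rv a) ν ≤ (∑ i, |(a i : ℝ)|) * (∑ i, S.ht (rv (Pi.single i 1)) ν) := by
          have h6 : rv a = ∑ i, (a i : ℝ) • rv (Pi.single i (1 : ℤ)) := by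
            funext k
            rw [Finset.sum_apply, Finset.sum_eq_single k]
            · simp [rv]
            · intro i _ hi
              simp [rv, Pi.single_eq_of_ne (Ne.symm hi)]
            · intro hk
              exact absurd (Finset.mem_univ k) hk
          rw [h6]
          refine (Map.ht_sum_le S _ _ ν).trans ?_
          rw [Finset.sum_mul]
          refine Finset.sum_le_sum fun i _ => ?_
          rw [ht_smul]
          exact mul_le_mul_of_nonneg_left (Finset.single_le_sum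
            (f := fun i => S.ht (rv (Pi.single i 1)) ν) (fun _ _ => ht_nonneg S _ ν)
            (Finset.mem_univ i)) (abs_nonneg _)
        have h7 : 0 ≤ ∑ i, |(a i : ℝ)| := Finset.sum_nonneg fun _ _ => abs_nonneg _
        rw [div_mul_eq_mul_div, le_div_iff₀ hc]
        nlinarith
      intro j
      induction j using Fin.cases with
      | zero =>
        by_cases hb : bd
        · refine ⟨1, zero_le_one, Eventually.of_forall fun ν => ?_⟩
          have h3 : (0 : ℝ) ≤ ∑ i, S.ht (rv (Pi.single i 1)) ν :=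
            Finset.sum_nonneg fun i _ => ht_nonneg S _ ν
          rw [hbd hb ν]
          linarith
        · obtain ⟨a, -, ha⟩ := (Submodule.ne_bot_iff _).1 hX2
          exact h2 0 a ((hub hb).2 a ha)
      | succ j =>
        have h3 : X j.castSucc < ⊤ :=
          lt_of_lt_of_le (hX1 Fin.castSucc_lt_succ) le_top
        obtain ⟨a, -, ha⟩ := SetLike.exists_of_lt h3
        exact h2 j.succ a (hlow j a ha)
    choose C hC0 hC using h1
    refine ⟨∑ l, C (blk l), ?_⟩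
    filter_upwards [eventually_all.2 hC] with ν h3
    rw [Finset.sum_mul]
    exact Finset.sum_le_sum fun l _ => h3 (blk l)
  obtain ⟨C1, hC1⟩ := hsum
  refine ⟨𝓤, m, q, ⟨@Cfg.mk 𝓤 m q (S.map β) e L fL aL (mm β x) blk s (PT.VV 𝓤 (S.map β) blk s)
    (PT.Lam X β blk) bd (mm_ne_zero hx β) (Gn.map hx hGn β) (AD.map hx hAD β) ?_
    (Sat.map hsat β C1 hC1) s1 s2 ?_ ?_ (fun b hb => hb) PT.gr_Lam ?_ ?_ ?_ ?_ ?_⟩⟩
  · -- points of the variety
    filter_upwards [hOn] with ν h1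
    have h2 := OnY.map hx h1 β
    have h3 : (fun l => e ν ((S.map β).p ν l)) = mm β (P ν) := by
      funext l
      show e ν (mn (S.p ν) (β l)) = mn (P ν) (β l)
      rw [map_mn, hP ν]
    exact (congrArg (fun z => OnY (mm β x) z) h3).mpr h2
  · -- separation
    intro T
    filter_upwards [hsep T] with ν h1 i i' hi
    exact h1 _ _ hi
  · -- heights
    obtain ⟨C, hC⟩ := hht
    refine ⟨C, hC.mono fun ν h1 i => ?_⟩
    rw [CF.ht_map_single]
    exact h1 i
  · -- light characters are neutral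
    intro a ha
    show Tendsto (fun ν => (S.map β).ht (sc blk (s ν) (rv a)) ν) 𝓤 (𝓝 0)
    have h1 : Tendsto (fun ν => ∑ j, (s ν j)⁻¹ * S.ht (rv (cmb β (pj blk j a))) ν) 𝓤
        (𝓝 (∑ _j : Fin (q + 1), (0 : ℝ))) :=
      tendsto_finsetSum _ fun j _ => PT.light s3 hsep hup j _ (ha j)
    rw [Finset.sum_const_zero] at h1
    refine squeeze_zero (fun ν => ht_nonneg _ _ ν) (fun ν => ?_) h1
    rw [PT.sc_rv]
    refine (Map.ht_sum_le _ _ _ ν).trans (Finset.sum_le_sum fun j _ => ?_)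
    rw [ht_smul, abs_of_pos (inv_pos.2 (s4 ν j)), PT.map_ht_rv]
  · -- heavy characters
    intro j hj a ha haL hlim
    have h1 : cmb β a ∉ PT.low X j := fun h2 => haL ((PT.mem_Lam_bl ha).2 h2)
    have h2 : ∃ c : ℝ, 0 < c ∧ ∀ᶠ ν in (𝓤 : Filter ℕ), c * s ν j ≤ S.ht (rv (cmb β a)) ν := by
      induction j using Fin.cases with
      | zero =>
        have hb : ¬ bd := fun hb => hj hb rfl
        exact (hub hb).2 _ fun h3 => h1 (by rw [h3]; exact Submodule.zero_mem _)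
      | succ j => exact hlow j _ h1
    obtain ⟨c, hc, h3⟩ := h2
    have h4 := hlim.eventually (gt_mem_nhds hc)
    obtain ⟨ν, h5, h6⟩ := (h3.and h4).exists
    have h7 : (S.map β).ht (rv a) ν / s ν j < c := h6
    rw [PT.map_ht_rv, div_lt_iff₀ (s4 ν j)] at h7
    linarith
  · -- unbounded
    intro hb
    exact (hub hb).1
  · -- bounded
    intro hb
    refine ⟨hbd hb, fun a ha i hi => ?_, fun a ha ha0 => ?_, ?_⟩
    · have h1 : cmb β (pj blk 0 a) = 0 := by
        have := ha 0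
        rwa [PT.low_zero, Submodule.mem_bot] at this
      have h2 := c3 0 _ (CF.pj_mem 0 a) h1
      have h3 := congrFun h2 i
      simpa [pj, hi] using h3
    · rw [om_mm hx, ← rv_cmb]
      exact hcos _ fun h1 => ha0 (c3 0 a ha h1)
    · obtain ⟨a, ha, ha0⟩ := (Submodule.ne_bot_iff _).1 hX2
      obtain ⟨c, hc, rfl⟩ := c2 0 a ha
      by_contra hcon
      push Not at hcon
      apply ha0
      have h1 : c = 0 := by
        funext i
        exact hc i (hcon i)
      rw [h1, PT.cmb_zero']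
  · exact PT.psi_Lam c3 hx hX3 hm c1 c2 c2' hdm hV

end Pool.Agent.ZP
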