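import Pool.Agent.Lib.MP_c95b3b_ag_ZP.JA

set_option autoImplicit false

/-! Project ZP (MP_c95b3b_ag), block J: Laurent monomials in power series. -/

namespace Pool.Agent.ZP

open MvPolynomial Filter Topology Module Pool.Agent.L3 Pool.Agent.SD Pool.Agent.AL

namespace J

section units
variable {M : Type} [CommMonoid M]

theorem unit_zpow_val (u : Mˣ) (a : ℤ) :
    ((u ^ a : Mˣ) : M) = (u : M) ^ a.toNat * ((u⁻¹ : Mˣ) : M) ^ (-a).toNat := by
  rcases a with a | a
  · have h1 : (Int.ofNat a).toNat = a := rfl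
    have h2 : (-(Int.ofNat a)).toNat = 0 := by
      rw [Int.ofNat_eq_natCast]
      omega
    rw [h1, h2, pow_zero, mul_one, Int.ofNat_eq_natCast, zpow_natCast, Units.val_pow_eq_pow_val]
  · have h1 : (Int.negSucc a).toNat = 0 := rfl
    have h2 : (-(Int.negSucc a)).toNat = a + 1 := by
      rw [Int.negSucc_eq]
      omega
    rw [h1, h2, pow_zero, one_mul, zpow_negSucc, ← inv_pow, Units.val_pow_eq_pow_val]

end units

section psm
variable {K : Type} [Field K] {n : ℕ}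

/-- the unit given by a power series with constant coefficient different from `0` -/
noncomputable def un {n : ℕ} (f : MvPowerSeries (Fin n) K)
    (h : MvPowerSeries.constantCoeff f ≠ 0) : (MvPowerSeries (Fin n) K)ˣ :=
  ⟨f, f⁻¹, MvPowerSeries.mul_inv_cancel f h, MvPowerSeries.inv_mul_cancel f h⟩

theorem psm_eq (Ξ : Fin n → MvPowerSeries (Fin n) K)
    (h : ∀ i, MvPowerSeries.constantCoeff (Ξ i) ≠ 0) (a : Fin n → ℤ) :
    psm Ξ a = ((∏ i, (un (Ξ i) (h i)) ^ a i : (MvPowerSeries (Fin n) K)ˣ) :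
      MvPowerSeries (Fin n) K) := by
  rw [Units.coe_prod]
  exact Finset.prod_congr rfl fun i _ => (unit_zpow_val (un (Ξ i) (h i)) (a i)).symm

theorem psm_zero (Ξ : Fin n → MvPowerSeries (Fin n) K) : psm Ξ 0 = 1 := by
  refine Finset.prod_eq_one fun i _ => ?_
  rw [Pi.zero_apply, neg_zero, Int.toNat_zero, pow_zero, pow_zero, mul_one]

theorem psm_add (Ξ : Fin n → MvPowerSeries (Fin n) K)
    (h : ∀ i, MvPowerSeries.constantCoeff (Ξ i) ≠ 0) (a b : Fin n → ℤ) :
    psm Ξ (a + b) = psm Ξ a * psm Ξ b := by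
  rw [psm_eq Ξ h, psm_eq Ξ h, psm_eq Ξ h, ← Units.val_mul, ← Finset.prod_mul_distrib]
  congr 1
  exact Finset.prod_congr rfl fun i _ => by rw [Pi.add_apply, zpow_add]

theorem psm_ne_zero (Ξ : Fin n → MvPowerSeries (Fin n) K)
    (h : ∀ i, MvPowerSeries.constantCoeff (Ξ i) ≠ 0) (a : Fin n → ℤ) : psm Ξ a ≠ 0 := by
  rw [psm_eq Ξ h]
  exact Units.ne_zero _

theorem const_map {K' : Type} [Field K'] (e : K →+* K') (f : MvPowerSeries (Fin n) K)
    (h : MvPowerSeries.constantCoeff f ≠ 0) :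
    MvPowerSeries.constantCoeff (MvPowerSeries.map e f) ≠ 0 := by
  rw [← MvPowerSeries.coeff_zero_eq_constantCoeff_apply, MvPowerSeries.coeff_map,
    MvPowerSeries.coeff_zero_eq_constantCoeff_apply]
  exact (map_ne_zero e).mpr h

/-- the image of a Laurent monomial under a map of the coefficients -/
theorem map_psm {K' : Type} [Field K'] (e : K →+* K') (Ξ : Fin n → MvPowerSeries (Fin n) K)
    (h : ∀ i, MvPowerSeries.constantCoeff (Ξ i) ≠ 0) (a : Fin n → ℤ) :
    MvPowerSeries.map e (psm Ξ a) = psm (fun i => MvPowerSeries.map e (Ξ i)) a := by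
  rw [psm_eq Ξ h, psm_eq _ (fun i => const_map e (Ξ i) (h i))]
  have h1 : ∀ u : (MvPowerSeries (Fin n) K)ˣ, MvPowerSeries.map e (u : MvPowerSeries (Fin n) K) =
      ((Units.map (MvPowerSeries.map (σ := Fin n) e).toMonoidHom u :
        (MvPowerSeries (Fin n) K')ˣ) : MvPowerSeries (Fin n) K') := fun u => rfl
  rw [h1, map_prod]
  congr 1
  refine Finset.prod_congr rfl fun i _ => ?_
  rw [map_zpow]
  congr 1
  exact Units.ext rfl

/-- Laurent monomials in a field which contains the power series -/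
theorem algebraMap_psm {F : Type} [Field F] [Algebra (MvPowerSeries (Fin n) K) F]
    (Ξ : Fin n → MvPowerSeries (Fin n) K)
    (h : ∀ i, MvPowerSeries.constantCoeff (Ξ i) ≠ 0) (a : Fin n → ℤ) :
    algebraMap (MvPowerSeries (Fin n) K) F (psm Ξ a) =
      mn (fun i => algebraMap (MvPowerSeries (Fin n) K) F (Ξ i)) a := by
  rw [psm_eq Ξ h]
  have h1 : ∀ u : (MvPowerSeries (Fin n) K)ˣ,
      algebraMap (MvPowerSeries (Fin n) K) F (u : MvPowerSeries (Fin n) K) =
      ((Units.map (algebraMap (MvPowerSeries (Fin n) K) F).toMonoidHom u : Fˣ) : F) :=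
    fun u => rfl
  rw [h1, map_prod, Units.coe_prod]
  refine Finset.prod_congr rfl fun i _ => ?_
  rw [map_zpow, Units.val_zpow_eq_zpow_val]
  rfl

theorem in_psm {S : Fin n → Prop} (Ξ : Fin n → MvPowerSeries (Fin n) K)
    (h : ∀ i, MvPowerSeries.constantCoeff (Ξ i) ≠ 0) (a : Fin n → ℤ)
    (ha : ∀ i, a i ≠ 0 → In S (Ξ i)) : In S (psm Ξ a) := by
  refine In.prod _ _ fun i _ => ?_
  by_cases hi : a i = 0
  · rw [hi, neg_zero, Int.toNat_zero, pow_zero, pow_zero, mul_one]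
    exact In.one
  · exact ((ha i hi).pow _).mul (((ha i hi).inv (h i)).pow _)

end psm

/-- `Ξ l` is a series in the variables in the block of `l` -/
def Sepd {K : Type} [Field K] {n q : ℕ} (blk : Fin n → Fin (q + 1))
    (Ξ : Fin n → MvPowerSeries (Fin n) K) : Prop :=
  (∀ i, MvPowerSeries.constantCoeff (Ξ i) ≠ 0) ∧
    ∀ l γ, (∃ j, blk j ≠ blk l ∧ γ j ≠ 0) → MvPowerSeries.coeff γ (Ξ l) = 0

theorem Sepd.in_blk {K : Type} [Field K] {n q : ℕ} {blk : Fin n → Fin (q + 1)}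
    {Ξ : Fin n → MvPowerSeries (Fin n) K} (h : Sepd blk Ξ) (S : Fin n → Prop) (l : Fin n)
    (hS : ∀ j, blk j = blk l → S j) : In S (Ξ l) := by
  intro γ hγ
  apply h.2
  unfold Sup at hγ
  push Not at hγ
  obtain ⟨j, hj, hj'⟩ := hγ
  exact ⟨j, fun h' => hj' (hS j h'), hj⟩

theorem Sepd.map {K K' : Type} [Field K] [Field K'] {n q : ℕ} {blk : Fin n → Fin (q + 1)}
    {Ξ : Fin n → MvPowerSeries (Fin n) K} (h : Sepd blk Ξ) (e : K →+* K') :
    Sepd blk (fun i => MvPowerSeries.map e (Ξ i)) :=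
  ⟨fun i => const_map e (Ξ i) (h.1 i), fun l γ hγ => by
    rw [MvPowerSeries.coeff_map, h.2 l γ hγ, map_zero]⟩

theorem in_psm_zero {K : Type} [Field K] {n q : ℕ} {blk : Fin n → Fin (q + 1)}
    {Ξ : Fin n → MvPowerSeries (Fin n) K} (h : Sepd blk Ξ) (a : Fin n → ℤ) :
    In (fun j => blk j = 0) (psm Ξ (pj blk 0 a)) := by
  refine in_psm Ξ h.1 _ fun i hi => h.in_blk _ i ?_
  intro j hj
  have h1 : blk i = 0 := by
    by_contra hc
    exact hi (by simp [pj, hc])
  rw [hj, h1]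

theorem in_psm_pos {K : Type} [Field K] {n q : ℕ} {blk : Fin n → Fin (q + 1)}
    {Ξ : Fin n → MvPowerSeries (Fin n) K} (h : Sepd blk Ξ) (a : Fin n → ℤ) :
    In (fun j => ¬ blk j = 0) (psm Ξ (a - pj blk 0 a)) := by
  refine in_psm Ξ h.1 _ fun i hi => h.in_blk _ i ?_
  intro j hj
  have h1 : ¬ blk i = 0 := by
    intro hc
    exact hi (by simp [pj, hc])
  rw [hj]
  exact h1

end J

end Pool.Agent.ZP
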