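import Mathlib
import Pool.Agent.Lib.MP_c95b3b_ag_ZP.Defs
import Pool.Agent.Lib.MP_c95b3b_ag_SD.Map

set_option autoImplicit false

/-! Project ZP (MP_c95b3b_ag), module Lift: neutral lifts of the classes modulo the kernel of the
type, and the number of these classes. -/

namespace Pool.Agent.ZP.Lift

open Module Pool.Agent.SD

variable {n q t : ℕ}

/-- the kernel of `A` as a lattice -/
def kerA (A : (Fin n → ℤ) →+ (Fin t → ℤ)) : Submodule ℤ (Fin n → ℤ) :=
  AddSubgroup.toIntSubmodule A.ker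

theorem mem_kerA {A : (Fin n → ℤ) →+ (Fin t → ℤ)} {a : Fin n → ℤ} : a ∈ kerA A ↔ A a = 0 :=
  Iff.rfl

/-- the vectors whose part outside the block `0` lies in the kernel of `A` -/
def kerU (blk : Fin n → Fin (q + 1)) (A : (Fin n → ℤ) →+ (Fin t → ℤ)) :
    Submodule ℤ (Fin n → ℤ) where
  carrier := {a | A (a - pj blk 0 a) = 0}
  add_mem' := by
    intro a b ha hb
    have h : a + b - pj blk 0 (a + b) = (a - pj blk 0 a) + (b - pj blk 0 b) := by
      funext i
      simp only [pj, Pi.add_apply, Pi.sub_apply]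
      split_ifs <;> ring
    have h1 : A (a - pj blk 0 a) = 0 := ha
    have h2 : A (b - pj blk 0 b) = 0 := hb
    show A _ = 0
    rw [h, map_add, h1, h2, add_zero]
  zero_mem' := by
    have h : (0 : Fin n → ℤ) - pj blk 0 (0 : Fin n → ℤ) = 0 := by
      funext i
      simp [pj]
    show A _ = 0
    rw [h, map_zero]
  smul_mem' := by
    intro c a ha
    have h : c • a - pj blk 0 (c • a) = c • (a - pj blk 0 a) := by
      funext i
      simp only [pj, Pi.smul_apply, Pi.sub_apply, smul_eq_mul]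
      split_ifs <;> ring
    have h1 : A (a - pj blk 0 a) = 0 := ha
    show A _ = 0
    rw [h, map_zsmul, h1, smul_zero]

theorem mem_kerU {blk : Fin n → Fin (q + 1)} {A : (Fin n → ℤ) →+ (Fin t → ℤ)} {a : Fin n → ℤ} :
    a ∈ kerU blk A ↔ A (a - pj blk 0 a) = 0 := Iff.rfl

/-- every element of the real span is near to an element of the group -/
theorem exists_near (Λ : Submodule ℤ (Fin n → ℤ)) :
    ∃ C : ℝ, 0 < C ∧ ∀ y ∈ spR Λ, ∃ x ∈ Λ, ∀ i, |(x i : ℝ) - y i| ≤ C := by
  classical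
  obtain ⟨S, hS⟩ := IsNoetherian.noetherian (R := ℤ) Λ
  refine ⟨1 + ∑ g ∈ S, ∑ i, |(g i : ℝ)|, ?_, ?_⟩
  · have : 0 ≤ ∑ g ∈ S, ∑ i, |(g i : ℝ)| :=
      Finset.sum_nonneg fun g _ => Finset.sum_nonneg fun i _ => abs_nonneg _
    linarith
  · intro y hy
    have hsp : spR Λ ≤ Submodule.span ℝ (rv '' (S : Set (Fin n → ℤ))) := by
      rw [spR, Submodule.span_le]
      rintro _ ⟨x, hx, rfl⟩
      have hx' : x ∈ Submodule.span ℤ (S : Set (Fin n → ℤ)) := by
        rw [hS]
        exact hx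
      refine Submodule.span_induction (p := fun x _ => rv x ∈
        Submodule.span ℝ (rv '' (S : Set (Fin n → ℤ)))) ?_ ?_ ?_ ?_ hx'
      · intro z hz
        exact Submodule.subset_span ⟨z, hz, rfl⟩
      · rw [rv_zero]
        exact Submodule.zero_mem _
      · intro a b _ _ ha hb
        rw [rv_add]
        exact Submodule.add_mem _ ha hb
      · intro c a _ ha
        rw [rv_zsmul]
        exact Submodule.smul_mem _ _ ha
    have hy' := hsp hy
    rw [Submodule.mem_span_image_finset_iff_exists_fun] at hy'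
    obtain ⟨c, hc⟩ := hy'
    refine ⟨∑ g : S, ⌊c g⌋ • (g : Fin n → ℤ), ?_, ?_⟩
    · refine Submodule.sum_mem _ fun g _ => Submodule.smul_mem _ _ ?_
      have : (g : Fin n → ℤ) ∈ Submodule.span ℤ (S : Set (Fin n → ℤ)) :=
        Submodule.subset_span g.2
      rw [hS] at this
      exact this
    · intro i
      have h1 : y i = ∑ g : S, c g * ((g : Fin n → ℤ) i : ℝ) := by
        rw [← hc, Finset.sum_apply]
        exact Finset.sum_congr rfl fun g _ => by simp [rv]
      have h2 : (((∑ g : S, ⌊c g⌋ • (g : Fin n → ℤ)) i : ℤ) : ℝ) =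
          ∑ g : S, (⌊c g⌋ : ℝ) * ((g : Fin n → ℤ) i : ℝ) := by
        rw [Finset.sum_apply]
        push_cast
        exact Finset.sum_congr rfl fun g _ => by simp
      rw [h1, h2, ← Finset.sum_sub_distrib]
      refine (Finset.abs_sum_le_sum_abs _ _).trans ?_
      have h3 : ∀ g : S, |(⌊c g⌋ : ℝ) * ((g : Fin n → ℤ) i : ℝ) -
          c g * ((g : Fin n → ℤ) i : ℝ)| ≤ ∑ i, |((g : Fin n → ℤ) i : ℝ)| := by
        intro g
        rw [← sub_mul, abs_mul]
        have h4 : |(⌊c g⌋ : ℝ) - c g| ≤ 1 := by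
          rw [abs_sub_comm, abs_le]
          have := Int.floor_le (c g)
          have := (Int.lt_floor_add_one (c g)).le
          constructor <;> linarith
        calc |(⌊c g⌋ : ℝ) - c g| * |((g : Fin n → ℤ) i : ℝ)| ≤ 1 * |((g : Fin n → ℤ) i : ℝ)| :=
              mul_le_mul_of_nonneg_right h4 (abs_nonneg _)
          _ = |((g : Fin n → ℤ) i : ℝ)| := one_mul _
          _ ≤ _ := Finset.single_le_sum (f := fun i => |((g : Fin n → ℤ) i : ℝ)|)
              (fun i _ => abs_nonneg _) (Finset.mem_univ i)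
      have h5 := Finset.sum_le_sum fun (g : S) (_ : g ∈ Finset.univ) => h3 g
      have h6 : ∑ g : S, ∑ i, |((g : Fin n → ℤ) i : ℝ)| = ∑ g ∈ S, ∑ i, |(g i : ℝ)| :=
        Finset.sum_coe_sort S fun g => ∑ i, |(g i : ℝ)|
      linarith

/-- bounded decomposition -/
theorem exists_decomp (V W : Submodule ℝ (Fin n → ℝ)) (h : V ⊔ W = ⊤) :
    ∃ C : ℝ, 0 < C ∧ ∀ y : Fin n → ℝ, ∃ u ∈ V, ∃ k ∈ W, u + k = y ∧
      ∀ i, |u i| ≤ C * ∑ l, |y l| := by
  classical
  have hsurj : Function.Surjective (V.subtype.coprod W.subtype) := by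
    rw [← LinearMap.range_eq_top, LinearMap.range_coprod, Submodule.range_subtype,
      Submodule.range_subtype, h]
  obtain ⟨φ, hφ⟩ := LinearMap.exists_rightInverse_of_surjective _
    (LinearMap.range_eq_top.2 hsurj)
  refine ⟨1 + ∑ l, ∑ i, |((φ (Pi.single l 1)).1 : Fin n → ℝ) i|, ?_, ?_⟩
  · have : 0 ≤ ∑ l, ∑ i, |((φ (Pi.single l 1)).1 : Fin n → ℝ) i| :=
      Finset.sum_nonneg fun l _ => Finset.sum_nonneg fun i _ => abs_nonneg _
    linarith
  · intro y
    refine ⟨(φ y).1, (φ y).1.2, (φ y).2, (φ y).2.2, ?_, ?_⟩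
    · have := LinearMap.congr_fun hφ y
      simpa using this
    · intro i
      have h1 : y = ∑ l, y l • (Pi.single l (1 : ℝ) : Fin n → ℝ) := by
        ext k
        simp [Finset.sum_apply, Pi.single_apply]
      have h2 : ((φ y).1 : Fin n → ℝ) i = ∑ l, y l * ((φ (Pi.single l 1)).1 : Fin n → ℝ) i := by
        have h5 : ((V.subtype ∘ₗ LinearMap.fst ℝ V W ∘ₗ φ) y) i =
            ∑ l, y l * ((V.subtype ∘ₗ LinearMap.fst ℝ V W ∘ₗ φ) (Pi.single l 1)) i := by
          conv_lhs => rw [h1]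
          rw [map_sum, Finset.sum_apply]
          exact Finset.sum_congr rfl fun l _ => by
            rw [map_smul, Pi.smul_apply, smul_eq_mul]
        exact h5
      rw [h2]
      refine (Finset.abs_sum_le_sum_abs _ _).trans ?_
      rw [Finset.mul_sum]
      refine Finset.sum_le_sum fun l _ => ?_
      rw [abs_mul, mul_comm]
      refine mul_le_mul_of_nonneg_right ?_ (abs_nonneg _)
      have h3 : |((φ (Pi.single l 1)).1 : Fin n → ℝ) i| ≤
          ∑ i, |((φ (Pi.single l 1)).1 : Fin n → ℝ) i| :=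
        Finset.single_le_sum (f := fun i => |((φ (Pi.single l 1)).1 : Fin n → ℝ) i|)
          (fun i _ => abs_nonneg _) (Finset.mem_univ i)
      have h4 : ∑ i, |((φ (Pi.single l 1)).1 : Fin n → ℝ) i| ≤
          ∑ l, ∑ i, |((φ (Pi.single l 1)).1 : Fin n → ℝ) i| :=
        Finset.single_le_sum (f := fun l => ∑ i, |((φ (Pi.single l 1)).1 : Fin n → ℝ) i|)
          (fun l _ => Finset.sum_nonneg fun i _ => abs_nonneg _) (Finset.mem_univ l)
      linarith

/-- scaling of the blocks preserves the span of a graded lattice -/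
theorem spR_scale (blk : Fin n → Fin (q + 1)) (Λ : Submodule ℤ (Fin n → ℤ))
    (hgr : Gr blk Λ) (m : Fin (q + 1) → ℝ) :
    ∀ y ∈ spR Λ, (fun i => m (blk i) * y i) ∈ spR Λ := by
  intro y hy
  refine Submodule.span_induction (p := fun y _ => (fun i => m (blk i) * y i) ∈ spR Λ)
    ?_ ?_ ?_ ?_ hy
  · rintro _ ⟨x, hx, rfl⟩
    have h1 : (fun i => m (blk i) * rv x i) = ∑ j, m j • rv (pj blk j x) := by
      ext i
      simp [Finset.sum_apply, rv, pj]
    rw [h1]
    exact Submodule.sum_mem _ fun j _ => Submodule.smul_mem _ _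
      (Submodule.subset_span ⟨_, hgr x hx j, rfl⟩)
  · have : (fun i => m (blk i) * (0 : Fin n → ℝ) i) = 0 := by
      ext i
      simp
    rw [this]
    exact Submodule.zero_mem _
  · intro a b _ _ ha hb
    have : (fun i => m (blk i) * (a + b) i) =
        (fun i => m (blk i) * a i) + fun i => m (blk i) * b i := by
      ext i
      simp [mul_add]
    rw [this]
    exact Submodule.add_mem _ ha hb
  · intro c a _ ha
    have : (fun i => m (blk i) * (c • a) i) = c • fun i => m (blk i) * a i := by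
      ext i
      simp [mul_left_comm]
    rw [this]
    exact Submodule.smul_mem _ _ ha

/-- neutral lifts: every class modulo `Λ` of a vector whose size in the block `j` is at most
`c * m j` has a representative near to the multiple `m` of a bounded vector of `V` -/
theorem exists_lift (blk : Fin n → Fin (q + 1)) (Λ : Submodule ℤ (Fin n → ℤ))
    (hgr : Gr blk Λ) (V : Submodule ℝ (Fin n → ℝ)) (hV : V ⊔ spR Λ = ⊤) :
    ∃ C c : ℝ, 0 < C ∧ 0 < c ∧ ∀ m : Fin (q + 1) → ℝ, (∀ i, 0 < m (blk i)) → ∀ x : Fin n → ℤ,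
      (∀ i, |(x i : ℝ)| ≤ c * m (blk i)) →
      ∃ θ : Fin n → ℤ, θ - x ∈ Λ ∧ ∃ u ∈ V, (∀ i, |u i| ≤ 1) ∧
        ∀ i, |(θ i : ℝ) - m (blk i) * u i| ≤ C := by
  obtain ⟨C, hC, hnear⟩ := exists_near Λ
  obtain ⟨C', hC', hdec⟩ := exists_decomp V (spR Λ) hV
  refine ⟨C, 1 / (C' * (n + 1)), hC, by positivity, ?_⟩
  intro m hm x hx
  obtain ⟨u, hu, k, hk, huk, hub⟩ := hdec (fun i => (x i : ℝ) / m (blk i))
  obtain ⟨z, hz, hzk⟩ := hnear _ (spR_scale blk Λ hgr m k hk)
  refine ⟨x - z, ?_, u, hu, ?_, ?_⟩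
  · rw [sub_sub_cancel_left]
    exact Λ.neg_mem hz
  · intro i
    refine (hub i).trans ?_
    have h1 : ∑ l, |(x l : ℝ) / m (blk l)| ≤ ∑ _l : Fin n, 1 / (C' * ((n : ℝ) + 1)) := by
      refine Finset.sum_le_sum fun l _ => ?_
      rw [abs_div, abs_of_pos (hm l), div_le_iff₀ (hm _)]
      exact hx l
    rw [Finset.sum_const, Finset.card_univ, Fintype.card_fin, nsmul_eq_mul] at h1
    have h2 := mul_le_mul_of_nonneg_left h1 hC'.le
    refine h2.trans ?_
    have h3 : (0 : ℝ) ≤ n := Nat.cast_nonneg _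
    rw [mul_one_div, mul_div_assoc', div_le_one (by positivity)]
    nlinarith
  · intro i
    have h1 := congrFun huk i
    have h2 : (x i : ℝ) = m (blk i) * u i + m (blk i) * k i := by
      rw [← mul_add]
      have : u i + k i = (x i : ℝ) / m (blk i) := h1
      rw [this, mul_div_cancel₀ _ (hm _).ne']
    have h3 := hzk i
    have h4 : (((x - z) i : ℤ) : ℝ) - m (blk i) * u i = -((z i : ℝ) - m (blk i) * k i) := by
      simp only [Pi.sub_apply, Int.cast_sub]
      rw [h2]
      ring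
    rw [h4, abs_neg]
    exact h3

/-- the number of the neutral classes -/
theorem exists_classes (blk : Fin n → Fin (q + 1)) (Λ : Submodule ℤ (Fin n → ℤ))
    (hgr : Gr blk Λ) (V : Submodule ℝ (Fin n → ℝ)) (hV : V ⊔ spR Λ = ⊤)
    (J : Finset (Fin n)) (hJ : ∀ x ∈ Λ, (∀ i, i ∉ J → x i = 0) → x = 0) :
    ∃ C c : ℝ, 0 < C ∧ 0 < c ∧ ∀ m : Fin (q + 1) → ℝ, (∀ i, 0 < m (blk i)) →
      ∃ T : Finset (Fin n → ℤ), c * ∏ i ∈ J, m (blk i) ≤ T.card ∧
      (∀ θ ∈ T, ∃ u ∈ V, (∀ i, |u i| ≤ 1) ∧ ∀ i, |(θ i : ℝ) - m (blk i) * u i| ≤ C) ∧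
      ∀ θ ∈ T, ∀ θ' ∈ T, θ - θ' ∈ Λ → θ = θ' := by
  classical
  obtain ⟨C, c, hC, hc, hlift⟩ := exists_lift blk Λ hgr V hV
  refine ⟨C, c ^ J.card, hC, by positivity, ?_⟩
  intro m hm
  set B : Finset (Fin n → ℤ) := Fintype.piFinset fun i =>
    if i ∈ J then Finset.Icc (-⌊c * m (blk i)⌋) ⌊c * m (blk i)⌋ else {0} with hB
  have hfl : ∀ i, 0 ≤ ⌊c * m (blk i)⌋ := fun i =>
    Int.floor_nonneg.2 (mul_nonneg hc.le (hm _).le)
  have hBx : ∀ x ∈ B, (∀ i, |(x i : ℝ)| ≤ c * m (blk i)) ∧ ∀ i, i ∉ J → x i = 0 := by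
    intro x hx
    rw [hB, Fintype.mem_piFinset] at hx
    refine ⟨fun i => ?_, fun i hi => ?_⟩
    · have h1 := hx i
      by_cases hi : i ∈ J
      · rw [if_pos hi, Finset.mem_Icc] at h1
        have h2 : |x i| ≤ ⌊c * m (blk i)⌋ := abs_le.2 h1
        have h3 : ((|x i| : ℤ) : ℝ) ≤ c * m (blk i) := (Int.le_floor).1 h2
        rwa [Int.cast_abs] at h3
      · rw [if_neg hi, Finset.mem_singleton] at h1
        rw [h1]
        simpa using (mul_nonneg hc.le (hm _).le)
    · have h1 := hx i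
      rw [if_neg hi, Finset.mem_singleton] at h1
      exact h1
  choose! θ hθ1 hθ2 using fun x (hx : x ∈ B) => hlift m hm x (hBx x hx).1
  have hinj : Set.InjOn θ B := by
    intro x hx y hy hxy
    have h1 : x - y ∈ Λ := by
      have := Λ.sub_mem (hθ1 y hy) (hθ1 x hx)
      rw [hxy] at this
      simpa using this
    have h2 := hJ _ h1 fun i hi => by
      rw [Pi.sub_apply, (hBx x hx).2 i hi, (hBx y hy).2 i hi, sub_zero]
    exact sub_eq_zero.1 h2
  refine ⟨B.image θ, ?_, ?_, ?_⟩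
  · rw [Finset.card_image_of_injOn hinj, hB, Fintype.card_piFinset]
    have h1 : ∀ i, (if i ∈ J then Finset.Icc (-⌊c * m (blk i)⌋) ⌊c * m (blk i)⌋
        else ({0} : Finset ℤ)).card = if i ∈ J then (2 * ⌊c * m (blk i)⌋ + 1).toNat else 1 := by
      intro i
      split_ifs
      · rw [Int.card_Icc]
        congr 1
        ring
      · exact Finset.card_singleton 0
    rw [Finset.prod_congr rfl fun i _ => h1 i, Finset.prod_ite_mem, Finset.univ_inter]
    rw [← Finset.prod_const, ← Finset.prod_mul_distrib]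
    push_cast
    refine Finset.prod_le_prod (fun i _ => mul_nonneg hc.le (hm _).le) fun i _ => ?_
    have h2 : (((2 * ⌊c * m (blk i)⌋ + 1).toNat : ℕ) : ℝ) =
        2 * (⌊c * m (blk i)⌋ : ℝ) + 1 := by
      have h3 : ((2 * ⌊c * m (blk i)⌋ + 1).toNat : ℤ) = 2 * ⌊c * m (blk i)⌋ + 1 :=
        Int.toNat_of_nonneg (by linarith [hfl i])
      exact_mod_cast h3
    rw [h2]
    have h4 := (Int.lt_floor_add_one (c * m (blk i))).le
    have h5 : (0 : ℝ) ≤ (⌊c * m (blk i)⌋ : ℝ) := by exact_mod_cast hfl i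
    linarith
  · intro t ht
    obtain ⟨x, hx, rfl⟩ := Finset.mem_image.1 ht
    exact hθ2 x hx
  · intro t ht t' ht' h
    obtain ⟨x, hx, rfl⟩ := Finset.mem_image.1 ht
    obtain ⟨y, hy, rfl⟩ := Finset.mem_image.1 ht'
    have h1 : x - y ∈ Λ := by
      have h2 := Λ.sub_mem (Λ.add_mem h (hθ1 y hy)) (hθ1 x hx)
      have h3 : θ x - θ y + (θ y - y) - (θ x - x) = x - y := by abel
      rwa [h3] at h2
    have h2 := hJ _ h1 fun i hi => by
      rw [Pi.sub_apply, (hBx x hx).2 i hi, (hBx y hy).2 i hi, sub_zero]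
    rw [sub_eq_zero.1 h2]

/-! ### The kernel of a type -/

theorem apply_eq (A : (Fin n → ℤ) →+ (Fin t → ℤ)) (a : Fin n → ℤ) :
    A a = ∑ l, a l • A (Pi.single l 1) := by
  have h : a = ∑ l, a l • (Pi.single l 1 : Fin n → ℤ) := by
    funext j
    simp [Finset.sum_apply, Pi.single_apply]
  conv_lhs => rw [h]
  rw [map_sum]
  exact Finset.sum_congr rfl fun l _ => map_zsmul A _ _

/-- the real kernel of a surjective homomorphism is spanned by the integral kernel -/
theorem mem_spR_kerA {A : (Fin n → ℤ) →+ (Fin t → ℤ)} (hA : Function.Surjective A)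
    {v : Fin n → ℝ} (hv : AR A v = 0) : v ∈ spR (kerA A) := by
  choose b hb using fun i : Fin t => hA (Pi.single i 1)
  have h1 : v = ∑ l, v l • rv (Pi.single l 1 - ∑ i, A (Pi.single l 1) i • b i) := by
    funext k
    have h2 : ∑ l, v l * (∑ i, (A (Pi.single l 1) i : ℝ) * (b i k : ℝ)) = 0 := by
      have h3 : ∑ l, v l * (∑ i, (A (Pi.single l 1) i : ℝ) * (b i k : ℝ)) =
          ∑ i, AR A v i * (b i k : ℝ) := by
        simp only [AR, Finset.mul_sum, Finset.sum_mul]
        rw [Finset.sum_comm]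
        exact Finset.sum_congr rfl fun i _ => Finset.sum_congr rfl fun l _ => by ring
      rw [h3, hv]
      simp
    have h4 : (∑ l, v l • rv (Pi.single l 1 - ∑ i, A (Pi.single l 1) i • b i)) k =
        ∑ l, v l * ((Pi.single l (1 : ℝ) : Fin n → ℝ) k) -
        ∑ l, v l * (∑ i, (A (Pi.single l 1) i : ℝ) * (b i k : ℝ)) := by
      rw [Finset.sum_apply, ← Finset.sum_sub_distrib]
      refine Finset.sum_congr rfl fun l _ => ?_
      rw [Pi.smul_apply, smul_eq_mul, ← mul_sub, rv_sub, rv_single, Pi.sub_apply]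
      congr 2
      rw [rv, Finset.sum_apply, Int.cast_sum]
      exact Finset.sum_congr rfl fun i _ => by rw [Pi.smul_apply, smul_eq_mul, Int.cast_mul]
    rw [h4, h2, sub_zero, Finset.sum_eq_single k]
    · rw [Pi.single_eq_same, mul_one]
    · intro l _ hl
      rw [Pi.single_eq_of_ne hl.symm, mul_zero]
    · intro h
      exact absurd (Finset.mem_univ k) h
  rw [h1]
  refine Submodule.sum_mem _ fun l _ => Submodule.smul_mem _ _ (Submodule.subset_span ⟨_, ?_, rfl⟩)
  show A _ = 0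
  rw [map_sub, map_sum, sub_eq_zero]
  funext j
  rw [Finset.sum_apply, Finset.sum_eq_single j]
  · rw [map_zsmul, hb, Pi.smul_apply, Pi.single_eq_same, smul_eq_mul, mul_one]
  · intro i _ hi
    rw [map_zsmul, hb, Pi.smul_apply, Pi.single_eq_of_ne hi.symm, smul_zero]
  · intro h
    exact absurd (Finset.mem_univ j) h

theorem AR_sub (A : (Fin n → ℤ) →+ (Fin t → ℤ)) (v w : Fin n → ℝ) :
    AR A (v - w) = AR A v - AR A w := by
  funext i
  simp only [AR, Pi.sub_apply, ← Finset.sum_sub_distrib]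
  exact Finset.sum_congr rfl fun l _ => by ring

theorem AR_sum_smul (A : (Fin n → ℤ) →+ (Fin t → ℤ)) {κ : Type} (s : Finset κ) (c : κ → ℝ)
    (v : κ → Fin n → ℝ) : AR A (∑ k ∈ s, c k • v k) = ∑ k ∈ s, c k • AR A (v k) := by
  funext i
  simp only [AR, Finset.sum_apply, Pi.smul_apply, smul_eq_mul, Finset.sum_mul, Finset.mul_sum]
  rw [Finset.sum_comm]
  exact Finset.sum_congr rfl fun l _ => Finset.sum_congr rfl fun k _ => by ring

/-- a space containing vectors with independent values, and the kernel, span everything -/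
theorem sup_eq_top {A : (Fin n → ℤ) →+ (Fin t → ℤ)} (hA : Function.Surjective A)
    (V : Submodule ℝ (Fin n → ℝ)) (α : Fin t → Fin n → ℝ) (hα : ∀ i, α i ∈ V)
    (hli : LinearIndependent ℝ (fun i => AR A (α i))) : V ⊔ spR (kerA A) = ⊤ := by
  rw [eq_top_iff]
  intro y _
  have hspan : Submodule.span ℝ (Set.range fun i => AR A (α i)) = ⊤ :=
    hli.span_eq_top_of_card_eq_finrank' (by simp)
  have h1 : AR A y ∈ Submodule.span ℝ (Set.range fun i => AR A (α i)) := by
    rw [hspan]
    trivial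
  obtain ⟨c, hc⟩ := (Submodule.mem_span_range_iff_exists_fun ℝ).1 h1
  have h2 : AR A (y - ∑ i, c i • α i) = 0 := by
    rw [AR_sub, AR_sum_smul, hc, sub_self]
  have h3 : y = ∑ i, c i • α i + (y - ∑ i, c i • α i) := by abel
  rw [h3]
  exact Submodule.add_mem_sup (Submodule.sum_mem _ fun i _ => V.smul_mem _ (hα i))
    (mem_spR_kerA hA h2)

theorem kerA_le_kerU {blk : Fin n → Fin (q + 1)} {A : (Fin n → ℤ) →+ (Fin t → ℤ)}
    (hgr : Gr blk (kerA A)) : kerA A ≤ kerU blk A := by
  intro a ha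
  have h1 : A a = 0 := ha
  have h2 : A (pj blk 0 a) = 0 := hgr a ha 0
  show A _ = 0
  rw [map_sub, h1, h2, sub_zero]

theorem Gr_kerU {blk : Fin n → Fin (q + 1)} {A : (Fin n → ℤ) →+ (Fin t → ℤ)}
    (hgr : Gr blk (kerA A)) : Gr blk (kerU blk A) := by
  intro a ha j
  have h1 : a - pj blk 0 a ∈ kerA A := ha
  have h2 := hgr _ h1 j
  show A _ = 0
  have h3 : pj blk j a - pj blk 0 (pj blk j a) = pj blk j (a - pj blk 0 a) := by
    funext i
    simp only [pj, Pi.sub_apply]
    split_ifs <;> simp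
  rw [h3]
  exact h2

theorem spR_mono {Λ Λ' : Submodule ℤ (Fin n → ℤ)} (h : Λ ≤ Λ') : spR Λ ≤ spR Λ' :=
  Submodule.span_mono (Set.image_mono h)

/-- a set of coordinates which is a basis for the values, with the right number of elements in
each block -/
theorem exists_J {A : (Fin n → ℤ) →+ (Fin t → ℤ)} (hA : Function.Surjective A)
    (blk : Fin n → Fin (q + 1)) (I : Finset (Fin n)) (hI : I.card = t)
    (hrk : ∀ (j : Fin (q + 1)) (J : Finset (Fin n)), (∀ i ∈ J, blk i = j) →
      (∀ x : Fin n → ℤ, (∀ i, i ∉ J → x i = 0) → A x = 0 → x = 0) →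
      J.card ≤ (I.filter fun i => blk i = j).card) :
    ∃ J : Finset (Fin n), (∀ x : Fin n → ℤ, (∀ i, i ∉ J → x i = 0) → A x = 0 → x = 0) ∧
      ∀ j, (J.filter fun i => blk i = j).card = (I.filter fun i => blk i = j).card := by
  classical
  -- a basis of the real values among the values of the coordinates
  have hspan : Submodule.span ℝ (Set.range fun l : Fin n =>
      (fun i => (A (Pi.single l 1) i : ℝ) : Fin t → ℝ)) = ⊤ := by
    rw [eq_top_iff]
    intro y _
    choose b hb using fun i : Fin t => hA (Pi.single i 1)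
    have h1 : y = ∑ l, (∑ i, y i * (b i l : ℝ)) •
        (fun i => (A (Pi.single l 1) i : ℝ) : Fin t → ℝ) := by
      funext k
      rw [Finset.sum_apply]
      simp only [Pi.smul_apply, smul_eq_mul, Finset.sum_mul]
      rw [Finset.sum_comm]
      have h2 : ∀ i, ∑ l, y i * (b i l : ℝ) * (A (Pi.single l 1) k : ℝ) =
          y i * ((Pi.single i (1 : ℤ) : Fin t → ℤ) k : ℝ) := by
        intro i
        have h3 := congrFun (apply_eq A (b i)) k
        rw [hb, Finset.sum_apply] at h3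
        rw [h3]
        push_cast
        rw [Finset.mul_sum]
        refine Finset.sum_congr rfl fun l _ => ?_
        simp [mul_assoc]
      rw [Finset.sum_congr rfl fun i _ => h2 i, Finset.sum_eq_single k]
      · simp
      · intro i _ hi
        rw [Pi.single_eq_of_ne hi.symm]
        simp
      · intro h
        exact absurd (Finset.mem_univ k) h
    rw [h1]
    exact Submodule.sum_mem _ fun l _ => Submodule.smul_mem _ _
      (Submodule.subset_span ⟨l, rfl⟩)
  set v : Fin n → (Fin t → ℝ) := fun l => (fun i => (A (Pi.single l 1) i : ℝ)) with hv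
  obtain ⟨b, -, -, hsp, hli⟩ := exists_linearIndepOn_extension (K := ℝ) (v := v)
    (linearIndepOn_empty ℝ v) (Set.empty_subset Set.univ)
  set J : Finset (Fin n) := b.toFinset with hJdef
  have hJb : (J : Set (Fin n)) = b := Set.coe_toFinset b
  have hli' : LinearIndependent ℝ (fun l : J => v l) := by
    have h1 : LinearIndepOn ℝ v (J : Set (Fin n)) := by
      rw [hJb]
      exact hli
    exact h1
  have htop : Submodule.span ℝ (v '' b) = ⊤ := by
    rw [eq_top_iff, ← hspan, Submodule.span_le]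
    rw [Set.image_univ] at hsp
    exact hsp
  have hcard : J.card = t := by
    have h1 : Submodule.span ℝ (Set.range fun l : J => v l) = ⊤ := by
      rw [← htop]
      congr 1
      ext y
      constructor
      · rintro ⟨l, rfl⟩
        exact ⟨l, by rw [← hJb]; exact l.2, rfl⟩
      · rintro ⟨l, hl, rfl⟩
        rw [← hJb] at hl
        exact ⟨⟨l, hl⟩, rfl⟩
    have h2 := Module.finrank_eq_card_basis (Module.Basis.mk hli' h1.ge)
    rw [Module.finrank_fin_fun, Fintype.card_coe] at h2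
    exact h2.symm
  have hker : ∀ x : Fin n → ℤ, (∀ i, i ∉ J → x i = 0) → A x = 0 → x = 0 := by
    intro x hx hAx
    have h1 : ∑ l : J, (x l : ℝ) • v l = 0 := by
      funext i
      rw [Finset.sum_apply]
      have h2 := congrFun (apply_eq A x) i
      rw [hAx, Finset.sum_apply] at h2
      have h3 : ∑ l, ((x l : ℝ) • v l) i = 0 := by
        have h4 : ((0 : Fin t → ℤ) i : ℝ) = 0 := by simp
        rw [h2] at h4
        rw [← h4]
        push_cast
        refine Finset.sum_congr rfl fun l _ => ?_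
        simp [hv]
      have h5 : ∑ l : J, ((x l : ℝ) • v l) i = ∑ l ∈ J, ((x l : ℝ) • v l) i :=
        Finset.sum_coe_sort J fun l => ((x l : ℝ) • v l) i
      rw [h5, Pi.zero_apply, ← h3]
      refine Finset.sum_subset (Finset.subset_univ J) fun l _ hl => ?_
      rw [hx l hl]
      simp
    have h2 := Fintype.linearIndependent_iff.1 hli' _ h1
    funext i
    by_cases hi : i ∈ J
    · have h3 := h2 ⟨i, hi⟩
      exact_mod_cast h3
    · exact hx i hi
  refine ⟨J, hker, ?_⟩
  have hle : ∀ j, (J.filter fun i => blk i = j).card ≤ (I.filter fun i => blk i = j).card := by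
    intro j
    refine hrk j _ (fun i hi => (Finset.mem_filter.1 hi).2) fun x hx => hker x fun i hi => ?_
    exact hx i fun h => hi (Finset.mem_filter.1 h).1
  have hsum : ∀ K : Finset (Fin n), K.card = ∑ j, (K.filter fun i => blk i = j).card := fun K =>
    Finset.card_eq_sum_card_fiberwise fun i _ => Finset.mem_univ (blk i)
  have heq : ∑ j, (J.filter fun i => blk i = j).card = ∑ j, (I.filter fun i => blk i = j).card := by
    rw [← hsum, ← hsum, hcard, hI]
  intro j
  exact (Finset.sum_eq_sum_iff_of_le fun j _ => hle j).1 heq j (Finset.mem_univ j)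

/-- products over sets with the same number of elements in each block -/
theorem prod_blk_eq {I J : Finset (Fin n)} (blk : Fin n → Fin (q + 1))
    (h : ∀ j, (J.filter fun i => blk i = j).card = (I.filter fun i => blk i = j).card)
    (m : Fin (q + 1) → ℝ) : ∏ i ∈ J, m (blk i) = ∏ i ∈ I, m (blk i) := by
  have h1 : ∀ K : Finset (Fin n), ∏ i ∈ K, m (blk i) =
      ∏ j, m j ^ (K.filter fun i => blk i = j).card := by
    intro K
    rw [← Finset.prod_fiberwise_of_maps_to (g := blk) (t := Finset.univ)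
      (fun i _ => Finset.mem_univ _)]
    refine Finset.prod_congr rfl fun j _ => ?_
    rw [Finset.prod_congr rfl (g := fun _ => m j)
      (fun i hi => by rw [(Finset.mem_filter.1 hi).2]), Finset.prod_const]
  rw [h1, h1]
  exact Finset.prod_congr rfl fun j _ => by rw [h j]

/-- the same for the coordinates outside the block `0` -/
theorem prod_blk_eq' {I J : Finset (Fin n)} (blk : Fin n → Fin (q + 1))
    (h : ∀ j, (J.filter fun i => blk i = j).card = (I.filter fun i => blk i = j).card)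
    (m : Fin (q + 1) → ℝ) :
    ∏ i ∈ J.filter (fun i => blk i ≠ 0), m (blk i) =
      ∏ i ∈ I.filter (fun i => blk i ≠ 0), m (blk i) := by
  refine prod_blk_eq blk (fun j => ?_) m
  have h1 : ∀ K : Finset (Fin n), ((K.filter fun i => blk i ≠ 0).filter fun i => blk i = j).card =
      if j = 0 then 0 else (K.filter fun i => blk i = j).card := by
    intro K
    rw [Finset.filter_filter]
    split_ifs with hj
    · rw [Finset.card_eq_zero, Finset.filter_eq_empty_iff]
      rintro i _ ⟨h1, h2⟩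
      exact h1 (h2.trans hj)
    · congr 1
      ext i
      simp only [Finset.mem_filter]
      constructor
      · rintro ⟨h1, _, h3⟩
        exact ⟨h1, h3⟩
      · rintro ⟨h1, h3⟩
        exact ⟨h1, fun h4 => hj (h3.symm.trans h4), h3⟩
  rw [h1, h1, h j]

/-- **Neutral classes**, all blocks: there are at least `c * ∏ i ∈ I, m (blk i)` vectors `θ`,
pairwise different modulo the kernel of `A`, with `|θ i - m (blk i) * u i| ≤ C`, `u ∈ V`,
`|u i| ≤ 1`. -/
theorem classes {A : (Fin n → ℤ) →+ (Fin t → ℤ)} (hA : Function.Surjective A)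
    (blk : Fin n → Fin (q + 1)) (hgr : Gr blk (kerA A)) (V : Submodule ℝ (Fin n → ℝ))
    (α : Fin t → Fin n → ℝ) (hα : ∀ i, α i ∈ V)
    (hli : LinearIndependent ℝ (fun i => AR A (α i)))
    (I : Finset (Fin n)) (hI : I.card = t)
    (hrk : ∀ (j : Fin (q + 1)) (J : Finset (Fin n)), (∀ i ∈ J, blk i = j) →
      (∀ x : Fin n → ℤ, (∀ i, i ∉ J → x i = 0) → A x = 0 → x = 0) →
      J.card ≤ (I.filter fun i => blk i = j).card) :
    ∃ C c : ℝ, 0 < C ∧ 0 < c ∧ ∀ m : Fin (q + 1) → ℝ, (∀ i, 0 < m (blk i)) →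
      ∃ T : Finset (Fin n → ℤ), c * ∏ i ∈ I, m (blk i) ≤ T.card ∧
      (∀ θ ∈ T, ∃ u ∈ V, (∀ i, |u i| ≤ 1) ∧ ∀ i, |(θ i : ℝ) - m (blk i) * u i| ≤ C) ∧
      ∀ θ ∈ T, ∀ θ' ∈ T, A θ = A θ' → θ = θ' := by
  obtain ⟨J, hJ1, hJ2⟩ := exists_J hA blk I hI hrk
  obtain ⟨C, c, hC, hc, h⟩ := exists_classes blk (kerA A) hgr V (sup_eq_top hA V α hα hli) J
    fun x hx hx' => hJ1 x hx' hx
  refine ⟨C, c, hC, hc, fun m hm => ?_⟩
  obtain ⟨T, h1, h2, h3⟩ := h m hm
  refine ⟨T, ?_, h2, fun θ hθ θ' hθ' hA' => h3 θ hθ θ' hθ' ?_⟩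
  · rw [← prod_blk_eq blk hJ2]
    exact h1
  · rw [mem_kerA, map_sub, hA', sub_self]

/-- **Neutral classes**, blocks different from `0`: there are at least
`c * ∏ i ∈ I, m (blk i)` (product over the `i` with `blk i ≠ 0`) vectors `θ`, pairwise different
modulo the vectors whose part outside the block `0` lies in the kernel of `A`, with
`|θ i - m (blk i) * u i| ≤ C`, `u ∈ V`, `|u i| ≤ 1`. -/
theorem classes_u {A : (Fin n → ℤ) →+ (Fin t → ℤ)} (hA : Function.Surjective A)
    (blk : Fin n → Fin (q + 1)) (hgr : Gr blk (kerA A)) (V : Submodule ℝ (Fin n → ℝ))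
    (α : Fin t → Fin n → ℝ) (hα : ∀ i, α i ∈ V)
    (hli : LinearIndependent ℝ (fun i => AR A (α i)))
    (I : Finset (Fin n)) (hI : I.card = t)
    (hrk : ∀ (j : Fin (q + 1)) (J : Finset (Fin n)), (∀ i ∈ J, blk i = j) →
      (∀ x : Fin n → ℤ, (∀ i, i ∉ J → x i = 0) → A x = 0 → x = 0) →
      J.card ≤ (I.filter fun i => blk i = j).card) :
    ∃ C c : ℝ, 0 < C ∧ 0 < c ∧ ∀ m : Fin (q + 1) → ℝ, (∀ i, 0 < m (blk i)) →
      ∃ T : Finset (Fin n → ℤ),
      c * ∏ i ∈ I.filter (fun i => blk i ≠ 0), m (blk i) ≤ T.card ∧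
      (∀ θ ∈ T, ∃ u ∈ V, (∀ i, |u i| ≤ 1) ∧ ∀ i, |(θ i : ℝ) - m (blk i) * u i| ≤ C) ∧
      ∀ θ ∈ T, ∀ θ' ∈ T, A (θ - pj blk 0 θ) = A (θ' - pj blk 0 θ') → θ = θ' := by
  obtain ⟨J, hJ1, hJ2⟩ := exists_J hA blk I hI hrk
  have hV : V ⊔ spR (kerU blk A) = ⊤ := by
    rw [eq_top_iff, ← sup_eq_top hA V α hα hli]
    exact sup_le_sup_left (spR_mono (kerA_le_kerU hgr)) V
  obtain ⟨C, c, hC, hc, h⟩ := exists_classes blk (kerU blk A) (Gr_kerU hgr) V hV
    (J.filter fun i => blk i ≠ 0) (by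
      intro x hx hx'
      have h1 : pj blk 0 x = 0 := by
        funext i
        rw [pj]
        split_ifs with hi
        · exact hx' i fun h => (Finset.mem_filter.1 h).2 hi
        · rfl
      have h2 : A (x - pj blk 0 x) = 0 := hx
      rw [h1, sub_zero] at h2
      exact hJ1 x (fun i hi => hx' i fun h => hi (Finset.mem_filter.1 h).1) h2)
  refine ⟨C, c, hC, hc, fun m hm => ?_⟩
  obtain ⟨T, h1, h2, h3⟩ := h m hm
  refine ⟨T, ?_, h2, fun θ hθ θ' hθ' hA' => h3 θ hθ θ' hθ' ?_⟩
  · rw [← prod_blk_eq' blk hJ2]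
    exact h1
  · rw [mem_kerU]
    have h4 : θ - θ' - pj blk 0 (θ - θ') = (θ - pj blk 0 θ) - (θ' - pj blk 0 θ') := by
      funext i
      simp only [pj, Pi.sub_apply]
      split_ifs <;> ring
    rw [h4, map_sub, hA', sub_self]

end Pool.Agent.ZP.Lift
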