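import Mathlib
import Pool.Agent.Lib.MP_c95b3b_ag_ZP.Defs
import Pool.Agent.Lib.MP_c95b3b_ag_ZP.Lift

set_option autoImplicit false

/-! Project ZP, block NL: neutral lifts of classes, the neutral error function. -/

namespace Pool.Agent.ZP

open Module Filter Topology Pool.Agent.L3 Pool.Agent.SD

namespace NL

/-- the real kernel of an integral homomorphism is spanned by its integral kernel -/
theorem mem_spR {n t : ℕ} (B : (Fin n → ℤ) →+ (Fin t → ℤ)) {v : Fin n → ℝ} (hv : AR B v = 0) :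
    v ∈ spR (Lift.kerA B) := by
  classical
  set P : Submodule ℤ (Fin t → ℤ) := LinearMap.range B.toIntLinearMap with hP
  have hmem : ∀ a, B a ∈ P := fun a => ⟨a, rfl⟩
  set b := Module.finBasis ℤ P with hb
  let B' : (Fin n → ℤ) →+ (Fin (finrank ℤ P) → ℤ) :=
    { toFun := fun a => b.equivFun ⟨B a, hmem a⟩
      map_zero' := by
        have h : (⟨B 0, hmem 0⟩ : P) = 0 := Subtype.ext (map_zero B)
        rw [h, map_zero]
      map_add' := by
        intro x y
        have h : (⟨B (x + y), hmem (x + y)⟩ : P) = ⟨B x, hmem x⟩ + ⟨B y, hmem y⟩ :=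
          Subtype.ext (map_add B x y)
        rw [h, map_add] }
  have hB' : ∀ a, B a = ∑ i, B' a i • (b i : Fin t → ℤ) := by
    intro a
    have h1 := b.sum_equivFun ⟨B a, hmem a⟩
    have h2 := congrArg (Subtype.val) h1
    rw [Submodule.coe_sum] at h2
    exact h2.symm
  have hsurj : Function.Surjective B' := by
    intro y
    obtain ⟨a, ha⟩ : ∃ a, B a = ((b.equivFun.symm y : P) : Fin t → ℤ) := by
      obtain ⟨a, ha⟩ := (b.equivFun.symm y).2
      exact ⟨a, ha⟩
    refine ⟨a, ?_⟩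
    have h : (⟨B a, hmem a⟩ : P) = b.equivFun.symm y := Subtype.ext ha
    show b.equivFun ⟨B a, hmem a⟩ = y
    rw [h, LinearEquiv.apply_symm_apply]
  have hli : LinearIndependent ℤ (fun i => (b i : Fin t → ℤ)) :=
    b.linearIndependent.map' P.subtype (Submodule.ker_subtype P)
  have hliR := rv_linearIndependent hli
  have h1 : ∑ i, AR B' v i • rv (b i : Fin t → ℤ) = 0 := by
    funext j
    rw [← hv, Finset.sum_apply]
    simp only [AR, Pi.smul_apply, smul_eq_mul, Finset.sum_mul]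
    rw [Finset.sum_comm]
    refine Finset.sum_congr rfl fun l _ => ?_
    have h2 := congrFun (hB' (Pi.single l 1)) j
    rw [Finset.sum_apply] at h2
    rw [h2]
    push_cast
    rw [Finset.mul_sum]
    exact Finset.sum_congr rfl fun i _ => by
      simp [rv, mul_assoc]
  have h2 : AR B' v = 0 := by
    funext i
    exact Fintype.linearIndependent_iff.1 hliR _ h1 i
  refine Lift.spR_mono ?_ (Lift.mem_spR_kerA hsurj h2)
  intro a ha
  have h3 : B' a = 0 := ha
  show B a = 0
  rw [hB' a, h3]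
  simp

end NL

/-- Every class modulo the kernel of `B` has a representative near `D • V`. -/
theorem lift {n q t : ℕ} (blk : Fin n → Fin (q + 1)) (B : (Fin n → ℤ) →+ (Fin t → ℤ))
    (hB : ∀ a, B a = 0 → ∀ j, B (pj blk j a) = 0) (V : Submodule ℝ (Fin n → ℝ))
    (hV : ∀ u : Fin n → ℝ, ∃ v ∈ V, AR B v = AR B u) :
    ∃ C : ℝ, 0 < C ∧ ∀ D : Fin (q + 1) → ℝ, (∀ j, 1 ≤ D j) → ∀ a : Fin n → ℤ,
      (∀ i, |(a i : ℝ)| ≤ D (blk i)) → ∃ (θ : Fin n → ℤ) (v : Fin n → ℝ), v ∈ V ∧ B θ = B a ∧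
        (∀ i, |v i| ≤ C) ∧ ∀ i, |(θ i : ℝ) - D (blk i) * v i| ≤ C := by
  have htop : V ⊔ spR (Lift.kerA B) = ⊤ := by
    rw [eq_top_iff]
    intro u _
    obtain ⟨v, hv, hvu⟩ := hV u
    have h1 : AR B (u - v) = 0 := by
      rw [Lift.AR_sub, hvu, sub_self]
    have h2 : u = v + (u - v) := by abel
    rw [h2]
    exact Submodule.add_mem_sup hv (NL.mem_spR B h1)
  obtain ⟨C, c, hC, hc, h⟩ := Lift.exists_lift blk (Lift.kerA B) (fun a ha j => hB a ha j) V htop
  refine ⟨max C (1 / c), lt_max_of_lt_left hC, ?_⟩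
  intro D hD a ha
  obtain ⟨θ, hθ, u, hu, hu1, hu2⟩ := h (fun j => D j / c) (fun i => div_pos
    (lt_of_lt_of_le one_pos (hD _)) hc) a (fun i => by
      rw [mul_div_cancel₀ _ hc.ne']
      exact ha i)
  refine ⟨θ, (1 / c) • u, V.smul_mem _ hu, ?_, fun i => ?_, fun i => ?_⟩
  · have h1 : B (θ - a) = 0 := hθ
    rw [map_sub, sub_eq_zero] at h1
    exact h1
  · rw [Pi.smul_apply, smul_eq_mul, abs_mul, abs_of_pos (one_div_pos.2 hc)]
    refine le_trans ?_ (le_max_right _ _)
    exact mul_le_of_le_one_right (one_div_pos.2 hc).le (hu1 i)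
  · refine le_trans ?_ (le_max_left _ _)
    have h1 := hu2 i
    rw [Pi.smul_apply, smul_eq_mul]
    have h2 : D (blk i) * (1 / c * u i) = D (blk i) / c * u i := by ring
    rw [h2]
    exact h1

/-- the neutral error: a function on the places with average `o(1)` which bounds the values of
all exponents in `V` -/
theorem neutral {𝓤 : Ultrafilter ℕ} {n q : ℕ} (c : Cfg 𝓤 n q) :
    ∃ N : ∀ ν, (c.S.W ν).Pl → ℝ, (∀ ν w, 0 ≤ N ν w) ∧
      Tendsto (fun ν => (c.S.W ν).avg (N ν)) 𝓤 (𝓝 0) ∧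
      ∀ v ∈ c.V, ∀ ν w, |∑ i, v i * (c.S.lam ν w i / c.s ν (c.blk i))| ≤
        (∑ i, |v i|) * N ν w := by
  classical
  set b := Module.finBasis ℝ c.V with hb
  obtain ⟨π, hπ⟩ := LinearMap.exists_leftInverse_of_injective c.V.subtype
    (Submodule.ker_subtype c.V)
  set C : ℝ := ∑ i, ∑ k, |b.equivFun (π (Pi.single i 1)) k| with hC
  have hC0 : 0 ≤ C := Finset.sum_nonneg fun i _ => Finset.sum_nonneg fun k _ => abs_nonneg _
  have hcoef : ∀ (v : c.V) (k), |b.equivFun v k| ≤ C * ∑ i, |(v : Fin n → ℝ) i| := by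
    intro v k
    have h0 : π (v : Fin n → ℝ) = v := by
      have := LinearMap.congr_fun hπ v
      exact this
    have h1 : (v : Fin n → ℝ) = ∑ i, (v : Fin n → ℝ) i • (Pi.single i (1 : ℝ) : Fin n → ℝ) := by
      ext l
      simp [Finset.sum_apply, Pi.single_apply]
    have h2 : b.equivFun v k = ∑ i, (v : Fin n → ℝ) i * b.equivFun (π (Pi.single i 1)) k := by
      conv_lhs => rw [← h0, h1]
      rw [map_sum, map_sum, Finset.sum_apply]
      exact Finset.sum_congr rfl fun i _ => by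
        rw [map_smul, map_smul, Pi.smul_apply, smul_eq_mul]
    rw [h2]
    refine (Finset.abs_sum_le_sum_abs _ _).trans ?_
    rw [Finset.mul_sum]
    refine Finset.sum_le_sum fun i _ => ?_
    rw [abs_mul, mul_comm]
    refine mul_le_mul_of_nonneg_right ?_ (abs_nonneg _)
    have h3 : |b.equivFun (π (Pi.single i 1)) k| ≤
        ∑ k, |b.equivFun (π (Pi.single i 1)) k| :=
      Finset.single_le_sum (f := fun k => |b.equivFun (π (Pi.single i 1)) k|)
        (fun k _ => abs_nonneg _) (Finset.mem_univ k)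
    have h4 : ∑ k, |b.equivFun (π (Pi.single i 1)) k| ≤ C :=
      Finset.single_le_sum (f := fun i => ∑ k, |b.equivFun (π (Pi.single i 1)) k|)
        (fun i _ => Finset.sum_nonneg fun k _ => abs_nonneg _) (Finset.mem_univ i)
    exact h3.trans h4
  set g : ∀ ν, (c.S.W ν).Pl → Fin (finrank ℝ c.V) → ℝ := fun ν w k =>
    |∑ i, (b k : Fin n → ℝ) i * (c.S.lam ν w i / c.s ν (c.blk i))| with hg
  refine ⟨fun ν w => C * ∑ k, g ν w k, fun ν w => mul_nonneg hC0
    (Finset.sum_nonneg fun k _ => abs_nonneg _), ?_, ?_⟩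
  · have h1 : ∀ ν, (c.S.W ν).avg (fun w => C * ∑ k, g ν w k) =
        C * ∑ k, c.S.ht (sc c.blk (c.s ν) (b k : Fin n → ℝ)) ν := by
      intro ν
      rw [Places.avg_mul, Places.avg_sum]
      congr 1
      refine Finset.sum_congr rfl fun k _ => ?_
      rw [Sq.ht]
      congr 1
      funext w
      simp only [hg, dotProduct, sc]
      congr 1
      exact Finset.sum_congr rfl fun i _ => by ring
    simp only [h1]
    have h2 : Tendsto (fun ν => ∑ k, c.S.ht (sc c.blk (c.s ν) (b k : Fin n → ℝ)) ν) 𝓤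
        (𝓝 (∑ _k : Fin (finrank ℝ c.V), (0 : ℝ))) :=
      tendsto_finsetSum _ fun k _ => c.hV _ (b k).2
    have h3 := h2.const_mul C
    simpa using h3
  · intro v hv ν w
    have h1 : v = ∑ k, b.equivFun ⟨v, hv⟩ k • (b k : Fin n → ℝ) := by
      have h2 := congrArg Subtype.val (b.sum_equivFun ⟨v, hv⟩)
      rw [Submodule.coe_sum] at h2
      exact h2.symm
    have h3 : ∑ i, v i * (c.S.lam ν w i / c.s ν (c.blk i)) =
        ∑ k, b.equivFun ⟨v, hv⟩ k *
          ∑ i, (b k : Fin n → ℝ) i * (c.S.lam ν w i / c.s ν (c.blk i)) := by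
      have h4 : ∀ i, v i = ∑ k, b.equivFun ⟨v, hv⟩ k * (b k : Fin n → ℝ) i := by
        intro i
        have h5 := congrFun h1 i
        rw [Finset.sum_apply] at h5
        exact h5
      simp only [Finset.mul_sum]
      rw [Finset.sum_comm]
      refine Finset.sum_congr rfl fun i _ => ?_
      nth_rw 1 [h4 i]
      rw [Finset.sum_mul]
      exact Finset.sum_congr rfl fun k _ => by ring
    rw [h3]
    refine (Finset.abs_sum_le_sum_abs _ _).trans ?_
    show _ ≤ (∑ i, |v i|) * (C * ∑ k, g ν w k)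
    rw [Finset.mul_sum, Finset.mul_sum]
    refine Finset.sum_le_sum fun k _ => ?_
    rw [abs_mul]
    have h5 := mul_le_mul_of_nonneg_right (hcoef ⟨v, hv⟩ k) (abs_nonneg
      (∑ i, (b k : Fin n → ℝ) i * (c.S.lam ν w i / c.s ν (c.blk i))))
    refine h5.trans (le_of_eq ?_)
    simp only [hg]
    ring

end Pool.Agent.ZP
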