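import Mathlib
import Pool.Agent.Lib.MP_c95b3b_ag_ZP.CF2
import Pool.Agent.Lib.MP_c95b3b_ag_ZP.CF3
import Pool.Agent.Lib.MP_c95b3b_ag_ZP.CL1
import Pool.Agent.Lib.MP_c95b3b_ag_ZP.CL2
import Pool.Agent.Lib.MP_c95b3b_ag_ZP.Hilbert
import Pool.Agent.Lib.MP_c95b3b_ag_ZP.TY
import Pool.Agent.Lib.MP_c95b3b_ag_ZP.NL
import Pool.Agent.Lib.MP_c95b3b_ag_ZP.JB

set_option autoImplicit false

/-! Project ZP: step A (ZP_full 4). -/

namespace Pool.Agent.ZP

open Module Filter Topology Pool.Agent.L3 Pool.Agent.SD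

variable {𝓤 : Ultrafilter ℕ} {n q : ℕ}

namespace StA

section alg
variable {K : Type} [Field K]

/-- images of Laurent polynomials under maps of the coefficients -/
theorem map_lp {K' : Type} [Field K'] (e : K →+* K') (Ξ : Fin n → MvPowerSeries (Fin n) K)
    (h : ∀ i, MvPowerSeries.constantCoeff (Ξ i) ≠ 0) (T : Finset (Fin n → ℤ))
    (r : (Fin n → ℤ) → K) :
    MvPowerSeries.map e (lp Ξ T r) = lp (fun i => MvPowerSeries.map e (Ξ i)) T
      (fun a => e (r a)) := by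
  rw [lp, lp, map_sum]
  refine Finset.sum_congr rfl fun a _ => ?_
  rw [map_mul, J.map_psm e Ξ h, MvPowerSeries.map_C]

/-- a sum of monomials as a Laurent polynomial -/
theorem lp_push (Ξ : Fin n → MvPowerSeries (Fin n) K) {Ω : Type} (P : Finset Ω)
    (φ : Ω → Fin n → ℤ) (u : Ω → ℤ) [DecidableEq (Fin n → ℤ)] :
    lp Ξ (P.image φ) (fun a => ((∑ o ∈ P with φ o = a, u o : ℤ) : K)) =
      ∑ o ∈ P, MvPowerSeries.C ((u o : ℤ) : K) * psm Ξ (φ o) := by
  rw [lp, ← Finset.sum_fiberwise_of_maps_to (g := φ) (t := P.image φ)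
    (fun o ho => Finset.mem_image_of_mem φ ho)]
  refine Finset.sum_congr rfl fun a _ => ?_
  rw [Int.cast_sum, map_sum, Finset.sum_mul]
  refine Finset.sum_congr rfl fun o ho => ?_
  rw [(Finset.mem_filter.1 ho).2]

theorem sum_push_le {Ω : Type} (P : Finset Ω) (φ : Ω → Fin n → ℤ) (u : Ω → ℤ)
    [DecidableEq (Fin n → ℤ)] :
    ∑ a ∈ P.image φ, |((∑ o ∈ P with φ o = a, u o : ℤ) : ℝ)| ≤ ∑ o ∈ P, |(u o : ℝ)| := by
  rw [← Finset.sum_fiberwise_of_maps_to (g := φ) (t := P.image φ)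
    (fun o ho => Finset.mem_image_of_mem φ ho)]
  refine Finset.sum_le_sum fun a _ => ?_
  rw [Int.cast_sum]
  exact Finset.abs_sum_le_sum_abs _ _

/-- representations with integral coefficients -/
theorem repW_int {R : Subring K} (W : Places K R) (p : Fin n → K)
    (Ξ : Fin n → MvPowerSeries (Fin n) K)
    (h : ∀ i, MvPowerSeries.constantCoeff (Ξ i) ≠ 0) (f : MvPowerSeries (Fin n) K)
    (D : Fin n → ℝ) (b B : ℝ) (w : W.Pl) (T : Finset (Fin n → ℤ)) (r : (Fin n → ℤ) → ℤ)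
    (hf : f = lp Ξ T (fun a => (r a : K))) (hD : ∀ a ∈ T, ∀ i, |(a i : ℝ)| ≤ D i)
    (hB : Real.log (∑ a ∈ T, |(r a : ℝ)|) ≤ B)
    (hb : ∀ a ∈ T, B * W.arch w + ∑ i, (a i : ℝ) * W.lg w (p i) ≤ b) :
    RepW W p Ξ f D b w := by
  rcases w with σ | v
  · refine ⟨T, fun a => (r a : ℂ), ?_, hD, fun a ha => ?_⟩
    · rw [hf, map_lp _ _ h]
      congr 1
      funext a
      exact map_intCast _ _
    · have h1 := hb a ha
      rw [Places.arch_inl, mul_one] at h1
      have h2 : ∑ a' ∈ T, ‖((r a' : ℤ) : ℂ)‖ = ∑ a ∈ T, |(r a : ℝ)| :=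
        Finset.sum_congr rfl fun a _ => by
          rw [Complex.norm_intCast]
      rw [h2]
      linarith
  · refine ⟨T, r, hf, hD, fun a ha => ?_⟩
    have h1 := hb a ha
    rw [Places.arch_inr, mul_zero, zero_add] at h1
    exact h1

/-- elimination of the top coefficient -/
theorem top (Ξ : Fin n → MvPowerSeries (Fin n) K)
    (h : ∀ i, MvPowerSeries.constantCoeff (Ξ i) ≠ 0) {k0 : ℕ} (T : Finset (Fin n → ℤ))
    (b : Fin n → ℤ) (L : ℕ) (u : Fin (k0 + 1) × T → ℤ) (hu : u ≠ 0)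
    (hrel : ∑ o, MvPowerSeries.C ((u o : ℤ) : K) *
      psm Ξ (((o.1 : ℕ) * (L : ℤ)) • b + (o.2 : Fin n → ℤ)) = 0) :
    ∃ (i0 : Fin (k0 + 1)) (r : (Fin n → ℤ) → ℤ), (∀ a (ha : a ∈ T), r a = u (i0, ⟨a, ha⟩)) ∧
      (∃ a ∈ T, r a ≠ 0) ∧
      lp Ξ T (fun a => (r a : K)) = ∑ o ∈ Finset.univ.filter (fun o : Fin (k0 + 1) × T =>
        o.1 < i0), MvPowerSeries.C ((-u o : ℤ) : K) *
          psm Ξ (((((o.1 : ℕ) : ℤ) - (i0 : ℕ)) * (L : ℤ)) • b + (o.2 : Fin n → ℤ)) := by
  classical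
  have hne : (Finset.univ.filter fun k : Fin (k0 + 1) => ∃ θ : T, u (k, θ) ≠ 0).Nonempty := by
    by_contra hcon
    rw [Finset.not_nonempty_iff_eq_empty, Finset.filter_eq_empty_iff] at hcon
    apply hu
    funext o
    by_contra ho
    exact hcon (Finset.mem_univ o.1) ⟨o.2, ho⟩
  obtain ⟨i0, hi0, hmax⟩ := Finset.exists_max_image _ (fun k : Fin (k0 + 1) => k) hne
  obtain ⟨θ0, hθ0⟩ := (Finset.mem_filter.1 hi0).2
  have hz : ∀ k, i0 < k → ∀ θ, u (k, θ) = 0 := by
    intro k hk θ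
    by_contra hcon
    exact absurd (hmax k (Finset.mem_filter.2 ⟨Finset.mem_univ _, θ, hcon⟩)) (not_le.2 hk)
  set r : (Fin n → ℤ) → ℤ := fun a => if ha : a ∈ T then u (i0, ⟨a, ha⟩) else 0 with hr
  have hr' : ∀ a (ha : a ∈ T), r a = u (i0, ⟨a, ha⟩) := fun a ha => by
    simp only [hr]
    rw [dif_pos ha]
  refine ⟨i0, r, hr', ⟨θ0, θ0.2, by rw [hr' _ θ0.2]; exact hθ0⟩, ?_⟩
  -- multiply by a monomial
  set F : Fin (k0 + 1) × T → MvPowerSeries (Fin n) K := fun o =>
    MvPowerSeries.C ((u o : ℤ) : K) *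
      psm Ξ (((((o.1 : ℕ) : ℤ) - (i0 : ℕ)) * (L : ℤ)) • b + (o.2 : Fin n → ℤ)) with hF
  have h1 : ∑ o : Fin (k0 + 1) × T, F o = 0 := by
    have h2 := congrArg (fun f => psm Ξ ((-((i0 : ℕ) : ℤ) * (L : ℤ)) • b) * f) hrel
    simp only [mul_zero] at h2
    rw [← h2, Finset.mul_sum]
    refine Finset.sum_congr rfl fun o _ => ?_
    have h3 : ((((o.1 : ℕ) : ℤ) - (i0 : ℕ)) * (L : ℤ)) • b + (o.2 : Fin n → ℤ) =
        (-((i0 : ℕ) : ℤ) * (L : ℤ)) • b +
          ((((o.1 : ℕ) : ℤ) * (L : ℤ)) • b + (o.2 : Fin n → ℤ)) := by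
      rw [← add_assoc, ← add_smul]
      congr 2
      ring
    simp only [hF]
    rw [h3, J.psm_add Ξ h]
    ring
  have h2 : ∑ o with ¬ o.1 < i0, F o = lp Ξ T (fun a => (r a : K)) := by
    rw [Finset.sum_filter, Fintype.sum_prod_type, Finset.sum_eq_single i0]
    · rw [lp, ← Finset.sum_coe_sort T]
      refine Finset.sum_congr rfl fun θ _ => ?_
      rw [if_pos (lt_irrefl i0)]
      simp only [hF]
      rw [hr' _ θ.2, sub_self, zero_mul, zero_smul, zero_add]
    · intro k _ hk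
      refine Finset.sum_eq_zero fun θ _ => ?_
      split_ifs with hlt
      · rfl
      · have h3 : i0 < k := lt_of_le_of_ne (not_lt.1 hlt) (Ne.symm hk)
        simp only [hF]
        rw [hz k h3 θ, Int.cast_zero, map_zero, zero_mul]
    · intro hcon
      exact absurd (Finset.mem_univ i0) hcon
  rw [← Finset.sum_filter_add_sum_filter_not _ (fun o => o.1 < i0), h2] at h1
  rw [eq_neg_of_add_eq_zero_right h1, ← Finset.sum_neg_distrib]
  refine Finset.sum_congr rfl fun o _ => ?_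
  simp only [hF]
  rw [Int.cast_neg, map_neg, neg_mul]

end alg

/-- `|θ . lam|` is small for neutral exponents `θ` -/
theorem dot_le (c : Cfg 𝓤 n q) (ν : ℕ) (w : (c.S.W ν).Pl) (N C M : ℝ) (hM : 0 ≤ M)
    (hN0 : 0 ≤ N)
    (hN : ∀ v ∈ c.V, |∑ i, v i * (c.S.lam ν w i / c.s ν (c.blk i))| ≤ (∑ i, |v i|) * N)
    (θ : Fin n → ℤ) (v : Fin n → ℝ) (hv : v ∈ c.V) (hv1 : ∀ i, |v i| ≤ 1)
    (hθ : ∀ i, |(θ i : ℝ) - M / c.s ν (c.blk i) * v i| ≤ C) :
    |∑ i, (θ i : ℝ) * (c.S.W ν).lg w (c.S.p ν i)| ≤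
      M * (n * N) + C * ∑ i, |c.S.lam ν w i| := by
  have h1 : ∑ i, (θ i : ℝ) * (c.S.W ν).lg w (c.S.p ν i) =
      M * ∑ i, v i * (c.S.lam ν w i / c.s ν (c.blk i)) +
        ∑ i, ((θ i : ℝ) - M / c.s ν (c.blk i) * v i) * c.S.lam ν w i := by
    rw [Finset.mul_sum, ← Finset.sum_add_distrib]
    refine Finset.sum_congr rfl fun i _ => ?_
    rw [Sq.lam]
    ring
  rw [h1]
  refine (abs_add_le _ _).trans (add_le_add ?_ ?_)
  · rw [abs_mul, abs_of_nonneg hM]
    refine mul_le_mul_of_nonneg_left ((hN v hv).trans ?_) hM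
    refine mul_le_mul_of_nonneg_right ?_ hN0
    have h2 : ∑ i, |v i| ≤ ∑ _i : Fin n, (1 : ℝ) := Finset.sum_le_sum fun i _ => hv1 i
    rw [Finset.sum_const, Finset.card_univ, Fintype.card_fin, nsmul_eq_mul, mul_one] at h2
    exact h2
  · refine (Finset.abs_sum_le_sum_abs _ _).trans ?_
    rw [Finset.mul_sum]
    refine Finset.sum_le_sum fun i _ => ?_
    rw [abs_mul]
    exact mul_le_mul_of_nonneg_right (hθ i) (abs_nonneg _)

/-- the number of integral vectors in a box -/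
theorem card_le (T : Finset (Fin n → ℤ)) (D : Fin n → ℝ) (hD : ∀ i, 1 ≤ D i)
    (hT : ∀ a ∈ T, ∀ i, |(a i : ℝ)| ≤ D i) : (T.card : ℝ) ≤ ∏ i, (3 * D i) := by
  classical
  have h1 : T ⊆ Fintype.piFinset fun i => Finset.Icc (-⌊D i⌋) ⌊D i⌋ := by
    intro a ha
    rw [Fintype.mem_piFinset]
    intro i
    rw [Finset.mem_Icc]
    have h2 := abs_le.1 (hT a ha i)
    constructor
    · have h3 : -a i ≤ ⌊D i⌋ := Int.le_floor.2 (by push_cast; linarith [h2.1])
      linarith
    · exact Int.le_floor.2 h2.2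
  have h2 := Finset.card_le_card h1
  rw [Fintype.card_piFinset] at h2
  have h3 : (T.card : ℝ) ≤ ∏ i, ((Finset.Icc (-⌊D i⌋) ⌊D i⌋).card : ℝ) := by exact_mod_cast h2
  refine h3.trans (Finset.prod_le_prod (fun i _ => Nat.cast_nonneg _) fun i _ => ?_)
  rw [Int.card_Icc]
  have h4 : 0 ≤ ⌊D i⌋ := Int.floor_nonneg.2 (by linarith [hD i])
  have h5 : ((⌊D i⌋ + 1 - -⌊D i⌋).toNat : ℤ) = ⌊D i⌋ + 1 - -⌊D i⌋ :=
    Int.toNat_of_nonneg (by linarith)
  have h6 : (((⌊D i⌋ + 1 - -⌊D i⌋).toNat : ℕ) : ℝ) = 2 * (⌊D i⌋ : ℝ) + 1 := by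
    have h7 : (((⌊D i⌋ + 1 - -⌊D i⌋).toNat : ℤ) : ℝ) = ((⌊D i⌋ + 1 - -⌊D i⌋ : ℤ) : ℝ) := by
      rw [h5]
    push_cast at h7
    rw [h7]
    ring
  rw [h6]
  have h8 := Int.floor_le (D i)
  linarith [hD i]

/-- not tending to zero -/
theorem exists_lower (f : ℕ → ℝ) (hf : ∀ ν, 0 ≤ f ν) (h : ¬ Tendsto f 𝓤 (𝓝 0)) :
    ∃ c : ℝ, 0 < c ∧ ∀ᶠ ν in (𝓤 : Filter ℕ), c ≤ f ν := by
  by_contra hcon
  push Not at hcon
  apply h
  rw [Metric.tendsto_nhds]
  intro ε hε
  filter_upwards [hcon ε hε] with ν hν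
  rw [Real.dist_eq, sub_zero, abs_of_nonneg (hf ν)]
  exact hν

/-- there is a heavy exponent -/
theorem exists_heavy (c : Cfg 𝓤 n q) : ∃ j, ∃ b ∈ blL c.blk j, b ∉ c.Λ0 := by
  by_contra hcon
  push Not at hcon
  have htop : c.Λ0 = ⊤ := by
    rw [eq_top_iff]
    intro a _
    have h1 : a = ∑ j, pj c.blk j a := by
      funext i
      simp [pj, Finset.sum_apply]
    rw [h1]
    refine Submodule.sum_mem _ fun j _ => hcon j _ fun i hi => ?_
    rw [pj, if_neg hi]
  have h1 := c.dim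
  rw [htop] at h1
  have h2 : spR (⊤ : Submodule ℤ (Fin n → ℤ)) = ⊤ := by
    rw [eq_top_iff]
    intro y _
    have h3 : y = ∑ i, y i • rv (Pi.single i 1) := by
      funext k
      rw [Finset.sum_apply, Finset.sum_eq_single k]
      · rw [rv_single, Pi.smul_apply, Pi.single_eq_same, smul_eq_mul, mul_one]
      · intro i _ hi
        rw [rv_single, Pi.smul_apply, Pi.single_eq_of_ne hi.symm, smul_zero]
      · intro h
        exact absurd (Finset.mem_univ k) h
    rw [h3]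
    exact Submodule.sum_mem _ fun i _ => Submodule.smul_mem _ _
      (Submodule.subset_span ⟨_, trivial, rfl⟩)
  rw [Psi, h2, inf_top_eq] at h1
  omega

theorem log_le' {x B : ℝ} (h0 : 0 ≤ B) (hx : 0 ≤ x) (h : x ≤ Real.exp B) : Real.log x ≤ B := by
  rcases hx.eq_or_lt with h1 | h1
  · rw [← h1, Real.log_zero]
    exact h0
  · rw [← Real.log_exp B]
    exact Real.log_le_log h1 h

end StA

theorem stepA (c : Cfg 𝓤 n q) (hM : c.Mn) (hb : ¬ c.bd) : False := by
  classical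
  obtain ⟨cl⟩ := exists_cl c
  obtain ⟨α, hα, -, hαli⟩ := rank_flag cl c.V c.V le_rfl 0 cl.I.card (Nat.zero_le _)
    (fun Λ hΛ => by
      have h := c.psi_zero hM Λ hΛ
      rw [Psi] at h
      omega)
    (fun Λ hΛ => by
      have h := c.psi_zero hM Λ hΛ
      rw [Psi] at h
      omega)
  obtain ⟨T, hTli⟩ := exists_type cl cl.I.card α hαli
  obtain ⟨J, hJ1, hJ2⟩ := T.coords
  obtain ⟨C0, c0, hC0, hc0, hcl⟩ := Lift.exists_classes c.blk (Lift.kerA T.A)
    (fun a ha j => T.graded a ha j) c.V (Lift.sup_eq_top T.surj c.V α hα hTli) J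
    (fun x hx hx' => hJ2 x hx' hx)
  obtain ⟨j0, b, hbj, hbL⟩ := StA.exists_heavy c
  obtain ⟨c1, hc1, hheavy⟩ := StA.exists_lower (fun ν => c.S.ht (rv b) ν / c.s ν j0)
    (fun ν => div_nonneg (ht_nonneg _ _ _) (c.s_pos ν j0).le)
    (c.heavy j0 (fun h => absurd h hb) b hbj hbL)
  obtain ⟨Cb, hCb⟩ := c.hbd
  obtain ⟨N, hN0, hNt, hN⟩ := neutral c
  obtain ⟨CS, hCS, hsieg⟩ := cl.siegel (A := 3 + C0) (by linarith)
  -- the constants
  obtain ⟨k0, hk0, hk0'⟩ : ∃ k0 : ℕ, 1 ≤ k0 ∧ 2 * CS ≤ ((k0 : ℝ) + 1) * c0 := by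
    obtain ⟨k, hk⟩ := exists_nat_ge (2 * CS / c0)
    refine ⟨k + 1, by omega, ?_⟩
    rw [div_le_iff₀ hc0] at hk
    push_cast
    linarith only [hk, hc0]
  have hk0r : (1 : ℝ) ≤ k0 := by exact_mod_cast hk0
  set nb : ℝ := ∑ i, |(b i : ℝ)| with hnb
  have hnb0 : 0 ≤ nb := Finset.sum_nonneg fun i _ => abs_nonneg _
  set ε1 : ℝ := 1 / (k0 * (nb + 1)) with hε1
  have hε1p : 0 < ε1 := by positivity
  set C5 : ℝ := (k0 + 1) + n * (3 * (1 + C0)) with hC5
  have hC5p : 0 < C5 := by positivity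
  set η : ℝ := ε1 * c1 with hη
  have hηp : 0 < η := by positivity
  set Cb' : ℝ := max Cb 0 with hCb'
  have hCb'0 : 0 ≤ Cb' := le_max_right _ _
  set A : ℝ := 3 + C0 + (2 * C5 + CS) with hA
  have hA0 : 0 ≤ A := by positivity
  obtain ⟨N0, hN01, hN02, hN03⟩ : ∃ N0 : ℝ, 1 ≤ N0 ∧ 2 ≤ ε1 * N0 ∧
      16 * (C0 * Cb' * n) ≤ η * N0 := by
    refine ⟨1 + 2 / ε1 + 16 * (C0 * Cb' * n) / η, ?_, ?_, ?_⟩
    · have : 0 ≤ 2 / ε1 := by positivity
      have : 0 ≤ 16 * (C0 * Cb' * n) / η := by positivity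
      linarith
    · have h1 : 0 ≤ ε1 * (16 * (C0 * Cb' * n) / η) := by positivity
      have h2 : ε1 * (2 / ε1) = 2 := by field_simp
      linarith only [h1, h2, hε1p]
    · have h1 : 0 ≤ η * (2 / ε1) := by positivity
      have h2 : η * (16 * (C0 * Cb' * n) / η) = 16 * (C0 * Cb' * n) := by field_simp
      linarith only [h1, h2, hηp]
  have key : ∀ᶠ ν in (𝓤 : Filter ℕ), False := by
    have hNs : ∀ᶠ ν in (𝓤 : Filter ℕ), (n : ℝ) * (c.S.W ν).avg (N ν) ≤ η / 16 := by
      have h1 := hNt.const_mul (n : ℝ)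
      rw [mul_zero] at h1
      exact h1.eventually_le_const (by positivity)
    have hs0 : ∀ᶠ ν in (𝓤 : Filter ℕ), 16 * (2 * C5 + CS) / η ≤ c.s ν 0 :=
      (c.unb hb).eventually_ge_atTop _
    filter_upwards [star cl A (η / 32) hA0 (by positivity), hsieg, T.li, hheavy, hCb, hNs, hs0,
      HN.lev cl] with ν hstar hsg hli hhv hbd hNν hsν hlev
    have hconst := hlev.const
    have hspos := c.s_pos ν
    obtain ⟨M, hMdef⟩ : ∃ M : ℝ, M = N0 * ∑ j, c.s ν j := ⟨_, rfl⟩
    have hsum : ∀ j, c.s ν j ≤ ∑ j, c.s ν j := fun j =>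
      Finset.single_le_sum (f := fun j => c.s ν j) (fun j _ => (hspos j).le) (Finset.mem_univ j)
    have hsM : ∀ j, N0 * c.s ν j ≤ M := fun j => by
      rw [hMdef]
      exact mul_le_mul_of_nonneg_left (hsum j) (zero_le_one.trans hN01)
    have hsM1 : ∀ j, c.s ν j ≤ M := fun j => by
      have h1 := hsM j
      have h2 := hspos j
      have h3 := mul_le_mul_of_nonneg_right hN01 h2.le
      linarith only [h1, h3]
    have hMp : 0 < M := lt_of_lt_of_le (hspos 0) (hsM1 0)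
    have hm : ∀ j, N0 ≤ M / c.s ν j := fun j => by
      rw [le_div_iff₀ (hspos j)]
      exact hsM j
    have hm1 : ∀ j, 1 ≤ M / c.s ν j := fun j => hN01.trans (hm j)
    have hm0 : ∀ j, M / c.s ν j ≤ M / c.s ν 0 := fun j =>
      div_le_div_of_nonneg_left hMp.le (hspos 0) (c.s_le ν j)
    obtain ⟨TT, hT1, hT2, hT3⟩ := hcl (fun j => M / c.s ν j) (fun i => div_pos hMp (hspos _))
    have hθb : ∀ θ ∈ TT, ∀ i, |(θ i : ℝ)| ≤ (1 + C0) * (M / c.s ν (c.blk i)) := by
      intro θ hθ i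
      obtain ⟨v, -, hv1, hv2⟩ := hT2 θ hθ
      have h1 := hm1 (c.blk i)
      have h2 : |(θ i : ℝ)| ≤ |(θ i : ℝ) - M / c.s ν (c.blk i) * v i| +
          |M / c.s ν (c.blk i) * v i| := by
        have h3 := abs_add_le ((θ i : ℝ) - M / c.s ν (c.blk i) * v i) (M / c.s ν (c.blk i) * v i)
        rwa [sub_add_cancel] at h3
      have h3 : |M / c.s ν (c.blk i) * v i| ≤ M / c.s ν (c.blk i) := by
        rw [abs_mul, abs_of_pos (div_pos hMp (hspos _))]
        exact mul_le_of_le_one_right (div_pos hMp (hspos _)).le (hv1 i)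
      have h4 := hv2 i
      have h5 := mul_le_mul_of_nonneg_left h1 hC0.le
      linarith only [h2, h3, h4, h5]
    -- the power of the heavy monomial
    set L : ℕ := ⌊ε1 * (M / c.s ν j0)⌋₊ with hL
    have hm2 : 2 ≤ ε1 * (M / c.s ν j0) :=
      hN02.trans (mul_le_mul_of_nonneg_left (hm j0) hε1p.le)
    have hL1 : (L : ℝ) ≤ ε1 * (M / c.s ν j0) := Nat.floor_le (by linarith only [hm2])
    have hL2 : ε1 * (M / c.s ν j0) / 2 ≤ L := by
      have h1 := (Nat.lt_floor_add_one (ε1 * (M / c.s ν j0))).le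
      rw [← hL] at h1
      linarith only [h1, hm2]
    have hkL : ∀ k : ℤ, |(k : ℝ)| ≤ k0 → ∀ i, |(((k * (L : ℤ)) • b) i : ℝ)| ≤
        M / c.s ν (c.blk i) := by
      intro k hk i
      rw [Pi.smul_apply, smul_eq_mul]
      push_cast
      by_cases hi : c.blk i = j0
      · have h1 : |(b i : ℝ)| ≤ nb := Finset.single_le_sum (f := fun i => |(b i : ℝ)|)
          (fun i _ => abs_nonneg _) (Finset.mem_univ i)
        rw [abs_mul, abs_mul, Nat.abs_cast, hi]
        have h2 : |(k : ℝ)| * L ≤ k0 * (ε1 * (M / c.s ν j0)) :=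
          mul_le_mul hk hL1 (Nat.cast_nonneg _) (by linarith only [hk0r])
        have h3 : |(k : ℝ)| * L * |(b i : ℝ)| ≤ k0 * (ε1 * (M / c.s ν j0)) * nb :=
          mul_le_mul h2 h1 (abs_nonneg _) (by positivity)
        refine h3.trans ?_
        have h4 : k0 * (ε1 * (M / c.s ν j0)) * nb = (M / c.s ν j0) * (nb / (nb + 1)) := by
          rw [hε1]
          field_simp
        rw [h4]
        refine mul_le_of_le_one_right (zero_le_one.trans (hm1 j0)) ?_
        rw [div_le_one (by linarith only [hnb0])]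
        linarith only [hnb0]
      · have h1 : b i = 0 := hbj i hi
        rw [h1, Int.cast_zero, mul_zero, abs_zero]
        exact zero_le_one.trans (hm1 (c.blk i))
    -- the relation
    have hdeg : ∀ (o : Fin (k0 + 1) × TT) (i : Fin n),
        |((((((o.1 : ℕ) : ℤ) * (L : ℤ)) • b + (o.2 : Fin n → ℤ)) i : ℤ) : ℝ)| ≤
          (3 + C0) * M / c.s ν (c.blk i) := by
      intro o i
      rw [Pi.add_apply, Int.cast_add]
      have h1 := hkL ((o.1 : ℕ) : ℤ) (by
        push_cast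
        rw [Nat.abs_cast]
        have : (o.1 : ℕ) ≤ k0 := Nat.lt_succ_iff.1 o.1.2
        exact_mod_cast this) i
      have h2 := hθb _ o.2.2 i
      refine (abs_add_le _ _).trans ((add_le_add h1 h2).trans ?_)
      have h3 := hm1 (c.blk i)
      rw [mul_div_assoc]
      linarith only [h3]
    have hcardΩ : (Fintype.card (Fin (k0 + 1) × TT) : ℝ) = (k0 + 1) * TT.card := by
      rw [Fintype.card_prod, Fintype.card_fin, Fintype.card_coe]
      push_cast
      ring
    have hcard : 2 * CS * ∏ i ∈ cl.I, (M / c.s ν (c.blk i)) ≤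
        Fintype.card (Fin (k0 + 1) × TT) := by
      rw [hcardΩ]
      have h1 : ∏ i ∈ J, M / c.s ν (c.blk i) = ∏ i ∈ cl.I, (M / c.s ν (c.blk i)) :=
        Lift.prod_blk_eq c.blk hJ1 fun j => M / c.s ν j
      have h2 : c0 * ∏ i ∈ J, M / c.s ν (c.blk i) ≤ TT.card := hT1
      rw [h1] at h2
      have h3 : 0 ≤ ∏ i ∈ cl.I, (M / c.s ν (c.blk i)) :=
        Finset.prod_nonneg fun i _ => zero_le_one.trans (hm1 (c.blk i))
      calc 2 * CS * ∏ i ∈ cl.I, (M / c.s ν (c.blk i)) ≤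
            ((k0 + 1) * c0) * ∏ i ∈ cl.I, (M / c.s ν (c.blk i)) :=
            mul_le_mul_of_nonneg_right hk0' h3
        _ = (k0 + 1) * (c0 * ∏ i ∈ cl.I, (M / c.s ν (c.blk i))) := by ring
        _ ≤ (k0 + 1) * TT.card := mul_le_mul_of_nonneg_left h2 (by positivity)
    obtain ⟨u, hu0, hu1, hu2⟩ := hsg M (fun i => hsM1 _) hMp.le (Fin (k0 + 1) × TT)
      (fun o => (((o.1 : ℕ) : ℤ) * (L : ℤ)) • b + (o.2 : Fin n → ℤ)) hdeg hcard
    obtain ⟨i0, r, hr, hrne, hrep⟩ := StA.top (cl.Ξ ν) hconst TT b L u hu0 hu1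
    have hne : lp (cl.Ξ ν) TT (fun a => (r a : c.S.K ν)) ≠ 0 := by
      refine hli TT r (fun θ hθ θ' hθ' hA' => hT3 θ hθ θ' hθ' ?_) hrne
      rw [Lift.mem_kerA, map_sub, hA', sub_self]
    -- the size of the coefficients
    have hTTpos : 0 < TT.card := by
      obtain ⟨a, ha, -⟩ := hrne
      exact Finset.card_pos.2 ⟨a, ha⟩
    have hTTr : (1 : ℝ) ≤ TT.card := by exact_mod_cast hTTpos
    have hms0 : 1 ≤ M / c.s ν 0 := hm1 0
    have hlogT : Real.log TT.card ≤ n * (3 * (1 + C0)) * (M / c.s ν 0) := by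
      have h1 := StA.card_le TT (fun i => (1 + C0) * (M / c.s ν (c.blk i)))
        (fun i => by
          have h5 := hm1 (c.blk i)
          have h6 := mul_le_mul_of_nonneg_left h5 hC0.le
          linarith only [h5, h6, hC0]) hθb
      have h2 : ∏ i : Fin n, (3 * ((1 + C0) * (M / c.s ν (c.blk i)))) ≤
          (3 * (1 + C0) * (M / c.s ν 0)) ^ n := by
        have h3 : ∏ i : Fin n, (3 * ((1 + C0) * (M / c.s ν (c.blk i)))) ≤
            ∏ _i : Fin n, (3 * (1 + C0) * (M / c.s ν 0)) := by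
          refine Finset.prod_le_prod (fun i _ => ?_) fun i _ => ?_
          · have := hm1 (c.blk i)
            positivity
          · have := hm0 (c.blk i)
            have h6 := mul_le_mul_of_nonneg_left this (show (0 : ℝ) ≤ 1 + C0 by positivity)
            linarith only [h6]
        rwa [Finset.prod_const, Finset.card_univ, Fintype.card_fin] at h3
      have h3 := Real.log_le_log (by linarith only [hTTr]) (h1.trans h2)
      rw [Real.log_pow] at h3
      refine h3.trans ?_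
      rw [mul_assoc (n : ℝ)]
      refine mul_le_mul_of_nonneg_left ?_ (Nat.cast_nonneg _)
      have h4 : (0 : ℝ) < 3 * (1 + C0) * (M / c.s ν 0) := by positivity
      have h5 := Real.log_le_sub_one_of_pos h4
      linarith only [h5]
    have hlogΩ : Real.log (Fintype.card (Fin (k0 + 1) × TT)) ≤ C5 * (M / c.s ν 0) := by
      rw [hcardΩ, Real.log_mul (by positivity) (Nat.cast_pos.2 hTTpos).ne']
      have h1 : Real.log ((k0 : ℝ) + 1) ≤ (k0 + 1) * (M / c.s ν 0) := by
        have h2 := Real.log_le_sub_one_of_pos (show (0 : ℝ) < (k0 : ℝ) + 1 by positivity)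
        have h3 := mul_le_mul_of_nonneg_left hms0 (show (0 : ℝ) ≤ (k0 : ℝ) + 1 by positivity)
        linarith only [h2, h3]
      rw [hC5, add_mul]
      exact add_le_add h1 hlogT
    set Bc : ℝ := (2 * C5 + CS) * (M / c.s ν 0) with hBc
    have hBc0 : 0 ≤ Bc := by positivity
    have hcardpos : (0 : ℝ) < Fintype.card (Fin (k0 + 1) × TT) := by
      rw [hcardΩ]
      exact mul_pos (by positivity) (Nat.cast_pos.2 hTTpos)
    have hsumu : ∑ o, |(u o : ℝ)| ≤ Real.exp Bc := by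
      have h1 : ∀ o, |(u o : ℝ)| ≤ Real.exp (C5 * (M / c.s ν 0) + CS * (M / c.s ν 0)) := by
        intro o
        rcases eq_or_ne (u o) 0 with h0 | h0
        · rw [h0, Int.cast_zero, abs_zero]
          exact (Real.exp_pos _).le
        · have h2 : (0 : ℝ) < |(u o : ℝ)| := abs_pos.2 (by exact_mod_cast h0)
          rw [← Real.log_le_iff_le_exp h2]
          have h3 := hu2 o
          linarith only [h3, hlogΩ]
      have h2 : ∑ o : Fin (k0 + 1) × TT, |(u o : ℝ)| ≤
          ∑ _o : Fin (k0 + 1) × TT, Real.exp (C5 * (M / c.s ν 0) + CS * (M / c.s ν 0)) :=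
        Finset.sum_le_sum fun o _ => h1 o
      rw [Finset.sum_const, Finset.card_univ, nsmul_eq_mul] at h2
      refine h2.trans ?_
      have h3 : (Fintype.card (Fin (k0 + 1) × TT) : ℝ) ≤ Real.exp (C5 * (M / c.s ν 0)) := by
        rw [← Real.log_le_iff_le_exp hcardpos]
        exact hlogΩ
      calc (Fintype.card (Fin (k0 + 1) × TT) : ℝ) *
            Real.exp (C5 * (M / c.s ν 0) + CS * (M / c.s ν 0)) ≤
            Real.exp (C5 * (M / c.s ν 0)) *
              Real.exp (C5 * (M / c.s ν 0) + CS * (M / c.s ν 0)) :=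
            mul_le_mul_of_nonneg_right h3 (Real.exp_pos _).le
        _ = Real.exp Bc := by
          rw [← Real.exp_add, hBc]
          congr 1
          ring
    have hsumr : ∑ a ∈ TT, |(r a : ℝ)| ≤ Real.exp Bc := by
      refine le_trans ?_ hsumu
      have h1 : ∑ a ∈ TT, |(r a : ℝ)| = ∑ θ : TT, |(u (i0, θ) : ℝ)| := by
        rw [← Finset.sum_coe_sort TT]
        exact Finset.sum_congr rfl fun θ _ => by rw [hr _ θ.2]
      rw [h1, Fintype.sum_prod_type]
      exact Finset.single_le_sum (f := fun k => ∑ θ : TT, |(u (k, θ) : ℝ)|)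
        (fun k _ => Finset.sum_nonneg fun θ _ => abs_nonneg _) (Finset.mem_univ i0)
    have hlogr : Real.log (∑ a ∈ TT, |(r a : ℝ)|) ≤ Bc :=
      StA.log_le' hBc0 (Finset.sum_nonneg fun a _ => abs_nonneg _) hsumr
    -- the bounds at the places
    set G : (c.S.W ν).Pl → ℝ := fun w => M * (n * N ν w) + C0 * ∑ i, |c.S.lam ν w i| with hG
    have hdot : ∀ w, ∀ θ ∈ TT, |∑ i, (θ i : ℝ) * (c.S.W ν).lg w (c.S.p ν i)| ≤ G w := by
      intro w θ hθ
      obtain ⟨v, hv, hv1, hv2⟩ := hT2 θ hθ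
      exact StA.dot_le c ν w (N ν w) C0 M hMp.le (hN0 ν w) (fun v hv => hN v hv ν w) θ v hv
        hv1 hv2
    set β : (c.S.W ν).Pl → ℝ := fun w => (c.S.W ν).lg w (mn (c.S.p ν) b) with hβ
    have hβ' : ∀ w, ∑ i, (b i : ℝ) * (c.S.W ν).lg w (c.S.p ν i) = β w := by
      intro w
      exact dot_lam c.S b ν w
    set bw : (c.S.W ν).Pl → ℝ := fun w => Bc * (c.S.W ν).arch w + G w - L * max 0 (β w) with hbw
    have hAM : ∀ i, (3 + C0) * M / c.s ν (c.blk i) ≤ A * M / c.s ν (c.blk i) := fun i => by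
      refine div_le_div_of_nonneg_right (mul_le_mul_of_nonneg_right ?_ hMp.le) (hspos _).le
      rw [hA]
      have : 0 < 2 * C5 + CS := by positivity
      linarith only [this]
    have hrepW : ∀ w, RepW (c.S.W ν) (c.S.p ν) (cl.Ξ ν)
        (lp (cl.Ξ ν) TT fun a => (r a : c.S.K ν))
        (fun i => A * M / c.s ν (c.blk i)) (bw w) w := by
      intro w
      rcases le_or_gt (β w) 0 with hw | hw
      · refine StA.repW_int (c.S.W ν) (c.S.p ν) (cl.Ξ ν) hconst _ _ _ Bc w TT r rfl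
          (fun a ha i => ?_) hlogr (fun a ha => ?_)
        · refine (hθb a ha i).trans (le_trans ?_ (hAM i))
          rw [mul_div_assoc]
          have := hm1 (c.blk i)
          linarith only [this]
        · have h1 := (abs_le.1 (hdot w a ha)).2
          simp only [hbw]
          rw [max_eq_left hw, mul_zero, sub_zero]
          linarith only [h1]
      · set P := Finset.univ.filter (fun o : Fin (k0 + 1) × TT => o.1 < i0) with hP
        set φ : Fin (k0 + 1) × TT → Fin n → ℤ := fun o =>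
          ((((o.1 : ℕ) : ℤ) - (i0 : ℕ)) * (L : ℤ)) • b + (o.2 : Fin n → ℤ) with hφ
        refine StA.repW_int (c.S.W ν) (c.S.p ν) (cl.Ξ ν) hconst _ _ _ Bc w (P.image φ)
          (fun a => ∑ o ∈ P with φ o = a, -u o) ?_ (fun a ha i => ?_) ?_ (fun a ha => ?_)
        · rw [hrep, StA.lp_push]
        · obtain ⟨o, ho, rfl⟩ := Finset.mem_image.1 ha
          refine le_trans ?_ (hAM i)
          simp only [hφ]
          rw [Pi.add_apply, Int.cast_add]
          have h1 := hkL (((o.1 : ℕ) : ℤ) - (i0 : ℕ)) (by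
            push_cast
            have h2 : ((o.1 : ℕ) : ℝ) ≤ k0 := by
              exact_mod_cast Nat.lt_succ_iff.1 o.1.2
            have h3 : ((i0 : ℕ) : ℝ) ≤ k0 := by
              exact_mod_cast Nat.lt_succ_iff.1 i0.2
            have h4 : (0 : ℝ) ≤ ((o.1 : ℕ) : ℝ) := Nat.cast_nonneg _
            have h5 : (0 : ℝ) ≤ ((i0 : ℕ) : ℝ) := Nat.cast_nonneg _
            rw [abs_le]
            constructor <;> linarith only [h2, h3, h4, h5]) i
          have h2 := hθb _ o.2.2 i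
          refine (abs_add_le _ _).trans ((add_le_add h1 h2).trans ?_)
          have h3 := hm1 (c.blk i)
          rw [mul_div_assoc]
          linarith only [h3]
        · refine StA.log_le' hBc0 (Finset.sum_nonneg fun a _ => abs_nonneg _) ?_
          refine (StA.sum_push_le P φ fun o => -u o).trans (le_trans ?_ hsumu)
          refine (Finset.sum_le_univ_sum_of_nonneg fun o => abs_nonneg _).trans (le_of_eq ?_)
          exact Finset.sum_congr rfl fun o _ => by rw [Int.cast_neg, abs_neg]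
        · obtain ⟨o, ho, rfl⟩ := Finset.mem_image.1 ha
          have ho' : o.1 < i0 := (Finset.mem_filter.1 ho).2
          have h1 := (abs_le.1 (hdot w _ o.2.2)).2
          have h2 : ∑ i, ((φ o i : ℤ) : ℝ) * (c.S.W ν).lg w (c.S.p ν i) =
              ((((o.1 : ℕ) : ℝ) - ((i0 : ℕ) : ℝ)) * L) * β w +
                ∑ i, (((o.2 : Fin n → ℤ) i : ℤ) : ℝ) * (c.S.W ν).lg w (c.S.p ν i) := by
            rw [← hβ' w, Finset.mul_sum, ← Finset.sum_add_distrib]
            refine Finset.sum_congr rfl fun i _ => ?_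
            simp only [hφ, Pi.add_apply, Pi.smul_apply, smul_eq_mul]
            push_cast
            ring
          rw [h2]
          simp only [hbw]
          rw [max_eq_right hw.le]
          have h3 : (((o.1 : ℕ) : ℝ) - ((i0 : ℕ) : ℝ)) ≤ -1 := by
            have h4 : ((o.1 : ℕ) : ℤ) + 1 ≤ ((i0 : ℕ) : ℤ) := by exact_mod_cast ho'
            have h5 : ((o.1 : ℕ) : ℝ) + 1 ≤ ((i0 : ℕ) : ℝ) := by exact_mod_cast h4
            linarith only [h5]
          have h4 : 0 ≤ (L : ℝ) * β w := mul_nonneg (Nat.cast_nonneg _) hw.le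
          have h5 := mul_le_mul_of_nonneg_right h3 h4
          have h6 := mul_nonneg hBc0 ((c.S.W ν).arch_nonneg w)
          linarith only [h1, h5, h6]
    have hfin := hstar M TT r bw (hsM1 0) (fun i => hsM1 _)
      (fun a ha i => ((hθb a ha i).trans (by
        rw [mul_div_assoc]
        have := hm1 (c.blk i)
        linarith only [this])).trans (hAM i))
      (hlogr.trans (by
        rw [hBc, mul_div_assoc]
        refine mul_le_mul_of_nonneg_right ?_ (zero_le_one.trans hms0)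
        rw [hA]
        linarith only [hC0])) hne hrepW
    -- the average
    have havg : (c.S.W ν).avg bw = Bc + (M * (n * (c.S.W ν).avg (N ν)) +
        C0 * ∑ i, c.S.ht (rv (Pi.single i 1)) ν) - L * (c.S.ht (rv b) ν / 2) := by
      have h1 : (c.S.W ν).avg bw = (c.S.W ν).avg (fun w => Bc * (c.S.W ν).arch w + G w) -
          (c.S.W ν).avg (fun w => L * max 0 (β w)) := Places.avg_sub _ _ _
      rw [h1, Places.avg_add, Places.avg_const_arch, Places.avg_mul]
      have h2 : (c.S.W ν).avg G = M * (n * (c.S.W ν).avg (N ν)) +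
          C0 * ∑ i, c.S.ht (rv (Pi.single i 1)) ν := by
        have h3 : (c.S.W ν).avg G = (c.S.W ν).avg (fun w => M * (n * N ν w)) +
            (c.S.W ν).avg (fun w => C0 * ∑ i, |c.S.lam ν w i|) := Places.avg_add _ _ _
        rw [h3, Places.avg_mul, Places.avg_mul, Places.avg_mul, Places.avg_sum]
        congr 2
        refine Finset.sum_congr rfl fun i _ => ?_
        rw [Sq.ht]
        congr 1
        funext w
        rw [rv_single, single_dotProduct, one_mul]
      rw [h2, ht_eq_two_mul]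
      congr 2
      ring
    have h1 : Bc ≤ η / 16 * M := by
      rw [hBc]
      rw [div_le_iff₀ hηp] at hsν
      have h2 : (2 * C5 + CS) * (M / c.s ν 0) = (2 * C5 + CS) / c.s ν 0 * M := by ring
      rw [h2]
      refine mul_le_mul_of_nonneg_right ?_ hMp.le
      rw [div_le_iff₀ (hspos 0)]
      linarith only [hsν]
    have h2 : M * (n * (c.S.W ν).avg (N ν)) ≤ η / 16 * M := by
      rw [mul_comm M]
      exact mul_le_mul_of_nonneg_right hNν hMp.le
    have h3 : C0 * ∑ i, c.S.ht (rv (Pi.single i 1)) ν ≤ η / 16 * M := by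
      have h4 : ∑ i, c.S.ht (rv (Pi.single i 1)) ν ≤ ∑ _i : Fin n, Cb' * ∑ j, c.s ν j := by
        refine Finset.sum_le_sum fun i _ => (hbd i).trans ?_
        exact mul_le_mul (le_max_left _ _) (hsum _) (hspos _).le hCb'0
      rw [Finset.sum_const, Finset.card_univ, Fintype.card_fin, nsmul_eq_mul] at h4
      have h5 := mul_le_mul_of_nonneg_left h4 hC0.le
      refine h5.trans ?_
      have h6 : 0 ≤ ∑ j, c.s ν j := Finset.sum_nonneg fun j _ => (hspos j).le
      have h7 := mul_le_mul_of_nonneg_right hN03 h6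
      rw [hMdef]
      linarith only [h7]
    have h4 : η / 4 * M ≤ L * (c.S.ht (rv b) ν / 2) := by
      have h5 : c1 * c.s ν j0 ≤ c.S.ht (rv b) ν := by
        rwa [le_div_iff₀ (hspos j0)] at hhv
      have h6 : (ε1 * (M / c.s ν j0) / 2) * (c1 * c.s ν j0 / 2) ≤ L * (c.S.ht (rv b) ν / 2) :=
        mul_le_mul hL2 (by linarith only [h5]) (by have := hspos j0; positivity) (Nat.cast_nonneg _)
      refine le_trans (le_of_eq ?_) h6
      rw [hη]
      have := (hspos j0).ne'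
      field_simp
      ring
    rw [havg] at hfin
    have h5 : 0 < η * M := mul_pos hηp hMp
    linarith only [hfin, h1, h2, h3, h4, h5]
  exact key.exists.elim fun _ h => h

end Pool.Agent.ZP
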