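import Mathlib
import Pool.Agent.Lib.MP_c95b3b_ag_ZP.CL2

set_option autoImplicit false

/-! Project ZP, block K: the contradiction of step B (ZP_full 5.8). -/

namespace Pool.Agent.ZP

open Module Filter Topology Pool.Agent.L3 Pool.Agent.SD

variable {𝓤 : Ultrafilter ℕ} {n q : ℕ}

/-- Laurent polynomials of size `O(M)` which do not vanish on the closures, have neutral exponents
up to `O(N)` and are equal to very small real Laurent polynomials at all archimedean places. -/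
def Sec {c : Cfg 𝓤 n q} (cl : Cl c) (C c8 k : ℝ) (ν : ℕ) : Prop :=
  ∃ (S : ℝ) (N : ℕ) (Q : Finset (Fin n → ℤ)) (r : (Fin n → ℤ) → ℤ),
    (∀ i, c.s ν (c.blk i) ≤ S) ∧ 1 ≤ N ∧
    Real.log (∑ a ∈ Q, |(r a : ℝ)|) ≤ C * (N * k * S) ∧
    lp (cl.Ξ ν) Q (fun a => (r a : c.S.K ν)) ≠ 0 ∧
    (∀ a ∈ Q, ∃ v ∈ c.V, (∀ i, |v i| ≤ C) ∧
      ∀ i, |(a i : ℝ) - N * k * S / c.s ν (c.blk i) * v i| ≤ C * N) ∧
    ∀ σ : Fin (c.S.W ν).D, ∃ r' : (Fin n → ℤ) → ℂ,
      MvPowerSeries.map ((c.S.W ν).σ σ) (lp (cl.Ξ ν) Q (fun a => (r a : c.S.K ν))) =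
        lp (fun i => MvPowerSeries.map ((c.S.W ν).σ σ) (cl.Ξ ν i)) Q r' ∧
      ∑ a ∈ Q, ‖r' a‖ ≤ Real.exp (-(c8 * (N * k * S)))

/-- a finite set of vectors of `V` such that all vectors of `V` are bounded combinations of it -/
theorem exists_span_bdd {n : ℕ} (V : Submodule ℝ (Fin n → ℝ)) :
    ∃ (m : ℕ) (b : Fin m → Fin n → ℝ) (C : ℝ), 0 ≤ C ∧ (∀ k, b k ∈ V) ∧
      ∀ v ∈ V, ∃ y : Fin m → ℝ, v = ∑ k, y k • b k ∧ ∀ k, |y k| ≤ C * ∑ i, |v i| := by
  classical
  set B := Module.finBasis ℝ V with hB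
  obtain ⟨φ, hφ⟩ := LinearMap.exists_leftInverse_of_injective V.subtype
    (LinearMap.ker_eq_bot.2 V.injective_subtype)
  refine ⟨_, fun k => (B k : Fin n → ℝ), ∑ k, ∑ i, |B.repr (φ (Pi.single i 1)) k|,
    Finset.sum_nonneg fun _ _ => Finset.sum_nonneg fun _ _ => abs_nonneg _,
    fun k => (B k).2, ?_⟩
  intro v hv
  refine ⟨fun k => B.repr (⟨v, hv⟩ : V) k, ?_, ?_⟩
  · have h := B.sum_repr (⟨v, hv⟩ : V)
    have h2 := congrArg (V.subtype) h
    rw [map_sum] at h2
    simpa using h2.symm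
  · intro k
    have h1 : (⟨v, hv⟩ : V) = φ v := by
      have := LinearMap.congr_fun hφ (⟨v, hv⟩ : V)
      simpa using this.symm
    have h2 : v = ∑ i, v i • (Pi.single i (1 : ℝ) : Fin n → ℝ) := by
      ext l
      simp [Finset.sum_apply, Pi.single_apply]
    have h3 : B.repr (⟨v, hv⟩ : V) k = ∑ i, v i * B.repr (φ (Pi.single i 1)) k := by
      rw [h1]
      conv_lhs => rw [h2]
      rw [map_sum, map_sum, Finsupp.finsetSum_apply]
      exact Finset.sum_congr rfl fun i _ => by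
        rw [map_smul, map_smul, Finsupp.smul_apply, smul_eq_mul]
    show |B.repr (⟨v, hv⟩ : V) k| ≤ _
    rw [h3]
    refine (Finset.abs_sum_le_sum_abs _ _).trans ?_
    rw [Finset.mul_sum]
    refine Finset.sum_le_sum fun i _ => ?_
    rw [abs_mul, mul_comm]
    refine mul_le_mul_of_nonneg_right ?_ (abs_nonneg _)
    calc |B.repr (φ (Pi.single i 1)) k| ≤ ∑ i, |B.repr (φ (Pi.single i 1)) k| :=
          Finset.single_le_sum (f := fun i => |B.repr (φ (Pi.single i 1)) k|)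
            (fun _ _ => abs_nonneg _) (Finset.mem_univ i)
      _ ≤ _ := Finset.single_le_sum (f := fun k => ∑ i, |B.repr (φ (Pi.single i 1)) k|)
            (fun _ _ => Finset.sum_nonneg fun _ _ => abs_nonneg _) (Finset.mem_univ k)

/-- the neutral error: a function on the places with average `o(1)` which bounds the values of
all exponents in `V` -/
theorem Cfg.neutral_err (c : Cfg 𝓤 n q) :
    ∃ E : ∀ ν, (c.S.W ν).Pl → ℝ, (∀ ν w, 0 ≤ E ν w) ∧
      Tendsto (fun ν => (c.S.W ν).avg (E ν)) 𝓤 (𝓝 0) ∧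
      ∀ v ∈ c.V, ∀ ν w, |∑ i, v i * (c.S.lam ν w i / c.s ν (c.blk i))| ≤
        (∑ i, |v i|) * E ν w := by
  obtain ⟨m, b, C, hC, hb, hv⟩ := exists_span_bdd c.V
  refine ⟨fun ν w => C * ∑ k, |sc c.blk (c.s ν) (b k) ⬝ᵥ c.S.lam ν w|, ?_, ?_, ?_⟩
  · intro ν w
    exact mul_nonneg hC (Finset.sum_nonneg fun _ _ => abs_nonneg _)
  · have h1 : ∀ ν, (c.S.W ν).avg (fun w => C * ∑ k, |sc c.blk (c.s ν) (b k) ⬝ᵥ c.S.lam ν w|) =
        C * ∑ k, c.S.ht (sc c.blk (c.s ν) (b k)) ν := by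
      intro ν
      rw [Places.avg_mul, Places.avg_sum]
      rfl
    simp only [h1]
    have h2 : Tendsto (fun ν => C * ∑ k, c.S.ht (sc c.blk (c.s ν) (b k)) ν) 𝓤
        (𝓝 (C * ∑ _k : Fin m, (0 : ℝ))) :=
      (tendsto_finsetSum _ fun k _ => c.hV (b k) (hb k)).const_mul C
    simpa using h2
  · intro v hvV ν w
    obtain ⟨y, hy, hyC⟩ := hv v hvV
    have h1 : ∑ i, v i * (c.S.lam ν w i / c.s ν (c.blk i)) =
        ∑ k, y k * (sc c.blk (c.s ν) (b k) ⬝ᵥ c.S.lam ν w) := by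
      have h2 : ∀ i, v i = ∑ k, y k * b k i := by
        intro i
        have := congrFun hy i
        simpa [Finset.sum_apply] using this
      simp only [dotProduct, sc, Finset.mul_sum]
      rw [Finset.sum_comm]
      refine Finset.sum_congr rfl fun i _ => ?_
      rw [h2 i, Finset.sum_mul]
      exact Finset.sum_congr rfl fun k _ => by ring
    rw [h1]
    refine (Finset.abs_sum_le_sum_abs _ _).trans ?_
    rw [show (∑ i, |v i|) * (C * ∑ k, |sc c.blk (c.s ν) (b k) ⬝ᵥ c.S.lam ν w|) =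
      ∑ k, (C * ∑ i, |v i|) * |sc c.blk (c.s ν) (b k) ⬝ᵥ c.S.lam ν w| by
        rw [← Finset.mul_sum]; ring]
    refine Finset.sum_le_sum fun k _ => ?_
    rw [abs_mul]
    exact mul_le_mul_of_nonneg_right (hyC k) (abs_nonneg _)

/-- **The contradiction of step B.** -/
theorem false_of_sec (c : Cfg 𝓤 n q) (hb : c.bd) (cl : Cl c) (C c8 k0 : ℝ) (hC : 0 ≤ C)
    (hc8 : 0 < c8) (h : ∀ k : ℝ, k0 ≤ k → ∀ᶠ ν in (𝓤 : Filter ℕ), Sec cl C c8 k ν) : False := by
  classical
  obtain ⟨hb1, -⟩ := c.bdd hb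
  obtain ⟨Ch, hCh⟩ := c.hbd
  obtain ⟨E, hE0, hE1, hE2⟩ := c.neutral_err
  set Ch' : ℝ := max Ch 0 with hCh'
  set k : ℝ := max (max k0 1) (8 * (C * n * Ch' + 1) / c8) with hk
  have hk0 : k0 ≤ k := (le_max_left _ _).trans (le_max_left _ _)
  have hk1 : 1 ≤ k := (le_max_right _ _).trans (le_max_left _ _)
  have hk2 : 8 * (C * n * Ch' + 1) / c8 ≤ k := le_max_right _ _
  have hstar := star cl (2 * C + 1) (c8 / 8) (by positivity) (by positivity)
  have hEs : ∀ᶠ ν in (𝓤 : Filter ℕ), (c.S.W ν).avg (E ν) ≤ c8 / (8 * (n * C + 1)) := by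
    have h1 : (0 : ℝ) < c8 / (8 * (n * C + 1)) := by positivity
    exact (hE1.eventually (gt_mem_nhds h1)).mono fun ν h => h.le
  obtain ⟨ν, ⟨⟨S, N, Q, r, hS, hN, hlog, hne, hQ, hσ⟩, hst⟩, hht, hE⟩ :=
    (((h k hk0).and hstar).and (hCh.and hEs)).exists
  set M : ℝ := N * k * S with hM
  have hs0 : c.s ν 0 = 1 := hb1 ν
  have hn : ∃ i, c.blk i = 0 := (c.bdd hb).2.2.2
  obtain ⟨i0, hi0⟩ := hn
  have hS1 : 1 ≤ S := by
    have := hS i0
    rw [hi0, hs0] at this
    exact this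
  have hsp : ∀ i, 1 ≤ c.s ν (c.blk i) := fun i => hs0 ▸ c.s_le ν _
  have hN1 : (1 : ℝ) ≤ N := by exact_mod_cast hN
  have hNk : (1 : ℝ) ≤ N * k := by nlinarith
  have hMS : S ≤ M := by
    rw [hM]
    nlinarith
  have hNM : ∀ i, (N : ℝ) ≤ M / c.s ν (c.blk i) := by
    intro i
    rw [le_div_iff₀ (by linarith [hsp i])]
    have h1 := hS i
    calc (N : ℝ) * c.s ν (c.blk i) ≤ N * S := mul_le_mul_of_nonneg_left h1 (by linarith)
      _ ≤ N * k * S := by
        rw [mul_assoc]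
        refine mul_le_mul_of_nonneg_left ?_ (by linarith)
        nlinarith
  have hM0 : 0 < M := by linarith
  -- the exponents
  have hexp : ∀ a ∈ Q, ∀ i, |(a i : ℝ)| ≤ (2 * C + 1) * M / c.s ν (c.blk i) := by
    intro a ha i
    obtain ⟨v, hv, hvC, hav⟩ := hQ a ha
    have h1 := hav i
    have h2 : |M / c.s ν (c.blk i) * v i| ≤ M / c.s ν (c.blk i) * C := by
      rw [abs_mul, abs_of_nonneg (by have := hsp i; positivity)]
      exact mul_le_mul_of_nonneg_left (hvC i) (by have := hsp i; positivity)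
    have h3 : |(a i : ℝ)| ≤ |(a i : ℝ) - M / c.s ν (c.blk i) * v i| +
        |M / c.s ν (c.blk i) * v i| := by
      have := abs_add_le ((a i : ℝ) - M / c.s ν (c.blk i) * v i) (M / c.s ν (c.blk i) * v i)
      simpa using this
    have h4 := mul_le_mul_of_nonneg_left (hNM i) hC
    have h5 : (2 * C + 1) * M / c.s ν (c.blk i) =
        2 * (C * (M / c.s ν (c.blk i))) + M / c.s ν (c.blk i) := by ring
    have h6 : 0 ≤ M / c.s ν (c.blk i) := by have := hsp i; positivity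
    rw [h5]
    linarith
  -- the bound at the places
  have hval : ∀ a ∈ Q, ∀ w, ∑ i, (a i : ℝ) * (c.S.W ν).lg w (c.S.p ν i) ≤
      M * ((n * C) * E ν w) + C * N * ∑ i, |c.S.lam ν w i| := by
    intro a ha w
    obtain ⟨v, hv, hvC, hav⟩ := hQ a ha
    have h1 := hE2 v hv ν w
    have h2 : ∑ i, (a i : ℝ) * (c.S.W ν).lg w (c.S.p ν i) =
        M * ∑ i, v i * (c.S.lam ν w i / c.s ν (c.blk i)) +
        ∑ i, ((a i : ℝ) - M / c.s ν (c.blk i) * v i) * c.S.lam ν w i := by
      rw [Finset.mul_sum, ← Finset.sum_add_distrib]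
      refine Finset.sum_congr rfl fun i _ => ?_
      show (a i : ℝ) * c.S.lam ν w i = _
      ring
    rw [h2]
    have h3 : ∑ i, |v i| ≤ n * C := by
      calc ∑ i, |v i| ≤ ∑ _i : Fin n, C := Finset.sum_le_sum fun i _ => hvC i
        _ = n * C := by simp
    have h4 : M * ∑ i, v i * (c.S.lam ν w i / c.s ν (c.blk i)) ≤ M * ((n * C) * E ν w) := by
      refine mul_le_mul_of_nonneg_left ?_ hM0.le
      refine (le_abs_self _).trans (h1.trans ?_)
      exact mul_le_mul_of_nonneg_right h3 (hE0 ν w)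
    have h5 : ∑ i, ((a i : ℝ) - M / c.s ν (c.blk i) * v i) * c.S.lam ν w i ≤
        C * N * ∑ i, |c.S.lam ν w i| := by
      rw [Finset.mul_sum]
      refine Finset.sum_le_sum fun i _ => ?_
      refine (le_abs_self _).trans ?_
      rw [abs_mul]
      exact mul_le_mul_of_nonneg_right (hav i) (abs_nonneg _)
    linarith
  set b : (c.S.W ν).Pl → ℝ := fun w =>
    (M * ((n * C) * E ν w) + C * N * ∑ i, |c.S.lam ν w i|) + (-(c8 * M)) * (c.S.W ν).arch w
    with hbdef
  have hrep : ∀ w, RepW (c.S.W ν) (c.S.p ν) (cl.Ξ ν)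
      (lp (cl.Ξ ν) Q fun a => (r a : c.S.K ν))
      (fun i => (2 * C + 1) * M / c.s ν (c.blk i)) (b w) w := by
    rintro (σ | v)
    · obtain ⟨r', hr1, hr2⟩ := hσ σ
      refine ⟨Q, r', hr1, hexp, ?_⟩
      intro a ha
      have h1 := hval a ha (.inl σ)
      have h2 : 0 < ∑ a ∈ Q, ‖r' a‖ := by
        rcases (Finset.sum_nonneg fun a _ => norm_nonneg (r' a) :
          0 ≤ ∑ a ∈ Q, ‖r' a‖).lt_or_eq with h3 | h3
        · exact h3
        · exfalso
          have h4 := (Finset.sum_eq_zero_iff_of_nonneg fun a _ => norm_nonneg (r' a)).1 h3.symm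
          have h5 : lp (fun i => MvPowerSeries.map ((c.S.W ν).σ σ) (cl.Ξ ν i)) Q r' = 0 := by
            unfold lp
            refine Finset.sum_eq_zero fun a ha => ?_
            rw [norm_eq_zero.1 (h4 a ha), map_zero, zero_mul]
          rw [h5] at hr1
          apply hne
          ext γ
          have h6 := congrArg (MvPowerSeries.coeff γ) hr1
          rw [MvPowerSeries.coeff_map, map_zero] at h6
          rw [map_zero]
          exact (map_eq_zero _).1 h6
      have h3 : Real.log (∑ a ∈ Q, ‖r' a‖) ≤ -(c8 * M) := by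
        rw [Real.log_le_iff_le_exp h2]
        exact hr2
      show _ ≤ (M * ((n * C) * E ν (.inl σ)) + C * N * ∑ i, |c.S.lam ν (.inl σ) i|) +
        (-(c8 * M)) * (c.S.W ν).arch (.inl σ)
      rw [Places.arch_inl]
      linarith
    · refine ⟨Q, r, rfl, hexp, ?_⟩
      intro a ha
      have h1 := hval a ha (.inr v)
      show _ ≤ (M * ((n * C) * E ν (.inr v)) + C * N * ∑ i, |c.S.lam ν (.inr v) i|) +
        (-(c8 * M)) * (c.S.W ν).arch (.inr v)
      rw [Places.arch_inr]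
      linarith
  have hlow := hst M Q r b (by rw [hs0]; linarith) (fun i => (hS i).trans hMS) hexp
    (by
      rw [hs0, div_one]
      refine hlog.trans ?_
      nlinarith) hne hrep
  have hup : (c.S.W ν).avg b = M * ((n * C) * (c.S.W ν).avg (E ν)) +
      C * N * ∑ i, c.S.ht (rv (Pi.single i 1)) ν + -(c8 * M) := by
    rw [hbdef, Places.avg_add, Places.avg_add, Places.avg_mul, Places.avg_mul, Places.avg_mul,
      Places.avg_sum, Places.avg_const_arch]
    congr 3
    refine Finset.sum_congr rfl fun i _ => ?_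
    unfold Sq.ht
    congr 1
    funext w
    congr 1
    have h1 : (rv (Pi.single i (1 : ℤ)) : Fin n → ℝ) = Pi.single i 1 := by
      ext l
      simp [rv, Pi.single_apply]
    rw [h1, single_one_dotProduct]
  have h1 : ∑ i, c.S.ht (rv (Pi.single i 1)) ν ≤ n * (Ch' * S) := by
    calc ∑ i, c.S.ht (rv (Pi.single i 1)) ν ≤ ∑ _i : Fin n, Ch' * S := by
          refine Finset.sum_le_sum fun i _ => (hht i).trans ?_
          have h2 : Ch * c.s ν (c.blk i) ≤ Ch' * c.s ν (c.blk i) :=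
            mul_le_mul_of_nonneg_right (le_max_left _ _) (by linarith [hsp i])
          exact h2.trans (mul_le_mul_of_nonneg_left (hS i) (le_max_right _ _))
      _ = n * (Ch' * S) := by simp
  have h2 : C * N * ∑ i, c.S.ht (rv (Pi.single i 1)) ν ≤ c8 / 8 * M := by
    have h3 : C * N * ∑ i, c.S.ht (rv (Pi.single i 1)) ν ≤ C * N * (n * (Ch' * S)) :=
      mul_le_mul_of_nonneg_left h1 (by positivity)
    refine h3.trans ?_
    have h4 : C * n * Ch' ≤ c8 / 8 * k := by
      rw [div_le_iff₀ hc8] at hk2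
      linarith
    have h5 : C * N * (n * (Ch' * S)) = (C * n * Ch') * (N * S) := by ring
    have h6 : c8 / 8 * M = (c8 / 8 * k) * (N * S) := by rw [hM]; ring
    rw [h5, h6]
    exact mul_le_mul_of_nonneg_right h4 (by positivity)
  have h3 : M * ((n * C) * (c.S.W ν).avg (E ν)) ≤ c8 / 8 * M := by
    have h4 : (n * C) * (c.S.W ν).avg (E ν) ≤ c8 / 8 := by
      have h5 : (n * C : ℝ) * (c.S.W ν).avg (E ν) ≤ (n * C + 1) * (c8 / (8 * (n * C + 1))) := by
        have h6 : 0 ≤ (c.S.W ν).avg (E ν) := Places.avg_nonneg _ (hE0 ν)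
        have h7 : (0 : ℝ) ≤ n * C := by positivity
        calc (n * C : ℝ) * (c.S.W ν).avg (E ν) ≤ (n * C + 1) * (c.S.W ν).avg (E ν) := by
              nlinarith
          _ ≤ _ := mul_le_mul_of_nonneg_left hE (by linarith)
      have h8 : (n * C + 1 : ℝ) * (c8 / (8 * (n * C + 1))) = c8 / 8 := by
        have : (n * C + 1 : ℝ) ≠ 0 := by positivity
        field_simp
      linarith
    nlinarith
  rw [hup] at hlow
  nlinarith
end Pool.Agent.ZP
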