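import Mathlib
import Pool.Agent.Lib.MP_c95b3b_ag_SD.Link
import Pool.Agent.Lib.MP_c95b3b_ag_ZP.Defs
import Pool.Agent.Lib.MP_c95b3b_ag_ZP.OT.Off

set_option autoImplicit false

/-! Project ZP, block OT: the point off the torus (ZP_full 5.3, 5.4). -/

namespace Pool.Agent.ZP

open Module Filter Topology Pool.Agent.SD

/-- Let `W` be a space of exponents `b` with constants `ζ`, such that the logarithmic forms of the
exponents have rank `d = dim`, but the exponents span a space of dimension `> d`. Then there are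
a point `ψ t1` of the variety and `u 0, .., u d` in `W` such that `∑ b l log |ψ l| + ζ` is positive
for `u 0` and zero for `u 1, .., u d`, and such that `u 1, .., u d` define local coordinates. -/
theorem off_torus {L : Type} [Field L] [Algebra ℂ L] {m d : ℕ} (x : Fin m → L)
    (hx : ∀ i, x i ≠ 0) (hcos : ∀ a : Fin m → ℤ, a ≠ 0 → om x (rv a) ≠ 0) (hd : dm x = d)
    (W : Submodule ℝ ((Fin m → ℝ) × ℝ)) (h1 : rk x (Prod.fst '' (W : Set ((Fin m → ℝ) × ℝ))) = d)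
    (h2 : d + 1 ≤ finrank ℝ (W.map (LinearMap.fst ℝ (Fin m → ℝ) ℝ))) :
    ∃ (κ : Fin d → Fin m) (z0 : Fin m → ℂ) (ch : Chart x κ z0) (t1 : Fin d → ℂ)
      (u : Fin (d + 1) → (Fin m → ℝ) × ℝ), t1 ∈ ch.U ∧ (∀ i, u i ∈ W) ∧
      0 < pv (u 0) (ch.ψ t1) ∧ (∀ i : Fin d, pv (u i.succ) (ch.ψ t1) = 0) ∧
      (jac (fun i => (u i.succ).1) ch.ψ t1).det ≠ 0 := by
  have hnc : ∀ a : Fin m → ℤ, om x (rv a) = 0 → a = 0 := by
    intro a ha
    by_contra hne
    exact hcos a hne ha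
  let r : W →ₗ[ℝ] (Fin m → ℝ) := (LinearMap.fst ℝ (Fin m → ℝ) ℝ).comp W.subtype
  let ζ : W →ₗ[ℝ] ℝ := (LinearMap.snd ℝ (Fin m → ℝ) ℝ).comp W.subtype
  have hr : LinearMap.range r = W.map (LinearMap.fst ℝ (Fin m → ℝ) ℝ) := by
    rw [LinearMap.range_comp, Submodule.range_subtype]
  have hrk : ∃ w : Fin d → W, LinearIndependent L (fun j => om x (r (w j))) := by
    have hfin := finite_span_om x (Prod.fst '' (W : Set ((Fin m → ℝ) × ℝ)))
    obtain ⟨f, hf1, hf2, hf3⟩ := Submodule.exists_fun_fin_finrank_span_eq L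
      (om x '' (Prod.fst '' (W : Set ((Fin m → ℝ) × ℝ))))
    have h6 : finrank L (Submodule.span L
      (om x '' (Prod.fst '' (W : Set ((Fin m → ℝ) × ℝ))))) = d := h1
    have h7 : ∀ j : Fin d, ∃ u : W, om x (r u) = f (Fin.cast h6.symm j) := by
      intro j
      obtain ⟨_, ⟨u, hu, rfl⟩, h⟩ := hf1 (Fin.cast h6.symm j)
      exact ⟨⟨u, hu⟩, h⟩
    choose w hw using h7
    refine ⟨w, ?_⟩
    simp only [hw]
    exact hf3.comp _ (Fin.cast_injective _)
  obtain ⟨κ, z0, c, t, u0, u, ht, hu0, hu, hdet⟩ := OT.off_torus hx hd hnc r ζ hrk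
    (by rw [hr]; exact h2)
  exact ⟨κ, z0, c, t, Fin.cons (u0 : (Fin m → ℝ) × ℝ) (fun j => (u j : (Fin m → ℝ) × ℝ)), ht,
    fun i => Fin.cases (motive := fun i => (Fin.cons (u0 : (Fin m → ℝ) × ℝ)
      (fun j => (u j : (Fin m → ℝ) × ℝ)) : Fin (d + 1) → (Fin m → ℝ) × ℝ) i ∈ W)
      u0.2 (fun j => (u j).2) i, hu0, hu, hdet⟩

end Pool.Agent.ZP
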