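import Mathlib

set_option autoImplicit false

/-! Project ZP (MP_c95b3b_ag), block SH, (5.5): sheets.

`ℓ` is a local parametrisation of the logarithms of the coordinates of the points of a complex
variety. For directions `b i` whose forms are local coordinates, integral vectors `a i` near
`T * b i` and constants `exp (g i)` of absolute value near that of the inverse of
`exp (T * b i . ℓ t0)`, every system `exp (a i . ℓ t + g i) = ζ i` with unimodular right hand sides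
has at least `c * T ^ d` solutions near `t0`, and at all of them `|exp (a0 . ℓ t + g0)|` is large. -/

namespace Pool.Agent.ZP

open Filter Topology

namespace Sheets

/-- the linear map given by a real matrix -/
noncomputable def mat {n d : ℕ} (β : Fin d → Fin n → ℝ) : (Fin n → ℂ) →L[ℂ] (Fin d → ℂ) :=
  LinearMap.toContinuousLinearMap
    { toFun := fun w i => ∑ l, (β i l : ℂ) * w l
      map_add' := by
        intro x y
        ext j
        simp [mul_add, Finset.sum_add_distrib]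
      map_smul' := by
        intro c x
        ext j
        simp [Finset.mul_sum, mul_left_comm] }

theorem mat_apply {n d : ℕ} (β : Fin d → Fin n → ℝ) (w : Fin n → ℂ) (i : Fin d) :
    mat β w i = ∑ l, (β i l : ℂ) * w l := rfl

theorem mat_sub {n d : ℕ} (β β' : Fin d → Fin n → ℝ) {δ : ℝ} (hδ : 0 ≤ δ)
    (h : ∀ i l, |β i l - β' i l| ≤ δ) (w : Fin n → ℂ) :
    ‖mat β w - mat β' w‖ ≤ n * δ * ‖w‖ := by
  have hb : 0 ≤ n * δ * ‖w‖ := by positivity
  rw [pi_norm_le_iff_of_nonneg hb]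
  intro i
  rw [Pi.sub_apply, mat_apply, mat_apply, ← Finset.sum_sub_distrib]
  calc ‖∑ l, ((β i l : ℂ) * w l - (β' i l : ℂ) * w l)‖
      ≤ ∑ l, ‖(β i l : ℂ) * w l - (β' i l : ℂ) * w l‖ := norm_sum_le _ _
    _ ≤ ∑ _l : Fin n, δ * ‖w‖ := by
        refine Finset.sum_le_sum fun l _ => ?_
        rw [← sub_mul, norm_mul]
        have h1 : ‖(β i l : ℂ) - (β' i l : ℂ)‖ ≤ δ := by
          rw [← Complex.ofReal_sub, Complex.norm_real, Real.norm_eq_abs]
          exact h i l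
        exact mul_le_mul h1 (norm_le_pi_norm w l) (norm_nonneg _) hδ
    _ = n * δ * ‖w‖ := by
        rw [Finset.sum_const, Finset.card_univ, Fintype.card_fin, nsmul_eq_mul, mul_assoc]

/-- The lower bound for the index zero function. -/
theorem re_large {n : ℕ} (w0 w : Fin n → ℂ) (b0 : Fin n → ℝ) (a0 : Fin n → ℤ) (g0 : ℂ)
    {C T p η : ℝ} (hC : 0 ≤ C) (hT : 1 ≤ T) (ha : ∀ l, |(a0 l : ℝ) - T * b0 l| ≤ C)
    (hp : p ≤ (∑ l, (b0 l : ℂ) * w0 l).re + g0.re / T) (hw : ‖w - w0‖ ≤ η)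
    (hη : ((∑ l, |b0 l|) + n * C) * η ≤ p / 4) (hT2 : n * C * ‖w0‖ ≤ p / 4 * T) :
    p / 2 * T ≤ (∑ l, (a0 l : ℂ) * w l + g0).re := by
  have hTpos : 0 < T := by linarith
  have h1 : (∑ l, (a0 l : ℂ) * w l + g0) =
      ((T : ℂ) * ∑ l, (b0 l : ℂ) * w0 l + g0) + (∑ l, (((a0 l : ℝ) - T * b0 l : ℝ) : ℂ) * w0 l) +
        ∑ l, (a0 l : ℂ) * (w l - w0 l) := by
    have h2 : ∀ l, (a0 l : ℂ) * w l = (T : ℂ) * ((b0 l : ℂ) * w0 l) +
        (((a0 l : ℝ) - T * b0 l : ℝ) : ℂ) * w0 l + (a0 l : ℂ) * (w l - w0 l) := by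
      intro l
      push_cast
      ring
    rw [Finset.sum_congr rfl fun l _ => h2 l, Finset.sum_add_distrib, Finset.sum_add_distrib,
      Finset.mul_sum]
    ring
  have h3 : p * T ≤ ((T : ℂ) * ∑ l, (b0 l : ℂ) * w0 l + g0).re := by
    rw [Complex.add_re, Complex.re_ofReal_mul]
    have h4 := mul_le_mul_of_nonneg_right hp hTpos.le
    have h5 : ((∑ l, (b0 l : ℂ) * w0 l).re + g0.re / T) * T =
        T * (∑ l, (b0 l : ℂ) * w0 l).re + g0.re := by
      field_simp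
    rwa [h5] at h4
  have h4 : -(n * C * ‖w0‖) ≤ (∑ l, (((a0 l : ℝ) - T * b0 l : ℝ) : ℂ) * w0 l).re := by
    have h5 : ‖∑ l, (((a0 l : ℝ) - T * b0 l : ℝ) : ℂ) * w0 l‖ ≤ n * C * ‖w0‖ := by
      calc ‖∑ l, (((a0 l : ℝ) - T * b0 l : ℝ) : ℂ) * w0 l‖
          ≤ ∑ l, ‖(((a0 l : ℝ) - T * b0 l : ℝ) : ℂ) * w0 l‖ := norm_sum_le _ _
        _ ≤ ∑ _l : Fin n, C * ‖w0‖ := by
            refine Finset.sum_le_sum fun l _ => ?_
            rw [norm_mul, Complex.norm_real, Real.norm_eq_abs]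
            exact mul_le_mul (ha l) (norm_le_pi_norm w0 l) (norm_nonneg _) hC
        _ = n * C * ‖w0‖ := by
            rw [Finset.sum_const, Finset.card_univ, Fintype.card_fin, nsmul_eq_mul, mul_assoc]
    have h6 := Complex.abs_re_le_norm (∑ l, (((a0 l : ℝ) - T * b0 l : ℝ) : ℂ) * w0 l)
    have h7 := (abs_le.1 (h6.trans h5)).1
    exact h7
  have hη0 : 0 ≤ η := (norm_nonneg _).trans hw
  have h5 : -(p / 4 * T) ≤ (∑ l, (a0 l : ℂ) * (w l - w0 l)).re := by
    have h6 : ‖∑ l, (a0 l : ℂ) * (w l - w0 l)‖ ≤ p / 4 * T := by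
      calc ‖∑ l, (a0 l : ℂ) * (w l - w0 l)‖
          ≤ ∑ l, ‖(a0 l : ℂ) * (w l - w0 l)‖ := norm_sum_le _ _
        _ ≤ ∑ l, ((|b0 l| + C) * T) * η := by
            refine Finset.sum_le_sum fun l _ => ?_
            rw [norm_mul, Complex.norm_intCast]
            refine mul_le_mul ?_ ((norm_le_pi_norm (w - w0) l).trans hw) (norm_nonneg _) ?_
            · have h7 : (a0 l : ℝ) = T * b0 l + ((a0 l : ℝ) - T * b0 l) := by ring
              have h8 := abs_add_le (T * b0 l) ((a0 l : ℝ) - T * b0 l)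
              rw [← h7, abs_mul, abs_of_pos hTpos] at h8
              have h9 : C ≤ C * T := le_mul_of_one_le_right hC hT
              have := ha l
              nlinarith
            · have := abs_nonneg (b0 l)
              positivity
        _ = ((∑ l, |b0 l|) + n * C) * η * T := by
            rw [← Finset.sum_mul, ← Finset.sum_mul, Finset.sum_add_distrib, Finset.sum_const,
              Finset.card_univ, Fintype.card_fin, nsmul_eq_mul]
            ring
        _ ≤ p / 4 * T := mul_le_mul_of_nonneg_right hη hTpos.le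
    exact (abs_le.1 ((Complex.abs_re_le_norm _).trans h6)).1
  rw [h1, Complex.add_re, Complex.add_re]
  linarith

end Sheets

open Sheets in
/-- SHEETS. -/
theorem sheets {n d : ℕ} (t0 : Fin d → ℂ) (U : Set (Fin d → ℂ)) (hU : U ∈ 𝓝 t0)
    (ℓ : (Fin d → ℂ) → Fin n → ℂ) (hℓ : AnalyticAt ℂ ℓ t0) (b : Fin d → Fin n → ℝ)
    (hinj : ∀ v : Fin d → ℂ, (∀ i, ∑ l, (b i l : ℂ) * fderiv ℂ ℓ t0 v l = 0) → v = 0)
    (b0 : Fin n → ℝ) (C : ℝ) (p : ℝ) (hp : 0 < p) :
    ∃ c ε T0 : ℝ, 0 < c ∧ 0 < ε ∧ 1 ≤ T0 ∧ ∀ T : ℝ, T0 ≤ T →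
      ∀ (a : Fin d → Fin n → ℤ) (g : Fin d → ℂ) (a0 : Fin n → ℤ) (g0 : ℂ),
        (∀ i l, |(a i l : ℝ) - T * b i l| ≤ C) →
        (∀ i, |(∑ l, (b i l : ℂ) * ℓ t0 l).re + (g i).re / T| ≤ ε) →
        (∀ l, |(a0 l : ℝ) - T * b0 l| ≤ C) →
        p ≤ (∑ l, (b0 l : ℂ) * ℓ t0 l).re + g0.re / T →
        ∀ ζ : Fin d → ℂ, (∀ i, ‖ζ i‖ = 1) →
          ∃ Q : Finset (Fin d → ℂ), c * T ^ d ≤ Q.card ∧ ∀ t ∈ Q, t ∈ U ∧
            (∀ i, Complex.exp (∑ l, (a i l : ℂ) * ℓ t l + g i) = ζ i) ∧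
            p / 2 * T ≤ (∑ l, (a0 l : ℂ) * ℓ t l + g0).re := by
  classical
  -- reduce to `0 ≤ C`
  wlog hC : 0 ≤ C generalizing C
  · obtain ⟨c, ε, T0, h1, h2, h3, h4⟩ := this |C| (abs_nonneg C)
    exact ⟨c, ε, T0, h1, h2, h3, fun T hT a g a0 g0 ha hg ha0 hg0 =>
      h4 T hT a g a0 g0 (fun i l => (ha i l).trans (le_abs_self C)) hg
        (fun l => (ha0 l).trans (le_abs_self C)) hg0⟩
  -- the neighbourhood for the index zero function
  obtain ⟨η, hη, hη2⟩ : ∃ η : ℝ, 0 < η ∧ ((∑ l, |b0 l|) + n * C) * η ≤ p / 4 := by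
    have h1 : 0 ≤ (∑ l, |b0 l|) + n * C := by
      have := Finset.sum_nonneg fun (l : Fin n) (_ : l ∈ Finset.univ) => abs_nonneg (b0 l)
      positivity
    refine ⟨p / 4 / ((∑ l, |b0 l|) + n * C + 1), by positivity, ?_⟩
    rw [mul_div_assoc', div_le_iff₀ (by linarith)]
    nlinarith
  have hV : {t | ‖ℓ t - ℓ t0‖ ≤ η} ∈ 𝓝 t0 := by
    have h1 : Tendsto (fun t => ‖ℓ t - ℓ t0‖) (𝓝 t0) (𝓝 ‖ℓ t0 - ℓ t0‖) :=
      (hℓ.continuousAt.sub continuousAt_const).norm
    rw [sub_self, norm_zero] at h1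
    filter_upwards [h1 (Iio_mem_nhds hη)] with t ht
    exact (show ‖ℓ t - ℓ t0‖ < η from ht).le
  rcases Nat.eq_zero_or_pos d with hd | hd
  · subst hd
    obtain ⟨T1, hT1⟩ : ∃ T1 : ℝ, n * C * ‖ℓ t0‖ ≤ p / 4 * T1 :=
      ⟨n * C * ‖ℓ t0‖ / (p / 4), by rw [mul_div_cancel₀ _ (by positivity)]⟩
    refine ⟨1, 1, max 1 T1, one_pos, one_pos, le_max_left _ _, ?_⟩
    intro T hT a g a0 g0 _ _ ha0 hg0 ζ _
    refine ⟨{t0}, by simp, fun t ht => ?_⟩
    rw [Finset.mem_singleton] at ht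
    subst ht
    have h1 : (1 : ℝ) ≤ T := (le_max_left _ _).trans hT
    refine ⟨mem_of_mem_nhds hU, fun i => i.elim0, ?_⟩
    refine re_large (ℓ t) (ℓ t) b0 a0 g0 hC h1 ha0 hg0 (η := 0) (by simp) (by simp; positivity) ?_
    exact hT1.trans (mul_le_mul_of_nonneg_left ((le_max_right _ _).trans hT) (by positivity))
  -- the linear map
  set D0 : (Fin d → ℂ) →L[ℂ] (Fin n → ℂ) := fderiv ℂ ℓ t0 with hD0
  have hLinj : Function.Injective ((mat b).comp D0).toLinearMap := by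
    rw [injective_iff_map_eq_zero]
    intro v hv
    have h1 : mat b (D0 v) = 0 := hv
    exact hinj v fun i => congrFun h1 i
  set A : (Fin d → ℂ) ≃L[ℂ] (Fin d → ℂ) :=
    (LinearEquiv.ofInjectiveOfFinrankEq ((mat b).comp D0).toLinearMap hLinj
      rfl).toContinuousLinearEquiv with hA
  have hAv : ∀ v, A v = mat b (D0 v) := fun v => rfl
  have : Nonempty (Fin d) := ⟨⟨0, hd⟩⟩
  have hNpos : 0 < ‖(A.symm : (Fin d → ℂ) →L[ℂ] (Fin d → ℂ))‖ := A.norm_symm_pos
  set N : ℝ := ‖(A.symm : (Fin d → ℂ) →L[ℂ] (Fin d → ℂ))‖ with hN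
  set K : ℝ := ‖mat b‖ + n * C + 1 with hK
  have hKpos : 0 < K := by positivity
  set ε : ℝ := 1 / (2 * N) with hε
  have hεpos : 0 < ε := by positivity
  -- the neighbourhood
  have hstr : HasStrictFDerivAt ℓ D0 t0 := hℓ.hasStrictFDerivAt
  have hc1 : 0 < ε / (2 * K) := by positivity
  obtain ⟨s, hs, happ⟩ := hstr.approximates_deriv_on_nhds
    (c := ⟨ε / (2 * K), hc1.le⟩) (Or.inr hc1)
  obtain ⟨r, hr, hball⟩ := Metric.nhds_basis_closedBall.mem_iff.1
    (Filter.inter_mem hs (Filter.inter_mem hU hV))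
  set r' : ℝ := (N⁻¹ - ε) * r with hr'
  have hr'pos : 0 < r' := by
    have : N⁻¹ - ε = 1 / (2 * N) := by
      rw [hε]
      field_simp
      norm_num
    rw [hr', this]
    positivity
  set κ : ℝ := r' / (4 * Real.pi) with hκ
  have hκpos : 0 < κ := by positivity
  obtain ⟨T1, hT1⟩ : ∃ T1 : ℝ, n * C * ‖ℓ t0‖ ≤ p / 4 * T1 :=
    ⟨n * C * ‖ℓ t0‖ / (p / 4), by rw [mul_div_cancel₀ _ (by positivity)]⟩
  obtain ⟨T2, hT2⟩ : ∃ T2 : ℝ, n * C * ‖D0‖ ≤ ε / 2 * T2 :=
    ⟨n * C * ‖D0‖ / (ε / 2), by rw [mul_div_cancel₀ _ (by positivity)]⟩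
  obtain ⟨T3, hT3⟩ : ∃ T3 : ℝ, n * C * ‖ℓ t0‖ ≤ r' / 4 * T3 :=
    ⟨n * C * ‖ℓ t0‖ / (r' / 4), by rw [mul_div_cancel₀ _ (by positivity)]⟩
  refine ⟨(κ / 2) ^ d, r' / 4, max 1 (max T1 (max T2 (max T3 (2 / κ)))), by positivity,
    by positivity, le_max_left _ _, ?_⟩
  intro T hT a g a0 g0 ha hg ha0 hg0 ζ hζ
  have hT1' : (1 : ℝ) ≤ T := (le_max_left _ _).trans hT
  have hTt : max T1 (max T2 (max T3 (2 / κ))) ≤ T := (le_max_right _ _).trans hT
  have hTT1 : T1 ≤ T := (le_max_left _ _).trans hTt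
  have hTT2 : T2 ≤ T := ((le_max_left _ _).trans (le_max_right _ _)).trans hTt
  have hTT3 : T3 ≤ T :=
    ((le_max_left _ _).trans ((le_max_right _ _).trans (le_max_right _ _))).trans hTt
  have hTT4 : 2 / κ ≤ T :=
    ((le_max_right _ _).trans ((le_max_right _ _).trans (le_max_right _ _))).trans hTt
  have hTpos : 0 < T := by linarith
  set β : Fin d → Fin n → ℝ := fun i l => a i l / T with hβ
  have hβb : ∀ i l, |β i l - b i l| ≤ C / T := by
    intro i l
    have h1 : β i l - b i l = ((a i l : ℝ) - T * b i l) / T := by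
      rw [hβ]
      field_simp
    rw [h1, abs_div, abs_of_pos hTpos]
    exact div_le_div_of_nonneg_right (ha i l) hTpos.le
  have hCT : 0 ≤ C / T := by positivity
  have hCT1 : C / T ≤ C := div_le_self hC hT1'
  have hTβ : ∀ w, ‖mat β w‖ ≤ (‖mat b‖ + n * C) * ‖w‖ := by
    intro w
    have h1 := mat_sub β b hCT hβb w
    have h2 : mat β w = mat b w + (mat β w - mat b w) := by abel
    rw [h2]
    refine (norm_add_le _ _).trans ?_
    have h3 := (mat b).le_opNorm w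
    have h4 : (n : ℝ) * (C / T) * ‖w‖ ≤ n * C * ‖w‖ := by gcongr
    nlinarith [norm_nonneg w]
  set Φ : (Fin d → ℂ) → (Fin d → ℂ) := fun t => mat β (ℓ t) with hΦ
  have hΦapp : ApproximatesLinearOn Φ (A : (Fin d → ℂ) →L[ℂ] _) s ⟨ε, hεpos.le⟩ := by
    intro x hx y hy
    have h1 := happ x hx y hy
    have h2 : Φ x - Φ y - (A : (Fin d → ℂ) →L[ℂ] _) (x - y) =
        mat β (ℓ x - ℓ y - D0 (x - y)) + (mat β (D0 (x - y)) - mat b (D0 (x - y))) := by
      have h3 : (A : (Fin d → ℂ) →L[ℂ] _) (x - y) = mat b (D0 (x - y)) := hAv _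
      rw [h3]
      simp only [hΦ, map_sub]
      abel
    rw [h2]
    have h4 := hTβ (ℓ x - ℓ y - D0 (x - y))
    have h5 := mat_sub β b hCT hβb (D0 (x - y))
    have h6 := D0.le_opNorm (x - y)
    have h7 : ‖ℓ x - ℓ y - D0 (x - y)‖ ≤ ε / (2 * K) * ‖x - y‖ := h1
    have h8 : (‖mat b‖ + n * C) * ‖ℓ x - ℓ y - D0 (x - y)‖ ≤ ε / 2 * ‖x - y‖ := by
      have h9 : (‖mat b‖ + n * C) * ‖ℓ x - ℓ y - D0 (x - y)‖ ≤ K * (ε / (2 * K) * ‖x - y‖) := by
        refine mul_le_mul ?_ h7 (norm_nonneg _) hKpos.le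
        rw [hK]
        linarith
      have h10 : K * (ε / (2 * K) * ‖x - y‖) = ε / 2 * ‖x - y‖ := by
        field_simp
      linarith
    have h11 : (n : ℝ) * (C / T) * ‖D0 (x - y)‖ ≤ ε / 2 * ‖x - y‖ := by
      have h12 : (n : ℝ) * (C / T) * ‖D0 (x - y)‖ ≤ n * (C / T) * (‖D0‖ * ‖x - y‖) := by gcongr
      have h13 : (n : ℝ) * (C / T) * ‖D0‖ ≤ ε / 2 := by
        have h14 : n * C * ‖D0‖ ≤ ε / 2 * T :=
          hT2.trans (mul_le_mul_of_nonneg_left hTT2 (by positivity))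
        have h15 : (n : ℝ) * (C / T) * ‖D0‖ = n * C * ‖D0‖ / T := by ring
        rw [h15, div_le_iff₀ hTpos]
        exact h14
      calc (n : ℝ) * (C / T) * ‖D0 (x - y)‖ ≤ n * (C / T) * (‖D0‖ * ‖x - y‖) := h12
        _ = (n * (C / T) * ‖D0‖) * ‖x - y‖ := by ring
        _ ≤ ε / 2 * ‖x - y‖ := by gcongr
    calc ‖mat β (ℓ x - ℓ y - D0 (x - y)) + (mat β (D0 (x - y)) - mat b (D0 (x - y)))‖
        ≤ ‖mat β (ℓ x - ℓ y - D0 (x - y))‖ + ‖mat β (D0 (x - y)) - mat b (D0 (x - y))‖ :=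
          norm_add_le _ _
      _ ≤ ε * ‖x - y‖ := by linarith
  have hsurj := hΦapp.surjOn_closedBall_of_nonlinearRightInverse A.toNonlinearRightInverse hr.le
    (fun x hx => (hball hx).1)
  have hsurj' : Set.SurjOn Φ (Metric.closedBall t0 r) (Metric.closedBall (Φ t0) r') := hsurj
  -- the solutions
  set θ : Fin d → ℝ := fun i => (ζ i).arg with hθ
  set u : Fin d → ℝ := fun i => ((g i).im - θ i + T * (Φ t0 i).im) / (2 * Real.pi) with hu
  set J : ℕ := ⌊κ * T⌋₊ with hJ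
  have hJ1 : (J : ℝ) ≤ κ * T := Nat.floor_le (by positivity)
  have hJ2 : κ / 2 * T ≤ J := by
    have h1 : κ * T < J + 1 := Nat.lt_floor_add_one _
    have h2 : 1 ≤ κ / 2 * T := by
      have h3 : κ / 2 * (2 / κ) ≤ κ / 2 * T := mul_le_mul_of_nonneg_left hTT4 (by positivity)
      have h4 : κ / 2 * (2 / κ) = 1 := by field_simp
      linarith
    linarith
  set y : (Fin d → Fin J) → Fin d → ℂ := fun j i =>
    ((θ i : ℂ) * Complex.I + ((⌈u i⌉ + (j i : ℤ) : ℤ) : ℂ) * (2 * Real.pi * Complex.I) - g i) / T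
    with hy
  have hyball : ∀ j, y j ∈ Metric.closedBall (Φ t0) r' := by
    intro j
    rw [mem_closedBall_iff_norm, pi_norm_le_iff_of_nonneg hr'pos.le]
    intro i
    rw [Pi.sub_apply]
    have hre : |(y j i - Φ t0 i).re| ≤ r' / 2 := by
      have h1 : (y j i - Φ t0 i).re = -((∑ l, (b i l : ℂ) * ℓ t0 l).re + (g i).re / T) -
          (mat β (ℓ t0) i - mat b (ℓ t0) i).re := by
        have h2 : (y j i).re = -(g i).re / T := by
          simp only [hy]
          rw [Complex.div_ofReal_re]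
          simp
        rw [Complex.sub_re, h2, Complex.sub_re, mat_apply b]
        simp only [hΦ]
        ring
      rw [h1]
      have h3 := hg i
      have h4 : |(mat β (ℓ t0) i - mat b (ℓ t0) i).re| ≤ r' / 4 := by
        refine (Complex.abs_re_le_norm _).trans ?_
        have h5 := (norm_le_pi_norm (mat β (ℓ t0) - mat b (ℓ t0)) i).trans
          (mat_sub β b hCT hβb (ℓ t0))
        refine h5.trans ?_
        have h6 : n * C * ‖ℓ t0‖ ≤ r' / 4 * T :=
          hT3.trans (mul_le_mul_of_nonneg_left hTT3 (by positivity))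
        have h7 : (n : ℝ) * (C / T) * ‖ℓ t0‖ = n * C * ‖ℓ t0‖ / T := by ring
        rw [h7, div_le_iff₀ hTpos]
        exact h6
      have h5 := abs_sub (-((∑ l, (b i l : ℂ) * ℓ t0 l).re + (g i).re / T))
        ((mat β (ℓ t0) i - mat b (ℓ t0) i).re)
      rw [abs_neg] at h5
      linarith
    have him : |(y j i - Φ t0 i).im| ≤ r' / 2 := by
      have h1 : (y j i - Φ t0 i).im = ((⌈u i⌉ : ℝ) - u i + (j i : ℕ)) * (2 * Real.pi) / T := by
        have h2 : (y j i).im =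
            (θ i + ((⌈u i⌉ : ℝ) + (j i : ℕ)) * (2 * Real.pi) - (g i).im) / T := by
          simp only [hy]
          rw [Complex.div_ofReal_im]
          simp
        have h3 : u i * (2 * Real.pi) = (g i).im - θ i + T * (Φ t0 i).im := by
          simp only [hu]
          rw [div_mul_cancel₀ _ (by positivity)]
        rw [Complex.sub_im, h2, eq_div_iff hTpos.ne', sub_mul, div_mul_cancel₀ _ hTpos.ne',
          add_mul (_ - _) _ (2 * Real.pi), sub_mul _ (u i) (2 * Real.pi), h3]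
        ring
      rw [h1, abs_div, abs_of_pos hTpos, div_le_iff₀ hTpos, abs_mul,
        abs_of_pos (by positivity : (0 : ℝ) < 2 * Real.pi)]
      have h4 : |(⌈u i⌉ : ℝ) - u i + (j i : ℕ)| ≤ J := by
        have h5 : u i ≤ ⌈u i⌉ := Int.le_ceil _
        have h6 : (⌈u i⌉ : ℝ) < u i + 1 := Int.ceil_lt_add_one _
        have h7 : ((j i : ℕ) : ℝ) + 1 ≤ J := by exact_mod_cast (j i).2
        have h8 : (0 : ℝ) ≤ (j i : ℕ) := Nat.cast_nonneg _
        rw [abs_of_nonneg (by linarith)]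
        linarith
      calc |(⌈u i⌉ : ℝ) - u i + (j i : ℕ)| * (2 * Real.pi)
          ≤ (κ * T) * (2 * Real.pi) :=
            mul_le_mul_of_nonneg_right (h4.trans hJ1) (by positivity)
        _ = r' / 2 * T := by
            rw [hκ]
            field_simp
            ring
    calc ‖y j i - Φ t0 i‖ ≤ |(y j i - Φ t0 i).re| + |(y j i - Φ t0 i).im| :=
          Complex.norm_le_abs_re_add_abs_im _
      _ ≤ r' := by linarith
  have hex : ∀ j, ∃ t ∈ Metric.closedBall t0 r, Φ t = y j := fun j => hsurj' (hyball j)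
  choose q hq1 hq2 using hex
  have hTc : (T : ℂ) ≠ 0 := by exact_mod_cast hTpos.ne'
  have hqinj : Function.Injective q := by
    intro j j' h
    have h1 : y j = y j' := by rw [← hq2, ← hq2, h]
    funext i
    have h2 := congrFun h1 i
    simp only [hy] at h2
    rw [div_left_inj' hTc, sub_left_inj, add_right_inj] at h2
    have h3 := mul_right_cancel₀ Complex.two_pi_I_ne_zero h2
    have h4 : ⌈u i⌉ + ((j i : ℕ) : ℤ) = ⌈u i⌉ + ((j' i : ℕ) : ℤ) := by exact_mod_cast h3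
    exact Fin.ext (by omega)
  refine ⟨Finset.univ.image q, ?_, ?_⟩
  · rw [Finset.card_image_of_injective _ hqinj, Finset.card_univ, Fintype.card_fun,
      Fintype.card_fin, Fintype.card_fin, ← mul_pow]
    push_cast
    exact pow_le_pow_left₀ (by positivity) hJ2 _
  · intro t ht
    obtain ⟨j, -, rfl⟩ := Finset.mem_image.1 ht
    have hb := hball (hq1 j)
    refine ⟨hb.2.1, fun i => ?_, ?_⟩
    · have h1 := congrFun (hq2 j) i
      simp only [hΦ, hy] at h1
      rw [mat_apply, eq_div_iff hTc] at h1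
      have h2 : (∑ l, ((β i l : ℝ) : ℂ) * ℓ (q j) l) * T = ∑ l, (a i l : ℂ) * ℓ (q j) l := by
        rw [Finset.sum_mul]
        refine Finset.sum_congr rfl fun l _ => ?_
        simp only [hβ]
        push_cast
        field_simp
      rw [h2] at h1
      rw [h1, sub_add_cancel, Complex.exp_add, Complex.exp_int_mul_two_pi_mul_I, mul_one]
      have h3 := Complex.norm_mul_exp_arg_mul_I (ζ i)
      rw [hζ i, Complex.ofReal_one, one_mul] at h3
      exact h3
    · exact re_large (ℓ t0) (ℓ (q j)) b0 a0 g0 hC hT1' ha0 hg0 hb.2.2 hη2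
        (hT1.trans (mul_le_mul_of_nonneg_left hTT1 (by positivity)))

end Pool.Agent.ZP
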