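import Mathlib
import Pool.Agent.Lib.MP_c95b3b_ag_B5.NSR
import Pool.Agent.Lib.MP_c95b3b_ag_ZP.Sheets

set_option autoImplicit false

/-! Project ZP (MP_c95b3b_ag), (5.6): no small relations between the functions `η̄ 0, .., η̄ d`. -/

namespace Pool.Agent.ZP

open Filter Topology

namespace NoSmallRel

/-- A local parametrisation with injective logarithmic derivative is injective. -/
theorem exists_inj_nhds {n d : ℕ} (t0 : Fin d → ℂ) (ℓ : (Fin d → ℂ) → Fin n → ℂ)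
    (hℓ : AnalyticAt ℂ ℓ t0) (b : Fin d → Fin n → ℝ)
    (hinj : ∀ v : Fin d → ℂ, (∀ i, ∑ l, (b i l : ℂ) * fderiv ℂ ℓ t0 v l = 0) → v = 0) :
    ∃ U ∈ 𝓝 t0, (∀ t ∈ U, ‖ℓ t - ℓ t0‖ ≤ 1) ∧ ∀ t ∈ U, ∀ t' ∈ U,
      (∀ l, Complex.exp (ℓ t l) = Complex.exp (ℓ t' l)) → t = t' := by
  set D0 : (Fin d → ℂ) →L[ℂ] (Fin n → ℂ) := fderiv ℂ ℓ t0 with hD0
  have hLinj : Function.Injective ((Sheets.mat b).comp D0).toLinearMap := by
    rw [injective_iff_map_eq_zero]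
    intro v hv
    have h1 : Sheets.mat b (D0 v) = 0 := hv
    exact hinj v fun i => congrFun h1 i
  set A : (Fin d → ℂ) ≃L[ℂ] (Fin d → ℂ) :=
    (LinearEquiv.ofInjectiveOfFinrankEq ((Sheets.mat b).comp D0).toLinearMap hLinj
      rfl).toContinuousLinearEquiv with hA
  have hAv : (A : (Fin d → ℂ) →L[ℂ] (Fin d → ℂ)) = (Sheets.mat b).comp D0 :=
    ContinuousLinearMap.ext fun v => rfl
  have hstr : HasStrictFDerivAt (fun t => Sheets.mat b (ℓ t))
      (A : (Fin d → ℂ) →L[ℂ] (Fin d → ℂ)) t0 := by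
    rw [hAv]
    exact (Sheets.mat b).hasStrictFDerivAt.comp t0 hℓ.hasStrictFDerivAt
  set e := hstr.toOpenPartialHomeomorph (fun t => Sheets.mat b (ℓ t)) with he
  have h1 : Tendsto (fun t => ‖ℓ t - ℓ t0‖) (𝓝 t0) (𝓝 ‖ℓ t0 - ℓ t0‖) :=
    (hℓ.continuousAt.sub continuousAt_const).norm
  rw [sub_self, norm_zero] at h1
  have h2 : {t | ‖ℓ t - ℓ t0‖ < 1} ∈ 𝓝 t0 := h1 (Iio_mem_nhds one_pos)
  have h3 : e.source ∈ 𝓝 t0 :=
    e.open_source.mem_nhds hstr.mem_toOpenPartialHomeomorph_source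
  refine ⟨{t | ‖ℓ t - ℓ t0‖ < 1} ∩ e.source, Filter.inter_mem h2 h3, fun t ht => ht.1.le, ?_⟩
  rintro t ⟨ht, hte⟩ t' ⟨ht', hte'⟩ h
  have h4 : ℓ t = ℓ t' := by
    funext l
    obtain ⟨k, hk⟩ := Complex.exp_eq_exp_iff_exists_int.1 (h l)
    have h5 : ‖ℓ t l - ℓ t' l‖ < 2 := by
      have h6 : ℓ t l - ℓ t' l = (ℓ t - ℓ t0) l - (ℓ t' - ℓ t0) l := by
        simp only [Pi.sub_apply]
        ring
      rw [h6]
      have h7 := norm_sub_le ((ℓ t - ℓ t0) l) ((ℓ t' - ℓ t0) l)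
      have h8 := norm_le_pi_norm (ℓ t - ℓ t0) l
      have h9 := norm_le_pi_norm (ℓ t' - ℓ t0) l
      have h10 : ‖ℓ t - ℓ t0‖ < 1 := ht
      have h11 : ‖ℓ t' - ℓ t0‖ < 1 := ht'
      linarith
    rw [hk, add_sub_cancel_left, norm_mul, norm_mul, norm_mul, Complex.norm_I, Complex.norm_real,
      Complex.norm_intCast, Real.norm_eq_abs, abs_of_pos Real.pi_pos, Complex.norm_ofNat,
      mul_one] at h5
    have h6 : k = 0 := by
      by_contra hk0
      have h7 : (1 : ℝ) ≤ |(k : ℝ)| := by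
        have : (1 : ℤ) ≤ |k| := Int.one_le_abs hk0
        have h8 : ((1 : ℤ) : ℝ) ≤ ((|k| : ℤ) : ℝ) := by exact_mod_cast this
        rwa [Int.cast_one, Int.cast_abs] at h8
      have h8 := Real.pi_gt_three
      nlinarith
    rw [hk, h6]
    simp
  have h5 : e t = e t' := by
    change Sheets.mat b (ℓ t) = Sheets.mat b (ℓ t')
    rw [h4]
  exact e.injOn hte hte' h5

end NoSmallRel

open NoSmallRel in
/-- NO SMALL RELATIONS, (5.6). -/
theorem no_small_rel {n d : ℕ} (t0 : Fin d → ℂ) (U : Set (Fin d → ℂ)) (hU : U ∈ 𝓝 t0)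
    (ℓ : (Fin d → ℂ) → Fin n → ℂ) (hℓ : AnalyticAt ℂ ℓ t0) (b : Fin d → Fin n → ℝ)
    (hinj : ∀ v : Fin d → ℂ, (∀ i, ∑ l, (b i l : ℂ) * fderiv ℂ ℓ t0 v l = 0) → v = 0)
    (b0 : Fin n → ℝ) (C : ℝ) (p : ℝ) (hp : 0 < p) :
    ∃ c ε Ct T0 : ℝ, 0 < c ∧ 0 < ε ∧ 0 < Ct ∧ 1 ≤ T0 ∧ ∀ T : ℝ, T0 ≤ T →
      ∀ (a : Fin d → Fin n → ℤ) (g : Fin d → ℂ) (a0 : Fin n → ℤ) (g0 : ℂ),
        (∀ i l, |(a i l : ℝ) - T * b i l| ≤ C) →
        (∀ i, |(∑ l, (b i l : ℂ) * ℓ t0 l).re + (g i).re / T| ≤ ε) →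
        (∀ l, |(a0 l : ℝ) - T * b0 l| ≤ C) →
        p ≤ (∑ l, (b0 l : ℂ) * ℓ t0 l).re + g0.re / T →
        ∀ N : ℕ, ∃ (s0 : ℕ) (s : Fin n → ℕ), 0 < s0 ∧
          (s0 : ℝ) ≤ Ct * ((N : ℝ) + 1) ^ d * T ^ (2 * d) ∧
          (∀ l, (s l : ℝ) ≤ Ct * ((N : ℝ) + 1) ^ d * T ^ (2 * d)) ∧
          ∀ F : Fin (N + 1) → (Fin d → Fin (N + 1)) → ℤ,
            (∀ t ∈ U, ∑ e, ∑ α, (F e α : ℂ) *
              ((∏ i, Complex.exp (∑ l, (a i l : ℂ) * ℓ t l + g i) ^ (α i : ℕ)) *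
                (Complex.exp (∑ l, (a0 l : ℂ) * ℓ t l + g0) *
                  (s0 + ∑ l, (s l : ℂ) * Complex.exp (ℓ t l))) ^ (e : ℕ)) = 0) →
            ∑ e, ∑ α, |(F e α : ℝ)| < Real.exp (c * T ^ (d + 1)) → F = 0 := by
  classical
  obtain ⟨U1, hU1, hU1b, hU1i⟩ := exists_inj_nhds t0 ℓ hℓ b hinj
  obtain ⟨c, ε, T0, hc, hε, hT0, hsh⟩ := sheets t0 (U ∩ U1) (Filter.inter_mem hU hU1) ℓ hℓ b hinj
    b0 C p hp
  set X : ℝ := Real.exp (‖ℓ t0‖ + 1) with hX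
  have hXpos : 0 < X := Real.exp_pos _
  have hX1 : 1 ≤ X := Real.one_le_exp (by positivity)
  have hx : ∀ t ∈ U1, ∀ l, ‖Complex.exp (ℓ t l)‖ ≤ X := by
    intro t ht l
    rw [Complex.norm_exp]
    refine Real.exp_le_exp.2 ?_
    have h1 : (ℓ t l).re ≤ ‖ℓ t l‖ := Complex.re_le_norm _
    have h2 : ‖ℓ t l‖ ≤ ‖ℓ t‖ := norm_le_pi_norm (ℓ t) l
    have h3 : ‖ℓ t‖ ≤ ‖ℓ t - ℓ t0‖ + ‖ℓ t0‖ := by
      have := norm_add_le (ℓ t - ℓ t0) (ℓ t0)
      rwa [sub_add_cancel] at this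
    have h4 := hU1b t ht
    linarith
  refine ⟨p / 2 * c, ε, ((n : ℝ) + 2) * X * (c + 1) ^ 2, T0, by positivity, hε, by positivity,
    hT0, ?_⟩
  intro T hT a g a0 g0 ha hg ha0 hg0 N
  have hT1 : 1 ≤ T := hT0.trans hT
  have hTpos : 0 < T := by linarith
  set m : ℕ := ⌈c * T ^ d⌉₊ with hm
  have hm1 : c * T ^ d ≤ m := Nat.le_ceil _
  have hTd : 1 ≤ T ^ d := one_le_pow₀ hT1
  have hm2 : (m : ℝ) ≤ (c + 1) * T ^ d := by
    have h1 : (m : ℝ) < c * T ^ d + 1 := Nat.ceil_lt_add_one (by positivity)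
    nlinarith
  -- the grid
  obtain ⟨ω, hω⟩ : ∃ ω : ℂ, IsPrimitiveRoot ω (N + 1) :=
    ⟨_, Complex.isPrimitiveRoot_exp (N + 1) (Nat.succ_ne_zero N)⟩
  have hωn : ‖ω‖ = 1 := Complex.norm_eq_one_of_pow_eq_one hω.pow_eq_one (Nat.succ_ne_zero N)
  have hQ : ∀ k : Fin d → Fin (N + 1), ∃ Q : Finset (Fin d → ℂ), Q.card = m ∧ ∀ t ∈ Q,
      t ∈ U ∩ U1 ∧ (∀ i, Complex.exp (∑ l, (a i l : ℂ) * ℓ t l + g i) = ω ^ (k i : ℕ)) ∧
        p / 2 * T ≤ (∑ l, (a0 l : ℂ) * ℓ t l + g0).re := by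
    intro k
    obtain ⟨Q, hQ1, hQ2⟩ := hsh T hT a g a0 g0 ha hg ha0 hg0 (fun i => ω ^ (k i : ℕ))
      (fun i => by rw [norm_pow, hωn, one_pow])
    have h1 : m ≤ Q.card := Nat.ceil_le.2 hQ1
    obtain ⟨Q', hQ'1, hQ'2⟩ := Finset.exists_subset_card_eq h1
    exact ⟨Q', hQ'2, fun t ht => hQ2 t (hQ'1 ht)⟩
  choose Q hQc hQ using hQ
  set E : (Fin d → ℂ) → ℂ := fun t => Complex.exp (∑ l, (a0 l : ℂ) * ℓ t l + g0) with hE
  have hE0 : ∀ t, E t ≠ 0 := fun t => Complex.exp_ne_zero _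
  -- the conditions on the affine form
  set Jt : Type := Σ k : Fin d → Fin (N + 1),
    {q : (Fin d → ℂ) × (Fin d → ℂ) // q ∈ (Q k).offDiag} with hJt
  have hcard : (Fintype.card Jt : ℝ) ≤ ((N : ℝ) + 1) ^ d * ((c + 1) * T ^ d) ^ 2 := by
    have h1 : Fintype.card Jt = ∑ k, (Q k).offDiag.card := by
      change Fintype.card (Σ k : Fin d → Fin (N + 1),
        {q : (Fin d → ℂ) × (Fin d → ℂ) // q ∈ (Q k).offDiag}) = _
      rw [Fintype.card_sigma]
      refine Finset.sum_congr rfl fun k _ => ?_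
      rw [Fintype.card_coe]
    have h2 : ∀ k, (((Q k).offDiag.card : ℕ) : ℝ) ≤ ((c + 1) * T ^ d) ^ 2 := by
      intro k
      have h3 : (Q k).offDiag.card ≤ m * m := by
        rw [Finset.offDiag_card, hQc]
        exact Nat.sub_le _ _
      calc (((Q k).offDiag.card : ℕ) : ℝ) ≤ ((m * m : ℕ) : ℝ) := by exact_mod_cast h3
        _ = (m : ℝ) ^ 2 := by
            push_cast
            ring
        _ ≤ ((c + 1) * T ^ d) ^ 2 := pow_le_pow_left₀ (Nat.cast_nonneg _) hm2 2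
    rw [h1]
    push_cast
    calc ∑ k, (((Q k).offDiag.card : ℕ) : ℝ) ≤ ∑ _k : Fin d → Fin (N + 1), ((c + 1) * T ^ d) ^ 2 :=
          Finset.sum_le_sum fun k _ => h2 k
      _ = ((N : ℝ) + 1) ^ d * ((c + 1) * T ^ d) ^ 2 := by
          rw [Finset.sum_const, Finset.card_univ, Fintype.card_fun, Fintype.card_fin,
            Fintype.card_fin, nsmul_eq_mul]
          push_cast
          ring
  set B : ℝ := ((N : ℝ) + 1) ^ d * ((c + 1) * T ^ d) ^ 2 with hB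
  have hB1 : 1 ≤ B := by
    have h1 : 1 ≤ ((N : ℝ) + 1) ^ d := one_le_pow₀ (by linarith [Nat.cast_nonneg (α := ℝ) N])
    have h2 : 1 ≤ (c + 1) * T ^ d := by nlinarith
    have h3 : 1 ≤ ((c + 1) * T ^ d) ^ 2 := one_le_pow₀ h2
    nlinarith
  have hBpos : 0 < B := by linarith
  have hBeq : B = (c + 1) ^ 2 * ((N : ℝ) + 1) ^ d * T ^ (2 * d) := by
    rw [hB, mul_pow, ← pow_mul, mul_comm d 2]
    ring
  set s0 : ℕ := ⌈(n : ℝ) * B * X⌉₊ + 1 with hs0
  have hs0a : (n : ℝ) * B * X + 1 ≤ s0 := by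
    rw [hs0]
    push_cast
    have := Nat.le_ceil ((n : ℝ) * B * X)
    linarith
  have hs0b : (s0 : ℝ) ≤ (n : ℝ) * B * X + 2 := by
    rw [hs0]
    push_cast
    have := Nat.ceil_lt_add_one (a := (n : ℝ) * B * X) (by positivity)
    linarith
  have hs0pos : 0 < s0 := Nat.succ_pos _
  have hs0c : (s0 : ℂ) ≠ 0 := by exact_mod_cast hs0pos.ne'
  obtain ⟨s, hs1, hs2⟩ := B5.exists_grid_point
    (fun j : Jt => (E j.2.1.1 - E j.2.1.2) * s0)
    (fun (j : Jt) (l : Fin n) => E j.2.1.1 * Complex.exp (ℓ j.2.1.1 l) -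
      E j.2.1.2 * Complex.exp (ℓ j.2.1.2 l)) (by
    rintro ⟨k, ⟨t, t'⟩, hq⟩
    obtain ⟨ht, ht', htt⟩ := Finset.mem_offDiag.1 hq
    by_cases h1 : E t = E t'
    · right
      intro h2
      apply htt
      refine hU1i t (hQ k t ht).1.2 t' (hQ k t' ht').1.2 fun l => ?_
      have h3 := congrFun h2 l
      simp only [Pi.zero_apply] at h3
      rw [h1, ← mul_sub] at h3
      rcases mul_eq_zero.1 h3 with h4 | h4
      · exact absurd h4 (hE0 t')
      · exact sub_eq_zero.1 h4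
    · left
      exact mul_ne_zero (sub_ne_zero.2 h1) hs0c)
  have hsB : ∀ l, (s l : ℝ) ≤ B := fun l =>
    (show (s l : ℝ) ≤ Fintype.card Jt by exact_mod_cast hs1 l).trans hcard
  refine ⟨s0, s, hs0pos, ?_, ?_, ?_⟩
  · refine hs0b.trans ?_
    have h1 : ((n : ℝ) + 2) * X * (c + 1) ^ 2 * ((N : ℝ) + 1) ^ d * T ^ (2 * d) =
        (n : ℝ) * B * X + 2 * (B * X) := by
      rw [hBeq]
      ring
    rw [h1]
    have h2 : 1 ≤ B * X := by nlinarith
    linarith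
  · intro l
    refine (hsB l).trans ?_
    have h1 : ((n : ℝ) + 2) * X * (c + 1) ^ 2 * ((N : ℝ) + 1) ^ d * T ^ (2 * d) =
        (((n : ℝ) + 2) * X) * B := by
      rw [hBeq]
      ring
    rw [h1]
    have h2 : 1 ≤ ((n : ℝ) + 2) * X := by
      have : (0 : ℝ) ≤ n := Nat.cast_nonneg _
      nlinarith
    nlinarith
  · intro F hF hFs
    set y : (Fin d → ℂ) → ℂ := fun t => E t * (s0 + ∑ l, (s l : ℂ) * Complex.exp (ℓ t l)) with hy
    have hL1 : 1 ≤ Real.exp (p / 2 * T) := Real.one_le_exp (by positivity)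
    refine B5.no_small_relations (m := m) (L := Real.exp (p / 2 * T)) hL1 F ?_ ?_
    · intro ζ hζ
      have h1 : ∀ i, ∃ k : Fin (N + 1), ω ^ (k : ℕ) = ζ i := by
        intro i
        obtain ⟨k, hk, hk'⟩ := hω.eq_pow_of_pow_eq_one (hζ i)
        exact ⟨⟨k, hk⟩, hk'⟩
      choose k hk using h1
      have hyinj : Set.InjOn y (Q k) := by
        intro t ht t' ht' h
        by_contra htt
        have h2 := hs2 ⟨k, (t, t'), Finset.mem_offDiag.2 ⟨ht, ht', htt⟩⟩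
        apply h2
        have h3 : E t * (s0 + ∑ l, (s l : ℂ) * Complex.exp (ℓ t l)) -
            E t' * (s0 + ∑ l, (s l : ℂ) * Complex.exp (ℓ t' l)) = 0 := sub_eq_zero.2 h
        rw [← h3]
        simp only [mul_add, Finset.mul_sum]
        have h4 : ∑ l, (s l : ℂ) * (E t * Complex.exp (ℓ t l) - E t' * Complex.exp (ℓ t' l)) =
            ∑ l, E t * ((s l : ℂ) * Complex.exp (ℓ t l)) -
              ∑ l, E t' * ((s l : ℂ) * Complex.exp (ℓ t' l)) := by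
          rw [← Finset.sum_sub_distrib]
          exact Finset.sum_congr rfl fun l _ => by ring
        simp only [h4]
        ring
      refine ⟨(Q k).image y, ?_, ?_⟩
      · rw [Finset.card_image_of_injOn hyinj, hQc]
      · intro z hz
        obtain ⟨t, ht, rfl⟩ := Finset.mem_image.1 hz
        obtain ⟨htU, ht1, ht2⟩ := hQ k t ht
        refine ⟨?_, ?_⟩
        · simp only [hy]
          rw [norm_mul]
          have h2 : Real.exp (p / 2 * T) ≤ ‖E t‖ := by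
            simp only [hE]
            rw [Complex.norm_exp]
            exact Real.exp_le_exp.2 ht2
          have h3 : 1 ≤ ‖(s0 : ℂ) + ∑ l, (s l : ℂ) * Complex.exp (ℓ t l)‖ := by
            have h4 : ‖∑ l, (s l : ℂ) * Complex.exp (ℓ t l)‖ ≤ n * B * X := by
              calc ‖∑ l, (s l : ℂ) * Complex.exp (ℓ t l)‖
                  ≤ ∑ l, ‖(s l : ℂ) * Complex.exp (ℓ t l)‖ := norm_sum_le _ _
                _ ≤ ∑ _l : Fin n, B * X := by
                    refine Finset.sum_le_sum fun l _ => ?_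
                    rw [norm_mul, Complex.norm_natCast]
                    exact mul_le_mul (hsB l) (hx t htU.2 l) (norm_nonneg _) hBpos.le
                _ = n * B * X := by
                    rw [Finset.sum_const, Finset.card_univ, Fintype.card_fin, nsmul_eq_mul]
                    exact (mul_assoc _ _ _).symm
            have h5 : ‖(s0 : ℂ)‖ ≤ ‖(s0 : ℂ) + ∑ l, (s l : ℂ) * Complex.exp (ℓ t l)‖ +
                ‖∑ l, (s l : ℂ) * Complex.exp (ℓ t l)‖ := by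
              have := norm_sub_le ((s0 : ℂ) + ∑ l, (s l : ℂ) * Complex.exp (ℓ t l))
                (∑ l, (s l : ℂ) * Complex.exp (ℓ t l))
              rwa [add_sub_cancel_right] at this
            rw [Complex.norm_natCast] at h5
            linarith
          calc Real.exp (p / 2 * T) = Real.exp (p / 2 * T) * 1 := (mul_one _).symm
            _ ≤ _ := mul_le_mul h2 h3 zero_le_one (norm_nonneg _)
        · rw [← hF t htU.1]
          refine Finset.sum_congr rfl fun e _ => Finset.sum_congr rfl fun α _ => ?_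
          have h5 : ∏ i, ζ i ^ (α i : ℕ) =
              ∏ i, Complex.exp (∑ l, (a i l : ℂ) * ℓ t l + g i) ^ (α i : ℕ) :=
            Finset.prod_congr rfl fun i _ => by rw [ht1 i, hk i]
          rw [h5]
    · refine hFs.trans_le ?_
      rw [← Real.exp_nat_mul]
      refine Real.exp_le_exp.2 ?_
      calc p / 2 * c * T ^ (d + 1) = (c * T ^ d) * (p / 2 * T) := by ring
        _ ≤ (m : ℝ) * (p / 2 * T) := mul_le_mul_of_nonneg_right hm1 (by positivity)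

end Pool.Agent.ZP
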