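import Mathlib
import Pool.Agent.Lib.MP_c95b3b_ag_SD.Link
import Pool.Agent.Lib.MP_c95b3b_ag_ZP.NoSmallRel

set_option autoImplicit false

/-! Project ZP (MP_c95b3b_ag), block SH: sheets as points of the variety. -/

namespace Pool.Agent.ZP

open Filter Topology Pool.Agent.SD

namespace SheetsY

/-- local logarithms of the coordinates of a parametrisation -/
noncomputable def lg {n d : ℕ} (ψ : (Fin d → ℂ) → Fin n → ℂ) (t : Fin d → ℂ) (t' : Fin d → ℂ)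
    (l : Fin n) : ℂ := Complex.log (ψ t' l / ψ t l) + Complex.log (ψ t l)

variable {n d : ℕ} {ψ : (Fin d → ℂ) → Fin n → ℂ} {t : Fin d → ℂ}

theorem exp_lg {t' : Fin d → ℂ} (l : Fin n) (h : ψ t l ≠ 0) (h' : ψ t' l ≠ 0) :
    Complex.exp (lg ψ t t' l) = ψ t' l := by
  rw [lg, Complex.exp_add, Complex.exp_log (div_ne_zero h' h), Complex.exp_log h,
    div_mul_cancel₀ _ h]

theorem lg_self (l : Fin n) (h : ψ t l ≠ 0) : lg ψ t t l = Complex.log (ψ t l) := by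
  rw [lg, div_self h, Complex.log_one, zero_add]

theorem comp_analyticAt (hψ : AnalyticAt ℂ ψ t) (l : Fin n) : AnalyticAt ℂ (fun t' => ψ t' l) t :=
  ((ContinuousLinearMap.proj (R := ℂ) (φ := fun _ : Fin n => ℂ) l).analyticAt (ψ t)).comp hψ

theorem lg_analyticAt (hψ : AnalyticAt ℂ ψ t) (h : ∀ l, ψ t l ≠ 0) :
    AnalyticAt ℂ (lg ψ t) t := by
  rw [analyticAt_pi_iff]
  intro l
  have h1 : AnalyticAt ℂ (fun t' => ψ t' l / ψ t l) t :=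
    (comp_analyticAt hψ l).div analyticAt_const (h l)
  refine (h1.clog ?_).add analyticAt_const
  rw [div_self (h l)]
  exact Complex.one_mem_slitPlane

theorem fderiv_lg (hψ : AnalyticAt ℂ ψ t) (h : ∀ l, ψ t l ≠ 0) (v : Fin d → ℂ) (l : Fin n) :
    fderiv ℂ (lg ψ t) t v l = fderiv ℂ ψ t v l / ψ t l := by
  have h0 : HasFDerivAt ψ (fderiv ℂ ψ t) t := hψ.differentiableAt.hasFDerivAt
  have h1 : HasFDerivAt (fun t' => ψ t' l)
      ((ContinuousLinearMap.proj (R := ℂ) (φ := fun _ : Fin n => ℂ) l).comp (fderiv ℂ ψ t)) t :=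
    (hasFDerivAt_pi'.1 h0) l
  have h2 : HasFDerivAt (fun t' => ψ t' l / ψ t l)
      ((ψ t l)⁻¹ • (ContinuousLinearMap.proj (R := ℂ) (φ := fun _ : Fin n => ℂ) l).comp
        (fderiv ℂ ψ t)) t := by
    have h3 := h1.const_mul ((ψ t l)⁻¹)
    have h4 : (fun t' => ψ t' l / ψ t l) = fun t' => (ψ t l)⁻¹ * ψ t' l := by
      funext t'
      rw [div_eq_inv_mul]
    rw [h4]
    exact h3
  have h3 : HasFDerivAt (fun t' => Complex.log (ψ t' l / ψ t l))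
      ((ψ t l / ψ t l)⁻¹ • ((ψ t l)⁻¹ •
        (ContinuousLinearMap.proj (R := ℂ) (φ := fun _ : Fin n => ℂ) l).comp (fderiv ℂ ψ t))) t :=
    h2.clog (by rw [div_self (h l)]; exact Complex.one_mem_slitPlane)
  have h4 : HasFDerivAt (fun t' => lg ψ t t' l)
      ((ψ t l / ψ t l)⁻¹ • ((ψ t l)⁻¹ •
        (ContinuousLinearMap.proj (R := ℂ) (φ := fun _ : Fin n => ℂ) l).comp (fderiv ℂ ψ t))) t :=
    h3.add_const _
  have h5 : HasFDerivAt (lg ψ t) (fderiv ℂ (lg ψ t) t) t :=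
    (lg_analyticAt hψ h).differentiableAt.hasFDerivAt
  have h6 := (hasFDerivAt_pi'.1 h5) l
  have h7 := h6.unique h4
  have h8 := congrArg (fun f => f v) h7
  simp only [ContinuousLinearMap.comp_apply, ContinuousLinearMap.proj_apply,
    smul_apply, smul_eq_mul] at h8
  rw [h8, div_self (h l), inv_one, one_mul, div_eq_inv_mul]

theorem hinj (hψ : AnalyticAt ℂ ψ t) (h : ∀ l, ψ t l ≠ 0) (b : Fin d → Fin n → ℝ)
    (hb : (jac b ψ t).det ≠ 0) (v : Fin d → ℂ)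
    (hv : ∀ i, ∑ l, (b i l : ℂ) * fderiv ℂ (lg ψ t) t v l = 0) : v = 0 := by
  refine Matrix.eq_zero_of_mulVec_eq_zero hb ?_
  funext i
  rw [Pi.zero_apply, ← hv i]
  simp only [Matrix.mulVec, dotProduct, jac]
  have h1 : ∀ l, fderiv ℂ (lg ψ t) t v l = ∑ k, v k * (fderiv ℂ ψ t (Pi.single k 1) l / ψ t l) := by
    intro l
    rw [fderiv_lg hψ h]
    conv_lhs => rw [pi_eq_sum_univ' v, map_sum]
    rw [Finset.sum_apply, Finset.sum_div]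
    refine Finset.sum_congr rfl fun k _ => ?_
    rw [map_smul, Pi.smul_apply, smul_eq_mul, mul_div_assoc]
  simp_rw [h1, Finset.mul_sum, Finset.sum_mul]
  rw [Finset.sum_comm]
  refine Finset.sum_congr rfl fun l _ => Finset.sum_congr rfl fun k _ => ?_
  ring

theorem re_sum (b : Fin n → ℝ) (h : ∀ l, ψ t l ≠ 0) :
    (∑ l, (b l : ℂ) * lg ψ t t l).re = ∑ l, b l * Real.log ‖ψ t l‖ := by
  rw [Complex.re_sum]
  refine Finset.sum_congr rfl fun l _ => ?_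
  rw [Complex.re_ofReal_mul, lg_self l (h l), Complex.log_re]

theorem exp_sum (a : Fin n → ℤ) {t' : Fin d → ℂ} (h : ∀ l, ψ t l ≠ 0) (h' : ∀ l, ψ t' l ≠ 0)
    {γ : ℂ} (hγ : γ ≠ 0) :
    Complex.exp (∑ l, (a l : ℂ) * lg ψ t t' l + Complex.log γ) = γ * ∏ l, ψ t' l ^ a l := by
  rw [Complex.exp_add, Complex.exp_log hγ, mul_comm, Complex.exp_sum]
  congr 1
  refine Finset.prod_congr rfl fun l _ => ?_
  rw [← exp_lg l (h l) (h' l), ← Complex.exp_int_mul]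

end SheetsY

open SheetsY in
/-- SHEETS, as points of the variety with generic point `x`. -/
theorem sheetsY {L : Type} [Field L] [Algebra ℂ L] {n d : ℕ} {x : Fin n → L} {κ : Fin d → Fin n}
    {z0 : Fin n → ℂ} (c : Chart x κ z0) {t : Fin d → ℂ} (ht : t ∈ c.U) (b : Fin d → Fin n → ℝ)
    (hb : (jac b c.ψ t).det ≠ 0) (b0 : Fin n → ℝ) (C p : ℝ) (hp : 0 < p) :
    ∃ c' ε B T0 : ℝ, 0 < c' ∧ 0 < ε ∧ 1 ≤ B ∧ 1 ≤ T0 ∧ ∀ T : ℝ, T0 ≤ T →
      ∀ (a : Fin d → Fin n → ℤ) (γ : Fin d → ℂ) (a0 : Fin n → ℤ) (γ0 : ℂ),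
        (∀ i, γ i ≠ 0) → γ0 ≠ 0 → (∀ i l, |(a i l : ℝ) - T * b i l| ≤ C) →
        (∀ i, |∑ l, b i l * Real.log ‖c.ψ t l‖ + Real.log ‖γ i‖ / T| ≤ ε) →
        (∀ l, |(a0 l : ℝ) - T * b0 l| ≤ C) →
        p ≤ ∑ l, b0 l * Real.log ‖c.ψ t l‖ + Real.log ‖γ0‖ / T →
        ∀ ζ : Fin d → ℂ, (∀ i, ‖ζ i‖ = 1) →
          ∃ Z : Finset (Fin n → ℂ), c' * T ^ d ≤ Z.card ∧ ∀ z ∈ Z, OnY x z ∧ (∀ l, ‖z l‖ ≤ B) ∧
            (∀ i, γ i * ∏ l, z l ^ (a i l) = ζ i) ∧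
            Real.exp (p / 2 * T) ≤ ‖γ0 * ∏ l, z l ^ (a0 l)‖ := by
  classical
  have hψ : AnalyticAt ℂ c.ψ t := c.an t ht
  have hne : ∀ t' ∈ c.U, ∀ l, c.ψ t' l ≠ 0 := fun t' ht' => (c.on t' ht').1
  have hV : {t' | ‖c.ψ t' - c.ψ t‖ < 1} ∈ 𝓝 t := by
    have h1 : Tendsto (fun t' => ‖c.ψ t' - c.ψ t‖) (𝓝 t) (𝓝 ‖c.ψ t - c.ψ t‖) :=
      (hψ.continuousAt.sub continuousAt_const).norm
    rw [sub_self, norm_zero] at h1
    exact h1 (Iio_mem_nhds one_pos)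
  obtain ⟨c', ε, T0, hc', hε, hT0, h⟩ := sheets t (c.U ∩ {t' | ‖c.ψ t' - c.ψ t‖ < 1})
    (Filter.inter_mem (c.isOpen.mem_nhds ht) hV) (lg c.ψ t) (lg_analyticAt hψ (hne t ht)) b
    (hinj hψ (hne t ht) b hb) b0 C p hp
  refine ⟨c', ε, ‖c.ψ t‖ + 1, T0, hc', hε, by linarith [norm_nonneg (c.ψ t)], hT0, ?_⟩
  intro T hT a γ a0 γ0 hγ hγ0 ha hg ha0 hg0 ζ hζ
  obtain ⟨Q, hQ1, hQ2⟩ := h T hT a (fun i => Complex.log (γ i)) a0 (Complex.log γ0) ha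
    (fun i => by rw [re_sum (b i) (hne t ht), Complex.log_re]; exact hg i) ha0
    (by rw [re_sum b0 (hne t ht), Complex.log_re]; exact hg0) ζ hζ
  have hinj' : Set.InjOn c.ψ Q := by
    intro t1 ht1 t2 ht2 h12
    funext j
    rw [← c.coord t1 (hQ2 t1 ht1).1.1 j, ← c.coord t2 (hQ2 t2 ht2).1.1 j, h12]
  refine ⟨Q.image c.ψ, ?_, ?_⟩
  · rw [Finset.card_image_of_injOn hinj']
    exact hQ1
  · intro z hz
    obtain ⟨t', ht', rfl⟩ := Finset.mem_image.1 hz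
    obtain ⟨⟨htU, htV⟩, h1, h2⟩ := hQ2 t' ht'
    refine ⟨c.on t' htU, fun l => ?_, fun i => ?_, ?_⟩
    · have h3 := norm_le_pi_norm (c.ψ t') l
      have h4 := norm_add_le (c.ψ t' - c.ψ t) (c.ψ t)
      rw [sub_add_cancel] at h4
      have h5 : ‖c.ψ t' - c.ψ t‖ < 1 := htV
      linarith
    · rw [← exp_sum (a i) (hne t ht) (hne t' htU) (hγ i)]
      exact h1 i
    · rw [← exp_sum a0 (hne t ht) (hne t' htU) hγ0, Complex.norm_exp]
      exact Real.exp_le_exp.2 h2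

end Pool.Agent.ZP
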