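import Mathlib
import Pool.Agent.Lib.MP_c95b3b_ag_SD.Link
import Pool.Agent.Lib.MP_c95b3b_ag_ZP.SheetsY
import Pool.Agent.Lib.MP_c95b3b_ag_ZP.OT
import Pool.Agent.Lib.MP_c95b3b_ag_ZP.TY
import Pool.Agent.Lib.MP_c95b3b_ag_ZP.CF4
import Pool.Agent.Lib.MP_c95b3b_ag_ZP.OT.GlueA
import Pool.Agent.Lib.MP_c95b3b_ag_ZP.OT.GlueB

set_option autoImplicit false

/-! Project ZP (MP_c95b3b_ag): sheets for a configuration (ZP_full 5.3, 5.4, 5.5). -/

namespace Pool.Agent.ZP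

open Module Filter Topology Pool.Agent.SD

variable {𝓤 : Ultrafilter ℕ} {n q : ℕ}

/-- the size of the leading coefficients of the exponents near to a multiple of `u` -/
theorem Glue.near {c : Cfg 𝓤 n q} (hb : c.bd) {cl : Cl c} (T : Ty cl) :
    ∃ μ : Fin n → ℝ, ∀ (C ε : ℝ) (u : Fin n → ℝ), 0 < ε → ∃ D0 : ℝ, 1 ≤ D0 ∧
      ∀ᶠ ν in (𝓤 : Filter ℕ), ∀ D S : ℝ, D0 ≤ D → (∀ i, c.s ν (c.blk i) ≤ S) →
        ∀ a : Fin n → ℤ, (∀ i, |(a i : ℝ) - D * S / c.s ν (c.blk i) * u i| ≤ C) →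
          T.A (a - pj c.blk 0 a) = 0 → T.cc ν (a - pj c.blk 0 a) ≠ 0 ∧
            |Real.log ‖T.cc ν (a - pj c.blk 0 a)‖ / (D * S) -
              ∑ i, (u - pj c.blk 0 u) i * μ i| ≤ ε := by
  obtain ⟨hs0, _, _, i1, _⟩ := c.bdd hb
  have hs : ∀ ν j, 0 < c.s ν j := fun ν j =>
    lt_of_lt_of_le one_pos ((c.s_one ν).trans (c.s_le ν j))
  obtain ⟨k, hk1, hk2, hk3⟩ := Glue.exists_ker c.blk T.surj (fun a ha j => T.graded a ha j)
  obtain ⟨C0, hC0⟩ := T.bound hb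
  set C1 : Fin n → ℝ := fun i => C0 * ∑ l, |(k i l : ℝ)| with hC1
  have hb1 : ∀ᶠ ν in (𝓤 : Filter ℕ), ∀ i,
      |Real.log ‖T.cc ν (k i)‖ / c.s ν (c.blk i)| ≤ C1 i := by
    filter_upwards [hC0] with ν hν i
    rw [abs_div, abs_of_pos (hs ν _), div_le_iff₀ (hs ν _)]
    refine (hν (k i) (hk1 i)).trans ?_
    rw [hC1, mul_assoc, Finset.sum_mul]
    refine le_of_eq ?_
    congr 1
    refine Finset.sum_congr rfl fun l _ => ?_
    by_cases h : c.blk l = c.blk i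
    · rw [h]
    · rw [hk2 i l h]
      simp
  have hμ : ∀ i, ∃ μ, Tendsto (fun ν => Real.log ‖T.cc ν (k i)‖ / c.s ν (c.blk i)) 𝓤 (𝓝 μ) :=
    fun i => Glue.exists_lim 𝓤 _ (C1 i) (hb1.mono fun ν hν => hν i)
  choose μ hμ using hμ
  refine ⟨μ, ?_⟩
  intro C ε u hε
  refine ⟨1 + 2 * (|C| * ∑ i, |C1 i|) / ε, ?_, ?_⟩
  · have : 0 ≤ 2 * (|C| * ∑ i, |C1 i|) / ε := by
      have := Finset.sum_nonneg fun i (_ : i ∈ Finset.univ) => abs_nonneg (C1 i)
      positivity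
    linarith
  have hlim : Tendsto (fun ν => ∑ i, (u - pj c.blk 0 u) i *
      (Real.log ‖T.cc ν (k i)‖ / c.s ν (c.blk i))) 𝓤
      (𝓝 (∑ i, (u - pj c.blk 0 u) i * μ i)) :=
    tendsto_finsetSum _ fun i _ => (hμ i).const_mul _
  have hlim' := (Metric.tendsto_nhds.1 hlim) (ε / 2) (by positivity)
  filter_upwards [hb1, T.lpr, hlim'] with ν hν1 hν2 hν3 D S hD hS a ha hA
  have hS0 : 0 < S := lt_of_lt_of_le (hs ν _) (hS i1)
  have hCs : 0 ≤ |C| * ∑ i, |C1 i| :=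
    mul_nonneg (abs_nonneg _) (Finset.sum_nonneg fun i _ => abs_nonneg _)
  have hD0 : 0 < D := by
    have : 0 ≤ 2 * (|C| * ∑ i, |C1 i|) / ε := by positivity
    linarith
  refine ⟨hν2.2.1 _ hA, ?_⟩
  set a' : Fin n → ℤ := a - pj c.blk 0 a with ha'
  set u' : Fin n → ℝ := u - pj c.blk 0 u with hu'
  have h1 : Real.log ‖T.cc ν a'‖ = ∑ i, (a' i : ℝ) * Real.log ‖T.cc ν (k i)‖ := by
    rw [← Glue.log_c hν2 k hk1 a', ← hk3 a' hA]
  have h2 : ∀ i, |(a' i : ℝ) * c.s ν (c.blk i) / (D * S) - u' i| ≤ |C| / D := by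
    intro i
    by_cases h : c.blk i = 0
    · have e1 : a' i = 0 := by simp [ha', pj, h]
      have e2 : u' i = 0 := by simp [hu', pj, h]
      rw [e1, e2, Int.cast_zero, zero_mul, zero_div, sub_zero, abs_zero]
      positivity
    · have e1 : a' i = a i := by simp [ha', pj, h]
      have e2 : u' i = u i := by simp [hu', pj, h]
      rw [e1, e2]
      have e3 : (a i : ℝ) * c.s ν (c.blk i) / (D * S) - u i =
          ((a i : ℝ) - D * S / c.s ν (c.blk i) * u i) * (c.s ν (c.blk i) / (D * S)) := by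
        have := (hs ν (c.blk i)).ne'
        field_simp
      have e4 : 0 ≤ c.s ν (c.blk i) / (D * S) := by
        have := hs ν (c.blk i)
        positivity
      have e5 : c.s ν (c.blk i) / (D * S) ≤ 1 / D := by
        rw [div_le_div_iff₀ (by positivity) hD0]
        have := hS i
        nlinarith
      rw [e3, abs_mul, abs_of_nonneg e4]
      calc |(a i : ℝ) - D * S / c.s ν (c.blk i) * u i| * (c.s ν (c.blk i) / (D * S))
          ≤ |C| * (1 / D) := mul_le_mul ((ha i).trans (le_abs_self C)) e5 e4 (abs_nonneg _)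
        _ = |C| / D := by ring
  have h3 : |Real.log ‖T.cc ν a'‖ / (D * S) - ∑ i, u' i *
      (Real.log ‖T.cc ν (k i)‖ / c.s ν (c.blk i))| ≤ ε / 2 := by
    have e1 : Real.log ‖T.cc ν a'‖ / (D * S) - ∑ i, u' i *
        (Real.log ‖T.cc ν (k i)‖ / c.s ν (c.blk i)) =
        ∑ i, ((a' i : ℝ) * c.s ν (c.blk i) / (D * S) - u' i) *
          (Real.log ‖T.cc ν (k i)‖ / c.s ν (c.blk i)) := by
      rw [h1, Finset.sum_div, ← Finset.sum_sub_distrib]
      refine Finset.sum_congr rfl fun i _ => ?_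
      have := (hs ν (c.blk i)).ne'
      field_simp
    rw [e1]
    refine (Finset.abs_sum_le_sum_abs _ _).trans ?_
    calc ∑ i, |((a' i : ℝ) * c.s ν (c.blk i) / (D * S) - u' i) *
          (Real.log ‖T.cc ν (k i)‖ / c.s ν (c.blk i))|
        ≤ ∑ i, |C| / D * |C1 i| := by
          refine Finset.sum_le_sum fun i _ => ?_
          rw [abs_mul]
          exact mul_le_mul (h2 i) ((hν1 i).trans (le_abs_self _)) (abs_nonneg _) (by positivity)
      _ = (|C| * ∑ i, |C1 i|) / D := by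
          rw [← Finset.mul_sum]
          ring
      _ ≤ ε / 2 := by
          rw [div_le_iff₀ hD0]
          have e2 : 2 * (|C| * ∑ i, |C1 i|) / ε ≤ D := by linarith
          rw [div_le_iff₀ hε] at e2
          linarith
  have h4 : |∑ i, u' i * (Real.log ‖T.cc ν (k i)‖ / c.s ν (c.blk i)) - ∑ i, u' i * μ i| <
      ε / 2 := hν3
  calc |Real.log ‖T.cc ν a'‖ / (D * S) - ∑ i, u' i * μ i|
      ≤ |Real.log ‖T.cc ν a'‖ / (D * S) - ∑ i, u' i *
          (Real.log ‖T.cc ν (k i)‖ / c.s ν (c.blk i))| +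
        |∑ i, u' i * (Real.log ‖T.cc ν (k i)‖ / c.s ν (c.blk i)) - ∑ i, u' i * μ i| :=
        abs_sub_le _ _ _
    _ ≤ ε := by linarith

/-- SHEETS for a configuration with a bounded block. There are `d0 + 1` neutral exponents `u k`,
trivial for the type in the unbounded blocks, such that for all integral exponents `a k` near to
`D S / s (blk i) * u k i` which are trivial for the type in the unbounded blocks there are
`≥ c3 (D S) ^ d0` points `z` of the bounded block, with prescribed unimodular values of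
`cc (po (a k)) * z ^ (a k)` for `k ≥ 1`, and with a value `≥ exp (c4 D S)` for `k = 0`. Here
`po a = a - pj blk 0 a`, the bound `B` does not depend on `D`, `ν`, `S`. -/
theorem exists_sheets {c : Cfg 𝓤 n q} (hb : c.bd) {cl : Cl c} (T : Ty cl)
    (hV : ∀ y : Fin cl.I.card → ℝ, ∃ b ∈ c.V, AR T.A b = y)
    (hW : rkZ c.x (blL c.blk 0) + 1 ≤
      finrank ℝ (Submodule.span ℝ (pj c.blk 0 '' (T.W : Set (Fin n → ℝ)))))
    {m : ℕ} (e : Fin m ≃ B0 c.blk) :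
    ∃ u : Fin (rkZ c.x (blL c.blk 0) + 1) → Fin n → ℝ, (∀ k, u k ∈ T.W) ∧ ∀ C : ℝ,
      ∃ c3 c4 B D0 : ℝ, 0 < c3 ∧ 0 < c4 ∧ 1 ≤ B ∧ 1 ≤ D0 ∧ ∀ᶠ ν in (𝓤 : Filter ℕ),
        ∀ D S : ℝ, D0 ≤ D → (∀ i, c.s ν (c.blk i) ≤ S) →
        ∀ a : Fin (rkZ c.x (blL c.blk 0) + 1) → Fin n → ℤ,
          (∀ k i, |(a k i : ℝ) - D * S / c.s ν (c.blk i) * u k i| ≤ C) →
          (∀ k, T.A (a k - pj c.blk 0 (a k)) = 0) →
          ∀ ζ : Fin (rkZ c.x (blL c.blk 0)) → ℂ, (∀ k, ‖ζ k‖ = 1) →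
            ∃ Z : Finset (Fin m → ℂ), c3 * (D * S) ^ rkZ c.x (blL c.blk 0) ≤ Z.card ∧
              ∀ z ∈ Z, OnY (fun l => c.x (e l)) z ∧ (∀ l, ‖z l‖ ≤ B) ∧
                (∀ k : Fin (rkZ c.x (blL c.blk 0)),
                  T.cc ν (a k.succ - pj c.blk 0 (a k.succ)) * ∏ l, z l ^ a k.succ (e l) = ζ k) ∧
                Real.exp (c4 * (D * S)) ≤
                  ‖T.cc ν (a 0 - pj c.blk 0 (a 0)) * ∏ l, z l ^ a 0 (e l)‖ := by
  obtain ⟨hs0, _, hcos, i1, hi1⟩ := c.bdd hb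
  obtain ⟨μ, hμ⟩ := Glue.near hb T
  obtain ⟨κ, z0, ch, t1, w, ht1, hw, hw0, hw1, hdet⟩ := off_torus (fun l => c.x (e l))
    (fun l => c.hx (e l)) (fun a ha => Glue.no_coset c.x e hcos a ha) (Glue.dm_block c.x e)
    (T.W.map (Glue.prm e μ)) (by rw [Glue.rk_prm]; exact T.rank_W hb hV)
    (by rw [Glue.finrank_prm]; exact hW)
  choose u hu hwu using hw
  have hw1' : ∀ k, (w k).1 = fun l => u k (e l) := fun k => by rw [← hwu k, Glue.prm_fst]
  have hw2' : ∀ k, (w k).2 = ∑ i, (u k - pj c.blk 0 (u k)) i * μ i := fun k => by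
    rw [← hwu k, Glue.prm_snd]
  refine ⟨u, hu, ?_⟩
  intro C
  obtain ⟨c', ε, B, T0, hc', hε, hB, hT0, hsh⟩ := sheetsY ch ht1 (fun i => (w i.succ).1) hdet
    (w 0).1 C (pv (w 0) (ch.ψ t1) / 2) (by linarith)
  have hε' : 0 < min ε (pv (w 0) (ch.ψ t1) / 2) := lt_min hε (by linarith)
  choose D1 hD1 hD1' using fun k => hμ C (min ε (pv (w 0) (ch.ψ t1) / 2)) (u k) hε'
  refine ⟨c', pv (w 0) (ch.ψ t1) / 2 / 2, B, T0 + ∑ k, |D1 k|, hc', by linarith, hB, ?_, ?_⟩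
  · have := Finset.sum_nonneg fun i (_ : i ∈ Finset.univ) => abs_nonneg (D1 i)
    linarith
  filter_upwards [eventually_all.2 hD1'] with ν hν D S hD hS a ha hA ζ hζ
  have hS1 : 1 ≤ S := by
    have := hS i1
    rw [hi1, hs0] at this
    exact this
  have hsum := Finset.sum_nonneg fun i (_ : i ∈ Finset.univ) => abs_nonneg (D1 i)
  have hDk : ∀ k, D1 k ≤ D := by
    intro k
    have := Finset.single_le_sum (f := fun k => |D1 k|) (fun i _ => abs_nonneg _)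
      (Finset.mem_univ k)
    have := le_abs_self (D1 k)
    linarith
  have hD0 : 0 < D := by linarith
  have key : ∀ k, T.cc ν (a k - pj c.blk 0 (a k)) ≠ 0 ∧
      |Real.log ‖T.cc ν (a k - pj c.blk 0 (a k))‖ / (D * S) - (w k).2| ≤
        min ε (pv (w 0) (ch.ψ t1) / 2) := by
    intro k
    rw [hw2' k]
    exact hν k D S (hDk k) hS (a k) (ha k) (hA k)
  have ha' : ∀ k l, |(a k (e l) : ℝ) - D * S * (w k).1 l| ≤ C := by
    intro k l
    have h1 := ha k (e l)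
    rw [(e l).2, hs0, div_one] at h1
    rw [hw1' k]
    exact h1
  have g1 : ∀ k : Fin (rkZ c.x (blL c.blk 0)), |∑ l, (w k.succ).1 l * Real.log ‖ch.ψ t1 l‖ +
      Real.log ‖T.cc ν (a k.succ - pj c.blk 0 (a k.succ))‖ / (D * S)| ≤ ε := by
    intro k
    have h1 := hw1 k
    unfold pv at h1
    have h2 := (key k.succ).2.trans (min_le_left _ _)
    have h3 : ∑ l, (w k.succ).1 l * Real.log ‖ch.ψ t1 l‖ +
        Real.log ‖T.cc ν (a k.succ - pj c.blk 0 (a k.succ))‖ / (D * S) =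
        Real.log ‖T.cc ν (a k.succ - pj c.blk 0 (a k.succ))‖ / (D * S) - (w k.succ).2 := by
      linarith
    rw [h3]
    exact h2
  have g2 : pv (w 0) (ch.ψ t1) / 2 ≤ ∑ l, (w 0).1 l * Real.log ‖ch.ψ t1 l‖ +
      Real.log ‖T.cc ν (a 0 - pj c.blk 0 (a 0))‖ / (D * S) := by
    have h2 := (abs_le.1 ((key 0).2.trans (min_le_right _ _))).1
    have h3 : pv (w 0) (ch.ψ t1) = ∑ l, (w 0).1 l * Real.log ‖ch.ψ t1 l‖ + (w 0).2 := rfl
    linarith
  obtain ⟨Z, hZ1, hZ2⟩ := hsh (D * S) (by nlinarith)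
    (fun k l => a k.succ (e l)) (fun k => T.cc ν (a k.succ - pj c.blk 0 (a k.succ)))
    (fun l => a 0 (e l)) (T.cc ν (a 0 - pj c.blk 0 (a 0))) (fun k => (key k.succ).1) (key 0).1
    (fun k l => ha' k.succ l) g1 (fun l => ha' 0 l) g2 ζ hζ
  exact ⟨Z, hZ1, fun z hz => hZ2 z hz⟩

end Pool.Agent.ZP
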