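import Pool.Agent.Lib.MP_c95b3b_ag_ZP.JF

set_option autoImplicit false

/-! Project ZP (MP_c95b3b_ag), block J: the box principle at one level (ZP_full 5.6, 5.7). -/

namespace Pool.Agent.ZP

open MvPolynomial Filter Topology Module Pool.Agent.L3 Pool.Agent.SD Pool.Agent.AL

namespace J

theorem real_smul_eq {n : ℕ} (r : ℝ) (f : MvPowerSeries (Fin n) ℂ) :
    r • f = MvPowerSeries.C (r : ℂ) * f := by
  ext γ
  rw [MvPowerSeries.coeff_C_mul, ← Complex.real_smul]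
  rfl

/-- **Block J.** At one level: `Ξ` is the branch (with independent variables in the blocks), `A`,
`M`, `c` a type of the complex branch, `θ` representatives of different classes outside the block
`0`, `a0`, `a i` exponents whose part outside the block `0` lies in the kernel of `A`, `eq` an
enumeration of the coordinates in the block `0`. For all tuples `ζ` of `(N+1)`-th roots of unity
there are `k` points of the closure of the branch in the block `0` at which the functions given by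
`a i` have the values `ζ i` and the function given by `a0` is at least `exp Λ`. -/
theorem level {n q t m d N k : ℕ} {blk : Fin n → Fin (q + 1)} {K : Type} [Field K] [CharZero K]
    (e : K →+* ℂ) {Ξ : Fin n → MvPowerSeries (Fin n) K} (hΞ : Sepd blk Ξ)
    {A : (Fin n → ℤ) →+ (Fin t → ℤ)} {M : Matrix (Fin t) (Fin t) ℤ} {c : (Fin n → ℤ) → ℂ}
    (hL : LPr (fun i => algebraMap (MvPowerSeries (Fin n) ℂ) (FC n)
      (MvPowerSeries.map e (Ξ i))) A M c)
    (eq : Fin m ≃ B0 blk) {κ : Type} [Fintype κ] (θ : κ → Fin n → ℤ)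
    (hθ : Function.Injective (fun k => A (po blk (θ k)))) (a0 : Fin n → ℤ)
    (a : Fin d → Fin n → ℤ) (ha0 : A (po blk a0) = 0) (ha : ∀ i, A (po blk (a i)) = 0)
    (Λ B : ℝ) (hΛ : 0 ≤ Λ) (hB : 0 ≤ B)
    (hZ : ∀ ζ : Fin d → ℂ, (∀ i, ζ i ^ (N + 1) = 1) → ∃ Q : Finset (Fin m → ℂ), k ≤ Q.card ∧
      ∀ z ∈ Q, (∀ l, z l ≠ 0) ∧
        (∀ P : MvPolynomial (Fin m) ℂ, aeval (fun l => algebraMap (MvPowerSeries (Fin n) ℂ)
          (FC n) (MvPowerSeries.map e (Ξ (eq l)))) P = 0 → eval z P = 0) ∧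
        (∀ l, ‖z l‖ ≤ B) ∧ (∀ i, c (po blk (a i)) * ∏ l, z l ^ a i (eq l) = ζ i) ∧
        Real.exp Λ ≤ ‖c (po blk a0) * ∏ l, z l ^ a0 (eq l)‖)
    (H ρ : ℕ) (δ : ℝ) (hδ : 0 < δ)
    (hH : ∀ (s0 : ℕ) (s : Fin m → ℕ), finrank ℚ (Submodule.span ℚ (Set.range
      (fam (N := N) Ξ eq θ a0 a s0 s))) ≤ H)
    (hρ : ((N : ℝ) + 1) ^ (d + 1) * ρ < Real.exp (Λ * k))
    (hbox : (2 * Fintype.card (Dx κ d N) * ρ / δ + 1) ^ H <
      ((ρ : ℝ) + 1) ^ Fintype.card (Dx κ d N))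
    (τ1 : ℝ) (hτ1 : (m * (B + 1) + 2) * (((N : ℝ) + 1) ^ d * k ^ 2 + 1) ≤ τ1) :
    ∃ (T : Finset (Fin n → ℤ)) (r : (Fin n → ℤ) → ℤ),
      (∀ b ∈ T, ∃ (p : Dx κ d N) (γ : Fin n → ℤ), b = θ p.1 + ex0 a0 a p.2.1 p.2.2 + γ ∧
        (∀ i, 0 ≤ γ i) ∧ (∀ i, blk i ≠ 0 → γ i = 0) ∧ ∑ i, γ i ≤ N) ∧
      ∑ b ∈ T, |(r b : ℝ)| ≤ Fintype.card (Dx κ d N) * ρ * τ1 ^ N ∧
      lp Ξ T (fun b => (r b : K)) ≠ 0 ∧
      ∀ e' : K →+* ℂ, ∃ r' : (Fin n → ℤ) → ℂ,
        MvPowerSeries.map e' (lp Ξ T (fun b => (r b : K))) =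
          lp (fun i => MvPowerSeries.map e' (Ξ i)) T r' ∧
        ∑ b ∈ T, ‖r' b‖ ≤ Fintype.card (Dx κ d N) * δ * τ1 ^ N := by
  classical
  set xi0 : Fin m → FC n := fun l => algebraMap (MvPowerSeries (Fin n) ℂ)
    (FC n) (MvPowerSeries.map e (Ξ (eq l))) with hxi0
  set Z : Set (Fin m → ℂ) := {z | (∀ l, z l ≠ 0) ∧
    ∀ P : MvPolynomial (Fin m) ℂ, aeval xi0 P = 0 → eval z P = 0} with hZdef
  obtain ⟨s0, s, hs, hs0, hNS⟩ := ns_of_sheets (N := N) (k := k)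
    (fun z : Fin m → ℂ => c (po blk a0) * ∏ l, z l ^ a0 (eq l))
    (fun (i : Fin d) z => c (po blk (a i)) * ∏ l, z l ^ a i (eq l)) Z B Λ hB hΛ
    (fun ζ hζ => by
      obtain ⟨Q, h1, h2⟩ := hZ ζ hζ
      exact ⟨Q, h1, fun z hz => ⟨⟨(h2 z hz).1, (h2 z hz).2.1⟩, (h2 z hz).2.2⟩⟩)
  have hΞC := hΞ.map e
  obtain ⟨g, Ψ, hg0, hgρ, hΨ, hgΨ⟩ := Box.box (fam (N := N) Ξ eq θ a0 a s0 s) (hH s0 s) hδ hbox
  have hτ0 : (s0 : ℝ) + ∑ l, (s l : ℝ) ≤ τ1 := hs.trans hτ1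
  have hτone : 1 ≤ τ1 := by
    have h1 : (1 : ℝ) ≤ s0 := by exact_mod_cast hs0
    have h2 : 0 ≤ ∑ l, (s l : ℝ) := Finset.sum_nonneg fun l _ => Nat.cast_nonneg _
    linarith
  set S : Finset (Dx κ d N × (Fin m →₀ ℕ)) :=
    (Finset.univ : Finset (Dx κ d N)) ×ˢ tG s0 s N with hS
  -- the bound for the sum of the coefficients
  have hsum : ∀ {F : Type} [NormedRing F] [NormOneClass F] (w : Dx κ d N → F) (δ' : ℝ),
      (∀ x : ℤ, ‖(x : F)‖ = |(x : ℝ)|) → 0 ≤ δ' → (∀ p, ‖w p‖ ≤ δ') →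
      ∑ b ∈ S.image (fx eq θ a0 a), ‖∑ i ∈ S with fx eq θ a0 a i = b,
        w i.1 * ((coeff i.2 (tp s0 s (i.1.2.1 : ℕ)) : ℤ) : F)‖ ≤
        Fintype.card (Dx κ d N) * δ' * τ1 ^ N := by
    intro F _ _ w δ' hF hδ' hw
    refine (sum_index_le _ _ _).trans ?_
    rw [hS, Finset.sum_product]
    have h1 : ∀ p ∈ (Finset.univ : Finset (Dx κ d N)),
        ∑ γ ∈ tG s0 s N, ‖w p * ((coeff γ (tp s0 s (p.2.1 : ℕ)) : ℤ) : F)‖ ≤ δ' * τ1 ^ N := by
      intro p _
      calc ∑ γ ∈ tG s0 s N, ‖w p * ((coeff γ (tp s0 s (p.2.1 : ℕ)) : ℤ) : F)‖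
          ≤ ∑ γ ∈ tG s0 s N, δ' * |((coeff γ (tp s0 s (p.2.1 : ℕ)) : ℤ) : ℝ)| := by
            refine Finset.sum_le_sum fun γ _ => (norm_mul_le _ _).trans ?_
            rw [hF]
            exact mul_le_mul_of_nonneg_right (hw p) (abs_nonneg _)
        _ = δ' * ∑ γ ∈ tG s0 s N, |((coeff γ (tp s0 s (p.2.1 : ℕ)) : ℤ) : ℝ)| := by
            rw [Finset.mul_sum]
        _ ≤ δ' * τ1 ^ N :=
            mul_le_mul_of_nonneg_left (sum_coeff_le s0 s N p.2.1 hτone hτ0) hδ'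
    refine (Finset.sum_le_sum h1).trans ?_
    rw [Finset.sum_const, Finset.card_univ, nsmul_eq_mul, mul_assoc]
  refine ⟨S.image (fx eq θ a0 a), fun b => ∑ i ∈ S with fx eq θ a0 a i = b,
      g i.1 * coeff i.2 (tp s0 s (i.1.2.1 : ℕ)), ?_, ?_, ?_, ?_⟩
  · intro b hb
    obtain ⟨i, hi, rfl⟩ := Finset.mem_image.mp hb
    refine ⟨i.1, gx eq i.2, rfl, gx_nonneg eq i.2, gx_zero eq i.2, ?_⟩
    rw [sum_gx]
    exact_mod_cast tG_le (Finset.mem_product.mp hi).2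
  · have h1 := hsum (F := ℝ) (fun p => (g p : ℝ)) ρ (fun x => by simp) (Nat.cast_nonneg _)
      (fun p => by
        rw [Real.norm_eq_abs]
        exact_mod_cast hgρ p)
    refine le_trans (le_of_eq ?_) h1
    refine Finset.sum_congr rfl fun b _ => ?_
    rw [Real.norm_eq_abs]
    push_cast
    rfl
  · intro h0
    apply hg0
    have h1 : ∑ p, MvPowerSeries.C (g p : K) * fam (N := N) Ξ eq θ a0 a s0 s p = 0 := by
      rw [sum_fam hΞ.1, ← h0]
      congr 1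
      funext b
      push_cast
      rfl
    have h2 := congrArg (MvPowerSeries.map e) h1
    rw [map_sum, map_zero] at h2
    have h3 := no_small_vec (N := N) hΞC hL eq θ hθ a0 a ha0 ha s0 s Z (fun z hz => hz.1)
      (fun z hz => hz.2) (Real.exp (Λ * k)) hNS (fun k' e' β => g (k', e', β)) ?_ ?_
    · funext p
      exact congrFun (congrFun (congrFun h3 p.1) p.2.1) p.2.2
    · intro k'
      refine lt_of_le_of_lt ?_ hρ
      have h4 : ∀ e' ∈ (Finset.univ : Finset (Fin (N + 1))),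
          ∑ β : Fin d → Fin (N + 1), |(g (k', e', β) : ℝ)| ≤ ((N : ℝ) + 1) ^ d * ρ := by
        intro e' _
        have h5 : ∀ β ∈ (Finset.univ : Finset (Fin d → Fin (N + 1))),
            |(g (k', e', β) : ℝ)| ≤ ρ := fun β _ => by exact_mod_cast hgρ (k', e', β)
        refine (Finset.sum_le_sum h5).trans ?_
        rw [Finset.sum_const, Finset.card_univ, Fintype.card_fun, Fintype.card_fin,
          Fintype.card_fin, nsmul_eq_mul]
        push_cast
        exact le_rfl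
      refine (Finset.sum_le_sum h4).trans ?_
      rw [Finset.sum_const, Finset.card_univ, Fintype.card_fin, nsmul_eq_mul]
      push_cast
      exact le_of_eq (by ring)
    · rw [← h2, Fintype.sum_prod_type]
      refine Finset.sum_congr rfl fun k' _ => ?_
      rw [Fintype.sum_prod_type]
      refine Finset.sum_congr rfl fun e' _ => Finset.sum_congr rfl fun β _ => ?_
      rw [map_mul, map_fam e hΞ.1, MvPowerSeries.map_C, map_intCast, map_intCast]
      rfl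
  · intro e'
    refine ⟨fun b => ∑ i ∈ S with fx eq θ a0 a i = b,
      (Ψ i.1 : ℂ) * ((coeff i.2 (tp s0 s (i.1.2.1 : ℕ)) : ℤ) : ℂ), ?_, ?_⟩
    · have h1 := hgΨ (MvPowerSeries (Fin n) ℂ) (MvPowerSeries.map e').toAddMonoidHom
      have hΞ' := hΞ.map e'
      rw [← sum_fam hΞ'.1 eq θ a0 a s0 s (fun p => (Ψ p : ℂ))]
      have h2 : lp Ξ (S.image (fx eq θ a0 a)) (fun b => ((∑ i ∈ S with fx eq θ a0 a i = b,
          g i.1 * coeff i.2 (tp s0 s (i.1.2.1 : ℕ)) : ℤ) : K)) =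
          ∑ p, MvPowerSeries.C (g p : K) * fam (N := N) Ξ eq θ a0 a s0 s p := by
        rw [sum_fam hΞ.1]
        congr 1
        funext b
        push_cast
        rfl
      rw [h2, map_sum]
      have h3 : ∀ p, (MvPowerSeries.map e') (MvPowerSeries.C (g p : K) *
          fam (N := N) Ξ eq θ a0 a s0 s p) = (g p : ℝ) • (MvPowerSeries.map e').toAddMonoidHom
            (fam (N := N) Ξ eq θ a0 a s0 s p) := by
        intro p
        rw [map_mul, MvPowerSeries.map_C, map_intCast, real_smul_eq, Complex.ofReal_intCast]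
        rfl
      have h4 : ∀ p, MvPowerSeries.C (Ψ p : ℂ) *
          fam (N := N) (fun i => MvPowerSeries.map e' (Ξ i)) eq θ a0 a s0 s p =
          Ψ p • (MvPowerSeries.map e').toAddMonoidHom (fam (N := N) Ξ eq θ a0 a s0 s p) := by
        intro p
        rw [← map_fam e' hΞ.1, real_smul_eq]
        rfl
      rw [Finset.sum_congr rfl fun p _ => h3 p, Finset.sum_congr rfl fun p _ => h4 p]
      exact h1
    · refine hsum (F := ℂ) (fun p => (Ψ p : ℂ)) δ (fun x => ?_) hδ.le (fun p => ?_)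
      · exact Complex.norm_intCast x
      · rw [Complex.norm_real]
        exact hΨ p

end J

end Pool.Agent.ZP
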