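import Pool.Agent.Lib.MP_c95b3b_ag_ZP.JF
import Pool.Agent.Lib.MP_c95b3b_ag_ZP.Lift
import Pool.Agent.Lib.MP_c95b3b_ag_ZP.TY
import Pool.Agent.Lib.MP_c95b3b_ag_ZP.CL5
import Pool.Agent.Lib.MP_c95b3b_ag_ZP.Hilbert

set_option autoImplicit false

/-! Project ZP (MP_c95b3b_ag), small sections (ZP_full 5.7): representatives of the classes, exponents,
the number of the functions and the dimension of their span. -/

namespace Pool.Agent.ZP

open MvPolynomial Module Filter Topology Pool.Agent.L3 Pool.Agent.SD Pool.Agent.AL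

variable {𝓤 : Ultrafilter ℕ} {n q : ℕ}

namespace Sec

theorem gr_ker {c : Cfg 𝓤 n q} {cl : Cl c} (T : Ty cl) : Gr c.blk (Lift.kerA T.A) :=
  fun a ha j => T.graded a ha j

theorem po_sub {blk : Fin n → Fin (q + 1)} (a b : Fin n → ℤ) :
    (a - b) - pj blk 0 (a - b) = J.po blk a - J.po blk b := by
  funext i
  simp only [J.po, pj, Pi.sub_apply]
  split_ifs <;> ring

theorem one_le_div {c : Cfg 𝓤 n q} {ν : ℕ} {M : ℝ} (hM : ∀ i, c.s ν (c.blk i) ≤ M) (i : Fin n) :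
    1 ≤ M / c.s ν (c.blk i) := by
  rw [_root_.one_le_div (c.s_pos ν _)]
  exact hM i

/-- representatives of the classes outside the block `0`, near to `M / s • V` -/
theorem sec_theta {c : Cfg 𝓤 n q} {cl : Cl c} (T : Ty cl)
    (hV : ∀ y : Fin cl.I.card → ℝ, ∃ b ∈ c.V, AR T.A b = y) :
    ∃ C c1 : ℝ, 0 < C ∧ 0 < c1 ∧ ∀ (ν : ℕ) (M : ℝ), (∀ i, c.s ν (c.blk i) ≤ M) → 0 < M →
      ∃ Θ : Finset (Fin n → ℤ),
        c1 * ∏ i ∈ cl.I.filter (fun i => c.blk i ≠ 0), (M / c.s ν (c.blk i)) ≤ Θ.card ∧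
        (∀ θ ∈ Θ, ∃ u ∈ c.V, (∀ i, |u i| ≤ 1) ∧
          ∀ i, |(θ i : ℝ) - M / c.s ν (c.blk i) * u i| ≤ C) ∧
        (∀ θ ∈ Θ, ∀ i, |(θ i : ℝ)| ≤ C * (M / c.s ν (c.blk i))) ∧
        ∀ θ ∈ Θ, ∀ θ' ∈ Θ, T.A (J.po c.blk θ) = T.A (J.po c.blk θ') → θ = θ' := by
  classical
  obtain ⟨J, hJ1, hJ2⟩ := T.coords
  have hgr := gr_ker T
  have hV' : c.V ⊔ spR (Lift.kerU c.blk T.A) = ⊤ := by
    rw [eq_top_iff]
    intro y _
    obtain ⟨b, hb, hby⟩ := hV (AR T.A y)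
    have h1 : AR T.A (y - b) = 0 := by rw [Lift.AR_sub, hby, sub_self]
    have h2 := Lift.spR_mono (Lift.kerA_le_kerU hgr) (Lift.mem_spR_kerA T.surj h1)
    have h3 := Submodule.add_mem_sup hb h2
    rwa [add_sub_cancel] at h3
  obtain ⟨C, c1, hC, hc1, H⟩ := Lift.exists_classes c.blk (Lift.kerU c.blk T.A)
    (Lift.Gr_kerU hgr) c.V hV' (J.filter fun i => c.blk i ≠ 0) (by
      intro x hx hx0
      have h0 : pj c.blk 0 x = 0 := by
        funext i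
        simp only [pj, Pi.zero_apply]
        split_ifs with h
        · exact hx0 i (by simp [h])
        · rfl
      have h1 : T.A (x - pj c.blk 0 x) = 0 := hx
      rw [h0, sub_zero] at h1
      exact hJ2 x (fun i hi => hx0 i (by simp [hi])) h1)
  refine ⟨1 + C, c1, by linarith, hc1, ?_⟩
  intro ν M hM hM0
  obtain ⟨Θ, h1, h2, h3⟩ := H (fun j => M / c.s ν j) (fun i => div_pos hM0 (c.s_pos ν _))
  refine ⟨Θ, ?_, ?_, ?_, ?_⟩
  · rw [← Lift.prod_blk_eq' c.blk hJ1 (fun j => M / c.s ν j)]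
    exact h1
  · intro θ hθ
    obtain ⟨u, hu, hu1, hu2⟩ := h2 θ hθ
    exact ⟨u, hu, hu1, fun i => (hu2 i).trans (by linarith)⟩
  · intro θ hθ i
    obtain ⟨u, hu, hu1, hu2⟩ := h2 θ hθ
    have h4 := one_le_div hM i
    have h5 : |(θ i : ℝ)| ≤ |(θ i : ℝ) - M / c.s ν (c.blk i) * u i| +
        |M / c.s ν (c.blk i) * u i| := by
      have := abs_add_le ((θ i : ℝ) - M / c.s ν (c.blk i) * u i) (M / c.s ν (c.blk i) * u i)
      rwa [sub_add_cancel] at this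
    have h6 : |M / c.s ν (c.blk i) * u i| ≤ M / c.s ν (c.blk i) := by
      rw [abs_mul, abs_of_nonneg (by linarith)]
      exact mul_le_of_le_one_right (by linarith) (hu1 i)
    have h7 := hu2 i
    nlinarith
  · intro θ hθ θ' hθ' h
    refine h3 θ hθ θ' hθ' ?_
    show T.A (θ - θ' - pj c.blk 0 (θ - θ')) = 0
    rw [po_sub, map_sub, h, sub_self]

theorem W_le {c : Cfg 𝓤 n q} {cl : Cl c} (T : Ty cl) {u : Fin n → ℝ} (hu : u ∈ T.W) :
    u ∈ spR (Lift.kerU c.blk T.A) := by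
  classical
  have h1 : AR T.A (u - pj c.blk 0 u) = 0 := hu.2
  have h2 := Lift.spR_mono (Lift.kerA_le_kerU (gr_ker T)) (Lift.mem_spR_kerA T.surj h1)
  have h3 : pj c.blk 0 u ∈ spR (Lift.kerU c.blk T.A) := by
    have h4 : pj c.blk 0 u = ∑ l, u l • rv (pj c.blk 0 (Pi.single l 1)) := by
      funext i
      simp only [pj, rv, Finset.sum_apply, Pi.smul_apply, smul_eq_mul]
      by_cases hi : c.blk i = 0
      · simp only [hi, if_true]
        rw [Finset.sum_eq_single i]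
        · simp
        · intro l _ hl
          simp [Ne.symm hl]
        · intro h
          exact (h (Finset.mem_univ i)).elim
      · simp [hi]
    rw [h4]
    refine Submodule.sum_mem _ fun l _ => Submodule.smul_mem _ _ ?_
    refine Submodule.subset_span ⟨_, ?_, rfl⟩
    show T.A _ = 0
    have h5 : pj c.blk 0 (Pi.single l (1 : ℤ)) - pj c.blk 0 (pj c.blk 0 (Pi.single l 1)) = 0 := by
      funext i
      simp only [pj, Pi.sub_apply, Pi.zero_apply]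
      split_ifs <;> simp
    rw [h5, map_zero]
  have h6 := Submodule.add_mem _ h3 h2
  rwa [add_sub_cancel] at h6

/-- integral exponents near to the multiples of the elements of `T.W` -/
theorem sec_a {c : Cfg 𝓤 n q} {cl : Cl c} (T : Ty cl) {ι : Type} [Finite ι]
    (u : ι → Fin n → ℝ) (hu : ∀ k, u k ∈ T.W) :
    ∃ C : ℝ, 0 < C ∧ ∀ (ν : ℕ) (X : ℝ), (∀ i, c.s ν (c.blk i) ≤ X) →
      ∃ a : ι → Fin n → ℤ, (∀ k, T.A (J.po c.blk (a k)) = 0) ∧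
        (∀ k i, |(a k i : ℝ) - X / c.s ν (c.blk i) * u k i| ≤ C) ∧
        ∀ k i, |(a k i : ℝ)| ≤ C * (X / c.s ν (c.blk i)) := by
  classical
  have := Fintype.ofFinite ι
  obtain ⟨C, hC, hnear⟩ := Lift.exists_near (Lift.kerU c.blk T.A)
  have hU : 0 ≤ ∑ k, ∑ i, |u k i| :=
    Finset.sum_nonneg fun k _ => Finset.sum_nonneg fun i _ => abs_nonneg _
  refine ⟨C + ∑ k, ∑ i, |u k i|, by linarith, ?_⟩
  intro ν X hX
  have h1 : ∀ k, ∃ x ∈ Lift.kerU c.blk T.A,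
      ∀ i, |(x i : ℝ) - X / c.s ν (c.blk i) * u k i| ≤ C := fun k =>
    hnear _ (Lift.spR_scale c.blk _ (Lift.Gr_kerU (gr_ker T)) (fun j => X / c.s ν j) _
      (W_le T (hu k)))
  choose a ha1 ha2 using h1
  refine ⟨a, fun k => ha1 k, fun k i => (ha2 k i).trans (by linarith), ?_⟩
  intro k i
  have h4 := one_le_div hX i
  have h5 : |(a k i : ℝ)| ≤ |(a k i : ℝ) - X / c.s ν (c.blk i) * u k i| +
      |X / c.s ν (c.blk i) * u k i| := by
    have := abs_add_le ((a k i : ℝ) - X / c.s ν (c.blk i) * u k i)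
      (X / c.s ν (c.blk i) * u k i)
    rwa [sub_add_cancel] at this
  have h6 : |u k i| ≤ ∑ k, ∑ i, |u k i| :=
    (Finset.single_le_sum (f := fun i => |u k i|) (fun i _ => abs_nonneg _)
      (Finset.mem_univ i)).trans
      (Finset.single_le_sum (f := fun k => ∑ i, |u k i|)
        (fun k _ => Finset.sum_nonneg fun i _ => abs_nonneg _) (Finset.mem_univ k))
  have h7 : |X / c.s ν (c.blk i) * u k i| ≤ X / c.s ν (c.blk i) * ∑ k, ∑ i, |u k i| := by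
    rw [abs_mul, abs_of_nonneg (by linarith)]
    exact mul_le_mul_of_nonneg_left h6 (by linarith)
  have h8 := ha2 k i
  nlinarith

theorem ex0_abs_le {d N : ℕ} {a0 : Fin n → ℤ} {a : Fin d → Fin n → ℤ} {i : Fin n} {Y : ℝ}
    (h0 : |(a0 i : ℝ)| ≤ Y) (h : ∀ k, |(a k i : ℝ)| ≤ Y) (e : Fin (N + 1))
    (β : Fin d → Fin (N + 1)) : |((J.ex0 a0 a e β i : ℤ) : ℝ)| ≤ (d + 1) * (N * Y) := by
  have hY : 0 ≤ Y := (abs_nonneg _).trans h0
  have hN : ∀ f : Fin (N + 1), ((f : ℕ) : ℝ) ≤ N := fun f => by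
    exact_mod_cast Nat.lt_succ_iff.mp f.2
  have h1 : ((J.ex0 a0 a e β i : ℤ) : ℝ) = (e : ℕ) * (a0 i : ℝ) + ∑ k, ((β k : ℕ) : ℝ) * a k i := by
    simp only [J.ex0, Pi.add_apply, Pi.smul_apply, Finset.sum_apply, smul_eq_mul]
    push_cast
    rfl
  rw [h1]
  have h2 : |((e : ℕ) : ℝ) * (a0 i : ℝ)| ≤ N * Y := by
    rw [abs_mul, Nat.abs_cast]
    exact mul_le_mul (hN e) h0 (abs_nonneg _) (Nat.cast_nonneg _)
  have h3 : |∑ k, ((β k : ℕ) : ℝ) * a k i| ≤ d * (N * Y) := by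
    refine (Finset.abs_sum_le_sum_abs _ _).trans ?_
    have h4 : ∀ k ∈ (Finset.univ : Finset (Fin d)), |((β k : ℕ) : ℝ) * a k i| ≤ N * Y := by
      intro k _
      rw [abs_mul, Nat.abs_cast]
      exact mul_le_mul (hN _) (h k) (abs_nonneg _) (Nat.cast_nonneg _)
    refine (Finset.sum_le_sum h4).trans ?_
    rw [Finset.sum_const, Finset.card_univ, Fintype.card_fin, nsmul_eq_mul]
  calc |((e : ℕ) : ℝ) * (a0 i : ℝ) + ∑ k, ((β k : ℕ) : ℝ) * a k i|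
      ≤ |((e : ℕ) : ℝ) * (a0 i : ℝ)| + |∑ k, ((β k : ℕ) : ℝ) * a k i| := abs_add_le _ _
    _ ≤ N * Y + d * (N * Y) := add_le_add h2 h3
    _ = _ := by ring

/-- the functions are integral Laurent polynomials -/
theorem fam_eq_lp {K : Type} [Field K] {κ : Type} {m d N : ℕ} {blk : Fin n → Fin (q + 1)}
    {Ξ : Fin n → MvPowerSeries (Fin n) K} (hΞ : ∀ i, MvPowerSeries.constantCoeff (Ξ i) ≠ 0)
    (eq : Fin m ≃ B0 blk) (θ : κ → Fin n → ℤ) (a0 : Fin n → ℤ) (a : Fin d → Fin n → ℤ)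
    (s0 : ℕ) (s : Fin m → ℕ) (p : J.Dx κ d N) :
    ∃ (T : Finset (Fin n → ℤ)) (r : (Fin n → ℤ) → ℤ),
      J.fam Ξ eq θ a0 a s0 s p = lp Ξ T (fun b => (r b : K)) ∧
      ∀ b ∈ T, ∃ γ : Fin m →₀ ℕ, ∑ l, γ l ≤ N ∧ b = J.fx eq θ a0 a (p, γ) := by
  classical
  refine ⟨(J.tG s0 s N).image (fun γ => J.fx eq θ a0 a (p, γ)), fun b =>
    ∑ γ ∈ J.tG s0 s N with J.fx eq θ a0 a (p, γ) = b, coeff γ (J.tp s0 s (p.2.1 : ℕ)), ?_, ?_⟩
  · have h1 := J.lp_index (J.tG s0 s N) (fun γ => J.fx eq θ a0 a (p, γ))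
      (fun γ => ((coeff γ (J.tp s0 s (p.2.1 : ℕ)) : ℤ) : K)) Ξ
    push_cast
    rw [← h1]
    unfold J.fam
    rw [J.ta_pow, Finset.mul_sum]
    refine Finset.sum_congr rfl fun γ _ => ?_
    unfold J.fx
    rw [J.psm_add Ξ hΞ _ (J.gx eq γ), J.psm_gx, map_intCast]
    ring
  · intro b hb
    obtain ⟨γ, hγ, rfl⟩ := Finset.mem_image.mp hb
    exact ⟨γ, J.tG_le hγ, rfl⟩

theorem gx_le {m N : ℕ} {blk : Fin n → Fin (q + 1)} (eq : Fin m ≃ B0 blk) {γ : Fin m →₀ ℕ}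
    (hγ : ∑ l, γ l ≤ N) (i : Fin n) : |((J.gx eq γ i : ℤ) : ℝ)| ≤ N := by
  have h1 := J.gx_nonneg eq γ i
  have h2 : J.gx eq γ i ≤ ∑ i, J.gx eq γ i :=
    Finset.single_le_sum (f := fun i => J.gx eq γ i) (fun i _ => J.gx_nonneg eq γ i)
      (Finset.mem_univ i)
  rw [J.sum_gx] at h2
  have h3 : J.gx eq γ i ≤ (N : ℤ) := h2.trans (by exact_mod_cast hγ)
  rw [abs_of_nonneg (by exact_mod_cast h1)]
  exact_mod_cast h3

/-- the dimension of the span of the functions -/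
theorem sec_rank {c : Cfg 𝓤 n q} (hb : c.bd) (cl : Cl c) (C0 : ℝ) (hC0 : 0 ≤ C0) {m d : ℕ}
    (eq : Fin m ≃ B0 c.blk) :
    ∃ C : ℝ, 0 < C ∧ ∀ᶠ ν in (𝓤 : Filter ℕ), ∀ (X : ℝ) (N : ℕ), 1 ≤ N →
      (∀ i, c.s ν (c.blk i) ≤ X) →
      ∀ [Algebra ℚ (MvPowerSeries (Fin n) (c.S.K ν))] (κ : Type) (θ : κ → Fin n → ℤ)
        (a0 : Fin n → ℤ) (a : Fin d → Fin n → ℤ),
        (∀ k i, |(θ k i : ℝ)| ≤ C0 * (N * X / c.s ν (c.blk i))) →
        (∀ i, |(a0 i : ℝ)| ≤ C0 * (X / c.s ν (c.blk i))) →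
        (∀ k i, |(a k i : ℝ)| ≤ C0 * (X / c.s ν (c.blk i))) →
        ∀ (s0 : ℕ) (s : Fin m → ℕ),
          (finrank ℚ (Submodule.span ℚ (Set.range
            (J.fam (N := N) (cl.Ξ ν) eq θ a0 a s0 s))) : ℝ) ≤
            C * ((N * X) ^ rkZ c.x (blL c.blk 0) *
              ∏ i ∈ cl.I.filter (fun i => c.blk i ≠ 0), (N * X / c.s ν (c.blk i))) := by
  classical
  have hA : (0 : ℝ) ≤ C0 + (d + 1) * C0 + 1 := by positivity
  obtain ⟨C, hC, H⟩ := cl.hilb hA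
  refine ⟨C, hC, ?_⟩
  filter_upwards [H, HN.lev cl] with ν hν hlev X N hN hX _ κ θ a0 a hθ ha0 ha s0 s
  have hi0 : ∃ i : Fin n, c.blk i = 0 := (c.bdd hb).2.2.2
  have hX0 : 0 < X := by
    obtain ⟨i, _⟩ := hi0
    exact (c.s_pos ν (c.blk i)).trans_le (hX i)
  have hN' : (1 : ℝ) ≤ N := by exact_mod_cast hN
  have hNX : ∀ i, c.s ν (c.blk i) ≤ N * X := fun i => by
    have := hX i
    nlinarith
  have h1 := hν (N * X) hNX (by positivity) (J.Dx κ d N)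
    (J.fam (N := N) (cl.Ξ ν) eq θ a0 a s0 s) ?_
  · refine h1.trans (le_of_eq ?_)
    congr 1
    rw [← Finset.prod_filter_mul_prod_filter_not cl.I (fun i => c.blk i = 0)]
    congr 1
    rw [Finset.prod_congr rfl (g := fun _ => N * X), Finset.prod_const, block_zero_card cl hb]
    intro i hi
    rw [(Finset.mem_filter.mp hi).2, ((c.bdd hb).1 ν), div_one]
  · intro p
    obtain ⟨T, r, h2, h3⟩ := fam_eq_lp hlev.const eq θ a0 a s0 s p
    refine ⟨T, r, h2, ?_⟩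
    intro b hb' i
    obtain ⟨γ, hγ, rfl⟩ := h3 b hb'
    have h4 := one_le_div hX i
    have hs := c.s_pos ν (c.blk i)
    have h5 := ex0_abs_le (ha0 i) (fun k => ha k i) p.2.1 p.2.2
    have h6 := gx_le eq hγ i
    have h7 := hθ p.1 i
    have h8 : |((J.fx eq θ a0 a (p, γ) i : ℤ) : ℝ)| ≤ |(θ p.1 i : ℝ)| +
        |((J.ex0 a0 a p.2.1 p.2.2 i : ℤ) : ℝ)| + |((J.gx eq γ i : ℤ) : ℝ)| := by
      unfold J.fx
      simp only [Pi.add_apply]
      push_cast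
      exact (abs_add_le _ _).trans (by
        have := abs_add_le (θ p.1 i : ℝ) ((J.ex0 a0 a p.2.1 p.2.2 i : ℤ) : ℝ)
        linarith)
    have h9 : (N : ℝ) ≤ N * X / c.s ν (c.blk i) := by
      rw [mul_div_assoc]
      nlinarith
    calc |((J.fx eq θ a0 a (p, γ) i : ℤ) : ℝ)|
        ≤ C0 * (N * X / c.s ν (c.blk i)) + (d + 1) * (N * (C0 * (X / c.s ν (c.blk i)))) +
            N * X / c.s ν (c.blk i) := by linarith
      _ = (C0 + (d + 1) * C0 + 1) * (N * X) / c.s ν (c.blk i) := by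
        field_simp

/-- the exponents of the terms of the functions are near to `N X / s • V` -/
theorem sec_near (c : Cfg 𝓤 n q) (C0 : ℝ) (hC0 : 0 ≤ C0) {d : ℕ} (u0 : Fin n → ℝ)
    (hu0 : u0 ∈ c.V) (u : Fin d → Fin n → ℝ) (hu : ∀ k, u k ∈ c.V) :
    ∃ C : ℝ, 0 ≤ C ∧ ∀ (ν : ℕ) (X : ℝ) (N : ℕ), 1 ≤ N →
      ∀ (θ a0 : Fin n → ℤ) (a : Fin d → Fin n → ℤ) (v : Fin n → ℝ), v ∈ c.V →
        (∀ i, |v i| ≤ 1) →
        (∀ i, |(θ i : ℝ) - N * X / c.s ν (c.blk i) * v i| ≤ C0) →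
        (∀ i, |(a0 i : ℝ) - X / c.s ν (c.blk i) * u0 i| ≤ C0) →
        (∀ k i, |(a k i : ℝ) - X / c.s ν (c.blk i) * u k i| ≤ C0) →
        ∀ (e : Fin (N + 1)) (β : Fin d → Fin (N + 1)) (γ : Fin n → ℤ), (∀ i, |(γ i : ℝ)| ≤ N) →
          ∃ w ∈ c.V, (∀ i, |w i| ≤ C) ∧
            ∀ i, |((θ + J.ex0 a0 a e β + γ) i : ℝ) - N * X / c.s ν (c.blk i) * w i| ≤ C * N := by
  classical
  have hU0 : 0 ≤ ∑ i, |u0 i| := Finset.sum_nonneg fun i _ => abs_nonneg _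
  have hU : 0 ≤ ∑ k, ∑ i, |u k i| :=
    Finset.sum_nonneg fun k _ => Finset.sum_nonneg fun i _ => abs_nonneg _
  have hd : (0 : ℝ) ≤ (d + 2) * C0 := by positivity
  refine ⟨(d + 2) * C0 + 1 + (∑ i, |u0 i| + ∑ k, ∑ i, |u k i|), by linarith, ?_⟩
  intro ν X N hN θ a0 a v hv hv1 hθ ha0 ha e β γ hγ
  have hN' : (1 : ℝ) ≤ N := by exact_mod_cast hN
  have hN0 : (N : ℝ) ≠ 0 := by linarith
  have hle : ∀ f : Fin (N + 1), ((f : ℕ) : ℝ) ≤ N := fun f => by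
    exact_mod_cast Nat.lt_succ_iff.mp f.2
  have hfr : ∀ f : Fin (N + 1), ((f : ℕ) : ℝ) / N ≤ 1 := fun f =>
    div_le_one_of_le₀ (hle f) (Nat.cast_nonneg _)
  have hfr0 : ∀ f : Fin (N + 1), 0 ≤ ((f : ℕ) : ℝ) / N := fun f =>
    div_nonneg (Nat.cast_nonneg _) (Nat.cast_nonneg _)
  refine ⟨v + (((e : ℕ) : ℝ) / N) • u0 + ∑ k, (((β k : ℕ) : ℝ) / N) • u k, ?_, ?_, ?_⟩
  · exact Submodule.add_mem _ (Submodule.add_mem _ hv (Submodule.smul_mem _ _ hu0))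
      (Submodule.sum_mem _ fun k _ => Submodule.smul_mem _ _ (hu k))
  · intro i
    simp only [Pi.add_apply, Pi.smul_apply, Finset.sum_apply, smul_eq_mul]
    have h1 : |((e : ℕ) : ℝ) / N * u0 i| ≤ ∑ i, |u0 i| := by
      rw [abs_mul, abs_of_nonneg (hfr0 e)]
      refine (mul_le_of_le_one_left (abs_nonneg _) (hfr e)).trans ?_
      exact Finset.single_le_sum (f := fun i => |u0 i|) (fun i _ => abs_nonneg _)
        (Finset.mem_univ i)
    have h2 : |∑ k, ((β k : ℕ) : ℝ) / N * u k i| ≤ ∑ k, ∑ i, |u k i| := by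
      refine (Finset.abs_sum_le_sum_abs _ _).trans (Finset.sum_le_sum fun k _ => ?_)
      rw [abs_mul, abs_of_nonneg (hfr0 (β k))]
      refine (mul_le_of_le_one_left (abs_nonneg _) (hfr (β k))).trans ?_
      exact Finset.single_le_sum (f := fun i => |u k i|) (fun i _ => abs_nonneg _)
        (Finset.mem_univ i)
    have h3 := abs_add_le (v i + ((e : ℕ) : ℝ) / N * u0 i) (∑ k, ((β k : ℕ) : ℝ) / N * u k i)
    have h4 := abs_add_le (v i) (((e : ℕ) : ℝ) / N * u0 i)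
    have h5 := hv1 i
    linarith
  · intro i
    simp only [Pi.add_apply, Pi.smul_apply, Finset.sum_apply, smul_eq_mul, J.ex0]
    push_cast
    set Y : ℝ := X / c.s ν (c.blk i) with hY
    have hNY : (N : ℝ) * X / c.s ν (c.blk i) = N * Y := by rw [hY, mul_div_assoc]
    have hθi := hθ i
    rw [hNY] at hθi ⊢
    have h1 : (N : ℝ) * Y * (v i + ((e : ℕ) : ℝ) / N * u0 i +
        ∑ k, ((β k : ℕ) : ℝ) / N * u k i) =
        N * Y * v i + (e : ℕ) * (Y * u0 i) + ∑ k, ((β k : ℕ) : ℝ) * (Y * u k i) := by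
      rw [mul_add, mul_add, Finset.mul_sum]
      congr 1
      · congr 1
        field_simp
      · refine Finset.sum_congr rfl fun k _ => ?_
        field_simp
    rw [h1]
    have h2 : (θ i : ℝ) + (((e : ℕ) : ℝ) * (a0 i : ℝ) + ∑ k, ((β k : ℕ) : ℝ) * (a k i : ℝ)) +
        (γ i : ℝ) - (N * Y * v i + (e : ℕ) * (Y * u0 i) + ∑ k, ((β k : ℕ) : ℝ) * (Y * u k i)) =
        ((θ i : ℝ) - N * Y * v i) + ((e : ℕ) : ℝ) * ((a0 i : ℝ) - Y * u0 i) +
          ∑ k, ((β k : ℕ) : ℝ) * ((a k i : ℝ) - Y * u k i) + (γ i : ℝ) := by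
      simp only [mul_sub, Finset.sum_sub_distrib]
      ring
    rw [h2]
    have h3 : |((e : ℕ) : ℝ) * ((a0 i : ℝ) - Y * u0 i)| ≤ N * C0 := by
      rw [abs_mul, Nat.abs_cast]
      exact mul_le_mul (hle e) (ha0 i) (abs_nonneg _) (Nat.cast_nonneg _)
    have h4 : |∑ k, ((β k : ℕ) : ℝ) * ((a k i : ℝ) - Y * u k i)| ≤ d * (N * C0) := by
      refine (Finset.abs_sum_le_sum_abs _ _).trans ?_
      have h5 : ∀ k ∈ (Finset.univ : Finset (Fin d)),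
          |((β k : ℕ) : ℝ) * ((a k i : ℝ) - Y * u k i)| ≤ N * C0 := by
        intro k _
        rw [abs_mul, Nat.abs_cast]
        exact mul_le_mul (hle _) (ha k i) (abs_nonneg _) (Nat.cast_nonneg _)
      refine (Finset.sum_le_sum h5).trans ?_
      rw [Finset.sum_const, Finset.card_univ, Fintype.card_fin, nsmul_eq_mul]
    have h6 := abs_add_le (((θ i : ℝ) - N * Y * v i) + ((e : ℕ) : ℝ) * ((a0 i : ℝ) - Y * u0 i) +
          ∑ k, ((β k : ℕ) : ℝ) * ((a k i : ℝ) - Y * u k i)) (γ i : ℝ)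
    have h7 := abs_add_le (((θ i : ℝ) - N * Y * v i) + ((e : ℕ) : ℝ) * ((a0 i : ℝ) - Y * u0 i))
          (∑ k, ((β k : ℕ) : ℝ) * ((a k i : ℝ) - Y * u k i))
    have h8 := abs_add_le ((θ i : ℝ) - N * Y * v i) (((e : ℕ) : ℝ) * ((a0 i : ℝ) - Y * u0 i))
    have h9 := hγ i
    have h10 : C0 ≤ N * C0 := by nlinarith
    have h11 : 0 ≤ (∑ i, |u0 i| + ∑ k, ∑ i, |u k i|) * (N : ℝ) := by positivity
    calc _ ≤ C0 + N * C0 + d * (N * C0) + N := by linarith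
      _ ≤ ((d + 2) * C0 + 1) * N := by nlinarith
      _ ≤ ((d + 2) * C0 + 1 + (∑ i, |u0 i| + ∑ k, ∑ i, |u k i|)) * N := by nlinarith

end Sec

end Pool.Agent.ZP
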