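import Mathlib

set_option autoImplicit false

/-! Project ZP (MP_c95b3b_ag), Step B: the choice of the numbers (ZP_full 5.7). -/

namespace Pool.Agent.ZP

/-- a monomial is below an exponential for large arguments -/
theorem sec_ev (A : ℝ) (p : ℕ) {c : ℝ} (hc : 0 < c) :
    ∃ x0 : ℝ, 1 ≤ x0 ∧ ∀ x : ℝ, x0 ≤ x → A * x ^ p ≤ Real.exp (c * x) := by
  have h := (isLittleO_pow_exp_pos_mul_atTop p hc).bound
    (show (0 : ℝ) < 1 / (|A| + 1) by positivity)
  obtain ⟨x0, h0⟩ := Filter.eventually_atTop.1 h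
  refine ⟨max 1 x0, le_max_left _ _, fun x hx => ?_⟩
  have h1 := h0 x ((le_max_right _ _).trans hx)
  have hx1 : (1 : ℝ) ≤ x := (le_max_left _ _).trans hx
  rw [Real.norm_of_nonneg (by positivity), Real.norm_of_nonneg (by positivity)] at h1
  have h2 : A * x ^ p ≤ (|A| + 1) * x ^ p :=
    mul_le_mul_of_nonneg_right (by linarith [le_abs_self A]) (by positivity)
  refine h2.trans ?_
  calc (|A| + 1) * x ^ p ≤ (|A| + 1) * (1 / (|A| + 1) * Real.exp (c * x)) :=
        mul_le_mul_of_nonneg_left h1 (by positivity)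
    _ = Real.exp (c * x) := by field_simp

/-- the choice of the numbers in Step B: `x` is `k * S`, `D` the number of the functions, `H` the
bound for the rank -/
theorem sec_num (d n m : ℕ) {c3 c4 c6 B Cθ : ℝ} (h3 : 0 < c3) (h4 : 0 < c4) (h6 : 0 < c6)
    (hB : 0 ≤ B) (hC : 0 ≤ Cθ) :
    ∃ C c8 x0 : ℝ, 0 ≤ C ∧ 0 < c8 ∧ 1 ≤ x0 ∧ ∀ x : ℝ, x0 ≤ x →
      ∃ (N ρ : ℕ) (δ τ1 : ℝ), 1 ≤ N ∧ 0 < δ ∧
        ((N : ℝ) + 1) ^ (d + 1) * ρ < Real.exp (c4 * x * ⌈c3 * x ^ d⌉₊) ∧
        (m * (B + 1) + 2) * (((N : ℝ) + 1) ^ d * (⌈c3 * x ^ d⌉₊ : ℝ) ^ 2 + 1) ≤ τ1 ∧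
        ∀ D H : ℕ, 1 ≤ D → (D : ℝ) ≤ ((N : ℝ) + 1) ^ (d + 1) * (Cθ * (N * x) + 1) ^ n →
          c6 * (N / x ^ d) * H ≤ D →
          (2 * D * ρ / δ + 1) ^ H < ((ρ : ℝ) + 1) ^ D ∧
          D * ρ * τ1 ^ N ≤ Real.exp (C * (N * x)) ∧
          D * δ * τ1 ^ N ≤ Real.exp (-(c8 * (N * x))) := by
  set K : ℝ := 4 / c6 with hK
  set c7 : ℝ := c3 * c4 / 2 with h7
  set c8 : ℝ := c6 * c7 / 4 with h8
  have hKp : 0 < K := by positivity
  have h7p : 0 < c7 := by positivity
  have h8p : 0 < c8 := by positivity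
  set ε : ℝ := min 1 (min c7 (c8 / 4)) with hε
  have hεp : 0 < ε := by
    rw [hε]; exact lt_min one_pos (lt_min h7p (by positivity))
  have hε1 : ε ≤ 1 := min_le_left _ _
  have hε7 : ε ≤ c7 := (min_le_right _ _).trans (min_le_left _ _)
  have hε8 : ε ≤ c8 / 4 := (min_le_right _ _).trans (min_le_right _ _)
  -- the three growth conditions
  obtain ⟨x1, hx1, H1⟩ := sec_ev (3 * ((K + 2) ^ (d + 1) * (Cθ * (K + 1) + 1) ^ n))
    (d * (d + 1) + (d + 1) * n) hεp
  obtain ⟨x2, hx2, H2⟩ := sec_ev ((m * (B + 1) + 2) * ((K + 2) ^ d * (c3 + 1) ^ 2 + 1))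
    (d * d + 2 * d) hεp
  obtain ⟨x3, hx3, H3⟩ := sec_ev (2 * (K + 2) ^ (d + 1)) (d * (d + 1)) hεp
  refine ⟨c7 / K + 2, c8 / 2, max x1 (max x2 x3), by positivity, by positivity,
    hx1.trans (le_max_left _ _), fun x hx => ?_⟩
  have G1 := H1 x ((le_max_left _ _).trans hx)
  have G2 := H2 x (((le_max_left _ _).trans (le_max_right _ _)).trans hx)
  have G3 := H3 x (((le_max_right _ _).trans (le_max_right _ _)).trans hx)
  have hx0 : 1 ≤ x := hx1.trans ((le_max_left _ _).trans hx)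
  have hxp : 0 < x := by linarith
  have hX1 : 1 ≤ x ^ d := one_le_pow₀ hx0
  have hXp : 0 < x ^ d := by positivity
  have hy : x ≤ x ^ (d + 1) := by
    rw [pow_succ]; nlinarith
  -- N
  obtain ⟨N, hNdef⟩ : ∃ N : ℕ, N = ⌈K * x ^ d⌉₊ := ⟨_, rfl⟩
  have hN1 : K * x ^ d ≤ N := by rw [hNdef]; exact Nat.le_ceil _
  have hN2 : (N : ℝ) ≤ (K + 1) * x ^ d := by
    have := (Nat.ceil_lt_add_one (show 0 ≤ K * x ^ d by positivity)).le
    rw [← hNdef] at this
    linarith
  have hN3 : (N : ℝ) + 1 ≤ (K + 2) * x ^ d := by linarith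
  have hN : 1 ≤ N := by
    rw [hNdef]; exact Nat.one_le_iff_ne_zero.2 (Nat.ceil_pos.2 (by positivity)).ne'
  have hNr : (1 : ℝ) ≤ N := by exact_mod_cast hN
  -- the ceiling
  obtain ⟨k, hkdef⟩ : ∃ k : ℕ, k = ⌈c3 * x ^ d⌉₊ := ⟨_, rfl⟩
  have hk1 : c3 * x ^ d ≤ k := by rw [hkdef]; exact Nat.le_ceil _
  have hk2 : (k : ℝ) ≤ (c3 + 1) * x ^ d := by
    have := (Nat.ceil_lt_add_one (show 0 ≤ c3 * x ^ d by positivity)).le
    rw [← hkdef] at this
    linarith
  -- rho
  obtain ⟨ρ, hρdef⟩ : ∃ ρ : ℕ, ρ = ⌊Real.exp (c7 * x ^ (d + 1))⌋₊ := ⟨_, rfl⟩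
  have hρ1 : (ρ : ℝ) ≤ Real.exp (c7 * x ^ (d + 1)) := by
    rw [hρdef]; exact Nat.floor_le (Real.exp_pos _).le
  have hρ2 : Real.exp (c7 * x ^ (d + 1)) < (ρ : ℝ) + 1 := by
    rw [hρdef]; exact Nat.lt_floor_add_one _
  have hρ3 : 1 ≤ ρ := by
    rw [hρdef]
    exact (Nat.one_le_floor_iff _).2 (Real.one_le_exp (by positivity))
  have hρ4 : (1 : ℝ) ≤ ρ := by exact_mod_cast hρ3
  rw [← hkdef]
  refine ⟨N, ρ, Real.exp (-(c8 * (N * x))),
    (m * (B + 1) + 2) * (((N : ℝ) + 1) ^ d * (k : ℝ) ^ 2 + 1), hN, Real.exp_pos _, ?_, le_rfl, ?_⟩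
  · -- the first inequality
    have e1 : ((N : ℝ) + 1) ^ (d + 1) ≤ (K + 2) ^ (d + 1) * x ^ (d * (d + 1)) := by
      rw [pow_mul, ← mul_pow]
      exact pow_le_pow_left₀ (by positivity) hN3 _
    have e2 : ((N : ℝ) + 1) ^ (d + 1) < Real.exp (c7 * x ^ (d + 1)) := by
      have hp : 0 < ((N : ℝ) + 1) ^ (d + 1) := by positivity
      have : 2 * ((N : ℝ) + 1) ^ (d + 1) ≤ Real.exp (ε * x) := by
        refine le_trans ?_ G3
        linarith
      have h9 : Real.exp (ε * x) ≤ Real.exp (c7 * x ^ (d + 1)) :=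
        Real.exp_le_exp.2 (mul_le_mul hε7 hy hxp.le h7p.le)
      linarith
    have e3 : ((N : ℝ) + 1) ^ (d + 1) * ρ <
        Real.exp (c7 * x ^ (d + 1)) * Real.exp (c7 * x ^ (d + 1)) :=
      mul_lt_mul e2 hρ1 (by linarith) (Real.exp_pos _).le
    refine e3.trans_le ?_
    rw [← Real.exp_add]
    apply Real.exp_le_exp.2
    have : c4 * x * (c3 * x ^ d) ≤ c4 * x * k := mul_le_mul_of_nonneg_left hk1 (by positivity)
    refine le_trans (le_of_eq ?_) this
    rw [h7, pow_succ]; ring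
  · intro D H hD hDle hH
    have hDr : (1 : ℝ) ≤ D := by exact_mod_cast hD
    -- bounds of D and tau1
    have d1 : 3 * (D : ℝ) ≤ Real.exp (ε * x) := by
      refine le_trans ?_ G1
      have e1 : ((N : ℝ) + 1) ^ (d + 1) ≤ (K + 2) ^ (d + 1) * x ^ (d * (d + 1)) := by
        rw [pow_mul, ← mul_pow]
        exact pow_le_pow_left₀ (by positivity) hN3 _
      have e2 : (Cθ * (N * x) + 1) ^ n ≤ (Cθ * (K + 1) + 1) ^ n * x ^ ((d + 1) * n) := by
        rw [pow_mul, ← mul_pow]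
        refine pow_le_pow_left₀ (by positivity) ?_ _
        have q1 : (N : ℝ) * x ≤ (K + 1) * x ^ (d + 1) := by
          rw [pow_succ, ← mul_assoc]
          exact mul_le_mul_of_nonneg_right hN2 hxp.le
        have q2 : Cθ * (N * x) ≤ Cθ * ((K + 1) * x ^ (d + 1)) := mul_le_mul_of_nonneg_left q1 hC
        have q3 : (1 : ℝ) ≤ x ^ (d + 1) := hx0.trans hy
        linarith
      calc 3 * (D : ℝ) ≤ 3 * (((N : ℝ) + 1) ^ (d + 1) * (Cθ * (N * x) + 1) ^ n) := by linarith
        _ ≤ 3 * (((K + 2) ^ (d + 1) * x ^ (d * (d + 1))) *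
            ((Cθ * (K + 1) + 1) ^ n * x ^ ((d + 1) * n))) := by
          refine mul_le_mul_of_nonneg_left ?_ (by norm_num)
          exact mul_le_mul e1 e2 (by positivity) (by positivity)
        _ = _ := by rw [pow_add]; ring
    have hDx : (D : ℝ) ≤ Real.exp (ε * x) := by linarith
    have t1 : (m * (B + 1) + 2) * (((N : ℝ) + 1) ^ d * (k : ℝ) ^ 2 + 1) ≤ Real.exp (ε * x) := by
      refine le_trans ?_ G2
      have e1 : ((N : ℝ) + 1) ^ d ≤ (K + 2) ^ d * x ^ (d * d) := by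
        rw [pow_mul, ← mul_pow]
        exact pow_le_pow_left₀ (by positivity) hN3 _
      have e2 : (k : ℝ) ^ 2 ≤ (c3 + 1) ^ 2 * x ^ (2 * d) := by
        rw [mul_comm 2 d, pow_mul, ← mul_pow]
        exact pow_le_pow_left₀ (by positivity) hk2 _
      have e3 : (1 : ℝ) ≤ x ^ (d * d + 2 * d) := one_le_pow₀ hx0
      have e4 : ((N : ℝ) + 1) ^ d * (k : ℝ) ^ 2 ≤
          ((K + 2) ^ d * (c3 + 1) ^ 2) * x ^ (d * d + 2 * d) := by
        calc ((N : ℝ) + 1) ^ d * (k : ℝ) ^ 2 ≤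
            ((K + 2) ^ d * x ^ (d * d)) * ((c3 + 1) ^ 2 * x ^ (2 * d)) :=
              mul_le_mul e1 e2 (by positivity) (by positivity)
          _ = _ := by rw [pow_add]; ring
      have e5 : ((N : ℝ) + 1) ^ d * (k : ℝ) ^ 2 + 1 ≤
          ((K + 2) ^ d * (c3 + 1) ^ 2 + 1) * x ^ (d * d + 2 * d) := by linarith
      rw [mul_assoc]
      exact mul_le_mul_of_nonneg_left e5 (by positivity)
    set τ1 : ℝ := (m * (B + 1) + 2) * (((N : ℝ) + 1) ^ d * (k : ℝ) ^ 2 + 1) with hτ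
    have hτ0 : 0 ≤ τ1 := by rw [hτ]; positivity
    have t2 : τ1 ^ N ≤ Real.exp (ε * (N * x)) := by
      calc τ1 ^ N ≤ (Real.exp (ε * x)) ^ N := pow_le_pow_left₀ hτ0 t1 _
        _ = Real.exp (ε * (N * x)) := by rw [← Real.exp_nat_mul]; congr 1; ring
    have hxN : x ≤ N * x := by nlinarith
    have d2 : (D : ℝ) ≤ Real.exp (ε * (N * x)) :=
      hDx.trans (Real.exp_le_exp.2 (mul_le_mul_of_nonneg_left hxN hεp.le))
    -- consequences of the rank bound
    have r1 : c6 * N * H ≤ D * x ^ d := by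
      have := mul_le_mul_of_nonneg_right hH hXp.le
      calc c6 * N * H = c6 * (N / x ^ d) * H * x ^ d := by field_simp
        _ ≤ _ := this
    have r2 : 4 * (H : ℝ) ≤ D := by
      have q1 : c6 * (K * x ^ d) * H ≤ c6 * N * H := by gcongr
      have q2 : c6 * (K * x ^ d) * H = 4 * H * x ^ d := by rw [hK]; field_simp
      rw [q2] at q1
      exact le_of_mul_le_mul_right (q1.trans r1) hXp
    refine ⟨?_, ?_, ?_⟩
    · have s1 : 1 ≤ (D : ℝ) * ρ / Real.exp (-(c8 * (N * x))) := by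
        rw [Real.exp_neg, div_inv_eq_mul]
        have w1 : 1 ≤ Real.exp (c8 * (N * x)) := Real.one_le_exp (by positivity)
        have w2 : 1 ≤ (D : ℝ) * ρ := one_le_mul_of_one_le_of_one_le hDr hρ4
        exact one_le_mul_of_one_le_of_one_le w2 w1
      have s2 : 2 * (D : ℝ) * ρ / Real.exp (-(c8 * (N * x))) + 1 ≤
          Real.exp (2 * (c7 * x ^ (d + 1)) + c8 * (N * x)) := by
        have w1 : 2 * (D : ℝ) * ρ / Real.exp (-(c8 * (N * x))) + 1 ≤
            3 * D * ρ * Real.exp (c8 * (N * x)) := by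
          have w2 : 2 * (D : ℝ) * ρ / Real.exp (-(c8 * (N * x))) =
              2 * ((D : ℝ) * ρ / Real.exp (-(c8 * (N * x)))) := by ring
          have w3 : 3 * (D : ℝ) * ρ * Real.exp (c8 * (N * x)) =
              3 * ((D : ℝ) * ρ / Real.exp (-(c8 * (N * x)))) := by
            rw [Real.exp_neg, div_inv_eq_mul]; ring
          rw [w2, w3]; linarith
        refine w1.trans ?_
        have w4 : 3 * (D : ℝ) * ρ ≤ Real.exp (c7 * x ^ (d + 1)) * Real.exp (c7 * x ^ (d + 1)) := by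
          have h9 : Real.exp (ε * x) ≤ Real.exp (c7 * x ^ (d + 1)) :=
            Real.exp_le_exp.2 (mul_le_mul hε7 hy hxp.le h7p.le)
          exact mul_le_mul (d1.trans h9) hρ1 (by linarith) (Real.exp_pos _).le
        rw [two_mul, Real.exp_add, Real.exp_add]
        exact mul_le_mul_of_nonneg_right w4 (Real.exp_pos _).le
      have s3 : (2 * (D : ℝ) * ρ / Real.exp (-(c8 * (N * x))) + 1) ^ H ≤
          Real.exp (D * (c7 * x ^ (d + 1))) := by
        calc (2 * (D : ℝ) * ρ / Real.exp (-(c8 * (N * x))) + 1) ^ H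
            ≤ (Real.exp (2 * (c7 * x ^ (d + 1)) + c8 * (N * x))) ^ H :=
              pow_le_pow_left₀ (by positivity) s2 _
          _ = Real.exp (H * (2 * (c7 * x ^ (d + 1)) + c8 * (N * x))) := by
              rw [← Real.exp_nat_mul]
          _ ≤ _ := by
            apply Real.exp_le_exp.2
            have u1 : (H : ℝ) * (2 * (c7 * x ^ (d + 1))) ≤ D / 2 * (c7 * x ^ (d + 1)) := by
              have : 0 ≤ c7 * x ^ (d + 1) := by positivity
              nlinarith
            have u2 : (H : ℝ) * (c8 * (N * x)) ≤ D / 4 * (c7 * x ^ (d + 1)) := by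
              have v1 : (H : ℝ) * (c8 * (N * x)) = c7 / 4 * x * (c6 * N * H) := by
                rw [h8]; ring
              have v2 : D / 4 * (c7 * x ^ (d + 1)) = c7 / 4 * x * (D * x ^ d) := by
                rw [pow_succ]; ring
              rw [v1, v2]
              exact mul_le_mul_of_nonneg_left r1 (by positivity)
            have u3 : 0 ≤ (D : ℝ) * (c7 * x ^ (d + 1)) := by positivity
            linarith
      refine s3.trans_lt ?_
      rw [Real.exp_nat_mul]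
      exact pow_lt_pow_left₀ hρ2 (Real.exp_pos _).le (by omega)
    · have s1 : Real.exp (c7 * x ^ (d + 1)) ≤ Real.exp (c7 / K * (N * x)) := by
        apply Real.exp_le_exp.2
        have : c7 * x ^ (d + 1) = c7 / K * (K * x ^ d * x) := by
          rw [pow_succ]; field_simp
        rw [this]
        gcongr
      calc (D : ℝ) * ρ * τ1 ^ N ≤ Real.exp (ε * (N * x)) * Real.exp (c7 / K * (N * x)) *
            Real.exp (ε * (N * x)) := by
            refine mul_le_mul (mul_le_mul d2 (hρ1.trans s1) (by linarith) (Real.exp_pos _).le)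
              t2 (by positivity) (by positivity)
        _ = Real.exp ((ε + c7 / K + ε) * (N * x)) := by
            rw [← Real.exp_add, ← Real.exp_add]; congr 1; ring
        _ ≤ _ := by
            apply Real.exp_le_exp.2
            refine mul_le_mul_of_nonneg_right ?_ (by positivity)
            linarith
    · calc (D : ℝ) * Real.exp (-(c8 * (N * x))) * τ1 ^ N ≤
            Real.exp (ε * (N * x)) * Real.exp (-(c8 * (N * x))) * Real.exp (ε * (N * x)) := by
            refine mul_le_mul (mul_le_mul_of_nonneg_right d2 (Real.exp_pos _).le) t2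
              (by positivity) (by positivity)
        _ = Real.exp ((2 * ε - c8) * (N * x)) := by
            rw [← Real.exp_add, ← Real.exp_add]; congr 1; ring
        _ ≤ _ := by
            apply Real.exp_le_exp.2
            have : (2 * ε - c8) * (N * x) ≤ (-(c8 / 2)) * (N * x) :=
              mul_le_mul_of_nonneg_right (by linarith) (by positivity)
            linarith

end Pool.Agent.ZP
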