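import Mathlib
import Pool.Agent.Lib.MP_c95b3b_ag_ZP.JG
import Pool.Agent.Lib.MP_c95b3b_ag_ZP.Glue
import Pool.Agent.Lib.MP_c95b3b_ag_ZP.SecA
import Pool.Agent.Lib.MP_c95b3b_ag_ZP.SecNum

set_option autoImplicit false

/-! Project ZP (MP_c95b3b_ag), Step B: the auxiliary section (ZP_full 5.3 - 5.7).
Author: helper35. -/

namespace Pool.Agent.ZP

open MvPolynomial Filter Topology Module Pool.Agent.L3 Pool.Agent.SD Pool.Agent.AL

variable {𝓤 : Ultrafilter ℕ} {n q : ℕ}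

namespace Sec

/-- polynomials in the coordinates of the block `0` as Laurent polynomials -/
theorem sec_poly {F : Type} [Field F] [Algebra ℂ F] {m : ℕ} {blk : Fin n → Fin (q + 1)}
    (eq : Fin m ≃ B0 blk) (y : Fin n → F) (P : MvPolynomial (Fin m) ℂ) :
    aeval (fun l => y (eq l)) P = ∑ a ∈ P.support.image (J.gx eq),
      algebraMap ℂ F (coeff (Finsupp.equivFunOnFinite.symm fun l => (a (eq l)).toNat) P) *
        mn y a := by
  classical
  have hγ : ∀ γ : Fin m →₀ ℕ, (Finsupp.equivFunOnFinite.symm fun l =>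
      (J.gx eq γ (eq l)).toNat) = γ := by
    intro γ
    ext l
    rw [Finsupp.equivFunOnFinite_symm_apply_apply, J.gx_eq, Int.toNat_natCast]
  have hinj : Set.InjOn (J.gx eq) (P.support : Set (Fin m →₀ ℕ)) := by
    intro γ _ γ' _ h
    rw [← hγ γ, ← hγ γ', h]
  rw [Finset.sum_image hinj, aeval_def, eval₂_eq']
  refine Finset.sum_congr rfl fun γ _ => ?_
  rw [hγ γ]
  congr 1
  rw [mn, J.prod_B0 eq (fun i => y i ^ J.gx eq γ i) (fun i hi => by
    rw [J.gx_zero eq γ i hi, zpow_zero])]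
  refine Finset.prod_congr rfl fun l _ => ?_
  rw [J.gx_eq, zpow_natCast]

/-- the number of integral vectors in a box -/
theorem card_box_le (Θ : Finset (Fin n → ℤ)) {R : ℝ} (hR : 0 ≤ R)
    (h : ∀ θ ∈ Θ, ∀ i, |(θ i : ℝ)| ≤ R) : (Θ.card : ℝ) ≤ (2 * R + 1) ^ n := by
  classical
  have h1 : Θ ⊆ Fintype.piFinset fun _ : Fin n => Finset.Icc (-⌊R⌋) ⌊R⌋ := by
    intro θ hθ
    rw [Fintype.mem_piFinset]
    intro i
    have h2 := abs_le.mp (h θ hθ i)
    rw [Finset.mem_Icc]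
    constructor
    · rw [neg_le]
      rw [Int.le_floor]
      push_cast
      linarith
    · rw [Int.le_floor]
      exact h2.2
  have h2 := Finset.card_le_card h1
  rw [Fintype.card_piFinset, Finset.prod_const, Finset.card_univ, Fintype.card_fin,
    Int.card_Icc] at h2
  have h3 : 0 ≤ ⌊R⌋ := Int.floor_nonneg.mpr hR
  have h4 : (((⌊R⌋ + 1 - -⌊R⌋).toNat : ℕ) : ℝ) ≤ 2 * R + 1 := by
    have h5 : (((⌊R⌋ + 1 - -⌊R⌋).toNat : ℕ) : ℤ) = ⌊R⌋ + 1 - -⌊R⌋ := Int.toNat_of_nonneg (by omega)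
    have h6 : (((⌊R⌋ + 1 - -⌊R⌋).toNat : ℕ) : ℝ) = ((⌊R⌋ + 1 - -⌊R⌋ : ℤ) : ℝ) := by
      rw [← h5]
      norm_cast
    rw [h6]
    push_cast
    have := Int.floor_le R
    linarith
  calc (Θ.card : ℝ) ≤ (((⌊R⌋ + 1 - -⌊R⌋).toNat ^ n : ℕ) : ℝ) := by exact_mod_cast h2
    _ = (((⌊R⌋ + 1 - -⌊R⌋).toNat : ℕ) : ℝ) ^ n := by push_cast; rfl
    _ ≤ _ := pow_le_pow_left₀ (Nat.cast_nonneg _) h4 n

end Sec

/-- **The auxiliary section**: a Laurent polynomial with exponents near neutral exponents, with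
moderate integral coefficients, and with very small coefficients in another representation at
every archimedean place. -/
theorem exists_sections {c : Cfg 𝓤 n q} (hb : c.bd) {cl : Cl c} (T : Ty cl)
    (hV : ∀ y : Fin cl.I.card → ℝ, ∃ b ∈ c.V, AR T.A b = y)
    (hW : rkZ c.x (blL c.blk 0) + 1 ≤
      finrank ℝ (Submodule.span ℝ (pj c.blk 0 '' (T.W : Set (Fin n → ℝ))))) :
    ∃ C c8 k0 : ℝ, 0 ≤ C ∧ 0 < c8 ∧ ∀ k : ℝ, k0 ≤ k → ∀ᶠ ν in (𝓤 : Filter ℕ),
      ∃ (S : ℝ) (N : ℕ) (Q : Finset (Fin n → ℤ)) (r : (Fin n → ℤ) → ℤ),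
        (∀ i, c.s ν (c.blk i) ≤ S) ∧ 1 ≤ N ∧
        Real.log (∑ a ∈ Q, |(r a : ℝ)|) ≤ C * (N * k * S) ∧
        lp (cl.Ξ ν) Q (fun a => (r a : c.S.K ν)) ≠ 0 ∧
        (∀ a ∈ Q, ∃ v ∈ c.V, (∀ i, |v i| ≤ C) ∧
          ∀ i, |(a i : ℝ) - N * k * S / c.s ν (c.blk i) * v i| ≤ C * N) ∧
        ∀ σ : Fin (c.S.W ν).D, ∃ r' : (Fin n → ℤ) → ℂ,
          MvPowerSeries.map ((c.S.W ν).σ σ) (lp (cl.Ξ ν) Q (fun a => (r a : c.S.K ν))) =
            lp (fun i => MvPowerSeries.map ((c.S.W ν).σ σ) (cl.Ξ ν i)) Q r' ∧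
          ∑ a ∈ Q, ‖r' a‖ ≤ Real.exp (-(c8 * (N * k * S))) := by
  classical
  set m : ℕ := Fintype.card (B0 c.blk) with hm
  let eq : Fin m ≃ B0 c.blk := (Fintype.equivFin (B0 c.blk)).symm
  set d : ℕ := rkZ c.x (blL c.blk 0) with hd
  obtain ⟨u, huW, hsheets⟩ := exists_sheets hb T hV hW eq
  obtain ⟨Ca, hCa, ha⟩ := Sec.sec_a T u huW
  obtain ⟨c3, c4, B, D0, hc3, hc4, hB, hD0, hSh⟩ := hsheets Ca
  obtain ⟨Cθ, c5, hCθ, hc5, hθ⟩ := Sec.sec_theta T hV
  set C0 : ℝ := max Ca Cθ with hC0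
  have hC0a : Ca ≤ C0 := le_max_left _ _
  have hC0θ : Cθ ≤ C0 := le_max_right _ _
  have hC0p : 0 ≤ C0 := hCa.le.trans hC0a
  obtain ⟨CH, hCH, hrank⟩ := Sec.sec_rank (d := d) hb cl C0 hC0p eq
  obtain ⟨Cn, hCn, hnear⟩ := Sec.sec_near c C0 hC0p (u 0) (huW 0).1
    (fun k : Fin d => u k.succ) (fun k => (huW k.succ).1)
  obtain ⟨C, c8, x0, hC, hc8, hx0, hnum⟩ := sec_num d n m hc3 hc4 (c6 := c5 / CH) (by positivity)
    (B := B) (by linarith) (Cθ := 2 * Cθ) (by linarith)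
  refine ⟨max C Cn, c8, max x0 D0, hC.trans (le_max_left _ _), hc8, fun k hk => ?_⟩
  have hkx : x0 ≤ k := (le_max_left _ _).trans hk
  have hkD : D0 ≤ k := (le_max_right _ _).trans hk
  filter_upwards [hSh, hrank, T.lpr, HN.lev cl, cl.sup, block_zero_rel cl hb] with
    ν h1 h2 hL hlev hsup hrel
  have hchar := c.charZero ν
  obtain ⟨hs1, -, -, i0, hi0⟩ := c.bdd hb
  -- the largest height
  set S : ℝ := ∑ i, c.s ν (c.blk i) with hS
  have hspos : ∀ i, 0 < c.s ν (c.blk i) := fun i => c.s_pos ν _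
  have hSle : ∀ i, c.s ν (c.blk i) ≤ S := fun i =>
    Finset.single_le_sum (f := fun i => c.s ν (c.blk i)) (fun i _ => (hspos i).le)
      (Finset.mem_univ i)
  have hS1 : 1 ≤ S := by
    have := hSle i0
    rw [hi0, hs1 ν] at this
    exact this
  have hk1 : 1 ≤ k := hx0.trans hkx
  set x : ℝ := k * S with hx
  have hkx' : k ≤ x := by
    rw [hx]
    nlinarith
  have hSx : S ≤ x := by
    rw [hx]
    nlinarith
  have hxx : x0 ≤ x := hkx.trans hkx'
  have hx1 : 1 ≤ x := hk1.trans hkx'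
  have hsx : ∀ i, c.s ν (c.blk i) ≤ x := fun i => (hSle i).trans hSx
  obtain ⟨N, ρ, δ, τ1, hN, hδ, hρ, hτ1, hDH⟩ := hnum x hxx
  have hN1 : (1 : ℝ) ≤ N := by exact_mod_cast hN
  set M : ℝ := N * x with hM
  have hxM : x ≤ M := by
    rw [hM]
    nlinarith
  have hM1 : 1 ≤ M := hx1.trans hxM
  have hsM : ∀ i, c.s ν (c.blk i) ≤ M := fun i => (hsx i).trans hxM
  have hdivM : ∀ i, 0 < M / c.s ν (c.blk i) := fun i => div_pos (by linarith) (hspos i)
  obtain ⟨Θ, hΘ1, hΘ2, hΘ3, hΘ4⟩ := hθ ν M hsM (by linarith)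
  obtain ⟨a, ha1, ha2, ha3⟩ := ha ν x hsx
  have hNx : (N : ℝ) * k * S = M := by rw [hM, hx, mul_assoc]
  set P : ℝ := ∏ i ∈ cl.I.filter (fun i => c.blk i ≠ 0), (M / c.s ν (c.blk i)) with hP
  have hPpos : 0 < P := Finset.prod_pos fun i _ => hdivM i
  set H : ℕ := ⌊CH * (M ^ d * P)⌋₊ with hH
  -- the number of the functions
  have hcard : Fintype.card (J.Dx Θ d N) = Θ.card * ((N + 1) * (N + 1) ^ d) := by
    rw [Fintype.card_prod, Fintype.card_prod, Fintype.card_fun, Fintype.card_fin,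
      Fintype.card_fin, Fintype.card_coe]
  have hcardR : ((Fintype.card (J.Dx Θ d N) : ℕ) : ℝ) = Θ.card * ((N : ℝ) + 1) ^ (d + 1) := by
    rw [hcard]
    push_cast
    ring
  have hΘpos : 1 ≤ Θ.card := by
    have h3 : (0 : ℝ) < Θ.card := lt_of_lt_of_le (mul_pos hc5 hPpos) hΘ1
    have h4 : 0 < Θ.card := by exact_mod_cast h3
    omega
  have hD1 : 1 ≤ Fintype.card (J.Dx Θ d N) := by
    rw [hcard]
    exact Nat.one_le_iff_ne_zero.mpr (by positivity)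
  have hDle : ((Fintype.card (J.Dx Θ d N) : ℕ) : ℝ) ≤
      ((N : ℝ) + 1) ^ (d + 1) * (2 * Cθ * (N * x) + 1) ^ n := by
    rw [hcardR, mul_comm]
    refine mul_le_mul_of_nonneg_left ?_ (by positivity)
    have h3 := Sec.card_box_le Θ (R := Cθ * M) (by positivity) fun θ hθ' i => by
      refine (hΘ3 θ hθ' i).trans ?_
      refine mul_le_mul_of_nonneg_left ?_ hCθ.le
      have h4 : 1 ≤ c.s ν (c.blk i) := by
        have h5 := c.s_one ν
        have h6 := c.s_le ν (c.blk i)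
        linarith
      exact div_le_self (by linarith) h4
    have h4 : 2 * (Cθ * M) + 1 = 2 * Cθ * (N * x) + 1 := by
      rw [hM]
      ring
    rw [h4] at h3
    exact h3
  have hDH' : c5 / CH * (N / x ^ d) * H ≤ ((Fintype.card (J.Dx Θ d N) : ℕ) : ℝ) := by
    have hxd : 0 < x ^ d := pow_pos (by linarith) d
    have h3 : (H : ℝ) ≤ CH * (M ^ d * P) := Nat.floor_le (by positivity)
    calc c5 / CH * (N / x ^ d) * H ≤ c5 / CH * (N / x ^ d) * (CH * (M ^ d * P)) :=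
          mul_le_mul_of_nonneg_left h3 (by positivity)
      _ = c5 * P * (N : ℝ) ^ (d + 1) := by
          rw [hM, mul_pow]
          have := hCH.ne'
          have := hxd.ne'
          field_simp
          ring
      _ ≤ Θ.card * ((N : ℝ) + 1) ^ (d + 1) := by
          refine mul_le_mul hΘ1 ?_ (by positivity) (Nat.cast_nonneg _)
          exact pow_le_pow_left₀ (Nat.cast_nonneg _) (by linarith) _
      _ = _ := hcardR.symm
  obtain ⟨hbox, hcoef, hsmall⟩ := hDH (Fintype.card (J.Dx Θ d N)) H hD1 hDle hDH'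
  -- block J
  obtain ⟨Q, r, hQ1, hQ2, hQ3, hQ4⟩ := J.level (N := N) (k := ⌈c3 * x ^ d⌉₊) (c.e ν)
    (Ξ := cl.Ξ ν) ⟨hlev.const, hsup⟩ (A := T.A) (M := T.M ν) (c := T.cc ν) hL eq
    (κ := Θ) (fun θ => θ.1) (fun θ θ' h => Subtype.ext (hΘ4 θ.1 θ.2 θ'.1 θ'.2 h))
    (a 0) (fun k : Fin d => a k.succ) (ha1 0) (fun k => ha1 k.succ) (c4 * x) B
    (by positivity) (by linarith)
    (fun ζ hζ => by
      have hζ1 : ∀ i, ‖ζ i‖ = 1 := fun i => Complex.norm_eq_one_of_pow_eq_one (hζ i) (Nat.succ_ne_zero N)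
      obtain ⟨Z, hZ1, hZ2⟩ := h1 k S hkD hSle a (fun l i => ha2 l i) (fun l => ha1 l) ζ hζ1
      refine ⟨Z, Nat.ceil_le.mpr hZ1, fun z hz => ?_⟩
      obtain ⟨hz1, hz2, hz3, hz4⟩ := hZ2 z hz
      refine ⟨hz1.1, fun Pl hPl => hz1.2 Pl ?_, hz2, fun i => hz3 i, hz4⟩
      rw [Sec.sec_poly eq c.x Pl]
      rw [← hrel _ (fun a => coeff (Finsupp.equivFunOnFinite.symm fun l => (a (eq l)).toNat) Pl)
        (fun b hb => by
          obtain ⟨γ, _, rfl⟩ := Finset.mem_image.mp hb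
          exact fun i hi => J.gx_zero eq γ i hi)]
      rw [← Sec.sec_poly eq (cl.xi ν) Pl]
      exact hPl)
    H ρ δ hδ
    (fun s0 s => by
      refine Nat.le_floor ?_
      refine h2 x N hN hsx Θ (fun θ => θ.1) (a 0) (fun k => a k.succ) ?_ ?_ ?_ s0 s
      · intro θ i
        refine (hΘ3 θ.1 θ.2 i).trans ?_
        exact mul_le_mul_of_nonneg_right hC0θ (hdivM i).le
      · intro i
        refine (ha3 0 i).trans ?_
        exact mul_le_mul_of_nonneg_right hC0a (div_nonneg (by linarith) (hspos i).le)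
      · intro l i
        refine (ha3 l.succ i).trans ?_
        exact mul_le_mul_of_nonneg_right hC0a (div_nonneg (by linarith) (hspos i).le))
    hρ hbox τ1 hτ1
  refine ⟨S, N, Q, r, hSle, hN, ?_, hQ3, ?_, ?_⟩
  · -- the coefficients
    rw [hNx]
    have h3 : ∑ b ∈ Q, |(r b : ℝ)| ≤ Real.exp (C * M) := hQ2.trans hcoef
    have h4 : Real.log (∑ b ∈ Q, |(r b : ℝ)|) ≤ C * M := by
      rcases eq_or_lt_of_le (Finset.sum_nonneg fun b _ => abs_nonneg (r b : ℝ) :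
        0 ≤ ∑ b ∈ Q, |(r b : ℝ)|) with h5 | h5
      · rw [← h5, Real.log_zero]
        positivity
      · rw [← Real.log_exp (C * M)]
        exact Real.log_le_log h5 h3
    exact h4.trans (mul_le_mul_of_nonneg_right (le_max_left _ _) (by linarith))
  · -- the exponents
    intro b hb
    obtain ⟨p, γ, rfl, hγ1, hγ2, hγ3⟩ := hQ1 b hb
    obtain ⟨v, hv, hv1, hv2⟩ := hΘ2 p.1.1 p.1.2
    obtain ⟨w, hw, hw1, hw2⟩ := hnear ν x N hN p.1.1 (a 0) (fun k => a k.succ) v hv hv1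
      (fun i => (hv2 i).trans hC0θ) (fun i => (ha2 0 i).trans hC0a)
      (fun l i => (ha2 l.succ i).trans hC0a) p.2.1 p.2.2 γ (fun i => by
        rw [abs_of_nonneg (by exact_mod_cast hγ1 i)]
        have h3 : γ i ≤ ∑ i, γ i :=
          Finset.single_le_sum (f := fun i => γ i) (fun i _ => hγ1 i) (Finset.mem_univ i)
        exact_mod_cast h3.trans hγ3)
    refine ⟨w, hw, fun i => (hw1 i).trans (le_max_right _ _), fun i => ?_⟩
    rw [hNx]
    exact (hw2 i).trans (mul_le_mul_of_nonneg_right (le_max_right _ _) (Nat.cast_nonneg _))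
  · -- the archimedean places
    intro σ
    obtain ⟨r', hr1, hr2⟩ := hQ4 ((c.S.W ν).σ σ)
    refine ⟨r', hr1, ?_⟩
    rw [hNx]
    exact hr2.trans hsmall

end Pool.Agent.ZP
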