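import Mathlib
import Pool.Agent.Lib.MP_c95b3b_ag_ZP.CF2
import Pool.Agent.Lib.MP_c95b3b_ag_ZP.CF3
import Pool.Agent.Lib.MP_c95b3b_ag_ZP.CF4
import Pool.Agent.Lib.MP_c95b3b_ag_ZP.CL1
import Pool.Agent.Lib.MP_c95b3b_ag_ZP.TY
import Pool.Agent.Lib.MP_c95b3b_ag_ZP.K
import Pool.Agent.Lib.MP_c95b3b_ag_ZP.Sec

set_option autoImplicit false

/-! Project ZP: step B (ZP_full 5). -/

namespace Pool.Agent.ZP

open Module Filter Topology Pool.Agent.SD

variable {𝓤 : Ultrafilter ℕ} {n q : ℕ}

/-- the projection to a block -/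
noncomputable def pjR {n q : ℕ} (blk : Fin n → Fin (q + 1)) (j : Fin (q + 1)) :
    (Fin n → ℝ) →ₗ[ℝ] (Fin n → ℝ) where
  toFun := pj blk j
  map_add' := by
    intro a b
    funext i
    simp only [pj, Pi.add_apply]
    split_ifs <;> ring
  map_smul' := by
    intro c a
    funext i
    simp only [pj, Pi.smul_apply, smul_eq_mul, RingHom.id_apply]
    split_ifs <;> ring

theorem span_pjR (blk : Fin n → Fin (q + 1)) (V : Submodule ℝ (Fin n → ℝ)) :
    Submodule.span ℝ (pj blk 0 '' (V : Set (Fin n → ℝ))) = V.map (pjR blk 0) := by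
  rw [← Submodule.span_eq (V.map (pjR blk 0))]
  rfl

theorem ker_pjR (blk : Fin n → Fin (q + 1)) : LinearMap.ker (pjR blk 0) = uR blk := by
  ext a
  rw [LinearMap.mem_ker]
  constructor
  · intro h i hi
    have h1 := congrFun h i
    simpa [pjR, pj, hi] using h1
  · intro h
    funext i
    show pj blk 0 a i = 0
    unfold pj
    split_ifs with h1
    · exact h i h1
    · rfl

/-- the dimensions of the projection and of the kernel -/
theorem finrank_pj (blk : Fin n → Fin (q + 1)) (V : Submodule ℝ (Fin n → ℝ)) :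
    finrank ℝ (Submodule.span ℝ (pj blk 0 '' (V : Set (Fin n → ℝ)))) +
      finrank ℝ (V ⊓ uR blk : Submodule ℝ (Fin n → ℝ)) = finrank ℝ V := by
  rw [span_pjR]
  have h := LinearMap.finrank_range_add_finrank_ker ((pjR blk 0).domRestrict V)
  have h1 : LinearMap.range ((pjR blk 0).domRestrict V) = V.map (pjR blk 0) := by
    rw [LinearMap.range_domRestrict]
  have h2 : finrank ℝ (LinearMap.ker ((pjR blk 0).domRestrict V)) =
      finrank ℝ (V ⊓ uR blk : Submodule ℝ (Fin n → ℝ)) := by
    rw [LinearMap.ker_domRestrict, ker_pjR]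
    have h3 := LinearEquiv.finrank_eq
      (Submodule.equivMapOfInjective V.subtype V.injective_subtype ((uR blk).comap V.subtype))
    refine h3.trans ?_
    rw [Submodule.map_comap_subtype]
  rw [← h, h1, h2]

/-- the real span of a graded lattice and the vectors which vanish in the block `0` -/
theorem spR_inf_uR {blk : Fin n → Fin (q + 1)} {Λ : Submodule ℤ (Fin n → ℤ)} (h : Gr blk Λ) :
    spR Λ ⊓ uR blk = spR (Λ ⊓ uL blk) := by
  apply le_antisymm
  · rintro v ⟨hv1, hv2⟩
    -- `v` is its own part outside the block `0`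
    have h1 : ∀ u ∈ spR Λ, u - pj blk 0 u ∈ spR (Λ ⊓ uL blk) := by
      intro u hu
      refine Submodule.span_induction (p := fun u _ => u - pj blk 0 u ∈ spR (Λ ⊓ uL blk))
        ?_ ?_ ?_ ?_ hu
      · rintro _ ⟨a, ha, rfl⟩
        refine Submodule.subset_span ⟨a - pj blk 0 a, ⟨Λ.sub_mem ha (h a ha 0), ?_⟩, ?_⟩
        · intro i hi
          simp [pj, hi]
        · funext i
          simp only [rv, pj, Pi.sub_apply]
          split_ifs <;> simp
      · have : (0 : Fin n → ℝ) - pj blk 0 (0 : Fin n → ℝ) = 0 := by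
          funext i
          simp [pj]
        rw [this]
        exact Submodule.zero_mem _
      · intro a b _ _ ha hb
        have : a + b - pj blk 0 (a + b) = (a - pj blk 0 a) + (b - pj blk 0 b) := by
          funext i
          simp only [pj, Pi.add_apply, Pi.sub_apply]
          split_ifs <;> ring
        rw [this]
        exact Submodule.add_mem _ ha hb
      · intro c a _ ha
        have : c • a - pj blk 0 (c • a) = c • (a - pj blk 0 a) := by
          funext i
          simp only [pj, Pi.smul_apply, Pi.sub_apply, smul_eq_mul]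
          split_ifs <;> ring
        rw [this]
        exact Submodule.smul_mem _ _ ha
    have h2 : v - pj blk 0 v = v := by
      funext i
      simp only [pj, Pi.sub_apply]
      split_ifs with h3
      · rw [hv2 i h3, sub_zero]
      · rw [sub_zero]
    rw [← h2]
    exact h1 v hv1
  · rw [spR, Submodule.span_le]
    rintro _ ⟨a, ⟨ha1, ha2⟩, rfl⟩
    refine ⟨Submodule.subset_span ⟨a, ha1, rfl⟩, ?_⟩
    intro i hi
    show (a i : ℝ) = 0
    rw [ha2 i hi, Int.cast_zero]

theorem gr_inf_uL {blk : Fin n → Fin (q + 1)} {Λ : Submodule ℤ (Fin n → ℤ)} (h : Gr blk Λ) :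
    Gr blk (Λ ⊓ uL blk) := by
  rintro a ⟨ha1, ha2⟩ j
  refine ⟨h a ha1 j, ?_⟩
  intro i hi
  unfold pj
  split_ifs
  · exact ha2 i hi
  · rfl

theorem gr_top (blk : Fin n → Fin (q + 1)) : Gr blk ⊤ := fun _ _ _ => trivial

/-- **Step B**: there is no minimal configuration with a block of bounded height. -/
theorem stepB (c : Cfg 𝓤 n q) (hM : c.Mn) (hb : c.bd) : False := by
  classical
  obtain ⟨cl⟩ := exists_cl c
  set t := cl.I.card with ht
  set p := finrank ℝ (Submodule.span ℝ (pj c.blk 0 '' (c.V : Set (Fin n → ℝ)))) with hp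
  have hfin := finrank_pj c.blk c.V
  have key : ∃ (r1 : ℕ) (α : Fin t → Fin n → ℝ), t + 1 ≤ r1 + p ∧ r1 ≤ t ∧ (∀ i, α i ∈ c.V) ∧
      (∀ i : Fin t, (i : ℕ) < r1 → α i ∈ c.V ⊓ uR c.blk) ∧
      ∀ᶠ ν in (𝓤 : Filter ℕ), LinearIndependent (FC n) (fun i => om (cl.xi ν) (α i)) := by
    have h0 : ∀ Λ : Submodule ℤ (Fin n → ℤ), Gr c.blk Λ →
      dd c.x c.blk ⊤ + finrank ℝ (c.V ⊓ spR Λ : Submodule ℝ (Fin n → ℝ)) + t ≤
        finrank ℝ c.V + dd c.x c.blk Λ + t := by
      intro Λ hΛ
      have := c.psi_zero hM Λ hΛ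
      unfold Psi at this
      omega
    by_cases hpt : t + 1 ≤ p
    · obtain ⟨α, hα1, -, hα2⟩ := rank_flag cl c.V c.V le_rfl 0 t (Nat.zero_le _)
        (fun Λ hΛ => by
          have := h0 Λ hΛ
          omega) h0
      exact ⟨0, α, by omega, Nat.zero_le _, hα1, fun i hi => absurd hi (Nat.not_lt_zero _), hα2⟩
    · -- the projection has at least one dimension
      have hp1 : 1 ≤ p := by
        have h1 := c.psi_one hM hb (⊤ ⊓ uL c.blk) (gr_inf_uL (gr_top c.blk)) inf_le_right
        unfold Psi at h1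
        have h2 : dd c.x c.blk (⊤ ⊓ uL c.blk) ≤ dd c.x c.blk ⊤ := by
          refine Finset.sum_le_sum fun j _ => rkZ_mono c.x ?_
          exact inf_le_inf_right _ le_top
        have h3 : spR (⊤ ⊓ uL c.blk) = spR (⊤ : Submodule ℤ (Fin n → ℤ)) ⊓ uR c.blk :=
          (spR_inf_uR (gr_top c.blk)).symm
        have h4 : spR (⊤ : Submodule ℤ (Fin n → ℤ)) = ⊤ := by
          rw [eq_top_iff]
          intro v _
          have h5 : v = ∑ i, v i • rv (Pi.single i 1) := by
            ext l
            simp [Finset.sum_apply, rv, Pi.single_apply]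
          rw [h5]
          exact Submodule.sum_mem _ fun i _ => Submodule.smul_mem _ _
            (Submodule.subset_span ⟨_, trivial, rfl⟩)
        rw [h3, h4, top_inf_eq] at h1
        omega
      obtain ⟨α, hα1, hα3, hα2⟩ := rank_flag cl (c.V ⊓ uR c.blk) c.V inf_le_left (t + 1 - p) t
        (by omega)
        (fun Λ hΛ => by
          have h1 := c.psi_one hM hb (Λ ⊓ uL c.blk) (gr_inf_uL hΛ) inf_le_right
          unfold Psi at h1
          have h2 : dd c.x c.blk (Λ ⊓ uL c.blk) ≤ dd c.x c.blk Λ := by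
            refine Finset.sum_le_sum fun j _ => rkZ_mono c.x ?_
            exact inf_le_inf_right _ inf_le_left
          have h3 : (c.V ⊓ uR c.blk ⊓ spR Λ : Submodule ℝ (Fin n → ℝ)) =
              c.V ⊓ spR (Λ ⊓ uL c.blk) := by
            rw [← spR_inf_uR hΛ, inf_assoc, inf_comm (uR c.blk)]
          rw [h3]
          omega) h0
      exact ⟨t + 1 - p, α, by omega, by omega, hα1, hα3, hα2⟩
  obtain ⟨r1, α, hr1, hr2, hα1, hα2, hα3⟩ := key
  obtain ⟨T, hT⟩ := exists_type cl t α hα3
  have hV : ∀ y : Fin cl.I.card → ℝ, ∃ b ∈ c.V, AR T.A b = y := by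
    intro y
    have h1 : y ∈ Submodule.span ℝ (Set.range fun i => AR T.A (α i)) := by
      rw [hT.span_eq_top_of_card_eq_finrank' (by simp [ht])]
      trivial
    obtain ⟨z, hz⟩ := (Submodule.mem_span_range_iff_exists_fun ℝ).1 h1
    refine ⟨∑ i, z i • α i, c.V.sum_mem fun i _ => c.V.smul_mem _ (hα1 i), ?_⟩
    rw [← hz]
    funext l
    simp only [AR, Finset.sum_apply, Pi.smul_apply, smul_eq_mul, Finset.sum_mul, Finset.mul_sum]
    rw [Finset.sum_comm]
    exact Finset.sum_congr rfl fun k _ => Finset.sum_congr rfl fun l _ => by ring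
  have hW := T.dim_W hb hV r1 (fun i => α (Fin.castLE hr2 i))
    (fun i => hα2 _ i.2) (hT.comp _ (Fin.castLE_injective hr2)) hr1
  obtain ⟨C, c8, k0, hC, hc8, h⟩ := exists_sections hb T hV hW
  exact false_of_sec c hb cl C c8 k0 hC hc8 h

end Pool.Agent.ZP
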