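import Mathlib
import Pool.Agent.Lib.MP_c95b3b_ag_ZP.CF1
import Pool.Agent.Lib.MP_c95b3b_ag_ZP.StepA
import Pool.Agent.Lib.MP_c95b3b_ag_ZP.StepB
import Pool.Agent.Lib.MP_c95b3b_ag_ZP.PT

set_option autoImplicit false

/-! Project ZP: Zilber's conjecture for tori. -/

namespace Pool.Agent.ZP

open Module Filter Topology Pool.Agent.SD Pool.Agent.CITF

theorem no_cfg (𝓤 : Ultrafilter ℕ) (q n : ℕ) : ¬ Nonempty (Cfg 𝓤 n q) := by
  induction n using Nat.strong_induction_on with
  | _ n ih =>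
    rintro ⟨c⟩
    by_cases hM : c.Mn
    · by_cases hb : c.bd
      · exact stepB c hM hb
      · exact stepA c hM hb
    · obtain ⟨n', h1, h2⟩ := c.reduce hM
      exact ih n' h1 h2

theorem full : FullConj := by
  apply full_of_qbar
  by_contra h
  obtain ⟨𝓤, n, q, hc⟩ := exists_cfg h
  exact no_cfg 𝓤 q n hc

end Pool.Agent.ZP
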