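import Pool.Agent.Lib.MP_c95b3b_ag_AL.ZG

/-! Project ZP (MP_c95b3b_ag), block HN (normal forms), module HNa: reduction of the powers of one
variable. -/

namespace Pool.Agent.ZP.HN

open Pool.Agent.AL MvPolynomial

section
variable {ι : Type} [DecidableEq ι]

/-- the leading coefficient with respect to the variable `l` -/
noncomputable def lcl (l : ι) (g : MvPolynomial ι ℤ) : MvPolynomial ι ℤ :=
  (toP l g).coeff (g.degreeOf l)

/-- the coefficient of `X l ^ b` in the reduction of `(lcl l g * X l) ^ a` modulo `g` -/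
noncomputable def red (l : ι) (g : MvPolynomial ι ℤ) : ℕ → ℕ → MvPolynomial ι ℤ
  | 0, 0 => 1
  | 0, _ + 1 => 0
  | a + 1, 0 => -(red l g a (g.degreeOf l - 1) * (toP l g).coeff 0)
  | a + 1, b + 1 => red l g a b * lcl l g -
      red l g a (g.degreeOf l - 1) * (toP l g).coeff (b + 1)

/-- the reduction of `(lcl l g * X l) ^ a` modulo `g` -/
noncomputable def rdp (l : ι) (g : MvPolynomial ι ℤ) (a : ℕ) : MvPolynomial ι ℤ :=
  ∑ b ∈ Finset.range (g.degreeOf l), red l g a b * X l ^ b

theorem sum_red_le (l : ι) (g : MvPolynomial ι ℤ) (hg : g.degreeOf l ≠ 0) (a : ℕ) :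
    ∑ b ∈ Finset.range (g.degreeOf l), l1 (red l g a b) ≤ l1 g ^ a := by
  obtain ⟨m, hm⟩ := Nat.exists_eq_succ_of_ne_zero hg
  induction a with
  | zero =>
    rw [hm, Finset.sum_range_succ', pow_zero]
    have h1 : ∑ k ∈ Finset.range m, l1 (red l g 0 (k + 1)) = 0 :=
      Finset.sum_eq_zero fun k _ => l1_zero
    have h2 : l1 (red l g 0 0) = 1 := by
      have : red l g 0 0 = C 1 := by rw [red, map_one]
      rw [this, l1_C]
      simp
    rw [h1, h2, zero_add]
  | succ a ih =>
    have hG := sum_l1_coeff_toP l g (m + 1)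
    rw [hm] at ih ⊢
    rw [Nat.succ_eq_add_one] at *
    have hd : g.degreeOf l - 1 = m := by omega
    rw [Finset.sum_range_succ']
    have h0 : l1 (red l g (a + 1) 0) ≤ l1 (red l g a m) * l1 ((toP l g).coeff 0) := by
      rw [red, hd, l1_neg]
      exact l1_mul _ _
    have h1 : ∀ b ∈ Finset.range m, l1 (red l g (a + 1) (b + 1)) ≤
        l1 (red l g a b) * l1 (lcl l g) + l1 (red l g a m) * l1 ((toP l g).coeff (b + 1)) := by
      intro b _
      rw [red, hd, sub_eq_add_neg]
      refine (l1_add _ _).trans (add_le_add (l1_mul _ _) ?_)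
      rw [l1_neg]
      exact l1_mul _ _
    have h2 : l1 (lcl l g) = l1 ((toP l g).coeff (m + 1)) := by rw [lcl, hm]
    have hS : 0 ≤ ∑ b ∈ Finset.range m, l1 (red l g a b) :=
      Finset.sum_nonneg fun _ _ => l1_nonneg _
    have hT : 0 ≤ ∑ b ∈ Finset.range (m + 1), l1 ((toP l g).coeff b) :=
      Finset.sum_nonneg fun _ _ => l1_nonneg _
    have hc : 0 ≤ l1 (red l g a m) := l1_nonneg _
    have hl : 0 ≤ l1 (lcl l g) := l1_nonneg _
    calc ∑ k ∈ Finset.range m, l1 (red l g (a + 1) (k + 1)) + l1 (red l g (a + 1) 0)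
        ≤ ∑ b ∈ Finset.range m, (l1 (red l g a b) * l1 (lcl l g) +
            l1 (red l g a m) * l1 ((toP l g).coeff (b + 1))) +
            l1 (red l g a m) * l1 ((toP l g).coeff 0) :=
          add_le_add (Finset.sum_le_sum h1) h0
      _ = (∑ b ∈ Finset.range m, l1 (red l g a b)) * l1 (lcl l g) +
            l1 (red l g a m) * ∑ b ∈ Finset.range (m + 1), l1 ((toP l g).coeff b) := by
          rw [Finset.sum_add_distrib, Finset.sum_mul, Finset.sum_range_succ' _ m, mul_add,
            Finset.mul_sum]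
          ring
      _ ≤ (∑ b ∈ Finset.range m, l1 (red l g a b) + l1 (red l g a m)) *
            (∑ b ∈ Finset.range (m + 1), l1 ((toP l g).coeff b) + l1 (lcl l g)) := by
          nlinarith [mul_nonneg hS hT, mul_nonneg hc hl]
      _ = (∑ b ∈ Finset.range (m + 1), l1 (red l g a b)) *
            ∑ b ∈ Finset.range (m + 1 + 1), l1 ((toP l g).coeff b) := by
          rw [Finset.sum_range_succ (fun b => l1 (red l g a b)) m,
            Finset.sum_range_succ (fun b => l1 ((toP l g).coeff b)) (m + 1), h2]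
      _ ≤ l1 g ^ a * l1 g := mul_le_mul ih hG (by rw [Finset.sum_range_succ]; exact add_nonneg hT (l1_nonneg _))
            (pow_nonneg (l1_nonneg _) _)
      _ = l1 g ^ (a + 1) := (pow_succ _ _).symm

theorem l1_rdp (l : ι) (g : MvPolynomial ι ℤ) (hg : g.degreeOf l ≠ 0) (a : ℕ) :
    l1 (rdp l g a) ≤ l1 g ^ a := by
  refine ((l1_sum _ _).trans (Finset.sum_le_sum fun b _ => ?_)).trans (sum_red_le l g hg a)
  refine (l1_mul _ _).trans ?_
  have h : l1 ((X l : MvPolynomial ι ℤ) ^ b) ≤ 1 := by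
    refine (l1_pow _ _).trans ?_
    rw [l1_X, one_pow]
  calc l1 (red l g a b) * l1 ((X l : MvPolynomial ι ℤ) ^ b) ≤ l1 (red l g a b) * 1 :=
        mul_le_mul_of_nonneg_left h (l1_nonneg _)
    _ = l1 (red l g a b) := mul_one _

theorem degreeOf_red (l : ι) (g : MvPolynomial ι ℤ) (i : ι) (a b : ℕ) :
    (red l g a b).degreeOf i ≤ a * (if i = l then 0 else g.degreeOf i) := by
  have hc : ∀ k, ((toP l g).coeff k).degreeOf i ≤ (if i = l then 0 else g.degreeOf i) := by
    intro k
    split_ifs with h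
    · subst h
      rw [Nat.le_zero, ← not_ne_iff, ← mem_vars_iff_degreeOf_ne_zero]
      intro h1
      exact Finset.notMem_erase _ _ (vars_coeff_toP i g k h1)
    · exact degreeOf_coeff_toP l g k i
  generalize (if i = l then 0 else g.degreeOf i) = E at hc ⊢
  induction a generalizing b with
  | zero =>
    cases b with
    | zero => rw [red]; simp
    | succ b => rw [red]; simp
  | succ a ih =>
    have hm : ∀ b k, (red l g a b * (toP l g).coeff k).degreeOf i ≤ (a + 1) * E := by
      intro b k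
      refine (degreeOf_mul_le i _ _).trans ?_
      have := ih b
      have := hc k
      rw [add_mul, one_mul]
      omega
    cases b with
    | zero =>
      rw [red, degreeOf_neg]
      exact hm _ _
    | succ b =>
      rw [red]
      exact (degreeOf_sub_le i _ _).trans (max_le (hm _ _) (hm _ _))

theorem degreeOf_rdp_self (l : ι) (g : MvPolynomial ι ℤ) (a : ℕ) (hg : g.degreeOf l ≠ 0) :
    (rdp l g a).degreeOf l < g.degreeOf l := by
  rw [rdp]
  refine (degreeOf_sum_le l _ _).trans_lt ?_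
  rw [Finset.sup_lt_iff (Nat.bot_eq_zero ▸ Nat.pos_of_ne_zero hg)]
  intro b hb
  rw [Finset.mem_range] at hb
  refine (degreeOf_mul_le l _ _).trans_lt ?_
  have h1 := degreeOf_red l g l a b
  rw [if_pos rfl, mul_zero] at h1
  have h2 : ((X l : MvPolynomial ι ℤ) ^ b).degreeOf l ≤ b := by
    refine (degreeOf_pow_le l _ b).trans ?_
    rw [degreeOf_X_self, mul_one]
  omega

theorem degreeOf_rdp_ne (l : ι) (g : MvPolynomial ι ℤ) (a : ℕ) {i : ι} (hi : i ≠ l) :
    (rdp l g a).degreeOf i ≤ a * g.degreeOf i := by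
  rw [rdp]
  refine (degreeOf_sum_le i _ _).trans ?_
  rw [Finset.sup_le_iff]
  intro b _
  refine (degreeOf_mul_le i _ _).trans ?_
  have h1 := degreeOf_red l g i a b
  rw [if_neg hi] at h1
  have h2 : ((X l : MvPolynomial ι ℤ) ^ b).degreeOf i = 0 := by
    rw [← not_ne_iff, ← mem_vars_iff_degreeOf_ne_zero]
    intro h
    have := vars_pow _ _ h
    rw [vars_X, Finset.mem_singleton] at this
    exact hi this
  omega

theorem degreeOf_lcl_self (l : ι) (g : MvPolynomial ι ℤ) : (lcl l g).degreeOf l = 0 := by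
  rw [← not_ne_iff, ← mem_vars_iff_degreeOf_ne_zero]
  intro h
  exact Finset.notMem_erase _ _ (vars_coeff_toP l g _ h)

theorem degreeOf_lcl_le (l : ι) (g : MvPolynomial ι ℤ) (i : ι) :
    (lcl l g).degreeOf i ≤ g.degreeOf i := degreeOf_coeff_toP l g _ i

theorem vars_lcl (l : ι) (g : MvPolynomial ι ℤ) : (lcl l g).vars ⊆ g.vars.erase l :=
  vars_coeff_toP l g _

theorem lcl_ne_zero (l : ι) (g : MvPolynomial ι ℤ) (hg : g.degreeOf l ≠ 0) : lcl l g ≠ 0 := by
  have h : (toP l g) ≠ 0 := by
    intro h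
    have := natDegree_toP l g
    rw [h, Polynomial.natDegree_zero] at this
    exact hg this.symm
  have h2 := Polynomial.leadingCoeff_ne_zero.mpr h
  rwa [Polynomial.leadingCoeff, natDegree_toP] at h2

theorem l1_lcl_le (l : ι) (g : MvPolynomial ι ℤ) : l1 (lcl l g) ≤ l1 g := l1_coeff_toP l g _

/-- evaluation of the polynomial in one variable -/
theorem aeval_eq_sum {L : Type} [CommRing L] (ξ : ι → L) (l : ι) (g : MvPolynomial ι ℤ) :
    aeval ξ g = ∑ b ∈ Finset.range (g.degreeOf l + 1), aeval ξ ((toP l g).coeff b) * ξ l ^ b := by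
  conv_lhs => rw [← eval_toP l g, Polynomial.eval_eq_sum_range, natDegree_toP]
  rw [map_sum]
  refine Finset.sum_congr rfl fun b _ => ?_
  rw [map_mul, map_pow, aeval_X]

theorem aeval_rdp {L : Type} [CommRing L] (ξ : ι → L) (l : ι) (g : MvPolynomial ι ℤ)
    (hg : g.degreeOf l ≠ 0) (h0 : aeval ξ g = 0) (a : ℕ) :
    aeval ξ (rdp l g a) = (aeval ξ (lcl l g) * ξ l) ^ a := by
  obtain ⟨m, hm⟩ := Nat.exists_eq_succ_of_ne_zero hg
  have hr : ∀ a, aeval ξ (rdp l g a) =
      ∑ b ∈ Finset.range (m + 1), aeval ξ (red l g a b) * ξ l ^ b := by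
    intro a
    rw [rdp, map_sum, hm]
    refine Finset.sum_congr rfl fun b _ => ?_
    rw [map_mul, map_pow, aeval_X]
  rw [aeval_eq_sum ξ l g, hm, Finset.sum_range_succ] at h0
  have hlc : aeval ξ ((toP l g).coeff (m + 1)) = aeval ξ (lcl l g) := by rw [lcl, hm]
  rw [hlc] at h0
  have hd : g.degreeOf l - 1 = m := by omega
  induction a with
  | zero =>
    rw [hr, Finset.sum_range_succ', pow_zero]
    have h1 : ∀ b ∈ Finset.range m, aeval ξ (red l g 0 (b + 1)) * ξ l ^ (b + 1) = 0 := by
      intro b _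
      rw [red, map_zero, zero_mul]
    rw [Finset.sum_eq_zero h1, red, map_one, pow_zero]
    ring
  | succ a ih =>
    rw [pow_succ, ← ih, hr, hr, Finset.sum_range_succ' _ m]
    have h1 : ∀ b ∈ Finset.range m, aeval ξ (red l g (a + 1) (b + 1)) * ξ l ^ (b + 1) =
        (aeval ξ (red l g a b) * ξ l ^ b) * (aeval ξ (lcl l g) * ξ l) -
          aeval ξ (red l g a m) * (aeval ξ ((toP l g).coeff (b + 1)) * ξ l ^ (b + 1)) := by
      intro b _
      rw [red, hd, map_sub, map_mul, map_mul]
      ring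
    rw [Finset.sum_congr rfl h1, Finset.sum_sub_distrib, ← Finset.sum_mul, ← Finset.mul_sum, red,
      hd, map_neg, map_mul]
    rw [Finset.sum_range_succ' _ m] at h0
    rw [Finset.sum_range_succ _ m, add_mul]
    linear_combination (-(aeval ξ (red l g a m))) * h0

end

end Pool.Agent.ZP.HN
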