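import Pool.Agent.Lib.MP_c95b3b_ag_ZP.HNa

/-! Project ZP (MP_c95b3b_ag), block HN (normal forms), module HNb: normal forms modulo relations
with integer coefficients. -/

namespace Pool.Agent.ZP.HN

open Pool.Agent.AL MvPolynomial

section
variable {ι : Type} [Fintype ι] [DecidableEq ι]

/-- the relations `g l` (`l` not in `I`) express the coordinate `l` by the coordinates in `I` -/
structure Sys (I : Finset ι) (g : ι → MvPolynomial ι ℤ) : Prop where
  vars : ∀ l, l ∉ I → ∀ i ∈ (g l).vars, i = l ∨ i ∈ I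
  deg : ∀ l, l ∉ I → (g l).degreeOf l ≠ 0

/-- the widths of the box of the normal exponents -/
noncomputable def wd (I : Finset ι) (g : ι → MvPolynomial ι ℤ) (D : ι → ℕ) (i : ι) : ℕ :=
  if i ∈ I then D i + ∑ l ∈ Iᶜ, D l * (g l).degreeOf i + 1 else (g i).degreeOf i

/-- the normal exponents -/
noncomputable def NF (I : Finset ι) (g : ι → MvPolynomial ι ℤ) (D : ι → ℕ) : Finset (ι → ℕ) :=
  Fintype.piFinset fun i => Finset.range (wd I g D i)

/-- the common denominator -/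
noncomputable def dn (I : Finset ι) (g : ι → MvPolynomial ι ℤ) (D : ι → ℕ) : MvPolynomial ι ℤ :=
  ∏ l ∈ Iᶜ, lcl l (g l) ^ D l

/-- the bound for the coefficients -/
noncomputable def bnd (I : Finset ι) (g : ι → MvPolynomial ι ℤ) (D : ι → ℕ) : ℝ :=
  ∏ l ∈ Iᶜ, l1 (g l) ^ D l

/-- the normal form of `dn * X ^ a` -/
noncomputable def nfm (I : Finset ι) (g : ι → MvPolynomial ι ℤ) (D a : ι → ℕ) :
    MvPolynomial ι ℤ :=
  (∏ i ∈ I, X i ^ a i) * ∏ l ∈ Iᶜ, (lcl l (g l) ^ (D l - a l) * rdp l (g l) (a l))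

/-- the normal form of `dn * h` -/
noncomputable def nf (I : Finset ι) (g : ι → MvPolynomial ι ℤ) (D : ι → ℕ)
    (h : MvPolynomial ι ℤ) : MvPolynomial ι ℤ :=
  ∑ a ∈ h.support, C (coeff a h) * nfm I g D (fun i => a i)

variable {I : Finset ι} {g : ι → MvPolynomial ι ℤ} {D : ι → ℕ}

theorem degreeOf_eq_zero (hS : Sys I g) {l i : ι} (hl : l ∉ I) (hi : i ∉ I) (hil : i ≠ l) :
    (g l).degreeOf i = 0 := by
  rw [← not_ne_iff, ← mem_vars_iff_degreeOf_ne_zero]
  intro h
  rcases hS.vars l hl i h with h1 | h1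
  · exact hil h1
  · exact hi h1

theorem degreeOf_prod_X (s : Finset ι) (a : ι → ℕ) (i : ι) :
    (∏ j ∈ s, (X j : MvPolynomial ι ℤ) ^ a j).degreeOf i ≤ if i ∈ s then a i else 0 := by
  classical
  refine (degreeOf_prod_le i s _).trans ?_
  have h : ∀ j ∈ s, ((X j : MvPolynomial ι ℤ) ^ a j).degreeOf i ≤ if j = i then a j else 0 := by
    intro j _
    split_ifs with h
    · subst h
      rw [degreeOf_X_self_pow]
    · rw [degreeOf_X_pow_of_ne _ (Ne.symm h)]
  refine (Finset.sum_le_sum h).trans ?_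
  rw [Finset.sum_ite_eq' s i]

theorem degreeOf_nfm (hS : Sys I g) {a : ι → ℕ} (ha : ∀ i, a i ≤ D i) (i : ι) :
    (nfm I g D a).degreeOf i < wd I g D i := by
  rw [nfm]
  refine (degreeOf_mul_le i _ _).trans_lt ?_
  have h1 := degreeOf_prod_X I a i
  have h2 : (∏ l ∈ Iᶜ, (lcl l (g l) ^ (D l - a l) * rdp l (g l) (a l))).degreeOf i ≤
      ∑ l ∈ Iᶜ, (lcl l (g l) ^ (D l - a l) * rdp l (g l) (a l)).degreeOf i :=
    degreeOf_prod_le i _ _
  have h3 : ∀ l, (lcl l (g l) ^ (D l - a l)).degreeOf i ≤ (D l - a l) * (lcl l (g l)).degreeOf i :=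
    fun l => degreeOf_pow_le i _ _
  rw [wd]
  by_cases hi : i ∈ I
  · rw [if_pos hi] at h1 ⊢
    have h4 : ∀ l ∈ Iᶜ, (lcl l (g l) ^ (D l - a l) * rdp l (g l) (a l)).degreeOf i ≤
        D l * (g l).degreeOf i := by
      intro l hl
      rw [Finset.mem_compl] at hl
      have hil : i ≠ l := fun h => hl (h ▸ hi)
      refine (degreeOf_mul_le i _ _).trans ?_
      refine (add_le_add ((h3 l).trans (Nat.mul_le_mul_left _ (degreeOf_lcl_le l (g l) i)))
        (degreeOf_rdp_ne l (g l) (a l) hil)).trans ?_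
      rw [← add_mul, Nat.sub_add_cancel (ha l)]
    have h5 := Finset.sum_le_sum h4
    have h6 := ha i
    omega
  · rw [if_neg hi] at h1 ⊢
    have h4 : ∀ l ∈ Iᶜ, (lcl l (g l) ^ (D l - a l) * rdp l (g l) (a l)).degreeOf i ≤
        if l = i then (g i).degreeOf i - 1 else 0 := by
      intro l hl
      rw [Finset.mem_compl] at hl
      refine (degreeOf_mul_le i _ _).trans ?_
      split_ifs with h
      · subst h
        have h5 := h3 l
        rw [degreeOf_lcl_self, mul_zero] at h5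
        have h6 := degreeOf_rdp_self l (g l) (a l) (hS.deg l hl)
        omega
      · have h7 := degreeOf_eq_zero hS hl hi (Ne.symm h)
        have h5 := (h3 l).trans (Nat.mul_le_mul_left _ (degreeOf_lcl_le l (g l) i))
        have h6 := degreeOf_rdp_ne l (g l) (a l) (Ne.symm h)
        rw [h7, mul_zero] at h5 h6
        omega
    have h5 := Finset.sum_le_sum h4
    rw [Finset.sum_ite_eq', if_pos (Finset.mem_compl.mpr hi)] at h5
    have h6 := Nat.pos_of_ne_zero (hS.deg i hi)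
    omega

theorem one_le_l1_g (hS : Sys I g) {l : ι} (hl : l ∉ I) : 1 ≤ l1 (g l) := by
  refine one_le_l1 fun h => ?_
  have := hS.deg l hl
  rw [h] at this
  simp at this

theorem l1_nfm (hS : Sys I g) {a : ι → ℕ} (ha : ∀ i, a i ≤ D i) :
    l1 (nfm I g D a) ≤ bnd I g D := by
  rw [nfm, bnd]
  have h1 : l1 (∏ i ∈ I, (X i : MvPolynomial ι ℤ) ^ a i) ≤ 1 := by
    refine (l1_prod _ _).trans ?_
    refine Finset.prod_le_one (fun _ _ => l1_nonneg _) fun i _ => ?_
    refine (l1_pow _ _).trans ?_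
    rw [l1_X, one_pow]
  have h2 : l1 (∏ l ∈ Iᶜ, (lcl l (g l) ^ (D l - a l) * rdp l (g l) (a l))) ≤
      ∏ l ∈ Iᶜ, l1 (g l) ^ D l := by
    refine (l1_prod _ _).trans ?_
    refine Finset.prod_le_prod (fun _ _ => l1_nonneg _) fun l hl => ?_
    rw [Finset.mem_compl] at hl
    refine (l1_mul _ _).trans ?_
    calc l1 (lcl l (g l) ^ (D l - a l)) * l1 (rdp l (g l) (a l))
        ≤ l1 (g l) ^ (D l - a l) * l1 (g l) ^ a l := by
          refine mul_le_mul ?_ (l1_rdp l (g l) (hS.deg l hl) _) (l1_nonneg _)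
            (pow_nonneg (l1_nonneg _) _)
          exact (l1_pow _ _).trans (pow_le_pow_left₀ (l1_nonneg _) (l1_lcl_le l (g l)) _)
      _ = l1 (g l) ^ D l := by rw [← pow_add, Nat.sub_add_cancel (ha l)]
  refine (l1_mul _ _).trans ?_
  calc _ ≤ 1 * ∏ l ∈ Iᶜ, l1 (g l) ^ D l := mul_le_mul h1 h2 (l1_nonneg _) zero_le_one
    _ = _ := one_mul _

theorem one_le_bnd (hS : Sys I g) : 1 ≤ bnd I g D := by
  rw [bnd]
  refine Finset.prod_induction _ (fun x => (1 : ℝ) ≤ x) (fun x y hx hy => ?_) le_rfl ?_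
  · nlinarith
  · intro l hl
    rw [Finset.mem_compl] at hl
    exact one_le_pow₀ (one_le_l1_g hS hl)

theorem le_of_mem_support {h : MvPolynomial ι ℤ} (hd : ∀ i, h.degreeOf i ≤ D i) {a : ι →₀ ℕ}
    (ha : a ∈ h.support) (i : ι) : a i ≤ D i := (monomial_le_degreeOf i ha).trans (hd i)

theorem degreeOf_nf (hS : Sys I g) {h : MvPolynomial ι ℤ} (hd : ∀ i, h.degreeOf i ≤ D i)
    (i : ι) : (nf I g D h).degreeOf i < wd I g D i := by
  have h0 : 0 < wd I g D i := by
    rw [wd]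
    split_ifs with hi
    · omega
    · exact Nat.pos_of_ne_zero (hS.deg i hi)
  rw [nf]
  refine (degreeOf_sum_le i _ _).trans_lt ?_
  rw [Finset.sup_lt_iff (Nat.bot_eq_zero ▸ h0)]
  intro a ha
  refine (degreeOf_mul_le i _ _).trans_lt ?_
  rw [degreeOf_C, zero_add]
  exact degreeOf_nfm hS (le_of_mem_support hd ha) i

theorem mem_NF (hS : Sys I g) {h : MvPolynomial ι ℤ} (hd : ∀ i, h.degreeOf i ≤ D i)
    {m : ι →₀ ℕ} (hm : m ∈ (nf I g D h).support) : (fun i => m i) ∈ NF I g D := by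
  rw [NF, Fintype.mem_piFinset]
  intro i
  rw [Finset.mem_range]
  exact (monomial_le_degreeOf i hm).trans_lt (degreeOf_nf hS hd i)

theorem l1_nf (hS : Sys I g) {h : MvPolynomial ι ℤ} (hd : ∀ i, h.degreeOf i ≤ D i) :
    l1 (nf I g D h) ≤ l1 h * bnd I g D := by
  rw [nf]
  refine (l1_sum _ _).trans ?_
  conv_rhs => rw [l1, Finset.sum_mul]
  refine Finset.sum_le_sum fun a ha => ?_
  refine (l1_mul _ _).trans ?_
  rw [l1_C]
  exact mul_le_mul_of_nonneg_left (l1_nfm hS (le_of_mem_support hd ha)) (abs_nonneg _)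

/-- evaluation -/
theorem aeval_nfm {A : Type} [CommRing A] (hS : Sys I g) (ξ : ι → A)
    (h0 : ∀ l, l ∉ I → aeval ξ (g l) = 0) {a : ι → ℕ} (ha : ∀ i, a i ≤ D i) :
    aeval ξ (nfm I g D a) = aeval ξ (dn I g D) * ∏ i, ξ i ^ a i := by
  rw [nfm, dn, map_mul, map_prod, map_prod, map_prod]
  have h1 : ∀ l ∈ Iᶜ, aeval ξ (lcl l (g l) ^ (D l - a l) * rdp l (g l) (a l)) =
      aeval ξ (lcl l (g l) ^ D l) * ξ l ^ a l := by
    intro l hl
    rw [Finset.mem_compl] at hl
    rw [map_mul, aeval_rdp ξ l (g l) (hS.deg l hl) (h0 l hl), map_pow, map_pow, mul_pow,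
      ← mul_assoc, ← pow_add, Nat.sub_add_cancel (ha l)]
  have h2 : ∏ i ∈ I, aeval ξ ((X i : MvPolynomial ι ℤ) ^ a i) = ∏ i ∈ I, ξ i ^ a i :=
    Finset.prod_congr rfl fun i _ => by rw [map_pow, aeval_X]
  rw [Finset.prod_congr rfl h1, Finset.prod_mul_distrib, h2,
    ← Finset.prod_mul_prod_compl I (fun i => ξ i ^ a i)]
  ring

theorem aeval_nf {A : Type} [CommRing A] (hS : Sys I g) (ξ : ι → A)
    (h0 : ∀ l, l ∉ I → aeval ξ (g l) = 0) {h : MvPolynomial ι ℤ}
    (hd : ∀ i, h.degreeOf i ≤ D i) :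
    aeval ξ (nf I g D h) = aeval ξ (dn I g D) * aeval ξ h := by
  rw [nf, map_sum]
  conv_rhs => rw [h.as_sum, map_sum, Finset.mul_sum]
  refine Finset.sum_congr rfl fun a ha => ?_
  rw [map_mul, aeval_nfm hS ξ h0 (le_of_mem_support hd ha), aeval_monomial,
    Finsupp.prod_fintype _ _ (fun i => pow_zero _), ← algebraMap_eq, AlgHom.map_algebraMap]
  ring

/-- a polynomial with exponents in a box as a sum over the box -/
theorem aeval_eq_box {A : Type} [CommRing A] (ξ : ι → A) (f : MvPolynomial ι ℤ)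
    (N : Finset (ι → ℕ)) (hN : ∀ m ∈ f.support, (fun i => m i) ∈ N) :
    aeval ξ f = ∑ c ∈ N, ((coeff (Finsupp.equivFunOnFinite.symm c) f : ℤ) : A) * ∏ i, ξ i ^ c i := by
  classical
  have h1 : ∀ m : ι →₀ ℕ, Finsupp.equivFunOnFinite.symm (fun i => m i) = m := by
    intro m
    ext i
    rfl
  conv_lhs => rw [f.as_sum, map_sum]
  symm
  rw [← Finset.sum_subset (s₁ := f.support.image fun m : ι →₀ ℕ => fun i => m i)]
  · rw [Finset.sum_image]
    · refine Finset.sum_congr rfl fun m _ => ?_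
      rw [h1, aeval_monomial, Finsupp.prod_fintype _ _ (fun i => pow_zero _)]
      simp
    · intro m _ m' _ h
      ext i
      exact congrFun h i
  · intro c hc
    rw [Finset.mem_image] at hc
    obtain ⟨m, hm, rfl⟩ := hc
    exact hN m hm
  · intro c _ hc
    have : coeff (Finsupp.equivFunOnFinite.symm c) f = 0 := by
      by_contra h
      apply hc
      rw [Finset.mem_image]
      exact ⟨_, mem_support_iff.mpr h, by funext i; rfl⟩
    rw [this]
    simp

end

end Pool.Agent.ZP.HN
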