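import Pool.Agent.Lib.MP_c95b3b_ag_ZP.HNb

/-! Project ZP (MP_c95b3b_ag), block HN (normal forms), module HNc: the Hilbert function over the
rational numbers and the Siegel lemma. -/

namespace Pool.Agent.ZP.HN

open Pool.Agent.AL MvPolynomial Module

attribute [local instance] Matrix.seminormedAddCommGroup

section
variable {ι : Type} [Fintype ι] [DecidableEq ι] {I : Finset ι} {g : ι → MvPolynomial ι ℤ}
  {D : ι → ℕ}

/-- **Hilbert function over `ℚ`**: functions `φ o` such that `u * φ o` is the value of a polynomial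
with integral coefficients and degrees at most `D i`. -/
theorem finrank_le {A : Type} [CommRing A] [IsDomain A] [Algebra ℚ A] (hS : Sys I g)
    (ξ : ι → A) (h0 : ∀ l, l ∉ I → aeval ξ (g l) = 0) (hdn : aeval ξ (dn I g D) ≠ 0) {Ω : Type}
    (φ : Ω → A) (u : A) (hu : u ≠ 0) (h : Ω → MvPolynomial ι ℤ)
    (hd : ∀ o i, (h o).degreeOf i ≤ D i) (hφ : ∀ o, u * φ o = aeval ξ (h o)) :
    finrank ℚ (Submodule.span ℚ (Set.range φ)) ≤ (NF I g D).card := by
  classical
  set c : A := aeval ξ (dn I g D) * u with hc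
  have hc0 : c ≠ 0 := mul_ne_zero hdn hu
  let T : A →ₗ[ℚ] A := LinearMap.mulLeft ℚ c
  have hT : Function.Injective T := fun x y hxy => mul_left_cancel₀ hc0 hxy
  set B : Submodule ℚ A := Submodule.span ℚ (((NF I g D).image fun m : ι → ℕ =>
    ∏ i, ξ i ^ m i : Finset A) : Set A) with hB
  have h1 : (Submodule.span ℚ (Set.range φ)).map T ≤ B := by
    rw [Submodule.map_span, Submodule.span_le]
    rintro _ ⟨_, ⟨o, rfl⟩, rfl⟩
    have h2 : T (φ o) = aeval ξ (nf I g D (h o)) := by
      rw [aeval_nf hS ξ h0 (hd o), ← hφ o]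
      simp only [T, LinearMap.mulLeft_apply, hc]
      ring
    rw [h2, aeval_eq_box ξ _ (NF I g D) fun m hm => mem_NF hS (hd o) hm]
    refine B.sum_mem fun m hm => ?_
    have h3 : ((coeff (Finsupp.equivFunOnFinite.symm m) (nf I g D (h o)) : ℤ) : A) *
        ∏ i, ξ i ^ m i =
        ((coeff (Finsupp.equivFunOnFinite.symm m) (nf I g D (h o)) : ℤ) : ℚ) •
          ∏ i, ξ i ^ m i := by
      rw [Algebra.smul_def, map_intCast]
    rw [h3]
    exact B.smul_mem _ (Submodule.subset_span (Finset.mem_coe.mpr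
      (Finset.mem_image_of_mem _ hm)))
  have h4 : finrank ℚ B ≤ (NF I g D).card :=
    (finrank_span_finset_le_card _).trans Finset.card_image_le
  have h5 : Module.Finite ℚ B := FiniteDimensional.span_finset ℚ _
  calc finrank ℚ (Submodule.span ℚ (Set.range φ))
      = finrank ℚ ((Submodule.span ℚ (Set.range φ)).map T) :=
        (Submodule.equivMapOfInjective T hT _).finrank_eq
    _ ≤ finrank ℚ B := Submodule.finrank_mono h1
    _ ≤ _ := h4

/-- **Siegel's lemma** for the functions `φ o`. -/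
theorem siegel {A : Type} [CommRing A] [IsDomain A] (hS : Sys I g)
    (ξ : ι → A) (h0 : ∀ l, l ∉ I → aeval ξ (g l) = 0) (hdn : aeval ξ (dn I g D) ≠ 0) {Ω : Type}
    [Fintype Ω] (φ : Ω → A) (u : A) (hu : u ≠ 0) (h : Ω → MvPolynomial ι ℤ)
    (hd : ∀ o i, (h o).degreeOf i ≤ D i) (hφ : ∀ o, u * φ o = aeval ξ (h o))
    {Λ : ℝ} (hΛ : 1 ≤ Λ) (hl : ∀ o, l1 (h o) ≤ Λ) (hcard : 2 * (NF I g D).card ≤ Fintype.card Ω) :
    ∃ q : Ω → ℤ, q ≠ 0 ∧ ∑ o, (q o : A) * φ o = 0 ∧
      ∀ o, (|q o| : ℝ) ≤ Fintype.card Ω * (Λ * bnd I g D) := by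
  classical
  have hNF : 0 < (NF I g D).card := by
    rw [Finset.card_pos]
    refine ⟨fun _ => 0, ?_⟩
    rw [NF, Fintype.mem_piFinset]
    intro i
    rw [Finset.mem_range, wd]
    split_ifs with hi
    · omega
    · exact Nat.pos_of_ne_zero (hS.deg i hi)
  let M : Matrix (NF I g D) Ω ℤ :=
    Matrix.of fun m o => coeff (Finsupp.equivFunOnFinite.symm m.1) (nf I g D (h o))
  have hα : Fintype.card (NF I g D) = (NF I g D).card := Fintype.card_coe _
  obtain ⟨q, hq0, hq, hqn⟩ := Int.Matrix.exists_ne_zero_int_vec_norm_le M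
    (by rw [hα]; omega) (by rw [hα]; exact hNF)
  have hΛb : 1 ≤ Λ * bnd I g D := by
    have := one_le_bnd (D := D) hS
    nlinarith
  refine ⟨q, hq0, ?_, ?_⟩
  · set c : A := aeval ξ (dn I g D) * u with hc
    have hc0 : c ≠ 0 := mul_ne_zero hdn hu
    apply mul_left_cancel₀ hc0
    rw [mul_zero, Finset.mul_sum]
    have h2 : ∀ o ∈ Finset.univ, c * ((q o : A) * φ o) = ∑ m : NF I g D,
        ((M m o * q o : ℤ) : A) * ∏ i, ξ i ^ (m : ι → ℕ) i := by
      intro o _
      have h3 : c * φ o = aeval ξ (nf I g D (h o)) := by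
        rw [aeval_nf hS ξ h0 (hd o), ← hφ o, hc]
        ring
      rw [mul_left_comm, h3, aeval_eq_box ξ _ (NF I g D) fun m hm => mem_NF hS (hd o) hm,
        Finset.mul_sum, ← Finset.sum_coe_sort (NF I g D)]
      refine Finset.sum_congr rfl fun m _ => ?_
      simp only [M, Matrix.of_apply]
      push_cast
      ring
    rw [Finset.sum_congr rfl h2, Finset.sum_comm]
    refine Finset.sum_eq_zero fun m _ => ?_
    rw [← Finset.sum_mul]
    have h4 : ∑ o, ((M m o * q o : ℤ) : A) = (((M.mulVec q) m : ℤ) : A) := by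
      rw [Matrix.mulVec, dotProduct, Int.cast_sum]
    rw [h4, hq]
    simp
  · intro o
    have hM : ‖M‖ ≤ Λ * bnd I g D := by
      rw [Matrix.norm_le_iff (by linarith)]
      intro m o
      simp only [M, Matrix.of_apply]
      rw [Int.norm_eq_abs]
      refine (abs_coeff_le_l1 _ _).trans ?_
      refine (l1_nf hS (hd o)).trans ?_
      exact mul_le_mul_of_nonneg_right (hl o) (by have := one_le_bnd (D := D) hS; linarith)
    have hmax : max 1 ‖M‖ ≤ Λ * bnd I g D := max_le hΛb hM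
    have hcardpos : (1 : ℝ) ≤ Fintype.card Ω := by
      have : 1 ≤ Fintype.card Ω := by omega
      exact_mod_cast this
    have h5 : (Fintype.card Ω : ℝ) * max 1 ‖M‖ ≤ Fintype.card Ω * (Λ * bnd I g D) :=
      mul_le_mul_of_nonneg_left hmax (by linarith)
    have h6 : 1 ≤ (Fintype.card Ω : ℝ) * max 1 ‖M‖ := by
      have := le_max_left 1 ‖M‖
      nlinarith
    have h7 : ((Fintype.card (NF I g D) : ℝ) / (Fintype.card Ω - Fintype.card (NF I g D))) ≤ 1 := by
      rw [hα]
      have h8 : (2 * (NF I g D).card : ℝ) ≤ Fintype.card Ω := by exact_mod_cast hcard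
      have h9 : (0 : ℝ) < (NF I g D).card := by exact_mod_cast hNF
      rw [div_le_one (by linarith)]
      linarith
    have h8 : ‖q o‖ ≤ ‖q‖ := norm_le_pi_norm q o
    rw [Int.norm_eq_abs] at h8
    refine (h8.trans hqn).trans ?_
    refine (Real.rpow_le_rpow_of_exponent_le h6 h7).trans ?_
    rw [Real.rpow_one]
    exact h5

end

end Pool.Agent.ZP.HN
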