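import Pool.Agent.Lib.MP_c95b3b_ag_ZP.HNc

/-! Project ZP (MP_c95b3b_ag), block HN (normal forms), module HNd: bounds for the number of the
normal exponents and for the coefficients in terms of the scales. -/

namespace Pool.Agent.ZP.HN

open Pool.Agent.AL MvPolynomial

section
variable {ι : Type} [Fintype ι] [DecidableEq ι] {I : Finset ι} {g : ι → MvPolynomial ι ℤ}
  {D : ι → ℕ}

theorem card_NF (I : Finset ι) (g : ι → MvPolynomial ι ℤ) (D : ι → ℕ) :
    (NF I g D).card = ∏ i, wd I g D i := by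
  rw [NF, Fintype.card_piFinset]
  exact Finset.prod_congr rfl fun i _ => Finset.card_range _

/-- the number of the normal exponents -/
theorem card_NF_le {s : ι → ℝ} {M A : ℝ} {d : ℕ} (hs : ∀ i, 0 < s i) (hM : ∀ i, s i ≤ M)
    (hA : 0 ≤ A) (hD : ∀ i, (D i : ℝ) ≤ A * M / s i)
    (hblk : ∀ l, l ∉ I → ∀ i ∈ (g l).vars, s i = s l)
    (hd : ∀ l, l ∉ I → ∀ i, (g l).degreeOf i ≤ d) :
    ((NF I g D).card : ℝ) ≤
      ((d : ℝ) + 1) ^ Fintype.card ι * (A + Fintype.card ι * (A * d) + 1) ^ Fintype.card ι *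
        ∏ i ∈ I, (M / s i) := by
  classical
  set n := Fintype.card ι with hn
  set E : ℝ := A + n * (A * d) + 1 with hE
  have hE1 : 1 ≤ E := by
    have : 0 ≤ (n : ℝ) * (A * d) := by positivity
    rw [hE]
    linarith
  have h1 : ∀ i ∈ I, ((wd I g D i : ℕ) : ℝ) ≤ E * (M / s i) := by
    intro i hi
    rw [wd, if_pos hi]
    push_cast
    have hMs : 1 ≤ M / s i := (one_le_div (hs i)).mpr (hM i)
    have h2 : ∀ l ∈ Iᶜ, ((D l : ℝ) * ((g l).degreeOf i : ℕ)) ≤ A * d * (M / s i) := by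
      intro l hl
      rw [Finset.mem_compl] at hl
      by_cases h0 : (g l).degreeOf i = 0
      · rw [h0]
        have : 0 ≤ A * d * (M / s i) := by
          have : 0 ≤ M / s i := by linarith
          positivity
        simpa using this
      · have h3 : s i = s l := hblk l hl i (mem_vars_iff_degreeOf_ne_zero.mpr h0)
        have h4 : (((g l).degreeOf i : ℕ) : ℝ) ≤ d := by exact_mod_cast hd l hl i
        calc (D l : ℝ) * ((g l).degreeOf i : ℕ) ≤ (A * M / s l) * d :=
              mul_le_mul (hD l) h4 (Nat.cast_nonneg _) ((Nat.cast_nonneg _).trans (hD l))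
          _ = A * d * (M / s i) := by rw [h3]; ring
    have h5 := Finset.sum_le_sum h2
    rw [Finset.sum_const, nsmul_eq_mul] at h5
    have h6 : ((Iᶜ.card : ℕ) : ℝ) ≤ n := by
      have : Iᶜ.card ≤ n := Finset.card_le_univ _
      exact_mod_cast this
    have h7 : ((Iᶜ.card : ℕ) : ℝ) * (A * d * (M / s i)) ≤ n * (A * d * (M / s i)) :=
      mul_le_mul_of_nonneg_right h6 (by
        have : 0 ≤ M / s i := by linarith
        positivity)
    have h8 := hD i
    calc (D i : ℝ) + ∑ l ∈ Iᶜ, (D l : ℝ) * ((g l).degreeOf i : ℕ) + 1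
        ≤ A * M / s i + n * (A * d * (M / s i)) + M / s i :=
          add_le_add (add_le_add h8 (h5.trans h7)) hMs
      _ = E * (M / s i) := by rw [hE]; ring
  have h2 : ∀ i ∈ Iᶜ, ((wd I g D i : ℕ) : ℝ) ≤ (d : ℝ) + 1 := by
    intro i hi
    rw [Finset.mem_compl] at hi
    rw [wd, if_neg hi]
    have : (((g i).degreeOf i : ℕ) : ℝ) ≤ d := by exact_mod_cast hd i hi i
    linarith
  rw [card_NF, Nat.cast_prod, ← Finset.prod_mul_prod_compl I]
  have h3 : ∏ i ∈ I, ((wd I g D i : ℕ) : ℝ) ≤ E ^ n * ∏ i ∈ I, (M / s i) := by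
    refine (Finset.prod_le_prod (fun i _ => Nat.cast_nonneg _) h1).trans ?_
    rw [Finset.prod_mul_distrib, Finset.prod_const]
    refine mul_le_mul_of_nonneg_right ?_ (Finset.prod_nonneg fun i _ => ?_)
    · exact pow_le_pow_right₀ hE1 (Finset.card_le_univ _)
    · have : 1 ≤ M / s i := (one_le_div (hs i)).mpr (hM i)
      linarith
  have h4 : ∏ i ∈ Iᶜ, ((wd I g D i : ℕ) : ℝ) ≤ ((d : ℝ) + 1) ^ n := by
    refine (Finset.prod_le_prod (fun i _ => Nat.cast_nonneg _) h2).trans ?_
    rw [Finset.prod_const]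
    exact pow_le_pow_right₀ (by linarith [Nat.cast_nonneg (α := ℝ) d]) (Finset.card_le_univ _)
  calc _ ≤ (E ^ n * ∏ i ∈ I, (M / s i)) * ((d : ℝ) + 1) ^ n := by
        refine mul_le_mul h3 h4 (Finset.prod_nonneg fun i _ => Nat.cast_nonneg _) ?_
        refine mul_nonneg (pow_nonneg (by linarith) _) (Finset.prod_nonneg fun i _ => ?_)
        have : 1 ≤ M / s i := (one_le_div (hs i)).mpr (hM i)
        linarith
    _ = _ := by ring

/-- the logarithm of the bound for the coefficients -/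
theorem log_bnd_le (hS : Sys I g) {s : ι → ℝ} {M A s0 : ℝ} {d : ℕ} (hs : ∀ i, 0 < s i)
    (hs0 : 0 < s0) (hM : 0 ≤ M) (hA : 0 ≤ A) (hD : ∀ i, (D i : ℝ) ≤ A * M / s i)
    (hl : ∀ l, l ∉ I → Real.log (l1 (g l)) ≤ d * (s l / s0)) :
    Real.log (bnd I g D) ≤ Fintype.card ι * (A * d) * (M / s0) := by
  classical
  rw [bnd, Real.log_prod]
  · have h1 : ∀ l ∈ Iᶜ, Real.log (l1 (g l) ^ D l) ≤ A * d * (M / s0) := by
      intro l hl'
      rw [Finset.mem_compl] at hl'
      rw [Real.log_pow]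
      have h0 : 0 ≤ Real.log (l1 (g l)) := Real.log_nonneg (one_le_l1_g hS hl')
      calc (D l : ℝ) * Real.log (l1 (g l)) ≤ (A * M / s l) * (d * (s l / s0)) :=
            mul_le_mul (hD l) (hl l hl') h0 (by
              have := hs l
              positivity)
        _ = A * d * (M / s0) := by
            have := (hs l).ne'
            field_simp
    refine (Finset.sum_le_sum h1).trans ?_
    rw [Finset.sum_const, nsmul_eq_mul]
    have h2 : ((Iᶜ.card : ℕ) : ℝ) ≤ Fintype.card ι := by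
      have : Iᶜ.card ≤ Fintype.card ι := Finset.card_le_univ _
      exact_mod_cast this
    calc ((Iᶜ.card : ℕ) : ℝ) * (A * d * (M / s0)) ≤ Fintype.card ι * (A * d * (M / s0)) :=
          mul_le_mul_of_nonneg_right h2 (by positivity)
      _ = _ := by ring
  · intro l hl'
    rw [Finset.mem_compl] at hl'
    have := one_le_l1_g hS hl'
    exact pow_ne_zero _ (by linarith)

end

end Pool.Agent.ZP.HN
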