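import Pool.Agent.Lib.MP_c95b3b_ag_ZP.HNd
import Pool.Agent.Lib.MP_c95b3b_ag_ZP.Defs
import Pool.Agent.Lib.MP_c95b3b_ag_AL.BC
import Pool.Agent.Lib.MP_c95b3b_ag_AL.ZD

/-! Project ZP (MP_c95b3b_ag), block HN (normal forms), module HNe: Laurent polynomials in the
branch. -/

namespace Pool.Agent.ZP.HN

open Pool.Agent.AL MvPolynomial Module

section
variable {ι K : Type} [Field K] [CharZero K]

/-- polynomials in the free coordinates do not vanish on the branch -/
theorem aeval_branch_ne [Fintype ι] {I : Finset ι} {P : ι → K} {g : ι → MvPolynomial ι ℤ}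
    {Ξ : ι → MvPowerSeries ι K} (hb : IsBranch I P g Ξ) {f : MvPolynomial ι ℤ} (hf : f ≠ 0)
    (hv : f.vars ⊆ I) : aeval Ξ f ≠ 0 := by
  classical
  have h1 : aeval Ξ f = aeval (fun i => algebraMap K (MvPowerSeries ι K) (P i) +
      (MvPowerSeries.X i : MvPowerSeries ι K)) f :=
    BC.aeval_congr_vars f _ _ fun i hi => hb.free i (hv hi)
  rw [h1, BB.aeval_inst _ (Ring.toIntAlgebra _), BB.aeval_shf]
  have h2 : (aeval (fun i => (MvPowerSeries.X i : MvPowerSeries ι K)) :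
      MvPolynomial ι K →ₐ[K] MvPowerSeries ι K) = coeToMvPowerSeries.algHom K := by
    apply algHom_ext
    intro i
    rw [aeval_X, coeToMvPowerSeries.algHom_apply, coe_X]
    rfl
  rw [h2, coeToMvPowerSeries.algHom_apply]
  intro h
  have h3 : MvPowerSeries.map (algebraMap K K) ((shf P f : MvPolynomial ι K) :
      MvPowerSeries ι K) = ((shf P f : MvPolynomial ι K) : MvPowerSeries ι K) := by
    ext m
    simp
  rw [h3] at h
  exact shf_ne_zero P hf (coe_injective ι K (by rw [h, coe_zero]))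

theorem aeval_dn_ne [Fintype ι] [DecidableEq ι] {I : Finset ι} {P : ι → K}
    {g : ι → MvPolynomial ι ℤ} {Ξ : ι → MvPowerSeries ι K} (hS : Sys I g)
    (hb : IsBranch I P g Ξ) (D : ι → ℕ) : aeval Ξ (dn I g D) ≠ 0 := by
  rw [dn, map_prod, Finset.prod_ne_zero_iff]
  intro l hl
  rw [Finset.mem_compl] at hl
  rw [map_pow]
  refine pow_ne_zero _ (aeval_branch_ne hb (lcl_ne_zero l (g l) (hS.deg l hl)) ?_)
  intro i hi
  have h1 := vars_lcl l (g l) hi
  rw [Finset.mem_erase] at h1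
  exact (hS.vars l hl i h1.2).resolve_left h1.1

omit [CharZero K] in
theorem sys_of_isRel {q : ℕ} {I : Finset ι} {blk : ι → Fin (q + 1)} {P : ι → K}
    {g : ι → MvPolynomial ι ℤ} (h : IsRel I blk P g) : Sys I g := by
  classical
  refine ⟨fun l hl i hi => ?_, fun l hl h0 => ?_⟩
  · rcases h.vars l hl i hi with h1 | h1
    · exact Or.inl h1
    · exact Or.inr h1.1
  · apply h.der l hl
    have h1 : pderiv l (g l) = 0 := by
      apply pderiv_eq_zero_of_notMem_vars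
      rw [mem_vars_iff_degreeOf_ne_zero, not_not]
      exact h0
    rw [h1, map_zero]

end

/-! ### Laurent monomials -/

section
variable {K : Type} [Field K] {n : ℕ}

theorem shift_pow {A : Type} [CommRing A] {x y : A} (hxy : x * y = 1) {a : ℤ} {E : ℕ}
    (ha : |a| ≤ E) : x ^ E * (x ^ a.toNat * y ^ (-a).toNat) = x ^ (a + E).toNat := by
  rw [abs_le] at ha
  rcases le_total 0 a with h | h
  · have h1 : (-a).toNat = 0 := Int.toNat_eq_zero.mpr (by omega)
    have h2 : (a + E).toNat = E + a.toNat := by omega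
    rw [h1, h2, pow_zero, mul_one, pow_add]
  · have h1 : a.toNat = 0 := Int.toNat_eq_zero.mpr h
    have h2 : E = (a + E).toNat + (-a).toNat := by omega
    have h3 : x ^ E = x ^ (a + E).toNat * x ^ (-a).toNat := by
      rw [← pow_add, ← h2]
    rw [h1, h3, pow_zero, one_mul, mul_assoc, ← mul_pow, hxy, one_pow, mul_one]

theorem shift_psm {Ξ : Fin n → MvPowerSeries (Fin n) K}
    (hΞ : ∀ i, MvPowerSeries.constantCoeff (Ξ i) ≠ 0) {a : Fin n → ℤ} {E : Fin n → ℕ}
    (ha : ∀ i, |a i| ≤ E i) :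
    (∏ i, Ξ i ^ E i) * psm Ξ a = ∏ i, Ξ i ^ (a i + E i).toNat := by
  rw [psm, ← Finset.prod_mul_distrib]
  exact Finset.prod_congr rfl fun i _ =>
    shift_pow (MvPowerSeries.mul_inv_cancel (Ξ i) (hΞ i)) (ha i)

/-- the polynomial `X^E * ∑ r a * X^a` -/
noncomputable def shp (E : Fin n → ℕ) (T : Finset (Fin n → ℤ)) (r : (Fin n → ℤ) → ℤ) :
    MvPolynomial (Fin n) ℤ := ∑ a ∈ T, C (r a) * ∏ i, X i ^ (a i + E i).toNat

theorem shift_lp {Ξ : Fin n → MvPowerSeries (Fin n) K}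
    (hΞ : ∀ i, MvPowerSeries.constantCoeff (Ξ i) ≠ 0) {T : Finset (Fin n → ℤ)}
    {r : (Fin n → ℤ) → ℤ} {E : Fin n → ℕ} (hT : ∀ a ∈ T, ∀ i, |a i| ≤ E i) :
    (∏ i, Ξ i ^ E i) * lp Ξ T (fun a => (r a : K)) = aeval Ξ (shp E T r) := by
  rw [lp, shp, Finset.mul_sum, map_sum]
  refine Finset.sum_congr rfl fun a ha => ?_
  rw [mul_left_comm, shift_psm hΞ (hT a ha), map_mul, map_prod]
  congr 1
  · rw [map_intCast]
    simp
  · exact Finset.prod_congr rfl fun i _ => by rw [map_pow, aeval_X]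

theorem degreeOf_shp {T : Finset (Fin n → ℤ)} {r : (Fin n → ℤ) → ℤ} {E : Fin n → ℕ}
    (hT : ∀ a ∈ T, ∀ i, |a i| ≤ E i) (i : Fin n) : (shp E T r).degreeOf i ≤ 2 * E i := by
  rw [shp]
  refine (degreeOf_sum_le i _ _).trans ?_
  rw [Finset.sup_le_iff]
  intro a ha
  refine (degreeOf_mul_le i _ _).trans ?_
  rw [degreeOf_C, zero_add]
  refine (degreeOf_prod_X Finset.univ _ i).trans ?_
  rw [if_pos (Finset.mem_univ i)]
  have := hT a ha i
  rw [abs_le] at this
  omega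

theorem l1_shp (T : Finset (Fin n → ℤ)) (r : (Fin n → ℤ) → ℤ) (E : Fin n → ℕ) :
    l1 (shp E T r) ≤ ∑ a ∈ T, |(r a : ℝ)| := by
  rw [shp]
  refine (l1_sum _ _).trans (Finset.sum_le_sum fun a _ => ?_)
  refine (l1_mul _ _).trans ?_
  rw [l1_C]
  have h1 : l1 (∏ i, (X i : MvPolynomial (Fin n) ℤ) ^ (a i + E i).toNat) ≤ 1 := by
    refine (l1_prod _ _).trans ?_
    refine Finset.prod_le_one (fun _ _ => l1_nonneg _) fun i _ => ?_
    refine (l1_pow _ _).trans ?_
    rw [l1_X, one_pow]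
  calc |(r a : ℝ)| * _ ≤ |(r a : ℝ)| * 1 := mul_le_mul_of_nonneg_left h1 (abs_nonneg _)
    _ = _ := mul_one _

end

end Pool.Agent.ZP.HN
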