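import Pool.Agent.Lib.MP_c95b3b_ag_ZP.Defs

set_option autoImplicit false

/-! Project ZP (MP_c95b3b_ag), block J: power series in separate variables. -/

namespace Pool.Agent.ZP

open MvPolynomial Filter Topology Module Pool.Agent.L3 Pool.Agent.SD Pool.Agent.AL

namespace J

section kl
variable {σ : Type} {R : Type} [CommRing R]

/-- the exponents supported in `S` -/
def Sup (S : σ → Prop) (γ : σ →₀ ℕ) : Prop := ∀ j, γ j ≠ 0 → S j

open Classical in
/-- the terms of a power series in the variables in `S` -/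
noncomputable def kl (S : σ → Prop) (f : MvPowerSeries σ R) : MvPowerSeries σ R :=
  fun γ => if Sup S γ then MvPowerSeries.coeff γ f else 0

/-- power series in the variables in `S` -/
def In (S : σ → Prop) (f : MvPowerSeries σ R) : Prop :=
  ∀ γ : σ →₀ ℕ, ¬ Sup S γ → MvPowerSeries.coeff γ f = 0

theorem coeff_kl (S : σ → Prop) (f : MvPowerSeries σ R) (γ : σ →₀ ℕ) (h : Sup S γ) :
    MvPowerSeries.coeff γ (kl S f) = MvPowerSeries.coeff γ f := by
  classical
  change (if Sup S γ then MvPowerSeries.coeff γ f else 0) = _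
  rw [if_pos h]

theorem coeff_kl' (S : σ → Prop) (f : MvPowerSeries σ R) (γ : σ →₀ ℕ) (h : ¬ Sup S γ) :
    MvPowerSeries.coeff γ (kl S f) = 0 := by
  classical
  change (if Sup S γ then MvPowerSeries.coeff γ f else 0) = _
  rw [if_neg h]

theorem in_iff {S : σ → Prop} {f : MvPowerSeries σ R} : In S f ↔ kl S f = f := by
  constructor
  · intro h
    ext γ
    by_cases hγ : Sup S γ
    · exact coeff_kl S f γ hγ
    · rw [coeff_kl' S f γ hγ, h γ hγ]
  · intro h γ hγ
    rw [← h, coeff_kl' S f γ hγ]

theorem sup_add {S : σ → Prop} {γ δ : σ →₀ ℕ} : Sup S (γ + δ) ↔ Sup S γ ∧ Sup S δ := by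
  constructor
  · intro h
    refine ⟨fun j hj => h j ?_, fun j hj => h j ?_⟩
    · rw [Finsupp.add_apply]
      omega
    · rw [Finsupp.add_apply]
      omega
  · rintro ⟨h1, h2⟩ j hj
    rw [Finsupp.add_apply] at hj
    by_cases h : γ j = 0
    · exact h2 j (by omega)
    · exact h1 j h

theorem kl_mul (S : σ → Prop) (f g : MvPowerSeries σ R) : kl S (f * g) = kl S f * kl S g := by
  classical
  ext γ
  by_cases hγ : Sup S γ
  · rw [coeff_kl S _ γ hγ, MvPowerSeries.coeff_mul, MvPowerSeries.coeff_mul]
    refine Finset.sum_congr rfl fun p hp => ?_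
    have h := Finset.HasAntidiagonal.mem_antidiagonal.mp hp
    have h' := sup_add.mp (h ▸ hγ)
    rw [coeff_kl S _ _ h'.1, coeff_kl S _ _ h'.2]
  · rw [coeff_kl' S _ γ hγ, MvPowerSeries.coeff_mul]
    symm
    refine Finset.sum_eq_zero fun p hp => ?_
    have h := Finset.HasAntidiagonal.mem_antidiagonal.mp hp
    by_cases h1 : Sup S p.1
    · have h2 : ¬ Sup S p.2 := fun h2 => hγ (h ▸ sup_add.mpr ⟨h1, h2⟩)
      rw [coeff_kl' S _ _ h2, mul_zero]
    · rw [coeff_kl' S _ _ h1, zero_mul]

theorem kl_one (S : σ → Prop) : kl S (1 : MvPowerSeries σ R) = 1 := by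
  classical
  ext γ
  by_cases hγ : Sup S γ
  · rw [coeff_kl S _ γ hγ]
  · rw [coeff_kl' S _ γ hγ, MvPowerSeries.coeff_one, if_neg]
    rintro rfl
    exact hγ fun j hj => (hj rfl).elim

theorem In.mul {S : σ → Prop} {f g : MvPowerSeries σ R} (hf : In S f) (hg : In S g) :
    In S (f * g) := by
  rw [in_iff] at *
  rw [kl_mul, hf, hg]

theorem In.one {S : σ → Prop} : In S (1 : MvPowerSeries σ R) := in_iff.mpr (kl_one S)

theorem In.add {S : σ → Prop} {f g : MvPowerSeries σ R} (hf : In S f) (hg : In S g) :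
    In S (f + g) := by
  intro γ hγ
  rw [map_add, hf γ hγ, hg γ hγ, add_zero]

theorem In.zero {S : σ → Prop} : In S (0 : MvPowerSeries σ R) := fun _ _ => map_zero _

theorem In.C {S : σ → Prop} (r : R) : In S (MvPowerSeries.C r : MvPowerSeries σ R) := by
  classical
  intro γ hγ
  rw [MvPowerSeries.coeff_C, if_neg]
  rintro rfl
  exact hγ fun j hj => (hj rfl).elim

theorem In.pow {S : σ → Prop} {f : MvPowerSeries σ R} (hf : In S f) (m : ℕ) : In S (f ^ m) := by
  induction m with
  | zero => rw [pow_zero]; exact In.one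
  | succ m ih => rw [pow_succ]; exact ih.mul hf

theorem In.prod {S : σ → Prop} {ι : Type} (s : Finset ι) (f : ι → MvPowerSeries σ R)
    (h : ∀ i ∈ s, In S (f i)) : In S (∏ i ∈ s, f i) := by
  classical
  induction s using Finset.induction_on with
  | empty => rw [Finset.prod_empty]; exact In.one
  | insert a s ha ih =>
    rw [Finset.prod_insert ha]
    exact (h a (Finset.mem_insert_self a s)).mul
      (ih fun i hi => h i (Finset.mem_insert_of_mem hi))

theorem In.sum {S : σ → Prop} {ι : Type} (s : Finset ι) (f : ι → MvPowerSeries σ R)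
    (h : ∀ i ∈ s, In S (f i)) : In S (∑ i ∈ s, f i) := by
  intro γ hγ
  rw [map_sum]
  exact Finset.sum_eq_zero fun i hi => h i hi γ hγ

/-- the coefficient of a product of series in separate variables -/
theorem coeff_mul_sep {S : σ → Prop} {u v : MvPowerSeries σ R} (hu : In S u)
    (hv : In (fun j => ¬ S j) v) {γ δ : σ →₀ ℕ} (hγ : Sup S γ) (hδ : Sup (fun j => ¬ S j) δ) :
    MvPowerSeries.coeff (γ + δ) (u * v) = MvPowerSeries.coeff γ u * MvPowerSeries.coeff δ v := by
  classical
  rw [MvPowerSeries.coeff_mul, Finset.sum_eq_single (γ, δ)]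
  · intro p hp hne
    have h := Finset.HasAntidiagonal.mem_antidiagonal.mp hp
    by_cases h1 : Sup S p.1
    · by_cases h2 : Sup (fun j => ¬ S j) p.2
      · exfalso
        apply hne
        have key : ∀ j, p.1 j = γ j ∧ p.2 j = δ j := by
          intro j
          have hj := DFunLike.congr_fun h j
          rw [Finsupp.add_apply, Finsupp.add_apply] at hj
          by_cases hS : S j
          · have e1 : p.2 j = 0 := by
              by_contra hc
              exact h2 j hc hS
            have e2 : δ j = 0 := by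
              by_contra hc
              exact hδ j hc hS
            omega
          · have e1 : p.1 j = 0 := by
              by_contra hc
              exact hS (h1 j hc)
            have e2 : γ j = 0 := by
              by_contra hc
              exact hS (hγ j hc)
            omega
        refine Prod.ext (Finsupp.ext fun j => (key j).1) (Finsupp.ext fun j => (key j).2)
      · rw [hv _ h2, mul_zero]
    · rw [hu _ h1, zero_mul]
  · intro h
    exact (h (Finset.HasAntidiagonal.mem_antidiagonal.mpr rfl)).elim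

/-- a relation between products of series in separate variables holds coefficientwise -/
theorem sep {S : σ → Prop} {ι : Type} (s : Finset ι) (u v : ι → MvPowerSeries σ R)
    (hu : ∀ i ∈ s, In S (u i)) (hv : ∀ i ∈ s, In (fun j => ¬ S j) (v i))
    (h : ∑ i ∈ s, u i * v i = 0) (γ : σ →₀ ℕ) :
    ∑ i ∈ s, MvPowerSeries.C (MvPowerSeries.coeff γ (u i)) * v i = 0 := by
  classical
  by_cases hγ : Sup S γ
  · ext δ
    rw [map_sum, map_zero]
    by_cases hδ : Sup (fun j => ¬ S j) δ
    · have h1 := congrArg (MvPowerSeries.coeff (γ + δ)) h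
      rw [map_sum, map_zero] at h1
      rw [← h1]
      refine Finset.sum_congr rfl fun i hi => ?_
      rw [coeff_mul_sep (hu i hi) (hv i hi) hγ hδ, MvPowerSeries.coeff_C_mul]
    · refine Finset.sum_eq_zero fun i hi => ?_
      rw [MvPowerSeries.coeff_C_mul, hv i hi δ hδ, mul_zero]
  · refine Finset.sum_eq_zero fun i hi => ?_
    rw [hu i hi γ hγ, map_zero, zero_mul]

end kl

theorem In.inv {σ K : Type} [Field K] {S : σ → Prop} {f : MvPowerSeries σ K} (hf : In S f)
    (h0 : MvPowerSeries.constantCoeff f ≠ 0) : In S f⁻¹ := by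
  rw [in_iff]
  have h1 : f * f⁻¹ = 1 := MvPowerSeries.mul_inv_cancel f h0
  have h2 : f * kl S f⁻¹ = 1 := by
    have h3 := congrArg (kl S) h1
    rw [kl_mul, kl_one, in_iff.mp hf] at h3
    exact h3
  calc kl S f⁻¹ = (f⁻¹ * f) * kl S f⁻¹ := by
        rw [MvPowerSeries.inv_mul_cancel f h0, one_mul]
    _ = f⁻¹ * (f * kl S f⁻¹) := mul_assoc _ _ _
    _ = f⁻¹ := by rw [h2, mul_one]

end J

end Pool.Agent.ZP
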