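import Pool.Agent.Lib.MP_c95b3b_ag_ZP.JB

set_option autoImplicit false

/-! Project ZP (MP_c95b3b_ag), block J: the terms of smallest order of a relation whose
coefficients are power series in the variables of the block `0`. -/

namespace Pool.Agent.ZP

open MvPolynomial Filter Topology Module Pool.Agent.L3 Pool.Agent.SD Pool.Agent.AL

namespace J

section
variable {L : Type} [Field L] [Algebra ℂ L] {n t : ℕ} {x : Fin n → L}
  {A : (Fin n → ℤ) →+ (Fin t → ℤ)} {M : Matrix (Fin t) (Fin t) ℤ} {c : (Fin n → ℤ) → ℂ}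

/-- the leading terms of a relation between indexed monomials -/
theorem lpr_index (h : LPr x A M c) {ι : Type} (s : Finset ι) (ex : ι → Fin n → ℤ) (m : ι → ℂ)
    (a0 : Fin n → ℤ) (hrel : ∑ i ∈ s, algebraMap ℂ L (m i) * mn x (ex i) = 0)
    (hmin : ∀ i ∈ s, toLex (M.mulVec (A a0)) ≤ toLex (M.mulVec (A (ex i)))) :
    ∑ i ∈ s with A (ex i) = A a0, m i * c (ex i - a0) = 0 := by
  classical
  have h1 := h.2.2.2 (s.image ex) (fun b => ∑ i ∈ s with ex i = b, m i) a0 ?_ ?_
  · rw [← h1]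
    rw [← Finset.sum_fiberwise_of_maps_to (s := s.filter fun i => A (ex i) = A a0)
      (t := (s.image ex).filter fun b => A b = A a0) (g := ex)]
    · refine Finset.sum_congr rfl fun b hb => ?_
      rw [Finset.sum_mul]
      refine Finset.sum_congr ?_ fun i hi => ?_
      · ext i
        simp only [Finset.mem_filter]
        constructor
        · rintro ⟨⟨h2, _⟩, h3⟩
          exact ⟨h2, h3⟩
        · rintro ⟨h2, h3⟩
          refine ⟨⟨h2, ?_⟩, h3⟩
          rw [h3]
          exact (Finset.mem_filter.mp hb).2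
      · rw [(Finset.mem_filter.mp hi).2]
    · intro i hi
      rw [Finset.mem_filter] at hi ⊢
      exact ⟨Finset.mem_image_of_mem ex hi.1, hi.2⟩
  · rw [← hrel, ← Finset.sum_fiberwise_of_maps_to (s := s) (t := s.image ex) (g := ex)
      (fun i hi => Finset.mem_image_of_mem ex hi)]
    refine Finset.sum_congr rfl fun b _ => ?_
    rw [map_sum, Finset.sum_mul]
    refine Finset.sum_congr rfl fun i hi => ?_
    rw [(Finset.mem_filter.mp hi).2]
  · intro b hb
    obtain ⟨i, hi, rfl⟩ := Finset.mem_image.mp hb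
    exact hmin i hi

end

/-- the part of `a` outside the block `0` -/
def po {n q : ℕ} (blk : Fin n → Fin (q + 1)) (a : Fin n → ℤ) : Fin n → ℤ := a - pj blk 0 a

theorem po_add {n q : ℕ} (blk : Fin n → Fin (q + 1)) (a b : Fin n → ℤ) :
    po blk (a + b) = po blk a + po blk b := by
  funext i
  simp only [po, pj, Pi.sub_apply, Pi.add_apply]
  split_ifs <;> ring

theorem pj_add {n q : ℕ} (blk : Fin n → Fin (q + 1)) (j : Fin (q + 1)) (a b : Fin n → ℤ) :
    pj blk j (a + b) = pj blk j a + pj blk j b := by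
  funext i
  simp only [pj, Pi.add_apply]
  split_ifs <;> ring

theorem pj_add_po {n q : ℕ} (blk : Fin n → Fin (q + 1)) (a : Fin n → ℤ) :
    pj blk 0 a + po blk a = a := by
  unfold po
  abel

theorem algebraMap_FC {n : ℕ} (r : ℂ) : algebraMap ℂ (FC n) r =
    algebraMap (MvPowerSeries (Fin n) ℂ) (FC n) (MvPowerSeries.C r) := by
  rw [IsScalarTower.algebraMap_apply ℂ (MvPowerSeries (Fin n) ℂ) (FC n)]
  rfl

/-- Leading terms of a relation with coefficients in the variables of the block `0`. -/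
theorem rel_zero {n q t : ℕ} {blk : Fin n → Fin (q + 1)} {Ξ : Fin n → MvPowerSeries (Fin n) ℂ}
    (hΞ : Sepd blk Ξ) {A : (Fin n → ℤ) →+ (Fin t → ℤ)} {M : Matrix (Fin t) (Fin t) ℤ}
    {c : (Fin n → ℤ) → ℂ}
    (hL : LPr (fun i => algebraMap (MvPowerSeries (Fin n) ℂ) (FC n) (Ξ i)) A M c)
    {ι : Type} (s : Finset ι) (ex : ι → Fin n → ℤ) (w : ι → MvPowerSeries (Fin n) ℂ)
    (hw : ∀ i ∈ s, In (fun j => blk j = 0) (w i)) (hrel : ∑ i ∈ s, w i * psm Ξ (ex i) = 0)
    (a0 : Fin n → ℤ)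
    (hmin : ∀ i ∈ s, toLex (M.mulVec (A (po blk a0))) ≤ toLex (M.mulVec (A (po blk (ex i))))) :
    ∑ i ∈ s with A (po blk (ex i)) = A (po blk a0),
      w i * psm Ξ (pj blk 0 (ex i)) * MvPowerSeries.C (c (po blk (ex i) - po blk a0)) = 0 := by
  classical
  have h1 : ∑ i ∈ s, (w i * psm Ξ (pj blk 0 (ex i))) * psm Ξ (po blk (ex i)) = 0 := by
    rw [← hrel]
    refine Finset.sum_congr rfl fun i _ => ?_
    rw [mul_assoc, ← psm_add Ξ hΞ.1, pj_add_po]
  have h2 := sep s _ _ (fun i hi => (hw i hi).mul (in_psm_zero hΞ (ex i)))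
    (fun i _ => in_psm_pos hΞ (ex i)) h1
  ext γ
  rw [map_sum, map_zero]
  have h3 := h2 γ
  have h4 := lpr_index hL s (fun i => po blk (ex i))
    (fun i => MvPowerSeries.coeff γ (w i * psm Ξ (pj blk 0 (ex i)))) (po blk a0) ?_ hmin
  · rw [← h4]
    refine Finset.sum_congr rfl fun i _ => ?_
    rw [MvPowerSeries.coeff_mul_C]
  · have h5 := congrArg (algebraMap (MvPowerSeries (Fin n) ℂ) (FC n)) h3
    rw [map_sum, map_zero] at h5
    rw [← h5]
    refine Finset.sum_congr rfl fun i _ => ?_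
    rw [(algebraMap (MvPowerSeries (Fin n) ℂ) (FC n)).map_mul, algebraMap_FC,
      algebraMap_psm Ξ hΞ.1]
    rfl

/-- Laurent relations between the coordinates of `x` with polynomial coefficients hold at the
points `z` of the closure of `x`. -/
theorem transfer {B F : Type} [Fintype B] [Field F] [Algebra ℂ F] (x : B → F)
    (hx : ∀ l, x l ≠ 0) (z : B → ℂ) (hz : ∀ l, z l ≠ 0)
    (hV : ∀ P : MvPolynomial B ℂ, aeval x P = 0 → eval z P = 0) {ι : Type} (s : Finset ι)
    (b : ι → B → ℤ) (Q : ι → MvPolynomial B ℂ)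
    (h : ∑ i ∈ s, aeval x (Q i) * ∏ l, x l ^ b i l = 0) :
    ∑ i ∈ s, eval z (Q i) * ∏ l, z l ^ b i l = 0 := by
  classical
  obtain ⟨E, hE⟩ : ∃ E : ℕ, ∀ i ∈ s, ∀ l, 0 ≤ (E : ℤ) + b i l := by
    refine ⟨∑ i ∈ s, ∑ l, (b i l).natAbs, fun i hi l => ?_⟩
    have h1 : (b i l).natAbs ≤ ∑ l, (b i l).natAbs :=
      Finset.single_le_sum (f := fun l => (b i l).natAbs) (fun _ _ => Nat.zero_le _)
        (Finset.mem_univ l)
    have h2 : ∑ l, (b i l).natAbs ≤ ∑ i ∈ s, ∑ l, (b i l).natAbs :=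
      Finset.single_le_sum (f := fun i => ∑ l, (b i l).natAbs) (fun _ _ => Nat.zero_le _) hi
    have h3 : (b i l).natAbs ≤ ∑ i ∈ s, ∑ l, (b i l).natAbs := h1.trans h2
    omega
  set P : MvPolynomial B ℂ := ∑ i ∈ s, Q i * ∏ l, X l ^ ((E : ℤ) + b i l).toNat with hP
  have key : ∀ (G : Type) [Field G] (y : B → G), (∀ l, y l ≠ 0) → ∀ i ∈ s,
      ∏ l, y l ^ ((E : ℤ) + b i l).toNat = (∏ l, y l ^ E) * ∏ l, y l ^ b i l := by
    intro G _ y hy i hi
    rw [← Finset.prod_mul_distrib]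
    refine Finset.prod_congr rfl fun l _ => ?_
    rw [← zpow_natCast, ← zpow_natCast, Int.toNat_of_nonneg (hE i hi l), zpow_add₀ (hy l)]
  have h1 : aeval x P = 0 := by
    rw [hP, map_sum]
    have h2 : ∑ i ∈ s, aeval x (Q i * ∏ l, X l ^ ((E : ℤ) + b i l).toNat) =
        (∏ l, x l ^ E) * ∑ i ∈ s, aeval x (Q i) * ∏ l, x l ^ b i l := by
      rw [Finset.mul_sum]
      refine Finset.sum_congr rfl fun i hi => ?_
      rw [map_mul, map_prod]
      have h3 : ∏ l, aeval x ((X l : MvPolynomial B ℂ) ^ ((E : ℤ) + b i l).toNat) =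
          ∏ l, x l ^ ((E : ℤ) + b i l).toNat :=
        Finset.prod_congr rfl fun l _ => by rw [map_pow, aeval_X]
      rw [h3, key F x hx i hi]
      ring
    rw [h2, h, mul_zero]
  have h2 := hV P h1
  rw [hP, map_sum] at h2
  have h3 : ∑ i ∈ s, eval z (Q i * ∏ l, X l ^ ((E : ℤ) + b i l).toNat) =
      (∏ l, z l ^ E) * ∑ i ∈ s, eval z (Q i) * ∏ l, z l ^ b i l := by
    rw [Finset.mul_sum]
    refine Finset.sum_congr rfl fun i hi => ?_
    rw [map_mul, map_prod]
    have h3 : ∏ l, eval z ((X l : MvPolynomial B ℂ) ^ ((E : ℤ) + b i l).toNat) =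
        ∏ l, z l ^ ((E : ℤ) + b i l).toNat :=
      Finset.prod_congr rfl fun l _ => by rw [map_pow, eval_X]
    rw [h3, key ℂ z hz i hi]
    ring
  rw [h3] at h2
  exact (mul_eq_zero.mp h2).resolve_left
    (Finset.prod_ne_zero_iff.mpr fun l _ => pow_ne_zero _ (hz l))

end J

end Pool.Agent.ZP
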