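import Pool.Agent.Lib.MP_c95b3b_ag_ZP.JC

set_option autoImplicit false

/-! Project ZP (MP_c95b3b_ag), block J: the lattice of the relations contains no small vectors. -/

namespace Pool.Agent.ZP

open MvPolynomial Filter Topology Module Pool.Agent.L3 Pool.Agent.SD Pool.Agent.AL

namespace J

section chr
variable {L : Type} [Field L] [Algebra ℂ L] {n t : ℕ} {x : Fin n → L}
  {A : (Fin n → ℤ) →+ (Fin t → ℤ)} {M : Matrix (Fin t) (Fin t) ℤ} {c : (Fin n → ℤ) → ℂ}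

theorem c_zero (h : LPr x A M c) : c 0 = 1 := by
  have h1 := h.2.2.1 0 0 (map_zero A) (map_zero A)
  have h2 := h.2.1 0 (map_zero A)
  rw [add_zero] at h1
  exact (mul_left_cancel₀ h2 (by rw [← h1, mul_one]))

theorem c_nsmul (h : LPr x A M c) {a : Fin n → ℤ} (ha : A a = 0) (k : ℕ) :
    A ((k : ℤ) • a) = 0 ∧ c ((k : ℤ) • a) = c a ^ k := by
  induction k with
  | zero =>
    rw [Nat.cast_zero, zero_smul, pow_zero]
    exact ⟨map_zero A, c_zero h⟩
  | succ k ih =>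
    have h1 : ((k + 1 : ℕ) : ℤ) • a = (k : ℤ) • a + a := by
      rw [Nat.cast_succ, add_smul, one_smul]
    rw [h1, map_add, ih.1, ha, add_zero, h.2.2.1 _ _ ih.1 ha, ih.2, pow_succ]
    exact ⟨rfl, rfl⟩

theorem c_sum (h : LPr x A M c) {ι : Type} (s : Finset ι) (a : ι → Fin n → ℤ)
    (ha : ∀ i ∈ s, A (a i) = 0) : A (∑ i ∈ s, a i) = 0 ∧ c (∑ i ∈ s, a i) = ∏ i ∈ s, c (a i) := by
  classical
  induction s using Finset.induction_on with
  | empty =>
    rw [Finset.sum_empty, Finset.prod_empty]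
    exact ⟨map_zero A, c_zero h⟩
  | insert i s hi ih =>
    have h1 := ih fun j hj => ha j (Finset.mem_insert_of_mem hj)
    have h2 := ha i (Finset.mem_insert_self i s)
    rw [Finset.sum_insert hi, Finset.prod_insert hi, map_add, h2, h1.1, add_zero,
      h.2.2.1 _ _ h2 h1.1, h1.2]
    exact ⟨rfl, rfl⟩

end chr

/-- the exponent `e a0 + ∑ β i a i` -/
def ex0 {n d N : ℕ} (a0 : Fin n → ℤ) (a : Fin d → Fin n → ℤ) (e : Fin (N + 1))
    (β : Fin d → Fin (N + 1)) : Fin n → ℤ :=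
  ((e : ℕ) : ℤ) • a0 + ∑ i, ((β i : ℕ) : ℤ) • a i

/-- the linear polynomial `s0 + ∑ s l X l` -/
noncomputable def ta {R : Type} [CommRing R] {m : ℕ} (s0 : ℕ) (s : Fin m → ℕ) (x : Fin m → R) : R :=
  (s0 : R) + ∑ l, (s l : R) * x l

theorem map_ta {R R' : Type} [CommRing R] [CommRing R'] (f : R →+* R') {m : ℕ} (s0 : ℕ)
    (s : Fin m → ℕ) (x : Fin m → R) : f (ta s0 s x) = ta s0 s (fun l => f (x l)) := by
  unfold ta
  rw [map_add, map_natCast, map_sum]
  congr 1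
  exact Finset.sum_congr rfl fun l _ => by rw [map_mul, map_natCast]

theorem po_ex0 {n q d N : ℕ} (blk : Fin n → Fin (q + 1)) (a0 : Fin n → ℤ)
    (a : Fin d → Fin n → ℤ) (e : Fin (N + 1)) (β : Fin d → Fin (N + 1)) :
    po blk (ex0 a0 a e β) = ex0 (po blk a0) (fun i => po blk (a i)) e β := by
  funext j
  simp only [ex0, po, pj, Pi.sub_apply, Pi.add_apply, Pi.smul_apply, Finset.sum_apply,
    smul_eq_mul]
  by_cases h : blk j = 0
  · simp [h]
  · simp [h]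

theorem A_ex0 {L : Type} [Field L] [Algebra ℂ L] {n t d N : ℕ} {x : Fin n → L}
    {A : (Fin n → ℤ) →+ (Fin t → ℤ)} {M : Matrix (Fin t) (Fin t) ℤ} {c : (Fin n → ℤ) → ℂ}
    (h : LPr x A M c) (a0 : Fin n → ℤ) (a : Fin d → Fin n → ℤ) (ha0 : A a0 = 0)
    (ha : ∀ i, A (a i) = 0) (e : Fin (N + 1)) (β : Fin d → Fin (N + 1)) :
    A (ex0 a0 a e β) = 0 ∧ c (ex0 a0 a e β) = c a0 ^ (e : ℕ) * ∏ i, c (a i) ^ (β i : ℕ) := by
  have h1 := c_nsmul h ha0 (e : ℕ)
  have h2 := c_sum h Finset.univ (fun i => ((β i : ℕ) : ℤ) • a i)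
    (fun i _ => (c_nsmul h (ha i) (β i : ℕ)).1)
  unfold ex0
  rw [map_add, h1.1, h2.1, add_zero, h.2.2.1 _ _ h1.1 h2.1, h1.2, h2.2]
  refine ⟨rfl, ?_⟩
  congr 1
  exact Finset.prod_congr rfl fun i _ => (c_nsmul h (ha i) (β i : ℕ)).2

theorem mn_pj {F : Type} [Field F] {n q m : ℕ} {blk : Fin n → Fin (q + 1)} (e : Fin m ≃ B0 blk)
    (x : Fin n → F) (a : Fin n → ℤ) : mn x (pj blk 0 a) = ∏ l, x (e l) ^ a (e l) := by
  classical
  have h1 : mn x (pj blk 0 a) = ∏ i : Fin n with blk i = 0, x i ^ a i := by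
    rw [Finset.prod_filter]
    refine Finset.prod_congr rfl fun i _ => ?_
    unfold pj
    split_ifs
    · rfl
    · exact zpow_zero _
  rw [h1, ← Equiv.prod_comp e.symm]
  simp only [Equiv.apply_symm_apply]
  exact (Finset.prod_subtype (Finset.univ.filter fun i => blk i = 0) (p := fun i => blk i = 0)
    (fun i => by simp) (fun i => x i ^ a i))

theorem zpow_sum {F ι : Type} [Field F] {z : F} (hz : z ≠ 0) (s : Finset ι) (f : ι → ℤ) :
    z ^ (∑ i ∈ s, f i) = ∏ i ∈ s, z ^ f i := by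
  classical
  induction s using Finset.induction_on with
  | empty => rw [Finset.sum_empty, Finset.prod_empty, zpow_zero]
  | insert i s hi ih => rw [Finset.sum_insert hi, Finset.prod_insert hi, zpow_add₀ hz, ih]

theorem prod_zpow_ex0 {F B : Type} [Field F] [Fintype B] {n d N : ℕ} (z : B → F)
    (hz : ∀ l, z l ≠ 0) (p : B → Fin n) (θ a0 : Fin n → ℤ) (a : Fin d → Fin n → ℤ)
    (e : Fin (N + 1)) (β : Fin d → Fin (N + 1)) :
    ∏ l, z l ^ (θ + ex0 a0 a e β) (p l) = (∏ l, z l ^ θ (p l)) *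
      ((∏ l, z l ^ a0 (p l)) ^ (e : ℕ) * ∏ i, (∏ l, z l ^ a i (p l)) ^ (β i : ℕ)) := by
  rw [← Finset.prod_pow]
  have h1 : ∀ i, (∏ l, z l ^ a i (p l)) ^ (β i : ℕ) = ∏ l, (z l ^ a i (p l)) ^ (β i : ℕ) :=
    fun i => (Finset.prod_pow _ _ _).symm
  simp only [h1]
  rw [Finset.prod_comm, ← Finset.prod_mul_distrib, ← Finset.prod_mul_distrib]
  refine Finset.prod_congr rfl fun l _ => ?_
  simp only [ex0, Pi.add_apply, Pi.smul_apply, Finset.sum_apply, smul_eq_mul]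
  rw [zpow_add₀ (hz l), zpow_add₀ (hz l), mul_comm ((e : ℕ) : ℤ), zpow_mul, zpow_natCast]
  congr 2
  rw [zpow_sum (hz l)]
  refine Finset.prod_congr rfl fun i _ => ?_
  rw [mul_comm ((β i : ℕ) : ℤ), zpow_mul, zpow_natCast]

/-- **No small relations.** -/
theorem no_small_vec {n q t m d N : ℕ} {blk : Fin n → Fin (q + 1)}
    {Ξ : Fin n → MvPowerSeries (Fin n) ℂ} (hΞ : Sepd blk Ξ) {A : (Fin n → ℤ) →+ (Fin t → ℤ)}
    {M : Matrix (Fin t) (Fin t) ℤ} {c : (Fin n → ℤ) → ℂ}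
    (hL : LPr (fun i => algebraMap (MvPowerSeries (Fin n) ℂ) (FC n) (Ξ i)) A M c)
    (eq : Fin m ≃ B0 blk) {κ : Type} [Fintype κ] (θ : κ → Fin n → ℤ)
    (hθ : Function.Injective (fun k => A (po blk (θ k)))) (a0 : Fin n → ℤ)
    (a : Fin d → Fin n → ℤ) (ha0 : A (po blk a0) = 0) (ha : ∀ i, A (po blk (a i)) = 0)
    (s0 : ℕ) (s : Fin m → ℕ) (Z : Set (Fin m → ℂ)) (hZ0 : ∀ z ∈ Z, ∀ l, z l ≠ 0)
    (hZ : ∀ z ∈ Z, ∀ P : MvPolynomial (Fin m) ℂ,
      aeval (fun l => algebraMap (MvPowerSeries (Fin n) ℂ) (FC n) (Ξ (eq l))) P = 0 →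
        eval z P = 0) (Bd : ℝ)
    (hNS : ∀ F : Fin (N + 1) → (Fin d → Fin (N + 1)) → ℤ,
      (∀ z ∈ Z, ∑ e, ∑ β, (F e β : ℂ) *
        ((∏ i, (c (po blk (a i)) * ∏ l, z l ^ a i (eq l)) ^ (β i : ℕ)) *
          (c (po blk a0) * (∏ l, z l ^ a0 (eq l)) * ta s0 s z) ^ (e : ℕ)) = 0) →
      ∑ e, ∑ β, |(F e β : ℝ)| < Bd → F = 0)
    (F : κ → Fin (N + 1) → (Fin d → Fin (N + 1)) → ℤ)
    (hF : ∀ k, ∑ e, ∑ β, |(F k e β : ℝ)| < Bd)
    (hrel : ∑ k, ∑ e, ∑ β, (F k e β : MvPowerSeries (Fin n) ℂ) *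
      (psm Ξ (θ k + ex0 a0 a e β) * ta s0 s (fun l => Ξ (eq l)) ^ (e : ℕ)) = 0) : F = 0 := by
  classical
  by_contra hne
  obtain ⟨k1, hk1⟩ := Function.ne_iff.mp hne
  obtain ⟨k0, hk0, hmin⟩ := Finset.exists_min_image (Finset.univ.filter fun k => F k ≠ 0)
    (fun k => toLex (M.mulVec (A (po blk (θ k))))) ⟨k1, by simpa using hk1⟩
  have hk0' : F k0 ≠ 0 := (Finset.mem_filter.mp hk0).2
  apply hk0'
  refine hNS (F k0) ?_ (hF k0)
  intro z hz
  set ι : Type := κ × Fin (N + 1) × (Fin d → Fin (N + 1)) with hι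
  set S : Finset ι := Finset.univ.filter (fun i => F i.1 ≠ 0) with hS
  set τ : MvPowerSeries (Fin n) ℂ := ta s0 s (fun l => Ξ (eq l)) with hτ
  have hτin : In (fun j => blk j = 0) τ := by
    rw [hτ, ta]
    refine In.add ?_ (In.sum _ _ fun l _ => In.mul ?_ ?_)
    · rw [← map_natCast (MvPowerSeries.C (σ := Fin n) (R := ℂ))]
      exact In.C _
    · rw [← map_natCast (MvPowerSeries.C (σ := Fin n) (R := ℂ))]
      exact In.C _
    · refine hΞ.in_blk _ _ fun j hj => ?_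
      rw [hj]
      exact (eq l).2
  have hAex : ∀ i : ι, A (po blk (θ i.1 + ex0 a0 a i.2.1 i.2.2)) = A (po blk (θ i.1)) := by
    intro i
    rw [po_add, map_add, po_ex0, (A_ex0 hL _ _ ha0 ha _ _).1, add_zero]
  have h1 := rel_zero hΞ hL S (fun i => θ i.1 + ex0 a0 a i.2.1 i.2.2)
    (fun i => (F i.1 i.2.1 i.2.2 : MvPowerSeries (Fin n) ℂ) * τ ^ (i.2.1 : ℕ)) ?_ ?_ (θ k0) ?_
  · -- the relation of the leading terms
    have h2 : (S.filter fun i => A (po blk (θ i.1 + ex0 a0 a i.2.1 i.2.2)) =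
        A (po blk (θ k0))) = (Finset.univ : Finset (Fin (N + 1) × (Fin d → Fin (N + 1)))).map
          ⟨fun p => (k0, p), fun p p' h => (Prod.ext_iff.mp h).2⟩ := by
      ext i
      simp only [Finset.mem_filter, Finset.mem_map, Finset.mem_univ, true_and, hS]
      constructor
      · rintro ⟨_, h3⟩
        rw [hAex] at h3
        exact ⟨i.2, Prod.ext (hθ h3).symm rfl⟩
      · rintro ⟨p, rfl⟩
        exact ⟨hk0', by rw [hAex]; rfl⟩
    rw [h2, Finset.sum_map] at h1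
    have h1 : ∑ p : Fin (N + 1) × (Fin d → Fin (N + 1)),
        (F k0 p.1 p.2 : MvPowerSeries (Fin n) ℂ) * τ ^ (p.1 : ℕ) *
          psm Ξ (pj blk 0 (θ k0 + ex0 a0 a p.1 p.2)) *
          MvPowerSeries.C (c (po blk (θ k0 + ex0 a0 a p.1 p.2) - po blk (θ k0))) = 0 := h1
    -- the coefficients
    have h3 : ∀ p : Fin (N + 1) × (Fin d → Fin (N + 1)),
        c (po blk (θ k0 + ex0 a0 a p.1 p.2) - po blk (θ k0)) =
          c (po blk a0) ^ (p.1 : ℕ) * ∏ i, c (po blk (a i)) ^ (p.2 i : ℕ) := by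
      intro p
      rw [po_add, add_sub_cancel_left, po_ex0, (A_ex0 hL _ _ ha0 ha _ _).2]
    simp only [h3] at h1
    have h4 := congrArg (algebraMap (MvPowerSeries (Fin n) ℂ) (FC n)) h1
    rw [map_sum, map_zero] at h4
    set x : Fin m → FC n := fun l => algebraMap (MvPowerSeries (Fin n) ℂ) (FC n) (Ξ (eq l))
      with hx
    have hx0 : ∀ l, x l ≠ 0 := by
      intro l
      rw [hx]
      refine (map_ne_zero_iff _ (IsFractionRing.injective (MvPowerSeries (Fin n) ℂ)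
        (FC n))).mpr ?_
      intro h
      apply hΞ.1 (eq l)
      rw [h, map_zero]
    have h5 := transfer x hx0 z (hZ0 z hz) (hZ z hz) Finset.univ
      (fun p : Fin (N + 1) × (Fin d → Fin (N + 1)) => fun l =>
        (θ k0 + ex0 a0 a p.1 p.2) (eq l))
      (fun p => C ((F k0 p.1 p.2 : ℂ) * (c (po blk a0) ^ (p.1 : ℕ) *
        ∏ i, c (po blk (a i)) ^ (p.2 i : ℕ))) *
        (ta s0 s (fun l => X l)) ^ (p.1 : ℕ)) ?_
    · -- divide by the common factor
      have h6 : ∀ p : Fin (N + 1) × (Fin d → Fin (N + 1)),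
          eval z (C ((F k0 p.1 p.2 : ℂ) * (c (po blk a0) ^ (p.1 : ℕ) *
            ∏ i, c (po blk (a i)) ^ (p.2 i : ℕ))) *
            (ta s0 s (fun l => X l)) ^ (p.1 : ℕ)) *
            ∏ l, z l ^ (θ k0 + ex0 a0 a p.1 p.2) (eq l) =
          (∏ l, z l ^ θ k0 (eq l)) * ((F k0 p.1 p.2 : ℂ) *
            ((∏ i, (c (po blk (a i)) * ∏ l, z l ^ a i (eq l)) ^ (p.2 i : ℕ)) *
              (c (po blk a0) * (∏ l, z l ^ a0 (eq l)) * ta s0 s z) ^ (p.1 : ℕ))) := by
        intro p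
        rw [prod_zpow_ex0 z (hZ0 z hz) (fun l => (eq l : Fin n)) (θ k0) a0 a p.1 p.2, map_mul,
          map_pow, map_ta, eval_C]
        simp only [eval_X, mul_pow, Finset.prod_mul_distrib]
        ring
      simp only [h6] at h5
      rw [← Finset.mul_sum] at h5
      have h7 := (mul_eq_zero.mp h5).resolve_left
        (Finset.prod_ne_zero_iff.mpr fun l _ => zpow_ne_zero _ (hZ0 z hz l))
      rw [← h7, Fintype.sum_prod_type]
    · rw [← h4]
      refine Finset.sum_congr rfl fun p _ => ?_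
      have e1 : aeval x (ta s0 s fun l => (X l : MvPolynomial (Fin m) ℂ)) = ta s0 s x := by
        unfold ta
        simp
      have e2 : algebraMap (MvPowerSeries (Fin n) ℂ) (FC n) τ = ta s0 s x := by
        rw [hτ, map_ta]
      have e3 : ∀ r : ℂ, aeval x (C r : MvPolynomial (Fin m) ℂ) =
          algebraMap (MvPowerSeries (Fin n) ℂ) (FC n) (MvPowerSeries.C r) := fun r => by
        rw [aeval_C, algebraMap_FC]
      have e4 : algebraMap (MvPowerSeries (Fin n) ℂ) (FC n)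
          ((F k0 p.1 p.2 : MvPowerSeries (Fin n) ℂ) * τ ^ (p.1 : ℕ) *
            psm Ξ (pj blk 0 (θ k0 + ex0 a0 a p.1 p.2)) *
            MvPowerSeries.C (c (po blk a0) ^ (p.1 : ℕ) * ∏ i, c (po blk (a i)) ^ (p.2 i : ℕ))) =
          algebraMap (MvPowerSeries (Fin n) ℂ) (FC n) (MvPowerSeries.C (F k0 p.1 p.2 : ℂ)) *
            ta s0 s x ^ (p.1 : ℕ) * (∏ l, x l ^ (θ k0 + ex0 a0 a p.1 p.2) (eq l)) *
            algebraMap (MvPowerSeries (Fin n) ℂ) (FC n) (MvPowerSeries.C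
              (c (po blk a0) ^ (p.1 : ℕ) * ∏ i, c (po blk (a i)) ^ (p.2 i : ℕ))) := by
        rw [RingHom.map_mul, RingHom.map_mul, RingHom.map_mul, RingHom.map_pow, e2,
          algebraMap_psm Ξ hΞ.1, mn_pj eq, map_intCast, map_intCast, map_intCast]
      rw [e4, map_mul (aeval x), map_pow (aeval x), e1, e3, RingHom.map_mul, RingHom.map_mul]
      ring
  · intro i _
    refine In.mul ?_ (hτin.pow _)
    rw [← map_intCast (MvPowerSeries.C (σ := Fin n) (R := ℂ))]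
    exact In.C _
  · have h0 : ∑ i : ι, (F i.1 i.2.1 i.2.2 : MvPowerSeries (Fin n) ℂ) *
        (psm Ξ (θ i.1 + ex0 a0 a i.2.1 i.2.2) * τ ^ (i.2.1 : ℕ)) = 0 := by
      rw [← hrel, Fintype.sum_prod_type]
      exact Finset.sum_congr rfl fun k _ => by rw [Fintype.sum_prod_type]
    rw [← h0]
    rw [← Finset.sum_subset (Finset.subset_univ S)]
    · exact Finset.sum_congr rfl fun i _ => by ring
    · intro i _ hi
      have h3 : F i.1 = 0 := by
        by_contra hc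
        exact hi (by rw [hS]; exact Finset.mem_filter.mpr ⟨Finset.mem_univ _, hc⟩)
      rw [h3]
      simp
  · intro i hi
    rw [hAex]
    exact hmin i.1 (by simpa [hS] using hi)

end J

end Pool.Agent.ZP
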