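import Pool.Agent.Lib.MP_c95b3b_ag_ZP.JD
import Pool.Agent.Lib.MP_c95b3b_ag_B5.NSR
import Pool.Agent.Lib.MP_c95b3b_ag_ZB.NoSmall

set_option autoImplicit false

/-! Project ZP (MP_c95b3b_ag), block J: the choice of the factor `τ` (from the sheets). -/

namespace Pool.Agent.ZP

open MvPolynomial Filter Topology Module Pool.Agent.L3 Pool.Agent.SD Pool.Agent.AL

namespace J

theorem ns_of_sheets {m d N k : ℕ} (η0 : (Fin m → ℂ) → ℂ) (η : Fin d → (Fin m → ℂ) → ℂ)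
    (Z : Set (Fin m → ℂ)) (B Λ : ℝ) (hB : 0 ≤ B) (hΛ : 0 ≤ Λ)
    (hZ : ∀ ζ : Fin d → ℂ, (∀ i, ζ i ^ (N + 1) = 1) → ∃ Q : Finset (Fin m → ℂ), k ≤ Q.card ∧
      ∀ z ∈ Q, z ∈ Z ∧ (∀ l, ‖z l‖ ≤ B) ∧ (∀ i, η i z = ζ i) ∧ Real.exp Λ ≤ ‖η0 z‖) :
    ∃ (s0 : ℕ) (s : Fin m → ℕ),
      ((s0 : ℝ) + ∑ l, (s l : ℝ)) ≤ (m * (B + 1) + 2) * ((N + 1) ^ d * k ^ 2 + 1) ∧ 1 ≤ s0 ∧
      ∀ F : Fin (N + 1) → (Fin d → Fin (N + 1)) → ℤ,
        (∀ z ∈ Z, ∑ e, ∑ β, (F e β : ℂ) *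
          ((∏ i, η i z ^ (β i : ℕ)) * (η0 z * ta s0 s z) ^ (e : ℕ)) = 0) →
        ∑ e, ∑ β, |(F e β : ℝ)| < Real.exp (Λ * k) → F = 0 := by
  classical
  set ω : ℂ := Complex.exp (2 * Real.pi * Complex.I / ((N + 1 : ℕ) : ℂ)) with hωdef
  have hω : IsPrimitiveRoot ω (N + 1) := Complex.isPrimitiveRoot_exp (N + 1) (Nat.succ_ne_zero N)
  set gr : (Fin d → Fin (N + 1)) → Fin d → ℂ := fun g i => ω ^ (g i : ℕ) with hgr
  have hgr1 : ∀ g i, gr g i ^ (N + 1) = 1 := by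
    intro g i
    simp only [hgr]
    rw [← pow_mul, mul_comm, pow_mul, hω.pow_eq_one, one_pow]
  have hQ : ∀ g, ∃ Q : Finset (Fin m → ℂ), Q.card = k ∧
      ∀ z ∈ Q, z ∈ Z ∧ (∀ l, ‖z l‖ ≤ B) ∧ (∀ i, η i z = gr g i) ∧ Real.exp Λ ≤ ‖η0 z‖ := by
    intro g
    obtain ⟨Q, h1, h2⟩ := hZ (gr g) (hgr1 g)
    obtain ⟨Q', h3, h4⟩ := Finset.exists_subset_card_eq h1
    exact ⟨Q', h4, fun z hz => h2 z (h3 hz)⟩
  choose Q hQc hQ using hQ
  -- the pairs
  let J : Type := Σ g : (Fin d → Fin (N + 1)), (Q g) × (Q g)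
  have hcard : Fintype.card J = (N + 1) ^ d * k ^ 2 := by
    rw [Fintype.card_sigma]
    have h1 : ∀ g, Fintype.card ((Q g) × (Q g)) = k ^ 2 := by
      intro g
      rw [Fintype.card_prod, Fintype.card_coe, hQc, sq]
    rw [Finset.sum_congr rfl fun g _ => h1 g, Finset.sum_const, Finset.card_univ,
      Fintype.card_fun, Fintype.card_fin, Fintype.card_fin, smul_eq_mul]
  set X : ℕ := (N + 1) ^ d * k ^ 2 with hX
  set s0 : ℕ := ⌈(m : ℝ) * B * X⌉₊ + 1 with hs0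
  have hab : ∀ j : J, (if j.2.1 = j.2.2 then (1 : ℂ) else
      (s0 : ℂ) * (η0 (j.2.1 : Fin m → ℂ) - η0 (j.2.2 : Fin m → ℂ))) ≠ 0 ∨
      (if j.2.1 = j.2.2 then (0 : Fin m → ℂ) else fun l =>
        η0 (j.2.1 : Fin m → ℂ) * (j.2.1 : Fin m → ℂ) l -
        η0 (j.2.2 : Fin m → ℂ) * (j.2.2 : Fin m → ℂ) l) ≠ 0 := by
    intro j
    by_cases hj : j.2.1 = j.2.2
    · left
      simp only [hj, if_true]
      exact one_ne_zero
    · simp only [if_neg hj]
      by_contra hc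
      push Not at hc
      obtain ⟨h1, h2⟩ := hc
      have hs : (s0 : ℂ) ≠ 0 := by
        rw [hs0]
        exact_mod_cast Nat.succ_ne_zero ⌈(m : ℝ) * B * X⌉₊
      have h3 := sub_eq_zero.mp ((mul_eq_zero.mp h1).resolve_left hs)
      apply hj
      apply Subtype.ext
      funext l
      have h4 := congrFun h2 l
      simp only [Pi.zero_apply] at h4
      have h5 : η0 (j.2.2 : Fin m → ℂ) ≠ 0 := by
        have h6 := (hQ j.1 j.2.2 j.2.2.2).2.2.2
        intro h7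
        rw [h7, norm_zero] at h6
        exact absurd h6 (not_le.mpr (Real.exp_pos Λ))
      rw [h3, ← mul_sub] at h4
      exact sub_eq_zero.mp ((mul_eq_zero.mp h4).resolve_left h5)
  obtain ⟨t, ht, hne⟩ := B5.exists_grid_point (R := m) (J := J) _ _ hab
  rw [hcard] at ht
  have hts : ∀ l, (t l : ℝ) ≤ X := fun l => by exact_mod_cast ht l
  have hs0' : (m : ℝ) * B * X + 1 ≤ s0 := by
    rw [hs0]
    push_cast
    have := Nat.le_ceil ((m : ℝ) * B * X)
    linarith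
  have hs0'' : (s0 : ℝ) ≤ (m : ℝ) * B * X + 2 := by
    rw [hs0]
    push_cast
    have := (Nat.ceil_lt_add_one (a := (m : ℝ) * B * X) (by positivity)).le
    linarith
  have hX' : ((N : ℝ) + 1) ^ d * k ^ 2 = X := by
    rw [hX]
    push_cast
    ring
  refine ⟨s0, t, ?_, ?_, ?_⟩
  · have h1 : ∑ l, (t l : ℝ) ≤ m * X := by
      refine (Finset.sum_le_sum fun l _ => hts l).trans ?_
      rw [Finset.sum_const, Finset.card_univ, Fintype.card_fin, nsmul_eq_mul]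
    rw [hX']
    have h2 : (0 : ℝ) ≤ X := Nat.cast_nonneg _
    have h3 : (0 : ℝ) ≤ m := Nat.cast_nonneg _
    nlinarith [mul_nonneg h3 hB]
  · rw [hs0]
    omega
  · intro F hF hsum
    refine ZB.no_small N k Λ hΛ F (by rwa [mul_comm] at hsum ⊢) ?_
    intro ζ hζ
    obtain ⟨g, hg⟩ : ∃ g : Fin d → Fin (N + 1), gr g = ζ := by
      have h1 : ∀ i, ∃ j : Fin (N + 1), ω ^ (j : ℕ) = ζ i := by
        intro i
        obtain ⟨j, hj, hj'⟩ := hω.eq_pow_of_pow_eq_one (hζ i)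
        exact ⟨⟨j, hj⟩, hj'⟩
      choose g hg using h1
      exact ⟨g, funext hg⟩
    have hta : ∀ z ∈ Q g, 1 ≤ ‖ta s0 t z‖ := by
      intro z hz
      have h1 := (hQ g z hz).2.1
      have h2 : ‖∑ l, (t l : ℂ) * z l‖ ≤ m * B * X := by
        refine (norm_sum_le _ _).trans ?_
        have h3 : ∀ l ∈ (Finset.univ : Finset (Fin m)), ‖(t l : ℂ) * z l‖ ≤ X * B := by
          intro l _
          rw [norm_mul, Complex.norm_natCast]
          exact mul_le_mul (hts l) (h1 l) (norm_nonneg _) (Nat.cast_nonneg _)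
        refine (Finset.sum_le_sum h3).trans ?_
        rw [Finset.sum_const, Finset.card_univ, Fintype.card_fin, nsmul_eq_mul]
        exact le_of_eq (by ring)
      have h3 : ‖(s0 : ℂ)‖ = s0 := Complex.norm_natCast s0
      have h4 : ‖(s0 : ℂ)‖ ≤ ‖ta s0 t z‖ + ‖∑ l, (t l : ℂ) * z l‖ := by
        have h5 : (s0 : ℂ) = ta s0 t z - ∑ l, (t l : ℂ) * z l := by
          unfold ta
          ring
        rw [h5]
        exact norm_sub_le _ _
      linarith
    refine ⟨(Q g).image fun z => η0 z * ta s0 t z, ?_, ?_⟩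
    · rw [Finset.card_image_of_injOn, hQc]
      intro z hz z' hz' h
      by_contra hzz
      have h1 := hne ⟨g, ⟨z, hz⟩, ⟨z', hz'⟩⟩
      have h2 : (⟨z, hz⟩ : Q g) ≠ ⟨z', hz'⟩ := fun h => hzz (Subtype.mk.inj h)
      rw [if_neg h2, if_neg h2] at h1
      apply h1
      have h3 : η0 z * ta s0 t z = η0 z' * ta s0 t z' := h
      unfold ta at h3
      have h4 : ∀ (y : Fin m → ℂ), η0 y * ((s0 : ℂ) + ∑ l, (t l : ℂ) * y l) =
          (s0 : ℂ) * η0 y + ∑ l, (t l : ℂ) * (η0 y * y l) := by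
        intro y
        rw [mul_add, Finset.mul_sum]
        congr 1
        · ring
        · exact Finset.sum_congr rfl fun l _ => by ring
      rw [h4, h4] at h3
      have h5 : ∑ l, (t l : ℂ) * (η0 z * z l - η0 z' * z' l) =
          ∑ l, (t l : ℂ) * (η0 z * z l) - ∑ l, (t l : ℂ) * (η0 z' * z' l) := by
        rw [← Finset.sum_sub_distrib]
        exact Finset.sum_congr rfl fun l _ => by ring
      change (s0 : ℂ) * (η0 z - η0 z') + ∑ l, (t l : ℂ) * (η0 z * z l - η0 z' * z' l) = 0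
      rw [h5]
      linear_combination h3
    · intro y hy
      obtain ⟨z, hz, rfl⟩ := Finset.mem_image.mp hy
      obtain ⟨h1, h2, h3, h4⟩ := hQ g z hz
      constructor
      · rw [norm_mul]
        have h5 := hta z hz
        have h6 := norm_nonneg (η0 z)
        nlinarith [Real.exp_pos Λ]
      · rw [← hF z h1]
        refine Finset.sum_congr rfl fun e _ => Finset.sum_congr rfl fun β _ => ?_
        have h5 : ∏ i, η i z ^ (β i : ℕ) = ∏ i, ζ i ^ (β i : ℕ) :=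
          Finset.prod_congr rfl fun i _ => by rw [h3 i, hg]
        rw [h5]
        ring

end J

end Pool.Agent.ZP
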