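import Pool.Agent.Lib.MP_c95b3b_ag_ZP.JE
import Pool.Agent.Lib.MP_c95b3b_ag_ZP.Box
import Pool.Agent.Lib.MP_c95b3b_ag_AL.ZA

set_option autoImplicit false

/-! Project ZP (MP_c95b3b_ag), block J: the functions, as Laurent polynomials. -/

namespace Pool.Agent.ZP

open MvPolynomial Filter Topology Module Pool.Agent.L3 Pool.Agent.SD Pool.Agent.AL

namespace J

/-- Laurent polynomials given by an indexed family of terms -/
theorem lp_index {K : Type} [Field K] {n : ℕ} {ι : Type} (S : Finset ι) (E : ι → Fin n → ℤ)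
    (q : ι → K) (Ξ : Fin n → MvPowerSeries (Fin n) K) :
    ∑ i ∈ S, MvPowerSeries.C (q i) * psm Ξ (E i) =
      lp Ξ (S.image E) (fun a => ∑ i ∈ S with E i = a, q i) := by
  classical
  unfold lp
  rw [← Finset.sum_fiberwise_of_maps_to (s := S) (t := S.image E) (g := E)
    (fun i hi => Finset.mem_image_of_mem E hi)]
  refine Finset.sum_congr rfl fun a _ => ?_
  rw [map_sum, Finset.sum_mul]
  refine Finset.sum_congr rfl fun i hi => ?_
  rw [(Finset.mem_filter.mp hi).2]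

theorem sum_index_le {F : Type} [SeminormedAddCommGroup F] {n : ℕ} {ι : Type} (S : Finset ι)
    (E : ι → Fin n → ℤ) (q : ι → F) :
    ∑ a ∈ S.image E, ‖∑ i ∈ S with E i = a, q i‖ ≤ ∑ i ∈ S, ‖q i‖ := by
  classical
  rw [← Finset.sum_fiberwise_of_maps_to (s := S) (t := S.image E) (g := E)
    (fun i hi => Finset.mem_image_of_mem E hi)]
  exact Finset.sum_le_sum fun a _ => norm_sum_le _ _

/-! ### Powers of `τ` -/

/-- the power of `τ` as a polynomial -/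
noncomputable def tp {m : ℕ} (s0 : ℕ) (s : Fin m → ℕ) (e : ℕ) : MvPolynomial (Fin m) ℤ :=
  ta s0 s X ^ e

/-- the exponents of the powers of `τ` -/
noncomputable def tG {m : ℕ} (s0 : ℕ) (s : Fin m → ℕ) (N : ℕ) : Finset (Fin m →₀ ℕ) :=
  Finset.univ.biUnion fun e : Fin (N + 1) => (tp s0 s (e : ℕ)).support

theorem totalDegree_ta {m : ℕ} (s0 : ℕ) (s : Fin m → ℕ) :
    (ta s0 s (X : Fin m → MvPolynomial (Fin m) ℤ)).totalDegree ≤ 1 := by
  unfold ta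
  refine (totalDegree_add _ _).trans (max_le ?_ ?_)
  · rw [← map_natCast (C : ℤ →+* MvPolynomial (Fin m) ℤ), totalDegree_C]
    exact Nat.zero_le _
  · refine totalDegree_finsetSum_le fun l _ => ?_
    rw [← map_natCast (C : ℤ →+* MvPolynomial (Fin m) ℤ)]
    refine (totalDegree_mul _ _).trans ?_
    rw [totalDegree_C, totalDegree_X]

theorem tG_le {m : ℕ} {s0 : ℕ} {s : Fin m → ℕ} {N : ℕ} {γ : Fin m →₀ ℕ}
    (h : γ ∈ tG s0 s N) : ∑ l, γ l ≤ N := by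
  obtain ⟨e, _, he⟩ := Finset.mem_biUnion.mp h
  have h1 := le_totalDegree he
  have h2 : (tp s0 s (e : ℕ)).totalDegree ≤ e := by
    refine (totalDegree_pow _ _).trans ?_
    have := totalDegree_ta s0 s
    nlinarith
  have h3 : (γ.sum fun _ e => e) = ∑ l, γ l := by
    rw [Finsupp.sum_fintype _ _ (fun _ => rfl)]
  have h4 := e.2
  omega

theorem ta_pow {m : ℕ} (s0 : ℕ) (s : Fin m → ℕ) (N : ℕ) (e : Fin (N + 1)) {R : Type}
    [CommRing R] (x : Fin m → R) : ta s0 s x ^ (e : ℕ) =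
      ∑ γ ∈ tG s0 s N, ((coeff γ (tp s0 s (e : ℕ)) : ℤ) : R) * ∏ l, x l ^ γ l := by
  have h1 : ta s0 s x ^ (e : ℕ) = eval₂ (Int.castRingHom R) x (tp s0 s (e : ℕ)) := by
    rw [tp, eval₂_pow]
    congr 1
    unfold ta
    simp
  rw [h1, eval₂_eq']
  refine Finset.sum_subset ?_ ?_
  · intro γ hγ
    exact Finset.mem_biUnion.mpr ⟨e, Finset.mem_univ _, hγ⟩
  · intro γ _ hγ
    rw [notMem_support_iff.mp hγ]
    simp

theorem l1_ta {m : ℕ} (s0 : ℕ) (s : Fin m → ℕ) :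
    l1 (ta s0 s (X : Fin m → MvPolynomial (Fin m) ℤ)) ≤ s0 + ∑ l, (s l : ℝ) := by
  unfold ta
  refine (l1_add _ _).trans (add_le_add ?_ ((l1_sum _ _).trans
    (Finset.sum_le_sum fun l _ => ?_)))
  · rw [← map_natCast (C : ℤ →+* MvPolynomial (Fin m) ℤ), l1_C]
    simp
  · refine (l1_mul _ _).trans ?_
    rw [← map_natCast (C : ℤ →+* MvPolynomial (Fin m) ℤ), l1_C, l1_X]
    simp

theorem sum_coeff_le {m : ℕ} (s0 : ℕ) (s : Fin m → ℕ) (N : ℕ) (e : Fin (N + 1)) {τ1 : ℝ}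
    (h1 : 1 ≤ τ1) (h2 : (s0 : ℝ) + ∑ l, (s l : ℝ) ≤ τ1) :
    ∑ γ ∈ tG s0 s N, |((coeff γ (tp s0 s (e : ℕ)) : ℤ) : ℝ)| ≤ τ1 ^ N := by
  have h3 : ∑ γ ∈ tG s0 s N, |((coeff γ (tp s0 s (e : ℕ)) : ℤ) : ℝ)| = l1 (tp s0 s (e : ℕ)) := by
    rw [l1]
    symm
    refine Finset.sum_subset ?_ ?_
    · intro γ hγ
      exact Finset.mem_biUnion.mpr ⟨e, Finset.mem_univ _, hγ⟩
    · intro γ _ hγ
      rw [notMem_support_iff.mp hγ]
      simp
  rw [h3, tp]
  refine (l1_pow _ _).trans ?_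
  have h4 : l1 (ta s0 s (X : Fin m → MvPolynomial (Fin m) ℤ)) ≤ τ1 := (l1_ta s0 s).trans h2
  refine (pow_le_pow_left₀ (l1_nonneg _) h4 _).trans ?_
  exact pow_le_pow_right₀ h1 (Nat.lt_succ_iff.mp e.2)

/-! ### The functions -/

section fam
variable {n q m d N : ℕ} {blk : Fin n → Fin (q + 1)}

/-- exponents in the block `0` -/
def gx (eq : Fin m ≃ B0 blk) (γ : Fin m →₀ ℕ) (i : Fin n) : ℤ :=
  if h : blk i = 0 then (γ (eq.symm ⟨i, h⟩) : ℤ) else 0

theorem gx_nonneg (eq : Fin m ≃ B0 blk) (γ : Fin m →₀ ℕ) (i : Fin n) : 0 ≤ gx eq γ i := by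
  unfold gx
  split_ifs
  · exact Int.natCast_nonneg _
  · exact le_rfl

theorem gx_zero (eq : Fin m ≃ B0 blk) (γ : Fin m →₀ ℕ) (i : Fin n) (h : blk i ≠ 0) :
    gx eq γ i = 0 := by
  unfold gx
  rw [dif_neg h]

theorem gx_eq (eq : Fin m ≃ B0 blk) (γ : Fin m →₀ ℕ) (l : Fin m) : gx eq γ (eq l) = γ l := by
  unfold gx
  rw [dif_pos (eq l).2]
  have h1 : (⟨(eq l : Fin n), (eq l).2⟩ : B0 blk) = eq l := Subtype.ext rfl
  rw [h1, Equiv.symm_apply_apply]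

theorem prod_B0 {M : Type} [CommMonoid M] (eq : Fin m ≃ B0 blk) (f : Fin n → M)
    (hf : ∀ i, blk i ≠ 0 → f i = 1) : ∏ i, f i = ∏ l, f (eq l) := by
  classical
  have h1 : ∏ i, f i = ∏ i : Fin n with blk i = 0, f i := by
    rw [Finset.prod_filter]
    refine Finset.prod_congr rfl fun i _ => ?_
    split_ifs with h
    · rfl
    · exact hf i h
  rw [h1, ← Equiv.prod_comp eq.symm]
  simp only [Equiv.apply_symm_apply]
  exact (Finset.prod_subtype (Finset.univ.filter fun i => blk i = 0) (p := fun i => blk i = 0)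
    (fun i => by simp) f)

theorem sum_gx (eq : Fin m ≃ B0 blk) (γ : Fin m →₀ ℕ) : ∑ i, gx eq γ i = ((∑ l, γ l : ℕ) : ℤ) := by
  have h1 := prod_B0 (M := Multiplicative ℤ) eq (fun i => Multiplicative.ofAdd (gx eq γ i))
    (fun i hi => by rw [gx_zero eq γ i hi]; rfl)
  have h2 : ∑ i, gx eq γ i = ∑ l, gx eq γ (eq l) := by
    have h3 := congrArg Multiplicative.toAdd h1
    rw [toAdd_prod, toAdd_prod] at h3
    exact h3
  rw [h2]
  push_cast
  exact Finset.sum_congr rfl fun l _ => gx_eq eq γ l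

theorem psm_gx {K : Type} [Field K] (eq : Fin m ≃ B0 blk) (Ξ : Fin n → MvPowerSeries (Fin n) K)
    (γ : Fin m →₀ ℕ) : psm Ξ (gx eq γ) = ∏ l, Ξ (eq l) ^ γ l := by
  unfold psm
  rw [prod_B0 eq _ (fun i hi => by
    rw [gx_zero eq γ i hi, neg_zero, Int.toNat_zero, pow_zero, pow_zero, mul_one])]
  refine Finset.prod_congr rfl fun l _ => ?_
  rw [gx_eq, Int.toNat_natCast]
  have h1 : (-(γ l : ℤ)).toNat = 0 := by omega
  rw [h1, pow_zero, mul_one]

/-- the index set of the functions -/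
abbrev Dx (κ : Type) (d N : ℕ) : Type := κ × Fin (N + 1) × (Fin d → Fin (N + 1))

/-- the functions -/
noncomputable def fam {K : Type} [Field K] {κ : Type} (Ξ : Fin n → MvPowerSeries (Fin n) K)
    (eq : Fin m ≃ B0 blk) (θ : κ → Fin n → ℤ) (a0 : Fin n → ℤ) (a : Fin d → Fin n → ℤ)
    (s0 : ℕ) (s : Fin m → ℕ) (p : Dx κ d N) : MvPowerSeries (Fin n) K :=
  psm Ξ (θ p.1 + ex0 a0 a p.2.1 p.2.2) * ta s0 s (fun l => Ξ (eq l)) ^ (p.2.1 : ℕ)

/-- the exponents of the terms of the functions -/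
noncomputable def fx {κ : Type} (eq : Fin m ≃ B0 blk) (θ : κ → Fin n → ℤ) (a0 : Fin n → ℤ)
    (a : Fin d → Fin n → ℤ) (i : Dx κ d N × (Fin m →₀ ℕ)) : Fin n → ℤ :=
  θ i.1.1 + ex0 a0 a i.1.2.1 i.1.2.2 + gx eq i.2

theorem map_fam {K K' : Type} [Field K] [Field K'] {κ : Type} (e' : K →+* K')
    {Ξ : Fin n → MvPowerSeries (Fin n) K} (hΞ : ∀ i, MvPowerSeries.constantCoeff (Ξ i) ≠ 0)
    (eq : Fin m ≃ B0 blk) (θ : κ → Fin n → ℤ) (a0 : Fin n → ℤ) (a : Fin d → Fin n → ℤ)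
    (s0 : ℕ) (s : Fin m → ℕ) (p : Dx κ d N) :
    MvPowerSeries.map e' (fam Ξ eq θ a0 a s0 s p) =
      fam (fun i => MvPowerSeries.map e' (Ξ i)) eq θ a0 a s0 s p := by
  unfold fam
  rw [map_mul, map_pow, map_psm e' Ξ hΞ, map_ta]

/-- combinations of the functions as Laurent polynomials -/
theorem sum_fam {K : Type} [Field K] {κ : Type} [Fintype κ]
    {Ξ : Fin n → MvPowerSeries (Fin n) K} (hΞ : ∀ i, MvPowerSeries.constantCoeff (Ξ i) ≠ 0)
    (eq : Fin m ≃ B0 blk) (θ : κ → Fin n → ℤ) (a0 : Fin n → ℤ) (a : Fin d → Fin n → ℤ)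
    (s0 : ℕ) (s : Fin m → ℕ) (w : Dx κ d N → K) :
    ∑ p, MvPowerSeries.C (w p) * fam Ξ eq θ a0 a s0 s p =
      lp Ξ (((Finset.univ : Finset (Dx κ d N)) ×ˢ tG s0 s N).image (fx eq θ a0 a))
        (fun b => ∑ i ∈ (Finset.univ : Finset (Dx κ d N)) ×ˢ tG s0 s N with fx eq θ a0 a i = b,
          w i.1 * ((coeff i.2 (tp s0 s (i.1.2.1 : ℕ)) : ℤ) : K)) := by
  classical
  rw [← lp_index, Finset.sum_product]
  refine Finset.sum_congr rfl fun p _ => ?_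
  unfold fam
  rw [ta_pow, Finset.mul_sum, Finset.mul_sum]
  refine Finset.sum_congr rfl fun γ _ => ?_
  unfold fx
  rw [psm_add Ξ hΞ _ (gx eq γ), psm_gx, map_mul, map_intCast]
  ring

end fam

end J

end Pool.Agent.ZP
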