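import Mathlib

/-!
# No small relations (5.6)
-/

set_option autoImplicit false

namespace Pool.Agent.ZP.NoSmall

open Finset

/-- Landau's inequality with many large roots. -/
theorem landau {p : Polynomial ℂ} {s : Finset ℂ} {R : ℝ} (hR : 1 ≤ R)
    (hs : ∀ y ∈ s, R ≤ ‖y‖ ∧ p.eval y = 0) (hp : p ≠ 0) :
    ‖p.leadingCoeff‖ * R ^ s.card ≤ p.sum fun _ a => ‖a‖ := by
  classical
  refine le_trans ?_ p.mahlerMeasure_le_sum_norm_coeff
  rw [p.mahlerMeasure_eq_leadingCoeff_mul_prod_roots]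
  apply mul_le_mul_of_nonneg_left _ (norm_nonneg _)
  have hsub : s.val ≤ p.roots := by
    rw [Multiset.le_iff_subset s.nodup]
    intro y hy
    rw [Polynomial.mem_roots hp]
    exact (hs y hy).2
  obtain ⟨t, ht⟩ := Multiset.le_iff_exists_add.1 hsub
  rw [ht, Multiset.map_add, Multiset.prod_add]
  have h1 : R ^ s.card ≤ (s.val.map fun a => max 1 ‖a‖).prod := by
    have h2 : (s.val.map fun a => max 1 ‖a‖).prod = ∏ a ∈ s, max 1 ‖a‖ := rfl
    rw [h2, ← prod_const]
    apply prod_le_prod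
    · intro i _
      linarith
    · intro i hi
      exact (hs i hi).1.trans (le_max_right _ _)
  have h3 : 1 ≤ (t.map fun a => max 1 ‖a‖).prod := by
    apply Multiset.one_le_prod
    intro x hx
    rw [Multiset.mem_map] at hx
    obtain ⟨a, _, rfl⟩ := hx
    exact le_max_left _ _
  have h4 : 0 ≤ R ^ s.card := by positivity
  calc R ^ s.card = R ^ s.card * 1 := (mul_one _).symm
    _ ≤ (s.val.map fun a => max 1 ‖a‖).prod * (t.map fun a => max 1 ‖a‖).prod :=
      mul_le_mul h1 h3 zero_le_one (h4.trans h1)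

/-- The coefficients of a polynomial are averages over the grid of roots of unity. -/
theorem grid_coeff {d N : ℕ} (G : (Fin d → Fin (N + 1)) → ℂ) {c : ℝ}
    (hc : ∀ η : Fin d → ℂ, (∀ i, η i ^ (N + 1) = 1) →
      ‖∑ j, G j * ∏ i, η i ^ (j i : ℕ)‖ ≤ c) (j₀ : Fin d → Fin (N + 1)) : ‖G j₀‖ ≤ c := by
  classical
  obtain ⟨ζ, hζ⟩ : ∃ ζ : ℂ, IsPrimitiveRoot ζ (N + 1) :=
    ⟨_, Complex.isPrimitiveRoot_exp (N + 1) (Nat.succ_ne_zero N)⟩
  have hζ0 : ζ ≠ 0 := hζ.ne_zero (Nat.succ_ne_zero N)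
  have hζn : ‖ζ‖ = 1 := hζ.norm'_eq_one (Nat.succ_ne_zero N)
  -- orthogonality in one variable
  have horth : ∀ a b : Fin (N + 1), ∑ k : Fin (N + 1), (ζ ^ (k : ℕ)) ^ (a : ℕ) *
      ((ζ ^ (k : ℕ)) ^ (b : ℕ))⁻¹ = if a = b then ((N + 1 : ℕ) : ℂ) else 0 := by
    intro a b
    by_cases hab : a = b
    · subst hab
      rw [if_pos rfl]
      have : ∀ k : Fin (N + 1), (ζ ^ (k : ℕ)) ^ (a : ℕ) * ((ζ ^ (k : ℕ)) ^ (a : ℕ))⁻¹ = 1 :=
        fun k => mul_inv_cancel₀ (pow_ne_zero _ (pow_ne_zero _ hζ0))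
      rw [sum_congr rfl (fun k _ => this k), sum_const, card_univ, Fintype.card_fin]
      simp
    · rw [if_neg hab]
      set ξ : ℂ := ζ ^ (a : ℕ) * (ζ ^ (b : ℕ))⁻¹ with hξ
      have h1 : ∀ k : Fin (N + 1), (ζ ^ (k : ℕ)) ^ (a : ℕ) * ((ζ ^ (k : ℕ)) ^ (b : ℕ))⁻¹ =
          ξ ^ (k : ℕ) := by
        intro k
        rw [hξ, mul_pow, inv_pow, ← pow_mul, ← pow_mul, ← pow_mul, ← pow_mul, mul_comm (k : ℕ),
          mul_comm (k : ℕ)]
      rw [sum_congr rfl (fun k _ => h1 k)]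
      have h2 : ∑ k : Fin (N + 1), ξ ^ (k : ℕ) = ∑ k ∈ range (N + 1), ξ ^ k :=
        (Finset.sum_range (fun k => ξ ^ k)).symm
      rw [h2]
      have hξ1 : ξ ≠ 1 := by
        intro h
        apply hab
        have h3 : ζ ^ (a : ℕ) = ζ ^ (b : ℕ) := by
          rw [hξ] at h
          exact (mul_inv_eq_one₀ (pow_ne_zero _ hζ0)).1 h
        exact Fin.ext (hζ.pow_inj a.2 b.2 h3)
      have hξN : ξ ^ (N + 1) = 1 := by
        rw [hξ, mul_pow, inv_pow, ← pow_mul, ← pow_mul, mul_comm (a : ℕ), mul_comm (b : ℕ),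
          pow_mul, pow_mul, hζ.pow_eq_one, one_pow, one_pow, inv_one, mul_one]
      have h4 := geom_sum_mul ξ (N + 1)
      rw [hξN, sub_self] at h4
      exact (mul_eq_zero.1 h4).resolve_right (sub_ne_zero.2 hξ1)
  -- the average
  let L : (Fin d → Fin (N + 1)) → ℂ := fun k => ∑ j, G j * ∏ i, (ζ ^ (k i : ℕ)) ^ (j i : ℕ)
  have hL : ∀ k, ‖L k‖ ≤ c := by
    intro k
    apply hc (fun i => ζ ^ (k i : ℕ))
    intro i
    rw [← pow_mul, mul_comm, pow_mul, hζ.pow_eq_one, one_pow]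
  have key : ∑ k, L k * ∏ i, ((ζ ^ (k i : ℕ)) ^ (j₀ i : ℕ))⁻¹ =
      ((N + 1 : ℕ) : ℂ) ^ d * G j₀ := by
    have h1 : ∀ k : Fin d → Fin (N + 1), L k * ∏ i, ((ζ ^ (k i : ℕ)) ^ (j₀ i : ℕ))⁻¹ =
        ∑ j, G j * ∏ i, ((ζ ^ (k i : ℕ)) ^ (j i : ℕ) * ((ζ ^ (k i : ℕ)) ^ (j₀ i : ℕ))⁻¹) := by
      intro k
      simp only [L]
      rw [sum_mul]
      apply sum_congr rfl
      intro j _
      rw [prod_mul_distrib]
      ring
    rw [sum_congr rfl (fun k _ => h1 k), sum_comm]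
    have h2 : ∀ j : Fin d → Fin (N + 1), ∑ k : Fin d → Fin (N + 1), G j *
        ∏ i, ((ζ ^ (k i : ℕ)) ^ (j i : ℕ) * ((ζ ^ (k i : ℕ)) ^ (j₀ i : ℕ))⁻¹) =
        G j * ∏ i, (if j i = j₀ i then ((N + 1 : ℕ) : ℂ) else 0) := by
      intro j
      rw [← mul_sum]
      congr 1
      rw [← prod_congr rfl (fun i _ => horth (j i) (j₀ i)), prod_univ_sum]
      rw [Fintype.piFinset_univ]
    rw [sum_congr rfl (fun j _ => h2 j), sum_eq_single j₀]
    · simp only [if_true, prod_const, card_univ, Fintype.card_fin]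
      ring
    · intro j _ hj
      obtain ⟨i, hi⟩ := Function.ne_iff.1 hj
      rw [prod_eq_zero (mem_univ i) (if_neg hi), mul_zero]
    · intro h
      exact absurd (mem_univ _) h
  have hnorm : ‖((N + 1 : ℕ) : ℂ) ^ d * G j₀‖ ≤ ((N + 1 : ℕ) : ℝ) ^ d * c := by
    rw [← key]
    refine (norm_sum_le _ _).trans ?_
    have h1 : ∀ k : Fin d → Fin (N + 1), ‖L k * ∏ i, ((ζ ^ (k i : ℕ)) ^ (j₀ i : ℕ))⁻¹‖ ≤ c := by
      intro k
      rw [norm_mul, norm_prod]
      have : ∏ i, ‖((ζ ^ (k i : ℕ)) ^ (j₀ i : ℕ))⁻¹‖ = 1 := by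
        apply prod_eq_one
        intro i _
        rw [norm_inv, norm_pow, norm_pow, hζn, one_pow, one_pow, inv_one]
      rw [this, mul_one]
      exact hL k
    refine (sum_le_sum fun k _ => h1 k).trans (le_of_eq ?_)
    rw [sum_const, card_univ, Fintype.card_fun, Fintype.card_fin, Fintype.card_fin, nsmul_eq_mul]
    push_cast
    ring
  rw [norm_mul, norm_pow, Complex.norm_natCast] at hnorm
  have hpos : 0 < ((N + 1 : ℕ) : ℝ) ^ d := by positivity
  exact le_of_mul_le_mul_left hnorm hpos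

/-- No small relations. -/
theorem no_small {d N m : ℕ} {lam : ℝ} (hlam : 0 ≤ lam)
    (F : Fin (N + 1) → (Fin d → Fin (N + 1)) → ℤ)
    (hroot : ∀ η : Fin d → ℂ, (∀ i, η i ^ (N + 1) = 1) →
      ∃ s : Finset ℂ, m ≤ s.card ∧ ∀ y ∈ s, Real.exp lam ≤ ‖y‖ ∧
        ∑ a, ∑ j, (F a j : ℂ) * (∏ i, η i ^ (j i : ℕ)) * y ^ (a : ℕ) = 0)
    (hsize : ∑ a, ∑ j, |(F a j : ℝ)| < Real.exp (lam * m)) : ∀ a j, F a j = 0 := by
  classical
  by_contra hcon
  push Not at hcon
  -- the largest index with a non zero coefficient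
  have hne : (univ.filter fun a : Fin (N + 1) => ∃ j, F a j ≠ 0).Nonempty := by
    obtain ⟨a, j, h⟩ := hcon
    exact ⟨a, by simp only [mem_filter, mem_univ, true_and]; exact ⟨j, h⟩⟩
  obtain ⟨e, he, hmax⟩ := exists_max_image _ (fun a : Fin (N + 1) => (a : ℕ)) hne
  simp only [mem_filter, mem_univ, true_and] at he hmax
  obtain ⟨j₀, hj₀⟩ := he
  have hbig : ∀ a : Fin (N + 1), (e : ℕ) < a → ∀ j, F a j = 0 := by
    intro a ha j
    by_contra h
    exact absurd (hmax a ⟨j, h⟩) (by omega)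
  set R : ℝ := Real.exp lam with hR
  have hR1 : 1 ≤ R := Real.one_le_exp hlam
  set X : ℝ := ∑ a, ∑ j, |(F a j : ℝ)| with hX
  have hX0 : 0 ≤ X := sum_nonneg fun a _ => sum_nonneg fun j _ => abs_nonneg _
  have hRm : Real.exp (lam * m) = R ^ m := by
    rw [hR, ← Real.exp_nat_mul]
    ring_nf
  have hRmpos : 0 < R ^ m := by positivity
  -- values of the leading coefficient
  have hlead : ∀ η : Fin d → ℂ, (∀ i, η i ^ (N + 1) = 1) →
      ‖∑ j, (F e j : ℂ) * ∏ i, η i ^ (j i : ℕ)‖ ≤ X / R ^ m := by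
    intro η hη
    have hη1 : ∀ i, ‖η i‖ = 1 := fun i =>
      Complex.norm_eq_one_of_pow_eq_one (hη i) (Nat.succ_ne_zero N)
    set lc : ℂ := ∑ j, (F e j : ℂ) * ∏ i, η i ^ (j i : ℕ) with hlc
    by_cases h0 : lc = 0
    · rw [h0, norm_zero]
      positivity
    let cf : Fin (N + 1) → ℂ := fun a => ∑ j, (F a j : ℂ) * ∏ i, η i ^ (j i : ℕ)
    have hcf : ∀ a, ‖cf a‖ ≤ ∑ j, |(F a j : ℝ)| := by
      intro a
      refine (norm_sum_le _ _).trans (sum_le_sum fun j _ => ?_)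
      rw [norm_mul, norm_prod]
      have h1 : ∏ i, ‖η i ^ (j i : ℕ)‖ = 1 := by
        apply prod_eq_one
        intro i _
        rw [norm_pow, hη1, one_pow]
      rw [h1, mul_one, Complex.norm_intCast]
    let p : Polynomial ℂ := ∑ a : Fin (N + 1), Polynomial.monomial (a : ℕ) (cf a)
    have hpc : ∀ n : ℕ, p.coeff n = if h : n < N + 1 then cf ⟨n, h⟩ else 0 := by
      intro n
      simp only [p, Polynomial.finsetSum_coeff, Polynomial.coeff_monomial]
      by_cases h : n < N + 1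
      · rw [dif_pos h, sum_eq_single ⟨n, h⟩]
        · rw [if_pos rfl]
        · intro b _ hb
          rw [if_neg]
          intro h1
          apply hb
          exact Fin.ext h1
        · intro h1
          exact absurd (mem_univ _) h1
      · rw [dif_neg h]
        apply sum_eq_zero
        intro b _
        rw [if_neg]
        intro h1
        exact h (h1 ▸ b.2)
    have hpe : p.coeff (e : ℕ) = lc := by
      rw [hpc, dif_pos e.2]
    have hp0 : p ≠ 0 := by
      intro h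
      rw [h, Polynomial.coeff_zero] at hpe
      exact h0 hpe.symm
    have hdeg : p.natDegree = (e : ℕ) := by
      apply le_antisymm
      · rw [Polynomial.natDegree_le_iff_coeff_eq_zero]
        intro n hn
        rw [hpc]
        by_cases h : n < N + 1
        · rw [dif_pos h]
          simp only [cf]
          apply sum_eq_zero
          intro j _
          rw [hbig ⟨n, h⟩ hn j]
          simp
        · rw [dif_neg h]
      · apply Polynomial.le_natDegree_of_ne_zero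
        rw [hpe]
        exact h0
    have hpl : p.leadingCoeff = lc := by
      rw [Polynomial.leadingCoeff, hdeg, hpe]
    have hsum : (p.sum fun _ a => ‖a‖) ≤ X := by
      have h1 : (p.sum fun _ a => ‖a‖) ≤ ∑ n ∈ range (N + 1), ‖p.coeff n‖ := by
        rw [Polynomial.sum_def]
        apply sum_le_sum_of_subset_of_nonneg
        · intro n hn
          rw [Polynomial.mem_support_iff] at hn
          rw [mem_range]
          by_contra h
          rw [hpc, dif_neg h] at hn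
          exact hn rfl
        · intro _ _ _
          exact norm_nonneg _
      refine h1.trans ?_
      rw [Finset.sum_range]
      refine sum_le_sum fun a _ => ?_
      rw [hpc, dif_pos a.2]
      exact hcf a
    obtain ⟨s, hs1, hs2⟩ := hroot η hη
    have hev : ∀ y ∈ s, R ≤ ‖y‖ ∧ p.eval y = 0 := by
      intro y hy
      refine ⟨(hs2 y hy).1, ?_⟩
      rw [← (hs2 y hy).2]
      simp only [p, Polynomial.eval_finsetSum, Polynomial.eval_monomial, cf]
      apply sum_congr rfl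
      intro a _
      rw [sum_mul]
    have h5 := landau hR1 hev hp0
    rw [hpl] at h5
    rw [le_div_iff₀ hRmpos]
    calc ‖lc‖ * R ^ m ≤ ‖lc‖ * R ^ s.card :=
          mul_le_mul_of_nonneg_left (pow_le_pow_right₀ hR1 hs1) (norm_nonneg _)
      _ ≤ _ := h5
      _ ≤ X := hsum
  have h6 := grid_coeff (fun j => (F e j : ℂ)) hlead j₀
  have h7 : X / R ^ m < 1 := by
    rw [div_lt_one hRmpos, ← hRm]
    exact hsize
  have h8 : ‖((F e j₀ : ℤ) : ℂ)‖ < 1 := lt_of_le_of_lt h6 h7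
  rw [Complex.norm_intCast] at h8
  have h9 : |F e j₀| < 1 := by exact_mod_cast h8
  exact hj₀ (Int.abs_lt_one_iff.1 h9)

end Pool.Agent.ZP.NoSmall
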