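import Mathlib
import Pool.Agent.Lib.MP_c95b3b_ag_ZP.Defs
import Pool.Agent.Lib.MP_c95b3b_ag_SD.RkAlg

set_option autoImplicit false

/-! Project ZP (MP_c95b3b_ag): the complex branch: its coordinates in `I` are algebraically
independent, the others are algebraic over them, `dm (cl.xi ν) = cl.I.card`. -/

namespace Pool.Agent.ZP

open MvPolynomial Filter Topology Module Pool.Agent.L3 Pool.Agent.SD Pool.Agent.AL

namespace Xi

section
variable {K : Type} [Field K] {n q : ℕ} (e : K →+* ℂ) (I : Finset (Fin n)) (P : Fin n → K)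
  (g : Fin n → MvPolynomial (Fin n) ℤ) (Ξ : Fin n → MvPowerSeries (Fin n) K)

/-- the complex branch -/
noncomputable def cx (i : Fin n) : FC n :=
  algebraMap (MvPowerSeries (Fin n) ℂ) (FC n) (MvPowerSeries.map e (Ξ i))

theorem aeval_cx (F : MvPolynomial (Fin n) ℤ) :
    aeval (cx e Ξ) F =
      algebraMap (MvPowerSeries (Fin n) ℂ) (FC n) (MvPowerSeries.map e (aeval Ξ F)) := by
  have h : ∀ F : MvPolynomial (Fin n) ℤ, aeval (cx e Ξ) F =
      ((algebraMap (MvPowerSeries (Fin n) ℂ) (FC n)).comp (MvPowerSeries.map e)) (aeval Ξ F) := by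
    intro F
    rw [map_aeval, aeval_def]
    congr 1
    exact RingHom.ext_int _ _
  exact h F

theorem const_aeval (hb : IsBranch I P g Ξ) (F : MvPolynomial (Fin n) ℤ) :
    MvPowerSeries.constantCoeff (aeval Ξ F) = aeval P F := by
  induction F using MvPolynomial.induction_on with
  | C a => simp
  | add p q hp hq => rw [map_add, map_add, map_add, hp, hq]
  | mul_X p i hp => rw [map_mul, map_mul, map_mul, hp, aeval_X, aeval_X, hb.const]

theorem cx_ne (hb : IsBranch I P g Ξ) (hP : ∀ i, P i ≠ 0) (i : Fin n) : cx e Ξ i ≠ 0 := by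
  intro h
  rw [cx, map_eq_zero_iff _ (IsFractionRing.injective (MvPowerSeries (Fin n) ℂ) (FC n))] at h
  have h1 := congrArg MvPowerSeries.constantCoeff h
  rw [MvPowerSeries.constantCoeff_map, hb.const, map_zero] at h1
  exact hP i ((map_eq_zero e).1 h1)

theorem ne_zero_of_const (hb : IsBranch I P g Ξ) (F : MvPolynomial (Fin n) ℤ)
    (h : aeval P F ≠ 0) : aeval (cx e Ξ) F ≠ 0 := by
  intro h0
  rw [aeval_cx, map_eq_zero_iff _ (IsFractionRing.injective (MvPowerSeries (Fin n) ℂ) (FC n))]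
    at h0
  have h1 := congrArg MvPowerSeries.constantCoeff h0
  rw [MvPowerSeries.constantCoeff_map, const_aeval I P g Ξ hb, map_zero] at h1
  exact h ((map_eq_zero e).1 h1)

/-- the coordinates in `I` are algebraically independent -/
theorem algInd_cx (hb : IsBranch I P g Ξ) :
    AlgebraicIndependent ℂ (fun i : I => cx e Ξ i.1) := by
  rw [algebraicIndependent_iff]
  intro F hF
  -- the polynomial in the coordinates of the power series
  have h1 : ∀ F : MvPolynomial I ℂ, aeval (fun i : I => cx e Ξ i.1) F =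
      algebraMap (MvPowerSeries (Fin n) ℂ) (FC n)
        ((aeval (fun i : I => (X i.1 + C (e (P i.1)) : MvPolynomial (Fin n) ℂ)) F :
          MvPolynomial (Fin n) ℂ) : MvPowerSeries (Fin n) ℂ) := by
    intro F
    induction F using MvPolynomial.induction_on with
    | C a =>
      rw [aeval_C, aeval_C, MvPolynomial.algebraMap_eq, MvPolynomial.coe_C]
      rw [IsScalarTower.algebraMap_apply ℂ (MvPowerSeries (Fin n) ℂ) (FC n)]
      rfl
    | add p q hp hq => rw [map_add, map_add, hp, hq, MvPolynomial.coe_add, map_add]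
    | mul_X p i hp =>
      rw [map_mul, map_mul, hp, MvPolynomial.coe_mul, map_mul, aeval_X, aeval_X]
      congr 1
      rw [cx, hb.free i.1 i.2]
      congr 1
      rw [map_add, MvPowerSeries.map_C, MvPowerSeries.map_X, MvPolynomial.coe_add,
        MvPolynomial.coe_X, MvPolynomial.coe_C, add_comm]
  rw [h1, map_eq_zero_iff _ (IsFractionRing.injective (MvPowerSeries (Fin n) ℂ) (FC n))] at hF
  have h2 : aeval (fun i : I => (X i.1 + C (e (P i.1)) : MvPolynomial (Fin n) ℂ)) F = 0 := by
    rw [← MvPolynomial.coe_eq_zero_iff]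
    exact hF
  -- the inverse substitution
  have h3 : ∀ F : MvPolynomial I ℂ,
      aeval (fun i : Fin n => (X i - C (e (P i)) : MvPolynomial (Fin n) ℂ))
        (aeval (fun i : I => (X i.1 + C (e (P i.1)) : MvPolynomial (Fin n) ℂ)) F) =
      rename Subtype.val F := by
    intro F
    induction F using MvPolynomial.induction_on with
    | C a => simp
    | add p q hp hq => rw [map_add, map_add, hp, hq, map_add]
    | mul_X p i hp =>
      rw [map_mul, map_mul, hp, map_mul, aeval_X, map_add, aeval_X, rename_X]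
      congr 1
      rw [← MvPolynomial.algebraMap_eq, AlgHom.commutes]
      rw [MvPolynomial.algebraMap_eq]
      ring
  have h4 := h3 F
  rw [h2, map_zero] at h4
  exact (rename_injective _ Subtype.val_injective) (by rw [← h4, map_zero])

theorem der_aeval_int {L : Type} [Field L] [Algebra ℂ L] [Algebra ℤ L] (x : Fin n → L) (D : Derivation ℂ L L)
    (F : MvPolynomial (Fin n) ℤ) : D (aeval x F) = ∑ j, aeval x (pderiv j F) * D (x j) := by
  classical
  induction F using MvPolynomial.induction_on with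
  | C a =>
    have h1 : (aeval x (C a : MvPolynomial (Fin n) ℤ) : L) = algebraMap ℂ L (a : ℂ) := by
      rw [aeval_C, map_intCast]
      exact eq_intCast _ a
    rw [h1, Derivation.map_algebraMap]
    refine (Finset.sum_eq_zero fun j _ => ?_).symm
    rw [pderiv_C, map_zero, zero_mul]
  | add p q hp hq => simp only [map_add, hp, hq, add_mul, Finset.sum_add_distrib]
  | mul_X p i hp =>
    rw [map_mul, aeval_X, Derivation.leibniz, hp, smul_eq_mul, smul_eq_mul]
    have h1 : ∀ j, aeval x (pderiv j (p * X i)) * D (x j) =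
        x i * (aeval x (pderiv j p) * D (x j)) + (if j = i then aeval x p * D (x j) else 0) := by
      intro j
      rw [pderiv_mul, map_add, map_mul, map_mul, aeval_X, pderiv_X, Pi.single_apply]
      by_cases hj : j = i
      · subst hj
        simp only [if_true, map_one, mul_one]
        ring
      · rw [if_neg hj, if_neg fun h => hj h.symm, map_zero, mul_zero]
        ring
    rw [Finset.sum_congr rfl fun j _ => h1 j, Finset.sum_add_distrib, ← Finset.mul_sum,
      Finset.sum_ite_eq' Finset.univ i, if_pos (Finset.mem_univ i)]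
    ring

/-- the forms of the coordinates outside `I` are combinations of the forms of the coordinates in
`I` -/
theorem fm_mem (hb : IsBranch I P g Ξ) (hP : ∀ i, P i ≠ 0) {blk : Fin n → Fin (q + 1)}
    (hr : IsRel I blk P g) (l : Fin n) :
    RkAlg.fm (cx e Ξ) l ∈ Submodule.span (FC n) (Set.range fun i : I => RkAlg.fm (cx e Ξ) i.1) := by
  classical
  have hx := cx_ne e I P g Ξ hb hP
  by_cases hl : l ∈ I
  · exact Submodule.subset_span ⟨⟨l, hl⟩, rfl⟩
  have h1 := ne_zero_of_const e I P g Ξ hb _ (hr.der l hl)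
  have h2 : aeval (cx e Ξ) (g l) = 0 := by rw [aeval_cx, hb.rel l hl, map_zero, map_zero]
  have h3 : RkAlg.fm (cx e Ξ) l = ∑ i : I,
      (-(aeval (cx e Ξ) (pderiv i.1 (g l)) * cx e Ξ i.1 /
        (aeval (cx e Ξ) (pderiv l (g l)) * cx e Ξ l))) • RkAlg.fm (cx e Ξ) i.1 := by
    refine LinearMap.ext fun D => ?_
    have h4 := der_aeval_int (cx e Ξ) D (g l)
    rw [h2, map_zero] at h4
    have h5 : ∀ j, j ∉ I → j ≠ l → aeval (cx e Ξ) (pderiv j (g l)) * D (cx e Ξ j) = 0 := by
      intro j hj hjl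
      rw [pderiv_eq_zero_of_notMem_vars, map_zero, zero_mul]
      intro h6
      rcases hr.vars l hl j h6 with h7 | h7
      · exact hjl h7
      · exact hj h7.1
    have h6 : ∑ j, aeval (cx e Ξ) (pderiv j (g l)) * D (cx e Ξ j) =
        aeval (cx e Ξ) (pderiv l (g l)) * D (cx e Ξ l) +
          ∑ i : I, aeval (cx e Ξ) (pderiv i.1 (g l)) * D (cx e Ξ i.1) := by
      rw [Finset.sum_coe_sort I (fun i => aeval (cx e Ξ) (pderiv i (g l)) * D (cx e Ξ i)),
        ← Finset.sum_insert (f := fun i => aeval (cx e Ξ) (pderiv i (g l)) * D (cx e Ξ i)) hl]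
      refine (Finset.sum_subset (Finset.subset_univ _) fun j _ hj => ?_).symm
      rw [Finset.mem_insert, not_or] at hj
      exact h5 j hj.2 hj.1
    rw [h6] at h4
    have h7 : ∀ i, RkAlg.fm (cx e Ξ) i D = D (cx e Ξ i) / cx e Ξ i := by
      intro i
      rw [RkAlg.fm, om_rv hx, mn_single]
    rw [LinearMap.sum_apply, h7]
    simp only [LinearMap.smul_apply, smul_eq_mul, h7]
    have h8 : D (cx e Ξ l) = -(∑ i : I, aeval (cx e Ξ) (pderiv i.1 (g l)) * D (cx e Ξ i.1)) /
        aeval (cx e Ξ) (pderiv l (g l)) := by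
      rw [eq_div_iff h1]
      linear_combination -h4
    rw [h8, div_div, ← Finset.sum_neg_distrib, Finset.sum_div]
    refine Finset.sum_congr rfl fun i _ => ?_
    have h9 := hx i.1
    have h10 := hx l
    field_simp
  rw [h3]
  exact Submodule.sum_mem _ fun i _ => Submodule.smul_mem _ _ (Submodule.subset_span ⟨i, rfl⟩)

/-- the dimension of the branch -/
theorem dm_cx (hb : IsBranch I P g Ξ) (hP : ∀ i, P i ≠ 0) {blk : Fin n → Fin (q + 1)}
    (hr : IsRel I blk P g) : dm (cx e Ξ) = I.card := by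
  classical
  have hx := cx_ne e I P g Ξ hb hP
  have h1 := (RkAlg.ind_iff hx (fun i : I => i.1)).2 (algInd_cx e I P g Ξ hb)
  rw [RkAlg.dm_eq_finrank]
  have h2 : Submodule.span (FC n) (Set.range (RkAlg.fm (cx e Ξ))) =
      Submodule.span (FC n) (Set.range fun i : I => RkAlg.fm (cx e Ξ) i.1) := by
    apply le_antisymm
    · rw [Submodule.span_le]
      rintro _ ⟨l, rfl⟩
      exact fm_mem e I P g Ξ hb hP hr l
    · refine Submodule.span_mono ?_
      rintro _ ⟨i, rfl⟩
      exact ⟨i.1, rfl⟩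
  rw [h2, finrank_span_eq_card h1, Fintype.card_coe]

end

end Xi

variable {𝓤 : Ultrafilter ℕ} {n q : ℕ}

theorem Cl.xi_eq {c : Cfg 𝓤 n q} (cl : Cl c) (ν : ℕ) : cl.xi ν = Xi.cx (c.e ν) (cl.Ξ ν) := rfl

/-- the dimension of the branch -/
theorem Cl.dm_xi {c : Cfg 𝓤 n q} (cl : Cl c) :
    ∀ᶠ ν in (𝓤 : Filter ℕ), dm (cl.xi ν) = cl.I.card := by
  filter_upwards [cl.br, cl.rel] with ν h1 h2
  exact Xi.dm_cx (c.e ν) cl.I (c.S.p ν) (cl.g ν) (cl.Ξ ν) h1 (c.S.ne ν) h2.1

/-- the coordinates of the branch are not zero -/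
theorem Cl.xi_ne {c : Cfg 𝓤 n q} (cl : Cl c) :
    ∀ᶠ ν in (𝓤 : Filter ℕ), ∀ i, cl.xi ν i ≠ 0 := by
  filter_upwards [cl.br] with ν h1
  exact Xi.cx_ne (c.e ν) cl.I (c.S.p ν) (cl.g ν) (cl.Ξ ν) h1 (c.S.ne ν)

/-- the coordinates in `I` are algebraically independent -/
theorem Cl.algInd_xi {c : Cfg 𝓤 n q} (cl : Cl c) :
    ∀ᶠ ν in (𝓤 : Filter ℕ), AlgebraicIndependent ℂ (fun i : cl.I => cl.xi ν i.1) := by
  filter_upwards [cl.br] with ν h1
  exact Xi.algInd_cx (c.e ν) cl.I (c.S.p ν) (cl.g ν) (cl.Ξ ν) h1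

end Pool.Agent.ZP
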